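import Mathlib

/-! The potential inequality for the two families of zombies on the two axes. -/

namespace MP34e

/-- one step towards zero -/
def tz (a : ℤ) : ℤ := if 0 < a then a - 1 else if a < 0 then a + 1 else 0

/-- the potential of one direction -/
def FF (X : ℤ) (r l : ℕ) : ℤ := X.natAbs + ((r - (-X).toNat : ℕ) + (l - X.toNat : ℕ) : ℤ)

/-- indicator as an integer -/
def ci (p : Prop) [Decidable p] : ℤ := if p then 1 else 0

theorem FF_nonneg (X : ℤ) (r l : ℕ) : (X.natAbs : ℤ) ≤ FF X r l := by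
  unfold FF; omega

theorem FF_dec (X : ℤ) (r l : ℕ) : FF X (r - 1) (l - 1) ≤ FF X r l := by
  unfold FF; omega

theorem FF_dec' (X : ℤ) (r l : ℕ) (hr : 0 < r) (hl : 0 < l) :
    FF X (r - 1) (l - 1) + 1 ≤ FF X r l := by
  unfold FF; omega

theorem FF_tz (X : ℤ) (r l : ℕ) : FF (tz X) (r - 1) (l - 1) + (ci (X ≠ 0)) ≤ FF X r l := by
  unfold FF tz ci; split_ifs <;> omega

theorem tz_abs (X : ℤ) : ((tz X).natAbs : ℤ) = X.natAbs - ci (X ≠ 0) := by
  unfold tz ci; split_ifs <;> omega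

/-- A horizontal move, seen in its own direction. -/
theorem xfacts (s : ℤ) (hs : s = 1 ∨ s = -1) (X : ℤ) (r l : ℕ) :
    ∃ X1 r1 l1, X1 = X + s ∧ r1 = ((r : ℤ) - s).toNat ∧ l1 = ((l : ℤ) + s).toNat ∧
    (((X1.natAbs : ℤ) = X.natAbs + 1 ∧ X1 ≠ 0 ∧ ((tz X1).natAbs : ℤ) = X.natAbs ∧
        ∃ e : ℤ, (e = 0 ∨ e = 1) ∧ FF (tz X1) (r1 - 1) (l1 - 1) ≤ FF X r l - e ∧
          FF X1 r1 l1 ≤ FF X r l + 1 - e ∧ FF X1 (r1 - 1) (l1 - 1) ≤ FF X r l + 1 - e ∧
          (e = 0 → r1 = 0 ∨ l1 = 0)) ∨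
     ((X1.natAbs : ℤ) = X.natAbs - 1 ∧ X1 ≠ 0 ∧ ((tz X1).natAbs : ℤ) = X.natAbs - 2 ∧
        FF (tz X1) (r1 - 1) (l1 - 1) ≤ FF X r l - 2 ∧
          FF X1 r1 l1 ≤ FF X r l ∧ FF X1 (r1 - 1) (l1 - 1) ≤ FF X r l - 1) ∨
     ((X.natAbs : ℤ) = 1 ∧ X1 = 0 ∧ (X1.natAbs : ℤ) = 0 ∧ ((tz X1).natAbs : ℤ) = 0 ∧
        FF (tz X1) (r1 - 1) (l1 - 1) ≤ FF X r l - 1 ∧
          FF X1 r1 l1 ≤ FF X r l ∧ FF X1 (r1 - 1) (l1 - 1) ≤ FF X r l - 1)) := by
  refine ⟨_, _, _, rfl, rfl, rfl, ?_⟩
  rcases hs with rfl | rfl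
  · rcases lt_trichotomy (X + 1) 0 with h | h | h
    · right; left
      have e : tz (X + 1) = X + 2 := by unfold tz; split_ifs <;> omega
      rw [e]
      unfold FF
      omega
    · right; right
      have e : tz (X + 1) = 0 := by unfold tz; split_ifs <;> omega
      rw [e]
      unfold FF
      omega
    · left
      have e : tz (X + 1) = X := by unfold tz; split_ifs <;> omega
      rw [e]
      refine ⟨by omega, by omega, by omega, ?_⟩
      rcases Nat.eq_zero_or_pos r with hr | hr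
      · refine ⟨0, Or.inl rfl, ?_⟩
        unfold FF
        omega
      · refine ⟨1, Or.inr rfl, ?_⟩
        unfold FF
        omega
  · rcases lt_trichotomy (X + -1) 0 with h | h | h
    · left
      have e : tz (X + -1) = X := by unfold tz; split_ifs <;> omega
      rw [e]
      refine ⟨by omega, by omega, by omega, ?_⟩
      rcases Nat.eq_zero_or_pos l with hr | hr
      · refine ⟨0, Or.inl rfl, ?_⟩
        unfold FF
        omega
      · refine ⟨1, Or.inr rfl, ?_⟩
        unfold FF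
        omega
    · right; right
      have e : tz (X + -1) = 0 := by unfold tz; split_ifs <;> omega
      rw [e]
      unfold FF
      omega
    · right; left
      have e : tz (X + -1) = X - 2 := by unfold tz; split_ifs <;> omega
      rw [e]
      unfold FF
      omega

/-- The potential inequality for a horizontal move `s`. -/
theorem pot_h (s : ℤ) (hs : s = 1 ∨ s = -1) (X Y : ℤ) (r l t b : ℕ) (X1 : ℤ) (r1 l1 : ℕ)
    (hX1 : X1 = X + s) (hr1 : r1 = ((r : ℤ) - s).toNat) (hl1 : l1 = ((l : ℤ) + s).toNat) :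
    |(Y.natAbs : ℤ) - (tz X1).natAbs - (Y.natAbs - X.natAbs) + 1 - 1|
    + |((tz Y).natAbs : ℤ) - X1.natAbs - (Y.natAbs - X.natAbs) + 1 + 1|
    + 2 * (FF (tz X1) (r1 - 1) (l1 - 1) + (if X1 = 0 then FF Y (t - 1) (b - 1) else FF Y t b)
      + (if Y = 0 then FF X1 (r1 - 1) (l1 - 1) else FF X1 r1 l1) + FF (tz Y) (t - 1) (b - 1))
    ≤ 4 * (FF X r l + FF Y t b) +
      4 * (ci (Y = 0 ∧ r1 = 0) + ci (Y = 0 ∧ l1 = 0) + ci (X1 = 0 ∧ t = 0) + ci (X1 = 0 ∧ b = 0)) := by
  obtain ⟨X1', r1', l1', e1, e2, e3, h⟩ := xfacts s hs X r l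
  obtain rfl : X1' = X1 := e1.trans hX1.symm
  obtain rfl : r1' = r1 := e2.trans hr1.symm
  obtain rfl : l1' = l1 := e3.trans hl1.symm
  clear hX1 hr1 hl1 e1 e2 e3
  have g1 := FF_dec Y t b
  have g2 := FF_tz Y t b
  have g3 := tz_abs Y
  have g4 : 0 ≤ ci (X1' = 0 ∧ t = 0) := by unfold ci; split_ifs <;> omega
  have g5 : 0 ≤ ci (X1' = 0 ∧ b = 0) := by unfold ci; split_ifs <;> omega
  generalize ci (X1' = 0 ∧ t = 0) = c1 at *
  generalize ci (X1' = 0 ∧ b = 0) = c2 at *
  generalize FF Y (t - 1) (b - 1) = y1 at *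
  generalize FF Y t b = y0 at *
  generalize FF (tz Y) (t - 1) (b - 1) = y2 at *
  generalize FF X r l = x0 at *
  generalize FF (tz X1') (r1' - 1) (l1' - 1) = x1 at *
  generalize FF X1' (r1' - 1) (l1' - 1) = x2 at *
  generalize FF X1' r1' l1' = x3 at *
  generalize ((tz X1').natAbs : ℤ) = z1 at *
  generalize ((tz Y).natAbs : ℤ) = z2 at *
  unfold ci at *
  rcases h with ⟨h1, h2, h3, e, he, h4, h5, h6, h7⟩ | ⟨h1, h2, h3, h4, h5, h6⟩ | ⟨h1, h2, h3, h4, h5, h6⟩
  · rw [abs_eq_max_neg, abs_eq_max_neg, if_neg h2]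
    by_cases hY : Y = 0
    · subst hY
      simp only [true_and, if_true, ne_eq, not_true_eq_false, if_false] at *
      rcases he with rfl | rfl
      · rcases h7 rfl with h8 | h8
        · rw [if_pos h8]; split_ifs <;> omega
        · rw [if_pos h8]; split_ifs <;> omega
      · split_ifs <;> omega
    · simp only [hY, false_and, if_false, ne_eq, not_false_eq_true, if_true] at *
      omega
  · rw [abs_eq_max_neg, abs_eq_max_neg, if_neg h2]
    by_cases hY : Y = 0
    · subst hY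
      simp only [true_and, if_true, ne_eq, not_true_eq_false, if_false] at *
      split_ifs <;> omega
    · simp only [hY, false_and, if_false, ne_eq, not_false_eq_true, if_true] at *
      omega
  · rw [abs_eq_max_neg, abs_eq_max_neg, if_pos h2]
    by_cases hY : Y = 0
    · subst hY
      simp only [true_and, if_true, ne_eq, not_true_eq_false, if_false] at *
      split_ifs <;> omega
    · simp only [hY, false_and, if_false, ne_eq, not_false_eq_true, if_true] at *
      omega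

/-- The potential inequality when the survivor stays. -/
theorem pot_0 (X Y : ℤ) (r l t b : ℕ) :
    |(Y.natAbs : ℤ) - (tz X).natAbs - (Y.natAbs - X.natAbs) - 1|
    + |((tz Y).natAbs : ℤ) - X.natAbs - (Y.natAbs - X.natAbs) + 1|
    + 2 * (FF (tz X) (r - 1) (l - 1) + (if X = 0 then FF Y (t - 1) (b - 1) else FF Y t b)
      + (if Y = 0 then FF X (r - 1) (l - 1) else FF X r l) + FF (tz Y) (t - 1) (b - 1))
    ≤ 4 * (FF X r l + FF Y t b) +
      4 * (ci (Y = 0 ∧ r = 0) + ci (Y = 0 ∧ l = 0) + ci (X = 0 ∧ t = 0) + ci (X = 0 ∧ b = 0)) := by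
  have g1 := FF_dec Y t b
  have g1' := FF_dec' Y t b
  have g2 := FF_tz Y t b
  have g3 := tz_abs Y
  have f1 := FF_dec X r l
  have f1' := FF_dec' X r l
  have f2 := FF_tz X r l
  have f3 := tz_abs X
  generalize FF Y (t - 1) (b - 1) = y1 at *
  generalize FF Y t b = y0 at *
  generalize FF (tz Y) (t - 1) (b - 1) = y2 at *
  generalize FF X r l = x0 at *
  generalize FF (tz X) (r - 1) (l - 1) = x1 at *
  generalize FF X (r - 1) (l - 1) = x2 at *
  generalize ((tz X).natAbs : ℤ) = z1 at *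
  generalize ((tz Y).natAbs : ℤ) = z2 at *
  rw [abs_eq_max_neg, abs_eq_max_neg]
  unfold ci at *
  by_cases hX : X = 0 <;> by_cases hY : Y = 0
  · subst hX; subst hY
    simp only [true_and, if_true, ne_eq, not_true_eq_false, if_false] at *
    split_ifs <;> omega
  · subst hX
    simp only [true_and, hY, false_and, if_true, ne_eq, not_true_eq_false, if_false, not_false_eq_true] at *
    split_ifs <;> omega
  · subst hY
    simp only [true_and, hX, false_and, if_true, ne_eq, not_true_eq_false, if_false, not_false_eq_true] at *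
    split_ifs <;> omega
  · simp only [hX, hY, false_and, if_true, ne_eq, if_false, not_false_eq_true] at *
    omega

end MP34e
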