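import Pool.Agent.Work.MP_34e428_co.Mass
import Pool.Agent.Work.MP_34e428_co.Pot

/-! Families of zombies: one zombie per site of a half line parallel to an axis. -/

open Finset
open scoped Classical

namespace MP34e

/-- mass of the zombies at displacements `(c + j, Y)`, `j : ℕ` -/
noncomputable def ray (l : List (ℤ × ℤ)) (c Y : ℤ) : ℝ := ∑' j : ℕ, pc l (c + j, Y)

theorem ray_summable (l : List (ℤ × ℤ)) (hl : ∀ s ∈ l, legal s) (c Y : ℤ) :
    Summable (fun j : ℕ => pc l (c + j, Y)) := by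
  apply summable_of_ne_finset_zero (s := Finset.range (2 * l.length + c.natAbs + 1))
  intro j hj
  by_contra h
  have h1 := pc_support l hl _ h
  rw [Finset.mem_range] at hj
  simp only at h1
  have := abs_nonneg Y
  have h2 : |c + (j : ℤ)| ≤ 2 * l.length := by linarith
  rw [abs_le] at h2
  omega

theorem ray_nonneg (l : List (ℤ × ℤ)) (c Y : ℤ) : 0 ≤ ray l c Y :=
  tsum_nonneg fun _ => pc_nonneg _ _

theorem ray_succ (l : List (ℤ × ℤ)) (hl : ∀ s ∈ l, legal s) (c Y : ℤ) :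
    ray l c Y = pc l (c, Y) + ray l (c + 1) Y := by
  unfold ray
  rw [(ray_summable l hl c Y).tsum_eq_zero_add]
  simp only [Nat.cast_zero, add_zero]
  congr 1
  refine tsum_congr fun j => ?_
  congr 2
  push_cast; ring

theorem ray_anti (l : List (ℤ × ℤ)) (hl : ∀ s ∈ l, legal s) (c d Y : ℤ) (h : c ≤ d) :
    ray l d Y ≤ ray l c Y := by
  induction d, h using Int.leInduction with
  | base => exact le_rfl
  | succ d _ ih =>
    refine le_trans ?_ ih
    rw [ray_succ l hl d Y]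
    linarith [pc_nonneg l (d, Y)]

theorem tz_eq (a : ℤ) : tz a = a - a.sign := by
  unfold tz
  split_ifs with h1 h2
  · rw [Int.sign_eq_one_of_pos h1]
  · rw [Int.sign_eq_neg_one_of_neg h2]; ring
  · have : a = 0 := by omega
    subst this; simp

theorem pc_off (s : ℤ × ℤ) (l : List (ℤ × ℤ)) (a Y : ℤ) (ha : 0 < a) (hY : Y ≠ 0) :
    pc (s :: l) (a, Y) = (pc l (a - 1 + s.1, Y + s.2) + pc l (a + s.1, tz Y + s.2)) / 2 := by
  have h1 : (a, Y) ≠ 0 := fun h => hY (congrArg Prod.snd h)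
  rw [pc, if_neg h1, if_neg (show (a, Y).1 ≠ 0 by simp; omega), if_neg (show (a, Y).2 ≠ 0 from hY)]
  have e1 : hx (a, Y) + s = (a - 1 + s.1, Y + s.2) := by
    unfold hx
    rw [Int.sign_eq_one_of_pos ha]
    rfl
  have e2 : hy (a, Y) + s = (a + s.1, tz Y + s.2) := by
    unfold hy
    rw [tz_eq]
    rfl
  rw [e1, e2]

theorem pc_on (s : ℤ × ℤ) (l : List (ℤ × ℤ)) (a : ℤ) (ha : 1 < a) :
    pc (s :: l) (a, 0) = pc l (a - 1 + s.1, s.2) := by
  have h1 : (a, (0 : ℤ)) ≠ 0 := fun h => by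
    have := congrArg Prod.fst h
    simp at this; omega
  rw [pc, if_neg h1, if_neg (show (a, (0 : ℤ)).1 ≠ 0 by simp; omega),
    if_pos (show (a, (0 : ℤ)).2 = 0 from rfl)]
  have e1 : hx (a, 0) = (a - 1, 0) := by
    unfold hx
    rw [Int.sign_eq_one_of_pos (by omega)]
  rw [e1, if_neg]
  · congr 1
    ext <;> simp
  · intro h
    have := congrArg Prod.fst h
    simp at this; omega

theorem pc_one (s : ℤ × ℤ) (l : List (ℤ × ℤ)) : pc (s :: l) (1, 0) = 1 := by
  rw [pc]
  simp [hx]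

/-- the family of the zombies at distances `> r` in one direction -/
noncomputable def fam (l : List (ℤ × ℤ)) (r : ℕ) (Y : ℤ) : ℝ := ray l (r + 1) Y

theorem fam_nonneg (l : List (ℤ × ℤ)) (r : ℕ) (Y : ℤ) : 0 ≤ fam l r Y := ray_nonneg _ _ _

theorem fam_step (s : ℤ × ℤ) (l : List (ℤ × ℤ)) (hl : ∀ s ∈ l, legal s) (hs : legal s) (r : ℕ)
    (Y : ℤ) :
    ((ci (Y = 0 ∧ r = 0) : ℤ) : ℝ) + (fam l (((r - 1 : ℕ) : ℤ) + s.1).toNat (Y + s.2)
      + (if Y = 0 then fam l (((r - 1 : ℕ) : ℤ) + s.1).toNat (tz Y + s.2)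
        else fam l ((r : ℤ) + s.1).toNat (tz Y + s.2))) / 2 ≤ fam (s :: l) r Y := by
  have hs1 : |s.1| ≤ 1 := by
    unfold legal at hs
    linarith [abs_nonneg s.2]
  rw [abs_le] at hs1
  have hl' : ∀ t ∈ s :: l, legal t := by
    intro t ht
    rcases List.mem_cons.1 ht with rfl | ht
    · exact hs
    · exact hl t ht
  by_cases hY : Y = 0
  · subst hY
    have e0 : tz 0 = 0 := by simp [tz]
    rw [if_pos rfl, e0, zero_add]
    have key : ∀ c : ℤ, 1 < c → ray (s :: l) c 0 = ray l (c - 1 + s.1) s.2 := by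
      intro c hc
      unfold ray
      refine tsum_congr fun j => ?_
      rw [pc_on s l _ (by omega)]
      congr 2
      ring
    rcases Nat.eq_zero_or_pos r with hr | hr
    · subst hr
      unfold fam ci
      rw [ray_succ _ hl']
      rw [if_pos ⟨rfl, rfl⟩]
      simp only [Nat.cast_zero, zero_add, Nat.zero_sub, Int.cast_one]
      rw [pc_one, key (1 + 1) (by norm_num)]
      have h5 : ray l ((s.1.toNat : ℤ) + 1) s.2 ≤ ray l (1 + 1 - 1 + s.1) s.2 :=
        ray_anti l hl (1 + 1 - 1 + s.1) ((s.1.toNat : ℤ) + 1) s.2 (by omega)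
      generalize ray l (1 + 1 - 1 + s.1) s.2 = x1 at *
      generalize ray l ((s.1.toNat : ℤ) + 1) s.2 = x2 at *
      linarith
    · unfold fam ci
      rw [if_neg (by omega)]
      rw [key _ (by omega)]
      have := ray_anti l hl ((r : ℤ) + 1 - 1 + s.1) (((((r - 1 : ℕ) : ℤ) + s.1).toNat : ℤ) + 1)
        s.2 (by omega)
      simp only [Int.cast_zero]
      linarith
  · unfold fam ci
    rw [if_neg (by tauto), if_neg hY]
    have key : ray (s :: l) ((r : ℤ) + 1) Y
        = (ray l ((r : ℤ) + s.1) (Y + s.2) + ray l ((r : ℤ) + 1 + s.1) (tz Y + s.2)) / 2 := by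
      unfold ray
      rw [← (ray_summable l hl _ _).tsum_add (ray_summable l hl _ _), ← tsum_div_const]
      refine tsum_congr fun j => ?_
      rw [pc_off s l _ _ (by omega) hY]
      congr 3 <;> congr 1 <;> ring
    rw [key]
    have h1 := ray_anti l hl ((r : ℤ) + s.1) (((((r - 1 : ℕ) : ℤ) + s.1).toNat : ℤ) + 1)
        (Y + s.2) (by omega)
    have h2 := ray_anti l hl ((r : ℤ) + 1 + s.1) (((((r : ℤ) + s.1).toNat : ℕ) : ℤ) + 1)
        (tz Y + s.2) (by omega)
    simp only [Int.cast_zero]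
    linarith

/-! Symmetries. -/

/-- reflection of the first coordinate -/
def nx (D : ℤ × ℤ) : ℤ × ℤ := (-D.1, D.2)

theorem pc_nx (l : List (ℤ × ℤ)) (D : ℤ × ℤ) : pc (l.map nx) (nx D) = pc l D := by
  induction l generalizing D with
  | nil =>
    rw [List.map_nil, pc, pc]
    have : nx D = 0 ↔ D = 0 := by
      unfold nx
      rw [Prod.ext_iff, Prod.ext_iff]
      simp
    simp [this]
  | cons s l ih =>
    rw [List.map_cons, pc, pc]
    have h0 : ∀ D : ℤ × ℤ, nx D = 0 ↔ D = 0 := by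
      intro D
      unfold nx
      rw [Prod.ext_iff, Prod.ext_iff]
      simp
    have e1 : hx (nx D) = nx (hx D) := by
      unfold hx nx
      simp only [Int.sign_neg]
      ext <;> simp; ring
    have e2 : hy (nx D) = nx (hy D) := by
      unfold hy nx
      rfl
    have e3 : ∀ D E : ℤ × ℤ, nx D + nx E = nx (D + E) := by
      intro D E
      unfold nx
      ext <;> simp; ring
    have e4 : (nx D).1 = 0 ↔ D.1 = 0 := by unfold nx; simp
    have e5 : (nx D).2 = D.2 := rfl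
    simp only [e1, e2, e3, h0, e4, e5, ih]

theorem pc_swap (l : List (ℤ × ℤ)) (D : ℤ × ℤ) : pc (l.map Prod.swap) D.swap = pc l D := by
  induction l generalizing D with
  | nil =>
    rw [List.map_nil, pc, pc]
    have : D.swap = 0 ↔ D = 0 := by
      rw [Prod.ext_iff, Prod.ext_iff]
      simp [and_comm]
    simp [this]
  | cons s l ih =>
    rw [List.map_cons, pc, pc]
    have h0 : ∀ D : ℤ × ℤ, D.swap = 0 ↔ D = 0 := by
      intro D
      rw [Prod.ext_iff, Prod.ext_iff]
      simp [and_comm]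
    have e1 : hx D.swap = (hy D).swap := by
      unfold hx hy
      rfl
    have e2 : hy D.swap = (hx D).swap := by
      unfold hy hx
      rfl
    have e3 : ∀ D E : ℤ × ℤ, D.swap + E.swap = (D + E).swap := by
      intro D E
      rfl
    have e4 : D.swap.1 = D.2 := rfl
    have e5 : D.swap.2 = D.1 := rfl
    simp only [e1, e2, e3, h0, e4, e5, ih]
    by_cases h1 : D = 0
    · simp [h1]
    · simp only [h1, if_false]
      by_cases h2 : D.1 = 0 <;> by_cases h3 : D.2 = 0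
      · exact absurd (Prod.ext h2 h3) h1
      · simp [h2, h3]
      · simp [h2, h3]
      · simp only [h2, h3, if_false]
        ring

theorem legal_nx (s : ℤ × ℤ) (h : legal s) : legal (nx s) := by
  unfold legal nx at *
  simpa using h

theorem legal_swap (s : ℤ × ℤ) (h : legal s) : legal s.swap := by
  unfold legal at *
  simp only [Prod.fst_swap, Prod.snd_swap]
  linarith

theorem legal_map (f : ℤ × ℤ → ℤ × ℤ) (hf : ∀ s, legal s → legal (f s)) (l : List (ℤ × ℤ))
    (hl : ∀ s ∈ l, legal s) : ∀ s ∈ l.map f, legal s := by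
  intro s hs
  obtain ⟨t, ht, rfl⟩ := List.mem_map.1 hs
  exact hf t (hl t ht)

/-- rotation -/
def rt (D : ℤ × ℤ) : ℤ × ℤ := nx D.swap

theorem pc_rt (l : List (ℤ × ℤ)) (D : ℤ × ℤ) : pc (l.map rt) (rt D) = pc l D := by
  rw [← pc_swap l D, ← pc_nx (l.map Prod.swap)]
  rw [List.map_map]
  rfl

theorem legal_rt (s : ℤ × ℤ) (h : legal s) : legal (rt s) := legal_nx _ (legal_swap _ h)

/-- The mass of the four families in the state `(X, r, l, Y, t, b)`. -/
noncomputable def WW (p : List (ℤ × ℤ)) (X : ℤ) (r l : ℕ) (Y : ℤ) (t b : ℕ) : ℝ :=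
  fam (p.map nx) r Y + fam p l Y + fam (p.map rt) t X + fam (p.map Prod.swap) b X

theorem WW_nonneg (p : List (ℤ × ℤ)) (X : ℤ) (r l : ℕ) (Y : ℤ) (t b : ℕ) : 0 ≤ WW p X r l Y t b := by
  unfold WW
  have h1 := fam_nonneg (p.map nx) r Y
  have h2 := fam_nonneg p l Y
  have h3 := fam_nonneg (p.map rt) t X
  have h4 := fam_nonneg (p.map Prod.swap) b X
  linarith

/-- The value after the horizontal coin and the survivor's step `s`. -/
noncomputable def Wh (s : ℤ × ℤ) (p : List (ℤ × ℤ)) (X : ℤ) (r l : ℕ) (Y : ℤ) (t b : ℕ) : ℝ :=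
  WW p (tz X + s.1) (((r - 1 : ℕ) : ℤ) - s.1).toNat (((l - 1 : ℕ) : ℤ) + s.1).toNat (Y + s.2)
    (if X = 0 then (((t - 1 : ℕ) : ℤ) - s.2).toNat else ((t : ℤ) - s.2).toNat)
    (if X = 0 then (((b - 1 : ℕ) : ℤ) + s.2).toNat else ((b : ℤ) + s.2).toNat)

/-- The value after the vertical coin and the survivor's step `s`. -/
noncomputable def Wv (s : ℤ × ℤ) (p : List (ℤ × ℤ)) (X : ℤ) (r l : ℕ) (Y : ℤ) (t b : ℕ) : ℝ :=
  WW p (X + s.1)
    (if Y = 0 then (((r - 1 : ℕ) : ℤ) - s.1).toNat else ((r : ℤ) - s.1).toNat)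
    (if Y = 0 then (((l - 1 : ℕ) : ℤ) + s.1).toNat else ((l : ℤ) + s.1).toNat)
    (tz Y + s.2)
    (((t - 1 : ℕ) : ℤ) - s.2).toNat (((b - 1 : ℕ) : ℤ) + s.2).toNat

theorem WW_step (s : ℤ × ℤ) (p : List (ℤ × ℤ)) (hp : ∀ s ∈ p, legal s) (hs : legal s) (X : ℤ)
    (r l : ℕ) (Y : ℤ) (t b : ℕ) :
    ((ci (Y = 0 ∧ r = 0) + ci (Y = 0 ∧ l = 0) + ci (X = 0 ∧ t = 0) + ci (X = 0 ∧ b = 0) : ℤ) : ℝ)
      + (Wh s p X r l Y t b + Wv s p X r l Y t b) / 2 ≤ WW (s :: p) X r l Y t b := by
  have h1 := fam_step (nx s) (p.map nx) (legal_map _ legal_nx p hp) (legal_nx s hs) r Y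
  have h2 := fam_step s p hp hs l Y
  have h3 := fam_step (rt s) (p.map rt) (legal_map _ legal_rt p hp) (legal_rt s hs) t X
  have h4 := fam_step s.swap (p.map Prod.swap) (legal_map _ legal_swap p hp) (legal_swap s hs) b X
  unfold Wh Wv
  unfold WW
  simp only [List.map_cons]
  simp only [nx, rt, Prod.fst_swap, Prod.snd_swap, ← sub_eq_add_neg] at h1 h2 h3 h4 ⊢
  push_cast
  by_cases hX : X = 0 <;> by_cases hY : Y = 0
  · simp only [hX, hY, if_true, true_and] at h1 h2 h3 h4 ⊢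
    linarith
  · simp only [hX, hY, if_true, true_and, if_false, false_and] at h1 h2 h3 h4 ⊢
    linarith
  · simp only [hX, hY, if_true, true_and, if_false, false_and] at h1 h2 h3 h4 ⊢
    linarith
  · simp only [hX, hY, if_false, false_and] at h1 h2 h3 h4 ⊢
    linarith

end MP34e
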