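import Mathlib

/-! Zombies and Survivors on a finite graph: the game value and the union bound over
survivor paths. -/

open Finset
open scoped Classical

namespace MP34e

variable {V : Type*} [Fintype V]

/-- The vertices to which a zombie at `z` may move when the survivor is at `v`: the neighbours
of `z` that lie on a shortest path from `z` to `v`. -/
noncomputable def closer (G : SimpleGraph V) (v z : V) : Finset V :=
  {w | G.Adj z w ∧ G.dist w v + 1 = G.dist z v}

/-- The probability that a zombie at `z` moves to `w` when the survivor is at `v`. -/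
noncomputable def move (G : SimpleGraph V) (v z w : V) : ℝ :=
  if w ∈ closer G v z then ((closer G v z).card : ℝ)⁻¹ else 0

/-- The probability, under optimal play, that a survivor at `v` facing `k` zombies at the
vertices `z 0, …, z (k - 1)` is not caught now nor in the next `T` rounds. -/
noncomputable def val (G : SimpleGraph V) {k : ℕ} : ℕ → (Fin k → V) → V → ℝ
  | 0, z, v => if ∃ i, z i = v then 0 else 1
  | T + 1, z, v => if ∃ i, z i = v then 0 else
      ∑ z' : Fin k → V, (∏ i, move G v (z i) (z' i)) *
        (if ∃ i, z' i = v then 0 else ⨆ v' : {v' // v' = v ∨ G.Adj v v'}, val G T z' v')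

/-- The probability that the survivor survives `T` rounds of the game with `k` zombies, placed
uniformly at random, under optimal play (starting vertex included). -/
noncomputable def survT (G : SimpleGraph V) (k T : ℕ) : ℝ :=
  (∑ z : Fin k → V, ⨆ v, val G T z v) / (Fintype.card V : ℝ) ^ k

/-- The probability `s_k(G)` that the survivor wins the game with `k` zombies under optimal
play. -/
noncomputable def surv (G : SimpleGraph V) (k : ℕ) : ℝ := ⨅ T, survT G k T

/-- The zombie number of `G`. -/
noncomputable def zombieNumber (G : SimpleGraph V) : ℕ := sInf {k | surv G k ≤ 1 / 2}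

theorem move_nonneg (G : SimpleGraph V) (v z w : V) : 0 ≤ move G v z w := by
  unfold move; positivity

theorem sum_move_le (G : SimpleGraph V) (v z : V) : ∑ w, move G v z w ≤ 1 := by
  unfold move
  rw [Finset.sum_ite, Finset.sum_const_zero, add_zero, Finset.sum_const, nsmul_eq_mul]
  have : (Finset.filter (fun w => w ∈ closer G v z) univ) = closer G v z := by
    ext w; simp
  rw [this]
  exact mul_inv_le_one

theorem val_nonneg (G : SimpleGraph V) {k : ℕ} (T : ℕ) (z : Fin k → V) (v : V) :
    0 ≤ val G T z v := by
  induction T generalizing z v with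
  | zero => unfold val; positivity
  | succ T ih =>
    unfold val
    split_ifs
    · rfl
    · apply Finset.sum_nonneg
      intro z' _
      apply mul_nonneg
      · exact Finset.prod_nonneg fun i _ => move_nonneg _ _ _ _
      · split_ifs
        · rfl
        · exact Real.iSup_nonneg fun v' => ih _ _

/-- Probability that one zombie starting at `u` does not catch a survivor that starts at `v`
and follows the vertices of the list. -/
noncomputable def esc (G : SimpleGraph V) : List V → V → V → ℝ
  | [], v, u => if u = v then 0 else 1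
  | v' :: l, v, u => if u = v then 0 else
      ∑ w, move G v u w * (if w = v then 0 else esc G l v' w)

theorem esc_nonneg (G : SimpleGraph V) (l : List V) (v u : V) : 0 ≤ esc G l v u := by
  induction l generalizing v u with
  | nil => unfold esc; positivity
  | cons v' l ih =>
    unfold esc
    split_ifs
    · rfl
    · apply Finset.sum_nonneg
      intro w _
      apply mul_nonneg (move_nonneg _ _ _ _)
      split_ifs
      · rfl
      · exact ih _ _

theorem esc_le_one (G : SimpleGraph V) (l : List V) (v u : V) : esc G l v u ≤ 1 := by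
  induction l generalizing v u with
  | nil => unfold esc; split_ifs <;> norm_num
  | cons v' l ih =>
    unfold esc
    split_ifs
    · norm_num
    · refine le_trans (Finset.sum_le_sum (g := fun w => move G v u w) fun w _ => ?_)
        (sum_move_le G v u)
      refine (mul_le_mul_of_nonneg_left ?_ (move_nonneg _ _ _ _)).trans (mul_one _).le
      split_ifs
      · norm_num
      · exact ih _ _

/-- closed neighbourhood -/
noncomputable def nb (G : SimpleGraph V) (v : V) : Finset V := {v' | v' = v ∨ G.Adj v v'}

theorem mem_nb (G : SimpleGraph V) (v w : V) : w ∈ nb G v ↔ w = v ∨ G.Adj v w := by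
  simp [nb]

/-- The multiset of the paths with `T` steps starting at `v` (the starting vertex is left out). -/
noncomputable def paths (G : SimpleGraph V) : ℕ → V → Multiset (List V)
  | 0, _ => {[]}
  | T + 1, v => (nb G v).val.bind fun v' => (paths G T v').map (List.cons v')

theorem card_paths (G : SimpleGraph V) (d : ℕ) (hd : ∀ v, (nb G v).card ≤ d) (T : ℕ) (v : V) :
    (paths G T v).card ≤ d ^ T := by
  induction T generalizing v with
  | zero => simp [paths]
  | succ T ih =>
    unfold paths
    rw [Multiset.card_bind]
    have : ((nb G v).val.map (Multiset.card ∘ fun v' => (paths G T v').map (List.cons v'))).sum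
        = ∑ v' ∈ nb G v, (paths G T v').card := by
      rw [Finset.sum_eq_multiset_sum]
      simp only [Function.comp_def, Multiset.card_map]
    rw [this]
    calc ∑ v' ∈ nb G v, (paths G T v').card ≤ ∑ v' ∈ nb G v, d ^ T :=
          Finset.sum_le_sum fun v' _ => ih v'
      _ = (nb G v).card * d ^ T := by rw [Finset.sum_const, smul_eq_mul]
      _ ≤ d * d ^ T := Nat.mul_le_mul_right _ (hd v)
      _ = d ^ (T + 1) := by ring

theorem exists_mem_paths (G : SimpleGraph V) (T : ℕ) (v : V) : ∃ l, l ∈ paths G T v := by
  induction T with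
  | zero => exact ⟨[], by simp [paths]⟩
  | succ T ih =>
    obtain ⟨l, hl⟩ := ih
    refine ⟨v :: l, ?_⟩
    rw [paths, Multiset.mem_bind]
    exact ⟨v, by simp [nb], Multiset.mem_map_of_mem _ hl⟩

theorem mem_paths_succ (G : SimpleGraph V) (T : ℕ) (v : V) (l : List V)
    (h : l ∈ paths G (T + 1) v) :
    ∃ v' l', l = v' :: l' ∧ (v' = v ∨ G.Adj v v') ∧ l' ∈ paths G T v' := by
  rw [paths, Multiset.mem_bind] at h
  obtain ⟨v', hv', h⟩ := h
  obtain ⟨l', hl', rfl⟩ := Multiset.mem_map.1 h
  exact ⟨v', l', rfl, by simpa [nb] using hv', hl'⟩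

theorem survT_nonneg (G : SimpleGraph V) (k T : ℕ) : 0 ≤ survT G k T := by
  unfold survT
  apply div_nonneg
  · exact Finset.sum_nonneg fun z _ => Real.iSup_nonneg fun v => val_nonneg _ _ _ _
  · positivity

theorem surv_le_survT (G : SimpleGraph V) (k T : ℕ) : surv G k ≤ survT G k T :=
  ciInf_le ⟨0, by rintro _ ⟨T, rfl⟩; exact survT_nonneg G k T⟩ T

theorem paths_succ_sum (G : SimpleGraph V) (T : ℕ) (v : V) (f : List V → ℝ) :
    ((paths G (T + 1) v).map f).sum
      = ∑ v' ∈ nb G v, ((paths G T v').map (fun l => f (v' :: l))).sum := by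
  rw [paths, Multiset.map_bind, Multiset.sum_bind, Finset.sum_eq_multiset_sum]
  simp only [Multiset.map_map, Function.comp_def]

omit [Fintype V] in
theorem prod_ite_exists {k : ℕ} (z : Fin k → V) (v : V) (f : Fin k → ℝ) :
    ∏ i, (if z i = v then 0 else f i) = if ∃ i, z i = v then 0 else ∏ i, f i := by
  split_ifs with h
  · obtain ⟨i, hi⟩ := h
    exact Finset.prod_eq_zero (Finset.mem_univ i) (by simp [hi])
  · push Not at h
    exact Finset.prod_congr rfl fun i _ => by simp [h i]

omit [Fintype V] in
theorem sum_map_nonneg (M : Multiset (List V)) (f : List V → ℝ) (hf : ∀ l, 0 ≤ f l) :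
    0 ≤ (M.map f).sum := by
  apply Multiset.sum_nonneg
  intro x hx
  obtain ⟨l, _, rfl⟩ := Multiset.mem_map.1 hx
  exact hf l

omit [Fintype V] in
theorem sum_multiset_comm {ι : Type*} (s : Finset ι) (M : Multiset (List V))
    (f : ι → List V → ℝ) :
    ∑ i ∈ s, (M.map (fun l => f i l)).sum = (M.map (fun l => ∑ i ∈ s, f i l)).sum := by
  induction M using Multiset.induction_on with
  | empty => simp
  | cons a M ih =>
    simp only [Multiset.map_cons, Multiset.sum_cons]
    rw [Finset.sum_add_distrib, ih]

theorem prod_esc_cons (G : SimpleGraph V) {k : ℕ} (z : Fin k → V) (v v' : V) (l : List V)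
    (h : ¬ ∃ i, z i = v) :
    ∏ i, esc G (v' :: l) v (z i) = ∑ z' : Fin k → V, (∏ i, move G v (z i) (z' i)) *
        (if ∃ i, z' i = v then 0 else ∏ i, esc G l v' (z' i)) := by
  push Not at h
  have h1 : ∀ i, esc G (v' :: l) v (z i)
      = ∑ w, move G v (z i) w * (if w = v then 0 else esc G l v' w) := by
    intro i
    rw [esc]
    simp [h i]
  simp_rw [h1]
  rw [Finset.prod_univ_sum, Fintype.piFinset_univ]
  refine Finset.sum_congr rfl fun z' _ => ?_
  rw [Finset.prod_mul_distrib, prod_ite_exists]

theorem val_le (G : SimpleGraph V) {k : ℕ} (T : ℕ) (z : Fin k → V) (v : V) :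
    val G T z v ≤ ((paths G T v).map (fun l => ∏ i, esc G l v (z i))).sum := by
  induction T generalizing z v with
  | zero =>
    rw [val, paths]
    simp only [Multiset.map_singleton, Multiset.sum_singleton, esc]
    rw [prod_ite_exists]
    simp
  | succ T ih =>
    rw [val]
    split_ifs with h
    · exact sum_map_nonneg _ _ fun l => Finset.prod_nonneg fun i _ => esc_nonneg _ _ _ _
    · rw [paths_succ_sum]
      simp_rw [prod_esc_cons G z v _ _ h]
      have key : ∀ z' : Fin k → V,
          (∏ i, move G v (z i) (z' i)) *
            (if ∃ i, z' i = v then 0 else ⨆ v' : {v' // v' = v ∨ G.Adj v v'}, val G T z' v')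
          ≤ ∑ v' ∈ nb G v, ((paths G T v').map (fun l => (∏ i, move G v (z i) (z' i)) *
            (if ∃ i, z' i = v then 0 else ∏ i, esc G l v' (z' i)))).sum := by
        intro z'
        have hm : 0 ≤ ∏ i, move G v (z i) (z' i) :=
          Finset.prod_nonneg fun i _ => move_nonneg _ _ _ _
        simp_rw [Multiset.sum_map_mul_left]
        rw [← Finset.mul_sum]
        apply mul_le_mul_of_nonneg_left _ hm
        split_ifs with h'
        · simp
        · have hne : Nonempty {v' // v' = v ∨ G.Adj v v'} := ⟨⟨v, Or.inl rfl⟩⟩
          apply ciSup_le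
          rintro ⟨v', hv'⟩
          refine (ih z' v').trans ?_
          refine Finset.single_le_sum (f := fun v' => ((paths G T v').map
            (fun l => ∏ i, esc G l v' (z' i))).sum) (fun w _ => ?_) ?_
          · exact sum_map_nonneg _ _ fun l => Finset.prod_nonneg fun i _ => esc_nonneg _ _ _ _
          · simpa [nb] using hv'
      refine (Finset.sum_le_sum fun z' _ => key z').trans (le_of_eq ?_)
      rw [Finset.sum_comm]
      refine Finset.sum_congr rfl fun v' _ => ?_
      exact sum_multiset_comm _ _ _

theorem sum_esc_pow (G : SimpleGraph V) (k : ℕ) (l : List V) (v : V) :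
    ∑ z : Fin k → V, ∏ i, esc G l v (z i) = (∑ u, esc G l v u) ^ k := by
  rw [← Fin.prod_const, Finset.prod_univ_sum, Fintype.piFinset_univ]

/-- The union bound. -/
theorem survT_le (G : SimpleGraph V) [Nonempty V] (k T d : ℕ) (hd : ∀ v, (nb G v).card ≤ d)
    (S : ℝ) (hS : ∀ v, ∀ l ∈ paths G T v, S ≤ ∑ u, (1 - esc G l v u)) :
    survT G k T ≤ Fintype.card V * d ^ T * (1 - S / Fintype.card V) ^ k := by
  have hV : (0 : ℝ) < Fintype.card V := by exact_mod_cast Fintype.card_pos
  unfold survT
  rw [div_le_iff₀ (by positivity)]
  have h1 : ∑ z : Fin k → V, ⨆ v, val G T z v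
      ≤ ∑ v, ((paths G T v).map (fun l => (∑ u, esc G l v u) ^ k)).sum := by
    calc ∑ z : Fin k → V, ⨆ v, val G T z v ≤ ∑ z : Fin k → V, ∑ v, val G T z v := by
          refine Finset.sum_le_sum fun z _ => ?_
          apply ciSup_le
          intro v
          exact Finset.single_le_sum (f := fun v => val G T z v) (fun w _ => val_nonneg _ _ _ _)
            (Finset.mem_univ v)
      _ ≤ ∑ z : Fin k → V, ∑ v, ((paths G T v).map (fun l => ∏ i, esc G l v (z i))).sum :=
          Finset.sum_le_sum fun z _ => Finset.sum_le_sum fun v _ => val_le G T z v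
      _ = ∑ v, ∑ z : Fin k → V, ((paths G T v).map (fun l => ∏ i, esc G l v (z i))).sum :=
          Finset.sum_comm
      _ = _ := by
          refine Finset.sum_congr rfl fun v _ => ?_
          rw [sum_multiset_comm]
          congr 1
          refine Multiset.map_congr rfl fun l _ => ?_
          exact sum_esc_pow G k l v
  refine h1.trans ?_
  have h2 : ∀ v, ((paths G T v).map (fun l => (∑ u, esc G l v u) ^ k)).sum
      ≤ (d : ℝ) ^ T * (Fintype.card V - S) ^ k := by
    intro v
    have h3 : ∀ x ∈ (paths G T v).map (fun l => (∑ u, esc G l v u) ^ k),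
        x ≤ (Fintype.card V - S) ^ k := by
      intro x hx
      obtain ⟨l, hl, rfl⟩ := Multiset.mem_map.1 hx
      have h4 := hS v l hl
      rw [Finset.sum_sub_distrib] at h4
      simp only [Finset.sum_const, Finset.card_univ, nsmul_eq_mul, mul_one] at h4
      apply pow_le_pow_left₀ (Finset.sum_nonneg fun u _ => esc_nonneg _ _ _ _)
      linarith
    have h5 := Multiset.sum_le_card_nsmul _ _ h3
    rw [Multiset.card_map, nsmul_eq_mul] at h5
    refine h5.trans ?_
    obtain ⟨l, hl⟩ := exists_mem_paths G T v
    have h7 : (0 : ℝ) ≤ (Fintype.card V - S) ^ k := by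
      refine le_trans ?_ (h3 _ (Multiset.mem_map_of_mem _ hl))
      exact pow_nonneg (Finset.sum_nonneg fun u _ => esc_nonneg _ _ _ _) k
    apply mul_le_mul_of_nonneg_right _ h7
    exact_mod_cast card_paths G d hd T v
  calc ∑ v, ((paths G T v).map (fun l => (∑ u, esc G l v u) ^ k)).sum
      ≤ ∑ _v : V, (d : ℝ) ^ T * (Fintype.card V - S) ^ k := Finset.sum_le_sum fun v _ => h2 v
    _ = Fintype.card V * ((d : ℝ) ^ T * (Fintype.card V - S) ^ k) := by
        rw [Finset.sum_const, Finset.card_univ, nsmul_eq_mul]
    _ = _ := by
        have : (Fintype.card V : ℝ) - S = (1 - S / Fintype.card V) * Fintype.card V := by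
          field_simp
        rw [this, mul_pow]
        ring

end MP34e
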