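import Pool.Agent.Work.MP_34e428_co.Frame

/-! Lower bounds for the game value: a strategy with memory, and coins. -/

open Finset
open scoped Classical

namespace MP34e

variable {V : Type*} [Fintype V]

/-- A rule for the survivor: memory `M`; after the zombies' move to `z'`, with the survivor at
`v`, it moves to `(act m z' v).1` and the memory becomes `(act m z' v).2`. -/
structure Rule (V : Type*) (k : ℕ) (M : Type*) where
  act : M → (Fin k → V) → V → V × M

/-- The state of the game: memory, zombies, survivor. -/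
structure St (V : Type*) (k : ℕ) (M : Type*) where
  mem : M
  zs : Fin k → V
  sv : V

variable {k : ℕ} {M C : Type*}

/-- One round: the zombies move according to their coins, then the survivor moves. -/
def Rule.next (σ : Rule V k M) (step : C → V → V → V) (c : Fin k → C) (s : St V k M) :
    St V k M :=
  let z' := fun i => step (c i) (s.zs i) s.sv
  ⟨(σ.act s.mem z' s.sv).2, z', (σ.act s.mem z' s.sv).1⟩

/-- The run. -/
def Rule.run (σ : Rule V k M) (step : C → V → V → V) (s : St V k M) (ξ : ℕ → Fin k → C) :
    ℕ → St V k M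
  | 0 => s
  | t + 1 => σ.next step (ξ t) (σ.run step s ξ t)

/-- The survivor is not caught in the first `T` rounds. -/
def Rule.Alive (σ : Rule V k M) (step : C → V → V → V) (s : St V k M) (ξ : ℕ → Fin k → C)
    (T : ℕ) : Prop :=
  (∀ t ≤ T, ∀ i, (σ.run step s ξ t).zs i ≠ (σ.run step s ξ t).sv) ∧
  (∀ t < T, ∀ i, (σ.run step s ξ (t + 1)).zs i ≠ (σ.run step s ξ t).sv)

omit [Fintype V] in
theorem Rule.run_succ' (σ : Rule V k M) (step : C → V → V → V) (s : St V k M)
    (ξ : ℕ → Fin k → C) (t : ℕ) :
    σ.run step s ξ (t + 1) = σ.run step (σ.next step (ξ 0) s) (fun j => ξ (j + 1)) t := by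
  induction t with
  | zero => rfl
  | succ t ih =>
    rw [Rule.run, ih]
    rfl

omit [Fintype V] in
theorem Rule.alive_succ (σ : Rule V k M) (step : C → V → V → V) (s : St V k M)
    (ξ : ℕ → Fin k → C) (T : ℕ) :
    σ.Alive step s ξ (T + 1) ↔ (∀ i, s.zs i ≠ s.sv) ∧ (∀ i, step (ξ 0 i) (s.zs i) s.sv ≠ s.sv) ∧
      σ.Alive step (σ.next step (ξ 0) s) (fun j => ξ (j + 1)) T := by
  unfold Rule.Alive
  constructor
  · rintro ⟨h1, h2⟩
    refine ⟨h1 0 (by omega), h2 0 (by omega), ?_, ?_⟩
    · intro t ht i
      have := h1 (t + 1) (by omega) i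
      rwa [Rule.run_succ'] at this
    · intro t ht i
      have := h2 (t + 1) (by omega) i
      rwa [Rule.run_succ' σ step s ξ (t + 1), Rule.run_succ' σ step s ξ t] at this
  · rintro ⟨h1, h2, h3, h4⟩
    refine ⟨?_, ?_⟩
    · intro t ht i
      rcases Nat.eq_zero_or_pos t with h0 | h0
      · subst h0; exact h1 i
      · obtain ⟨m, rfl⟩ : ∃ m, t = m + 1 := ⟨t - 1, by omega⟩
        have := h3 m (by omega) i
        rwa [← Rule.run_succ'] at this
    · intro t ht i
      rcases Nat.eq_zero_or_pos t with h0 | h0
      · subst h0; exact h2 i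
      · obtain ⟨m, rfl⟩ : ∃ m, t = m + 1 := ⟨t - 1, by omega⟩
        have := h4 m (by omega) i
        rwa [← Rule.run_succ' σ step s ξ (m + 1), ← Rule.run_succ' σ step s ξ m] at this

omit [Fintype V] in
theorem Rule.run_congr (σ : Rule V k M) (step : C → V → V → V) (s : St V k M)
    (ξ ξ' : ℕ → Fin k → C) (t : ℕ) (h : ∀ j < t, ξ j = ξ' j) :
    σ.run step s ξ t = σ.run step s ξ' t := by
  induction t with
  | zero => rfl
  | succ t ih =>
    rw [Rule.run, Rule.run, ih (fun j hj => h j (by omega)), h t (by omega)]

omit [Fintype V] in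
theorem Rule.alive_congr (σ : Rule V k M) (step : C → V → V → V) (s : St V k M)
    (ξ ξ' : ℕ → Fin k → C) (T : ℕ) (h : ∀ j < T, ξ j = ξ' j) :
    σ.Alive step s ξ T ↔ σ.Alive step s ξ' T := by
  have hr : ∀ t ≤ T, σ.run step s ξ t = σ.run step s ξ' t := fun t ht =>
    σ.run_congr step s ξ ξ' t fun j hj => h j (by omega)
  unfold Rule.Alive
  constructor
  · rintro ⟨h1, h2⟩
    refine ⟨fun t ht i => ?_, fun t ht i => ?_⟩
    · rw [← hr t ht]; exact h1 t ht i
    · rw [← hr t ht.le, ← hr (t + 1) ht]; exact h2 t ht i
  · rintro ⟨h1, h2⟩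
    refine ⟨fun t ht i => ?_, fun t ht i => ?_⟩
    · rw [hr t ht]; exact h1 t ht i
    · rw [hr t ht.le, hr (t + 1) ht]; exact h2 t ht i

/-- extension of finitely many coins to an infinite sequence -/
noncomputable def ext {X : Type*} [Nonempty X] {T : ℕ} (c : Fin T → X) : ℕ → X :=
  fun t => if h : t < T then c ⟨t, h⟩ else Classical.arbitrary X

theorem ext_cons {X : Type*} [Nonempty X] {T : ℕ} (x : X) (c : Fin T → X) :
    ext (Fin.cons x c : Fin (T + 1) → X) 0 = x ∧
      (fun j => ext (Fin.cons x c : Fin (T + 1) → X) (j + 1)) = ext c := by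
  constructor
  · unfold ext; simp
  · funext j
    unfold ext
    by_cases h : j < T
    · have h' : j + 1 < T + 1 := by omega
      rw [dif_pos h', dif_pos h]
      exact Fin.cons_succ (α := fun _ => X) x c ⟨j, h⟩
    · have h' : ¬ j + 1 < T + 1 := by omega
      rw [dif_neg h', dif_neg h]

variable [Fintype C]

/-- `step` realises the uniform zombie move. -/
def Realises (G : SimpleGraph V) (step : C → V → V → V) : Prop :=
  ∀ v z w, z ≠ v → ((univ.filter fun c : C => step c z v = w).card : ℝ)
    = Fintype.card C * move G v z w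

theorem sum_step (G : SimpleGraph V) (step : C → V → V → V) (hs : Realises G step) (z v : V)
    (hz : z ≠ v) (f : V → ℝ) :
    ∑ c : C, f (step c z v) = Fintype.card C * ∑ w, move G v z w * f w := by
  have h1 : ∑ c : C, f (step c z v) = ∑ w : V, ∑ c ∈ univ.filter (fun c => step c z v = w), f w := by
    rw [← Finset.sum_fiberwise univ (fun c : C => step c z v) (fun c => f (step c z v))]
    refine Finset.sum_congr rfl fun w _ => ?_
    refine Finset.sum_congr rfl fun c hc => ?_
    rw [(Finset.mem_filter.1 hc).2]
  rw [h1, Finset.mul_sum]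
  refine Finset.sum_congr rfl fun w _ => ?_
  rw [Finset.sum_const, nsmul_eq_mul, hs v z w hz]
  ring

theorem sum_step_prod (G : SimpleGraph V) (step : C → V → V → V) (hs : Realises G step)
    (z : Fin k → V) (v : V) (hz : ∀ i, z i ≠ v) (f : (Fin k → V) → ℝ) :
    ∑ c : Fin k → C, f (fun i => step (c i) (z i) v)
      = (Fintype.card C : ℝ) ^ k * ∑ z' : Fin k → V, (∏ i, move G v (z i) (z' i)) * f z' := by
  have h1 : ∑ c : Fin k → C, f (fun i => step (c i) (z i) v)
      = ∑ z' : Fin k → V, ((univ.filter fun c : Fin k → C =>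
          (fun i => step (c i) (z i) v) = z').card : ℝ) * f z' := by
    rw [← Finset.sum_fiberwise univ (fun c : Fin k → C => (fun i => step (c i) (z i) v))
      (fun c => f (fun i => step (c i) (z i) v))]
    refine Finset.sum_congr rfl fun z' _ => ?_
    rw [← nsmul_eq_mul, ← Finset.sum_const]
    refine Finset.sum_congr rfl fun c hc => ?_
    rw [(Finset.mem_filter.1 hc).2]
  rw [h1, Finset.mul_sum]
  refine Finset.sum_congr rfl fun z' _ => ?_
  have h2 : (univ.filter fun c : Fin k → C => (fun i => step (c i) (z i) v) = z')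
      = Fintype.piFinset fun i => univ.filter fun c : C => step c (z i) v = z' i := by
    ext c
    simp [funext_iff, Fintype.mem_piFinset]
  rw [h2, Fintype.card_piFinset]
  push_cast
  have h3 : ∏ i, ((univ.filter fun c : C => step c (z i) v = z' i).card : ℝ)
      = (Fintype.card C : ℝ) ^ k * ∏ i, move G v (z i) (z' i) := by
    rw [Finset.prod_congr rfl fun i _ => hs v (z i) (z' i) (hz i), Finset.prod_mul_distrib]
    simp
  rw [h3]
  ring

/-- A rule is legal if the survivor stays or moves to a neighbour. -/
def Rule.Legal (σ : Rule V k M) (G : SimpleGraph V) : Prop :=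
  ∀ m z v, (σ.act m z v).1 = v ∨ G.Adj v (σ.act m z v).1

theorem alive_le_val [Nonempty C] (G : SimpleGraph V) (step : C → V → V → V) (hs : Realises G step)
    (σ : Rule V k M) (hσ : σ.Legal G) (T : ℕ) (s : St V k M) :
    ∑ c : Fin T → Fin k → C, (if σ.Alive step s (ext c) T then (1 : ℝ) else 0)
      ≤ ((Fintype.card C : ℝ) ^ k) ^ T * val G T s.zs s.sv := by
  induction T generalizing s with
  | zero =>
    rw [val, pow_zero, one_mul]
    have : ∀ c : Fin 0 → Fin k → C, (if σ.Alive step s (ext c) 0 then (1 : ℝ) else 0)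
        = if ∃ i, s.zs i = s.sv then 0 else 1 := by
      intro c
      by_cases h : ∃ i, s.zs i = s.sv
      · rw [if_pos h, if_neg]
        rintro ⟨h1, _⟩
        obtain ⟨i, hi⟩ := h
        exact h1 0 le_rfl i hi
      · rw [if_neg h, if_pos]
        push Not at h
        refine ⟨?_, ?_⟩
        · intro t ht i
          have : t = 0 := by omega
          subst this
          exact h i
        · intro t ht; omega
    simp_rw [this]
    simp
  | succ T ih =>
    rw [val]
    by_cases h : ∃ i, s.zs i = s.sv
    · rw [if_pos h, mul_zero]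
      apply le_of_eq
      apply Finset.sum_eq_zero
      intro c _
      rw [if_neg]
      rintro ⟨h1, _⟩
      obtain ⟨i, hi⟩ := h
      exact h1 0 (by omega) i hi
    · rw [if_neg h]
      push Not at h
      -- split off the first round
      have e1 : ∑ c : Fin (T + 1) → Fin k → C,
          (if σ.Alive step s (ext c) (T + 1) then (1 : ℝ) else 0)
          = ∑ x : Fin k → C, ∑ c : Fin T → Fin k → C,
            (if (∀ i, step (x i) (s.zs i) s.sv ≠ s.sv) ∧
              σ.Alive step (σ.next step x s) (ext c) T then (1 : ℝ) else 0) := by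
        rw [← (Fin.consEquiv fun _ : Fin (T + 1) => Fin k → C).sum_comp, Fintype.sum_prod_type]
        refine Finset.sum_congr rfl fun x _ => ?_
        refine Finset.sum_congr rfl fun c _ => ?_
        have e2 := ext_cons x c
        congr 1
        rw [eq_iff_iff]
        change σ.Alive step s (ext (Fin.cons x c : Fin (T + 1) → Fin k → C)) (T + 1) ↔ _
        rw [Rule.alive_succ, e2.1, e2.2]
        constructor
        · rintro ⟨_, h2, h3⟩; exact ⟨h2, h3⟩
        · rintro ⟨h2, h3⟩; exact ⟨h, h2, h3⟩
      rw [e1]
      -- bound the inner sum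
      have e3 : ∀ x : Fin k → C, ∑ c : Fin T → Fin k → C,
            (if (∀ i, step (x i) (s.zs i) s.sv ≠ s.sv) ∧
              σ.Alive step (σ.next step x s) (ext c) T then (1 : ℝ) else 0)
          ≤ ((Fintype.card C : ℝ) ^ k) ^ T * (if ∃ i, step (x i) (s.zs i) s.sv = s.sv then 0 else
              ⨆ v' : {v' // v' = s.sv ∨ G.Adj s.sv v'},
                val G T (fun i => step (x i) (s.zs i) s.sv) v') := by
        intro x
        by_cases hx : ∃ i, step (x i) (s.zs i) s.sv = s.sv
        · rw [if_pos hx, mul_zero]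
          apply le_of_eq
          apply Finset.sum_eq_zero
          intro c _
          rw [if_neg]
          rintro ⟨h1, _⟩
          obtain ⟨i, hi⟩ := hx
          exact h1 i hi
        · rw [if_neg hx]
          push Not at hx
          have e4 : ∀ c : Fin T → Fin k → C,
              (if (∀ i, step (x i) (s.zs i) s.sv ≠ s.sv) ∧
                σ.Alive step (σ.next step x s) (ext c) T then (1 : ℝ) else 0)
              = if σ.Alive step (σ.next step x s) (ext c) T then (1 : ℝ) else 0 := by
            intro c
            simp [hx]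
          simp_rw [e4]
          refine (ih (σ.next step x s)).trans ?_
          apply mul_le_mul_of_nonneg_left _ (by positivity)
          have hbdd : BddAbove (Set.range fun v' : {v' // v' = s.sv ∨ G.Adj s.sv v'} =>
              val G T (fun i => step (x i) (s.zs i) s.sv) v') := Set.finite_range _ |>.bddAbove
          have hl := hσ s.mem (fun i => step (x i) (s.zs i) s.sv) s.sv
          exact le_ciSup hbdd ⟨_, hl⟩
      refine (Finset.sum_le_sum fun x _ => e3 x).trans (le_of_eq ?_)
      rw [← Finset.mul_sum]
      have e5 := sum_step_prod G step hs s.zs s.sv h (fun z' => if ∃ i, z' i = s.sv then 0 else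
              ⨆ v' : {v' // v' = s.sv ∨ G.Adj s.sv v'}, val G T z' v')
      rw [e5, pow_succ]
      ring

/-- The probability of survival of a rule is a lower bound for the value of the game. -/
theorem alive_le_survT [Nonempty C] (G : SimpleGraph V) [Nonempty V] (step : C → V → V → V)
    (hs : Realises G step) (σ : Rule V k M) (hσ : σ.Legal G) (T : ℕ) (m0 : M) (v0 : V) :
    (∑ ω : Fin k → V × (Fin T → C),
        if σ.Alive step ⟨m0, fun i => (ω i).1, v0⟩ (fun t i => ext (ω i).2 t) T then (1 : ℝ) else 0)
      / ((Fintype.card V : ℝ) * (Fintype.card C : ℝ) ^ T) ^ k ≤ survT G k T := by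
  have hV : (0 : ℝ) < Fintype.card V := by exact_mod_cast Fintype.card_pos
  have hC : (0 : ℝ) < Fintype.card C := by exact_mod_cast Fintype.card_pos
  have hval1 : ∀ z v, val G T z v ≤ ⨆ v, val (k := k) G T z v := fun z v =>
    le_ciSup (f := fun v => val G T z v) (Set.finite_range _).bddAbove v
  -- the change of variables
  let e : (Fin k → V × (Fin T → C)) ≃ (Fin k → V) × (Fin T → Fin k → C) :=
    (Equiv.arrowProdEquivProdArrow _ _ _).trans
      (Equiv.prodCongr (Equiv.refl _) (Equiv.piComm fun _ _ => C))
  have h1 : (∑ ω : Fin k → V × (Fin T → C),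
        if σ.Alive step ⟨m0, fun i => (ω i).1, v0⟩ (fun t i => ext (ω i).2 t) T then (1 : ℝ) else 0)
      = ∑ z : Fin k → V, ∑ c : Fin T → Fin k → C,
        if σ.Alive step ⟨m0, z, v0⟩ (ext c) T then (1 : ℝ) else 0 := by
    rw [← e.symm.sum_comp, Fintype.sum_prod_type]
    refine Finset.sum_congr rfl fun z _ => ?_
    refine Finset.sum_congr rfl fun c _ => ?_
    congr 1
    rw [eq_iff_iff]
    have e2 : (fun i => (e.symm (z, c) i).1) = z := rfl
    have e3 : ∀ i, (e.symm (z, c) i).2 = fun t => c t i := fun i => rfl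
    rw [e2]
    apply Rule.alive_congr
    intro j hj
    funext i
    rw [e3]
    unfold ext
    rw [dif_pos hj, dif_pos hj]
  rw [h1, mul_pow, ← div_div]
  unfold survT
  rw [div_div, mul_comm, ← div_div]
  apply div_le_div_of_nonneg_right _ (by positivity)
  rw [div_le_iff₀ (by positivity), Finset.sum_mul]
  refine Finset.sum_le_sum fun z _ => ?_
  refine (alive_le_val G step hs σ hσ T ⟨m0, z, v0⟩).trans ?_
  rw [mul_comm, ← pow_mul, ← pow_mul, mul_comm k T]
  exact mul_le_mul_of_nonneg_right (hval1 z v0) (by positivity)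

end MP34e
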