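import Mathlib

/-! Module FA: asymptotics of the parameters of the lower bound. -/

set_option autoImplicit false

namespace MP34e

theorem asym_ev : ∃ n₀ : ℕ, ∀ n ≥ n₀, (10 ^ 4 : ℝ) ≤ Real.log n ∧
    (2 * Real.log n) ^ 60 ≤ (n : ℝ) := by
  have h1 : ∀ᶠ n : ℕ in Filter.atTop, (10 ^ 4 : ℝ) ≤ Real.log n :=
    (Real.tendsto_log_atTop.comp tendsto_natCast_atTop_atTop).eventually_ge_atTop _
  have h2 : ∀ᶠ y : ℝ in Filter.atTop, ‖Real.log y ^ 60‖ ≤ (1 / 2 ^ 60 : ℝ) * ‖id y‖ :=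
    (Real.isLittleO_pow_log_id_atTop (n := 60)).bound (by positivity)
  have h3 : ∀ᶠ n : ℕ in Filter.atTop, ‖Real.log n ^ 60‖ ≤ (1 / 2 ^ 60 : ℝ) * ‖id (n : ℝ)‖ :=
    tendsto_natCast_atTop_atTop.eventually h2
  obtain ⟨n₀, h0⟩ := Filter.eventually_atTop.mp (h1.and h3)
  refine ⟨n₀, fun n hn => ⟨(h0 n hn).1, ?_⟩⟩
  have h4 := (h0 n hn).2
  rw [Real.norm_eq_abs, abs_of_nonneg (by have := (h0 n hn).1; positivity), id,
    Real.norm_eq_abs, abs_of_nonneg (by positivity)] at h4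
  rw [mul_pow]
  calc (2 : ℝ) ^ 60 * Real.log n ^ 60 ≤ 2 ^ 60 * (1 / 2 ^ 60 * (n : ℝ)) := by gcongr
    _ = (n : ℝ) := by ring

/-- `s ^ 13 exp (-L ^ 2 / 25) ≤ exp (-L)` -/
theorem exp_bound {L : ℕ} {s : ℝ} (hs0 : 0 ≤ s) (hs : s ≤ Real.exp (L / 2)) (hL : 1000 ≤ L) :
    s ^ 13 * Real.exp (-(((L ^ 2 : ℕ) : ℝ) / 25)) ≤ Real.exp (-(L : ℝ)) := by
  have hL' : (1000 : ℝ) ≤ L := by exact_mod_cast hL
  have h1 : s ^ 13 ≤ Real.exp (13 * (L / 2)) := by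
    calc s ^ 13 ≤ (Real.exp (L / 2)) ^ 13 := by gcongr
      _ = Real.exp (13 * (L / 2)) := by
        rw [← Real.exp_nat_mul]; norm_num
  calc s ^ 13 * Real.exp (-(((L ^ 2 : ℕ) : ℝ) / 25))
      ≤ Real.exp (13 * (L / 2)) * Real.exp (-(((L ^ 2 : ℕ) : ℝ) / 25)) := by gcongr
    _ = Real.exp (13 * (L / 2) + -(((L ^ 2 : ℕ) : ℝ) / 25)) := by rw [Real.exp_add]
    _ ≤ Real.exp (-(L : ℝ)) := by
      apply Real.exp_le_exp.mpr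
      push_cast
      nlinarith

theorem half_pow_le (m : ℕ) : (1 / 2 : ℝ) ^ m ≤ Real.exp (-((m : ℝ) / 25)) := by
  have h1 : (1 / 2 : ℝ) ≤ Real.exp (-(1 / 25 : ℝ)) := by
    have := Real.add_one_le_exp (-(1 / 25 : ℝ))
    linarith
  calc (1 / 2 : ℝ) ^ m ≤ (Real.exp (-(1 / 25 : ℝ))) ^ m := by gcongr
    _ = Real.exp (-((m : ℝ) / 25)) := by
      rw [← Real.exp_nat_mul]; congr 1; ring

theorem exp_neg_small {L : ℕ} (hL : 1000 ≤ L) : Real.exp (-(L : ℝ)) ≤ 1 / 1000 := by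
  have hL' : (1000 : ℝ) ≤ L := by exact_mod_cast hL
  rw [Real.exp_neg, inv_eq_one_div]
  apply one_div_le_one_div_of_le (by norm_num)
  have := Real.add_one_le_exp (L : ℝ)
  linarith

theorem sixteen_pow {L : ℕ} {s : ℝ} (hs0 : 0 ≤ s) (hs : s ≤ Real.exp (L / 2)) :
    s ^ 3 * (1 / 2 : ℝ) ^ (4 * L) ≤ Real.exp (-(L : ℝ)) := by
  have h1 : (1 / 16 : ℝ) ≤ Real.exp (-(5 / 2)) := by
    have h2 : Real.exp (5 / 2) ≤ 16 := by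
      have h3 : Real.exp (5 / 2) ^ 2 ≤ 16 ^ 2 := by
        rw [← Real.exp_nat_mul, show ((2 : ℕ) : ℝ) * (5 / 2) = ((5 : ℕ) : ℝ) * 1 by norm_num,
          Real.exp_nat_mul]
        have h4 := Real.exp_one_lt_d9
        calc Real.exp 1 ^ 5 ≤ 2.7182818286 ^ 5 := by gcongr
          _ ≤ 16 ^ 2 := by norm_num
      exact le_of_sq_le_sq h3 (by norm_num)
    rw [Real.exp_neg, inv_eq_one_div]
    exact one_div_le_one_div_of_le (Real.exp_pos _) h2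
  have h5 : (1 / 2 : ℝ) ^ (4 * L) ≤ Real.exp (-(5 / 2 * L)) := by
    calc (1 / 2 : ℝ) ^ (4 * L) = (1 / 16 : ℝ) ^ L := by rw [pow_mul]; norm_num
      _ ≤ (Real.exp (-(5 / 2))) ^ L := by gcongr
      _ = Real.exp (-(5 / 2 * L)) := by rw [← Real.exp_nat_mul]; congr 1; ring
  have h6 : s ^ 3 ≤ Real.exp (3 * (L / 2)) := by
    calc s ^ 3 ≤ (Real.exp (L / 2)) ^ 3 := by gcongr
      _ = Real.exp (3 * (L / 2)) := by
        rw [← Real.exp_nat_mul]; norm_num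
  calc s ^ 3 * (1 / 2 : ℝ) ^ (4 * L) ≤ Real.exp (3 * (L / 2)) * Real.exp (-(5 / 2 * L)) := by
        gcongr
    _ = Real.exp (-(L : ℝ)) := by rw [← Real.exp_add]; congr 1; ring

/-- the second term -/
theorem near_term {L : ℕ} {s q T : ℝ} (hs0 : 0 ≤ s) (hs : s ≤ Real.exp (L / 2)) (hT : T ≤ s ^ 5)
    (hq0 : 0 ≤ q) (hq : q ≤ 1 / 100) :
    T * q ^ (L + 1) ≤ Real.exp (-(L : ℝ)) := by
  have h1 : (1 / 100 : ℝ) ≤ Real.exp (-4) := by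
    have h2 : Real.exp 4 ≤ 100 := by
      rw [show (4 : ℝ) = ((4 : ℕ) : ℝ) * 1 by norm_num, Real.exp_nat_mul]
      have h4 := Real.exp_one_lt_d9
      calc Real.exp 1 ^ 4 ≤ 2.7182818286 ^ 4 := by gcongr
        _ ≤ 100 := by norm_num
    rw [Real.exp_neg, inv_eq_one_div]
    exact one_div_le_one_div_of_le (Real.exp_pos _) h2
  have h5 : q ^ (L + 1) ≤ Real.exp (-(4 * L)) := by
    calc q ^ (L + 1) = q ^ L * q := pow_succ q L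
      _ ≤ (Real.exp (-4)) ^ L * 1 := by
        gcongr
        · exact hq.trans h1
        · linarith
      _ = Real.exp (-(4 * L)) := by rw [mul_one, ← Real.exp_nat_mul]; congr 1; ring
  have h6 : T ≤ Real.exp (5 * (L / 2)) := by
    calc T ≤ s ^ 5 := hT
      _ ≤ (Real.exp (L / 2)) ^ 5 := by gcongr
      _ = Real.exp (5 * (L / 2)) := by
        rw [← Real.exp_nat_mul]; norm_num
  calc T * q ^ (L + 1) ≤ Real.exp (5 * (L / 2)) * Real.exp (-(4 * L)) := by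
        gcongr
    _ = Real.exp (-(3 / 2 * L)) := by rw [← Real.exp_add]; congr 1; ring
    _ ≤ Real.exp (-(L : ℝ)) := by
      apply Real.exp_le_exp.mpr
      have : (0 : ℝ) ≤ L := by positivity
      linarith

section core

variable {x s L K k B TN T : ℝ}

theorem core_a (hL : 10 ^ 4 ≤ L) (hLs : L ^ 30 ≤ s) (hK : 2 * K ≤ s ^ 2)
    (hB0 : 0 ≤ B) (hB : B ≤ 8 * L * s)
    (hTN : TN = 2 * (B + 8 * L ^ 5 + 102) ^ 2 * L ^ 2 + 8 * K) :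
    TN + 1 ≤ 201 * L ^ 4 * s ^ 2 := by
  have hL1 : 1 ≤ L := by linarith
  have hs5 : L ^ 5 ≤ s := (pow_le_pow_right₀ hL1 (by norm_num)).trans hLs
  have hsL : L ≤ s := (le_self_pow₀ hL1 (by norm_num)).trans hLs
  have hs : 10 ^ 4 ≤ s := hL.trans hsL
  have h1 : B + 8 * L ^ 5 + 102 ≤ 10 * L * s := by nlinarith
  have h2 : 0 ≤ B + 8 * L ^ 5 + 102 := by positivity
  have h3 : 2 * (B + 8 * L ^ 5 + 102) ^ 2 * L ^ 2 ≤ 2 * (10 * L * s) ^ 2 * L ^ 2 := by gcongr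
  have h4 : 2 * (10 * L * s) ^ 2 * L ^ 2 = 200 * (L ^ 4 * s ^ 2) := by ring
  have h5 : 5 * s ^ 2 ≤ L ^ 4 * s ^ 2 := by
    apply mul_le_mul_of_nonneg_right _ (by positivity)
    calc (5 : ℝ) ≤ 10 ^ 4 := by norm_num
      _ ≤ L := hL
      _ ≤ L ^ 4 := le_self_pow₀ hL1 (by norm_num)
  have h6 : 1 ≤ s ^ 2 := one_le_pow₀ (by linarith)
  rw [hTN]
  nlinarith

theorem core_b (hL : 10 ^ 4 ≤ L) (hLs : L ^ 30 ≤ s) (hK0 : 0 ≤ K) (hK : 2 * K ≤ s ^ 2)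
    (hTN : TN + 1 ≤ 201 * L ^ 4 * s ^ 2)
    (hT : T = TN + (4 * L + 1) * (2 * (3 * K + 2) ^ 2 * L ^ 2 + 1) + 30 * K) :
    T + 1 ≤ s ^ 5 := by
  have hL1 : 1 ≤ L := by linarith
  have hs5 : L ^ 5 ≤ s := (pow_le_pow_right₀ hL1 (by norm_num)).trans hLs
  have hsL : L ≤ s := (le_self_pow₀ hL1 (by norm_num)).trans hLs
  have hs : 10 ^ 4 ≤ s := hL.trans hsL
  have hs0 : 0 < s := by linarith
  have hL4 : L ^ 4 ≤ s / 10 ^ 4 := by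
    rw [le_div_iff₀ (by norm_num)]
    calc L ^ 4 * 10 ^ 4 ≤ L ^ 4 * L := by gcongr
      _ = L ^ 5 := by ring
      _ ≤ s := hs5
  have hL3 : L ^ 3 ≤ s / 10 ^ 4 := (pow_le_pow_right₀ hL1 (by norm_num)).trans hL4
  have h1 : 3 * K + 2 ≤ 2 * s ^ 2 := by nlinarith
  have h2 : 2 * (3 * K + 2) ^ 2 * L ^ 2 + 1 ≤ 9 * s ^ 4 * L ^ 2 := by
    have h3 : 2 * (3 * K + 2) ^ 2 * L ^ 2 ≤ 2 * (2 * s ^ 2) ^ 2 * L ^ 2 := by gcongr
    have h4 : 1 ≤ s ^ 4 * L ^ 2 := by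
      have := one_le_pow₀ (n := 4) (show 1 ≤ s by linarith)
      have := one_le_pow₀ (n := 2) hL1
      nlinarith
    have h5 : 2 * (2 * s ^ 2) ^ 2 * L ^ 2 = 8 * (s ^ 4 * L ^ 2) := by ring
    nlinarith
  have h3 : (4 * L + 1) * (2 * (3 * K + 2) ^ 2 * L ^ 2 + 1) ≤ (5 * L) * (9 * s ^ 4 * L ^ 2) := by
    apply mul_le_mul (by linarith) h2 (by positivity) (by positivity)
  have h4 : (5 * L) * (9 * s ^ 4 * L ^ 2) = 45 * L ^ 3 * s ^ 4 := by ring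
  have h5 : 45 * L ^ 3 * s ^ 4 ≤ 45 * (s / 10 ^ 4) * s ^ 4 := by gcongr
  have h6 : 45 * (s / 10 ^ 4) * s ^ 4 = (45 / 10 ^ 4) * s ^ 5 := by ring
  have h7 : 201 * L ^ 4 * s ^ 2 ≤ 201 * (s / 10 ^ 4) * s ^ 2 := by gcongr
  have h8 : 201 * (s / 10 ^ 4) * s ^ 2 = (201 / 10 ^ 4) * s ^ 3 := by ring
  have h9 : s ^ 3 ≤ s ^ 5 := pow_le_pow_right₀ (by linarith) (by norm_num)
  have h10 : 30 * K ≤ (1 / 100) * s ^ 5 := by
    have : s ^ 2 * 10 ^ 4 ≤ s ^ 5 := by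
      calc s ^ 2 * 10 ^ 4 ≤ s ^ 2 * s := by gcongr
        _ = s ^ 3 := by ring
        _ ≤ s ^ 5 := h9
    linarith
  have h11 : 0 ≤ s ^ 5 := by positivity
  rw [hT]
  linarith

theorem core_q (hx : 10 ^ 4 ≤ x) (hL : 10 ^ 4 ≤ L) (hLx : L ≤ 2 * x) (hLs : L ^ 30 ≤ s)
    (hK : 2 * K ≤ s ^ 2) (hK1 : s ^ 2 ≤ 2 * K + 1) (hTN0 : 0 ≤ TN)
    (hTN : TN + 1 ≤ 201 * L ^ 4 * s ^ 2) (hk0 : 0 ≤ k) (hk : k ≤ s ^ 3 / x ^ 30) :
    k * ((12 * L ^ 5 + 1) * (10 ^ 9 * (L ^ 5) ^ 3 *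
          (Real.sqrt K + (TN + 1) / Real.sqrt K)) / s ^ 4) ≤ 1 / 100 := by
  have hL1 : 1 ≤ L := by linarith
  have hsL : L ≤ s := (le_self_pow₀ hL1 (by norm_num)).trans hLs
  have hs : 10 ^ 4 ≤ s := hL.trans hsL
  have hs0 : 0 < s := by linarith
  have hx0 : 0 < x := by linarith
  have hKl : (s / 2) ^ 2 ≤ K := by nlinarith
  have hKu : K ≤ s ^ 2 := by nlinarith
  have h1 : s / 2 ≤ Real.sqrt K := Real.le_sqrt_of_sq_le hKl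
  have h2 : Real.sqrt K ≤ s := by
    rw [Real.sqrt_le_left hs0.le]; exact hKu
  have h3 : (TN + 1) / Real.sqrt K ≤ 402 * L ^ 4 * s := by
    rw [div_le_iff₀ (by linarith)]
    calc TN + 1 ≤ 201 * L ^ 4 * s ^ 2 := hTN
      _ = 402 * L ^ 4 * s * (s / 2) := by ring
      _ ≤ 402 * L ^ 4 * s * Real.sqrt K := by gcongr
  have h4 : Real.sqrt K + (TN + 1) / Real.sqrt K ≤ 403 * L ^ 4 * s := by
    have : s ≤ L ^ 4 * s := by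
      have := one_le_pow₀ (n := 4) hL1
      nlinarith
    nlinarith
  have h5 : 12 * L ^ 5 + 1 ≤ 13 * L ^ 5 := by
    have := one_le_pow₀ (n := 5) hL1
    linarith
  have h6 : (12 * L ^ 5 + 1) * (10 ^ 9 * (L ^ 5) ^ 3 *
          (Real.sqrt K + (TN + 1) / Real.sqrt K)) ≤
      (13 * L ^ 5) * (10 ^ 9 * (L ^ 5) ^ 3 * (403 * L ^ 4 * s)) := by gcongr
  have h7 : (13 * L ^ 5) * (10 ^ 9 * (L ^ 5) ^ 3 * (403 * L ^ 4 * s)) =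
      (5239 * 10 ^ 9) * (L ^ 24 * s) := by ring
  have h8 : L ^ 24 ≤ (2 * x) ^ 24 := by gcongr
  calc k * ((12 * L ^ 5 + 1) * (10 ^ 9 * (L ^ 5) ^ 3 *
          (Real.sqrt K + (TN + 1) / Real.sqrt K)) / s ^ 4)
      ≤ (s ^ 3 / x ^ 30) * ((5239 * 10 ^ 9) * ((2 * x) ^ 24 * s) / s ^ 4) := by
        rw [h7] at h6
        have h9 := h6.trans (show (5239 * 10 ^ 9) * (L ^ 24 * s) ≤
          (5239 * 10 ^ 9) * ((2 * x) ^ 24 * s) by gcongr)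
        gcongr
    _ = (5239 * 10 ^ 9 * 2 ^ 24) / x ^ 6 := by
        field_simp
    _ ≤ (5239 * 10 ^ 9 * 2 ^ 24) / (10 ^ 4) ^ 6 := by gcongr
    _ ≤ 1 / 100 := by norm_num

theorem core_d (hx : 10 ^ 4 ≤ x) (hL : 10 ^ 4 ≤ L) (hLx : L ≤ 2 * x) (hLs : L ^ 30 ≤ s)
    (hTN0 : 0 ≤ TN)
    (hTN : TN + 1 ≤ 201 * L ^ 4 * s ^ 2) (hk0 : 0 ≤ k) (hk : k ≤ s ^ 3 / x ^ 30) :
    k ^ 2 * (TN + 1) * (2 * (12 * L ^ 5) + 1) *
          ((200 * (L ^ 5 + 4)) ^ 2 / s ^ 4) ^ 2 ≤ 1 / 100 := by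
  have hL1 : 1 ≤ L := by linarith
  have hsL : L ≤ s := (le_self_pow₀ hL1 (by norm_num)).trans hLs
  have hs : 10 ^ 4 ≤ s := hL.trans hsL
  have hs0 : 0 < s := by linarith
  have hx0 : 0 < x := by linarith
  have hL5 : 10 ^ 4 ≤ L ^ 5 := hL.trans (le_self_pow₀ hL1 (by norm_num))
  have h1 : 2 * (12 * L ^ 5) + 1 ≤ 25 * L ^ 5 := by linarith
  have h2 : 200 * (L ^ 5 + 4) ≤ 400 * L ^ 5 := by linarith
  have h8 : L ^ 29 ≤ (2 * x) ^ 29 := by gcongr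
  calc k ^ 2 * (TN + 1) * (2 * (12 * L ^ 5) + 1) *
          ((200 * (L ^ 5 + 4)) ^ 2 / s ^ 4) ^ 2
      ≤ (s ^ 3 / x ^ 30) ^ 2 * (201 * L ^ 4 * s ^ 2) * (25 * L ^ 5) *
          ((400 * L ^ 5) ^ 2 / s ^ 4) ^ 2 := by gcongr
    _ = (201 * 25 * 400 ^ 4) * L ^ 29 / x ^ 60 := by
        field_simp
    _ ≤ (201 * 25 * 400 ^ 4) * (2 * x) ^ 29 / x ^ 60 := by gcongr
    _ = (201 * 25 * 400 ^ 4 * 2 ^ 29) / x ^ 31 := by
        field_simp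
    _ ≤ (201 * 25 * 400 ^ 4 * 2 ^ 29) / (10 ^ 4) ^ 31 := by gcongr
    _ ≤ 1 / 100 := by norm_num

theorem core_e (hx : 10 ^ 4 ≤ x) (hL : 10 ^ 4 ≤ L) (hLs : L ^ 30 ≤ s)
    (hk0 : 0 ≤ k) (hk : k ≤ s ^ 3) :
    k * ((60 * L ^ 5 + 1) ^ 2 / s ^ 4) ≤ 1 / 100 := by
  have hL1 : 1 ≤ L := by linarith
  have hsL : L ≤ s := (le_self_pow₀ hL1 (by norm_num)).trans hLs
  have hs : 10 ^ 4 ≤ s := hL.trans hsL
  have hs0 : 0 < s := by linarith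
  have hL0 : 0 < L := by linarith
  have h1 : 60 * L ^ 5 + 1 ≤ 61 * L ^ 5 := by
    have := one_le_pow₀ (n := 5) hL1
    linarith
  calc k * ((60 * L ^ 5 + 1) ^ 2 / s ^ 4) ≤ s ^ 3 * ((61 * L ^ 5) ^ 2 / s ^ 4) := by gcongr
    _ = 3721 * L ^ 10 / s := by field_simp; ring
    _ ≤ 3721 * L ^ 10 / L ^ 30 := by gcongr
    _ = 3721 / L ^ 20 := by field_simp
    _ ≤ 3721 / (10 ^ 4) ^ 20 := by gcongr
    _ ≤ 1 / 100 := by norm_num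

theorem core_f (hL : 10 ^ 4 ≤ L) (hLs : L ^ 30 ≤ s) (hK1 : s ^ 2 ≤ 2 * K + 1)
    (hB : B ≤ 8 * L * s) :
    200 * L ^ 5 + 10 * B + 10 * (30 * L ^ 5) + 1000 ≤ K := by
  have hL1 : 1 ≤ L := by linarith
  have hs5 : L ^ 5 ≤ s := (pow_le_pow_right₀ hL1 (by norm_num)).trans hLs
  have hs2 : L ^ 2 ≤ s := (pow_le_pow_right₀ hL1 (by norm_num)).trans hLs
  have hsL : L ≤ s := (le_self_pow₀ hL1 (by norm_num)).trans hLs
  have hs : 10 ^ 4 ≤ s := hL.trans hsL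
  have h1 : L * 10 ^ 4 ≤ s := by nlinarith
  have h2 : L * s * 10 ^ 4 ≤ s ^ 2 := by nlinarith
  have h3 : s * 10 ^ 4 ≤ s ^ 2 := by nlinarith
  nlinarith

end core

theorem asym : ∃ n₀ : ℕ, ∀ n ≥ n₀, ∀ K o k : ℕ, n + o = 2 * K + 1 → o ≤ 1 →
    (k : ℝ) ≤ n * Real.sqrt n / (Real.log n) ^ 30 →
    ∃ L₀ M L₁ R B S₁ TN S₂ l T : ℕ,
      100 ≤ L₀ ∧ 1000 * (M + 1) * L₀ ≤ L₁ ∧ 1000 * L₁ ≤ R ∧ 4 ≤ R ∧
      200 * R + 10 * B + 10 * (30 * R) + 1000 ≤ K ∧ S₁ + 8 * K ≤ TN ∧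
      TN + (l + 1) * (S₂ + 1) + 30 * K ≤ T ∧
      (k : ℝ) * ((60 * (R : ℝ) + 1) ^ 2 / (n : ℝ) ^ 2 +
          ((T : ℝ) + 1) ^ 2 * (2 * Real.exp (-((L₀ : ℝ) / 25))) +
          ((T : ℝ) + 1) ^ 2 * (2 * Real.exp (-((B : ℝ) ^ 2 / (2 * ((4 * K : ℕ) : ℝ))))) +
          ((T : ℝ) + 1) * (1 / 2) ^ (S₁ / (2 * (B + 8 * R + 100 + 2) ^ 2)) +
          ((T : ℝ) + 1) * (1 / 2) ^ (S₂ / (2 * (3 * K + 2) ^ 2))) +
        ((T : ℝ) + 1) * ((k : ℝ) * ((12 * (R : ℝ) + 1) * (10 ^ 9 * (R : ℝ) ^ 3 *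
          (Real.sqrt K + ((TN : ℝ) + 1) / Real.sqrt K)) / (n : ℝ) ^ 2)) ^ (M + 1) +
        (k : ℝ) ^ 2 * ((TN : ℝ) + 1) * (2 * ((12 * R : ℕ) : ℝ) + 1) *
          ((200 * ((R : ℝ) + 4)) ^ 2 / (n : ℝ) ^ 2) ^ 2 +
        (k : ℝ) * (1 / 2) ^ l ≤ 1 / 4 := by
  obtain ⟨n₀, h0⟩ := asym_ev
  refine ⟨n₀, fun n hn K o k hno ho hk => ?_⟩
  obtain ⟨hx, hp⟩ := h0 n hn
  set x := Real.log n with hxdef
  have hx0 : 0 < x := by linarith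
  have hn1 : 1 ≤ n := by
    rcases Nat.eq_zero_or_pos n with h | h
    · rw [h, Nat.cast_zero, Real.log_zero] at hxdef
      linarith
    · exact h
  have hn1' : (1 : ℝ) ≤ n := by exact_mod_cast hn1
  obtain ⟨L, hLdef⟩ : ∃ L : ℕ, L = ⌈x⌉₊ := ⟨_, rfl⟩
  have hxL : x ≤ L := by rw [hLdef]; exact Nat.le_ceil x
  have hLx1 : (L : ℝ) ≤ x + 1 := by rw [hLdef]; exact (Nat.ceil_lt_add_one hx0.le).le
  have hLx : (L : ℝ) ≤ 2 * x := by linarith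
  have hL : (10 ^ 4 : ℝ) ≤ L := hx.trans hxL
  have hLN : 10 ^ 4 ≤ L := by exact_mod_cast hL
  have hL1 : (1 : ℝ) ≤ L := by linarith
  set s := Real.sqrt n with hsdef
  have hs0 : 0 ≤ s := Real.sqrt_nonneg _
  have hs2 : s ^ 2 = n := Real.sq_sqrt (by positivity)
  have hLs : (L : ℝ) ^ 30 ≤ s := by
    have h1 : (2 * x) ^ 30 ≤ s := by
      apply Real.le_sqrt_of_sq_le
      rw [← pow_mul]
      exact hp
    exact (pow_le_pow_left₀ (by positivity) hLx 30).trans h1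
  have hsL : (L : ℝ) ≤ s := (le_self_pow₀ hL1 (by norm_num)).trans hLs
  have hs1 : 1 ≤ s := hL1.trans hsL
  have hse : s ≤ Real.exp (L / 2) := by
    rw [hsdef, Real.sqrt_le_left (Real.exp_pos _).le, ← Real.exp_nat_mul]
    calc (n : ℝ) = Real.exp x := by rw [hxdef, Real.exp_log (by linarith)]
      _ ≤ Real.exp (((2 : ℕ) : ℝ) * (L / 2)) := by
        apply Real.exp_le_exp.mpr
        push_cast
        linarith
  have hK : 2 * (K : ℝ) ≤ s ^ 2 := by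
    rw [hs2]
    have : 2 * K ≤ n := by omega
    exact_mod_cast this
  have hK1 : s ^ 2 ≤ 2 * (K : ℝ) + 1 := by
    rw [hs2]
    have : n ≤ 2 * K + 1 := by omega
    exact_mod_cast this
  have hks : (k : ℝ) ≤ s ^ 3 / x ^ 30 := by
    have : (n : ℝ) * s = s ^ 3 := by rw [← hs2]; ring
    rw [← this]; exact hk
  have hks3 : (k : ℝ) ≤ s ^ 3 := by
    refine hks.trans (div_le_self (by positivity) ?_)
    exact one_le_pow₀ (by linarith)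
  have hk0 : (0 : ℝ) ≤ k := by positivity
  -- the number `B`
  obtain ⟨B, hBdef⟩ : ∃ B : ℕ, B = 4 * L * (Nat.sqrt n + 1) := ⟨_, rfl⟩
  have hsq1 : s ≤ (Nat.sqrt n : ℝ) + 1 := by
    rw [hsdef, Real.sqrt_le_left (by positivity)]
    have := Nat.lt_succ_sqrt n
    have h2 : (n : ℝ) < ((Nat.sqrt n : ℝ) + 1) * ((Nat.sqrt n : ℝ) + 1) := by exact_mod_cast this
    nlinarith
  have hsq2 : (Nat.sqrt n : ℝ) ≤ s := Real.nat_sqrt_le_real_sqrt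
  have hB1 : 4 * L * s ≤ B := by
    rw [hBdef]; push_cast
    exact mul_le_mul_of_nonneg_left hsq1 (by positivity)
  have hB2 : (B : ℝ) ≤ 8 * L * s := by
    rw [hBdef]; push_cast
    have : (Nat.sqrt n : ℝ) + 1 ≤ 2 * s := by linarith
    calc 4 * (L : ℝ) * ((Nat.sqrt n : ℝ) + 1) ≤ 4 * L * (2 * s) := by gcongr
      _ = 8 * L * s := by ring
  have hB0 : (0 : ℝ) ≤ B := by positivity
  obtain ⟨S₁, hS1⟩ : ∃ S : ℕ, S = 2 * (B + 8 * L ^ 5 + 100 + 2) ^ 2 * L ^ 2 := ⟨_, rfl⟩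
  obtain ⟨S₂, hS2⟩ : ∃ S : ℕ, S = 2 * (3 * K + 2) ^ 2 * L ^ 2 := ⟨_, rfl⟩
  obtain ⟨TN, hTNdef⟩ : ∃ TN : ℕ, TN = S₁ + 8 * K := ⟨_, rfl⟩
  obtain ⟨T, hTdef⟩ : ∃ T : ℕ, T = TN + (4 * L + 1) * (S₂ + 1) + 30 * K := ⟨_, rfl⟩
  have hTN : (TN : ℝ) + 1 ≤ 201 * (L : ℝ) ^ 4 * s ^ 2 := by
    apply core_a hL hLs hK hB0 hB2
    rw [hTNdef, hS1]; push_cast; ring
  have hT : (T : ℝ) + 1 ≤ s ^ 5 := by
    apply core_b (K := (K : ℝ)) hL hLs (by positivity) hK hTN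
    rw [hTdef, hS2]; push_cast; ring
  refine ⟨L ^ 2, L, L ^ 4, L ^ 5, B, S₁, TN, S₂, 4 * L, T, ?_, ?_, ?_, ?_, ?_, ?_, ?_, ?_⟩
  · nlinarith
  · have : 1000 * (L + 1) ≤ L ^ 2 := by nlinarith
    calc 1000 * (L + 1) * L ^ 2 ≤ L ^ 2 * L ^ 2 := Nat.mul_le_mul_right _ this
      _ = L ^ 4 := by ring
  · calc 1000 * L ^ 4 ≤ L * L ^ 4 := Nat.mul_le_mul_right _ (by omega)
      _ = L ^ 5 := by ring
  · calc 4 ≤ L := by omega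
      _ ≤ L ^ 5 := Nat.le_self_pow (by norm_num) L
  · have := core_f (K := (K : ℝ)) hL hLs hK1 hB2
    exact_mod_cast this
  · exact hTNdef.ge
  · exact hTdef.ge
  · -- the estimate
    have hn4 : (n : ℝ) ^ 2 = s ^ 4 := by rw [← hs2]; ring
    rw [hn4]
    have hdiv1 : S₁ / (2 * (B + 8 * L ^ 5 + 100 + 2) ^ 2) = L ^ 2 := by
      rw [hS1]; exact Nat.mul_div_cancel_left _ (by positivity)
    have hdiv2 : S₂ / (2 * (3 * K + 2) ^ 2) = L ^ 2 := by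
      rw [hS2]; exact Nat.mul_div_cancel_left _ (by positivity)
    rw [hdiv1, hdiv2]
    have hs3 : 0 ≤ s ^ 3 := by positivity
    have hT0 : (0 : ℝ) ≤ (T : ℝ) + 1 := by positivity
    have hEx := exp_bound (L := L) hs0 hse (by omega)
    have hsm := exp_neg_small (L := L) (by omega)
    set E := Real.exp (-(((L ^ 2 : ℕ) : ℝ) / 25)) with hE
    have hE0 : 0 < E := Real.exp_pos _
    have a1 : (k : ℝ) * ((60 * ((L ^ 5 : ℕ) : ℝ) + 1) ^ 2 / s ^ 4) ≤ 1 / 100 := by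
      push_cast
      exact core_e hx hL hLs hk0 hks3
    have hkT : (k : ℝ) * ((T : ℝ) + 1) ^ 2 ≤ s ^ 13 := by
      calc (k : ℝ) * ((T : ℝ) + 1) ^ 2 ≤ s ^ 3 * (s ^ 5) ^ 2 := by gcongr
        _ = s ^ 13 := by ring
    have hkT1 : (k : ℝ) * ((T : ℝ) + 1) ≤ s ^ 13 := by
      calc (k : ℝ) * ((T : ℝ) + 1) ≤ s ^ 3 * s ^ 5 := by gcongr
        _ = s ^ 8 := by ring
        _ ≤ s ^ 13 := pow_le_pow_right₀ hs1 (by norm_num)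
    have a2 : (k : ℝ) * (((T : ℝ) + 1) ^ 2 * (2 * E)) ≤ 2 / 1000 := by
      calc (k : ℝ) * (((T : ℝ) + 1) ^ 2 * (2 * E)) = 2 * ((k : ℝ) * ((T : ℝ) + 1) ^ 2 * E) := by
            ring
        _ ≤ 2 * (s ^ 13 * E) := by gcongr
        _ ≤ 2 * (1 / 1000) := by gcongr; exact hEx.trans hsm
        _ = 2 / 1000 := by norm_num
    have a3 : (k : ℝ) * (((T : ℝ) + 1) ^ 2 *
        (2 * Real.exp (-((B : ℝ) ^ 2 / (2 * ((4 * K : ℕ) : ℝ)))))) ≤ 2 / 1000 := by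
      have hexp : Real.exp (-((B : ℝ) ^ 2 / (2 * ((4 * K : ℕ) : ℝ)))) ≤ E := by
        rw [hE]
        apply Real.exp_le_exp.mpr
        apply neg_le_neg
        have hK0 : (0 : ℝ) < K := by
          have : (10 : ℝ) ≤ s ^ 2 := by nlinarith
          linarith
        rw [le_div_iff₀ (by push_cast; positivity)]
        push_cast
        have h1 : (4 * L * s) ^ 2 ≤ (B : ℝ) ^ 2 := by gcongr
        have h2 : (L : ℝ) ^ 2 * (2 * K) ≤ (L : ℝ) ^ 2 * s ^ 2 := by gcongr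
        nlinarith
      refine le_trans ?_ a2
      gcongr
    have a4 : (k : ℝ) * (((T : ℝ) + 1) * (1 / 2) ^ (L ^ 2)) ≤ 1 / 1000 := by
      calc (k : ℝ) * (((T : ℝ) + 1) * (1 / 2) ^ (L ^ 2)) =
          (k : ℝ) * ((T : ℝ) + 1) * (1 / 2) ^ (L ^ 2) := by ring
        _ ≤ s ^ 13 * E := by
          apply mul_le_mul hkT1 (half_pow_le (L ^ 2)) (by positivity) (by positivity)
        _ ≤ 1 / 1000 := hEx.trans hsm
    have a5 : ((T : ℝ) + 1) * ((k : ℝ) * ((12 * ((L ^ 5 : ℕ) : ℝ) + 1) *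
          (10 ^ 9 * ((L ^ 5 : ℕ) : ℝ) ^ 3 *
          (Real.sqrt K + ((TN : ℝ) + 1) / Real.sqrt K)) / s ^ 4)) ^ (L + 1) ≤ 1 / 1000 := by
      refine (near_term hs0 hse hT (by positivity) ?_).trans hsm
      push_cast
      exact core_q hx hL hLx hLs hK hK1 (by positivity) hTN hk0 hks
    have a6 : (k : ℝ) ^ 2 * ((TN : ℝ) + 1) * (2 * ((12 * L ^ 5 : ℕ) : ℝ) + 1) *
          ((200 * (((L ^ 5 : ℕ) : ℝ) + 4)) ^ 2 / s ^ 4) ^ 2 ≤ 1 / 100 := by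
      push_cast
      exact core_d hx hL hLx hLs (by positivity) hTN hk0 hks
    have a7 : (k : ℝ) * (1 / 2) ^ (4 * L) ≤ 1 / 1000 := by
      calc (k : ℝ) * (1 / 2) ^ (4 * L) ≤ s ^ 3 * (1 / 2) ^ (4 * L) := by gcongr
        _ ≤ 1 / 1000 := (sixteen_pow hs0 hse).trans hsm
    have e1 : (k : ℝ) * ((60 * ((L ^ 5 : ℕ) : ℝ) + 1) ^ 2 / s ^ 4 +
          ((T : ℝ) + 1) ^ 2 * (2 * E) +
          ((T : ℝ) + 1) ^ 2 * (2 * Real.exp (-((B : ℝ) ^ 2 / (2 * ((4 * K : ℕ) : ℝ))))) +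
          ((T : ℝ) + 1) * (1 / 2) ^ (L ^ 2) +
          ((T : ℝ) + 1) * (1 / 2) ^ (L ^ 2)) =
        (k : ℝ) * ((60 * ((L ^ 5 : ℕ) : ℝ) + 1) ^ 2 / s ^ 4) +
        (k : ℝ) * (((T : ℝ) + 1) ^ 2 * (2 * E)) +
        (k : ℝ) * (((T : ℝ) + 1) ^ 2 *
          (2 * Real.exp (-((B : ℝ) ^ 2 / (2 * ((4 * K : ℕ) : ℝ)))))) +
        (k : ℝ) * (((T : ℝ) + 1) * (1 / 2) ^ (L ^ 2)) +
        (k : ℝ) * (((T : ℝ) + 1) * (1 / 2) ^ (L ^ 2)) := by ring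
    rw [e1]
    linarith

end MP34e
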