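import Pool.Agent.Work.MP_34e428_co.LDefs

/-! Module C1: Hoeffding bounds by counting coin sequences. -/

set_option autoImplicit false

open Finset
open scoped Classical

namespace MP34e

theorem walk_eq_sum (h : ℕ → Bool) {a b : ℕ} (hab : a ≤ b) :
    2 * ct h a b - ((b : ℤ) - a) = ∑ t ∈ Ico a b, (if h t then (1 : ℤ) else -1) := by
  induction b, hab using Nat.le_induction with
  | base => simp [ct_self]
  | succ b hab ih =>
    rw [ct_succ h hab, Finset.sum_Ico_succ_top hab, ← ih]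
    push_cast
    split_ifs <;> ring

theorem walk_eq_sum_fin {T : ℕ} (c : Fin T → Bool) {a b : ℕ} (hab : a ≤ b) (hb : b ≤ T) :
    2 * ct (ex c) a b - ((b : ℤ) - a) =
      ∑ i : Fin T, (if a ≤ (i : ℕ) ∧ (i : ℕ) < b then (if c i then (1 : ℤ) else -1) else 0) := by
  rw [walk_eq_sum _ hab]
  have h1 : ∑ i : Fin T, (if a ≤ (i : ℕ) ∧ (i : ℕ) < b then (if c i then (1 : ℤ) else -1) else 0) =
      ∑ i : Fin T, (fun n : ℕ => if a ≤ n ∧ n < b then (if ex c n then (1 : ℤ) else -1) else 0)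
        (i : ℕ) := by
    apply Finset.sum_congr rfl
    intro i _
    have : ex c (i : ℕ) = c i := by simp [ex]
    simp only [this]
  rw [h1, Fin.sum_univ_eq_sum_range
    (fun n : ℕ => if a ≤ n ∧ n < b then (if ex c n then (1 : ℤ) else -1) else 0) T,
    ← Finset.sum_filter]
  apply Finset.sum_congr _ (fun _ _ => rfl)
  ext x
  simp only [Finset.mem_Ico, Finset.mem_filter, Finset.mem_range]
  constructor
  · intro hx; exact ⟨by omega, hx⟩
  · intro hx; exact hx.2

theorem mgf {T a b : ℕ} (hab : a ≤ b) (hb : b ≤ T) (lam : ℝ) :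
    ∑ c : Fin T → Bool, Real.exp (lam * ((2 * ct (ex c) a b - ((b : ℤ) - a) : ℤ) : ℝ)) =
      2 ^ T * Real.cosh lam ^ (b - a) := by
  have h1 : ∀ c : Fin T → Bool,
      Real.exp (lam * ((2 * ct (ex c) a b - ((b : ℤ) - a) : ℤ) : ℝ)) =
      ∏ i : Fin T, (if a ≤ (i : ℕ) ∧ (i : ℕ) < b then
        Real.exp (lam * (if c i then (1 : ℝ) else -1)) else 1) := by
    intro c
    rw [walk_eq_sum_fin c hab hb, Int.cast_sum, Finset.mul_sum, Real.exp_sum]
    apply Finset.prod_congr rfl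
    intro i _
    split_ifs <;> simp
  simp only [h1]
  have h2 := Finset.prod_univ_sum (fun _ : Fin T => (univ : Finset Bool))
    (fun (i : Fin T) (x : Bool) => (if a ≤ (i : ℕ) ∧ (i : ℕ) < b then
        Real.exp (lam * (if x then (1 : ℝ) else -1)) else 1))
  rw [Fintype.piFinset_univ] at h2
  rw [← h2]
  have h3 : ∀ i : Fin T, (∑ x : Bool, (if a ≤ (i : ℕ) ∧ (i : ℕ) < b then
        Real.exp (lam * (if x then (1 : ℝ) else -1)) else 1)) =
      2 * (if a ≤ (i : ℕ) ∧ (i : ℕ) < b then Real.cosh lam else 1) := by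
    intro i
    rw [Fintype.sum_bool]
    by_cases h : a ≤ (i : ℕ) ∧ (i : ℕ) < b
    · rw [if_pos h, if_pos h, if_pos h, Real.cosh_eq]
      simp only [if_true, mul_one, Bool.false_eq_true, if_false, mul_neg]
      ring
    · rw [if_neg h, if_neg h, if_neg h]
      norm_num
  rw [Finset.prod_congr rfl (fun i _ => h3 i), Finset.prod_mul_distrib, Finset.prod_const,
    Finset.card_univ, Fintype.card_fin]
  congr 1
  rw [← Finset.prod_filter, Finset.prod_const]
  congr 1
  have h4 : (univ.filter (fun i : Fin T => a ≤ (i : ℕ) ∧ (i : ℕ) < b)).card =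
      ((Finset.range T).filter (fun n => a ≤ n ∧ n < b)).card := by
    rw [← Finset.card_map Fin.valEmbedding]
    congr 1
    ext n
    simp only [Finset.mem_map, Finset.mem_filter, Finset.mem_univ, true_and, Fin.valEmbedding_apply,
      Finset.mem_range]
    constructor
    · rintro ⟨i, hi, rfl⟩
      exact ⟨i.2, hi⟩
    · rintro ⟨hn, hi⟩
      exact ⟨⟨n, hn⟩, hi, rfl⟩
  rw [h4]
  have h5 : (Finset.range T).filter (fun n => a ≤ n ∧ n < b) = Finset.Ico a b := by
    ext n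
    simp only [Finset.mem_filter, Finset.mem_range, Finset.mem_Ico]
    omega
  rw [h5, Nat.card_Ico]

theorem markov_count {T : ℕ} (F : (Fin T → Bool) → ℝ) (lam x C : ℝ)
    (hl : 0 ≤ lam)
    (hC : ∑ c : Fin T → Bool, Real.exp (lam * F c) ≤ C) :
    ((univ.filter (fun c : Fin T → Bool => x ≤ F c)).card : ℝ) ≤ C * Real.exp (-(lam * x)) := by
  have h1 : ((univ.filter (fun c : Fin T → Bool => x ≤ F c)).card : ℝ) * Real.exp (lam * x) ≤ C := by
    refine le_trans ?_ hC
    calc ((univ.filter (fun c : Fin T → Bool => x ≤ F c)).card : ℝ) * Real.exp (lam * x)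
        = ∑ c ∈ univ.filter (fun c : Fin T → Bool => x ≤ F c), Real.exp (lam * x) := by
          rw [Finset.sum_const, nsmul_eq_mul]
      _ ≤ ∑ c ∈ univ.filter (fun c : Fin T → Bool => x ≤ F c), Real.exp (lam * F c) := by
          apply Finset.sum_le_sum
          intro c hc
          apply Real.exp_le_exp.mpr
          exact mul_le_mul_of_nonneg_left (Finset.mem_filter.mp hc).2 hl
      _ ≤ ∑ c : Fin T → Bool, Real.exp (lam * F c) := by
          apply Finset.sum_le_sum_of_subset_of_nonneg (Finset.filter_subset _ _)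
          intro c _ _
          positivity
  calc ((univ.filter (fun c : Fin T → Bool => x ≤ F c)).card : ℝ)
      = ((univ.filter (fun c : Fin T → Bool => x ≤ F c)).card : ℝ) * Real.exp (lam * x) *
          Real.exp (-(lam * x)) := by
        rw [mul_assoc, ← Real.exp_add]; simp
    _ ≤ C * Real.exp (-(lam * x)) := by
        apply mul_le_mul_of_nonneg_right h1 (by positivity)

theorem count_dev {T : ℕ} (a b : ℕ) (hab : a < b) (hb : b ≤ T) (x : ℝ) (hx : 0 ≤ x) :
    ((univ.filter (fun c : Fin T → Bool =>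
      x ≤ |((2 * ct (ex c) a b - ((b : ℤ) - a) : ℤ) : ℝ)|)).card : ℝ) ≤
      2 ^ T * (2 * Real.exp (-(x ^ 2 / (2 * ((b : ℝ) - a))))) := by
  have hm : (0 : ℝ) < (b : ℝ) - a := by
    have : (a : ℝ) < b := by exact_mod_cast hab
    linarith
  have hmn : ((b - a : ℕ) : ℝ) = (b : ℝ) - a := by
    push_cast [hab.le]; ring
  set lam : ℝ := x / ((b : ℝ) - a) with hlam
  have hl : 0 ≤ lam := by positivity
  have hbound : ∀ l : ℝ, l ^ 2 = lam ^ 2 →
      ∑ c : Fin T → Bool, Real.exp (l * ((2 * ct (ex c) a b - ((b : ℤ) - a) : ℤ) : ℝ)) ≤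
        2 ^ T * Real.exp (lam ^ 2 / 2 * ((b : ℝ) - a)) := by
    intro l hl2
    rw [mgf hab.le hb l]
    apply mul_le_mul_of_nonneg_left _ (by positivity)
    calc Real.cosh l ^ (b - a) ≤ Real.exp (l ^ 2 / 2) ^ (b - a) := by
          apply pow_le_pow_left₀ (Real.cosh_pos l).le (Real.cosh_le_exp_half_sq l)
      _ = Real.exp (lam ^ 2 / 2 * ((b : ℝ) - a)) := by
          rw [← Real.exp_nat_mul, hl2, hmn]
          congr 1
          ring
  have e1 : 2 ^ T * Real.exp (lam ^ 2 / 2 * ((b : ℝ) - a)) * Real.exp (-(lam * x)) =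
      2 ^ T * Real.exp (-(x ^ 2 / (2 * ((b : ℝ) - a)))) := by
    rw [mul_assoc, ← Real.exp_add]
    congr 2
    rw [hlam]
    field_simp
    ring
  have m1 := markov_count (T := T) (fun c => ((2 * ct (ex c) a b - ((b : ℤ) - a) : ℤ) : ℝ)) lam x
    _ hl (hbound lam rfl)
  have m2 := markov_count (T := T) (fun c => -((2 * ct (ex c) a b - ((b : ℤ) - a) : ℤ) : ℝ)) lam x
    (2 ^ T * Real.exp (lam ^ 2 / 2 * ((b : ℝ) - a))) hl (by
      have := hbound (-lam) (by ring)
      refine le_trans (le_of_eq ?_) this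
      apply Finset.sum_congr rfl
      intro c _
      congr 1
      ring)
  rw [e1] at m1 m2
  have hsub : (univ.filter (fun c : Fin T → Bool =>
      x ≤ |((2 * ct (ex c) a b - ((b : ℤ) - a) : ℤ) : ℝ)|)) ⊆
      (univ.filter (fun c : Fin T → Bool =>
        x ≤ ((2 * ct (ex c) a b - ((b : ℤ) - a) : ℤ) : ℝ))) ∪
      (univ.filter (fun c : Fin T → Bool =>
        x ≤ -((2 * ct (ex c) a b - ((b : ℤ) - a) : ℤ) : ℝ))) := by
    intro c hc
    simp only [Finset.mem_filter, Finset.mem_univ, true_and, Finset.mem_union] at hc ⊢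
    exact le_abs.mp hc
  calc ((univ.filter (fun c : Fin T → Bool =>
      x ≤ |((2 * ct (ex c) a b - ((b : ℤ) - a) : ℤ) : ℝ)|)).card : ℝ)
      ≤ (((univ.filter (fun c : Fin T → Bool =>
        x ≤ ((2 * ct (ex c) a b - ((b : ℤ) - a) : ℤ) : ℝ))) ∪
      (univ.filter (fun c : Fin T → Bool =>
        x ≤ -((2 * ct (ex c) a b - ((b : ℤ) - a) : ℤ) : ℝ)))).card : ℝ) := by
        exact_mod_cast Finset.card_le_card hsub
    _ ≤ ((univ.filter (fun c : Fin T → Bool =>
        x ≤ ((2 * ct (ex c) a b - ((b : ℤ) - a) : ℤ) : ℝ))).card : ℝ) +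
      ((univ.filter (fun c : Fin T → Bool =>
        x ≤ -((2 * ct (ex c) a b - ((b : ℤ) - a) : ℤ) : ℝ))).card : ℝ) := by
        exact_mod_cast Finset.card_union_le _ _
    _ ≤ 2 ^ T * Real.exp (-(x ^ 2 / (2 * ((b : ℝ) - a)))) +
        2 ^ T * Real.exp (-(x ^ 2 / (2 * ((b : ℝ) - a)))) := add_le_add m1 m2
    _ = _ := by ring

theorem count_pairs {T : ℕ} (P : (Fin T → Bool) → Prop) [DecidablePred P] (Q : ℕ → ℕ → Prop) (x : ℕ → ℕ → ℝ)
    (δ : ℝ) (hδ : 0 ≤ δ)
    (h : ∀ c, P c → ∃ a b, a < b ∧ b ≤ T ∧ Q a b ∧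
      x a b ≤ |((2 * ct (ex c) a b - ((b : ℤ) - a) : ℤ) : ℝ)|)
    (hx : ∀ a b, a < b → b ≤ T → Q a b → 0 ≤ x a b ∧
      Real.exp (-(x a b ^ 2 / (2 * ((b : ℝ) - a)))) ≤ δ) :
    ((univ.filter P).card : ℝ) ≤ 2 ^ T * (((T : ℝ) + 1) ^ 2 * (2 * δ)) := by
  set S : Finset (ℕ × ℕ) := ((Finset.range (T + 1)) ×ˢ (Finset.range (T + 1))).filter
    (fun ab => ab.1 < ab.2 ∧ Q ab.1 ab.2) with hS
  have hsub : univ.filter P ⊆ S.biUnion (fun ab => univ.filter (fun c : Fin T → Bool =>
      x ab.1 ab.2 ≤ |((2 * ct (ex c) ab.1 ab.2 - ((ab.2 : ℤ) - ab.1) : ℤ) : ℝ)|)) := by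
    intro c hc
    obtain ⟨a, b, hab, hb, hq, hxx⟩ := h c (Finset.mem_filter.mp hc).2
    rw [Finset.mem_biUnion]
    refine ⟨(a, b), ?_, ?_⟩
    · rw [hS]
      simp only [Finset.mem_filter, Finset.mem_product, Finset.mem_range]
      exact ⟨⟨by omega, by omega⟩, hab, hq⟩
    · simp only [Finset.mem_filter, Finset.mem_univ, true_and]
      exact hxx
  have h1 : ((univ.filter P).card : ℝ) ≤ ∑ ab ∈ S, (((univ.filter (fun c : Fin T → Bool =>
      x ab.1 ab.2 ≤ |((2 * ct (ex c) ab.1 ab.2 - ((ab.2 : ℤ) - ab.1) : ℤ) : ℝ)|)).card : ℝ)) := by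
    have := (Finset.card_le_card hsub).trans Finset.card_biUnion_le
    exact_mod_cast this
  have h2 : ∀ ab ∈ S, (((univ.filter (fun c : Fin T → Bool =>
      x ab.1 ab.2 ≤ |((2 * ct (ex c) ab.1 ab.2 - ((ab.2 : ℤ) - ab.1) : ℤ) : ℝ)|)).card : ℝ)) ≤
      2 ^ T * (2 * δ) := by
    rintro ⟨a, b⟩ hab
    rw [hS] at hab
    simp only [Finset.mem_filter, Finset.mem_product, Finset.mem_range] at hab
    obtain ⟨⟨_, hb⟩, hlt, hq⟩ := hab
    obtain ⟨hx0, hx1⟩ := hx a b hlt (by omega) hq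
    refine (count_dev a b hlt (by omega) (x a b) hx0).trans ?_
    apply mul_le_mul_of_nonneg_left _ (by positivity)
    linarith
  have h3 : (S.card : ℝ) ≤ ((T : ℝ) + 1) ^ 2 := by
    have : S.card ≤ (T + 1) * (T + 1) := by
      refine (Finset.card_filter_le _ _).trans ?_
      rw [Finset.card_product, Finset.card_range]
    calc (S.card : ℝ) ≤ (((T + 1) * (T + 1) : ℕ) : ℝ) := by exact_mod_cast this
      _ = _ := by push_cast; ring
  calc ((univ.filter P).card : ℝ) ≤ _ := h1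
    _ ≤ ∑ _ab ∈ S, 2 ^ T * (2 * δ) := Finset.sum_le_sum h2
    _ = (S.card : ℝ) * (2 ^ T * (2 * δ)) := by rw [Finset.sum_const, nsmul_eq_mul]
    _ ≤ ((T : ℝ) + 1) ^ 2 * (2 ^ T * (2 * δ)) := by
        apply mul_le_mul_of_nonneg_right h3 (by positivity)
    _ = _ := by ring

theorem count_GC (T L₀ : ℕ) :
    ((univ.filter (fun c : Fin T → Bool => ¬ GC L₀ (ex c) T)).card : ℝ) ≤
      2 ^ T * (((T : ℝ) + 1) ^ 2 * (2 * Real.exp (-((L₀ : ℝ) / 25)))) := by
  apply count_pairs (fun c : Fin T → Bool => ¬ GC L₀ (ex c) T) (fun _ _ => True)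
    (fun a b => ((b : ℝ) - a) / 50 + L₀) _ (by positivity)
  · intro c hc
    unfold GC at hc
    push Not at hc
    obtain ⟨a, b, hab, hb, h⟩ := hc
    refine ⟨a, b, ?_, hb, trivial, ?_⟩
    · rcases Nat.lt_or_ge a b with h1 | h1
      · exact h1
      · exfalso
        have : a = b := le_antisymm hab h1
        subst this
        rw [ct_self] at h
        simp at h
        omega
    · have h' : (((b : ℤ) - a + 50 * (L₀ : ℤ) : ℤ) : ℝ) <
          ((50 * |2 * ct (ex c) a b - ((b : ℤ) - a)| : ℤ) : ℝ) := by exact_mod_cast h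
      have e : ((50 * |2 * ct (ex c) a b - ((b : ℤ) - a)| : ℤ) : ℝ) =
          50 * |((2 * ct (ex c) a b - ((b : ℤ) - a) : ℤ) : ℝ)| := by
        rw [Int.cast_mul, Int.cast_abs]; norm_num
      rw [e] at h'
      push_cast at h' ⊢
      linarith
  · intro a b hab hb _
    have hm : (0 : ℝ) < (b : ℝ) - a := by
      have : (a : ℝ) < b := by exact_mod_cast hab
      linarith
    refine ⟨by positivity, ?_⟩
    apply Real.exp_le_exp.mpr
    rw [neg_le_neg_iff, div_le_div_iff₀ (by norm_num) (by positivity)]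
    nlinarith [sq_nonneg (((b : ℝ) - a) / 50 - L₀)]

theorem count_GB (T B W : ℕ) (hW : 1 ≤ W) :
    ((univ.filter (fun c : Fin T → Bool => ¬ GB B W (ex c) T)).card : ℝ) ≤
      2 ^ T * (((T : ℝ) + 1) ^ 2 * (2 * Real.exp (-((B : ℝ) ^ 2 / (2 * W))))) := by
  apply count_pairs (fun c : Fin T → Bool => ¬ GB B W (ex c) T) (fun a b => b ≤ a + W)
    (fun _ _ => (B : ℝ)) _ (by positivity)
  · intro c hc
    unfold GB at hc
    push Not at hc
    obtain ⟨a, b, hab, hb, hbW, h⟩ := hc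
    refine ⟨a, b, ?_, hb, hbW, ?_⟩
    · rcases Nat.lt_or_ge a b with h1 | h1
      · exact h1
      · exfalso
        have : a = b := le_antisymm hab h1
        subst this
        rw [ct_self] at h
        simp at h
        omega
    · have h' : (((B : ℤ) : ℤ) : ℝ) <
          ((|2 * ct (ex c) a b - ((b : ℤ) - a)| : ℤ) : ℝ) := by exact_mod_cast h
      rw [Int.cast_abs] at h'
      have : ((B : ℤ) : ℝ) = (B : ℝ) := by push_cast; rfl
      rw [this] at h'
      exact h'.le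
  · intro a b hab hb hbW
    have hm : (0 : ℝ) < (b : ℝ) - a := by
      have : (a : ℝ) < b := by exact_mod_cast hab
      linarith
    have hW' : (b : ℝ) - a ≤ W := by
      have : (b : ℝ) ≤ ((a + W : ℕ) : ℝ) := by exact_mod_cast hbW
      push_cast at this
      linarith
    refine ⟨by positivity, ?_⟩
    apply Real.exp_le_exp.mpr
    rw [neg_le_neg_iff]
    apply div_le_div_of_nonneg_left (by positivity) (by positivity) (by linarith)

end MP34e
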