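import Pool.Agent.Work.MP_34e428_co.LDefs

/-! Module C2: the stopped backward walk. -/

set_option autoImplicit false

open Finset
open scoped Classical

namespace MP34e

theorem ex_update {T : ℕ} (c : Fin T → Bool) (i : Fin T) (v : Bool) {n : ℕ} (hn : n ≠ i) :
    ex (Function.update c i v) n = ex c n := by
  unfold ex
  split_ifs with h
  · rw [Function.update_of_ne]
    intro h2
    apply hn
    rw [← h2]
  · rfl

theorem ct_congr {g h : ℕ → Bool} {a b : ℕ} (hgh : ∀ n, a ≤ n → n < b → g n = h n) :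
    ct g a b = ct h a b := by
  unfold ct
  congr 2
  apply Finset.filter_congr
  intro n hn
  rw [Finset.mem_Ico] at hn
  rw [hgh n hn.1 hn.2]

theorem ct_update {T : ℕ} (c : Fin T → Bool) (i : Fin T) (v : Bool) {a b : ℕ}
    (h : (i : ℕ) < a ∨ b ≤ (i : ℕ)) : ct (ex (Function.update c i v)) a b = ct (ex c) a b := by
  apply ct_congr
  intro n h1 h2
  apply ex_update
  omega

/-- independence of the coordinate `i` -/
theorem flip_sum {T : ℕ} (i : Fin T) (F : Bool → (Fin T → Bool) → ℝ)
    (hF : ∀ b c v, F b (Function.update c i v) = F b c) :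
    ∑ c : Fin T → Bool, F (c i) c =
      (1 / 2) * (∑ c : Fin T → Bool, F true c + ∑ c : Fin T → Bool, F false c) := by
  have hinv : Function.Involutive (fun c : Fin T → Bool => Function.update c i (!c i)) := by
    intro c
    funext j
    by_cases hj : j = i
    · subst hj; simp
    · simp [Function.update_of_ne hj]
  have h1 : ∑ c : Fin T → Bool, F (c i) c = ∑ c : Fin T → Bool, F (!c i) c := by
    rw [← Equiv.sum_comp hinv.toPerm (fun c : Fin T → Bool => F (c i) c)]
    apply Finset.sum_congr rfl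
    intro c _
    show F (Function.update c i (!c i) i) (Function.update c i (!c i)) = _
    rw [Function.update_self, hF]
  have h2 : ∑ c : Fin T → Bool, F (c i) c + ∑ c : Fin T → Bool, F (!c i) c =
      ∑ c : Fin T → Bool, F true c + ∑ c : Fin T → Bool, F false c := by
    rw [← Finset.sum_add_distrib, ← Finset.sum_add_distrib]
    apply Finset.sum_congr rfl
    intro c _
    cases c i
    · simp [add_comm]
    · simp
  linarith

/-- the backward walk from `t` started at height `y` stays positive for `j` steps -/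
def cnd (g : ℕ → Bool) (t j : ℕ) (y : ℤ) : Prop :=
  ∀ s : ℕ, t ≤ s + j → s ≤ t → 1 ≤ y + (2 * ct g s t - ((t : ℤ) - s))

theorem cnd_pos {g : ℕ → Bool} {t j : ℕ} {y : ℤ} (h : cnd g t j y) : 1 ≤ y := by
  have := h t (by omega) le_rfl
  rw [ct_self] at this
  linarith

theorem cnd_zero {g : ℕ → Bool} {t : ℕ} {y : ℤ} : cnd g t 0 y ↔ 1 ≤ y := by
  constructor
  · exact cnd_pos
  · intro h s h1 h2
    have : s = t := by omega
    subst this
    rw [ct_self]
    linarith

theorem cnd_succ {g : ℕ → Bool} {t j : ℕ} {y : ℤ} (hy : 1 ≤ y) :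
    cnd g (t + 1) (j + 1) y ↔ cnd g t j (y + (if g t then 1 else -1)) := by
  constructor
  · intro h s h1 h2
    have := h s (by omega) (by omega)
    rw [ct_succ g h2] at this
    push_cast at this
    split_ifs at this ⊢ <;> linarith
  · intro h s h1 h2
    rcases Nat.lt_or_ge t s with h3 | h3
    · have : s = t + 1 := by omega
      subst this
      rw [ct_self]
      linarith
    · have := h s (by omega) h3
      rw [ct_succ g h3]
      push_cast
      split_ifs at this ⊢ <;> linarith

theorem cnd_congr {g h : ℕ → Bool} {t j : ℕ} {y : ℤ} (hgh : ∀ n, n < t → g n = h n) :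
    cnd g t j y ↔ cnd h t j y := by
  unfold cnd
  constructor
  · intro H s h1 h2
    rw [← ct_congr (g := g) (h := h) (fun n _ hn => hgh n hn)]
    exact H s h1 h2
  · intro H s h1 h2
    rw [ct_congr (g := g) (h := h) (fun n _ hn => hgh n hn)]
    exact H s h1 h2

/-- sum over `j < m` of the number of coin sequences -/
noncomputable def UU (T t m : ℕ) (y : ℤ) : ℝ :=
  ∑ j ∈ range m, ∑ c : Fin T → Bool, (if cnd (ex c) t j y then (1 : ℝ) else 0)

theorem inner_le (T t j : ℕ) (y : ℤ) :
    ∑ c : Fin T → Bool, (if cnd (ex c) t j y then (1 : ℝ) else 0) ≤ 2 ^ T := by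
  calc ∑ c : Fin T → Bool, (if cnd (ex c) t j y then (1 : ℝ) else 0)
      ≤ ∑ _c : Fin T → Bool, (1 : ℝ) := by
        apply Finset.sum_le_sum
        intro c _
        split_ifs <;> norm_num
    _ = 2 ^ T := by
        simp

theorem UU_triv (T t m : ℕ) (y : ℤ) : UU T t m y ≤ 2 ^ T * m := by
  unfold UU
  calc ∑ j ∈ range m, ∑ c : Fin T → Bool, (if cnd (ex c) t j y then (1 : ℝ) else 0)
      ≤ ∑ _j ∈ range m, (2 : ℝ) ^ T := Finset.sum_le_sum (fun j _ => inner_le T t j y)
    _ = 2 ^ T * m := by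
        rw [Finset.sum_const, Finset.card_range, nsmul_eq_mul]; ring

theorem UU_zero_of (T t m : ℕ) {y : ℤ} (hy : y ≤ 0) : UU T t m y = 0 := by
  unfold UU
  apply Finset.sum_eq_zero
  intro j _
  apply Finset.sum_eq_zero
  intro c _
  rw [if_neg]
  intro h
  have := cnd_pos h
  omega

theorem UU_rec {T t m : ℕ} {y : ℤ} (hy : 1 ≤ y) (ht : t + 1 ≤ T) :
    UU T (t + 1) (m + 1) y = 2 ^ T + (1 / 2) * (UU T t m (y + 1) + UU T t m (y - 1)) := by
  unfold UU
  rw [Finset.sum_range_succ']
  have h0 : ∑ c : Fin T → Bool, (if cnd (ex c) (t + 1) 0 y then (1 : ℝ) else 0) = 2 ^ T := by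
    rw [Finset.sum_congr rfl (fun c _ => if_pos (cnd_zero.mpr hy))]
    simp
  rw [h0, ← Finset.sum_add_distrib, Finset.mul_sum, add_comm]
  congr 1
  apply Finset.sum_congr rfl
  intro j _
  have h1 := flip_sum (T := T) ⟨t, by omega⟩
    (fun b c => if cnd (ex c) t j (y + (if b then 1 else -1)) then (1 : ℝ) else 0) (by
      intro b c v
      have : cnd (ex (Function.update c ⟨t, by omega⟩ v)) t j (y + (if b then 1 else -1)) ↔
          cnd (ex c) t j (y + (if b then 1 else -1)) := by
        apply cnd_congr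
        intro n hn
        apply ex_update
        simp only
        omega
      simp only [this])
  simp only [if_true, Bool.false_eq_true, if_false] at h1
  rw [sub_eq_add_neg, ← h1]
  apply Finset.sum_congr rfl
  intro c _
  have h2 : ex c t = c ⟨t, by omega⟩ := by
    unfold ex
    rw [dif_pos (show t < T by omega)]
  have h3 := cnd_succ (g := ex c) (t := t) (j := j) hy
  rw [h2] at h3
  simp only [h3]

theorem UU_bound (T B : ℕ) (hB : 1 ≤ B) (m : ℕ) : ∀ (t : ℕ) (y : ℕ), m ≤ t + 1 → t ≤ T →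
    UU T t m (y : ℤ) ≤ 2 ^ T * ((y : ℝ) * max ((B : ℝ) - y) 0 + m * y / B) := by
  have hB0 : (0 : ℝ) < B := by exact_mod_cast hB
  induction m with
  | zero =>
    intro t y _ _
    have : UU T t 0 (y : ℤ) = 0 := by simp [UU]
    rw [this]
    positivity
  | succ m ih =>
    intro t y hm ht
    rcases Nat.eq_zero_or_pos y with hy | hy
    · subst hy
      rw [UU_zero_of T t (m + 1) (by simp)]
      simp
    rcases Nat.lt_or_ge y B with hyB | hyB
    · -- 1 ≤ y < B
      have hyB' : (y : ℝ) + 1 ≤ B := by exact_mod_cast hyB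
      have hy' : (1 : ℝ) ≤ y := by exact_mod_cast hy
      rw [max_eq_left (by linarith)]
      rcases Nat.eq_zero_or_pos t with ht0 | ht0
      · have hm0 : m = 0 := by omega
        subst hm0
        refine (UU_triv T t 1 (y : ℤ)).trans ?_
        apply mul_le_mul_of_nonneg_left _ (by positivity)
        have : 0 ≤ (((0 + 1 : ℕ) : ℝ)) * y / B := by positivity
        push_cast
        push_cast at this
        nlinarith
      · obtain ⟨t', rfl⟩ : ∃ t', t = t' + 1 := ⟨t - 1, by omega⟩
        rw [UU_rec (by exact_mod_cast hy) ht]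
        have i1 := ih t' (y + 1) (by omega) (by omega)
        have i2 := ih t' (y - 1) (by omega) (by omega)
        have e1 : (((y + 1 : ℕ)) : ℤ) = (y : ℤ) + 1 := by push_cast; ring
        have e2 : (((y - 1 : ℕ)) : ℤ) = (y : ℤ) - 1 := by push_cast [hy]; ring
        have e3 : (((y + 1 : ℕ)) : ℝ) = (y : ℝ) + 1 := by push_cast; ring
        have e4 : (((y - 1 : ℕ)) : ℝ) = (y : ℝ) - 1 := by push_cast [hy]; ring
        rw [e1, e3, max_eq_left (by linarith)] at i1
        rw [e2, e4, max_eq_left (by linarith)] at i2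
        have key : (2 : ℝ) ^ T + 1 / 2 * (2 ^ T * (((y : ℝ) + 1) * (B - (y + 1)) +
              m * (y + 1) / B) + 2 ^ T * (((y : ℝ) - 1) * (B - (y - 1)) + m * (y - 1) / B)) =
            2 ^ T * ((y : ℝ) * (B - y) + m * y / B) := by
          field_simp
          ring
        have h5 : (2 : ℝ) ^ T * ((y : ℝ) * (B - y) + m * y / B) ≤
            2 ^ T * ((y : ℝ) * (B - y) + ((m + 1 : ℕ) : ℝ) * y / B) := by
          apply mul_le_mul_of_nonneg_left _ (by positivity)
          have : (m : ℝ) * y / B ≤ ((m + 1 : ℕ) : ℝ) * y / B := by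
            apply div_le_div_of_nonneg_right _ hB0.le
            push_cast
            nlinarith
          linarith
        linarith
    · -- B ≤ y
      refine (UU_triv T t (m + 1) (y : ℤ)).trans ?_
      apply mul_le_mul_of_nonneg_left _ (by positivity)
      have hyB' : (B : ℝ) ≤ y := by exact_mod_cast hyB
      have h1 : (((m + 1 : ℕ)) : ℝ) ≤ (((m + 1 : ℕ)) : ℝ) * y / B := by
        rw [le_div_iff₀ hB0]
        apply mul_le_mul_of_nonneg_left hyB' (by positivity)
      have h2 : 0 ≤ (y : ℝ) * max ((B : ℝ) - y) 0 := by positivity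
      linarith

theorem bal_iff_cnd {g : ℕ → Bool} {τ t a j : ℕ} (hj : τ + j = t) :
    bal g τ t a ↔ cnd g t j ((a + 1 : ℕ) : ℤ) := by
  unfold bal cnd
  constructor
  · intro h s h1 h2
    have := h s (by omega) h2
    push_cast
    linarith
  · intro h s h1 h2
    have := h s (by omega) h2
    push_cast at this
    linarith

theorem card_filter_eq {T : ℕ} (P : (Fin T → Bool) → Prop) [DecidablePred P] :
    ((univ.filter P).card : ℝ) = ∑ c : Fin T → Bool, (if P c then (1 : ℝ) else 0) := by
  rw [Finset.card_filter]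
  push_cast
  rfl

/-- stopped walk -/
theorem sum_bal {T t N : ℕ} (ht : t ≤ T) (hN : N ≤ t) (a : ℕ) :
    (∑ τ ∈ Icc (t - N) t,
      ((univ.filter (fun c : Fin T → Bool => bal (ex c) τ t a)).card : ℝ)) ≤
      2 ^ T * (((a : ℝ) + 1) * (2 * Real.sqrt (N + 1) + 1)) := by
  have h1 : (∑ τ ∈ Icc (t - N) t,
      ((univ.filter (fun c : Fin T → Bool => bal (ex c) τ t a)).card : ℝ)) =
      UU T t (N + 1) ((a + 1 : ℕ) : ℤ) := by
    unfold UU
    apply Finset.sum_nbij' (fun τ => t - τ) (fun j => t - j)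
    · intro τ hτ
      simp only [Finset.mem_Icc, Finset.mem_range] at hτ ⊢
      omega
    · intro j hj
      simp only [Finset.mem_Icc, Finset.mem_range] at hj ⊢
      omega
    · intro τ hτ
      simp only [Finset.mem_Icc] at hτ
      omega
    · intro j hj
      simp only [Finset.mem_range] at hj
      omega
    · intro τ hτ
      simp only [Finset.mem_Icc] at hτ
      rw [card_filter_eq]
      apply Finset.sum_congr rfl
      intro c _
      have := bal_iff_cnd (g := ex c) (τ := τ) (t := t) (a := a) (j := t - τ) (by omega)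
      simp only [this]
  rw [h1]
  set s := Real.sqrt (N + 1) with hs
  have hs1 : 1 ≤ s := by
    rw [hs]
    apply Real.one_le_sqrt.mpr
    have : (0 : ℝ) ≤ N := by positivity
    linarith
  have hs2 : s * s = (N : ℝ) + 1 := Real.mul_self_sqrt (by positivity)
  have hBpos : 1 ≤ ⌈s⌉₊ := by
    rw [Nat.one_le_ceil_iff]; linarith
  have hb := UU_bound T ⌈s⌉₊ hBpos (N + 1) t (a + 1) (by omega) ht
  refine hb.trans ?_
  apply mul_le_mul_of_nonneg_left _ (by positivity)
  have hc1 : s ≤ ⌈s⌉₊ := Nat.le_ceil s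
  have hc2 : (⌈s⌉₊ : ℝ) < s + 1 := Nat.ceil_lt_add_one (by linarith)
  have hc0 : (0 : ℝ) < ⌈s⌉₊ := by linarith
  have ha : (0 : ℝ) ≤ a := by positivity
  have e1 : (((a + 1 : ℕ)) : ℝ) = (a : ℝ) + 1 := by push_cast; ring
  have e2 : (((N + 1 : ℕ)) : ℝ) = (N : ℝ) + 1 := by push_cast; ring
  rw [e1, e2]
  have t1 : ((a : ℝ) + 1) * max ((⌈s⌉₊ : ℝ) - (a + 1)) 0 ≤ ((a : ℝ) + 1) * s := by
    apply mul_le_mul_of_nonneg_left _ (by linarith)
    apply max_le
    · linarith
    · linarith
  have t2 : ((N : ℝ) + 1) * (a + 1) / ⌈s⌉₊ ≤ ((a : ℝ) + 1) * s := by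
    rw [div_le_iff₀ hc0, ← hs2]
    nlinarith [mul_nonneg (by linarith : (0:ℝ) ≤ (a:ℝ)+1) (by linarith : (0:ℝ) ≤ s)]
  nlinarith

theorem bal_mono {g : ℕ → Bool} {τ τ' t : ℕ} {a : ℤ} (h : bal g τ t a) (hτ : τ ≤ τ') :
    bal g τ' t a := fun s h1 h2 => h s (hτ.trans h1) h2

theorem single_bal {T t N : ℕ} (ht : t ≤ T) (hN : N ≤ t) (a : ℕ) :
    ((univ.filter (fun c : Fin T → Bool => bal (ex c) (t - N) t a)).card : ℝ) ≤
      2 ^ T * (((a : ℝ) + 1) * (2 * Real.sqrt (N + 1) + 1) / (N + 1)) := by
  have h1 := sum_bal ht hN a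
  have h2 : ∑ _τ ∈ Icc (t - N) t,
      ((univ.filter (fun c : Fin T → Bool => bal (ex c) (t - N) t a)).card : ℝ) ≤
      ∑ τ ∈ Icc (t - N) t,
      ((univ.filter (fun c : Fin T → Bool => bal (ex c) τ t a)).card : ℝ) := by
    apply Finset.sum_le_sum
    intro τ hτ
    rw [Finset.mem_Icc] at hτ
    have : (univ.filter (fun c : Fin T → Bool => bal (ex c) (t - N) t a)) ⊆
        (univ.filter (fun c : Fin T → Bool => bal (ex c) τ t a)) := by
      intro c hc
      simp only [Finset.mem_filter, Finset.mem_univ, true_and] at hc ⊢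
      exact bal_mono hc hτ.1
    exact_mod_cast Finset.card_le_card this
  rw [Finset.sum_const, Nat.card_Icc, nsmul_eq_mul] at h2
  have h3 : ((t + 1 - (t - N) : ℕ) : ℝ) = (N : ℝ) + 1 := by
    have : t + 1 - (t - N) = N + 1 := by omega
    rw [this]; push_cast; ring
  rw [h3] at h2
  have h4 : (0 : ℝ) < (N : ℝ) + 1 := by positivity
  rw [← mul_div_assoc, le_div_iff₀ h4]
  linarith

/-- flipping all coins -/
theorem card_flip {T : ℕ} (P Q : (Fin T → Bool) → Prop) [DecidablePred P] [DecidablePred Q]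
    (h : ∀ c, P c ↔ Q (fun i => !c i)) :
    (univ.filter P).card = (univ.filter Q).card := by
  apply Finset.card_nbij' (fun c i => !c i) (fun c i => !c i)
  · intro c hc
    simp only [Finset.coe_filter, Finset.mem_univ, true_and, Set.mem_setOf_eq] at hc ⊢
    exact (h c).mp hc
  · intro c hc
    simp only [Finset.coe_filter, Finset.mem_univ, true_and, Set.mem_setOf_eq] at hc ⊢
    rw [h]
    simpa using hc
  · intro c _
    funext i
    simp
  · intro c _
    funext i
    simp

theorem bal_nt_iff {T : ℕ} (c : Fin T → Bool) {τ t : ℕ} (ht : t ≤ T) (a : ℤ) :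
    bal (nt (ex c)) τ t a ↔ bal (ex (fun i => !c i)) τ t a := by
  have h1 : ∀ s, ct (nt (ex c)) s t = ct (ex (fun i => !c i)) s t := by
    intro s
    apply ct_congr
    intro n _ hn
    have : n < T := by omega
    simp [nt, ex, this]
  unfold bal
  simp only [h1]

theorem sum_bal_nt {T t N : ℕ} (ht : t ≤ T) (hN : N ≤ t) (a : ℕ) :
    (∑ τ ∈ Icc (t - N) t,
      ((univ.filter (fun c : Fin T → Bool => bal (nt (ex c)) τ t a)).card : ℝ)) ≤
      2 ^ T * (((a : ℝ) + 1) * (2 * Real.sqrt (N + 1) + 1)) := by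
  refine le_trans (le_of_eq ?_) (sum_bal ht hN a)
  apply Finset.sum_congr rfl
  intro τ _
  congr 1
  exact card_flip _ _ (fun c => bal_nt_iff c ht a)

theorem single_bal_nt {T t N : ℕ} (ht : t ≤ T) (hN : N ≤ t) (a : ℕ) :
    ((univ.filter (fun c : Fin T → Bool => bal (nt (ex c)) (t - N) t a)).card : ℝ) ≤
      2 ^ T * (((a : ℝ) + 1) * (2 * Real.sqrt (N + 1) + 1) / (N + 1)) := by
  refine le_trans (le_of_eq ?_) (single_bal ht hN a)
  congr 1
  exact card_flip _ _ (fun c => bal_nt_iff c ht a)

end MP34e
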