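import Pool.Agent.Work.MP_34e428_co.LCoin2

/-! Module C3: the coin walk leaves every window quickly. -/

set_option autoImplicit false

open Finset
open scoped Classical

namespace MP34e

/-- the forward walk from time `b` started at height `y` stays in `[-w, w]` for `j` steps -/
def cnf (w : ℕ) (g : ℕ → Bool) (b j : ℕ) (y : ℤ) : Prop :=
  ∀ s : ℕ, b ≤ s → s ≤ b + j → |y + (2 * ct g b s - ((s : ℤ) - b))| ≤ w

theorem ct_succ_left (g : ℕ → Bool) {b s : ℕ} (h : b + 1 ≤ s) :
    ct g b s = (if g b then 1 else 0) + ct g (b + 1) s := by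
  rw [← ct_add g (Nat.le_succ b) h, ct_succ g le_rfl, ct_self]
  simp

theorem cnf_self {w : ℕ} {g : ℕ → Bool} {b j : ℕ} {y : ℤ} (h : cnf w g b j y) : |y| ≤ w := by
  have := h b le_rfl (by omega)
  rw [ct_self] at this
  simpa using this

theorem cnf_zero {w : ℕ} {g : ℕ → Bool} {b : ℕ} {y : ℤ} : cnf w g b 0 y ↔ |y| ≤ w := by
  constructor
  · exact cnf_self
  · intro h s h1 h2
    have : s = b := by omega
    subst this
    rw [ct_self]
    simpa using h

theorem cnf_succ {w : ℕ} {g : ℕ → Bool} {b j : ℕ} {y : ℤ} (hy : |y| ≤ w) :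
    cnf w g b (j + 1) y ↔ cnf w g (b + 1) j (y + (if g b then 1 else -1)) := by
  have key : ∀ s : ℕ, b + 1 ≤ s → y + (2 * ct g b s - ((s : ℤ) - b)) =
      y + (if g b then 1 else -1) + (2 * ct g (b + 1) s - ((s : ℤ) - (b + 1 : ℕ))) := by
    intro s hs
    rw [ct_succ_left g hs]
    push_cast
    split_ifs <;> ring
  constructor
  · intro h s h1 h2
    rw [← key s h1]
    exact h s (by omega) (by omega)
  · intro h s h1 h2
    rcases Nat.lt_or_ge b s with h3 | h3
    · rw [key s h3]
      exact h s h3 (by omega)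
    · have : s = b := by omega
      subst this
      rw [ct_self]
      simpa using hy

theorem cnf_congr {w : ℕ} {g h : ℕ → Bool} {b j : ℕ} {y : ℤ}
    (hgh : ∀ n, b ≤ n → n < b + j → g n = h n) : cnf w g b j y ↔ cnf w h b j y := by
  unfold cnf
  constructor
  · intro H s h1 h2
    rw [← ct_congr (g := g) (h := h) (fun n hn1 hn => hgh n hn1 (by omega))]
    exact H s h1 h2
  · intro H s h1 h2
    rw [ct_congr (g := g) (h := h) (fun n hn1 hn => hgh n hn1 (by omega))]
    exact H s h1 h2

theorem cnf_mono {w : ℕ} {g : ℕ → Bool} {b j j' : ℕ} {y : ℤ} (h : cnf w g b j' y) (hj : j ≤ j') :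
    cnf w g b j y := fun s h1 h2 => h s h1 (by omega)

/-- `F` does not depend on the coordinates `≥ b` -/
def past {T : ℕ} (b : ℕ) (F : (Fin T → Bool) → ℝ) : Prop :=
  ∀ (c : Fin T → Bool) (i : Fin T) (v : Bool), b ≤ (i : ℕ) → F (Function.update c i v) = F c

theorem past_mono {T b b' : ℕ} {F : (Fin T → Bool) → ℝ} (h : past b F) (hb : b ≤ b') :
    past b' F := fun c i v hi => h c i v (hb.trans hi)

noncomputable def VV (T w : ℕ) (F : (Fin T → Bool) → ℝ) (b m : ℕ) (y : ℤ) : ℝ :=
  ∑ j ∈ range m, ∑ c : Fin T → Bool, F c * (if cnf w (ex c) b j y then (1 : ℝ) else 0)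

theorem VV_zero_of {T w : ℕ} {F : (Fin T → Bool) → ℝ} {b m : ℕ} {y : ℤ} (hy : ¬ |y| ≤ w) :
    VV T w F b m y = 0 := by
  unfold VV
  apply Finset.sum_eq_zero
  intro j _
  apply Finset.sum_eq_zero
  intro c _
  rw [if_neg, mul_zero]
  intro h
  exact hy (cnf_self h)

theorem VV_one {T w : ℕ} {F : (Fin T → Bool) → ℝ} {b : ℕ} {y : ℤ} (hy : |y| ≤ w) :
    VV T w F b 1 y = ∑ c, F c := by
  unfold VV
  rw [Finset.sum_range_one]
  apply Finset.sum_congr rfl
  intro c _
  rw [if_pos (cnf_zero.mpr hy), mul_one]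

theorem VV_rec {T w : ℕ} {F : (Fin T → Bool) → ℝ} {b m : ℕ} {y : ℤ} (hy : |y| ≤ w)
    (hF : past b F) (hb : b + 1 ≤ T) :
    VV T w F b (m + 1) y = ∑ c, F c +
      (1 / 2) * (VV T w F (b + 1) m (y + 1) + VV T w F (b + 1) m (y - 1)) := by
  unfold VV
  rw [Finset.sum_range_succ']
  have h0 : ∑ c : Fin T → Bool, F c * (if cnf w (ex c) b 0 y then (1 : ℝ) else 0) = ∑ c, F c := by
    apply Finset.sum_congr rfl
    intro c _
    rw [if_pos (cnf_zero.mpr hy), mul_one]
  rw [h0, ← Finset.sum_add_distrib, Finset.mul_sum, add_comm]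
  congr 1
  apply Finset.sum_congr rfl
  intro j _
  have h1 := flip_sum (T := T) ⟨b, by omega⟩
    (fun b' c => F c * (if cnf w (ex c) (b + 1) j (y + (if b' then 1 else -1)) then (1 : ℝ) else 0))
    (by
      intro b' c v
      have : cnf w (ex (Function.update c ⟨b, by omega⟩ v)) (b + 1) j
            (y + (if b' then 1 else -1)) ↔
          cnf w (ex c) (b + 1) j (y + (if b' then 1 else -1)) := by
        apply cnf_congr
        intro n hn _
        apply ex_update
        simp only
        omega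
      simp only [this, hF c ⟨b, by omega⟩ v le_rfl])
  simp only [if_true, Bool.false_eq_true, if_false] at h1
  rw [sub_eq_add_neg, ← h1]
  apply Finset.sum_congr rfl
  intro c _
  have h2 : ex c b = c ⟨b, by omega⟩ := by
    unfold ex
    rw [dif_pos (show b < T by omega)]
  have h3 := cnf_succ (g := ex c) (b := b) (j := j) hy
  rw [h2] at h3
  simp only [h3]

theorem VV_bound (T w : ℕ) (F : (Fin T → Bool) → ℝ) (hF0 : ∀ c, 0 ≤ F c) (m : ℕ) :
    ∀ (b : ℕ) (y : ℤ), past b F → b + m ≤ T + 1 → |y| ≤ w + 1 →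
    VV T w F b m y ≤ (((w : ℝ) + 1) ^ 2 - (y : ℝ) ^ 2) * ∑ c, F c := by
  have hS : 0 ≤ ∑ c, F c := Finset.sum_nonneg (fun c _ => hF0 c)
  have hpos : ∀ y : ℤ, |y| ≤ w + 1 → (0 : ℝ) ≤ ((w : ℝ) + 1) ^ 2 - (y : ℝ) ^ 2 := by
    intro y hy
    have : |(y : ℝ)| ≤ (w : ℝ) + 1 := by exact_mod_cast hy
    have := sq_le_sq' (by linarith [(abs_le.mp this).1]) (abs_le.mp this).2
    linarith
  induction m with
  | zero =>
    intro b y _ _ hy
    have : VV T w F b 0 y = 0 := by simp [VV]
    rw [this]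
    exact mul_nonneg (hpos y hy) hS
  | succ m ih =>
    intro b y hF hb hy
    by_cases hyw : |y| ≤ w
    · rcases Nat.eq_zero_or_pos m with hm | hm
      · subst hm
        rw [VV_one hyw]
        have hy2 : |(y : ℝ)| ≤ (w : ℝ) := by exact_mod_cast hyw
        have h3 := sq_le_sq' (by linarith [(abs_le.mp hy2).1]) (abs_le.mp hy2).2
        have h4 : (1 : ℝ) ≤ ((w : ℝ) + 1) ^ 2 - (y : ℝ) ^ 2 := by
          have : (0 : ℝ) ≤ w := by positivity
          nlinarith
        nlinarith
      · rw [VV_rec hyw hF (by omega)]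
        have hy2 := abs_le.mp hyw
        have i1 := ih (b + 1) (y + 1) (past_mono hF (by omega)) (by omega)
          (by rw [abs_le]; constructor <;> omega)
        have i2 := ih (b + 1) (y - 1) (past_mono hF (by omega)) (by omega)
          (by rw [abs_le]; constructor <;> omega)
        push_cast at i1 i2
        have : ∑ c, F c + 1 / 2 * ((((w : ℝ) + 1) ^ 2 - ((y : ℝ) + 1) ^ 2) * ∑ c, F c +
            (((w : ℝ) + 1) ^ 2 - ((y : ℝ) - 1) ^ 2) * ∑ c, F c) =
            (((w : ℝ) + 1) ^ 2 - (y : ℝ) ^ 2) * ∑ c, F c := by ring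
        linarith
    · rw [VV_zero_of hyw]
      exact mul_nonneg (hpos y hy) hS

theorem block_le (T w : ℕ) (F : (Fin T → Bool) → ℝ) (hF0 : ∀ c, 0 ≤ F c) (b m : ℕ)
    (hm : m = 2 * (w + 2) ^ 2) (hF : past b F) (hb : b + m ≤ T) :
    ∑ c : Fin T → Bool, F c * (if cnf w (ex c) b m 0 then (1 : ℝ) else 0) ≤
      (1 / 2) * ∑ c, F c := by
  have hS : 0 ≤ ∑ c, F c := Finset.sum_nonneg (fun c _ => hF0 c)
  have h1 := VV_bound T w F hF0 m b 0 hF (by omega) (by simp; omega)
  have h2 : (m : ℝ) * ∑ c : Fin T → Bool, F c * (if cnf w (ex c) b m 0 then (1 : ℝ) else 0) ≤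
      VV T w F b m 0 := by
    unfold VV
    calc (m : ℝ) * ∑ c : Fin T → Bool, F c * (if cnf w (ex c) b m 0 then (1 : ℝ) else 0)
        = ∑ _j ∈ range m, ∑ c : Fin T → Bool,
            F c * (if cnf w (ex c) b m 0 then (1 : ℝ) else 0) := by
          rw [Finset.sum_const, Finset.card_range, nsmul_eq_mul]
      _ ≤ _ := by
          apply Finset.sum_le_sum
          intro j hj
          apply Finset.sum_le_sum
          intro c _
          apply mul_le_mul_of_nonneg_left _ (hF0 c)
          by_cases h : cnf w (ex c) b m 0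
          · rw [if_pos h, if_pos (cnf_mono h (Finset.mem_range.mp hj).le)]
          · rw [if_neg h]
            split_ifs <;> norm_num
  have hm' : (m : ℝ) = 2 * ((w : ℝ) + 2) ^ 2 := by rw [hm]; push_cast; ring
  rw [hm'] at h2
  push_cast at h1
  have h3 : (0 : ℝ) < 2 * ((w : ℝ) + 2) ^ 2 := by positivity
  have hw : (0 : ℝ) ≤ w := by positivity
  have h4 : 2 * ((w : ℝ) + 2) ^ 2 * ∑ c : Fin T → Bool, F c * (if cnf w (ex c) b m 0 then (1 : ℝ) else 0)
      ≤ 2 * ((w : ℝ) + 2) ^ 2 * ((1 / 2) * ∑ c, F c) := by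
    refine h2.trans (h1.trans ?_)
    have : (((w : ℝ) + 1) ^ 2 - 0 ^ 2) ≤ ((w : ℝ) + 2) ^ 2 := by nlinarith
    calc (((w : ℝ) + 1) ^ 2 - 0 ^ 2) * ∑ c, F c ≤ ((w : ℝ) + 2) ^ 2 * ∑ c, F c :=
          mul_le_mul_of_nonneg_right this hS
      _ = _ := by ring
  exact le_of_mul_le_mul_left h4 h3

theorem blocks_le (T w a m : ℕ) (hm : m = 2 * (w + 2) ^ 2) (q : ℕ) (hq : a + q * m ≤ T) :
    ∑ c : Fin T → Bool, (∏ i ∈ range q, (if cnf w (ex c) (a + i * m) m 0 then (1 : ℝ) else 0)) ≤
      2 ^ T * (1 / 2) ^ q := by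
  induction q with
  | zero => simp
  | succ q ih =>
    have e : a + (q + 1) * m = a + q * m + m := by ring
    have ih' := ih (by omega)
    have h1 := block_le T w
      (fun c => ∏ i ∈ range q, (if cnf w (ex c) (a + i * m) m 0 then (1 : ℝ) else 0))
      (fun c => Finset.prod_nonneg (fun i _ => by split_ifs <;> norm_num)) (a + q * m) m hm
      (by
        intro c i v hi
        apply Finset.prod_congr rfl
        intro j hj
        have hj' := Finset.mem_range.mp hj
        have : cnf w (ex (Function.update c i v)) (a + j * m) m 0 ↔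
            cnf w (ex c) (a + j * m) m 0 := by
          apply cnf_congr
          intro n _ hn
          apply ex_update
          have : (j + 1) * m ≤ q * m := Nat.mul_le_mul_right m hj'
          have e2 : (j + 1) * m = j * m + m := by ring
          omega
        simp only [this])
      (by omega)
    simp only [Finset.prod_range_succ]
    refine h1.trans ?_
    rw [pow_succ]
    linarith

theorem count_ESC (T w S : ℕ) :
    ((univ.filter (fun c : Fin T → Bool => ¬ ESC w S (ex c) T)).card : ℝ) ≤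
      2 ^ T * (((T : ℝ) + 1) * (1 / 2) ^ (S / (2 * (w + 2) ^ 2))) := by
  set m := 2 * (w + 2) ^ 2 with hm
  set q := S / m with hq
  have hmpos : 0 < m := by positivity
  have hqS : q * m ≤ S := Nat.div_mul_le_self S m
  set Conf : ℕ → (Fin T → Bool) → Prop := fun a c => ∀ i ∈ range q, cnf w (ex c) (a + i * m) m 0
    with hConf
  have hsub : univ.filter (fun c : Fin T → Bool => ¬ ESC w S (ex c) T) ⊆
      ((range (T + 1)).filter (fun a => a + S ≤ T)).biUnion (fun a => univ.filter (Conf a)) := by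
    intro c hc
    have h := (Finset.mem_filter.mp hc).2
    unfold ESC at h
    push Not at h
    obtain ⟨a, ha, h⟩ := h
    rw [Finset.mem_biUnion]
    refine ⟨a, ?_, ?_⟩
    · simp only [Finset.mem_filter, Finset.mem_range]
      omega
    · simp only [Finset.mem_filter, Finset.mem_univ, true_and, hConf]
      intro i hi s h1 h2
      have hi' := Finset.mem_range.mp hi
      have h3 : (i + 1) * m ≤ q * m := Nat.mul_le_mul_right m hi'
      have e : (i + 1) * m = i * m + m := by ring
      have := h (a + i * m) s (by omega) h1 (by omega)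
      rw [zero_add]
      exact this
  have h1 : ((univ.filter (fun c : Fin T → Bool => ¬ ESC w S (ex c) T)).card : ℝ) ≤
      ∑ a ∈ (range (T + 1)).filter (fun a => a + S ≤ T), ((univ.filter (Conf a)).card : ℝ) := by
    have := (Finset.card_le_card hsub).trans Finset.card_biUnion_le
    exact_mod_cast this
  have h2 : ∀ a ∈ (range (T + 1)).filter (fun a => a + S ≤ T),
      ((univ.filter (Conf a)).card : ℝ) ≤ 2 ^ T * (1 / 2) ^ q := by
    intro a ha
    simp only [Finset.mem_filter, Finset.mem_range] at ha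
    refine le_trans (le_of_eq ?_) (blocks_le T w a m hm q (by omega))
    rw [card_filter_eq]
    apply Finset.sum_congr rfl
    intro c _
    by_cases hc : Conf a c
    · rw [if_pos hc, Finset.prod_eq_one]
      intro i hi
      rw [if_pos (hc i hi)]
    · rw [if_neg hc]
      simp only [hConf] at hc
      push Not at hc
      obtain ⟨i, hi, hc⟩ := hc
      symm
      exact Finset.prod_eq_zero hi (if_neg hc)
  have h3 : (((range (T + 1)).filter (fun a => a + S ≤ T)).card : ℝ) ≤ (T : ℝ) + 1 := by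
    have : ((range (T + 1)).filter (fun a => a + S ≤ T)).card ≤ T + 1 := by
      refine (Finset.card_filter_le _ _).trans ?_
      rw [Finset.card_range]
    exact_mod_cast this
  calc ((univ.filter (fun c : Fin T → Bool => ¬ ESC w S (ex c) T)).card : ℝ) ≤ _ := h1
    _ ≤ ∑ _a ∈ (range (T + 1)).filter (fun a => a + S ≤ T), 2 ^ T * (1 / 2 : ℝ) ^ q :=
        Finset.sum_le_sum h2
    _ = (((range (T + 1)).filter (fun a => a + S ≤ T)).card : ℝ) * (2 ^ T * (1 / 2 : ℝ) ^ q) := by
        rw [Finset.sum_const, nsmul_eq_mul]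
    _ ≤ ((T : ℝ) + 1) * (2 ^ T * (1 / 2 : ℝ) ^ q) := by
        apply mul_le_mul_of_nonneg_right h3 (by positivity)
    _ = _ := by ring

end MP34e
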