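import Pool.Agent.Work.MP_34e428_co.LPre
import Pool.Agent.Work.MP_34e428_co.LCoin2

/-! Module P2 of the lower bound: counting the pairs (initial displacement, coins). -/

set_option autoImplicit false

open Finset
open scoped Classical

namespace MP34e

/-- number of elements of `X` with property `P` -/
noncomputable def cf {α : Type*} (X : Finset α) (P : α → Prop) : ℕ := (X.filter P).card

theorem cf_eq {α : Type*} (X : Finset α) (P : α → Prop) {inst : DecidablePred P} :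
    (@Finset.filter α P inst X).card = cf X P := by
  unfold cf
  congr

theorem cf_le_card {α : Type*} (X : Finset α) (P : α → Prop) : cf X P ≤ X.card :=
  Finset.card_filter_le _ _

theorem cf_or {α : Type*} (X : Finset α) (P A B : α → Prop) (hP : ∀ x ∈ X, P x → A x ∨ B x) :
    cf X P ≤ cf X A + cf X B := by
  unfold cf
  refine (Finset.card_le_card ?_).trans (Finset.card_union_le _ _)
  intro x hx
  rw [Finset.mem_filter] at hx
  rw [Finset.mem_union, Finset.mem_filter, Finset.mem_filter]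
  rcases hP x hx.1 hx.2 with h | h
  · exact Or.inl ⟨hx.1, h⟩
  · exact Or.inr ⟨hx.1, h⟩

theorem cf_sum {α ι : Type*} (X : Finset α) (J : Finset ι) (Q : ι → α → Prop)
    (f : ι → ℝ) (h : ∀ j ∈ J, (cf X (Q j) : ℝ) ≤ f j)
    (P : α → Prop) (hP : ∀ x ∈ X, P x → ∃ j ∈ J, Q j x) :
    (cf X P : ℝ) ≤ ∑ j ∈ J, f j := by
  have hsub : X.filter P ⊆ J.biUnion (fun j => X.filter (Q j)) := by
    intro x hx
    rw [Finset.mem_filter] at hx
    obtain ⟨h1, h0⟩ := hx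
    obtain ⟨j, hj, h2⟩ := hP x h1 h0
    rw [Finset.mem_biUnion]
    exact ⟨j, hj, by rw [Finset.mem_filter]; exact ⟨h1, h2⟩⟩
  have h1 : (X.filter P).card ≤ ∑ j ∈ J, (X.filter (Q j)).card :=
    (Finset.card_le_card hsub).trans Finset.card_biUnion_le
  calc (cf X P : ℝ)
      ≤ ((∑ j ∈ J, (X.filter (Q j)).card : ℕ) : ℝ) := by exact_mod_cast h1
    _ = ∑ j ∈ J, (cf X (Q j) : ℝ) := by push_cast; rfl
    _ ≤ ∑ j ∈ J, f j := Finset.sum_le_sum h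

theorem prod_count {T : ℕ} (K m : ℕ) (P : (Fin T → Bool) → ℤ × ℤ → Prop)
    (Q : (Fin T → Bool) → Prop) (h : ∀ c, cf (box K) (P c) ≤ m)
    (P' : (ℤ × ℤ) × (Fin T → Bool) → Prop) (hP : ∀ x, P' x → P x.2 x.1 ∧ Q x.2) :
    cf (box K ×ˢ (univ : Finset (Fin T → Bool))) P' ≤ m * cf univ Q := by
  have hsub : (box K ×ˢ (univ : Finset (Fin T → Bool))).filter P' ⊆
      (univ.filter Q).biUnion (fun c => ((box K).filter (P c)).image (fun p => (p, c))) := by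
    intro x hx
    rw [Finset.mem_filter, Finset.mem_product] at hx
    obtain ⟨⟨h1, h2⟩, h3⟩ := hx
    obtain ⟨h4, h5⟩ := hP x h3
    rw [Finset.mem_biUnion]
    refine ⟨x.2, by rw [Finset.mem_filter]; exact ⟨Finset.mem_univ _, h5⟩, ?_⟩
    rw [Finset.mem_image]
    exact ⟨x.1, by rw [Finset.mem_filter]; exact ⟨h1, h4⟩, rfl⟩
  refine (Finset.card_le_card hsub).trans (Finset.card_biUnion_le.trans ?_)
  calc ∑ c ∈ univ.filter Q, (((box K).filter (P c)).image (fun p => (p, c))).card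
      ≤ ∑ c ∈ univ.filter Q, m :=
        Finset.sum_le_sum (fun c _ => Finset.card_image_le.trans (h c))
    _ = m * cf univ Q := by rw [Finset.sum_const, smul_eq_mul, mul_comm]; rfl

theorem count_two (K R : ℕ) (g g' : ℕ → Bool) (t t' : ℕ) (v v' : ℤ) (w w' : ℕ) :
    cf (box K) (fun p => Pre K R g t v w p.1 ∧ Pre K R g' t' v' w' p.2) ≤
      (6 * w + 10 * R + 3) * (6 * w' + 10 * R + 3) := by
  have hsub : (box K).filter (fun p => Pre K R g t v w p.1 ∧ Pre K R g' t' v' w' p.2) ⊆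
      ((Icc (-(K : ℤ)) K).filter (fun x => Pre K R g t v w x)) ×ˢ
      ((Icc (-(K : ℤ)) K).filter (fun x => Pre K R g' t' v' w' x)) := by
    intro p hp
    unfold box at hp
    rw [Finset.mem_filter, Finset.mem_product] at hp
    rw [Finset.mem_product, Finset.mem_filter, Finset.mem_filter]
    exact ⟨⟨hp.1.1, hp.2.1⟩, ⟨hp.1.2, hp.2.2⟩⟩
  rw [← cf_eq]
  refine (Finset.card_le_card hsub).trans ?_
  rw [Finset.card_product]
  exact Nat.mul_le_mul (card_Pre K R g t v w) (card_Pre K R g' t' v' w')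

theorem cf_AF {T : ℕ} (K R ρ t : ℕ) (hR : 1 ≤ R) (hρ : ρ ≤ 30 * R) :
    (cf (box K ×ˢ (univ : Finset (Fin T → Bool))) (fun x => AFront K R ρ (ex x.2) t x.1) : ℝ) ≤
      (193 * (R : ℝ)) ^ 2 * 2 ^ T := by
  have h1 := prod_count (T := T) K ((193 * R) * (193 * R))
    (fun c p => Pre K R (ex c) t 0 ρ p.1 ∧ Pre K R (nt (ex c)) t 0 ρ p.2) (fun _ => True) (by
      intro c
      refine (count_two K R (ex c) (nt (ex c)) t t 0 0 ρ ρ).trans ?_
      exact Nat.mul_le_mul (by omega) (by omega)) (fun x => AFront K R ρ (ex x.2) t x.1) (by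
      intro x hx
      exact ⟨hx, trivial⟩)
  have h2 : cf (univ : Finset (Fin T → Bool)) (fun _ => True) ≤ 2 ^ T := by
    refine (cf_le_card _ _).trans (le_of_eq ?_)
    rw [Finset.card_univ, Fintype.card_fun, Fintype.card_bool, Fintype.card_fin]
  replace h1 := h1.trans (Nat.mul_le_mul_left _ h2)
  have h3 := (Nat.cast_le (α := ℝ)).mpr h1
  refine h3.trans (le_of_eq ?_)
  push_cast
  ring

theorem count_AFront (K R ρ : ℕ) {T t : ℕ} (_ht : t ≤ T) (hR : 1 ≤ R) (hρ : ρ ≤ 30 * R) :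
    (((box K ×ˢ (univ : Finset (Fin T → Bool))).filter
      (fun x => AFront K R ρ (ex x.2) t x.1)).card : ℝ) ≤ (200 * (R : ℝ)) ^ 2 * 2 ^ T := by
  rw [cf_eq]
  refine (cf_AF K R ρ t hR hρ).trans ?_
  have : (0 : ℝ) ≤ R := by positivity
  gcongr
  norm_num

/-- clause 2 -/
def Cl2 (K R ρ : ℕ) (h : ℕ → Bool) (t τ : ℕ) (p : ℤ × ℤ) : Prop :=
  Pre K R (nt h) τ 0 1 p.2 ∧
    Pre K R h τ (-((t : ℤ) - τ)) (ρ + 4 * R + 1) p.1 ∧ bal (nt h) τ t (4 * R + 2 * ρ)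

/-- clause 3 -/
def Cl3 (K R ρ : ℕ) (h : ℕ → Bool) (t τ : ℕ) (p : ℤ × ℤ) : Prop :=
  Pre K R h τ 0 1 p.1 ∧
    Pre K R (nt h) τ (-((t : ℤ) - τ)) (ρ + 4 * R + 1) p.2 ∧ bal h τ t (4 * R + 2 * ρ)

/-- clause 4 -/
def Cl4 (K R ρ : ℕ) (h : ℕ → Bool) (t τ : ℕ) (p : ℤ × ℤ) : Prop :=
  ((Pre K R h τ 0 1 p.1 ∧ Pre K R (nt h) τ K 1 p.2) ∨
      (Pre K R (nt h) τ 0 1 p.2 ∧ Pre K R h τ K 1 p.1)) ∧
    (bal h (t - K / 4) t (4 * R + 2 * ρ) ∨ bal (nt h) (t - K / 4) t (4 * R + 2 * ρ))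

theorem sum_const_bound (K R ρ N : ℕ) (hR : 1 ≤ R) (hρ : ρ ≤ 30 * R) (hK : 4 ≤ K)
    (hN : N ≤ 4 * K) :
    ((((4 * R + 2 * ρ : ℕ) : ℝ)) + 1) * (2 * Real.sqrt (N + 1) + 1) ≤
      455 * R * Real.sqrt K := by
  have hR' : (1 : ℝ) ≤ R := by exact_mod_cast hR
  have hρ' : (ρ : ℝ) ≤ 30 * R := by exact_mod_cast hρ
  have hK' : (4 : ℝ) ≤ K := by exact_mod_cast hK
  have hN' : (N : ℝ) ≤ 4 * K := by exact_mod_cast hN
  have hs : (2 : ℝ) ≤ Real.sqrt K := by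
    rw [show (2 : ℝ) = Real.sqrt 4 by
      rw [show (4 : ℝ) = 2 ^ 2 by norm_num, Real.sqrt_sq (by norm_num)]]
    exact Real.sqrt_le_sqrt hK'
  have h1 : Real.sqrt (N + 1) ≤ 3 * Real.sqrt K := by
    rw [show 3 * Real.sqrt K = Real.sqrt (9 * K) by
      rw [Real.sqrt_mul (by norm_num), show (9 : ℝ) = 3 ^ 2 by norm_num,
        Real.sqrt_sq (by norm_num)]]
    apply Real.sqrt_le_sqrt
    linarith
  have h2 : 2 * Real.sqrt (N + 1) + 1 ≤ 7 * Real.sqrt K := by linarith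
  have h3 : (((4 * R + 2 * ρ : ℕ) : ℝ)) + 1 ≤ 65 * R := by push_cast; linarith
  calc ((((4 * R + 2 * ρ : ℕ) : ℝ)) + 1) * (2 * Real.sqrt (N + 1) + 1)
      ≤ (65 * R) * (7 * Real.sqrt K) := by
        apply mul_le_mul h3 h2 (by positivity) (by positivity)
    _ = 455 * R * Real.sqrt K := by ring

theorem single_const_bound (K R ρ : ℕ) (hR : 1 ≤ R) (hρ : ρ ≤ 30 * R) (hK : 4 ≤ K) :
    ((((4 * R + 2 * ρ : ℕ) : ℝ)) + 1) * (2 * Real.sqrt (((K / 4 : ℕ) : ℝ) + 1) + 1) /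
      (((K / 4 : ℕ) : ℝ) + 1) ≤ 390 * R / Real.sqrt K := by
  have hR' : (1 : ℝ) ≤ R := by exact_mod_cast hR
  have hρ' : (ρ : ℝ) ≤ 30 * R := by exact_mod_cast hρ
  have hK' : (4 : ℝ) ≤ K := by exact_mod_cast hK
  have h0 : (K : ℝ) / 4 ≤ ((K / 4 : ℕ) : ℝ) + 1 := by
    have : K ≤ 4 * (K / 4 + 1) := by omega
    have : (K : ℝ) ≤ 4 * (((K / 4 : ℕ) : ℝ) + 1) := by exact_mod_cast this
    linarith
  have h3 : (((4 * R + 2 * ρ : ℕ) : ℝ)) + 1 ≤ 65 * R := by push_cast; linarith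
  set u := Real.sqrt (((K / 4 : ℕ) : ℝ) + 1) with hu
  have hu2 : ((K / 4 : ℕ) : ℝ) + 1 = u ^ 2 := by
    rw [hu, Real.sq_sqrt (by positivity)]
  have hu1 : 1 ≤ u := by
    rw [hu, Real.one_le_sqrt]
    have : (0 : ℝ) ≤ ((K / 4 : ℕ) : ℝ) := by positivity
    linarith
  have hsu : Real.sqrt K ≤ 2 * u := by
    rw [Real.sqrt_le_left (by linarith)]
    nlinarith
  have hs0 : 0 < Real.sqrt K := Real.sqrt_pos.mpr (by linarith)
  rw [hu2, div_le_div_iff₀ (by positivity) hs0]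
  calc ((((4 * R + 2 * ρ : ℕ) : ℝ)) + 1) * (2 * u + 1) * Real.sqrt K
      ≤ (65 * R) * (3 * u) * (2 * u) := by
        apply mul_le_mul _ hsu hs0.le (by positivity)
        apply mul_le_mul h3 (by linarith) (by positivity) (by positivity)
    _ = 390 * R * u ^ 2 := by ring

theorem count_Cl2 (K R ρ : ℕ) {T t : ℕ} (ht : t ≤ T) (hR : 1 ≤ R) (hρ : ρ ≤ 30 * R)
    (hK : 4 ≤ K) :
    (cf (box K ×ˢ (univ : Finset (Fin T → Bool))) (fun x => ∃ τ ≤ t, t ≤ τ + 4 * K ∧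
      Cl2 K R ρ (ex x.2) t τ x.1) : ℝ) ≤
      2000000 * (R : ℝ) ^ 3 * Real.sqrt K * 2 ^ T := by
  set N := min (4 * K) t with hN
  have h1 := cf_sum (box K ×ˢ (univ : Finset (Fin T → Bool))) (Icc (t - N) t)
    (fun τ x => Cl2 K R ρ (ex x.2) t τ x.1)
    (fun τ => ((19 * R) * (223 * R) : ℝ) * ((univ.filter (fun c : Fin T → Bool =>
      bal (nt (ex c)) τ t ((4 * R + 2 * ρ : ℕ) : ℤ))).card : ℝ)) (by
      intro τ _
      have h2 := prod_count (T := T) K ((19 * R) * (223 * R))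
        (fun c p => Pre K R (ex c) τ (-((t : ℤ) - τ)) ((ρ + 4 * R + 1 : ℕ) : ℤ) p.1 ∧
          Pre K R (nt (ex c)) τ 0 ((1 : ℕ) : ℤ) p.2)
        (fun c => bal (nt (ex c)) τ t ((4 * R + 2 * ρ : ℕ) : ℤ)) (by
          intro c
          refine (count_two K R (ex c) (nt (ex c)) τ τ (-((t : ℤ) - τ)) 0 (ρ + 4 * R + 1)
            1).trans ?_
          rw [mul_comm]
          exact Nat.mul_le_mul (by omega) (by omega))
        (fun x => Cl2 K R ρ (ex x.2) t τ x.1) (by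
          rintro x ⟨h3, h4, h5⟩
          refine ⟨⟨?_, ?_⟩, ?_⟩
          · push_cast; exact h4
          · push_cast; exact h3
          · push_cast; exact h5)
      have h3 := (Nat.cast_le (α := ℝ)).mpr h2
      rw [cf_eq]
      rw [Nat.cast_mul] at h3
      have e : (((19 * R) * (223 * R) : ℕ) : ℝ) = ((19 * R) * (223 * R) : ℝ) := by
        push_cast; ring
      rw [e] at h3
      exact h3) (fun x => ∃ τ ≤ t, t ≤ τ + 4 * K ∧ Cl2 K R ρ (ex x.2) t τ x.1) (by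
      rintro x _ ⟨τ, h2, h3, h4⟩
      exact ⟨τ, by rw [Finset.mem_Icc]; omega, h4⟩)
  rw [← Finset.mul_sum] at h1
  have h2 := sum_bal_nt ht (show N ≤ t from min_le_right _ _) (4 * R + 2 * ρ)
  have h3 := sum_const_bound K R ρ N hR hρ hK (min_le_left _ _)
  have hR' : (1 : ℝ) ≤ R := by exact_mod_cast hR
  calc _ ≤ ((19 * R) * (223 * R) : ℝ) * (2 ^ T * (455 * R * Real.sqrt K)) := by
        refine h1.trans ?_
        apply mul_le_mul_of_nonneg_left _ (by positivity)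
        exact h2.trans (mul_le_mul_of_nonneg_left h3 (by positivity))
    _ = 1927835 * ((R : ℝ) ^ 3 * Real.sqrt K * 2 ^ T) := by ring
    _ ≤ 2000000 * ((R : ℝ) ^ 3 * Real.sqrt K * 2 ^ T) := by
        apply mul_le_mul_of_nonneg_right (by norm_num) (by positivity)
    _ = 2000000 * (R : ℝ) ^ 3 * Real.sqrt K * 2 ^ T := by ring

theorem count_Cl3 (K R ρ : ℕ) {T t : ℕ} (ht : t ≤ T) (hR : 1 ≤ R) (hρ : ρ ≤ 30 * R)
    (hK : 4 ≤ K) :
    (cf (box K ×ˢ (univ : Finset (Fin T → Bool))) (fun x => ∃ τ ≤ t, t ≤ τ + 4 * K ∧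
      Cl3 K R ρ (ex x.2) t τ x.1) : ℝ) ≤
      2000000 * (R : ℝ) ^ 3 * Real.sqrt K * 2 ^ T := by
  set N := min (4 * K) t with hN
  have h1 := cf_sum (box K ×ˢ (univ : Finset (Fin T → Bool))) (Icc (t - N) t)
    (fun τ x => Cl3 K R ρ (ex x.2) t τ x.1)
    (fun τ => ((19 * R) * (223 * R) : ℝ) * ((univ.filter (fun c : Fin T → Bool =>
      bal (ex c) τ t ((4 * R + 2 * ρ : ℕ) : ℤ))).card : ℝ)) (by
      intro τ _
      have h2 := prod_count (T := T) K ((19 * R) * (223 * R))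
        (fun c p => Pre K R (ex c) τ 0 ((1 : ℕ) : ℤ) p.1 ∧
          Pre K R (nt (ex c)) τ (-((t : ℤ) - τ)) ((ρ + 4 * R + 1 : ℕ) : ℤ) p.2)
        (fun c => bal (ex c) τ t ((4 * R + 2 * ρ : ℕ) : ℤ)) (by
          intro c
          refine (count_two K R (ex c) (nt (ex c)) τ τ 0 (-((t : ℤ) - τ)) 1
            (ρ + 4 * R + 1)).trans ?_
          exact Nat.mul_le_mul (by omega) (by omega))
        (fun x => Cl3 K R ρ (ex x.2) t τ x.1) (by
          rintro x ⟨h3, h4, h5⟩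
          refine ⟨⟨?_, ?_⟩, ?_⟩
          · push_cast; exact h3
          · push_cast; exact h4
          · push_cast; exact h5)
      have h3 := (Nat.cast_le (α := ℝ)).mpr h2
      rw [cf_eq]
      rw [Nat.cast_mul] at h3
      have e : (((19 * R) * (223 * R) : ℕ) : ℝ) = ((19 * R) * (223 * R) : ℝ) := by
        push_cast; ring
      rw [e] at h3
      exact h3) (fun x => ∃ τ ≤ t, t ≤ τ + 4 * K ∧ Cl3 K R ρ (ex x.2) t τ x.1) (by
      rintro x _ ⟨τ, h2, h3, h4⟩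
      exact ⟨τ, by rw [Finset.mem_Icc]; omega, h4⟩)
  rw [← Finset.mul_sum] at h1
  have h2 := sum_bal ht (show N ≤ t from min_le_right _ _) (4 * R + 2 * ρ)
  have h3 := sum_const_bound K R ρ N hR hρ hK (min_le_left _ _)
  have hR' : (1 : ℝ) ≤ R := by exact_mod_cast hR
  calc _ ≤ ((19 * R) * (223 * R) : ℝ) * (2 ^ T * (455 * R * Real.sqrt K)) := by
        refine h1.trans ?_
        apply mul_le_mul_of_nonneg_left _ (by positivity)
        exact h2.trans (mul_le_mul_of_nonneg_left h3 (by positivity))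
    _ = 1927835 * ((R : ℝ) ^ 3 * Real.sqrt K * 2 ^ T) := by ring
    _ ≤ 2000000 * ((R : ℝ) ^ 3 * Real.sqrt K * 2 ^ T) := by
        apply mul_le_mul_of_nonneg_right (by norm_num) (by positivity)
    _ = 2000000 * (R : ℝ) ^ 3 * Real.sqrt K * 2 ^ T := by ring

theorem count_Cl4 (K R ρ TN : ℕ) {T t : ℕ} (ht : t ≤ T) (hR : 1 ≤ R) (hρ : ρ ≤ 30 * R)
    (hK : 4 ≤ K) :
    (cf (box K ×ˢ (univ : Finset (Fin T → Bool))) (fun x => ∃ τ ≤ TN, K ≤ 4 * t ∧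
      Cl4 K R ρ (ex x.2) t τ x.1) : ℝ) ≤
      1000000 * (R : ℝ) ^ 3 * (((TN : ℝ) + 1) / Real.sqrt K) * 2 ^ T := by
  have hR' : (1 : ℝ) ≤ R := by exact_mod_cast hR
  by_cases hKt : K ≤ 4 * t
  swap
  · have : cf (box K ×ˢ (univ : Finset (Fin T → Bool))) (fun x => ∃ τ ≤ TN, K ≤ 4 * t ∧
      Cl4 K R ρ (ex x.2) t τ x.1) = 0 := by
      have h0 := cf_sum (box K ×ˢ (univ : Finset (Fin T → Bool))) (∅ : Finset ℕ)
        (fun _ _ => False) (fun _ => 0) (by simp)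
        (fun x => ∃ τ ≤ TN, K ≤ 4 * t ∧ Cl4 K R ρ (ex x.2) t τ x.1) (by
          rintro x _ ⟨τ, _, h3, _⟩
          exact absurd h3 hKt)
      rw [Finset.sum_empty] at h0
      exact_mod_cast le_antisymm h0 (by positivity)
    rw [this, Nat.cast_zero]
    positivity
  have hNt : K / 4 ≤ t := by omega
  have b1 := single_bal ht hNt (4 * R + 2 * ρ)
  have b2 := single_bal_nt ht hNt (4 * R + 2 * ρ)
  rw [cf_eq] at b1 b2
  have h3 := single_const_bound K R ρ hR hρ hK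
  have b1' := b1.trans (mul_le_mul_of_nonneg_left h3 (by positivity))
  have b2' := b2.trans (mul_le_mul_of_nonneg_left h3 (by positivity))
  have hQ : (cf univ (fun c : Fin T → Bool =>
      bal (ex c) (t - K / 4) t ((4 * R + 2 * ρ : ℕ) : ℤ) ∨
      bal (nt (ex c)) (t - K / 4) t ((4 * R + 2 * ρ : ℕ) : ℤ)) : ℝ) ≤
      2 ^ T * (390 * R / Real.sqrt K) + 2 ^ T * (390 * R / Real.sqrt K) := by
    have := (Nat.cast_le (α := ℝ)).mpr (cf_or (univ : Finset (Fin T → Bool))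
      (fun c => bal (ex c) (t - K / 4) t ((4 * R + 2 * ρ : ℕ) : ℤ) ∨
        bal (nt (ex c)) (t - K / 4) t ((4 * R + 2 * ρ : ℕ) : ℤ))
      (fun c => bal (ex c) (t - K / 4) t ((4 * R + 2 * ρ : ℕ) : ℤ))
      (fun c => bal (nt (ex c)) (t - K / 4) t ((4 * R + 2 * ρ : ℕ) : ℤ)) (fun c _ hc => hc))
    refine this.trans (le_trans (le_of_eq ?_) (add_le_add b1' b2'))
    exact Nat.cast_add _ _
  have h1 := cf_sum (box K ×ˢ (univ : Finset (Fin T → Bool))) (range (TN + 1))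
    (fun τ x => Cl4 K R ρ (ex x.2) t τ x.1)
    (fun _ => (2 * (19 * R) * (19 * R) : ℝ) *
      (2 ^ T * (390 * R / Real.sqrt K) + 2 ^ T * (390 * R / Real.sqrt K))) (by
      intro τ _
      have h2 := prod_count (T := T) K (2 * (19 * R) * (19 * R))
        (fun c p => (Pre K R (ex c) τ 0 ((1 : ℕ) : ℤ) p.1 ∧
          Pre K R (nt (ex c)) τ K ((1 : ℕ) : ℤ) p.2) ∨
          (Pre K R (ex c) τ K ((1 : ℕ) : ℤ) p.1 ∧ Pre K R (nt (ex c)) τ 0 ((1 : ℕ) : ℤ) p.2))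
        (fun c => bal (ex c) (t - K / 4) t ((4 * R + 2 * ρ : ℕ) : ℤ) ∨
          bal (nt (ex c)) (t - K / 4) t ((4 * R + 2 * ρ : ℕ) : ℤ)) (by
          intro c
          refine (cf_or (box K) _ (fun p => Pre K R (ex c) τ 0 ((1 : ℕ) : ℤ) p.1 ∧
            Pre K R (nt (ex c)) τ K ((1 : ℕ) : ℤ) p.2) (fun p =>
            Pre K R (ex c) τ K ((1 : ℕ) : ℤ) p.1 ∧ Pre K R (nt (ex c)) τ 0 ((1 : ℕ) : ℤ) p.2)
            (fun p _ hp => hp)).trans ?_
          have e1 := count_two K R (ex c) (nt (ex c)) τ τ 0 K 1 1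
          have e2 := count_two K R (ex c) (nt (ex c)) τ τ K 0 1 1
          have e3 : (6 * 1 + 10 * R + 3) * (6 * 1 + 10 * R + 3) ≤ (19 * R) * (19 * R) :=
            Nat.mul_le_mul (by omega) (by omega)
          calc _ ≤ (19 * R) * (19 * R) + (19 * R) * (19 * R) :=
                Nat.add_le_add (e1.trans e3) (e2.trans e3)
            _ = 2 * (19 * R) * (19 * R) := by ring)
        (fun x => Cl4 K R ρ (ex x.2) t τ x.1) (by
          rintro x ⟨h3, h5⟩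
          refine ⟨?_, ?_⟩
          · push_cast
            rcases h3 with h3 | h3
            · exact Or.inl h3
            · exact Or.inr ⟨h3.2, h3.1⟩
          · push_cast; exact h5)
      have h3 := (Nat.cast_le (α := ℝ)).mpr h2
      refine h3.trans ?_
      rw [Nat.cast_mul]
      have e : ((2 * (19 * R) * (19 * R) : ℕ) : ℝ) = (2 * (19 * R) * (19 * R) : ℝ) := by
        push_cast; ring
      rw [e]
      exact mul_le_mul_of_nonneg_left hQ (by positivity))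
    (fun x => ∃ τ ≤ TN, K ≤ 4 * t ∧ Cl4 K R ρ (ex x.2) t τ x.1) (by
      rintro x _ ⟨τ, h2, h3, h4⟩
      exact ⟨τ, by rw [Finset.mem_range]; omega, h4⟩)
  rw [Finset.sum_const, Finset.card_range, nsmul_eq_mul, Nat.cast_add, Nat.cast_one] at h1
  refine h1.trans ?_
  have e : ((TN : ℝ) + 1) * ((2 * (19 * R) * (19 * R) : ℝ) *
      (2 ^ T * (390 * R / Real.sqrt K) + 2 ^ T * (390 * R / Real.sqrt K))) =
      563160 * ((R : ℝ) ^ 3 * (((TN : ℝ) + 1) / Real.sqrt K) * 2 ^ T) := by ring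
  rw [e]
  have e2 : 1000000 * (R : ℝ) ^ 3 * (((TN : ℝ) + 1) / Real.sqrt K) * 2 ^ T =
      1000000 * ((R : ℝ) ^ 3 * (((TN : ℝ) + 1) / Real.sqrt K) * 2 ^ T) := by ring
  rw [e2]
  apply mul_le_mul_of_nonneg_right (by norm_num) (by positivity)

theorem count_ANear (K R ρ TN : ℕ) {T t : ℕ} (ht : t ≤ T) (hR : 1 ≤ R) (hρ : ρ ≤ 30 * R)
    (hK : 4 ≤ K) :
    (((box K ×ˢ (univ : Finset (Fin T → Bool))).filter
      (fun x => ANear K R ρ TN (ex x.2) t x.1)).card : ℝ) ≤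
      10 ^ 7 * (R : ℝ) ^ 3 * (Real.sqrt K + ((TN : ℝ) + 1) / Real.sqrt K) * 2 ^ T := by
  have hR' : (1 : ℝ) ≤ R := by exact_mod_cast hR
  have b1 := cf_AF (T := T) K R ρ t hR hρ
  have b2 := count_Cl2 K R ρ ht hR hρ hK
  have b3 := count_Cl3 K R ρ ht hR hρ hK
  have b4 := count_Cl4 K R ρ TN ht hR hρ hK
  rw [cf_eq]
  set X := box K ×ˢ (univ : Finset (Fin T → Bool)) with hX
  have c1 := cf_or X (fun x => ANear K R ρ TN (ex x.2) t x.1)
    (fun x => AFront K R ρ (ex x.2) t x.1)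
    (fun x => (∃ τ ≤ t, t ≤ τ + 4 * K ∧ Cl2 K R ρ (ex x.2) t τ x.1) ∨
      ((∃ τ ≤ t, t ≤ τ + 4 * K ∧ Cl3 K R ρ (ex x.2) t τ x.1) ∨
      (∃ τ ≤ TN, K ≤ 4 * t ∧ Cl4 K R ρ (ex x.2) t τ x.1))) (by
      intro x _ h
      rcases h with h | h | h | ⟨⟨τ, h1, h2⟩, h3, h4⟩
      · exact Or.inl h
      · exact Or.inr (Or.inl h)
      · exact Or.inr (Or.inr (Or.inl h))
      · exact Or.inr (Or.inr (Or.inr ⟨τ, h1, h3, h2, h4⟩)))
  have c2 := cf_or X (fun x => (∃ τ ≤ t, t ≤ τ + 4 * K ∧ Cl2 K R ρ (ex x.2) t τ x.1) ∨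
      ((∃ τ ≤ t, t ≤ τ + 4 * K ∧ Cl3 K R ρ (ex x.2) t τ x.1) ∨
      (∃ τ ≤ TN, K ≤ 4 * t ∧ Cl4 K R ρ (ex x.2) t τ x.1)))
      (fun x => ∃ τ ≤ t, t ≤ τ + 4 * K ∧ Cl2 K R ρ (ex x.2) t τ x.1)
      (fun x => (∃ τ ≤ t, t ≤ τ + 4 * K ∧ Cl3 K R ρ (ex x.2) t τ x.1) ∨
      (∃ τ ≤ TN, K ≤ 4 * t ∧ Cl4 K R ρ (ex x.2) t τ x.1)) (fun x _ h => h)
  have c3 := cf_or X (fun x => (∃ τ ≤ t, t ≤ τ + 4 * K ∧ Cl3 K R ρ (ex x.2) t τ x.1) ∨
      (∃ τ ≤ TN, K ≤ 4 * t ∧ Cl4 K R ρ (ex x.2) t τ x.1))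
      (fun x => ∃ τ ≤ t, t ≤ τ + 4 * K ∧ Cl3 K R ρ (ex x.2) t τ x.1)
      (fun x => ∃ τ ≤ TN, K ≤ 4 * t ∧ Cl4 K R ρ (ex x.2) t τ x.1) (fun x _ h => h)
  have h1 := c1.trans (Nat.add_le_add_left (c2.trans (Nat.add_le_add_left c3 _)) _)
  have h2 := (Nat.cast_le (α := ℝ)).mpr h1
  simp only [Nat.cast_add] at h2
  refine h2.trans ?_
  have hs : (1 : ℝ) ≤ Real.sqrt K := by
    rw [Real.one_le_sqrt]
    have : (4 : ℝ) ≤ K := by exact_mod_cast hK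
    linarith
  have e1 : (193 * (R : ℝ)) ^ 2 * 2 ^ T ≤ 37249 * (R : ℝ) ^ 3 * Real.sqrt K * 2 ^ T := by
    have : (R : ℝ) ^ 2 ≤ (R : ℝ) ^ 3 * Real.sqrt K := by
      calc (R : ℝ) ^ 2 = (R : ℝ) ^ 2 * 1 * 1 := by ring
        _ ≤ (R : ℝ) ^ 2 * R * Real.sqrt K := by gcongr
        _ = (R : ℝ) ^ 3 * Real.sqrt K := by ring
    calc (193 * (R : ℝ)) ^ 2 * 2 ^ T = 37249 * ((R : ℝ) ^ 2) * 2 ^ T := by ring
      _ ≤ 37249 * ((R : ℝ) ^ 3 * Real.sqrt K) * 2 ^ T := by gcongr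
      _ = 37249 * (R : ℝ) ^ 3 * Real.sqrt K * 2 ^ T := by ring
  have hA : 0 ≤ (R : ℝ) ^ 3 * Real.sqrt K * 2 ^ T := by positivity
  have hB : 0 ≤ (R : ℝ) ^ 3 * (((TN : ℝ) + 1) / Real.sqrt K) * 2 ^ T := by positivity
  have e3 : 10 ^ 7 * (R : ℝ) ^ 3 * (Real.sqrt K + ((TN : ℝ) + 1) / Real.sqrt K) * 2 ^ T =
      10 ^ 7 * ((R : ℝ) ^ 3 * Real.sqrt K * 2 ^ T) +
      10 ^ 7 * ((R : ℝ) ^ 3 * (((TN : ℝ) + 1) / Real.sqrt K) * 2 ^ T) := by ring
  rw [e3]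
  linarith

end MP34e
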