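import Pool.Agent.Work.MP_34e428_co.LDefs

/-! Lower bound for the zombie number of the toroidal grid: definitions for both parities.

`n = 2 K + 1 - o` with `o ∈ {0, 1}`. Displacements (survivor minus zombie) live in
`[-K + o, K]²`. For `o = 1` the value `K` of a coordinate is a tie (`K = -K` modulo `n`): the
zombie may step to `K - 1` or to `-K + 1` (a jump). The decisions to jump are given by an
arbitrary function `J`. -/

set_option autoImplicit false

open Finset

namespace MP34e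

/-- representative in `[-K + o, K]` of `x ∈ [-K + o, K + 1]` modulo `2 K + 1 - o` -/
def wrJ (K o : ℕ) (x : ℤ) : ℤ := if (K : ℤ) < x then x - (2 * K + 1 - o) else x

/-- effect of the move of the survivor (`true` = east, `false` = north) on a displacement -/
def smJ (K o : ℕ) (e : Bool) (p : ℤ × ℤ) : ℤ × ℤ :=
  if e then (wrJ K o (p.1 + 1), p.2) else (p.1, wrJ K o (p.2 + 1))

/-- move of a zombie with displacement `p`; coin `h`, jump decision `b` -/
def zj (K o : ℕ) (h b : Bool) (p : ℤ × ℤ) : ℤ × ℤ :=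
  if o = 1 ∧ b = true ∧ p.1 = K ∧ (p.2 ≠ K ∨ h = true) then (-(K : ℤ) + 1, p.2)
  else if o = 1 ∧ b = true ∧ p.2 = K ∧ (p.1 ≠ K ∨ h = false) then (p.1, -(K : ℤ) + 1)
  else zm h p

/-- displacement of a zombie after `t` rounds: coins `h`, jump decisions `J`, survivor moves `e`,
initial displacement `p` -/
def trJ (K o : ℕ) (h : ℕ → Bool) (J : ℕ → ℤ × ℤ → Bool) (e : ℕ → Bool) (p : ℤ × ℤ) : ℕ → ℤ × ℤ
  | 0 => p
  | t + 1 => smJ K o (e t) (zj K o (h t) (J t (trJ K o h J e p t)) (trJ K o h J e p t))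

/-- all displacements -/
noncomputable def boxJ (K o : ℕ) : Finset (ℤ × ℤ) := Icc (-(K : ℤ) + o) K ×ˢ Icc (-(K : ℤ) + o) K

/-- a zombie which stays behind the survivor for ever -/
def SafeJ (K o : ℕ) (p : ℤ × ℤ) : Prop := 0 ≤ p.1 ∧ 0 ≤ p.2 ∧ 2 ≤ p.1 + p.2 ∧ p.1 + p.2 + o ≤ K

/-- pure event containing: the zombie is not behind the survivor and within distance `ρ` at
time `t`. The closed formulas are only exact up to a few jumps: `R` is replaced by `R + 4`. For
even `n` a zombie may start on the line `x + y = K` and leave it at any time. -/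
def ANearJ (K R ρ TN : ℕ) (h : ℕ → Bool) (t : ℕ) (p : ℤ × ℤ) : Prop :=
  ANear K (R + 4) ρ TN h t p ∨
  (p.1 + p.2 = K ∧ K ≤ 4 * t ∧ (bal h (t - K / 4) t (4 * (R + 4) + 2 * ρ) ∨
    bal (nt h) (t - K / 4) t (4 * (R + 4) + 2 * ρ)))

/-- the two ends of the line `x + y = K` -/
def Vis (K : ℕ) (p : ℤ × ℤ) : Prop := p = ((K : ℤ), 0) ∨ p = (0, (K : ℤ))

open scoped Classical in
/-- the zombie visits the ends of the line `x + y = K` at least `l` times before `T` and never
jumps there -/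
def NoJump (K o : ℕ) (h : ℕ → Bool) (J : ℕ → ℤ × ℤ → Bool) (e : ℕ → Bool) (p : ℤ × ℤ)
    (l T : ℕ) : Prop :=
  l ≤ ((range T).filter (fun t => Vis K (trJ K o h J e p t))).card ∧
    ∀ t < T, Vis K (trJ K o h J e p t) → J t (trJ K o h J e p t) = false

/-- the game: displacements and memory after `t` rounds; coins `c i t`, jump decisions `J i t`,
initial displacements `p i` -/
noncomputable def runJ (K o R L₁ : ℕ) {k : ℕ} (c : Fin k → ℕ → Bool)
    (J : Fin k → ℕ → ℤ × ℤ → Bool) (p : Fin k → ℤ × ℤ) : ℕ → (Fin k → ℤ × ℤ) × Mem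
  | 0 => (p, ⟨0, true, 0, true⟩)
  | t + 1 =>
    let s := runJ K o R L₁ c J p t
    let q : Fin k → ℤ × ℤ := fun i => zj K o (c i t) (J i t (s.1 i)) (s.1 i)
    (fun i => smJ K o (dirn R L₁ s.2 q) (q i), nmem R L₁ s.2 q)

/-- displacements after the moves of the zombies in round `t + 1` -/
noncomputable def midJ (K o R L₁ : ℕ) {k : ℕ} (c : Fin k → ℕ → Bool)
    (J : Fin k → ℕ → ℤ × ℤ → Bool) (p : Fin k → ℤ × ℤ) (t : ℕ) : Fin k → ℤ × ℤ :=
  fun i => zj K o (c i t) (J i t ((runJ K o R L₁ c J p t).1 i)) ((runJ K o R L₁ c J p t).1 i)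

/-- the sequence of moves of the survivor -/
noncomputable def pthJ (K o R L₁ : ℕ) {k : ℕ} (c : Fin k → ℕ → Bool)
    (J : Fin k → ℕ → ℤ × ℤ → Bool) (p : Fin k → ℤ × ℤ) : ℕ → Bool :=
  fun t => dirn R L₁ (runJ K o R L₁ c J p t).2 (midJ K o R L₁ c J p t)

/-- the jump decision made with the help of a number `u` uniform in `{0, …, 5}`: probability
`1/2` at a double tie or on an axis, `1/3` otherwise -/
def jc (K : ℕ) (u : ℕ) (p : ℤ × ℤ) : Bool :=
  if (p.1 = K ∧ p.2 = K) ∨ p.1 = 0 ∨ p.2 = 0 then decide (3 ≤ u) else decide (4 ≤ u)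

/-! ### Basic lemmas -/

theorem runJ_fst (K o R L₁ : ℕ) {k : ℕ} (c : Fin k → ℕ → Bool) (J : Fin k → ℕ → ℤ × ℤ → Bool)
    (p : Fin k → ℤ × ℤ) (t : ℕ) (i : Fin k) :
    (runJ K o R L₁ c J p t).1 i = trJ K o (c i) (J i) (pthJ K o R L₁ c J p) (p i) t := by
  induction t with
  | zero => rfl
  | succ t ih =>
    rw [trJ, ← ih]
    rfl

theorem runJ_D (K o R L₁ : ℕ) {k : ℕ} (c : Fin k → ℕ → Bool) (J : Fin k → ℕ → ℤ × ℤ → Bool)
    (p : Fin k → ℤ × ℤ) (t : ℕ) :
    (runJ K o R L₁ c J p t).2.D = 2 * ct (pthJ K o R L₁ c J p) 0 t - t := by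
  induction t with
  | zero => simp [runJ, ct_self]
  | succ t ih =>
    have h1 : (runJ K o R L₁ c J p (t + 1)).2.D =
        (runJ K o R L₁ c J p t).2.D + (if pthJ K o R L₁ c J p t then 1 else -1) := rfl
    rw [h1, ih, ct_succ _ (Nat.zero_le t)]
    push_cast
    split_ifs <;> ring

theorem runJ_D_abs (K o : ℕ) {R : ℕ} (hR : 1 ≤ R) (L₁ : ℕ) {k : ℕ} (c : Fin k → ℕ → Bool)
    (J : Fin k → ℕ → ℤ × ℤ → Bool) (p : Fin k → ℤ × ℤ) (t : ℕ) :
    |(runJ K o R L₁ c J p t).2.D| ≤ 2 * R := by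
  induction t with
  | zero => simp [runJ]
  | succ t ih =>
    have h1 : (runJ K o R L₁ c J p (t + 1)).2.D =
        (runJ K o R L₁ c J p t).2.D + (if pthJ K o R L₁ c J p t then 1 else -1) := rfl
    have h2 : 2 * (R : ℤ) ≤ (runJ K o R L₁ c J p t).2.D → pthJ K o R L₁ c J p t = false := by
      intro h
      have : pthJ K o R L₁ c J p t =
        dirn R L₁ (runJ K o R L₁ c J p t).2 (midJ K o R L₁ c J p t) := rfl
      rw [this]
      unfold dirn
      rw [if_pos h]
    have h3 : ¬ 2 * (R : ℤ) ≤ (runJ K o R L₁ c J p t).2.D →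
        (runJ K o R L₁ c J p t).2.D ≤ -(2 * (R : ℤ)) → pthJ K o R L₁ c J p t = true := by
      intro h h'
      have : pthJ K o R L₁ c J p t =
        dirn R L₁ (runJ K o R L₁ c J p t).2 (midJ K o R L₁ c J p t) := rfl
      rw [this]
      unfold dirn
      rw [if_neg h, if_pos h']
    rw [h1]
    rw [abs_le] at ih ⊢
    rcases hb : pthJ K o R L₁ c J p t with _ | _
    · have : ¬ ((runJ K o R L₁ c J p t).2.D ≤ -(2 * (R : ℤ))) := by
        intro hc
        have := h3 (by omega) hc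
        rw [hb] at this
        exact absurd this (by simp)
      simp only [Bool.false_eq_true, if_false]
      omega
    · have : ¬ (2 * (R : ℤ) ≤ (runJ K o R L₁ c J p t).2.D) := by
        intro hc
        have := h2 hc
        rw [hb] at this
        exact absurd this (by simp)
      simp only [if_true]
      omega

theorem runJ_bal (K o : ℕ) {R : ℕ} (hR : 1 ≤ R) (L₁ : ℕ) {k : ℕ} (c : Fin k → ℕ → Bool)
    (J : Fin k → ℕ → ℤ × ℤ → Bool) (p : Fin k → ℤ × ℤ) (T : ℕ) :
    BalP R (pthJ K o R L₁ c J p) T := by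
  intro t _
  rw [← runJ_D]
  exact runJ_D_abs K o hR L₁ c J p t

/-- for odd `n` nothing changes -/
theorem zj_zero (K : ℕ) (h b : Bool) (p : ℤ × ℤ) : zj K 0 h b p = zm h p := by
  unfold zj; simp

theorem wrJ_zero (K : ℕ) (x : ℤ) : wrJ K 0 x = wr K x := by
  unfold wrJ wr; simp

theorem smJ_zero (K : ℕ) (e : Bool) (p : ℤ × ℤ) : smJ K 0 e p = sm K e p := by
  unfold smJ sm; simp only [wrJ_zero]

/-- away from the ties nothing changes -/
theorem zj_of_lt (K o : ℕ) (h b : Bool) (p : ℤ × ℤ) (h1 : p.1 < K) (h2 : p.2 < K) :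
    zj K o h b p = zm h p := by
  unfold zj
  rw [if_neg (by rintro ⟨_, _, h3, _⟩; omega), if_neg (by rintro ⟨_, _, h3, _⟩; omega)]

end MP34e
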