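import Pool.Agent.Work.MP_34e428_co.LCount
import Pool.Agent.Work.MP_34e428_co.LDefsJ

/-! Module P2J of the lower bound: counting for both parities. -/

set_option autoImplicit false

open Finset
open scoped Classical

namespace MP34e

theorem count_line (K : ℕ) : cf (box K) (fun p : ℤ × ℤ => p.1 + p.2 = K) ≤ K + 1 := by
  have hsub : (box K).filter (fun p : ℤ × ℤ => p.1 + p.2 = K) ⊆
      (Icc (0 : ℤ) K).image (fun x => (x, (K : ℤ) - x)) := by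
    intro p hp
    unfold box at hp
    rw [Finset.mem_filter, Finset.mem_product, Finset.mem_Icc, Finset.mem_Icc] at hp
    rw [Finset.mem_image]
    refine ⟨p.1, by rw [Finset.mem_Icc]; omega, ?_⟩
    ext
    · rfl
    · simp only; omega
  rw [← cf_eq]
  refine (Finset.card_le_card hsub).trans (Finset.card_image_le.trans ?_)
  rw [Int.card_Icc]
  omega

theorem count_lineJ (K R ρ : ℕ) {T t : ℕ} (ht : t ≤ T) (hR : 1 ≤ R) (hρ : ρ ≤ 30 * R)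
    (hK : 4 ≤ K) :
    (cf (box K ×ˢ (univ : Finset (Fin T → Bool))) (fun x =>
      (x.1.1 + x.1.2 = K ∧ K ≤ 4 * t ∧ (bal (ex x.2) (t - K / 4) t (4 * R + 2 * ρ) ∨
        bal (nt (ex x.2)) (t - K / 4) t (4 * R + 2 * ρ)))) : ℝ) ≤
      1560 * R * Real.sqrt K * 2 ^ T := by
  have hR' : (1 : ℝ) ≤ R := by exact_mod_cast hR
  have hK' : (4 : ℝ) ≤ K := by exact_mod_cast hK
  by_cases hKt : K ≤ 4 * t
  swap
  · have h0 := cf_sum (box K ×ˢ (univ : Finset (Fin T → Bool))) (∅ : Finset ℕ)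
        (fun _ _ => False) (fun _ => 0) (by simp)
        (fun x =>
      (x.1.1 + x.1.2 = K ∧ K ≤ 4 * t ∧ (bal (ex x.2) (t - K / 4) t (4 * R + 2 * ρ) ∨
        bal (nt (ex x.2)) (t - K / 4) t (4 * R + 2 * ρ)))) (by
          rintro x _ ⟨_, h3, _⟩
          exact absurd h3 hKt)
    rw [Finset.sum_empty] at h0
    refine h0.trans (by positivity)
  have hNt : K / 4 ≤ t := by omega
  have b1 := single_bal ht hNt (4 * R + 2 * ρ)
  have b2 := single_bal_nt ht hNt (4 * R + 2 * ρ)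
  rw [cf_eq] at b1 b2
  have h3 := single_const_bound K R ρ hR hρ hK
  have b1' := b1.trans (mul_le_mul_of_nonneg_left h3 (by positivity))
  have b2' := b2.trans (mul_le_mul_of_nonneg_left h3 (by positivity))
  have hQ : (cf univ (fun c : Fin T → Bool =>
      bal (ex c) (t - K / 4) t ((4 * R + 2 * ρ : ℕ) : ℤ) ∨
      bal (nt (ex c)) (t - K / 4) t ((4 * R + 2 * ρ : ℕ) : ℤ)) : ℝ) ≤
      2 ^ T * (390 * R / Real.sqrt K) + 2 ^ T * (390 * R / Real.sqrt K) := by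
    have := (Nat.cast_le (α := ℝ)).mpr (cf_or (univ : Finset (Fin T → Bool))
      (fun c => bal (ex c) (t - K / 4) t ((4 * R + 2 * ρ : ℕ) : ℤ) ∨
        bal (nt (ex c)) (t - K / 4) t ((4 * R + 2 * ρ : ℕ) : ℤ))
      (fun c => bal (ex c) (t - K / 4) t ((4 * R + 2 * ρ : ℕ) : ℤ))
      (fun c => bal (nt (ex c)) (t - K / 4) t ((4 * R + 2 * ρ : ℕ) : ℤ)) (fun c _ hc => hc))
    refine this.trans (le_trans (le_of_eq ?_) (add_le_add b1' b2'))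
    exact Nat.cast_add _ _
  have h2 := prod_count (T := T) K (K + 1) (fun _ (p : ℤ × ℤ) => p.1 + p.2 = K)
    (fun c => bal (ex c) (t - K / 4) t ((4 * R + 2 * ρ : ℕ) : ℤ) ∨
          bal (nt (ex c)) (t - K / 4) t ((4 * R + 2 * ρ : ℕ) : ℤ))
    (fun _ => count_line K)
    (fun x =>
      (x.1.1 + x.1.2 = K ∧ K ≤ 4 * t ∧ (bal (ex x.2) (t - K / 4) t (4 * R + 2 * ρ) ∨
        bal (nt (ex x.2)) (t - K / 4) t (4 * R + 2 * ρ)))) (by
      rintro x ⟨h3, _, h5⟩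
      exact ⟨h3, by push_cast; exact h5⟩)
  have h4 := (Nat.cast_le (α := ℝ)).mpr h2
  rw [Nat.cast_mul] at h4
  refine h4.trans ((mul_le_mul_of_nonneg_left hQ (by positivity)).trans ?_)
  have hs : Real.sqrt K * Real.sqrt K = K := Real.mul_self_sqrt (by positivity)
  have hs0 : 0 < Real.sqrt K := Real.sqrt_pos.mpr (by linarith)
  have e : ((K + 1 : ℕ) : ℝ) * (2 ^ T * (390 * R / Real.sqrt K) +
      2 ^ T * (390 * R / Real.sqrt K)) = 780 * R * (((K : ℝ) + 1) / Real.sqrt K) * 2 ^ T := by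
    push_cast; ring
  rw [e]
  have h5 : ((K : ℝ) + 1) / Real.sqrt K ≤ 2 * Real.sqrt K := by
    rw [div_le_iff₀ hs0, mul_assoc, hs]
    linarith
  calc 780 * R * (((K : ℝ) + 1) / Real.sqrt K) * 2 ^ T
      ≤ 780 * R * (2 * Real.sqrt K) * 2 ^ T := by gcongr
    _ = 1560 * R * Real.sqrt K * 2 ^ T := by ring

theorem count_ANearJ (K R ρ TN : ℕ) {T t : ℕ} (ht : t ≤ T) (hR : 4 ≤ R) (hρ : ρ ≤ 30 * R)
    (hK : 4 ≤ K) :
    (((box K ×ˢ (univ : Finset (Fin T → Bool))).filter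
      (fun x => ANearJ K R ρ TN (ex x.2) t x.1)).card : ℝ) ≤
      10 ^ 9 * (R : ℝ) ^ 3 * (Real.sqrt K + ((TN : ℝ) + 1) / Real.sqrt K) * 2 ^ T := by
  have hR' : (4 : ℝ) ≤ R := by exact_mod_cast hR
  have hK' : (4 : ℝ) ≤ K := by exact_mod_cast hK
  have b1 := count_ANear K (R + 4) ρ TN ht (by omega) (by omega) hK
  have b2 := count_lineJ K (R + 4) ρ ht (by omega) (by omega) hK
  rw [cf_eq] at b1
  rw [cf_eq]
  set X := box K ×ˢ (univ : Finset (Fin T → Bool)) with hX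
  have c1 := cf_or X (fun x => ANearJ K R ρ TN (ex x.2) t x.1)
    (fun x => ANear K (R + 4) ρ TN (ex x.2) t x.1)
    (fun x =>
      (x.1.1 + x.1.2 = K ∧ K ≤ 4 * t ∧ (bal (ex x.2) (t - K / 4) t (4 * ((R + 4 : ℕ) : ℤ) + 2 * ρ) ∨
        bal (nt (ex x.2)) (t - K / 4) t (4 * ((R + 4 : ℕ) : ℤ) + 2 * ρ)))) (by
      intro x _ h
      rcases h with h | h
      · exact Or.inl h
      · exact Or.inr (by push_cast; exact h))
  have h2 := (Nat.cast_le (α := ℝ)).mpr c1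
  rw [Nat.cast_add] at h2
  refine h2.trans ((add_le_add b1 b2).trans ?_)
  have hA : 0 ≤ (R : ℝ) ^ 3 * Real.sqrt K * 2 ^ T := by positivity
  have hB : 0 ≤ (R : ℝ) ^ 3 * (((TN : ℝ) + 1) / Real.sqrt K) * 2 ^ T := by positivity
  have e1 : (((R + 4 : ℕ) : ℝ)) ^ 3 ≤ 8 * (R : ℝ) ^ 3 := by
    have : ((R + 4 : ℕ) : ℝ) ≤ 2 * R := by push_cast; linarith
    calc (((R + 4 : ℕ) : ℝ)) ^ 3 ≤ (2 * (R : ℝ)) ^ 3 := by gcongr
      _ = 8 * (R : ℝ) ^ 3 := by ring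
  have e2 : ((R + 4 : ℕ) : ℝ) ≤ (R : ℝ) ^ 3 := by
    have h3 : ((R + 4 : ℕ) : ℝ) ≤ 2 * R := by push_cast; linarith
    have h4 : (2 : ℝ) * R ≤ (R : ℝ) ^ 3 := by
      have h5 : (R : ℝ) ^ 3 = (R : ℝ) * R * R := by ring
      rw [h5]
      apply mul_le_mul_of_nonneg_right _ (by positivity)
      nlinarith
    linarith
  have d1 : 10 ^ 7 * (((R + 4 : ℕ) : ℝ)) ^ 3 * (Real.sqrt K + ((TN : ℝ) + 1) / Real.sqrt K) * 2 ^ T
      ≤ 10 ^ 7 * (8 * (R : ℝ) ^ 3) * (Real.sqrt K + ((TN : ℝ) + 1) / Real.sqrt K) * 2 ^ T := by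
    gcongr
  have d2 : 1560 * ((R + 4 : ℕ) : ℝ) * Real.sqrt K * 2 ^ T ≤
      1560 * (R : ℝ) ^ 3 * Real.sqrt K * 2 ^ T := by gcongr
  refine (add_le_add d1 d2).trans ?_
  have e3 : 10 ^ 9 * (R : ℝ) ^ 3 * (Real.sqrt K + ((TN : ℝ) + 1) / Real.sqrt K) * 2 ^ T =
      10 ^ 9 * ((R : ℝ) ^ 3 * Real.sqrt K * 2 ^ T) +
      10 ^ 9 * ((R : ℝ) ^ 3 * (((TN : ℝ) + 1) / Real.sqrt K) * 2 ^ T) := by ring
  have e4 : 10 ^ 7 * (8 * (R : ℝ) ^ 3) * (Real.sqrt K + ((TN : ℝ) + 1) / Real.sqrt K) * 2 ^ T +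
      1560 * (R : ℝ) ^ 3 * Real.sqrt K * 2 ^ T =
      (8 * 10 ^ 7 + 1560) * ((R : ℝ) ^ 3 * Real.sqrt K * 2 ^ T) +
      (8 * 10 ^ 7) * ((R : ℝ) ^ 3 * (((TN : ℝ) + 1) / Real.sqrt K) * 2 ^ T) := by ring
  rw [e3, e4]
  linarith

end MP34e
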