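import Pool.Agent.Work.MP_34e428_co.Mass

/-! Lower bound for the zombie number of the toroidal grid: definitions.

`n = 2 K + 1`. The displacement of a zombie is `survivor - zombie`, an integer vector in
`[-K, K]²`. The survivor only moves east (`true`) or north (`false`). -/

set_option autoImplicit false

open Finset

namespace MP34e

/-- number of `true` values of `h` on `[a, b)` -/
def ct (h : ℕ → Bool) (a b : ℕ) : ℤ := (((Ico a b).filter (fun t => h t = true)).card : ℤ)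

/-- pointwise negation -/
def nt (h : ℕ → Bool) : ℕ → Bool := fun t => !h t

/-- move of a zombie with displacement `p`; the coin `h` decides (`true` = horizontal) when both
coordinates are nonzero -/
def zm (h : Bool) (p : ℤ × ℤ) : ℤ × ℤ :=
  if p.1 = 0 then hy p else if p.2 = 0 then hx p else if h then hx p else hy p

/-- representative in `[-K, K]` of `x ∈ [-K, K + 1]` modulo `2 K + 1` -/
def wr (K : ℕ) (x : ℤ) : ℤ := if (K : ℤ) < x then x - (2 * K + 1) else x

/-- effect of the move of the survivor (`true` = east, `false` = north) on a displacement -/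
def sm (K : ℕ) (e : Bool) (p : ℤ × ℤ) : ℤ × ℤ :=
  if e then (wr K (p.1 + 1), p.2) else (p.1, wr K (p.2 + 1))

/-- displacement of a zombie after `t` rounds: coins `h`, survivor moves `e`, initial
displacement `p` -/
def tr (K : ℕ) (h e : ℕ → Bool) (p : ℤ × ℤ) : ℕ → ℤ × ℤ
  | 0 => p
  | t + 1 => sm K (e t) (zm (h t) (tr K h e p t))

/-- graph distance -/
def ds (p : ℤ × ℤ) : ℤ := |p.1| + |p.2|

/-- the walk of the survivor stays close to the diagonal -/
def BalP (R : ℕ) (e : ℕ → Bool) (T : ℕ) : Prop := ∀ t ≤ T, |2 * ct e 0 t - t| ≤ 2 * R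

/-- a zombie which stays behind the survivor for ever -/
def Safe (K : ℕ) (p : ℤ × ℤ) : Prop := 0 ≤ p.1 ∧ 0 ≤ p.2 ∧ 2 ≤ p.1 + p.2 ∧ p.1 + p.2 ≤ K

/-- good coins, all windows -/
def GC (L₀ : ℕ) (h : ℕ → Bool) (T : ℕ) : Prop :=
  ∀ a b : ℕ, a ≤ b → b ≤ T → 50 * |2 * ct h a b - ((b : ℤ) - a)| ≤ ((b : ℤ) - a) + 50 * L₀

/-- good coins, windows of length at most `W` -/
def GB (B W : ℕ) (h : ℕ → Bool) (T : ℕ) : Prop :=
  ∀ a b : ℕ, a ≤ b → b ≤ T → b ≤ a + W → |2 * ct h a b - ((b : ℤ) - a)| ≤ B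

/-- the coin walk is never confined to a window of width `w` for `S` steps -/
def ESC (w S : ℕ) (h : ℕ → Bool) (T : ℕ) : Prop :=
  ∀ a : ℕ, a + S ≤ T → ∃ s s' : ℕ, a ≤ s ∧ s ≤ s' ∧ s' ≤ a + S ∧
    (w : ℤ) < |2 * ct h s s' - ((s' : ℤ) - s)|

/-- the walk of the coins `g` seen backwards from `t` stays above `-a` until time `τ` -/
def bal (g : ℕ → Bool) (τ t : ℕ) (a : ℤ) : Prop :=
  ∀ s : ℕ, τ ≤ s → s ≤ t → -a ≤ 2 * ct g s t - ((t : ℤ) - s)

/-- possible initial values `x` of a coordinate whose value at time `t` is within `w` of `v`,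
moved by coins `g` and by an almost balanced survivor, before its first contact with `0` -/
def Pre (K R : ℕ) (g : ℕ → Bool) (t : ℕ) (v w x : ℤ) : Prop :=
  |2 * x - (2 * v - 2 * ct g 0 t - t)| ≤ 2 * w + 2 * R ∨
  |2 * x - (2 * v + 2 * ct g 0 t - t)| ≤ 2 * w + 2 * R ∨
  ∃ σ < t, |2 * x - (2 * K + 2 * ct g 0 σ - σ)| ≤ 2 * R ∧
    |2 * v + 2 * K + 2 - 2 * ct g σ t - ((t : ℤ) - σ)| ≤ 2 * w + 4 * R

/-- pure event containing: the zombie is not behind the survivor and within distance `ρ` at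
time `t` -/
def ANear (K R ρ TN : ℕ) (h : ℕ → Bool) (t : ℕ) (p : ℤ × ℤ) : Prop :=
  (Pre K R h t 0 ρ p.1 ∧ Pre K R (nt h) t 0 ρ p.2) ∨
  (∃ τ ≤ t, t ≤ τ + 4 * K ∧ Pre K R (nt h) τ 0 1 p.2 ∧
    Pre K R h τ (-((t : ℤ) - τ)) (ρ + 4 * R + 1) p.1 ∧ bal (nt h) τ t (4 * R + 2 * ρ)) ∨
  (∃ τ ≤ t, t ≤ τ + 4 * K ∧ Pre K R h τ 0 1 p.1 ∧
    Pre K R (nt h) τ (-((t : ℤ) - τ)) (ρ + 4 * R + 1) p.2 ∧ bal h τ t (4 * R + 2 * ρ)) ∨
  ((∃ τ ≤ TN, (Pre K R h τ 0 1 p.1 ∧ Pre K R (nt h) τ K 1 p.2) ∨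
      (Pre K R (nt h) τ 0 1 p.2 ∧ Pre K R h τ K 1 p.1)) ∧
    K ≤ 4 * t ∧ (bal h (t - K / 4) t (4 * R + 2 * ρ) ∨ bal (nt h) (t - K / 4) t (4 * R + 2 * ρ)))

/-- pure event containing: the zombie is in front (north east) of the survivor and within
distance `ρ` at time `t` -/
def AFront (K R ρ : ℕ) (h : ℕ → Bool) (t : ℕ) (p : ℤ × ℤ) : Prop :=
  Pre K R h t 0 ρ p.1 ∧ Pre K R (nt h) t 0 ρ p.2

/-- extension of a finite sequence of coins -/
def ex {T : ℕ} (c : Fin T → Bool) : ℕ → Bool := fun t => if h : t < T then c ⟨t, h⟩ else false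

/-! ### The strategy -/

/-- memory of the survivor: `D` = (east moves) - (north moves), current phase (`true` = east),
timer and preferred direction while the timer runs -/
structure Mem where
  D : ℤ
  ph : Bool
  tm : ℕ
  dr : Bool

/-- moving east is dangerous (`q` = displacements after the move of the zombies) -/
def Eblk {k : ℕ} (q : Fin k → ℤ × ℤ) : Prop := ∃ i, |(q i).1 + 1| + |(q i).2| ≤ 1

/-- moving north is dangerous -/
def Nblk {k : ℕ} (q : Fin k → ℤ × ℤ) : Prop := ∃ i, |(q i).1| + |(q i).2 + 1| ≤ 1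

/-- a zombie in front within distance `L₁` -/
def front (L₁ : ℕ) (p : ℤ × ℤ) : Prop := p.1 < 0 ∧ p.2 < 0 ∧ -p.1 - p.2 ≤ L₁

open scoped Classical in
/-- the phase used by the survivor -/
noncomputable def nph (R : ℕ) (m : Mem) : Bool :=
  if (R : ℤ) ≤ m.D then false else if m.D ≤ -(R : ℤ) then true else m.ph

open scoped Classical in
/-- the new timer -/
noncomputable def ntm (L₁ : ℕ) {k : ℕ} (m : Mem) (q : Fin k → ℤ × ℤ) : ℕ :=
  if m.tm = 0 ∧ ∃ i, front L₁ (q i) then 3 * L₁ else m.tm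

open scoped Classical in
/-- the direction preferred while the timer runs: east iff the front zombie has
`-x < -y` -/
noncomputable def ndr (L₁ : ℕ) {k : ℕ} (m : Mem) (q : Fin k → ℤ × ℤ) : Bool :=
  if m.tm = 0 ∧ ∃ i, front L₁ (q i) then decide (∃ i, front L₁ (q i) ∧ (q i).2 < (q i).1)
  else m.dr

open scoped Classical in
/-- the preferred direction -/
noncomputable def pref (R L₁ : ℕ) {k : ℕ} (m : Mem) (q : Fin k → ℤ × ℤ) : Bool :=
  if 0 < ntm L₁ m q then ndr L₁ m q else nph R m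

open scoped Classical in
/-- the move of the survivor -/
noncomputable def dirn (R L₁ : ℕ) {k : ℕ} (m : Mem) (q : Fin k → ℤ × ℤ) : Bool :=
  if 2 * (R : ℤ) ≤ m.D then false else if m.D ≤ -(2 * (R : ℤ)) then true
  else if pref R L₁ m q then decide (¬ Eblk q) else decide (Nblk q)

/-- the new memory -/
noncomputable def nmem (R L₁ : ℕ) {k : ℕ} (m : Mem) (q : Fin k → ℤ × ℤ) : Mem :=
  ⟨m.D + (if dirn R L₁ m q then 1 else -1), nph R m, ntm L₁ m q - 1, ndr L₁ m q⟩

/-- the game: displacements and memory after `t` rounds; coins `c i t`, initial displacements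
`p i` -/
noncomputable def run (K R L₁ : ℕ) {k : ℕ} (c : Fin k → ℕ → Bool) (p : Fin k → ℤ × ℤ) :
    ℕ → (Fin k → ℤ × ℤ) × Mem
  | 0 => (p, ⟨0, true, 0, true⟩)
  | t + 1 =>
    let s := run K R L₁ c p t
    let q : Fin k → ℤ × ℤ := fun i => zm (c i t) (s.1 i)
    (fun i => sm K (dirn R L₁ s.2 q) (q i), nmem R L₁ s.2 q)

/-- displacements after the moves of the zombies in round `t + 1` -/
noncomputable def mid (K R L₁ : ℕ) {k : ℕ} (c : Fin k → ℕ → Bool) (p : Fin k → ℤ × ℤ) (t : ℕ) :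
    Fin k → ℤ × ℤ := fun i => zm (c i t) ((run K R L₁ c p t).1 i)

/-- the sequence of moves of the survivor -/
noncomputable def pth (K R L₁ : ℕ) {k : ℕ} (c : Fin k → ℕ → Bool) (p : Fin k → ℤ × ℤ) :
    ℕ → Bool := fun t => dirn R L₁ (run K R L₁ c p t).2 (mid K R L₁ c p t)

/-! ### Basic lemmas -/

theorem ct_self (h : ℕ → Bool) (a : ℕ) : ct h a a = 0 := by simp [ct]

theorem ct_nonneg (h : ℕ → Bool) (a b : ℕ) : 0 ≤ ct h a b := by unfold ct; positivity

theorem ct_add (h : ℕ → Bool) {a b c : ℕ} (hab : a ≤ b) (hbc : b ≤ c) :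
    ct h a b + ct h b c = ct h a c := by
  unfold ct
  rw [← Nat.cast_add, ← Finset.card_union_of_disjoint, ← Finset.filter_union,
    Finset.Ico_union_Ico_eq_Ico hab hbc]
  exact Finset.disjoint_filter_filter (Finset.Ico_disjoint_Ico_consecutive a b c)

theorem ct_succ (h : ℕ → Bool) {a b : ℕ} (hab : a ≤ b) :
    ct h a (b + 1) = ct h a b + (if h b then 1 else 0) := by
  rw [← ct_add h hab (Nat.le_succ b)]
  congr 1
  unfold ct
  rw [Nat.Ico_succ_singleton, Finset.filter_singleton]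
  split_ifs with h1 <;> simp

theorem ct_nt (h : ℕ → Bool) {a b : ℕ} (hab : a ≤ b) : ct (nt h) a b = ((b : ℤ) - a) - ct h a b := by
  have : ct h a b + ct (nt h) a b = (b : ℤ) - a := by
    unfold ct nt
    have h1 := Finset.card_filter_add_card_filter_not (s := Finset.Ico a b) (fun t => h t = true)
    have h2 : (Finset.Ico a b).filter (fun t => ¬ h t = true) =
        (Finset.Ico a b).filter (fun t => (!h t) = true) := by
      apply Finset.filter_congr
      intro t _
      simp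
    rw [h2, Nat.card_Ico] at h1
    rw [← Nat.cast_add, h1]
    push_cast [hab]
    ring
  linarith

theorem ct_le (h : ℕ → Bool) {a b : ℕ} (hab : a ≤ b) : ct h a b ≤ (b : ℤ) - a := by
  have := ct_nonneg (nt h) a b
  rw [ct_nt h hab] at this
  linarith

theorem nt_nt (h : ℕ → Bool) : nt (nt h) = h := by funext t; simp [nt]

theorem run_fst (K R L₁ : ℕ) {k : ℕ} (c : Fin k → ℕ → Bool) (p : Fin k → ℤ × ℤ) (t : ℕ)
    (i : Fin k) : (run K R L₁ c p t).1 i = tr K (c i) (pth K R L₁ c p) (p i) t := by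
  induction t with
  | zero => rfl
  | succ t ih =>
    rw [tr, ← ih]
    rfl

theorem run_D (K R L₁ : ℕ) {k : ℕ} (c : Fin k → ℕ → Bool) (p : Fin k → ℤ × ℤ) (t : ℕ) :
    (run K R L₁ c p t).2.D = 2 * ct (pth K R L₁ c p) 0 t - t := by
  induction t with
  | zero => simp [run, ct_self]
  | succ t ih =>
    have h1 : (run K R L₁ c p (t + 1)).2.D =
        (run K R L₁ c p t).2.D + (if pth K R L₁ c p t then 1 else -1) := rfl
    rw [h1, ih, ct_succ _ (Nat.zero_le t)]
    push_cast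
    split_ifs <;> ring

theorem run_D_abs (K : ℕ) {R : ℕ} (hR : 1 ≤ R) (L₁ : ℕ) {k : ℕ} (c : Fin k → ℕ → Bool)
    (p : Fin k → ℤ × ℤ) (t : ℕ) : |(run K R L₁ c p t).2.D| ≤ 2 * R := by
  induction t with
  | zero => simp [run]
  | succ t ih =>
    have h1 : (run K R L₁ c p (t + 1)).2.D =
        (run K R L₁ c p t).2.D + (if pth K R L₁ c p t then 1 else -1) := rfl
    have h2 : 2 * (R : ℤ) ≤ (run K R L₁ c p t).2.D → pth K R L₁ c p t = false := by
      intro h
      have : pth K R L₁ c p t = dirn R L₁ (run K R L₁ c p t).2 (mid K R L₁ c p t) := rfl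
      rw [this]
      unfold dirn
      rw [if_pos h]
    have h3 : ¬ 2 * (R : ℤ) ≤ (run K R L₁ c p t).2.D →
        (run K R L₁ c p t).2.D ≤ -(2 * (R : ℤ)) → pth K R L₁ c p t = true := by
      intro h h'
      have : pth K R L₁ c p t = dirn R L₁ (run K R L₁ c p t).2 (mid K R L₁ c p t) := rfl
      rw [this]
      unfold dirn
      rw [if_neg h, if_pos h']
    rw [h1]
    rw [abs_le] at ih ⊢
    rcases hb : pth K R L₁ c p t with _ | _
    · have : ¬ ((run K R L₁ c p t).2.D ≤ -(2 * (R : ℤ))) := by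
        intro hc
        have := h3 (by omega) hc
        rw [hb] at this
        exact absurd this (by simp)
      simp only [Bool.false_eq_true, if_false]
      omega
    · have : ¬ (2 * (R : ℤ) ≤ (run K R L₁ c p t).2.D) := by
        intro hc
        have := h2 hc
        rw [hb] at this
        exact absurd this (by simp)
      simp only [if_true]
      omega

theorem run_bal (K : ℕ) {R : ℕ} (hR : 1 ≤ R) (L₁ : ℕ) {k : ℕ} (c : Fin k → ℕ → Bool)
    (p : Fin k → ℤ × ℤ) (T : ℕ) : BalP R (pth K R L₁ c p) T := by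
  intro t _
  rw [← run_D]
  exact run_D_abs K hR L₁ c p t

end MP34e
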