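import Pool.Agent.Work.MP_34e428_co.LLocal
import Pool.Agent.Work.MP_34e428_co.LDefsJ

/-! Lower bound: module L for the model with jumps (`n = 2 K + 1 - o`, `o ∈ {0, 1}`). -/

set_option autoImplicit false

open Finset

namespace MP34e

set_option linter.unusedSimpArgs false

theorem mem_boxJ {K o : ℕ} {p : ℤ × ℤ} : p ∈ boxJ K o ↔
    (-(K : ℤ) + o ≤ p.1 ∧ p.1 ≤ K) ∧ (-(K : ℤ) + o ≤ p.2 ∧ p.2 ≤ K) := by
  unfold boxJ
  rw [mem_product, mem_Icc, mem_Icc]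

theorem zj_boxJ {K o : ℕ} (hK : 1 ≤ K) (ho : o ≤ 1) (h b : Bool) {p : ℤ × ℤ}
    (hp : p ∈ boxJ K o) : zj K o h b p ∈ boxJ K o := by
  rw [mem_boxJ] at hp ⊢
  unfold zj
  split_ifs with h1 h2
  · simp only; omega
  · simp only; omega
  · rcases zm_cases h p with ⟨a1, a2, h3⟩ | ⟨a1, a2, h3⟩ | ⟨a1, a2, h3⟩ | ⟨a1, a2, h3⟩ |
      ⟨a1, a2, h3⟩ <;> rw [h3] <;> simp only <;> omega

theorem smJ_boxJ {K o : ℕ} (e : Bool) {p : ℤ × ℤ}
    (hp : p ∈ boxJ K o) : smJ K o e p ∈ boxJ K o := by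
  rw [mem_boxJ] at hp ⊢
  unfold smJ wrJ
  rcases e with _ | _
  · simp only [Bool.false_eq_true, if_false]
    split_ifs <;> omega
  · simp only [if_true]
    split_ifs <;> omega

theorem ds_zj {K o : ℕ} (hK : 1 ≤ K) (h b : Bool) {p : ℤ × ℤ} (hp : 1 ≤ ds p) :
    ds (zj K o h b p) = ds p - 1 := by
  unfold zj
  split_ifs with h1 h2
  · unfold ds
    simp only
    rw [h1.2.2.1, abs_of_nonpos (by omega : -(K : ℤ) + 1 ≤ 0), abs_of_nonneg (by omega : (0:ℤ) ≤ K)]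
    ring
  · unfold ds
    simp only
    rw [h2.2.2.1, abs_of_nonpos (by omega : -(K : ℤ) + 1 ≤ 0), abs_of_nonneg (by omega : (0:ℤ) ≤ K)]
    ring
  · exact ds_zm h hp

theorem ds_smJ {K o : ℕ} (hK : 1 ≤ K) (ho : o ≤ 1) (e : Bool) {p : ℤ × ℤ} (hp : p ∈ boxJ K o) :
    ds p - 1 ≤ ds (smJ K o e p) ∧ ds (smJ K o e p) ≤ ds p + 1 := by
  rw [mem_boxJ] at hp
  unfold ds smJ wrJ
  rcases e with _ | _
  · simp only [Bool.false_eq_true, if_false]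
    split_ifs with hc
    · have h1 : p.2 = K := by omega
      have h2 : p.2 + 1 - (2 * (K : ℤ) + 1 - o) = -K + o := by rw [h1]; ring
      rw [h2, h1, abs_of_nonneg (by omega : (0:ℤ) ≤ K), abs_of_nonpos (by omega : -(K : ℤ) + o ≤ 0)]
      omega
    · rcases abs_cases (p.2 + 1) with ⟨h1, _⟩ | ⟨h1, _⟩ <;>
        rcases abs_cases p.2 with ⟨h2, _⟩ | ⟨h2, _⟩ <;> rw [h1, h2] <;> omega
  · simp only [if_true]
    split_ifs with hc
    · have h1 : p.1 = K := by omega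
      have h2 : p.1 + 1 - (2 * (K : ℤ) + 1 - o) = -K + o := by rw [h1]; ring
      rw [h2, h1, abs_of_nonneg (by omega : (0:ℤ) ≤ K), abs_of_nonpos (by omega : -(K : ℤ) + o ≤ 0)]
      omega
    · rcases abs_cases (p.1 + 1) with ⟨h1, _⟩ | ⟨h1, _⟩ <;>
        rcases abs_cases p.1 with ⟨h2, _⟩ | ⟨h2, _⟩ <;> rw [h1, h2] <;> omega

theorem smJ_near {K o : ℕ} (e : Bool) {p : ℤ × ℤ} (h1 : p.1 < K) (h2 : p.2 < K) :
    (smJ K o e p).1 = p.1 + (if e then 1 else 0) ∧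
      (smJ K o e p).2 = p.2 + (if e then 0 else 1) := by
  unfold smJ wrJ
  rcases e with _ | _
  · have : ¬ ((K : ℤ) < p.2 + 1) := by omega
    simp [this]
  · have : ¬ ((K : ℤ) < p.1 + 1) := by omega
    simp [this]

/-- the trajectories of the model with jumps are abstract trajectories -/
theorem seq_of_recJ {K o : ℕ} (hK : 1 ≤ K) (ho : o ≤ 1) {h e : ℕ → Bool} {b : ℕ → Bool}
    {q : ℕ → ℤ × ℤ} (h0 : q 0 ∈ boxJ K o)
    (hq : ∀ s, q (s + 1) = smJ K o (e s) (zj K o (h s) (b s) (q s))) : Seq K h e q := by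
  have hbox : ∀ s, q s ∈ boxJ K o := by
    intro s
    induction s with
    | zero => exact h0
    | succ s ih => rw [hq s]; exact smJ_boxJ _ (zj_boxJ hK ho _ _ ih)
  refine ⟨fun s hs => ?_, fun s hd => ?_⟩
  · rw [hq s]
    have h1 := ds_coord (q s)
    rw [zj_of_lt K o _ _ _ (by omega) (by omega)]
    refine smJ_near _ ?_ ?_
    · rcases zm_cases (h s) (q s) with ⟨_, _, h3⟩ | ⟨_, _, h3⟩ | ⟨_, _, h3⟩ | ⟨_, _, h3⟩ |
        ⟨_, _, h3⟩ <;> rw [h3] <;> simp only <;> omega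
    · rcases zm_cases (h s) (q s) with ⟨_, _, h3⟩ | ⟨_, _, h3⟩ | ⟨_, _, h3⟩ | ⟨_, _, h3⟩ |
        ⟨_, _, h3⟩ <;> rw [h3] <;> simp only <;> omega
  · have h1 := ds_zj (o := o) hK (h s) (b s) hd
    have h2 := ds_smJ hK ho (e s) (zj_boxJ hK ho (h s) (b s) (hbox s))
    rw [← hq s] at h2
    omega

open scoped Classical in
/-- module L for both parities -/
theorem local_safeJ {k K o R L₁ L₀ M T : ℕ} (ho : o ≤ 1) (hL₀ : 100 ≤ L₀)
    (hL₁ : 1000 * (M + 1) * L₀ ≤ L₁)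
    (hR : 1000 * L₁ ≤ R) (hK : 100 * R ≤ K) (c : Fin k → ℕ → Bool) (J : Fin k → ℕ → ℤ × ℤ → Bool)
    (p : Fin k → ℤ × ℤ)
    (hbox : ∀ i, p i ∈ boxJ K o) (hp : ∀ i, 30 * (R : ℤ) < ds (p i)) (hGC : ∀ i, GC L₀ (c i) T)
    (hM : ∀ u ≤ T, (∀ s ≤ u, ∀ i, 2 ≤ ds ((runJ K o R L₁ c J p s).1 i)) → ∀ a, u ≤ a + 12 * R →
      (univ.filter (fun i : Fin k => ∃ s, a ≤ s ∧ s ≤ u ∧
        (((runJ K o R L₁ c J p s).1 i).1 < 0 ∨ ((runJ K o R L₁ c J p s).1 i).2 < 0) ∧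
        ds ((runJ K o R L₁ c J p s).1 i) ≤ 30 * R)).card ≤ M)
    (hF : ∀ u ≤ T, (∀ s ≤ u, ∀ i, 2 ≤ ds ((runJ K o R L₁ c J p s).1 i)) → ∀ i j : Fin k, i ≠ j →
      ∀ s s' : ℕ, s ≤ u → s' ≤ u → s ≤ s' + 12 * R → s' ≤ s + 12 * R →
      ¬ ((((runJ K o R L₁ c J p s).1 i).1 < 0 ∧ ((runJ K o R L₁ c J p s).1 i).2 < 0 ∧
          ds ((runJ K o R L₁ c J p s).1 i) ≤ 30 * R) ∧
        (((runJ K o R L₁ c J p s').1 j).1 < 0 ∧ ((runJ K o R L₁ c J p s').1 j).2 < 0 ∧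
          ds ((runJ K o R L₁ c J p s').1 j) ≤ 30 * R))) :
    ∀ t ≤ T, ∀ i, 2 ≤ ds ((runJ K o R L₁ c J p t).1 i) := by
  have hK1 : 1 ≤ K := by
    have : 1000 * 1 * 100 ≤ 1000 * (M + 1) * L₀ :=
      Nat.mul_le_mul (Nat.mul_le_mul le_rfl (by omega)) hL₀
    omega
  have hseq : ∀ i, Seq K (c i) (pthJ K o R L₁ c J p) (fun s => (runJ K o R L₁ c J p s).1 i) := by
    intro i
    exact seq_of_recJ hK1 ho (b := fun s => J i s ((runJ K o R L₁ c J p s).1 i)) (hbox i)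
      (fun s => rfl)
  have X : Loc k K R L₁ L₀ M T c (fun s => (runJ K o R L₁ c J p s).1) (midJ K o R L₁ c J p)
      (fun s => (runJ K o R L₁ c J p s).2) (pthJ K o R L₁ c J p) := by
    refine ⟨hL₀, hL₁, hR, hK, hseq, ?_, ?_, fun s => rfl, fun s => rfl, rfl, hp, hGC, hM, hF⟩
    · intro s i hs
      have h1 := ds_coord ((runJ K o R L₁ c J p s).1 i)
      exact zj_of_lt K o _ _ _ (by omega) (by omega)
    · intro s i
      show ds ((runJ K o R L₁ c J p s).1 i) ≤ ds (zj K o (c i s) _ _) + 1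
      rcases lt_or_ge (ds ((runJ K o R L₁ c J p s).1 i)) 1 with h1 | h1
      · have := ds_nonneg (zj K o (c i s) (J i s ((runJ K o R L₁ c J p s).1 i))
          ((runJ K o R L₁ c J p s).1 i))
        omega
      · rw [ds_zj hK1 _ _ h1]; omega
  intro t ht i
  exact X.two_le ht i

end MP34e
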