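import Pool.Agent.Work.MP_34e428_co.LDefsJ

/-! Adapted visits and fair decisions: a zombie seldom makes many visits of the ends of the line
`x + y = K` without jumping. -/

set_option autoImplicit false

open Finset
open scoped Classical

namespace MP34e

/-- extension of the second coins -/
def ex6 {T : ℕ} (u : Fin T → Fin 6) : ℕ → ℕ := fun t => if h : t < T then (u ⟨t, h⟩ : ℕ) else 0

/-- prepend a value -/
def pc6 (a : ℕ) (v : ℕ → ℕ) : ℕ → ℕ
  | 0 => a
  | t + 1 => v t

theorem ex6_cons {T : ℕ} (a : Fin 6) (v : Fin T → Fin 6) :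
    ex6 (Fin.cons a v : Fin (T + 1) → Fin 6) = pc6 (a : ℕ) (ex6 v) := by
  funext t
  cases t with
  | zero => simp [ex6, pc6]
  | succ t =>
    have e : pc6 (a : ℕ) (ex6 v) (t + 1) = ex6 v t := rfl
    rw [e]
    unfold ex6
    by_cases h : t < T
    · rw [dif_pos (by omega), dif_pos h]
      have : (⟨t + 1, by omega⟩ : Fin (T + 1)) = Fin.succ ⟨t, h⟩ := rfl
      rw [this, Fin.cons_succ]
    · rw [dif_neg (by omega), dif_neg h]

/-- the value at time `t` only depends on the coins before `t` -/
def Adapt (A : ℕ → (ℕ → ℕ) → Prop) : Prop :=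
  ∀ t u u', (∀ s < t, u s = u' s) → (A t u ↔ A t u')

theorem Adapt.shift {A : ℕ → (ℕ → ℕ) → Prop} (hA : Adapt A) (a : ℕ) :
    Adapt (fun t v => A (t + 1) (pc6 a v)) := by
  intro t u u' h
  apply hA
  intro s hs
  cases s with
  | zero => rfl
  | succ s => exact h s (by omega)

/-- at least `l` visits before `T₁`, all decisions at the visits below `3` -/
def Ev6 (A : ℕ → (ℕ → ℕ) → Prop) (l T₁ : ℕ) (u : ℕ → ℕ) : Prop :=
  l ≤ ((range T₁).filter (fun t => A t u)).card ∧ ∀ t < T₁, A t u → u t < 3

theorem card_cons {T : ℕ} (P : (Fin (T + 1) → Fin 6) → Prop) :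
    (univ.filter P).card
      = ∑ a : Fin 6, (univ.filter (fun v : Fin T → Fin 6 => P (Fin.cons a v))).card := by
  have h1 : (univ.filter P).card = ((univ : Finset (Fin 6 × (Fin T → Fin 6))).filter
      (fun x => P (Fin.cons x.1 x.2))).card := by
    symm
    apply Finset.card_bij (fun x _ => (Fin.cons x.1 x.2 : Fin (T + 1) → Fin 6))
    · intro x hx
      simpa using hx
    · intro x _ y _ h
      have h1 : x.1 = y.1 := by
        have := congrFun h 0
        simpa using this
      have h2 : x.2 = y.2 := by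
        funext j
        have := congrFun h j.succ
        simpa using this
      exact Prod.ext h1 h2
    · intro u hu
      refine ⟨(u 0, fun j => u j.succ), ?_, ?_⟩
      · simp only [Finset.mem_filter, Finset.mem_univ, true_and] at hu ⊢
        convert hu
        exact Fin.cons_self_tail u
      · exact Fin.cons_self_tail u
  rw [h1, Finset.card_filter, ← Finset.univ_product_univ, Finset.sum_product]
  refine Finset.sum_congr rfl fun a _ => ?_
  rw [Finset.card_filter]

theorem card_range_succ (P : ℕ → Prop) (T : ℕ) : ((range (T + 1)).filter P).card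
    = (if P 0 then 1 else 0) + ((range T).filter (fun t => P (t + 1))).card := by
  rw [Finset.card_filter, Finset.sum_range_succ', Finset.card_filter]
  ring

theorem count_Ev6 (T : ℕ) : ∀ (A : ℕ → (ℕ → ℕ) → Prop), Adapt A → ∀ l T₁ : ℕ, T₁ ≤ T →
    (univ.filter (fun u : Fin T → Fin 6 => Ev6 A l T₁ (ex6 u))).card * 2 ^ l ≤ 6 ^ T := by
  induction T with
  | zero =>
    intro A hA l T₁ hT
    have hT0 : T₁ = 0 := by omega
    subst hT0
    rcases Nat.eq_zero_or_pos l with hl | hl
    · subst hl
      have := Finset.card_filter_le (univ : Finset (Fin 0 → Fin 6)) (fun u => Ev6 A 0 0 (ex6 u))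
      simpa using this
    · have : (univ.filter (fun u : Fin 0 → Fin 6 => Ev6 A l 0 (ex6 u))) = ∅ := by
        apply Finset.filter_false_of_mem
        intro u _ h
        have := h.1
        simp at this
        omega
      rw [this]
      simp
  | succ T ih =>
    intro A hA l T₁ hT
    rcases Nat.eq_zero_or_pos l with hl | hl
    · subst hl
      have := Finset.card_filter_le (univ : Finset (Fin (T + 1) → Fin 6))
        (fun u => Ev6 A 0 T₁ (ex6 u))
      simpa using this
    rcases Nat.eq_zero_or_pos T₁ with hT1 | hT1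
    · subst hT1
      have : (univ.filter (fun u : Fin (T + 1) → Fin 6 => Ev6 A l 0 (ex6 u))) = ∅ := by
        apply Finset.filter_false_of_mem
        intro u _ h
        have := h.1
        simp at this
        omega
      rw [this]
      simp
    obtain ⟨l, rfl⟩ : ∃ l', l = l' + 1 := ⟨l - 1, by omega⟩
    obtain ⟨T₁, rfl⟩ : ∃ T', T₁ = T' + 1 := ⟨T₁ - 1, by omega⟩
    rw [card_cons]
    simp only [ex6_cons]
    by_cases h0 : ∀ u, A 0 u
    · -- a visit at time 0
      have key : ∀ a : Fin 6,
          (univ.filter (fun v : Fin T → Fin 6 => Ev6 A (l + 1) (T₁ + 1) (pc6 (a : ℕ) (ex6 v)))).card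
            * 2 ^ (l + 1) ≤ if (a : ℕ) < 3 then 2 * 6 ^ T else 0 := by
        intro a
        split_ifs with ha
        · have h1 := ih (fun t v => A (t + 1) (pc6 (a : ℕ) v)) (hA.shift _) l T₁ (by omega)
          have h2 : (univ.filter (fun v : Fin T → Fin 6 =>
              Ev6 A (l + 1) (T₁ + 1) (pc6 (a : ℕ) (ex6 v)))).card ≤
              (univ.filter (fun v : Fin T → Fin 6 =>
                Ev6 (fun t v => A (t + 1) (pc6 (a : ℕ) v)) l T₁ (ex6 v))).card := by
            apply Finset.card_le_card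
            intro v hv
            simp only [Finset.mem_filter, Finset.mem_univ, true_and] at hv ⊢
            obtain ⟨hv1, hv2⟩ := hv
            rw [card_range_succ, if_pos (h0 _)] at hv1
            refine ⟨by simp only; omega, fun t ht hAt => ?_⟩
            exact hv2 (t + 1) (by omega) hAt
          calc _ ≤ (univ.filter (fun v : Fin T → Fin 6 =>
                Ev6 (fun t v => A (t + 1) (pc6 (a : ℕ) v)) l T₁ (ex6 v))).card * 2 ^ (l + 1) :=
                Nat.mul_le_mul_right _ h2
            _ = 2 * ((univ.filter (fun v : Fin T → Fin 6 =>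
                Ev6 (fun t v => A (t + 1) (pc6 (a : ℕ) v)) l T₁ (ex6 v))).card * 2 ^ l) := by
                rw [pow_succ]; ring
            _ ≤ 2 * 6 ^ T := Nat.mul_le_mul_left _ h1
        · have : (univ.filter (fun v : Fin T → Fin 6 =>
              Ev6 A (l + 1) (T₁ + 1) (pc6 (a : ℕ) (ex6 v)))) = ∅ := by
            apply Finset.filter_false_of_mem
            intro v _ hv
            have := hv.2 0 (by omega) (h0 _)
            exact ha this
          rw [this]
          simp
      rw [Finset.sum_mul]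
      refine (Finset.sum_le_sum fun a _ => key a).trans ?_
      rw [Fin.sum_univ_six]
      norm_num
      rw [pow_succ]
      omega
    · -- no visit at time 0
      have h0' : ∀ u, ¬ A 0 u := by
        intro u hu
        apply h0
        intro u'
        exact (hA 0 u u' (by intro s hs; omega)).1 hu
      have key : ∀ a : Fin 6,
          (univ.filter (fun v : Fin T → Fin 6 => Ev6 A (l + 1) (T₁ + 1) (pc6 (a : ℕ) (ex6 v)))).card
            * 2 ^ (l + 1) ≤ 6 ^ T := by
        intro a
        have h1 := ih (fun t v => A (t + 1) (pc6 (a : ℕ) v)) (hA.shift _) (l + 1) T₁ (by omega)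
        refine le_trans (Nat.mul_le_mul_right _ ?_) h1
        apply Finset.card_le_card
        intro v hv
        simp only [Finset.mem_filter, Finset.mem_univ, true_and] at hv ⊢
        obtain ⟨hv1, hv2⟩ := hv
        rw [card_range_succ, if_neg (h0' _)] at hv1
        refine ⟨by simp only; omega, fun t ht hAt => ?_⟩
        exact hv2 (t + 1) (by omega) hAt
      rw [Finset.sum_mul]
      refine (Finset.sum_le_sum fun a _ => key a).trans ?_
      rw [Finset.sum_const, Finset.card_univ, Fintype.card_fin, smul_eq_mul, pow_succ]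
      omega

/-- the run up to time `t` only depends on the decisions before `t` -/
theorem runJ_congr (K o R L₁ : ℕ) {k : ℕ} (c : Fin k → ℕ → Bool)
    (J J' : Fin k → ℕ → ℤ × ℤ → Bool) (p : Fin k → ℤ × ℤ) (t : ℕ)
    (h : ∀ s < t, ∀ i q, J i s q = J' i s q) :
    runJ K o R L₁ c J p t = runJ K o R L₁ c J' p t := by
  induction t with
  | zero => rfl
  | succ t ih =>
    have h1 := ih (fun s hs => h s (by omega))
    have h3 : ∀ i q, J i t q = J' i t q := h t (by omega)
    unfold runJ
    simp only [h1, h3]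

/-- replace the second coins of zombie `i` -/
def rep {k T : ℕ} (x : Fin k → (ℤ × ℤ) × ((Fin T → Bool) × (Fin T → Fin 6))) (i : Fin k)
    (u : Fin T → Fin 6) : Fin k → (ℤ × ℤ) × ((Fin T → Bool) × (Fin T → Fin 6)) :=
  Function.update x i ((x i).1, (x i).2.1, u)

theorem rep_fst {k T : ℕ} (x : Fin k → (ℤ × ℤ) × ((Fin T → Bool) × (Fin T → Fin 6))) (i : Fin k)
    (u : Fin T → Fin 6) (j : Fin k) : (rep x i u j).1 = (x j).1 := by
  unfold rep
  by_cases h : j = i
  · subst h; simp
  · rw [Function.update_of_ne h]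

theorem rep_snd {k T : ℕ} (x : Fin k → (ℤ × ℤ) × ((Fin T → Bool) × (Fin T → Fin 6))) (i : Fin k)
    (u : Fin T → Fin 6) (j : Fin k) : (rep x i u j).2.1 = (x j).2.1 := by
  unfold rep
  by_cases h : j = i
  · subst h; simp
  · rw [Function.update_of_ne h]

theorem rep_rep {k T : ℕ} (x : Fin k → (ℤ × ℤ) × ((Fin T → Bool) × (Fin T → Fin 6))) (i : Fin k)
    (u : Fin T → Fin 6) : rep (rep x i u) i (x i).2.2 = x := by
  funext j
  unfold rep
  by_cases h : j = i
  · subst h; simp
  · rw [Function.update_of_ne h, Function.update_of_ne h]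

/-- the event of the statement -/
def NJ (K o R L₁ : ℕ) {k T : ℕ} (l T₁ : ℕ) (i : Fin k)
    (x : Fin k → (ℤ × ℤ) × ((Fin T → Bool) × (Fin T → Fin 6))) : Prop :=
  NoJump K o (ex (x i).2.1) (fun t => jc K (ex6 (x i).2.2 t))
        (pthJ K o R L₁ (fun i => ex (x i).2.1) (fun i t => jc K (ex6 (x i).2.2 t))
          (fun i => (x i).1)) (x i).1 l T₁

theorem nj_fiber {K o k : ℕ} (R L₁ : ℕ) {T : ℕ} (l T₁ : ℕ) (hT : T₁ ≤ T) (i : Fin k)
    (x : Fin k → (ℤ × ℤ) × ((Fin T → Bool) × (Fin T → Fin 6))) :
    (univ.filter (fun u : Fin T → Fin 6 => NJ K o R L₁ l T₁ i (rep x i u))).card * 2 ^ l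
      ≤ 6 ^ T := by
  set c : Fin k → ℕ → Bool := fun j => ex (x j).2.1 with hc
  set p : Fin k → ℤ × ℤ := fun j => (x j).1 with hp
  set J : (ℕ → ℕ) → Fin k → ℕ → ℤ × ℤ → Bool := fun v j t =>
    if j = i then jc K (v t) else jc K (ex6 (x j).2.2 t) with hJ
  set A : ℕ → (ℕ → ℕ) → Prop := fun t v => Vis K ((runJ K o R L₁ c (J v) p t).1 i) with hA
  have hAd : Adapt A := by
    intro t u u' h
    rw [hA]
    simp only
    rw [runJ_congr K o R L₁ c (J u) (J u') p t]
    intro s hs j q
    rw [hJ]
    simp only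
    split_ifs with hj
    · rw [h s hs]
    · rfl
  refine le_trans (Nat.mul_le_mul_right _ ?_) (count_Ev6 T A hAd l T₁ hT)
  apply Finset.card_le_card
  intro u hu
  simp only [Finset.mem_filter, Finset.mem_univ, true_and] at hu ⊢
  unfold NJ NoJump at hu
  -- identify the run
  have e1 : (fun j => ex (rep x i u j).2.1) = c := by
    funext j
    rw [hc, rep_snd]
  have e2 : (fun j => (rep x i u j).1) = p := by
    funext j
    rw [hp, rep_fst]
  have e3 : (fun (j : Fin k) (t : ℕ) => jc K (ex6 (rep x i u j).2.2 t)) = J (ex6 u) := by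
    funext j t
    rw [hJ]
    simp only
    split_ifs with hj
    · subst hj
      unfold rep
      simp
    · unfold rep
      rw [Function.update_of_ne hj]
  have e4 : (fun t : ℕ => jc K (ex6 (rep x i u i).2.2 t)) = J (ex6 u) i := by
    rw [← e3]
  rw [e1, e2, e3, e4, show (rep x i u i).1 = p i by rw [hp, rep_fst],
    show ex (rep x i u i).2.1 = c i by rw [← e1]] at hu
  have e5 : ∀ t, trJ K o (c i) (J (ex6 u) i) (pthJ K o R L₁ c (J (ex6 u)) p) (p i) t
      = (runJ K o R L₁ c (J (ex6 u)) p t).1 i := fun t =>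
    (runJ_fst K o R L₁ c (J (ex6 u)) p t i).symm
  simp only [e5] at hu
  refine ⟨hu.1, fun t ht hAt => ?_⟩
  have h1 := hu.2 t ht hAt
  have hAt' : Vis K ((runJ K o R L₁ c (J (ex6 u)) p t).1 i) := hAt
  generalize (runJ K o R L₁ c (J (ex6 u)) p t).1 i = q at hAt' h1
  have hJi : J (ex6 u) i t q = jc K (ex6 u t) q := by rw [hJ]; simp
  rw [hJi] at h1
  unfold jc at h1
  rw [if_pos] at h1
  · simpa using h1
  · rcases hAt' with h2 | h2
    · right; right
      rw [h2]
    · right; left
      rw [h2]

theorem count_NoJump {K o k : ℕ} (R L₁ T l T₁ : ℕ) (hT : T₁ ≤ T) (i : Fin k) :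
    (((Fintype.piFinset (fun _ : Fin k =>
      boxJ K o ×ˢ (univ : Finset ((Fin T → Bool) × (Fin T → Fin 6))))).filter
      (fun x => NoJump K o (ex (x i).2.1) (fun t => jc K (ex6 (x i).2.2 t))
        (pthJ K o R L₁ (fun i => ex (x i).2.1) (fun i t => jc K (ex6 (x i).2.2 t))
          (fun i => (x i).1)) (x i).1 l T₁)).card : ℝ) ≤
      (1 / 2) ^ l * (Fintype.piFinset (fun _ : Fin k =>
        boxJ K o ×ˢ (univ : Finset ((Fin T → Bool) × (Fin T → Fin 6))))).card := by
  set Ω := Fintype.piFinset (fun _ : Fin k =>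
      boxJ K o ×ˢ (univ : Finset ((Fin T → Bool) × (Fin T → Fin 6)))) with hΩ
  have hmem : ∀ x ∈ Ω, ∀ u, rep x i u ∈ Ω := by
    intro x hx u
    rw [hΩ, Fintype.mem_piFinset] at hx ⊢
    intro j
    have := hx j
    rw [Finset.mem_product] at this ⊢
    refine ⟨?_, Finset.mem_univ _⟩
    rw [rep_fst]
    exact this.1
  have hnat : (Ω.filter (fun x => NJ K o R L₁ l T₁ i x)).card * 6 ^ T * 2 ^ l
      ≤ Ω.card * 6 ^ T := by
    have hcard : (univ : Finset (Fin T → Fin 6)).card = 6 ^ T := by
      rw [Finset.card_univ]; simp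
    have h1 : (Ω.filter (fun x => NJ K o R L₁ l T₁ i x)).card * 6 ^ T
        = ∑ x ∈ Ω, (univ.filter (fun u : Fin T → Fin 6 => NJ K o R L₁ l T₁ i (rep x i u))).card := by
      have h2 : ∑ x ∈ Ω, (univ.filter (fun u : Fin T → Fin 6 =>
          NJ K o R L₁ l T₁ i (rep x i u))).card
          = ((Ω ×ˢ (univ : Finset (Fin T → Fin 6))).filter
            (fun y => NJ K o R L₁ l T₁ i (rep y.1 i y.2))).card := by
        rw [Finset.card_filter, Finset.sum_product]
        refine Finset.sum_congr rfl fun x _ => ?_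
        rw [Finset.card_filter]
      have h3 : (Ω.filter (fun x => NJ K o R L₁ l T₁ i x)).card * 6 ^ T
          = ((Ω ×ˢ (univ : Finset (Fin T → Fin 6))).filter
            (fun y => NJ K o R L₁ l T₁ i y.1)).card := by
        rw [← hcard, ← Finset.card_product]
        congr 1
        ext y
        simp only [Finset.mem_product, Finset.mem_filter, Finset.mem_univ, and_true]
      rw [h2, h3]
      apply Finset.card_bij (fun y _ => (rep y.1 i y.2, (y.1 i).2.2))
      · intro y hy
        rw [Finset.mem_filter, Finset.mem_product] at hy ⊢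
        refine ⟨⟨hmem _ hy.1.1 _, Finset.mem_univ _⟩, ?_⟩
        simp only
        rw [rep_rep]
        exact hy.2
      · intro y _ z _ hyz
        rw [Prod.ext_iff] at hyz
        obtain ⟨hy1, hy2⟩ := hyz
        simp only at hy1 hy2
        have a1 : y.1 = z.1 := by
          rw [← rep_rep y.1 i y.2, ← rep_rep z.1 i z.2, hy1, hy2]
        have a2 : y.2 = z.2 := by
          have := congrFun hy1 i
          unfold rep at this
          simp at this
          exact this.2.2
        exact Prod.ext a1 a2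
      · intro y hy
        rw [Finset.mem_filter, Finset.mem_product] at hy
        refine ⟨(rep y.1 i y.2, (y.1 i).2.2), ?_, ?_⟩
        · rw [Finset.mem_filter, Finset.mem_product]
          refine ⟨⟨hmem _ hy.1.1 _, Finset.mem_univ _⟩, ?_⟩
          simp only
          exact hy.2
        · simp only
          rw [rep_rep]
          have : (rep y.1 i y.2 i).2.2 = y.2 := by unfold rep; simp
          rw [this]
    rw [h1, Finset.sum_mul]
    calc ∑ x ∈ Ω, (univ.filter (fun u : Fin T → Fin 6 =>
          NJ K o R L₁ l T₁ i (rep x i u))).card * 2 ^ l ≤ ∑ _x ∈ Ω, 6 ^ T :=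
          Finset.sum_le_sum fun x _ => nj_fiber R L₁ l T₁ hT i x
      _ = Ω.card * 6 ^ T := by rw [Finset.sum_const, smul_eq_mul]
  have h6 : (0 : ℝ) < 6 ^ T := by positivity
  have h2 : (0 : ℝ) < 2 ^ l := by positivity
  have hreal : ((Ω.filter (fun x => NJ K o R L₁ l T₁ i x)).card : ℝ) * 6 ^ T * 2 ^ l
      ≤ Ω.card * 6 ^ T := by exact_mod_cast hnat
  have h3 : ((Ω.filter (fun x => NJ K o R L₁ l T₁ i x)).card : ℝ) * 2 ^ l ≤ Ω.card := by
    have : (((Ω.filter (fun x => NJ K o R L₁ l T₁ i x)).card : ℝ) * 2 ^ l) * 6 ^ T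
        ≤ Ω.card * 6 ^ T := by linarith
    exact le_of_mul_le_mul_right this h6
  have h4 : ((Ω.filter (fun x => NJ K o R L₁ l T₁ i x)).card : ℝ) ≤ (1 / 2) ^ l * Ω.card := by
    rw [one_div, inv_pow, inv_mul_eq_div, le_div_iff₀ h2]
    exact h3
  exact h4

end MP34e
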