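import Mathlib

/-! Module U of the lower bound: finite union bound. -/

set_option autoImplicit false

open Finset
open scoped Classical

namespace MP34e

theorem pi_card {α : Type*} (S : Finset α) (k : ℕ) (I : Finset (Fin k)) (P : Fin k → α → Prop)
    (δ : ℝ) (h : ∀ i ∈ I, ((S.filter (P i)).card : ℝ) ≤ δ * S.card)
    (Q : (Fin k → α) → Prop) [DecidablePred Q] (hQ : ∀ x, Q x → ∀ i ∈ I, P i (x i)) :
    (((Fintype.piFinset (fun _ : Fin k => S)).filter Q).card : ℝ) ≤
      δ ^ I.card * (S.card : ℝ) ^ k := by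
  have e1 : (Fintype.piFinset (fun _ : Fin k => S)).filter Q ⊆
      Fintype.piFinset (fun i : Fin k => S.filter (fun a => i ∈ I → P i a)) := by
    intro x hx
    rw [Finset.mem_filter, Fintype.mem_piFinset] at hx
    rw [Fintype.mem_piFinset]
    intro i
    rw [Finset.mem_filter]
    exact ⟨hx.1 i, hQ x hx.2 i⟩
  have e2 := Finset.card_le_card e1
  rw [Fintype.card_piFinset] at e2
  have e3 : (((Fintype.piFinset (fun _ : Fin k => S)).filter Q).card : ℝ) ≤
      ∏ i : Fin k, ((S.filter (fun a => i ∈ I → P i a)).card : ℝ) := by exact_mod_cast e2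
  refine e3.trans ?_
  calc (∏ i : Fin k, ((S.filter (fun a => i ∈ I → P i a)).card : ℝ))
      ≤ ∏ i : Fin k, ((if i ∈ I then δ else 1) * (S.card : ℝ)) := by
        apply Finset.prod_le_prod
        · intro i _; positivity
        · intro i _
          by_cases hi : i ∈ I
          · rw [if_pos hi]
            have : S.filter (fun a => i ∈ I → P i a) = S.filter (P i) := by
              apply Finset.filter_congr
              intro a _
              simp [hi]
            rw [this]
            exact h i hi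
          · rw [if_neg hi, one_mul]
            exact_mod_cast Finset.card_filter_le _ _
    _ = δ ^ I.card * (S.card : ℝ) ^ k := by
        rw [Finset.prod_mul_distrib, Finset.prod_const, Finset.card_univ, Fintype.card_fin]
        congr 1
        rw [Finset.prod_ite_mem, Finset.univ_inter, Finset.prod_const]

theorem card_filter_exists_le {β ι : Type*} (X : Finset β) (J : Finset ι) (Q : ι → β → Prop)
    (c : ℝ) (h : ∀ j ∈ J, ((X.filter (Q j)).card : ℝ) ≤ c)
    (P : β → Prop) [DecidablePred P] (hP : ∀ x, P x → ∃ j ∈ J, Q j x) :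
    ((X.filter P).card : ℝ) ≤ J.card * c := by
  have hsub : X.filter P ⊆ J.biUnion (fun j => X.filter (Q j)) := by
    intro x hx
    rw [Finset.mem_filter] at hx
    obtain ⟨h1, h0⟩ := hx
    obtain ⟨j, hj, h2⟩ := hP x h0
    rw [Finset.mem_biUnion]
    exact ⟨j, hj, by rw [Finset.mem_filter]; exact ⟨h1, h2⟩⟩
  have h1 : (X.filter P).card ≤ ∑ j ∈ J, (X.filter (Q j)).card :=
    (Finset.card_le_card hsub).trans Finset.card_biUnion_le
  calc ((X.filter P).card : ℝ)
      ≤ ((∑ j ∈ J, (X.filter (Q j)).card : ℕ) : ℝ) := by exact_mod_cast h1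
    _ = ∑ j ∈ J, ((X.filter (Q j)).card : ℝ) := by push_cast; rfl
    _ ≤ ∑ j ∈ J, c := Finset.sum_le_sum h
    _ = J.card * c := by rw [Finset.sum_const, nsmul_eq_mul]

theorem ub_one {α : Type*} (S : Finset α) (k : ℕ) (Bad : α → Prop) (ε : ℝ)
    (hε : ((S.filter Bad).card : ℝ) ≤ ε * S.card) :
    (((Fintype.piFinset (fun _ : Fin k => S)).filter (fun x => ∃ i, Bad (x i))).card : ℝ) ≤
      (k : ℝ) * (ε * (S.card : ℝ) ^ k) := by
  have h := card_filter_exists_le (Fintype.piFinset (fun _ : Fin k => S))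
    (univ : Finset (Fin k)) (fun i x => Bad (x i)) (ε * (S.card : ℝ) ^ k) (fun i _ => by
      have := pi_card S k {i} (fun _ => Bad) ε (fun _ _ => hε) (fun x => Bad (x i)) (by
        intro x hx j hj
        rw [Finset.mem_singleton] at hj
        rw [hj]; exact hx)
      rw [Finset.card_singleton, pow_one] at this
      exact this) (fun x => ∃ i, Bad (x i)) (by
      rintro x ⟨i, hi⟩
      exact ⟨i, Finset.mem_univ i, hi⟩)
  rw [Finset.card_univ, Fintype.card_fin] at h
  exact h

theorem ub_two {α : Type*} (S : Finset α) (k T M : ℕ) (Near : ℕ → α → Prop) (q : ℝ)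
    (hq0 : 0 ≤ q) (hq : ∀ a ≤ T, ((S.filter (Near a)).card : ℝ) ≤ q * S.card) :
    (((Fintype.piFinset (fun _ : Fin k => S)).filter (fun x =>
      ∃ a ≤ T, M < (univ.filter (fun i => Near a (x i))).card)).card : ℝ) ≤
      ((T : ℝ) + 1) * ((k : ℝ) ^ (M + 1) * (q ^ (M + 1) * (S.card : ℝ) ^ k)) := by
  have c3 : ((powersetCard (M + 1) (univ : Finset (Fin k))).card : ℝ) ≤ (k : ℝ) ^ (M + 1) := by
    rw [Finset.card_powersetCard, Finset.card_univ, Fintype.card_fin]
    exact_mod_cast Nat.choose_le_pow k (M + 1)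
  have h := card_filter_exists_le (Fintype.piFinset (fun _ : Fin k => S))
    (range (T + 1)) (fun a x => M < (univ.filter (fun i => Near a (x i))).card)
    ((k : ℝ) ^ (M + 1) * (q ^ (M + 1) * (S.card : ℝ) ^ k)) (fun a ha => by
      have h1 := card_filter_exists_le (Fintype.piFinset (fun _ : Fin k => S))
        (powersetCard (M + 1) (univ : Finset (Fin k))) (fun I x => ∀ i ∈ I, Near a (x i))
        (q ^ (M + 1) * (S.card : ℝ) ^ k) (fun I hI => by
          rw [Finset.mem_powersetCard] at hI
          have h2 := pi_card S k I (fun _ => Near a) q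
            (fun _ _ => hq a (by rw [Finset.mem_range] at ha; omega))
            (fun x => ∀ i ∈ I, Near a (x i)) (fun x hx => hx)
          rw [hI.2] at h2
          convert h2) (fun x => M < (univ.filter (fun i => Near a (x i))).card) (by
          intro x hM
          obtain ⟨I, hI1, hI2⟩ := Finset.exists_subset_card_eq (Nat.succ_le_of_lt hM)
          refine ⟨I, ?_, ?_⟩
          · rw [Finset.mem_powersetCard]
            exact ⟨Finset.subset_univ I, hI2⟩
          · intro i hi
            exact (Finset.mem_filter.mp (hI1 hi)).2)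
      refine le_trans (le_trans (le_of_eq ?_) h1)
        (mul_le_mul_of_nonneg_right c3 (by positivity))
      congr!)
    (fun x => ∃ a ≤ T, M < (univ.filter (fun i => Near a (x i))).card) (by
      rintro x ⟨a, ha, h1⟩
      exact ⟨a, by rw [Finset.mem_range]; omega, h1⟩)
  rw [Finset.card_range] at h
  push_cast at h
  exact h

theorem ub_three {α : Type*} (S : Finset α) (k TN W : ℕ)
    (Fr : ℕ → α → Prop) (r : ℝ) (hr0 : 0 ≤ r)
    (hr : ∀ s ≤ TN, ((S.filter (Fr s)).card : ℝ) ≤ r * S.card) :
    (((Fintype.piFinset (fun _ : Fin k => S)).filter (fun x =>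
      ∃ i j, i ≠ j ∧ ∃ s ≤ TN, ∃ s' ≤ TN, s ≤ s' + W ∧ s' ≤ s + W ∧ Fr s (x i) ∧
        Fr s' (x j))).card : ℝ) ≤
      (k : ℝ) ^ 2 * (((TN : ℝ) + 1) * ((2 * W + 1) * (r ^ 2 * (S.card : ℝ) ^ k))) := by
  have c4 : (((univ : Finset (Fin k × Fin k)).filter (fun ij => ij.1 ≠ ij.2)).card : ℝ) ≤
      (k : ℝ) ^ 2 := by
    have : ((univ : Finset (Fin k × Fin k)).filter (fun ij => ij.1 ≠ ij.2)).card ≤ k ^ 2 := by
      refine (Finset.card_filter_le _ _).trans ?_
      rw [Finset.card_univ, Fintype.card_prod, Fintype.card_fin, sq]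
    exact_mod_cast this
  have h := card_filter_exists_le (Fintype.piFinset (fun _ : Fin k => S))
    ((univ : Finset (Fin k × Fin k)).filter (fun ij => ij.1 ≠ ij.2))
    (fun ij x => ∃ s ≤ TN, ∃ s' ≤ TN, s ≤ s' + W ∧ s' ≤ s + W ∧ Fr s (x ij.1) ∧
        Fr s' (x ij.2))
    (((TN : ℝ) + 1) * ((2 * W + 1) * (r ^ 2 * (S.card : ℝ) ^ k))) (fun ij hij => by
      have hne : ij.1 ≠ ij.2 := (Finset.mem_filter.mp hij).2
      have h1 := card_filter_exists_le (Fintype.piFinset (fun _ : Fin k => S))
        (range (TN + 1))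
        (fun s x => ∃ s' ≤ TN, s ≤ s' + W ∧ s' ≤ s + W ∧ Fr s (x ij.1) ∧
          Fr s' (x ij.2)) ((2 * W + 1) * (r ^ 2 * (S.card : ℝ) ^ k)) (fun s hs => by
          have h0 : (((range (TN + 1)).filter (fun s' => s ≤ s' + W ∧ s' ≤ s + W)).card : ℝ) ≤
              2 * W + 1 := by
            have : ((range (TN + 1)).filter (fun s' => s ≤ s' + W ∧ s' ≤ s + W)).card ≤
                2 * W + 1 := by
              have hsub : (range (TN + 1)).filter (fun s' => s ≤ s' + W ∧ s' ≤ s + W) ⊆
                  Icc (s - W) (s + W) := by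
                intro u hu
                rw [Finset.mem_filter] at hu
                rw [Finset.mem_Icc]
                omega
              have := Finset.card_le_card hsub
              rw [Nat.card_Icc] at this
              omega
            exact_mod_cast this
          have h2 := card_filter_exists_le (Fintype.piFinset (fun _ : Fin k => S))
            ((range (TN + 1)).filter (fun s' => s ≤ s' + W ∧ s' ≤ s + W))
            (fun s' x => Fr s (x ij.1) ∧ Fr s' (x ij.2)) (r ^ 2 * (S.card : ℝ) ^ k)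
            (fun s' hs' => by
              rw [Finset.mem_range] at hs
              rw [Finset.mem_filter, Finset.mem_range] at hs'
              have h3 := pi_card S k {ij.1, ij.2} (fun i => if i = ij.1 then Fr s else Fr s') r (by
                intro i hi
                rw [Finset.mem_insert, Finset.mem_singleton] at hi
                rcases hi with hi | hi
                · have e : (if i = ij.1 then Fr s else Fr s') = Fr s := if_pos hi
                  simp only [e]
                  exact hr s (by omega)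
                · have e : (if i = ij.1 then Fr s else Fr s') = Fr s' :=
                    if_neg (by rw [hi]; exact fun h => hne h.symm)
                  simp only [e]
                  exact hr s' (by omega)) (fun x => Fr s (x ij.1) ∧ Fr s' (x ij.2)) (by
                intro x hx i hi
                rw [Finset.mem_insert, Finset.mem_singleton] at hi
                rcases hi with hi | hi
                · have e : (if i = ij.1 then Fr s else Fr s') = Fr s := if_pos hi
                  simp only [e]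
                  rw [hi]; exact hx.1
                · have e : (if i = ij.1 then Fr s else Fr s') = Fr s' :=
                    if_neg (by rw [hi]; exact fun h => hne h.symm)
                  simp only [e]
                  rw [hi]; exact hx.2)
              rw [Finset.card_pair hne] at h3
              convert h3)
            (fun x => ∃ s' ≤ TN, s ≤ s' + W ∧ s' ≤ s + W ∧ Fr s (x ij.1) ∧
              Fr s' (x ij.2)) (by
              rintro x ⟨s', hs', h3, h4, h5⟩
              exact ⟨s', by rw [Finset.mem_filter, Finset.mem_range]; omega, h5⟩)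
          refine le_trans (le_trans (le_of_eq ?_) h2)
            (mul_le_mul_of_nonneg_right h0 (by positivity))
          congr!)
        (fun x => ∃ s ≤ TN, ∃ s' ≤ TN, s ≤ s' + W ∧ s' ≤ s + W ∧ Fr s (x ij.1) ∧
          Fr s' (x ij.2)) (by
          rintro x ⟨s, hs, h3⟩
          exact ⟨s, by rw [Finset.mem_range]; omega, h3⟩)
      rw [Finset.card_range] at h1
      push_cast at h1
      convert h1)
    (fun x => ∃ i j, i ≠ j ∧ ∃ s ≤ TN, ∃ s' ≤ TN, s ≤ s' + W ∧ s' ≤ s + W ∧ Fr s (x i) ∧
        Fr s' (x j)) (by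
      rintro x ⟨i, j, hij, h3⟩
      exact ⟨(i, j), by rw [Finset.mem_filter]; exact ⟨Finset.mem_univ _, hij⟩, h3⟩)
  exact h.trans (mul_le_mul_of_nonneg_right c4 (by positivity))

theorem union_bound {α : Type*} (S : Finset α) (k T M TN W : ℕ) (Bad : α → Prop)
    (Near Fr : ℕ → α → Prop) (ε q r : ℝ) (hε0 : 0 ≤ ε) (hq0 : 0 ≤ q) (hr0 : 0 ≤ r)
    (hε : ((S.filter Bad).card : ℝ) ≤ ε * S.card)
    (hq : ∀ a ≤ T, ((S.filter (Near a)).card : ℝ) ≤ q * S.card)
    (hr : ∀ s ≤ TN, ((S.filter (Fr s)).card : ℝ) ≤ r * S.card) :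
    (((Fintype.piFinset (fun _ : Fin k => S)).filter (fun x => (∃ i, Bad (x i)) ∨
      (∃ a ≤ T, M < (univ.filter (fun i => Near a (x i))).card) ∨
      (∃ i j, i ≠ j ∧ ∃ s ≤ TN, ∃ s' ≤ TN, s ≤ s' + W ∧ s' ≤ s + W ∧ Fr s (x i) ∧
        Fr s' (x j)))).card : ℝ) ≤
      ((k : ℝ) * ε + ((T : ℝ) + 1) * ((k : ℝ) * q) ^ (M + 1) +
        (k : ℝ) ^ 2 * ((TN : ℝ) + 1) * (2 * W + 1) * r ^ 2) * (S.card : ℝ) ^ k := by
  have b1 := ub_one S k Bad ε hε
  have b2 := ub_two S k T M Near q hq0 hq
  have b3 := ub_three S k TN W Fr r hr0 hr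
  set X := Fintype.piFinset (fun _ : Fin k => S) with hX
  have hsub : X.filter (fun x => (∃ i, Bad (x i)) ∨
      (∃ a ≤ T, M < (univ.filter (fun i => Near a (x i))).card) ∨
      (∃ i j, i ≠ j ∧ ∃ s ≤ TN, ∃ s' ≤ TN, s ≤ s' + W ∧ s' ≤ s + W ∧ Fr s (x i) ∧
        Fr s' (x j))) ⊆
      (X.filter (fun x => ∃ i, Bad (x i))) ∪
      ((X.filter (fun x => ∃ a ≤ T, M < (univ.filter (fun i => Near a (x i))).card)) ∪
      (X.filter (fun x => ∃ i j, i ≠ j ∧ ∃ s ≤ TN, ∃ s' ≤ TN, s ≤ s' + W ∧ s' ≤ s + W ∧
        Fr s (x i) ∧ Fr s' (x j)))) := by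
    intro x hx
    rw [Finset.mem_filter] at hx
    obtain ⟨hxX, h⟩ := hx
    rw [Finset.mem_union, Finset.mem_union, Finset.mem_filter, Finset.mem_filter,
      Finset.mem_filter]
    rcases h with h | h | h
    · exact Or.inl ⟨hxX, h⟩
    · exact Or.inr (Or.inl ⟨hxX, h⟩)
    · exact Or.inr (Or.inr ⟨hxX, h⟩)
  have h1 := (Finset.card_le_card hsub).trans ((Finset.card_union_le _ _).trans
    (Nat.add_le_add_left (Finset.card_union_le _ _) _))
  have h2 := (Nat.cast_le (α := ℝ)).mpr h1
  refine le_trans h2 ?_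
  push_cast
  have e1 : ((k : ℝ) * ε + ((T : ℝ) + 1) * ((k : ℝ) * q) ^ (M + 1) +
        (k : ℝ) ^ 2 * ((TN : ℝ) + 1) * (2 * W + 1) * r ^ 2) * (S.card : ℝ) ^ k =
      (k : ℝ) * (ε * (S.card : ℝ) ^ k) +
      (((T : ℝ) + 1) * ((k : ℝ) ^ (M + 1) * (q ^ (M + 1) * (S.card : ℝ) ^ k)) +
      (k : ℝ) ^ 2 * (((TN : ℝ) + 1) * ((2 * W + 1) * (r ^ 2 * (S.card : ℝ) ^ k)))) := by
    rw [mul_pow]; ring
  rw [e1]
  exact add_le_add b1 (add_le_add b2 b3)

end MP34e
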