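import Pool.Agent.Work.MP_34e428_co.Torus

/-! From the torus to the planar displacement walk; the general upper bound. -/

open Finset SimpleGraph
open scoped Classical

namespace MP34e

theorem sum_move {V : Type*} [Fintype V] (G : SimpleGraph V) (v u : V) (f : V → ℝ) :
    ∑ w, move G v u w * f w = ((closer G v u).card : ℝ)⁻¹ * ∑ w ∈ closer G v u, f w := by
  unfold move
  simp_rw [ite_mul, zero_mul]
  rw [Finset.sum_ite_mem, Finset.univ_inter, Finset.mul_sum]

theorem sum_move_one {V : Type*} [Fintype V] (G : SimpleGraph V) (v u w : V) (f : V → ℝ)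
    (h : closer G v u = {w}) : ∑ w, move G v u w * f w = f w := by
  rw [sum_move, h]; simp

theorem sum_move_two {V : Type*} [Fintype V] (G : SimpleGraph V) (v u w w' : V) (f : V → ℝ)
    (h : ∀ x, x ∈ closer G v u ↔ x = w ∨ x = w') (hne : w ≠ w') :
    ∑ w, move G v u w * f w = (f w + f w') / 2 := by
  have h' : closer G v u = {w, w'} := by
    ext x; rw [h]; simp
  rw [sum_move, h', Finset.card_pair hne, Finset.sum_pair hne]; ring

theorem legal_of_adj {n : ℕ} (hn : 2 ≤ n) (v v' : ZMod n × ZMod n)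
    (h : v' = v ∨ (tor n).Adj v v') : ∃ s, legal s ∧ v' = v + cz n s := by
  rw [tor_adj hn] at h
  rcases h with rfl | rfl | rfl | rfl | rfl
  · exact ⟨0, by simp [legal], by simp [cz]⟩
  · exact ⟨(1, 0), by simp [legal], rfl⟩
  · exact ⟨(-1, 0), by simp [legal], rfl⟩
  · exact ⟨(0, 1), by simp [legal], rfl⟩
  · exact ⟨(0, -1), by simp [legal], rfl⟩

theorem natAbs_hx (D : ℤ × ℤ) : (hx D).1.natAbs ≤ D.1.natAbs ∧ (hx D).2.natAbs = D.2.natAbs := by
  rw [hx_fst, hx_snd]
  refine ⟨?_, rfl⟩
  rcases lt_trichotomy D.1 0 with h | h | h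
  · rw [Int.sign_eq_neg_one_of_neg h]; omega
  · rw [h]; simp
  · rw [Int.sign_eq_one_of_pos h]; omega

theorem natAbs_hy (D : ℤ × ℤ) : (hy D).1.natAbs = D.1.natAbs ∧ (hy D).2.natAbs ≤ D.2.natAbs := by
  rw [hy_fst, hy_snd]
  refine ⟨rfl, ?_⟩
  rcases lt_trichotomy D.2 0 with h | h | h
  · rw [Int.sign_eq_neg_one_of_neg h]; omega
  · rw [h]; simp
  · rw [Int.sign_eq_one_of_pos h]; omega

theorem esc_eq {n : ℕ} [NeZero n] (hn : 2 ≤ n) (T : ℕ) (v : ZMod n × ZMod n)
    (l : List (ZMod n × ZMod n)) (hl : l ∈ paths (tor n) T v) :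
    ∃ s : List (ℤ × ℤ), s.length = T ∧ (∀ x ∈ s, legal x) ∧
      ∀ D : ℤ × ℤ, 2 * (D.1.natAbs + T + 1) ≤ n → 2 * (D.2.natAbs + T + 1) ≤ n →
        esc (tor n) l v (v - cz n D) = 1 - pc s D := by
  induction T generalizing v l with
  | zero =>
    refine ⟨[], rfl, by simp, ?_⟩
    intro D h1 h2
    have hl0 : l = [] := by simpa [paths] using hl
    subst hl0
    rw [esc, pc]
    have : v - cz n D = v ↔ D = 0 := by
      rw [sub_eq_self]
      exact cz_zero_iff D (by omega) (by omega)
    by_cases hD : D = 0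
    · rw [if_pos (this.2 hD), if_pos hD]; ring
    · rw [if_neg (fun h => hD (this.1 h)), if_neg hD]; ring
  | succ T ih =>
    obtain ⟨v', l', rfl, hv', hl'⟩ := mem_paths_succ _ _ _ _ hl
    obtain ⟨s, hs, rfl⟩ := legal_of_adj hn v v' hv'
    obtain ⟨t, ht1, ht2, ht3⟩ := ih _ l' hl'
    refine ⟨s :: t, by rw [List.length_cons, ht1], ?_, ?_⟩
    · intro x hx
      rcases List.mem_cons.1 hx with rfl | hx
      · exact hs
      · exact ht2 x hx
    intro D h1 h2
    have hiff : v - cz n D = v ↔ D = 0 := by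
      rw [sub_eq_self]
      exact cz_zero_iff D (by omega) (by omega)
    rw [esc, pc]
    by_cases hD : D = 0
    · rw [if_pos (hiff.2 hD), if_pos hD]; ring
    rw [if_neg (fun h => hD (hiff.1 h)), if_neg hD]
    have hs1 : s.1.natAbs ≤ 1 ∧ s.2.natAbs ≤ 1 := by
      unfold legal at hs
      have := abs_nonneg s.1
      have := abs_nonneg s.2
      rw [← Int.natCast_natAbs, ← Int.natCast_natAbs] at hs
      omega
    -- value after a move to displacement E
    have val : ∀ E : ℤ × ℤ, E.1.natAbs ≤ D.1.natAbs → E.2.natAbs ≤ D.2.natAbs →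
        (if v - cz n E = v then 0 else esc (tor n) l' (v + cz n s) (v - cz n E))
          = 1 - (if E = 0 then 1 else pc t (E + s)) := by
      intro E hE1 hE2
      have hiffE : v - cz n E = v ↔ E = 0 := by
        rw [sub_eq_self]
        exact cz_zero_iff E (by omega) (by omega)
      by_cases hE : E = 0
      · rw [if_pos (hiffE.2 hE), if_pos hE]; ring
      · rw [if_neg (fun h => hE (hiffE.1 h)), if_neg hE]
        have : v - cz n E = (v + cz n s) - cz n (E + s) := by
          rw [cz_add]; abel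
        rw [this]
        apply ht3
        · simp only [Prod.fst_add]
          have := Int.natAbs_add_le E.1 s.1
          omega
        · simp only [Prod.snd_add]
          have := Int.natAbs_add_le E.2 s.2
          omega
    have vx := val (hx D) (natAbs_hx D).1 (natAbs_hx D).2.le
    have vy := val (hy D) (natAbs_hy D).1.le (natAbs_hy D).2
    by_cases ha : D.1 = 0
    · have hb : D.2 ≠ 0 := fun h => hD (Prod.ext ha h)
      rw [if_pos ha, sum_move_one _ _ _ _ _ (closer_y hn v D (by omega) (by omega) ha hb)]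
      convert vy
    · rw [if_neg ha]
      by_cases hb : D.2 = 0
      · rw [if_pos hb, sum_move_one _ _ _ _ _ (closer_x hn v D (by omega) (by omega) ha hb)]
        convert vx
      · have e1 : hx D ≠ 0 := fun h => hb (congrArg Prod.snd h)
        have e2 : hy D ≠ 0 := fun h => ha (congrArg Prod.fst h)
        rw [if_neg hb, sum_move_two _ _ _ (v - cz n (hx D)) (v - cz n (hy D)) _ ?_
          (hx_ne_hy v D (by omega) (by omega) ha)]
        · rw [if_neg e1] at vx
          rw [if_neg e2] at vy
          have : 1 - (pc t (hx D + s) + pc t (hy D + s)) / 2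
              = ((1 - pc t (hx D + s)) + (1 - pc t (hy D + s))) / 2 := by ring
          rw [this, ← vx, ← vy]
          congr!
        · intro x
          rw [closer_xy hn v D (by omega) (by omega) ha hb]
          simp

theorem sum_esc_ge {n : ℕ} [NeZero n] (T : ℕ) (hT : 6 * T + 2 ≤ n) (v : ZMod n × ZMod n)
    (l : List (ZMod n × ZMod n)) (hl : l ∈ paths (tor n) T v) :
    ∃ s : List (ℤ × ℤ), s.length = T ∧ (∀ x ∈ s, legal x) ∧
      mass s ≤ ∑ u, (1 - esc (tor n) l v u) := by
  obtain ⟨s, h1, h2, h3⟩ := esc_eq (by omega) T v l hl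
  refine ⟨s, h1, h2, ?_⟩
  rw [mass_eq s h2 (2 * T) (by omega)]
  have hinj : Set.InjOn (fun D : ℤ × ℤ => v - cz n D) (box (2 * T) : Finset (ℤ × ℤ)) := by
    intro D hD E hE h
    simp only [sub_right_inj] at h
    rw [Finset.mem_coe, mem_box] at hD hE
    have h4 : cz n (D - E) = 0 := by
      have h5 : cz n D = cz n (D - E) + cz n E := by rw [← cz_add]; congr 1; ring
      rw [h5] at h
      simpa using h
    rw [cz_zero_iff] at h4
    · exact sub_eq_zero.1 h4
    · simp only [Prod.fst_sub]
      have a1 := hD.1; have a2 := hE.1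
      rw [abs_le] at a1 a2
      omega
    · simp only [Prod.snd_sub]
      have a1 := hD.2; have a2 := hE.2
      rw [abs_le] at a1 a2
      omega
  calc ∑ D ∈ box (2 * T), pc s D = ∑ D ∈ box (2 * T), (1 - esc (tor n) l v (v - cz n D)) := by
        refine Finset.sum_congr rfl fun D hD => ?_
        rw [mem_box] at hD
        have a1 := hD.1; have a2 := hD.2
        rw [abs_le] at a1 a2
        rw [h3 D (by omega) (by omega)]
        ring
    _ = ∑ u ∈ (box (2 * T)).image (fun D => v - cz n D), (1 - esc (tor n) l v u) := by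
        rw [Finset.sum_image hinj]
    _ ≤ ∑ u, (1 - esc (tor n) l v u) := by
        apply Finset.sum_le_sum_of_subset_of_nonneg (Finset.subset_univ _)
        intro u _ _
        linarith [esc_le_one (tor n) l v u]

theorem card_nb {n : ℕ} [NeZero n] (hn : 2 ≤ n) (v : ZMod n × ZMod n) :
    (nb (tor n) v).card ≤ 5 := by
  have : nb (tor n) v ⊆ {v, v + cz n (1, 0), v + cz n (-1, 0), v + cz n (0, 1),
      v + cz n (0, -1)} := by
    intro w hw
    rw [mem_nb, tor_adj hn] at hw
    simpa using hw
  exact (Finset.card_le_card this).trans Finset.card_le_five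

/-- The general upper bound: `S` is a lower bound for the capture mass of all paths of length
`T`. -/
theorem surv_tor_le {n : ℕ} [NeZero n] (k T : ℕ) (hT : 6 * T + 2 ≤ n) (S : ℝ)
    (hS : ∀ s : List (ℤ × ℤ), s.length = T → (∀ x ∈ s, legal x) → S ≤ mass s) :
    surv (tor n) k ≤ (n : ℝ) ^ 2 * 5 ^ T * (1 - S / (n : ℝ) ^ 2) ^ k := by
  have hcard : (Fintype.card (ZMod n × ZMod n) : ℝ) = (n : ℝ) ^ 2 := by
    rw [Fintype.card_prod, ZMod.card]; push_cast; ring
  have h := survT_le (tor n) k T 5 (fun v => card_nb (by omega) v) S (fun v l hl => by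
    obtain ⟨s, h1, h2, h3⟩ := sum_esc_ge T hT v l hl
    exact (hS s h1 h2).trans h3)
  rw [hcard] at h
  exact (surv_le_survT _ _ _).trans (by exact_mod_cast h)

end MP34e
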