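import Pool.Agent.Work.MP_34e428_co.LDefs
import Pool.Agent.Work.MP_34e428_co.Link
import Pool.Agent.Work.MP_34e428_co.GameLower

/-! The game value on the odd torus versus the coins model. -/

set_option autoImplicit false

open Finset SimpleGraph

namespace MP34e

/-! ### General graphs -/

section general

open scoped Classical

variable {V : Type*} [Fintype V] {k : ℕ} {M C : Type*}

theorem mem_closer_iff (G : SimpleGraph V) (v z w : V) :
    w ∈ closer G v z ↔ G.Adj z w ∧ G.dist w v + 1 = G.dist z v := by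
  simp [closer]

theorem val_le_one (G : SimpleGraph V) (T : ℕ) (z : Fin k → V) (v : V) : val G T z v ≤ 1 := by
  induction T generalizing z v with
  | zero => rw [val]; split_ifs <;> norm_num
  | succ T ih =>
    rw [val]
    split_ifs with h
    · norm_num
    · have h1 : ∀ z' : Fin k → V, (∏ i, move G v (z i) (z' i)) *
          (if ∃ i, z' i = v then 0 else ⨆ v' : {v' // v' = v ∨ G.Adj v v'}, val G T z' v')
          ≤ ∏ i, move G v (z i) (z' i) := by
        intro z'
        have hm : 0 ≤ ∏ i, move G v (z i) (z' i) :=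
          Finset.prod_nonneg fun i _ => move_nonneg _ _ _ _
        refine (mul_le_mul_of_nonneg_left ?_ hm).trans (mul_one _).le
        split_ifs with h'
        · norm_num
        · have hne : Nonempty {v' // v' = v ∨ G.Adj v v'} := ⟨⟨v, Or.inl rfl⟩⟩
          exact ciSup_le fun v' => ih z' v'
      refine (Finset.sum_le_sum fun z' _ => h1 z').trans ?_
      have h2 := Finset.prod_univ_sum (fun _ : Fin k => (univ : Finset V))
        (fun i w => move G v (z i) w)
      rw [Fintype.piFinset_univ] at h2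
      rw [← h2]
      exact Finset.prod_le_one (fun i _ => Finset.sum_nonneg fun w _ => move_nonneg _ _ _ _)
        (fun i _ => sum_move_le _ _ _)

theorem val_anti (G : SimpleGraph V) (T : ℕ) (z : Fin k → V) (v : V) :
    val G (T + 1) z v ≤ val G T z v := by
  induction T generalizing z v with
  | zero =>
    by_cases h : ∃ i, z i = v
    · have h1 : val G (0 + 1) z v = 0 := by
        rw [val]; exact if_pos h
      rw [h1]
      exact val_nonneg G _ _ _
    · refine (val_le_one G _ z v).trans ?_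
      rw [val, if_neg h]
  | succ T ih =>
    rw [val]
    conv_rhs => rw [val]
    split_ifs with h
    · rfl
    · refine Finset.sum_le_sum fun z' _ => ?_
      have hm : 0 ≤ ∏ i, move G v (z i) (z' i) :=
        Finset.prod_nonneg fun i _ => move_nonneg _ _ _ _
      apply mul_le_mul_of_nonneg_left _ hm
      split_ifs with h'
      · rfl
      · have hne : Nonempty {v' // v' = v ∨ G.Adj v v'} := ⟨⟨v, Or.inl rfl⟩⟩
        exact ciSup_mono (Set.finite_range _).bddAbove fun v' => ih z' v'

theorem survT_anti (G : SimpleGraph V) (k : ℕ) : Antitone (survT G k) := by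
  apply antitone_nat_of_succ_le
  intro T
  unfold survT
  apply div_le_div_of_nonneg_right _ (by positivity)
  refine Finset.sum_le_sum fun z _ => ?_
  rcases isEmpty_or_nonempty V with hV | hV
  · simp
  · exact ciSup_mono (Set.finite_range _).bddAbove fun v => val_anti G T z v

theorem alive_fin_le_val [Fintype C] [Nonempty C] (G : SimpleGraph V) (step : C → V → V → V)
    (hs : Realises G step) (σ : Rule V k M) (hσ : σ.Legal G) (F : St V k M → Prop) (T' : ℕ)
    (hF : ∀ s, F s → 1 ≤ val G T' s.zs s.sv) (T : ℕ) (s : St V k M) :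
    ∑ c : Fin T → Fin k → C,
        (if σ.Alive step s (ext c) T ∧ F (σ.run step s (ext c) T) then (1 : ℝ) else 0)
      ≤ ((Fintype.card C : ℝ) ^ k) ^ T * val G (T + T') s.zs s.sv := by
  induction T generalizing s with
  | zero =>
    rw [pow_zero, one_mul, zero_add]
    have : ∀ c : Fin 0 → Fin k → C,
        (if σ.Alive step s (ext c) 0 ∧ F (σ.run step s (ext c) 0) then (1 : ℝ) else 0)
        ≤ val G T' s.zs s.sv := by
      intro c
      split_ifs with h
      · exact hF s h.2
      · exact val_nonneg _ _ _ _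
    calc _ ≤ ∑ c : Fin 0 → Fin k → C, val G T' s.zs s.sv := Finset.sum_le_sum fun c _ => this c
      _ = _ := by simp
  | succ T ih =>
    have hTT : T + 1 + T' = (T + T') + 1 := by ring
    rw [hTT, val]
    by_cases h : ∃ i, s.zs i = s.sv
    · rw [if_pos h, mul_zero]
      apply le_of_eq
      apply Finset.sum_eq_zero
      intro c _
      rw [if_neg]
      rintro ⟨⟨h1, _⟩, _⟩
      obtain ⟨i, hi⟩ := h
      exact h1 0 (by omega) i hi
    · rw [if_neg h]
      push Not at h
      have e1 : ∑ c : Fin (T + 1) → Fin k → C,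
          (if σ.Alive step s (ext c) (T + 1) ∧ F (σ.run step s (ext c) (T + 1))
            then (1 : ℝ) else 0)
          = ∑ x : Fin k → C, ∑ c : Fin T → Fin k → C,
            (if (∀ i, step (x i) (s.zs i) s.sv ≠ s.sv) ∧
              (σ.Alive step (σ.next step x s) (ext c) T ∧
                F (σ.run step (σ.next step x s) (ext c) T)) then (1 : ℝ) else 0) := by
        rw [← (Fin.consEquiv fun _ : Fin (T + 1) => Fin k → C).sum_comp, Fintype.sum_prod_type]
        refine Finset.sum_congr rfl fun x _ => ?_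
        refine Finset.sum_congr rfl fun c _ => ?_
        have e2 := ext_cons x c
        congr 1
        rw [eq_iff_iff]
        change σ.Alive step s (ext (Fin.cons x c : Fin (T + 1) → Fin k → C)) (T + 1) ∧
          F (σ.run step s (ext (Fin.cons x c : Fin (T + 1) → Fin k → C)) (T + 1)) ↔ _
        rw [Rule.alive_succ, Rule.run_succ', e2.1, e2.2]
        constructor
        · rintro ⟨⟨_, h2, h3⟩, h4⟩; exact ⟨h2, h3, h4⟩
        · rintro ⟨h2, h3, h4⟩; exact ⟨⟨h, h2, h3⟩, h4⟩
      rw [e1]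
      have e3 : ∀ x : Fin k → C, ∑ c : Fin T → Fin k → C,
            (if (∀ i, step (x i) (s.zs i) s.sv ≠ s.sv) ∧
              (σ.Alive step (σ.next step x s) (ext c) T ∧
                F (σ.run step (σ.next step x s) (ext c) T)) then (1 : ℝ) else 0)
          ≤ ((Fintype.card C : ℝ) ^ k) ^ T * (if ∃ i, step (x i) (s.zs i) s.sv = s.sv then 0 else
              ⨆ v' : {v' // v' = s.sv ∨ G.Adj s.sv v'},
                val G (T + T') (fun i => step (x i) (s.zs i) s.sv) v') := by
        intro x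
        by_cases hx : ∃ i, step (x i) (s.zs i) s.sv = s.sv
        · rw [if_pos hx, mul_zero]
          apply le_of_eq
          apply Finset.sum_eq_zero
          intro c _
          rw [if_neg]
          rintro ⟨h1, _⟩
          obtain ⟨i, hi⟩ := hx
          exact h1 i hi
        · rw [if_neg hx]
          push Not at hx
          have e4 : ∀ c : Fin T → Fin k → C,
              (if (∀ i, step (x i) (s.zs i) s.sv ≠ s.sv) ∧
                (σ.Alive step (σ.next step x s) (ext c) T ∧
                  F (σ.run step (σ.next step x s) (ext c) T)) then (1 : ℝ) else 0)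
              = if σ.Alive step (σ.next step x s) (ext c) T ∧
                  F (σ.run step (σ.next step x s) (ext c) T) then (1 : ℝ) else 0 := by
            intro c
            simp [hx]
          simp_rw [e4]
          refine (ih (σ.next step x s)).trans ?_
          apply mul_le_mul_of_nonneg_left _ (by positivity)
          have hbdd : BddAbove (Set.range fun v' : {v' // v' = s.sv ∨ G.Adj s.sv v'} =>
              val G (T + T') (fun i => step (x i) (s.zs i) s.sv) v') :=
            Set.finite_range _ |>.bddAbove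
          have hl := hσ s.mem (fun i => step (x i) (s.zs i) s.sv) s.sv
          exact le_ciSup hbdd ⟨_, hl⟩
      refine (Finset.sum_le_sum fun x _ => e3 x).trans (le_of_eq ?_)
      rw [← Finset.mul_sum]
      have e5 := sum_step_prod G step hs s.zs s.sv h (fun z' => if ∃ i, z' i = s.sv then 0 else
              ⨆ v' : {v' // v' = s.sv ∨ G.Adj s.sv v'}, val G (T + T') z' v')
      rw [e5, pow_succ]
      ring

theorem alive_fin_le_survT [Fintype C] [Nonempty C] [Nonempty V] (G : SimpleGraph V)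
    (step : C → V → V → V) (hs : Realises G step) (σ : Rule V k M) (hσ : σ.Legal G)
    (F : St V k M → Prop) (T' : ℕ) (hF : ∀ s, F s → 1 ≤ val G T' s.zs s.sv) (T : ℕ) (m0 : M)
    (v0 : V) :
    (∑ ω : Fin k → V × (Fin T → C),
        if σ.Alive step ⟨m0, fun i => (ω i).1, v0⟩ (fun t i => ext (ω i).2 t) T ∧
          F (σ.run step ⟨m0, fun i => (ω i).1, v0⟩ (fun t i => ext (ω i).2 t) T)
        then (1 : ℝ) else 0)
      / ((Fintype.card V : ℝ) * (Fintype.card C : ℝ) ^ T) ^ k ≤ survT G k (T + T') := by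
  have hV : (0 : ℝ) < Fintype.card V := by exact_mod_cast Fintype.card_pos
  have hC : (0 : ℝ) < Fintype.card C := by exact_mod_cast Fintype.card_pos
  have hval1 : ∀ z v, val G (T + T') z v ≤ ⨆ v, val (k := k) G (T + T') z v := fun z v =>
    le_ciSup (f := fun v => val G (T + T') z v) (Set.finite_range _).bddAbove v
  let e : (Fin k → V × (Fin T → C)) ≃ (Fin k → V) × (Fin T → Fin k → C) :=
    (Equiv.arrowProdEquivProdArrow _ _ _).trans
      (Equiv.prodCongr (Equiv.refl _) (Equiv.piComm fun _ _ => C))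
  have h1 : (∑ ω : Fin k → V × (Fin T → C),
        if σ.Alive step ⟨m0, fun i => (ω i).1, v0⟩ (fun t i => ext (ω i).2 t) T ∧
          F (σ.run step ⟨m0, fun i => (ω i).1, v0⟩ (fun t i => ext (ω i).2 t) T)
        then (1 : ℝ) else 0)
      = ∑ z : Fin k → V, ∑ c : Fin T → Fin k → C,
        if σ.Alive step ⟨m0, z, v0⟩ (ext c) T ∧ F (σ.run step ⟨m0, z, v0⟩ (ext c) T)
        then (1 : ℝ) else 0 := by
    rw [← e.symm.sum_comp, Fintype.sum_prod_type]
    refine Finset.sum_congr rfl fun z _ => ?_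
    refine Finset.sum_congr rfl fun c _ => ?_
    congr 1
    rw [eq_iff_iff]
    have e2 : (fun i => (e.symm (z, c) i).1) = z := rfl
    have e3 : ∀ i, (e.symm (z, c) i).2 = fun t => c t i := fun i => rfl
    have e4 : ∀ j < T, (fun i => ext (e.symm (z, c) i).2 j) = ext c j := by
      intro j hj
      funext i
      rw [e3]
      unfold ext
      rw [dif_pos hj, dif_pos hj]
    rw [e2, Rule.run_congr σ step ⟨m0, z, v0⟩ (fun t i => ext (e.symm (z, c) i).2 t) (ext c) T e4,
      Rule.alive_congr σ step ⟨m0, z, v0⟩ (fun t i => ext (e.symm (z, c) i).2 t) (ext c) T e4]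
  rw [h1, mul_pow, ← div_div]
  unfold survT
  rw [div_div, mul_comm, ← div_div]
  apply div_le_div_of_nonneg_right _ (by positivity)
  rw [div_le_iff₀ (by positivity), Finset.sum_mul]
  refine Finset.sum_le_sum fun z _ => ?_
  refine (alive_fin_le_val G step hs σ hσ F T' hF T ⟨m0, z, v0⟩).trans ?_
  rw [mul_comm, ← pow_mul, ← pow_mul, mul_comm k T]
  exact mul_le_mul_of_nonneg_right (hval1 z v0) (by positivity)

end general

/-! ### The odd torus -/

theorem natAbs_of_mem_box {K : ℕ} {D : ℤ × ℤ} (h : D ∈ box K) :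
    D.1.natAbs ≤ K ∧ D.2.natAbs ≤ K := by
  rw [mem_box, abs_le, abs_le] at h
  omega

/-- displacement of a zombie at `z` seen from a survivor at `v` -/
noncomputable def dsp (n : ℕ) (z v : ZMod n × ZMod n) : ℤ × ℤ :=
  ((v - z).1.valMinAbs, (v - z).2.valMinAbs)

theorem cz_dsp (n : ℕ) (z v : ZMod n × ZMod n) : cz n (dsp n z v) = v - z := by
  unfold cz dsp
  simp
  rfl

theorem dsp_eq {K : ℕ} {D : ℤ × ℤ} (h : D ∈ box K) (v : ZMod (2 * K + 1) × ZMod (2 * K + 1)) :
    dsp (2 * K + 1) (v - cz (2 * K + 1) D) v = D := by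
  obtain ⟨h1, h2⟩ := natAbs_of_mem_box h
  unfold dsp
  rw [sub_sub_cancel]
  unfold cz
  have e1 : ((D.1 : ZMod (2 * K + 1))).valMinAbs = D.1 := by
    rw [ZMod.valMinAbs_spec]
    refine ⟨rfl, ?_⟩
    rw [Set.mem_Ioc]
    push_cast
    omega
  have e2 : ((D.2 : ZMod (2 * K + 1))).valMinAbs = D.2 := by
    rw [ZMod.valMinAbs_spec]
    refine ⟨rfl, ?_⟩
    rw [Set.mem_Ioc]
    push_cast
    omega
  exact Prod.ext e1 e2

theorem dsp_mem_box {K : ℕ} (z v : ZMod (2 * K + 1) × ZMod (2 * K + 1)) :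
    dsp (2 * K + 1) z v ∈ box K := by
  have key : ∀ x : ZMod (2 * K + 1), |x.valMinAbs| ≤ K := by
    intro x
    have := ZMod.valMinAbs_mem_Ioc x
    rw [Set.mem_Ioc] at this
    push_cast at this
    rw [abs_le]
    omega
  rw [mem_box]
  exact ⟨key _, key _⟩

/-- a coin realises the zombie move -/
noncomputable def stp (n : ℕ) (c : Bool) (z v : ZMod n × ZMod n) : ZMod n × ZMod n :=
  v - cz n (zm c (dsp n z v))

theorem cz_neg_wrap (K : ℕ) (a : ℤ) :
    ((a : ℤ) : ZMod (2 * K + 1)) = ((a + (2 * K + 1) : ℤ) : ZMod (2 * K + 1)) := by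
  have h : (((2 * K + 1 : ℕ) : ZMod (2 * K + 1))) = 0 := ZMod.natCast_self _
  push_cast at h ⊢
  rw [h]; ring

/-- distance to the survivor after a unit move -/
theorem tor_dist_unit {K : ℕ} (hK : 1 ≤ K) (z : ZMod (2 * K + 1) × ZMod (2 * K + 1)) (D s : ℤ × ℤ)
    (hD : D ∈ box K) (hs1 : s.1.natAbs ≤ 1) (hs2 : s.2.natAbs ≤ 1) :
    (tor (2 * K + 1)).dist (z + cz (2 * K + 1) s) (z + cz (2 * K + 1) D)
      = min (D.1 - s.1).natAbs K + min (D.2 - s.2).natAbs K := by
  obtain ⟨h1, h2⟩ := natAbs_of_mem_box hD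
  have key : ∀ a : ℤ, a.natAbs ≤ K + 1 → ∃ a' : ℤ, a'.natAbs = min a.natAbs K ∧
      ((a : ℤ) : ZMod (2 * K + 1)) = ((a' : ℤ) : ZMod (2 * K + 1)) := by
    intro a ha
    by_cases h : a.natAbs ≤ K
    · exact ⟨a, by omega, rfl⟩
    · rcases le_total 0 a with h0 | h0
      · refine ⟨a - (2 * K + 1), by omega, ?_⟩
        rw [cz_neg_wrap K (a - (2 * K + 1))]
        congr 1; ring
      · exact ⟨a + (2 * K + 1), by omega, cz_neg_wrap K a⟩
  obtain ⟨a, ha1, ha2⟩ := key (D.1 - s.1) (by omega)
  obtain ⟨b, hb1, hb2⟩ := key (D.2 - s.2) (by omega)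
  have : z + cz (2 * K + 1) D = (z + cz (2 * K + 1) s) + cz (2 * K + 1) (a, b) := by
    rw [add_assoc]
    congr 1
    unfold cz
    simp only [Prod.mk_add_mk]
    rw [← ha2, ← hb2]
    push_cast
    ext <;> simp
  rw [this, tor_dist (by omega) _ (a, b) (by simp only; omega) (by simp only; omega)]
  simp only [ha1, hb1]

theorem mem_closer_odd {K : ℕ} (hK : 1 ≤ K) (z w : ZMod (2 * K + 1) × ZMod (2 * K + 1))
    (D : ℤ × ℤ) (hD : D ∈ box K) :
    w ∈ closer (tor (2 * K + 1)) (z + cz (2 * K + 1) D) z ↔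
      (D.1 ≠ 0 ∧ w = z + cz (2 * K + 1) (D.1.sign, 0)) ∨
      (D.2 ≠ 0 ∧ w = z + cz (2 * K + 1) (0, D.2.sign)) := by
  obtain ⟨h1, h2⟩ := natAbs_of_mem_box hD
  rw [mem_closer_iff, tor_adj (by omega), tor_dist (by omega) z D (by omega) (by omega)]
  have key := fun s hs1 hs2 => tor_dist_unit hK z D s hD hs1 hs2
  constructor
  · rintro ⟨h, hd⟩
    rcases h with rfl | rfl | rfl | rfl
    · rw [key (1, 0) (by simp) (by simp)] at hd
      have h3 : 0 < D.1 := by simp only at hd; omega
      left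
      exact ⟨by omega, by rw [Int.sign_eq_one_of_pos h3]⟩
    · rw [key (-1, 0) (by simp) (by simp)] at hd
      have h3 : D.1 < 0 := by simp only at hd; omega
      left
      exact ⟨by omega, by rw [Int.sign_eq_neg_one_of_neg h3]⟩
    · rw [key (0, 1) (by simp) (by simp)] at hd
      have h3 : 0 < D.2 := by simp only at hd; omega
      right
      exact ⟨by omega, by rw [Int.sign_eq_one_of_pos h3]⟩
    · rw [key (0, -1) (by simp) (by simp)] at hd
      have h3 : D.2 < 0 := by simp only at hd; omega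
      right
      exact ⟨by omega, by rw [Int.sign_eq_neg_one_of_neg h3]⟩
  · rintro (⟨h, rfl⟩ | ⟨h, rfl⟩)
    · rcases lt_or_gt_of_ne h with h3 | h3
      · rw [Int.sign_eq_neg_one_of_neg h3]
        refine ⟨by simp, ?_⟩
        rw [key (-1, 0) (by simp) (by simp)]
        simp only; omega
      · rw [Int.sign_eq_one_of_pos h3]
        refine ⟨by simp, ?_⟩
        rw [key (1, 0) (by simp) (by simp)]
        simp only; omega
    · rcases lt_or_gt_of_ne h with h3 | h3
      · rw [Int.sign_eq_neg_one_of_neg h3]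
        refine ⟨by simp, ?_⟩
        rw [key (0, -1) (by simp) (by simp)]
        simp only; omega
      · rw [Int.sign_eq_one_of_pos h3]
        refine ⟨by simp, ?_⟩
        rw [key (0, 1) (by simp) (by simp)]
        simp only; omega

theorem mem_closer_dsp {K : ℕ} (hK : 1 ≤ K) (z v w : ZMod (2 * K + 1) × ZMod (2 * K + 1)) :
    w ∈ closer (tor (2 * K + 1)) v z ↔
      ((dsp (2 * K + 1) z v).1 ≠ 0 ∧ w = v - cz (2 * K + 1) (hx (dsp (2 * K + 1) z v))) ∨
      ((dsp (2 * K + 1) z v).2 ≠ 0 ∧ w = v - cz (2 * K + 1) (hy (dsp (2 * K + 1) z v))) := by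
  have h1 := mem_closer_odd hK z w (dsp (2 * K + 1) z v) (dsp_mem_box z v)
  have h2 : z + cz (2 * K + 1) (dsp (2 * K + 1) z v) = v := by rw [cz_dsp]; abel
  have h3 : v - cz (2 * K + 1) (dsp (2 * K + 1) z v) = z := by rw [cz_dsp]; abel
  rw [h2] at h1
  rw [h1]
  have e1 := sub_hx (2 * K + 1) v (dsp (2 * K + 1) z v)
  have e2 := sub_hy (2 * K + 1) v (dsp (2 * K + 1) z v)
  rw [h3] at e1 e2
  rw [e1, e2]

theorem cz_eq_iff {K : ℕ} {D E : ℤ × ℤ} (hD : D ∈ box K) (hE : E ∈ box K) :
    cz (2 * K + 1) D = cz (2 * K + 1) E ↔ D = E := by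
  constructor
  · intro h
    have h1 := dsp_eq hD (0 : ZMod (2 * K + 1) × ZMod (2 * K + 1))
    have h2 := dsp_eq hE (0 : ZMod (2 * K + 1) × ZMod (2 * K + 1))
    rw [h] at h1
    rw [← h1, h2]
  · rintro rfl; rfl

theorem hx_mem_box {K : ℕ} {D : ℤ × ℤ} (h : D ∈ box K) : hx D ∈ box K := by
  have h1 := natAbs_of_mem_box h
  have h2 := natAbs_hx D
  rw [mem_box, abs_le, abs_le]
  omega

theorem hy_mem_box {K : ℕ} {D : ℤ × ℤ} (h : D ∈ box K) : hy D ∈ box K := by
  have h1 := natAbs_of_mem_box h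
  have h2 := natAbs_hy D
  rw [mem_box, abs_le, abs_le]
  omega

theorem zm_mem_box {K : ℕ} {D : ℤ × ℤ} (h : D ∈ box K) (c : Bool) : zm c D ∈ box K := by
  unfold zm
  split_ifs
  · exact hy_mem_box h
  · exact hx_mem_box h
  · exact hx_mem_box h
  · exact hy_mem_box h

theorem wr_abs {K : ℕ} {a : ℤ} (h : |a| ≤ K) : |wr K (a + 1)| ≤ K := by
  unfold wr
  rw [abs_le] at h ⊢
  split_ifs <;> constructor <;> omega

theorem sm_mem_box {K : ℕ} {D : ℤ × ℤ} (h : D ∈ box K) (e : Bool) : sm K e D ∈ box K := by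
  rw [mem_box] at h
  unfold sm
  split_ifs
  · rw [mem_box]; exact ⟨wr_abs h.1, h.2⟩
  · rw [mem_box]; exact ⟨h.1, wr_abs h.2⟩

theorem wr_cast (K : ℕ) (a : ℤ) :
    ((wr K a : ℤ) : ZMod (2 * K + 1)) = ((a : ℤ) : ZMod (2 * K + 1)) := by
  unfold wr
  split_ifs
  · rw [cz_neg_wrap K (a - (2 * K + 1))]
    congr 1; ring
  · rfl

/-- displacement vector of the survivor move -/
def ev (e : Bool) : ℤ × ℤ := if e then (1, 0) else (0, 1)

theorem cz_sm (K : ℕ) (e : Bool) (D : ℤ × ℤ) :
    cz (2 * K + 1) (sm K e D) = cz (2 * K + 1) (D + ev e) := by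
  unfold cz sm ev
  cases e
  · simp [wr_cast]
  · simp [wr_cast]

open scoped Classical in
theorem card_bool_filter (P : Bool → Prop) [DecidablePred P] :
    ((univ.filter P).card : ℝ) = (if P true then 1 else 0) + (if P false then 1 else 0) := by
  have : (univ : Finset Bool) = {true, false} := rfl
  rw [this, Finset.filter_insert, Finset.filter_singleton]
  by_cases h1 : P true <;> by_cases h2 : P false <;> simp [h1, h2]
  norm_num

theorem realises_stp {K : ℕ} (hK : 1 ≤ K) :
    Realises (tor (2 * K + 1)) (stp (2 * K + 1)) := by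
  intro v z w hzv
  have hbox := dsp_mem_box z v
  have hD0 : dsp (2 * K + 1) z v ≠ 0 := by
    intro h
    have h1 := cz_dsp (2 * K + 1) z v
    rw [h] at h1
    have h2 : cz (2 * K + 1) 0 = 0 := by simp [cz]
    rw [h2] at h1
    exact hzv (sub_eq_zero.1 h1.symm).symm
  have hcard : (Fintype.card Bool : ℝ) = 2 := by simp
  rw [hcard]
  set D := dsp (2 * K + 1) z v with hD
  have hmem := fun w => mem_closer_dsp hK z v w
  rw [← hD] at hmem
  unfold move stp
  rw [← hD]
  by_cases ha : D.1 = 0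
  · have hb : D.2 ≠ 0 := fun h => hD0 (Prod.ext ha h)
    have hc : closer (tor (2 * K + 1)) v z = {v - cz (2 * K + 1) (hy D)} := by
      ext x; rw [hmem, Finset.mem_singleton]; simp [ha, hb]
    rw [hc]
    have hz : ∀ c : Bool, zm c D = hy D := fun c => by unfold zm; rw [if_pos ha]
    simp_rw [hz]
    by_cases hw : v - cz (2 * K + 1) (hy D) = w
    · subst hw; simp
    · have : w ∉ ({v - cz (2 * K + 1) (hy D)} : Finset _) := by
        rw [Finset.mem_singleton]; exact fun h => hw h.symm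
      rw [if_neg this]
      simp [hw]
  · by_cases hb : D.2 = 0
    · have hc : closer (tor (2 * K + 1)) v z = {v - cz (2 * K + 1) (hx D)} := by
        ext x; rw [hmem, Finset.mem_singleton]; simp [ha, hb]
      rw [hc]
      have hz : ∀ c : Bool, zm c D = hx D := fun c => by unfold zm; rw [if_neg ha, if_pos hb]
      simp_rw [hz]
      by_cases hw : v - cz (2 * K + 1) (hx D) = w
      · subst hw; simp
      · have : w ∉ ({v - cz (2 * K + 1) (hx D)} : Finset _) := by
          rw [Finset.mem_singleton]; exact fun h => hw h.symm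
        rw [if_neg this]
        simp [hw]
    · have hne : v - cz (2 * K + 1) (hx D) ≠ v - cz (2 * K + 1) (hy D) := by
        intro h
        have h1 : cz (2 * K + 1) (hx D) = cz (2 * K + 1) (hy D) := by
          have := congrArg (fun x => v - x) h
          simpa using this
        rw [cz_eq_iff (hx_mem_box hbox) (hy_mem_box hbox)] at h1
        have h2 := congrArg Prod.fst h1
        rw [hx_fst, hy_fst] at h2
        have : D.1.sign = 0 := by omega
        rw [Int.sign_eq_zero_iff_zero] at this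
        exact ha this
      have hc : closer (tor (2 * K + 1)) v z
          = {v - cz (2 * K + 1) (hx D), v - cz (2 * K + 1) (hy D)} := by
        ext x; rw [hmem, Finset.mem_insert, Finset.mem_singleton]; simp [ha, hb]
      rw [hc, Finset.card_pair hne]
      have hz1 : zm true D = hx D := by unfold zm; rw [if_neg ha, if_neg hb, if_pos rfl]
      have hz2 : zm false D = hy D := by unfold zm; rw [if_neg ha, if_neg hb]; simp
      rw [card_bool_filter, hz1, hz2]
      by_cases h1 : w = v - cz (2 * K + 1) (hx D)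
      · have h2 : ¬ (v - cz (2 * K + 1) (hy D) = w) := by rw [h1]; exact fun h => hne h.symm
        rw [if_pos h1.symm, if_neg h2, if_pos (by simp [h1])]
        norm_num
      · by_cases h2 : w = v - cz (2 * K + 1) (hy D)
        · rw [if_neg (fun h => h1 h.symm), if_pos h2.symm, if_pos (by simp [h2])]
          norm_num
        · rw [if_neg (fun h => h1 h.symm), if_neg (fun h => h2 h.symm), if_neg (by simp [h1, h2])]
          norm_num

theorem hx_ds {D : ℤ × ℤ} (h : D.1 ≠ 0) : ds (hx D) = ds D - 1 := by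
  unfold ds
  rw [hx_fst, hx_snd, abs_sub_sign _ h]; ring

theorem hy_ds {D : ℤ × ℤ} (h : D.2 ≠ 0) : ds (hy D) = ds D - 1 := by
  unfold ds
  rw [hy_fst, hy_snd, abs_sub_sign _ h]; ring

theorem zm_ds {D : ℤ × ℤ} (h : D ≠ 0) (c : Bool) : ds (zm c D) = ds D - 1 := by
  unfold zm
  split_ifs with h1 h2 h3
  · apply hy_ds
    intro h2; exact h (Prod.ext h1 h2)
  · exact hx_ds h1
  · exact hx_ds h1
  · exact hy_ds h2

theorem zm_ne_zero {D : ℤ × ℤ} (h : 2 ≤ ds D) (c : Bool) : zm c D ≠ 0 := by
  have h0 : D ≠ 0 := by rintro rfl; simp [ds] at h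
  intro h1
  have h2 := zm_ds h0 c
  rw [h1] at h2
  have h3 : ds 0 = 0 := by simp [ds]
  rw [h3] at h2
  omega

theorem dsp_stp {K : ℕ} (c : Bool) (z v : ZMod (2 * K + 1) × ZMod (2 * K + 1)) :
    dsp (2 * K + 1) (stp (2 * K + 1) c z v) v = zm c (dsp (2 * K + 1) z v) :=
  dsp_eq (zm_mem_box (dsp_mem_box z v) c) v

theorem dsp_step {K : ℕ} (e : Bool) (z v : ZMod (2 * K + 1) × ZMod (2 * K + 1)) :
    dsp (2 * K + 1) z (v + cz (2 * K + 1) (ev e)) = sm K e (dsp (2 * K + 1) z v) := by
  have h1 : z = (v + cz (2 * K + 1) (ev e)) - cz (2 * K + 1) (sm K e (dsp (2 * K + 1) z v)) := by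
    rw [cz_sm, cz_add, cz_dsp]; abel
  conv_lhs => rw [h1]
  exact dsp_eq (sm_mem_box (dsp_mem_box z v) e) _

theorem adj_ev {n : ℕ} (hn : 2 ≤ n) (v : ZMod n × ZMod n) (e : Bool) :
    (tor n).Adj v (v + cz n (ev e)) := by
  rw [tor_adj hn]
  unfold ev
  cases e <;> simp

theorem ne_of_ds {K : ℕ} (z v : ZMod (2 * K + 1) × ZMod (2 * K + 1))
    (h : dsp (2 * K + 1) z v ≠ 0) : z ≠ v := by
  rintro rfl
  apply h
  unfold dsp
  rw [sub_self]
  simp

/-! ### Safe positions -/

theorem safe_step {K : ℕ} {D : ℤ × ℤ} (h : Safe K D) (c : Bool) :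
    zm c D ≠ 0 ∧ Safe K (sm K true (zm c D)) := by
  obtain ⟨h1, h2, h3, h4⟩ := h
  have hds : ds D = D.1 + D.2 := by
    unfold ds; rw [abs_of_nonneg h1, abs_of_nonneg h2]
  refine ⟨zm_ne_zero (by omega) c, ?_⟩
  have key : ∀ q : ℤ × ℤ, 0 ≤ q.1 → 0 ≤ q.2 → q.1 + q.2 = D.1 + D.2 - 1 →
      Safe K (sm K true q) := by
    intro q hq1 hq2 hq3
    unfold sm wr
    rw [if_pos rfl, if_neg (by omega)]
    refine ⟨by simp only; omega, by simp only; omega, by simp only; omega, by simp only; omega⟩
  have kx : D.1 ≠ 0 → Safe K (sm K true (hx D)) := by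
    intro h0
    have hs : D.1.sign = 1 := Int.sign_eq_one_of_pos (by omega)
    apply key
    · rw [hx_fst, hs]; omega
    · rw [hx_snd]; exact h2
    · rw [hx_fst, hx_snd, hs]; ring
  have ky : D.2 ≠ 0 → Safe K (sm K true (hy D)) := by
    intro h0
    have hs : D.2.sign = 1 := Int.sign_eq_one_of_pos (by omega)
    apply key
    · rw [hy_fst]; exact h1
    · rw [hy_snd, hs]; omega
    · rw [hy_fst, hy_snd, hs]; ring
  unfold zm
  split_ifs with g1 g2 g3
  · apply ky; omega
  · exact kx g1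
  · exact kx g1
  · exact ky g2

/-- the survivor who always moves east -/
noncomputable def eastRule (K k : ℕ) : Rule (ZMod (2 * K + 1) × ZMod (2 * K + 1)) k Unit where
  act _ _ v := (v + cz (2 * K + 1) (ev true), ())

theorem safe_run {K k : ℕ} (s : St (ZMod (2 * K + 1) × ZMod (2 * K + 1)) k Unit)
    (hs : ∀ i, Safe K (dsp (2 * K + 1) (s.zs i) s.sv)) (ξ : ℕ → Fin k → Bool) (t : ℕ) (i : Fin k) :
    Safe K (dsp (2 * K + 1) (((eastRule K k).run (stp (2 * K + 1)) s ξ t).zs i)
      ((eastRule K k).run (stp (2 * K + 1)) s ξ t).sv) := by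
  induction t with
  | zero => exact hs i
  | succ t ih =>
    have h := (safe_step ih (ξ t i)).2
    rw [← dsp_stp, ← dsp_step] at h
    exact h

theorem val_safe {K k : ℕ} (hK : 1 ≤ K) (T' : ℕ) (z : Fin k → ZMod (2 * K + 1) × ZMod (2 * K + 1))
    (v : ZMod (2 * K + 1) × ZMod (2 * K + 1)) (hs : ∀ i, Safe K (dsp (2 * K + 1) (z i) v)) :
    1 ≤ val (tor (2 * K + 1)) T' z v := by
  classical
  have hσ : (eastRule K k).Legal (tor (2 * K + 1)) := by
    intro m z v
    right
    exact adj_ev (by omega) v true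
  have h1 := alive_le_val (tor (2 * K + 1)) (stp (2 * K + 1)) (realises_stp hK) (eastRule K k) hσ T'
    ⟨(), z, v⟩
  have h2 : ∀ c : Fin T' → Fin k → Bool, (eastRule K k).Alive (stp (2 * K + 1)) ⟨(), z, v⟩
      (ext c) T' := by
    intro c
    have hr := safe_run (⟨(), z, v⟩ : St _ k Unit) hs (ext c)
    refine ⟨fun t _ i => ?_, fun t _ i => ?_⟩
    · apply ne_of_ds
      intro h0
      have := (hr t i).2.2.1
      rw [h0] at this
      simp at this
    · apply ne_of_ds
      have h3 := (safe_step (hr t i) (ext c t i)).1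
      rw [← dsp_stp] at h3
      exact h3
  have h3 : ∑ c : Fin T' → Fin k → Bool,
      (if (eastRule K k).Alive (stp (2 * K + 1)) ⟨(), z, v⟩ (ext c) T' then (1 : ℝ) else 0)
      = ((Fintype.card Bool : ℝ) ^ k) ^ T' := by
    rw [Finset.sum_congr rfl fun c _ => if_pos (h2 c)]
    simp
  have h4 : (0 : ℝ) < ((Fintype.card Bool : ℝ) ^ k) ^ T' := by positivity
  have h5 : ((Fintype.card Bool : ℝ) ^ k) ^ T' * 1
      ≤ ((Fintype.card Bool : ℝ) ^ k) ^ T' * val (tor (2 * K + 1)) T' z v := by
    rw [mul_one]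
    refine le_trans (le_of_eq ?_) h1
    rw [← h3]
  exact le_of_mul_le_mul_left h5 h4

/-! ### The strategy -/

/-- the rule of the survivor on the torus -/
noncomputable def zrule (K R L₁ k : ℕ) : Rule (ZMod (2 * K + 1) × ZMod (2 * K + 1)) k Mem where
  act m z v :=
    (v + cz (2 * K + 1) (ev (dirn R L₁ m (fun i => dsp (2 * K + 1) (z i) v))),
      nmem R L₁ m (fun i => dsp (2 * K + 1) (z i) v))

theorem zrule_run (K R L₁ : ℕ) {k : ℕ} (c : Fin k → ℕ → Bool) (p : Fin k → ℤ × ℤ)
    (hp : ∀ i, p i ∈ box K) (v0 : ZMod (2 * K + 1) × ZMod (2 * K + 1)) (t : ℕ) :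
    ((zrule K R L₁ k).run (stp (2 * K + 1))
        ⟨⟨0, true, 0, true⟩, fun i => v0 - cz (2 * K + 1) (p i), v0⟩ (fun t i => c i t) t).mem
      = (run K R L₁ c p t).2 ∧
    ∀ i, dsp (2 * K + 1) (((zrule K R L₁ k).run (stp (2 * K + 1))
        ⟨⟨0, true, 0, true⟩, fun i => v0 - cz (2 * K + 1) (p i), v0⟩ (fun t i => c i t) t).zs i)
        ((zrule K R L₁ k).run (stp (2 * K + 1))
        ⟨⟨0, true, 0, true⟩, fun i => v0 - cz (2 * K + 1) (p i), v0⟩ (fun t i => c i t) t).sv
      = (run K R L₁ c p t).1 i := by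
  induction t with
  | zero => exact ⟨rfl, fun i => dsp_eq (hp i) v0⟩
  | succ t ih =>
    obtain ⟨ih1, ih2⟩ := ih
    have hq : (fun i => dsp (2 * K + 1) (stp (2 * K + 1) (c i t)
        (((zrule K R L₁ k).run (stp (2 * K + 1))
        ⟨⟨0, true, 0, true⟩, fun i => v0 - cz (2 * K + 1) (p i), v0⟩ (fun t i => c i t) t).zs i)
        ((zrule K R L₁ k).run (stp (2 * K + 1))
        ⟨⟨0, true, 0, true⟩, fun i => v0 - cz (2 * K + 1) (p i), v0⟩ (fun t i => c i t) t).sv)
        ((zrule K R L₁ k).run (stp (2 * K + 1))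
        ⟨⟨0, true, 0, true⟩, fun i => v0 - cz (2 * K + 1) (p i), v0⟩ (fun t i => c i t) t).sv)
        = fun i => zm (c i t) ((run K R L₁ c p t).1 i) := by
      funext i
      rw [dsp_stp, ih2]
    refine ⟨?_, fun i => ?_⟩
    · change nmem R L₁ _ _ = nmem R L₁ _ _
      rw [hq, ih1]
    · change dsp (2 * K + 1) _ (_ + cz (2 * K + 1) (ev (dirn R L₁ _ _)))
        = sm K (dirn R L₁ _ _) _
      rw [dsp_step, hq, ih1]
      exact congrArg (sm K _) (congrFun hq i)

open scoped Classical in
theorem surv_ge {K k : ℕ} (hK : 1 ≤ K) (R L₁ T : ℕ) :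
    (((Fintype.piFinset (fun _ : Fin k => box K ×ˢ (univ : Finset (Fin T → Bool)))).filter
      (fun x => (∀ t ≤ T, ∀ i, 2 ≤ ds ((run K R L₁ (fun i => ex (x i).2)
          (fun i => (x i).1) t).1 i)) ∧
        ∀ i, Safe K ((run K R L₁ (fun i => ex (x i).2) (fun i => (x i).1) T).1 i))).card : ℝ) /
      (((2 * (K : ℝ) + 1) ^ 2 * 2 ^ T) ^ k) ≤ surv (tor (2 * K + 1)) k := by
  set X := ((Fintype.piFinset (fun _ : Fin k => box K ×ˢ (univ : Finset (Fin T → Bool)))).filter
      (fun x => (∀ t ≤ T, ∀ i, 2 ≤ ds ((run K R L₁ (fun i => ex (x i).2)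
          (fun i => (x i).1) t).1 i)) ∧
        ∀ i, Safe K ((run K R L₁ (fun i => ex (x i).2) (fun i => (x i).1) T).1 i))) with hX
  let F : St (ZMod (2 * K + 1) × ZMod (2 * K + 1)) k Mem → Prop :=
    fun s => ∀ i, Safe K (dsp (2 * K + 1) (s.zs i) s.sv)
  have hσ : (zrule K R L₁ k).Legal (tor (2 * K + 1)) := by
    intro m z v
    right
    exact adj_ev (by omega) v _
  have hcardV : (Fintype.card (ZMod (2 * K + 1) × ZMod (2 * K + 1)) : ℝ) = (2 * (K : ℝ) + 1) ^ 2 := by
    rw [Fintype.card_prod, ZMod.card]; push_cast; ring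
  have hcardB : (Fintype.card Bool : ℝ) = 2 := by simp
  -- lower bound for the horizons `T + T'`
  have main : ∀ T' : ℕ, (X.card : ℝ) / (((2 * (K : ℝ) + 1) ^ 2 * 2 ^ T) ^ k)
      ≤ survT (tor (2 * K + 1)) k (T + T') := by
    intro T'
    have h1 := alive_fin_le_survT (tor (2 * K + 1)) (stp (2 * K + 1)) (realises_stp hK)
      (zrule K R L₁ k) hσ F T' (fun s hs => val_safe hK T' s.zs s.sv hs) T ⟨0, true, 0, true⟩ 0
    rw [hcardV, hcardB] at h1
    refine le_trans ?_ h1
    apply div_le_div_of_nonneg_right _ (by positivity)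
    simp only [Finset.sum_boole]
    norm_cast
    refine Finset.card_le_card_of_injOn
      (fun x i => ((0 : ZMod (2 * K + 1) × ZMod (2 * K + 1)) - cz (2 * K + 1) (x i).1, (x i).2))
      ?_ ?_
    · intro x hx
      rw [Finset.mem_coe, hX, Finset.mem_filter, Fintype.mem_piFinset] at hx
      obtain ⟨hx1, hx2, hx3⟩ := hx
      have hbox : ∀ i, (x i).1 ∈ box K := fun i => (Finset.mem_product.1 (hx1 i)).1
      rw [Finset.mem_coe, Finset.mem_filter]
      refine ⟨Finset.mem_univ _, ?_⟩
      have hr := zrule_run K R L₁ (fun i => ex (x i).2) (fun i => (x i).1) hbox 0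
      have e4 : ∀ j < T, (fun i => ext (x i).2 j) = (fun i => ex (x i).2 j) := by
        intro j hj
        funext i
        unfold ext ex
        rw [dif_pos hj, dif_pos hj]
      have ea := Rule.alive_congr (zrule K R L₁ k) (stp (2 * K + 1))
        ⟨⟨0, true, 0, true⟩, fun i => (0 : ZMod (2 * K + 1) × ZMod (2 * K + 1)) -
          cz (2 * K + 1) (x i).1, 0⟩ (fun t i => ext (x i).2 t) (fun t i => ex (x i).2 t) T e4
      have er := Rule.run_congr (zrule K R L₁ k) (stp (2 * K + 1))
        ⟨⟨0, true, 0, true⟩, fun i => (0 : ZMod (2 * K + 1) × ZMod (2 * K + 1)) -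
          cz (2 * K + 1) (x i).1, 0⟩ (fun t i => ext (x i).2 t) (fun t i => ex (x i).2 t) T e4
      refine ⟨ea.2 ⟨fun t ht i => ?_, fun t ht i => ?_⟩, ?_⟩
      · apply ne_of_ds
        rw [(hr t).2 i]
        intro h0
        have := hx2 t ht i
        rw [h0] at this
        simp [ds] at this
      · apply ne_of_ds
        have h3 := zm_ne_zero (hx2 t ht.le i) (ex (x i).2 t)
        rw [← (hr t).2 i, ← dsp_stp] at h3
        exact h3
      · change ∀ i, Safe K _
        intro i
        have h5 := hx3 i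
        rw [← (hr T).2 i] at h5
        rw [← er] at h5
        exact h5
    · intro x hx y hy hxy
      rw [Finset.mem_coe, hX, Finset.mem_filter, Fintype.mem_piFinset] at hx hy
      funext i
      have h6 := congrFun hxy i
      simp only [Prod.mk.injEq, sub_right_inj] at h6
      have hb1 := (Finset.mem_product.1 (hx.1 i)).1
      have hb2 := (Finset.mem_product.1 (hy.1 i)).1
      exact Prod.ext ((cz_eq_iff hb1 hb2).1 h6.1) h6.2
  unfold surv
  apply le_ciInf
  intro T''
  rcases le_total T T'' with h | h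
  · obtain ⟨T', rfl⟩ := Nat.exists_eq_add_of_le h
    exact main T'
  · exact (main 0).trans (survT_anti _ _ (by simpa using h))

end MP34e
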