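import Pool.Agent.Work.MP_34e428_co.LDefsJ
import Pool.Agent.Work.MP_34e428_co.LNoJump
import Pool.Agent.Work.MP_34e428_co.LVal

/-! The game value on the torus `T_n`, `n = 2 K + 1 - o`, versus the coins model. -/

set_option autoImplicit false

open Finset SimpleGraph

namespace MP34e

/-- one step towards zero -/
def tzz (a : ℤ) : ℤ := if 0 < a then a - 1 else if a < 0 then a + 1 else 0

theorem tzz_eq (a : ℤ) : tzz a = a - a.sign := by
  unfold tzz
  split_ifs with h1 h2
  · rw [Int.sign_eq_one_of_pos h1]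
  · rw [Int.sign_eq_neg_one_of_neg h2]; ring
  · have : a = 0 := by omega
    subst this; simp

theorem mem_boxJ {K o : ℕ} {D : ℤ × ℤ} : D ∈ boxJ K o ↔
    (-(K : ℤ) + o ≤ D.1 ∧ D.1 ≤ K) ∧ (-(K : ℤ) + o ≤ D.2 ∧ D.2 ≤ K) := by
  unfold boxJ
  rw [Finset.mem_product, Finset.mem_Icc, Finset.mem_Icc]

theorem valMin_eq {n K o : ℕ} [NeZero n] (hn : n + o = 2 * K + 1) (a : ℤ)
    (h1 : -(K : ℤ) + o ≤ a) (h2 : a ≤ K) (ho : o ≤ 1) : ((a : ℤ) : ZMod n).valMinAbs = a := by
  rw [ZMod.valMinAbs_spec]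
  refine ⟨rfl, ?_⟩
  rw [Set.mem_Ioc]
  omega

theorem dspJ_eq {n K o : ℕ} [NeZero n] (hn : n + o = 2 * K + 1) (ho : o ≤ 1) {D : ℤ × ℤ}
    (h : D ∈ boxJ K o) (v : ZMod n × ZMod n) : dsp n (v - cz n D) v = D := by
  rw [mem_boxJ] at h
  unfold dsp
  rw [sub_sub_cancel]
  unfold cz
  exact Prod.ext (valMin_eq hn D.1 h.1.1 h.1.2 ho) (valMin_eq hn D.2 h.2.1 h.2.2 ho)

theorem dspJ_mem {n K o : ℕ} [NeZero n] (hn : n + o = 2 * K + 1) (ho : o ≤ 1)
    (z v : ZMod n × ZMod n) : dsp n z v ∈ boxJ K o := by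
  have key : ∀ x : ZMod n, -(K : ℤ) + o ≤ x.valMinAbs ∧ x.valMinAbs ≤ K := by
    intro x
    have := ZMod.valMinAbs_mem_Ioc x
    rw [Set.mem_Ioc] at this
    omega
  rw [mem_boxJ]
  exact ⟨key _, key _⟩

theorem cast_wrap (n : ℕ) (a : ℤ) : ((a : ℤ) : ZMod n) = ((a + n : ℤ) : ZMod n) := by
  push_cast
  rw [ZMod.natCast_self, add_zero]

theorem czJ_eq_iff {n K o : ℕ} [NeZero n] (hn : n + o = 2 * K + 1) (ho : o ≤ 1) {D E : ℤ × ℤ}
    (hD : D ∈ boxJ K o) (hE : E ∈ boxJ K o) : cz n D = cz n E ↔ D = E := by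
  constructor
  · intro h
    have h1 := dspJ_eq hn ho hD (0 : ZMod n × ZMod n)
    have h2 := dspJ_eq hn ho hE (0 : ZMod n × ZMod n)
    rw [h] at h1
    rw [← h1, h2]
  · rintro rfl; rfl

/-- distance to the survivor after a unit move -/
theorem torJ_dist_unit {n K o : ℕ} (hn : n + o = 2 * K + 1) (ho : o ≤ 1) (hK : 2 ≤ K)
    (z : ZMod n × ZMod n) (D s : ℤ × ℤ) (hD : D ∈ boxJ K o) (hs1 : s.1.natAbs ≤ 1)
    (hs2 : s.2.natAbs ≤ 1) :
    (tor n).dist (z + cz n s) (z + cz n D)
      = min (D.1 - s.1).natAbs (n - (D.1 - s.1).natAbs)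
        + min (D.2 - s.2).natAbs (n - (D.2 - s.2).natAbs) := by
  rw [mem_boxJ] at hD
  have key : ∀ a : ℤ, a.natAbs ≤ K + 1 → ∃ a' : ℤ, a'.natAbs = min a.natAbs (n - a.natAbs) ∧
      2 * a'.natAbs ≤ n ∧ ((a : ℤ) : ZMod n) = ((a' : ℤ) : ZMod n) := by
    intro a ha
    by_cases h : 2 * a.natAbs ≤ n
    · exact ⟨a, by omega, h, rfl⟩
    · rcases le_total 0 a with h0 | h0
      · refine ⟨a - n, by omega, by omega, ?_⟩
        rw [cast_wrap n (a - n)]
        congr 1; ring
      · exact ⟨a + n, by omega, by omega, cast_wrap n a⟩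
  obtain ⟨a, ha1, ha3, ha2⟩ := key (D.1 - s.1) (by omega)
  obtain ⟨b, hb1, hb3, hb2⟩ := key (D.2 - s.2) (by omega)
  have : z + cz n D = (z + cz n s) + cz n (a, b) := by
    rw [add_assoc]
    congr 1
    unfold cz
    simp only [Prod.mk_add_mk]
    rw [← ha2, ← hb2]
    push_cast
    ext <;> simp
  rw [this, tor_dist (by omega) _ (a, b) ha3 hb3]
  simp only [ha1, hb1]

theorem mem_closerJ {n K o : ℕ} [NeZero n] (hn : n + o = 2 * K + 1) (ho : o ≤ 1) (hK : 2 ≤ K)
    (z w : ZMod n × ZMod n) (D : ℤ × ℤ) (hD : D ∈ boxJ K o) :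
    w ∈ closer (tor n) (z + cz n D) z ↔
      (D.1 ≠ 0 ∧ w = z + cz n (D.1.sign, 0)) ∨ (D.2 ≠ 0 ∧ w = z + cz n (0, D.2.sign)) ∨
      (o = 1 ∧ D.1 = K ∧ w = z + cz n (-1, 0)) ∨ (o = 1 ∧ D.2 = K ∧ w = z + cz n (0, -1)) := by
  have hD' := mem_boxJ.1 hD
  rw [mem_closer_iff, tor_adj (by omega), tor_dist (by omega) z D (by omega) (by omega)]
  have key := fun s hs1 hs2 => torJ_dist_unit hn ho hK z D s hD hs1 hs2
  constructor
  · rintro ⟨h, hd⟩
    rcases h with rfl | rfl | rfl | rfl
    · rw [key (1, 0) (by simp) (by simp)] at hd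
      have h3 : 0 < D.1 := by simp only at hd; omega
      left
      exact ⟨by omega, by rw [Int.sign_eq_one_of_pos h3]⟩
    · rw [key (-1, 0) (by simp) (by simp)] at hd
      have h3 : D.1 < 0 ∨ (o = 1 ∧ D.1 = K) := by simp only at hd; omega
      rcases h3 with h3 | h3
      · left
        exact ⟨by omega, by rw [Int.sign_eq_neg_one_of_neg h3]⟩
      · right; right; left
        exact ⟨h3.1, h3.2, rfl⟩
    · rw [key (0, 1) (by simp) (by simp)] at hd
      have h3 : 0 < D.2 := by simp only at hd; omega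
      right; left
      exact ⟨by omega, by rw [Int.sign_eq_one_of_pos h3]⟩
    · rw [key (0, -1) (by simp) (by simp)] at hd
      have h3 : D.2 < 0 ∨ (o = 1 ∧ D.2 = K) := by simp only at hd; omega
      rcases h3 with h3 | h3
      · right; left
        exact ⟨by omega, by rw [Int.sign_eq_neg_one_of_neg h3]⟩
      · right; right; right
        exact ⟨h3.1, h3.2, rfl⟩
  · rintro (⟨h, rfl⟩ | ⟨h, rfl⟩ | ⟨h, h', rfl⟩ | ⟨h, h', rfl⟩)
    · rcases lt_or_gt_of_ne h with h3 | h3
      · rw [Int.sign_eq_neg_one_of_neg h3]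
        refine ⟨by simp, ?_⟩
        rw [key (-1, 0) (by simp) (by simp)]
        simp only; omega
      · rw [Int.sign_eq_one_of_pos h3]
        refine ⟨by simp, ?_⟩
        rw [key (1, 0) (by simp) (by simp)]
        simp only; omega
    · rcases lt_or_gt_of_ne h with h3 | h3
      · rw [Int.sign_eq_neg_one_of_neg h3]
        refine ⟨by simp, ?_⟩
        rw [key (0, -1) (by simp) (by simp)]
        simp only; omega
      · rw [Int.sign_eq_one_of_pos h3]
        refine ⟨by simp, ?_⟩
        rw [key (0, 1) (by simp) (by simp)]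
        simp only; omega
    · refine ⟨by simp, ?_⟩
      rw [key (-1, 0) (by simp) (by simp)]
      simp only; omega
    · refine ⟨by simp, ?_⟩
      rw [key (0, -1) (by simp) (by simp)]
      simp only; omega

theorem mem_closer_dspJ {n K o : ℕ} [NeZero n] (hn : n + o = 2 * K + 1) (ho : o ≤ 1) (hK : 2 ≤ K)
    (z v w : ZMod n × ZMod n) :
    w ∈ closer (tor n) v z ↔
      ((dsp n z v).1 ≠ 0 ∧ w = v - cz n (hx (dsp n z v))) ∨
      ((dsp n z v).2 ≠ 0 ∧ w = v - cz n (hy (dsp n z v))) ∨
      (o = 1 ∧ (dsp n z v).1 = K ∧ w = v - cz n (-(K : ℤ) + 1, (dsp n z v).2)) ∨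
      (o = 1 ∧ (dsp n z v).2 = K ∧ w = v - cz n ((dsp n z v).1, -(K : ℤ) + 1)) := by
  have h1 := mem_closerJ hn ho hK z w (dsp n z v) (dspJ_mem hn ho z v)
  have h2 : z + cz n (dsp n z v) = v := by rw [cz_dsp]; abel
  have h3 : v - cz n (dsp n z v) = z := by rw [cz_dsp]; abel
  rw [h2] at h1
  rw [h1]
  have e1 := sub_hx n v (dsp n z v)
  have e2 := sub_hy n v (dsp n z v)
  rw [h3] at e1 e2
  rw [e1, e2]
  have e3 : o = 1 → (dsp n z v).1 = K →
      z + cz n (-1, 0) = v - cz n (-(K : ℤ) + 1, (dsp n z v).2) := by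
    intro h4 h5
    have h6 : cz n (-(K : ℤ) + 1, (dsp n z v).2) = cz n (dsp n z v) + cz n (1, 0) := by
      rw [← cz_add]
      unfold cz
      simp only [Prod.fst_add, Prod.snd_add, add_zero, h5]
      congr 1
      rw [cast_wrap n (-(K : ℤ) + 1)]
      congr 1
      omega
    rw [h6, ← sub_sub, h3]
    have h7 : cz n (-1, 0) = - cz n (1, 0) := by unfold cz; simp
    rw [h7]; abel
  have e4 : o = 1 → (dsp n z v).2 = K →
      z + cz n (0, -1) = v - cz n ((dsp n z v).1, -(K : ℤ) + 1) := by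
    intro h4 h5
    have h6 : cz n ((dsp n z v).1, -(K : ℤ) + 1) = cz n (dsp n z v) + cz n (0, 1) := by
      rw [← cz_add]
      unfold cz
      simp only [Prod.fst_add, Prod.snd_add, add_zero, h5]
      congr 1
      rw [cast_wrap n (-(K : ℤ) + 1)]
      congr 1
      omega
    rw [h6, ← sub_sub, h3]
    have h7 : cz n (0, -1) = - cz n (0, 1) := by unfold cz; simp
    rw [h7]; abel
  constructor
  · rintro (h | h | ⟨h4, h5, h6⟩ | ⟨h4, h5, h6⟩)
    · exact Or.inl h
    · exact Or.inr (Or.inl h)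
    · exact Or.inr (Or.inr (Or.inl ⟨h4, h5, by rw [h6, e3 h4 h5]⟩))
    · exact Or.inr (Or.inr (Or.inr ⟨h4, h5, by rw [h6, e4 h4 h5]⟩))
  · rintro (h | h | ⟨h4, h5, h6⟩ | ⟨h4, h5, h6⟩)
    · exact Or.inl h
    · exact Or.inr (Or.inl h)
    · exact Or.inr (Or.inr (Or.inl ⟨h4, h5, by rw [h6, e3 h4 h5]⟩))
    · exact Or.inr (Or.inr (Or.inr ⟨h4, h5, by rw [h6, e4 h4 h5]⟩))

/-! ### counting the coins -/

section cnt

variable {α : Type*} [DecidableEq α]

theorem cnt1 (a w : α) : ((univ.filter (fun _ : Bool × Fin 6 => a = w)).card : ℝ)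
    = 12 * (if w ∈ ({a} : Finset α) then ((({a} : Finset α).card : ℝ))⁻¹ else 0) := by
  by_cases h : a = w
  · subst h
    simp
  · rw [if_neg (by rw [Finset.mem_singleton]; exact fun h' => h h'.symm)]
    simp [h]

theorem cnt2 (a b w : α) (hab : a ≠ b) :
    ((univ.filter (fun c : Bool × Fin 6 => (if c.1 = true then a else b) = w)).card : ℝ)
    = 12 * (if w ∈ ({a, b} : Finset α) then ((({a, b} : Finset α).card : ℝ))⁻¹ else 0) := by
  rw [Finset.card_pair hab]
  by_cases h1 : w = a
  · subst h1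
    have : (univ.filter (fun c : Bool × Fin 6 => (if c.1 = true then w else b) = w))
        = univ.filter (fun c : Bool × Fin 6 => c.1 = true) := by
      apply Finset.filter_congr
      intro c _
      by_cases h : c.1 = true <;> simp [h, hab.symm]
    rw [this, if_pos (by simp)]
    have : (univ.filter (fun c : Bool × Fin 6 => c.1 = true)).card = 6 := by decide
    rw [this]; norm_num
  by_cases h2 : w = b
  · subst h2
    have : (univ.filter (fun c : Bool × Fin 6 => (if c.1 = true then a else w) = w))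
        = univ.filter (fun c : Bool × Fin 6 => c.1 = false) := by
      apply Finset.filter_congr
      intro c _
      by_cases h : c.1 = true <;> simp [h, hab]
    rw [this, if_pos (by simp)]
    have : (univ.filter (fun c : Bool × Fin 6 => c.1 = false)).card = 6 := by decide
    rw [this]; norm_num
  · rw [if_neg (by simp [h1, h2])]
    have : (univ.filter (fun c : Bool × Fin 6 => (if c.1 = true then a else b) = w)) = ∅ := by
      apply Finset.filter_false_of_mem
      intro c _
      split_ifs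
      · exact fun h => h1 h.symm
      · exact fun h => h2 h.symm
    rw [this]; simp

theorem cnt2' (a b w : α) (hab : a ≠ b) :
    ((univ.filter (fun c : Bool × Fin 6 => (if 3 ≤ (c.2 : ℕ) then a else b) = w)).card : ℝ)
    = 12 * (if w ∈ ({a, b} : Finset α) then ((({a, b} : Finset α).card : ℝ))⁻¹ else 0) := by
  rw [Finset.card_pair hab]
  by_cases h1 : w = a
  · subst h1
    have : (univ.filter (fun c : Bool × Fin 6 => (if 3 ≤ (c.2 : ℕ) then w else b) = w))
        = univ.filter (fun c : Bool × Fin 6 => 3 ≤ (c.2 : ℕ)) := by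
      apply Finset.filter_congr
      intro c _
      by_cases h : 3 ≤ (c.2 : ℕ) <;> simp [h, hab.symm]
    rw [this, if_pos (by simp)]
    have : (univ.filter (fun c : Bool × Fin 6 => 3 ≤ (c.2 : ℕ))).card = 6 := by decide
    rw [this]; norm_num
  by_cases h2 : w = b
  · subst h2
    have : (univ.filter (fun c : Bool × Fin 6 => (if 3 ≤ (c.2 : ℕ) then a else w) = w))
        = univ.filter (fun c : Bool × Fin 6 => ¬ 3 ≤ (c.2 : ℕ)) := by
      apply Finset.filter_congr
      intro c _
      by_cases h : 3 ≤ (c.2 : ℕ) <;> simp [h, hab]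
    rw [this, if_pos (by simp)]
    have : (univ.filter (fun c : Bool × Fin 6 => ¬ 3 ≤ (c.2 : ℕ))).card = 6 := by decide
    rw [this]; norm_num
  · rw [if_neg (by simp [h1, h2])]
    have : (univ.filter (fun c : Bool × Fin 6 => (if 3 ≤ (c.2 : ℕ) then a else b) = w)) = ∅ := by
      apply Finset.filter_false_of_mem
      intro c _
      split_ifs
      · exact fun h => h1 h.symm
      · exact fun h => h2 h.symm
    rw [this]; simp

theorem cnt3 (a b c w : α) (hab : a ≠ b) (hac : a ≠ c) (hbc : b ≠ c) :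
    ((univ.filter (fun x : Bool × Fin 6 =>
      (if 4 ≤ (x.2 : ℕ) then a else if x.1 = true then b else c) = w)).card : ℝ)
    = 12 * (if w ∈ ({a, b, c} : Finset α) then ((({a, b, c} : Finset α).card : ℝ))⁻¹ else 0) := by
  have hcard : ({a, b, c} : Finset α).card = 3 := by
    rw [Finset.card_insert_of_notMem (by simp [hab, hac]), Finset.card_pair hbc]
  rw [hcard]
  by_cases h1 : w = a
  · subst h1
    have : (univ.filter (fun x : Bool × Fin 6 =>
        (if 4 ≤ (x.2 : ℕ) then w else if x.1 = true then b else c) = w))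
        = univ.filter (fun x : Bool × Fin 6 => 4 ≤ (x.2 : ℕ)) := by
      apply Finset.filter_congr
      intro x _
      by_cases h : 4 ≤ (x.2 : ℕ) <;> by_cases h' : x.1 = true <;> simp [h, h', hab.symm, hac.symm]
    rw [this, if_pos (by simp)]
    have : (univ.filter (fun x : Bool × Fin 6 => 4 ≤ (x.2 : ℕ))).card = 4 := by decide
    rw [this]; norm_num
  by_cases h2 : w = b
  · subst h2
    have : (univ.filter (fun x : Bool × Fin 6 =>
        (if 4 ≤ (x.2 : ℕ) then a else if x.1 = true then w else c) = w))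
        = univ.filter (fun x : Bool × Fin 6 => ¬ 4 ≤ (x.2 : ℕ) ∧ x.1 = true) := by
      apply Finset.filter_congr
      intro x _
      by_cases h : 4 ≤ (x.2 : ℕ) <;> by_cases h' : x.1 = true <;> simp [h, h', hab, hbc.symm]
    rw [this, if_pos (by simp)]
    have : (univ.filter (fun x : Bool × Fin 6 => ¬ 4 ≤ (x.2 : ℕ) ∧ x.1 = true)).card = 4 := by
      decide
    rw [this]; norm_num
  by_cases h3 : w = c
  · subst h3
    have : (univ.filter (fun x : Bool × Fin 6 =>
        (if 4 ≤ (x.2 : ℕ) then a else if x.1 = true then b else w) = w))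
        = univ.filter (fun x : Bool × Fin 6 => ¬ 4 ≤ (x.2 : ℕ) ∧ x.1 = false) := by
      apply Finset.filter_congr
      intro x _
      by_cases h : 4 ≤ (x.2 : ℕ) <;> by_cases h' : x.1 = true <;> simp [h, h', hac, hbc]
    rw [this, if_pos (by simp)]
    have : (univ.filter (fun x : Bool × Fin 6 => ¬ 4 ≤ (x.2 : ℕ) ∧ x.1 = false)).card = 4 := by
      decide
    rw [this]; norm_num
  · rw [if_neg (by simp [h1, h2, h3])]
    have : (univ.filter (fun x : Bool × Fin 6 =>
        (if 4 ≤ (x.2 : ℕ) then a else if x.1 = true then b else c) = w)) = ∅ := by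
      apply Finset.filter_false_of_mem
      intro x _
      split_ifs
      · exact fun h => h1 h.symm
      · exact fun h => h2 h.symm
      · exact fun h => h3 h.symm
    rw [this]; simp

theorem cnt4 (a b c d w : α) (hab : a ≠ b) (hac : a ≠ c) (had : a ≠ d) (hbc : b ≠ c) (hbd : b ≠ d)
    (hcd : c ≠ d) :
    ((univ.filter (fun x : Bool × Fin 6 =>
      (if 3 ≤ (x.2 : ℕ) then (if x.1 = true then a else b) else if x.1 = true then c else d)
        = w)).card : ℝ)
    = 12 * (if w ∈ ({a, b, c, d} : Finset α) then ((({a, b, c, d} : Finset α).card : ℝ))⁻¹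
      else 0) := by
  have hcard : ({a, b, c, d} : Finset α).card = 4 := by
    rw [Finset.card_insert_of_notMem (by simp [hab, hac, had]),
      Finset.card_insert_of_notMem (by simp [hbc, hbd]), Finset.card_pair hcd]
  rw [hcard]
  by_cases h1 : w = a
  · subst h1
    have : (univ.filter (fun x : Bool × Fin 6 =>
        (if 3 ≤ (x.2 : ℕ) then (if x.1 = true then w else b) else if x.1 = true then c else d) = w))
        = univ.filter (fun x : Bool × Fin 6 => 3 ≤ (x.2 : ℕ) ∧ x.1 = true) := by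
      apply Finset.filter_congr
      intro x _
      by_cases h : 3 ≤ (x.2 : ℕ) <;> by_cases h' : x.1 = true <;>
        simp [h, h', hab.symm, hac.symm, had.symm]
    rw [this, if_pos (by simp)]
    have : (univ.filter (fun x : Bool × Fin 6 => 3 ≤ (x.2 : ℕ) ∧ x.1 = true)).card = 3 := by decide
    rw [this]; norm_num
  by_cases h2 : w = b
  · subst h2
    have : (univ.filter (fun x : Bool × Fin 6 =>
        (if 3 ≤ (x.2 : ℕ) then (if x.1 = true then a else w) else if x.1 = true then c else d) = w))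
        = univ.filter (fun x : Bool × Fin 6 => 3 ≤ (x.2 : ℕ) ∧ x.1 = false) := by
      apply Finset.filter_congr
      intro x _
      by_cases h : 3 ≤ (x.2 : ℕ) <;> by_cases h' : x.1 = true <;>
        simp [h, h', hab, hbc.symm, hbd.symm]
    rw [this, if_pos (by simp)]
    have : (univ.filter (fun x : Bool × Fin 6 => 3 ≤ (x.2 : ℕ) ∧ x.1 = false)).card = 3 := by
      decide
    rw [this]; norm_num
  by_cases h3 : w = c
  · subst h3
    have : (univ.filter (fun x : Bool × Fin 6 =>
        (if 3 ≤ (x.2 : ℕ) then (if x.1 = true then a else b) else if x.1 = true then w else d) = w))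
        = univ.filter (fun x : Bool × Fin 6 => ¬ 3 ≤ (x.2 : ℕ) ∧ x.1 = true) := by
      apply Finset.filter_congr
      intro x _
      by_cases h : 3 ≤ (x.2 : ℕ) <;> by_cases h' : x.1 = true <;>
        simp [h, h', hac, hbc, hcd.symm]
    rw [this, if_pos (by simp)]
    have : (univ.filter (fun x : Bool × Fin 6 => ¬ 3 ≤ (x.2 : ℕ) ∧ x.1 = true)).card = 3 := by
      decide
    rw [this]; norm_num
  by_cases h4 : w = d
  · subst h4
    have : (univ.filter (fun x : Bool × Fin 6 =>
        (if 3 ≤ (x.2 : ℕ) then (if x.1 = true then a else b) else if x.1 = true then c else w) = w))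
        = univ.filter (fun x : Bool × Fin 6 => ¬ 3 ≤ (x.2 : ℕ) ∧ x.1 = false) := by
      apply Finset.filter_congr
      intro x _
      by_cases h : 3 ≤ (x.2 : ℕ) <;> by_cases h' : x.1 = true <;>
        simp [h, h', had, hbd, hcd]
    rw [this, if_pos (by simp)]
    have : (univ.filter (fun x : Bool × Fin 6 => ¬ 3 ≤ (x.2 : ℕ) ∧ x.1 = false)).card = 3 := by
      decide
    rw [this]; norm_num
  · rw [if_neg (by simp [h1, h2, h3, h4])]
    have : (univ.filter (fun x : Bool × Fin 6 =>
        (if 3 ≤ (x.2 : ℕ) then (if x.1 = true then a else b) else if x.1 = true then c else d)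
          = w)) = ∅ := by
      apply Finset.filter_false_of_mem
      intro x _
      split_ifs
      · exact fun h => h1 h.symm
      · exact fun h => h2 h.symm
      · exact fun h => h3 h.symm
      · exact fun h => h4 h.symm
    rw [this]; simp

end cnt

/-! ### the zombie move -/

/-- a coin realises the zombie move -/
noncomputable def stpJ (n K o : ℕ) (c : Bool × Fin 6) (z v : ZMod n × ZMod n) : ZMod n × ZMod n :=
  v - cz n (zj K o c.1 (jc K (c.2 : ℕ) (dsp n z v)) (dsp n z v))

theorem hx_memJ {K o : ℕ} (ho : o ≤ 1) {D : ℤ × ℤ} (h : D ∈ boxJ K o) : hx D ∈ boxJ K o := by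
  rw [mem_boxJ] at h ⊢
  rw [hx_fst, hx_snd, ← tzz_eq]
  refine ⟨?_, h.2⟩
  unfold tzz
  split_ifs <;> omega

theorem hy_memJ {K o : ℕ} (ho : o ≤ 1) {D : ℤ × ℤ} (h : D ∈ boxJ K o) : hy D ∈ boxJ K o := by
  rw [mem_boxJ] at h ⊢
  rw [hy_fst, hy_snd, ← tzz_eq]
  refine ⟨h.1, ?_⟩
  unfold tzz
  split_ifs <;> omega

theorem zm_memJ {K o : ℕ} (ho : o ≤ 1) {D : ℤ × ℤ} (h : D ∈ boxJ K o) (c : Bool) :
    zm c D ∈ boxJ K o := by
  unfold zm
  split_ifs
  · exact hy_memJ ho h
  · exact hx_memJ ho h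
  · exact hx_memJ ho h
  · exact hy_memJ ho h

theorem zj_memJ {K o : ℕ} (ho : o ≤ 1) (hK : 2 ≤ K) {D : ℤ × ℤ} (h : D ∈ boxJ K o) (c b : Bool) :
    zj K o c b D ∈ boxJ K o := by
  unfold zj
  have h' := mem_boxJ.1 h
  split_ifs
  · rw [mem_boxJ]; simp only; omega
  · rw [mem_boxJ]; simp only; omega
  · exact zm_memJ ho h c

theorem wrJ_memJ {K o : ℕ} (ho : o ≤ 1) (hK : 2 ≤ K) {a : ℤ} (h : -(K : ℤ) + o ≤ a) (h2 : a ≤ K) :
    -(K : ℤ) + o ≤ wrJ K o (a + 1) ∧ wrJ K o (a + 1) ≤ K := by
  unfold wrJ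
  split_ifs <;> omega

theorem smJ_memJ {K o : ℕ} (ho : o ≤ 1) (hK : 2 ≤ K) {D : ℤ × ℤ} (h : D ∈ boxJ K o) (e : Bool) :
    smJ K o e D ∈ boxJ K o := by
  rw [mem_boxJ] at h
  unfold smJ
  split_ifs
  · rw [mem_boxJ]; exact ⟨wrJ_memJ ho hK h.1.1 h.1.2, h.2⟩
  · rw [mem_boxJ]; exact ⟨h.1, wrJ_memJ ho hK h.2.1 h.2.2⟩

theorem wrJ_cast {n K o : ℕ} (hn : n + o = 2 * K + 1) (a : ℤ) :
    ((wrJ K o a : ℤ) : ZMod n) = ((a : ℤ) : ZMod n) := by
  unfold wrJ
  split_ifs
  · rw [cast_wrap n (a - (2 * K + 1 - o))]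
    congr 1
    omega
  · rfl

theorem cz_smJ {n K o : ℕ} (hn : n + o = 2 * K + 1) (e : Bool) (D : ℤ × ℤ) :
    cz n (smJ K o e D) = cz n (D + ev e) := by
  unfold cz smJ ev
  cases e
  · simp [wrJ_cast hn]
  · simp [wrJ_cast hn]

theorem realises_stpJ {n K o : ℕ} [NeZero n] (hn : n + o = 2 * K + 1) (ho : o ≤ 1) (hK : 2 ≤ K) :
    Realises (tor n) (stpJ n K o) := by
  intro v z w hzv
  have hbox := dspJ_mem hn ho z v
  have hD0 : dsp n z v ≠ 0 := by
    intro h
    have h1 := cz_dsp n z v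
    rw [h] at h1
    have h2 : cz n 0 = 0 := by simp [cz]
    rw [h2] at h1
    exact hzv (sub_eq_zero.1 h1.symm).symm
  have hcard : (Fintype.card (Bool × Fin 6) : ℝ) = 12 := by
    rw [Fintype.card_prod]; simp
  rw [hcard]
  set D := dsp n z v with hD
  have hmem := fun w => mem_closer_dspJ hn ho hK z v w
  rw [← hD] at hmem
  have hb := mem_boxJ.1 hbox
  have inj : ∀ E F : ℤ × ℤ, E ∈ boxJ K o → F ∈ boxJ K o → E ≠ F → v - cz n E ≠ v - cz n F := by
    intro E F hE hF hEF h
    apply hEF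
    rw [← czJ_eq_iff hn ho hE hF]
    have := congrArg (fun x => v - x) h
    simpa using this
  have mx := hx_memJ ho hbox
  have my := hy_memJ ho hbox
  unfold move stpJ
  rw [← hD]
  by_cases ha : D.1 = 0
  · -- on the vertical axis
    have hb2 : D.2 ≠ 0 := fun h => hD0 (Prod.ext ha h)
    by_cases hk : o = 1 ∧ D.2 = K
    · have hc : closer (tor n) v z = {v - cz n (D.1, -(K : ℤ) + 1), v - cz n (hy D)} := by
        ext x; rw [hmem, Finset.mem_insert, Finset.mem_singleton]
        have : ¬ (D.1 = (K : ℤ)) := by omega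
        simp [ha, hb2, hk.1, hk.2]
        have hK0 : ¬ (0 : ℤ) = K := by omega
        have hK0' : ¬ K = 0 := by omega
        simp [hK0, hK0']
        tauto
      have hz : ∀ c : Bool × Fin 6, v - cz n (zj K o c.1 (jc K (c.2 : ℕ) D) D)
          = if 3 ≤ (c.2 : ℕ) then v - cz n (D.1, -(K : ℤ) + 1) else v - cz n (hy D) := by
        intro c
        have hj : jc K (c.2 : ℕ) D = decide (3 ≤ (c.2 : ℕ)) := by
          unfold jc; rw [if_pos (Or.inr (Or.inl ha))]
        rw [hj]
        unfold zj zm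
        have hn1 : ¬ (D.1 = (K : ℤ)) := by omega
        by_cases h3 : 3 ≤ (c.2 : ℕ)
        · simp [h3, hk.1, hk.2, hn1]
        · simp [h3, ha]
      simp_rw [hz]
      rw [hc]
      have hfin : ((D.1, -(K : ℤ) + 1) : ℤ × ℤ) ∈ boxJ K o := by
        rw [mem_boxJ]; simp only; omega
      convert cnt2' (α := ZMod n × ZMod n) _ _ _ (inj (D.1, -(K : ℤ) + 1) (hy D) hfin my ?_)
      · intro h
        have := congrArg Prod.snd h
        rw [hy_snd, hk.2, Int.sign_eq_one_of_pos (by omega)] at this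
        simp only at this
        omega
    · have hc : closer (tor n) v z = {v - cz n (hy D)} := by
        ext x; rw [hmem, Finset.mem_singleton]
        constructor
        · rintro (h | h | h | h)
          · exact absurd ha h.1
          · exact h.2
          · omega
          · exact absurd ⟨h.1, h.2.1⟩ hk
        · intro h; exact Or.inr (Or.inl ⟨hb2, h⟩)
      have hz : ∀ c : Bool × Fin 6, v - cz n (zj K o c.1 (jc K (c.2 : ℕ) D) D)
          = v - cz n (hy D) := by
        intro c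
        unfold zj zm
        rw [if_neg (by rintro ⟨_, _, h, _⟩; omega), if_neg (by rintro ⟨h, _, h', _⟩; exact hk ⟨h, h'⟩),
          if_pos ha]
      simp_rw [hz]
      rw [hc]
      convert cnt1 (α := ZMod n × ZMod n) _ _
  by_cases hb2 : D.2 = 0
  · -- on the horizontal axis
    by_cases hk : o = 1 ∧ D.1 = K
    · have hc : closer (tor n) v z = {v - cz n (-(K : ℤ) + 1, D.2), v - cz n (hx D)} := by
        ext x; rw [hmem, Finset.mem_insert, Finset.mem_singleton]
        constructor
        · rintro (h | h | h | h)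
          · exact Or.inr h.2
          · exact absurd hb2 h.1
          · exact Or.inl h.2.2
          · omega
        · rintro (h | h)
          · exact Or.inr (Or.inr (Or.inl ⟨hk.1, hk.2, h⟩))
          · exact Or.inl ⟨ha, h⟩
      have hz : ∀ c : Bool × Fin 6, v - cz n (zj K o c.1 (jc K (c.2 : ℕ) D) D)
          = if 3 ≤ (c.2 : ℕ) then v - cz n (-(K : ℤ) + 1, D.2) else v - cz n (hx D) := by
        intro c
        have hj : jc K (c.2 : ℕ) D = decide (3 ≤ (c.2 : ℕ)) := by
          unfold jc; rw [if_pos (Or.inr (Or.inr hb2))]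
        rw [hj]
        unfold zj zm
        have hn1 : D.2 ≠ (K : ℤ) := by omega
        by_cases h3 : 3 ≤ (c.2 : ℕ)
        · rw [if_pos ⟨hk.1, by simpa using h3, hk.2, Or.inl hn1⟩, if_pos h3]
        · rw [if_neg (by rintro ⟨_, h, _⟩; simp at h; omega),
            if_neg (by rintro ⟨_, h, _⟩; simp at h; omega), if_neg ha, if_pos hb2, if_neg h3]
      simp_rw [hz]
      rw [hc]
      have hfin : ((-(K : ℤ) + 1, D.2) : ℤ × ℤ) ∈ boxJ K o := by
        rw [mem_boxJ]; simp only; omega
      convert cnt2' (α := ZMod n × ZMod n) _ _ _ (inj (-(K : ℤ) + 1, D.2) (hx D) hfin mx ?_)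
      · intro h
        have := congrArg Prod.fst h
        rw [hx_fst, hk.2, Int.sign_eq_one_of_pos (by omega)] at this
        simp only at this
        omega
    · have hc : closer (tor n) v z = {v - cz n (hx D)} := by
        ext x; rw [hmem, Finset.mem_singleton]
        constructor
        · rintro (h | h | h | h)
          · exact h.2
          · exact absurd hb2 h.1
          · exact absurd ⟨h.1, h.2.1⟩ hk
          · omega
        · intro h; exact Or.inl ⟨ha, h⟩
      have hz : ∀ c : Bool × Fin 6, v - cz n (zj K o c.1 (jc K (c.2 : ℕ) D) D)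
          = v - cz n (hx D) := by
        intro c
        unfold zj zm
        rw [if_neg (by rintro ⟨h, _, h', _⟩; exact hk ⟨h, h'⟩), if_neg (by rintro ⟨_, _, h, _⟩; omega),
          if_neg ha, if_pos hb2]
      simp_rw [hz]
      rw [hc]
      convert cnt1 (α := ZMod n × ZMod n) _ _
  -- off the axes
  have nxy : hx D ≠ hy D := by
    intro h
    have h2 := congrArg Prod.fst h
    rw [hx_fst, hy_fst] at h2
    have : D.1.sign = 0 := by omega
    rw [Int.sign_eq_zero_iff_zero] at this
    exact ha this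
  by_cases hk1 : o = 1 ∧ D.1 = K
  · have mj1 : ((-(K : ℤ) + 1, D.2) : ℤ × ℤ) ∈ boxJ K o := by rw [mem_boxJ]; simp only; omega
    have n1x : ((-(K : ℤ) + 1, D.2) : ℤ × ℤ) ≠ hx D := by
      intro h
      have := congrArg Prod.fst h
      rw [hx_fst, hk1.2, Int.sign_eq_one_of_pos (by omega)] at this
      simp only at this
      omega
    have n1y : ((-(K : ℤ) + 1, D.2) : ℤ × ℤ) ≠ hy D := by
      intro h
      have := congrArg Prod.fst h
      rw [hy_fst, hk1.2] at this
      simp only at this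
      omega
    by_cases hk2 : D.2 = K
    · -- double tie
      have mj2 : ((D.1, -(K : ℤ) + 1) : ℤ × ℤ) ∈ boxJ K o := by rw [mem_boxJ]; simp only; omega
      have n2x : ((D.1, -(K : ℤ) + 1) : ℤ × ℤ) ≠ hx D := by
        intro h
        have := congrArg Prod.snd h
        rw [hx_snd, hk2] at this
        simp only at this
        omega
      have n2y : ((D.1, -(K : ℤ) + 1) : ℤ × ℤ) ≠ hy D := by
        intro h
        have := congrArg Prod.snd h
        rw [hy_snd, hk2, Int.sign_eq_one_of_pos (by omega)] at this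
        simp only at this
        omega
      have n12 : ((-(K : ℤ) + 1, D.2) : ℤ × ℤ) ≠ (D.1, -(K : ℤ) + 1) := by
        intro h
        have := congrArg Prod.fst h
        simp only at this
        omega
      have hc : closer (tor n) v z = {v - cz n (-(K : ℤ) + 1, D.2), v - cz n (D.1, -(K : ℤ) + 1),
          v - cz n (hx D), v - cz n (hy D)} := by
        ext x
        rw [hmem]
        simp only [Finset.mem_insert, Finset.mem_singleton]
        constructor
        · rintro (h | h | h | h)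
          · exact Or.inr (Or.inr (Or.inl h.2))
          · exact Or.inr (Or.inr (Or.inr h.2))
          · exact Or.inl h.2.2
          · exact Or.inr (Or.inl h.2.2)
        · rintro (h | h | h | h)
          · exact Or.inr (Or.inr (Or.inl ⟨hk1.1, hk1.2, h⟩))
          · exact Or.inr (Or.inr (Or.inr ⟨hk1.1, hk2, h⟩))
          · exact Or.inl ⟨ha, h⟩
          · exact Or.inr (Or.inl ⟨hb2, h⟩)
      have hz : ∀ c : Bool × Fin 6, v - cz n (zj K o c.1 (jc K (c.2 : ℕ) D) D)
          = if 3 ≤ (c.2 : ℕ) then (if c.1 = true then v - cz n (-(K : ℤ) + 1, D.2)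
              else v - cz n (D.1, -(K : ℤ) + 1))
            else if c.1 = true then v - cz n (hx D) else v - cz n (hy D) := by
        intro c
        have hj : jc K (c.2 : ℕ) D = decide (3 ≤ (c.2 : ℕ)) := by
          unfold jc; rw [if_pos (Or.inl ⟨hk1.2, hk2⟩)]
        rw [hj]
        unfold zj zm
        by_cases h3 : 3 ≤ (c.2 : ℕ)
        · rw [if_pos h3]
          by_cases h4 : c.1 = true
          · rw [if_pos ⟨hk1.1, by simpa using h3, hk1.2, Or.inr h4⟩, if_pos h4]
          · rw [if_neg, if_pos ⟨hk1.1, by simpa using h3, hk2, Or.inr (by simpa using h4)⟩,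
              if_neg h4]
            rintro ⟨_, _, _, h5 | h5⟩
            · exact h5 hk2
            · exact h4 h5
        · rw [if_neg (by rintro ⟨_, h, _⟩; simp at h; omega),
            if_neg (by rintro ⟨_, h, _⟩; simp at h; omega), if_neg ha, if_neg hb2, if_neg h3]
          by_cases h4 : c.1 = true
          · rw [if_pos h4, if_pos h4]
          · rw [if_neg h4, if_neg h4]
      simp_rw [hz]
      rw [hc]
      convert cnt4 (α := ZMod n × ZMod n) _ _ _ _ _ (inj _ _ mj1 mj2 n12) (inj _ _ mj1 mx n1x) (inj _ _ mj1 my n1y)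
        (inj _ _ mj2 mx n2x) (inj _ _ mj2 my n2y) (inj _ _ mx my nxy)
    · -- tie in the first coordinate only
      have hc : closer (tor n) v z = {v - cz n (-(K : ℤ) + 1, D.2),
          v - cz n (hx D), v - cz n (hy D)} := by
        ext x
        rw [hmem]
        simp only [Finset.mem_insert, Finset.mem_singleton]
        constructor
        · rintro (h | h | h | h)
          · exact Or.inr (Or.inl h.2)
          · exact Or.inr (Or.inr h.2)
          · exact Or.inl h.2.2
          · exact absurd h.2.1 hk2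
        · rintro (h | h | h)
          · exact Or.inr (Or.inr (Or.inl ⟨hk1.1, hk1.2, h⟩))
          · exact Or.inl ⟨ha, h⟩
          · exact Or.inr (Or.inl ⟨hb2, h⟩)
      have hz : ∀ c : Bool × Fin 6, v - cz n (zj K o c.1 (jc K (c.2 : ℕ) D) D)
          = if 4 ≤ (c.2 : ℕ) then v - cz n (-(K : ℤ) + 1, D.2)
            else if c.1 = true then v - cz n (hx D) else v - cz n (hy D) := by
        intro c
        have hj : jc K (c.2 : ℕ) D = decide (4 ≤ (c.2 : ℕ)) := by
          unfold jc
          rw [if_neg]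
          rintro (h | h | h)
          · exact hk2 h.2
          · exact ha h
          · exact hb2 h
        rw [hj]
        unfold zj zm
        by_cases h3 : 4 ≤ (c.2 : ℕ)
        · rw [if_pos h3, if_pos ⟨hk1.1, by simpa using h3, hk1.2, Or.inl hk2⟩]
        · rw [if_neg (by rintro ⟨_, h, _⟩; simp at h; omega),
            if_neg (by rintro ⟨_, h, _⟩; simp at h; omega), if_neg ha, if_neg hb2, if_neg h3]
          by_cases h4 : c.1 = true
          · rw [if_pos h4, if_pos h4]
          · rw [if_neg h4, if_neg h4]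
      simp_rw [hz]
      rw [hc]
      convert cnt3 (α := ZMod n × ZMod n) _ _ _ _ (inj _ _ mj1 mx n1x) (inj _ _ mj1 my n1y) (inj _ _ mx my nxy)
  by_cases hk2 : o = 1 ∧ D.2 = K
  · -- tie in the second coordinate only
    have mj2 : ((D.1, -(K : ℤ) + 1) : ℤ × ℤ) ∈ boxJ K o := by rw [mem_boxJ]; simp only; omega
    have n2x : ((D.1, -(K : ℤ) + 1) : ℤ × ℤ) ≠ hx D := by
      intro h
      have := congrArg Prod.snd h
      rw [hx_snd, hk2.2] at this
      simp only at this
      omega
    have n2y : ((D.1, -(K : ℤ) + 1) : ℤ × ℤ) ≠ hy D := by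
      intro h
      have := congrArg Prod.snd h
      rw [hy_snd, hk2.2, Int.sign_eq_one_of_pos (by omega)] at this
      simp only at this
      omega
    have hn1 : D.1 ≠ K := fun h => hk1 ⟨hk2.1, h⟩
    have hc : closer (tor n) v z = {v - cz n (D.1, -(K : ℤ) + 1),
        v - cz n (hx D), v - cz n (hy D)} := by
      ext x
      rw [hmem]
      simp only [Finset.mem_insert, Finset.mem_singleton]
      constructor
      · rintro (h | h | h | h)
        · exact Or.inr (Or.inl h.2)
        · exact Or.inr (Or.inr h.2)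
        · exact absurd h.2.1 hn1
        · exact Or.inl h.2.2
      · rintro (h | h | h)
        · exact Or.inr (Or.inr (Or.inr ⟨hk2.1, hk2.2, h⟩))
        · exact Or.inl ⟨ha, h⟩
        · exact Or.inr (Or.inl ⟨hb2, h⟩)
    have hz : ∀ c : Bool × Fin 6, v - cz n (zj K o c.1 (jc K (c.2 : ℕ) D) D)
        = if 4 ≤ (c.2 : ℕ) then v - cz n (D.1, -(K : ℤ) + 1)
          else if c.1 = true then v - cz n (hx D) else v - cz n (hy D) := by
      intro c
      have hj : jc K (c.2 : ℕ) D = decide (4 ≤ (c.2 : ℕ)) := by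
        unfold jc
        rw [if_neg]
        rintro (h | h | h)
        · exact hn1 h.1
        · exact ha h
        · exact hb2 h
      rw [hj]
      unfold zj zm
      by_cases h3 : 4 ≤ (c.2 : ℕ)
      · rw [if_pos h3, if_neg (by rintro ⟨_, _, h, _⟩; exact hn1 h),
          if_pos ⟨hk2.1, by simpa using h3, hk2.2, Or.inl hn1⟩]
      · rw [if_neg (by rintro ⟨_, h, _⟩; simp at h; omega),
          if_neg (by rintro ⟨_, h, _⟩; simp at h; omega), if_neg ha, if_neg hb2, if_neg h3]
        by_cases h4 : c.1 = true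
        · rw [if_pos h4, if_pos h4]
        · rw [if_neg h4, if_neg h4]
    simp_rw [hz]
    rw [hc]
    convert cnt3 (α := ZMod n × ZMod n) _ _ _ _ (inj _ _ mj2 mx n2x) (inj _ _ mj2 my n2y) (inj _ _ mx my nxy)
  · -- no tie
    have hc : closer (tor n) v z = {v - cz n (hx D), v - cz n (hy D)} := by
      ext x
      rw [hmem]
      simp only [Finset.mem_insert, Finset.mem_singleton]
      constructor
      · rintro (h | h | h | h)
        · exact Or.inl h.2
        · exact Or.inr h.2
        · exact absurd ⟨h.1, h.2.1⟩ hk1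
        · exact absurd ⟨h.1, h.2.1⟩ hk2
      · rintro (h | h)
        · exact Or.inl ⟨ha, h⟩
        · exact Or.inr (Or.inl ⟨hb2, h⟩)
    have hz : ∀ c : Bool × Fin 6, v - cz n (zj K o c.1 (jc K (c.2 : ℕ) D) D)
        = if c.1 = true then v - cz n (hx D) else v - cz n (hy D) := by
      intro c
      unfold zj zm
      rw [if_neg (by rintro ⟨h, _, h', _⟩; exact hk1 ⟨h, h'⟩),
        if_neg (by rintro ⟨h, _, h', _⟩; exact hk2 ⟨h, h'⟩), if_neg ha, if_neg hb2]
      by_cases h4 : c.1 = true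
      · rw [if_pos h4, if_pos h4]
      · rw [if_neg h4, if_neg h4]
    simp_rw [hz]
    rw [hc]
    convert cnt2 (α := ZMod n × ZMod n) _ _ _ (inj _ _ mx my nxy)

/-! ### Runs -/

theorem zj_ne_zero {K o : ℕ} (hK : 2 ≤ K) {D : ℤ × ℤ} (h : 2 ≤ ds D) (c b : Bool) :
    zj K o c b D ≠ 0 := by
  unfold zj
  split_ifs
  · intro h1
    have := congrArg Prod.fst h1
    simp only [Prod.fst_zero] at this
    omega
  · intro h1
    have := congrArg Prod.snd h1
    simp only [Prod.snd_zero] at this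
    omega
  · exact zm_ne_zero h c

theorem dsp_stpJ {n K o : ℕ} [NeZero n] (hn : n + o = 2 * K + 1) (ho : o ≤ 1) (hK : 2 ≤ K)
    (c : Bool × Fin 6) (z v : ZMod n × ZMod n) :
    dsp n (stpJ n K o c z v) v = zj K o c.1 (jc K (c.2 : ℕ) (dsp n z v)) (dsp n z v) :=
  dspJ_eq hn ho (zj_memJ ho hK (dspJ_mem hn ho z v) _ _) v

theorem dsp_stepJ {n K o : ℕ} [NeZero n] (hn : n + o = 2 * K + 1) (ho : o ≤ 1) (hK : 2 ≤ K)
    (e : Bool) (z v : ZMod n × ZMod n) :
    dsp n z (v + cz n (ev e)) = smJ K o e (dsp n z v) := by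
  have h1 : z = (v + cz n (ev e)) - cz n (smJ K o e (dsp n z v)) := by
    rw [cz_smJ hn, cz_add, cz_dsp]; abel
  conv_lhs => rw [h1]
  exact dspJ_eq hn ho (smJ_memJ ho hK (dspJ_mem hn ho z v) e) _

theorem ne_of_dsJ {n : ℕ} (z v : ZMod n × ZMod n) (h : dsp n z v ≠ 0) : z ≠ v := by
  rintro rfl
  apply h
  unfold dsp
  rw [sub_self]
  simp

theorem safe_stepJ {K o : ℕ} (hK : 2 ≤ K) {D : ℤ × ℤ} (h : SafeJ K o D) (c b : Bool) :
    zj K o c b D ≠ 0 ∧ SafeJ K o (smJ K o true (zj K o c b D)) := by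
  obtain ⟨h1, h2, h3, h4⟩ := h
  have hds : ds D = D.1 + D.2 := by
    unfold ds; rw [abs_of_nonneg h1, abs_of_nonneg h2]
  refine ⟨zj_ne_zero hK (by omega) c b, ?_⟩
  have hzj : zj K o c b D = zm c D := by
    by_cases ho : o = 1
    · unfold zj
      rw [if_neg (by rintro ⟨_, _, h5, _⟩; omega), if_neg (by rintro ⟨_, _, h5, _⟩; omega)]
    · unfold zj
      rw [if_neg (fun h5 => ho h5.1), if_neg (fun h5 => ho h5.1)]
  rw [hzj]
  have key : ∀ q : ℤ × ℤ, 0 ≤ q.1 → 0 ≤ q.2 → q.1 + q.2 = D.1 + D.2 - 1 →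
      SafeJ K o (smJ K o true q) := by
    intro q hq1 hq2 hq3
    unfold smJ wrJ
    rw [if_pos rfl, if_neg (by omega)]
    refine ⟨by simp only; omega, by simp only; omega, by simp only; omega, by simp only; omega⟩
  have kx : D.1 ≠ 0 → SafeJ K o (smJ K o true (hx D)) := by
    intro h0
    have hs : D.1.sign = 1 := Int.sign_eq_one_of_pos (by omega)
    apply key
    · rw [hx_fst, hs]; omega
    · rw [hx_snd]; exact h2
    · rw [hx_fst, hx_snd, hs]; ring
  have ky : D.2 ≠ 0 → SafeJ K o (smJ K o true (hy D)) := by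
    intro h0
    have hs : D.2.sign = 1 := Int.sign_eq_one_of_pos (by omega)
    apply key
    · rw [hy_fst]; exact h1
    · rw [hy_snd, hs]; omega
    · rw [hy_fst, hy_snd, hs]; ring
  unfold zm
  split_ifs with g1 g2 g3
  · apply ky; omega
  · exact kx g1
  · exact kx g1
  · exact ky g2

/-- the survivor who always moves east -/
noncomputable def eastRuleJ (n k : ℕ) : Rule (ZMod n × ZMod n) k Unit where
  act _ _ v := (v + cz n (ev true), ())

theorem safe_runJ {n K o k : ℕ} [NeZero n] (hn : n + o = 2 * K + 1) (ho : o ≤ 1) (hK : 2 ≤ K)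
    (s : St (ZMod n × ZMod n) k Unit)
    (hs : ∀ i, SafeJ K o (dsp n (s.zs i) s.sv)) (ξ : ℕ → Fin k → Bool × Fin 6) (t : ℕ)
    (i : Fin k) :
    SafeJ K o (dsp n (((eastRuleJ n k).run (stpJ n K o) s ξ t).zs i)
      ((eastRuleJ n k).run (stpJ n K o) s ξ t).sv) := by
  induction t with
  | zero => exact hs i
  | succ t ih =>
    have h := (safe_stepJ hK ih (ξ t i).1 (jc K ((ξ t i).2 : ℕ)
      (dsp n (((eastRuleJ n k).run (stpJ n K o) s ξ t).zs i)
        ((eastRuleJ n k).run (stpJ n K o) s ξ t).sv))).2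
    rw [← dsp_stpJ hn ho hK, ← dsp_stepJ hn ho hK] at h
    exact h

theorem val_safeJ {n K o k : ℕ} [NeZero n] (hn : n + o = 2 * K + 1) (ho : o ≤ 1) (hK : 2 ≤ K)
    (T' : ℕ) (z : Fin k → ZMod n × ZMod n) (v : ZMod n × ZMod n)
    (hs : ∀ i, SafeJ K o (dsp n (z i) v)) : 1 ≤ val (tor n) T' z v := by
  classical
  have hσ : (eastRuleJ n k).Legal (tor n) := by
    intro m z v
    right
    exact adj_ev (by omega) v true
  have h1 := alive_le_val (tor n) (stpJ n K o) (realises_stpJ hn ho hK) (eastRuleJ n k) hσ T'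
    ⟨(), z, v⟩
  have h2 : ∀ c : Fin T' → Fin k → Bool × Fin 6, (eastRuleJ n k).Alive (stpJ n K o) ⟨(), z, v⟩
      (ext c) T' := by
    intro c
    have hr := safe_runJ hn ho hK (⟨(), z, v⟩ : St _ k Unit) hs (ext c)
    refine ⟨fun t _ i => ?_, fun t _ i => ?_⟩
    · apply ne_of_dsJ
      intro h0
      have := (hr t i).2.2.1
      rw [h0] at this
      simp at this
    · apply ne_of_dsJ
      have h3 := (safe_stepJ hK (hr t i) (ext c t i).1 (jc K ((ext c t i).2 : ℕ)
        (dsp n (((eastRuleJ n k).run (stpJ n K o) ⟨(), z, v⟩ (ext c) t).zs i)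
          ((eastRuleJ n k).run (stpJ n K o) ⟨(), z, v⟩ (ext c) t).sv))).1
      rw [← dsp_stpJ hn ho hK] at h3
      exact h3
  have h3 : ∑ c : Fin T' → Fin k → Bool × Fin 6,
      (if (eastRuleJ n k).Alive (stpJ n K o) ⟨(), z, v⟩ (ext c) T' then (1 : ℝ) else 0)
      = ((Fintype.card (Bool × Fin 6) : ℝ) ^ k) ^ T' := by
    rw [Finset.sum_congr rfl fun c _ => if_pos (h2 c)]
    simp
  have h4 : (0 : ℝ) < ((Fintype.card (Bool × Fin 6) : ℝ) ^ k) ^ T' := by
    have : (0 : ℝ) < Fintype.card (Bool × Fin 6) := by exact_mod_cast Fintype.card_pos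
    positivity
  have h5 : ((Fintype.card (Bool × Fin 6) : ℝ) ^ k) ^ T' * 1
      ≤ ((Fintype.card (Bool × Fin 6) : ℝ) ^ k) ^ T' * val (tor n) T' z v := by
    rw [mul_one]
    refine le_trans (le_of_eq ?_) h1
    rw [← h3]
  exact le_of_mul_le_mul_left h5 h4

/-- the rule of the survivor on the torus -/
noncomputable def zruleJ (n R L₁ k : ℕ) : Rule (ZMod n × ZMod n) k Mem where
  act m z v :=
    (v + cz n (ev (dirn R L₁ m (fun i => dsp n (z i) v))),
      nmem R L₁ m (fun i => dsp n (z i) v))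

theorem zruleJ_run {n K o : ℕ} [NeZero n] (hn : n + o = 2 * K + 1) (ho : o ≤ 1) (hK : 2 ≤ K)
    (R L₁ : ℕ) {k : ℕ} (c : ℕ → Fin k → Bool × Fin 6) (p : Fin k → ℤ × ℤ)
    (hp : ∀ i, p i ∈ boxJ K o) (v0 : ZMod n × ZMod n) (t : ℕ) :
    ((zruleJ n R L₁ k).run (stpJ n K o)
        ⟨⟨0, true, 0, true⟩, fun i => v0 - cz n (p i), v0⟩ c t).mem
      = (runJ K o R L₁ (fun i t => (c t i).1) (fun i t => jc K ((c t i).2 : ℕ)) p t).2 ∧
    ∀ i, dsp n (((zruleJ n R L₁ k).run (stpJ n K o)
        ⟨⟨0, true, 0, true⟩, fun i => v0 - cz n (p i), v0⟩ c t).zs i)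
        ((zruleJ n R L₁ k).run (stpJ n K o)
        ⟨⟨0, true, 0, true⟩, fun i => v0 - cz n (p i), v0⟩ c t).sv
      = (runJ K o R L₁ (fun i t => (c t i).1) (fun i t => jc K ((c t i).2 : ℕ)) p t).1 i := by
  induction t with
  | zero => exact ⟨rfl, fun i => dspJ_eq hn ho (hp i) v0⟩
  | succ t ih =>
    obtain ⟨ih1, ih2⟩ := ih
    have hq : (fun i => dsp n (stpJ n K o (c t i)
        (((zruleJ n R L₁ k).run (stpJ n K o)
        ⟨⟨0, true, 0, true⟩, fun i => v0 - cz n (p i), v0⟩ c t).zs i)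
        ((zruleJ n R L₁ k).run (stpJ n K o)
        ⟨⟨0, true, 0, true⟩, fun i => v0 - cz n (p i), v0⟩ c t).sv)
        ((zruleJ n R L₁ k).run (stpJ n K o)
        ⟨⟨0, true, 0, true⟩, fun i => v0 - cz n (p i), v0⟩ c t).sv)
        = fun i => zj K o (c t i).1 (jc K ((c t i).2 : ℕ)
            ((runJ K o R L₁ (fun i t => (c t i).1) (fun i t => jc K ((c t i).2 : ℕ)) p t).1 i))
            ((runJ K o R L₁ (fun i t => (c t i).1) (fun i t => jc K ((c t i).2 : ℕ)) p t).1 i) := by
      funext i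
      rw [dsp_stpJ hn ho hK, ih2]
    refine ⟨?_, fun i => ?_⟩
    · change nmem R L₁ _ _ = nmem R L₁ _ _
      rw [hq, ih1]
    · change dsp n _ (_ + cz n (ev (dirn R L₁ _ _))) = smJ K o (dirn R L₁ _ _) _
      rw [dsp_stepJ hn ho hK, hq, ih1]
      exact congrArg (smJ K o _) (congrFun hq i)

open scoped Classical in
theorem surv_geJ {n K o k : ℕ} [NeZero n] (hn : n + o = 2 * K + 1) (ho : o ≤ 1) (hK : 2 ≤ K)
    (R L₁ T : ℕ) :
    (((Fintype.piFinset (fun _ : Fin k =>
      boxJ K o ×ˢ (univ : Finset ((Fin T → Bool) × (Fin T → Fin 6))))).filter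
      (fun x => (∀ t ≤ T, ∀ i, 2 ≤ ds ((runJ K o R L₁ (fun i => ex (x i).2.1)
          (fun i t => jc K (ex6 (x i).2.2 t)) (fun i => (x i).1) t).1 i)) ∧
        ∀ i, SafeJ K o ((runJ K o R L₁ (fun i => ex (x i).2.1)
          (fun i t => jc K (ex6 (x i).2.2 t)) (fun i => (x i).1) T).1 i))).card : ℝ) /
      (((n : ℝ) ^ 2 * (2 ^ T * 6 ^ T)) ^ k) ≤ surv (tor n) k := by
  set X := ((Fintype.piFinset (fun _ : Fin k =>
      boxJ K o ×ˢ (univ : Finset ((Fin T → Bool) × (Fin T → Fin 6))))).filter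
      (fun x => (∀ t ≤ T, ∀ i, 2 ≤ ds ((runJ K o R L₁ (fun i => ex (x i).2.1)
          (fun i t => jc K (ex6 (x i).2.2 t)) (fun i => (x i).1) t).1 i)) ∧
        ∀ i, SafeJ K o ((runJ K o R L₁ (fun i => ex (x i).2.1)
          (fun i t => jc K (ex6 (x i).2.2 t)) (fun i => (x i).1) T).1 i))) with hX
  let F : St (ZMod n × ZMod n) k Mem → Prop :=
    fun s => ∀ i, SafeJ K o (dsp n (s.zs i) s.sv)
  have hσ : (zruleJ n R L₁ k).Legal (tor n) := by
    intro m z v
    right
    exact adj_ev (by omega) v _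
  have hcardV : (Fintype.card (ZMod n × ZMod n) : ℝ) = (n : ℝ) ^ 2 := by
    rw [Fintype.card_prod, ZMod.card]; push_cast; ring
  have hcardB : (Fintype.card (Bool × Fin 6) : ℝ) = 2 * 6 := by
    rw [Fintype.card_prod, Fintype.card_bool, Fintype.card_fin]; norm_num
  -- the two sequences of coins agree
  have hex : ∀ (u : Fin T → Bool) (w : Fin T → Fin 6) (j : ℕ), j < T →
      (ext (fun j => (u j, w j)) j).1 = ex u j ∧
      ((ext (fun j => (u j, w j)) j).2 : ℕ) = ex6 w j := by
    intro u w j hj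
    unfold ext ex ex6
    rw [dif_pos hj, dif_pos hj, dif_pos hj]
    exact ⟨rfl, rfl⟩
  -- a version of the run with the extended coins
  have hrun : ∀ (x : Fin k → (ℤ × ℤ) × ((Fin T → Bool) × (Fin T → Fin 6))) (t : ℕ), t ≤ T →
      runJ K o R L₁ (fun i t => (ext (fun j => ((x i).2.1 j, (x i).2.2 j)) t).1)
        (fun i t => jc K ((ext (fun j => ((x i).2.1 j, (x i).2.2 j)) t).2 : ℕ))
        (fun i => (x i).1) t
      = runJ K o R L₁ (fun i => ex (x i).2.1) (fun i t => jc K (ex6 (x i).2.2 t))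
        (fun i => (x i).1) t := by
    intro x t
    induction t with
    | zero => intro _; rfl
    | succ t ih =>
      intro ht
      have h1 := ih (by omega)
      have h2 : ∀ i, (ext (fun j => ((x i).2.1 j, (x i).2.2 j)) t).1 = ex (x i).2.1 t := fun i =>
        (hex _ _ t (by omega)).1
      have h3 : ∀ i, ((ext (fun j => ((x i).2.1 j, (x i).2.2 j)) t).2 : ℕ) = ex6 (x i).2.2 t :=
        fun i => (hex _ _ t (by omega)).2
      unfold runJ
      simp only [h1, h2, h3]
  -- lower bound for the horizons `T + T'`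
  have main : ∀ T' : ℕ, (X.card : ℝ) / (((n : ℝ) ^ 2 * (2 ^ T * 6 ^ T)) ^ k)
      ≤ survT (tor n) k (T + T') := by
    intro T'
    have h1 := alive_fin_le_survT (tor n) (stpJ n K o) (realises_stpJ hn ho hK)
      (zruleJ n R L₁ k) hσ F T' (fun s hs => val_safeJ hn ho hK T' s.zs s.sv hs) T
      ⟨0, true, 0, true⟩ 0
    rw [hcardV, hcardB] at h1
    have h12 : ((2 : ℝ) * 6) ^ T = 2 ^ T * 6 ^ T := mul_pow _ _ _
    rw [h12] at h1
    refine le_trans ?_ h1
    apply div_le_div_of_nonneg_right _ (by positivity)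
    simp only [Finset.sum_boole]
    norm_cast
    refine Finset.card_le_card_of_injOn
      (fun x i => ((0 : ZMod n × ZMod n) - cz n (x i).1, fun j => ((x i).2.1 j, (x i).2.2 j)))
      ?_ ?_
    · intro x hx
      rw [Finset.mem_coe, hX, Finset.mem_filter, Fintype.mem_piFinset] at hx
      obtain ⟨hx1, hx2, hx3⟩ := hx
      have hbox : ∀ i, (x i).1 ∈ boxJ K o := fun i => (Finset.mem_product.1 (hx1 i)).1
      rw [Finset.mem_coe, Finset.mem_filter]
      refine ⟨Finset.mem_univ _, ?_⟩
      have hr := zruleJ_run hn ho hK R L₁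
        (fun t i => ext (fun j => ((x i).2.1 j, (x i).2.2 j)) t) (fun i => (x i).1) hbox 0
      refine ⟨⟨fun t ht i => ?_, fun t ht i => ?_⟩, ?_⟩
      · apply ne_of_dsJ
        have h5 := (hr t).2 i
        rw [hrun x t ht] at h5
        intro h0
        have := hx2 t ht i
        rw [← h5, h0] at this
        simp [ds] at this
      · apply ne_of_dsJ
        have h5 := (hr t).2 i
        rw [hrun x t ht.le] at h5
        have h6 := hx2 t ht.le i
        rw [← h5] at h6
        have h3 := zj_ne_zero (o := o) hK h6 (ext (fun j => ((x i).2.1 j, (x i).2.2 j)) t).1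
          (jc K ((ext (fun j => ((x i).2.1 j, (x i).2.2 j)) t).2 : ℕ)
          (dsp n (((zruleJ n R L₁ k).run (stpJ n K o)
            ⟨⟨0, true, 0, true⟩, fun i => 0 - cz n ((fun i => (x i).1) i), 0⟩
            (fun t i => ext (fun j => ((x i).2.1 j, (x i).2.2 j)) t) t).zs i)
          ((zruleJ n R L₁ k).run (stpJ n K o)
            ⟨⟨0, true, 0, true⟩, fun i => 0 - cz n ((fun i => (x i).1) i), 0⟩
            (fun t i => ext (fun j => ((x i).2.1 j, (x i).2.2 j)) t) t).sv))
        rw [← dsp_stpJ hn ho hK] at h3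
        exact h3
      · change ∀ i, SafeJ K o _
        intro i
        have h5 := (hr T).2 i
        rw [hrun x T le_rfl] at h5
        have h6 := hx3 i
        rw [← h5] at h6
        exact h6
    · intro x hx y hy hxy
      rw [Finset.mem_coe, hX, Finset.mem_filter, Fintype.mem_piFinset] at hx hy
      funext i
      have h6 := congrFun hxy i
      simp only [Prod.mk.injEq, sub_right_inj] at h6
      have hb1 := (Finset.mem_product.1 (hx.1 i)).1
      have hb2 := (Finset.mem_product.1 (hy.1 i)).1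
      have h7 : (x i).1 = (y i).1 := (czJ_eq_iff hn ho hb1 hb2).1 h6.1
      have h8 : (x i).2.1 = (y i).2.1 := by
        funext j
        have := congrFun h6.2 j
        exact congrArg Prod.fst this
      have h9 : (x i).2.2 = (y i).2.2 := by
        funext j
        have := congrFun h6.2 j
        exact congrArg Prod.snd this
      exact Prod.ext h7 (Prod.ext h8 h9)
  unfold surv
  apply le_ciInf
  intro T''
  rcases le_total T T'' with h | h
  · obtain ⟨T', rfl⟩ := Nat.exists_eq_add_of_le h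
    exact main T'
  · exact (main 0).trans (survT_anti _ _ (by simpa using h))

end MP34e
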