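import Pool.Agent.Work.MP_34e428_co.Walk

/-! The upper bound `z(T_n) ≤ 1000 n^{3/2}`. -/

open Finset SimpleGraph
open scoped Classical

namespace MP34e

theorem axes_eq (l : List (ℤ × ℤ)) (hl : ∀ s ∈ l, legal s) (s : ℤ × ℤ) :
    axes l s = (ray l (1 + s.1) s.2 + ray (l.map Prod.swap) (1 + s.2) s.1)
      + (ray (l.map nx) (1 - s.1) s.2 + ray (l.map rt) (1 - s.2) s.1) := by
  unfold axes
  have hsw := legal_map _ legal_swap l hl
  have hnx := legal_map _ legal_nx l hl
  have hrt := legal_map _ legal_rt l hl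
  set f : ℤ → ℝ := fun a => if a = 0 then 0 else pc l ((a, 0) + s) + pc l ((0, a) + s) with hf
  have p1 : ∀ j : ℕ, f ((j : ℤ) + 1) = pc l (1 + s.1 + j, s.2)
      + pc (l.map Prod.swap) (1 + s.2 + j, s.1) := by
    intro j
    rw [hf]
    simp only
    rw [if_neg (by omega)]
    have e1 : (((j : ℤ) + 1, (0 : ℤ)) + s) = (1 + s.1 + j, s.2) := by
      ext <;> simp; ring
    have e2 : (((0 : ℤ), (j : ℤ) + 1) + s) = (1 + s.2 + (j : ℤ), s.1).swap := by
      ext <;> simp; ring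
    rw [e1, e2]
    congr 1
    have := pc_swap l (1 + s.2 + (j : ℤ), s.1).swap
    rw [Prod.swap_swap] at this
    exact this.symm
  have p2 : ∀ j : ℕ, f (-((j : ℤ) + 1)) = pc (l.map nx) (1 - s.1 + j, s.2)
      + pc (l.map rt) (1 - s.2 + j, s.1) := by
    intro j
    rw [hf]
    simp only
    rw [if_neg (by omega)]
    have e1 : nx ((-((j : ℤ) + 1), (0 : ℤ)) + s) = (1 - s.1 + j, s.2) := by
      unfold nx
      ext <;> simp; ring
    have e2 : rt (((0 : ℤ), -((j : ℤ) + 1)) + s) = (1 - s.2 + (j : ℤ), s.1) := by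
      unfold rt nx
      ext <;> simp; ring
    rw [← e1, ← e2, pc_nx, pc_rt]
  have s1 : Summable (fun j : ℕ => f ((j : ℤ) + 1)) := by
    simp_rw [p1]
    exact (ray_summable l hl _ _).add (ray_summable _ hsw _ _)
  have s2 : Summable (fun j : ℕ => f (-((j : ℤ) + 1))) := by
    simp_rw [p2]
    exact (ray_summable _ hnx _ _).add (ray_summable _ hrt _ _)
  have s3 : Summable (fun j : ℕ => f (j : ℤ)) := by
    rw [← summable_nat_add_iff 1]
    simpa using s1
  have h := tsum_of_nat_of_neg_add_one s3 s2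
  rw [h, s3.tsum_eq_zero_add]
  have f0 : f ((0 : ℕ) : ℤ) = 0 := by rw [hf]; simp
  rw [f0, zero_add]
  congr 1
  · rw [show (fun b : ℕ => f ((b + 1 : ℕ) : ℤ)) = fun j : ℕ => f ((j : ℤ) + 1) by
      ext j; push_cast; rfl]
    simp_rw [p1]
    rw [(ray_summable l hl _ _).tsum_add (ray_summable _ hsw _ _)]
    rfl
  · simp_rw [p2]
    rw [(ray_summable _ hnx _ _).tsum_add (ray_summable _ hrt _ _)]
    rfl

theorem axes_ge (l : List (ℤ × ℤ)) (hl : ∀ s ∈ l, legal s) (s : ℤ × ℤ) (hs : legal s) :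
    1 / 5 * Real.sqrt l.length ≤ axes l s := by
  obtain ⟨c, hc⟩ := evl_eq l s
  have h1 := pot_main l hl s hs 0 0 0 0 0 0 0
  rw [hc 0] at h1
  have h2 := uu_ge l.length (0 + c)
  have h3 : ((|(((0 : ℤ).natAbs : ℕ) : ℤ) - ((0 : ℤ).natAbs : ℕ) - 0| + 2 * (FF 0 0 0 + FF 0 0 0) : ℤ) : ℝ)
      = 0 := by simp [FF]
  rw [h3, zero_add] at h1
  simp only [Nat.cast_zero, zero_add, zero_sub] at h1 h2
  have h4 : WW l s.1 (-s.1).toNat s.1.toNat s.2 (-s.2).toNat s.2.toNat ≤ axes l s := by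
    rw [axes_eq l hl s]
    unfold WW fam
    have a1 := ray_anti _ (legal_map _ legal_nx l hl) (1 - s.1) ((-s.1).toNat + 1) s.2 (by omega)
    have a2 := ray_anti _ hl (1 + s.1) (s.1.toNat + 1) s.2 (by omega)
    have a3 := ray_anti _ (legal_map _ legal_rt l hl) (1 - s.2) ((-s.2).toNat + 1) s.1 (by omega)
    have a4 := ray_anti _ (legal_map _ legal_swap l hl) (1 + s.2) (s.2.toNat + 1) s.1 (by omega)
    linarith
  linarith

theorem sqrt_cube (L : ℕ) : ((L : ℝ) + 1) * Real.sqrt ((L : ℝ) + 1)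
    ≤ L * Real.sqrt L + 3 / 2 * (Real.sqrt L + 1) := by
  have hL : (0 : ℝ) ≤ L := by positivity
  set x := Real.sqrt L with hx
  set y := Real.sqrt ((L : ℝ) + 1) with hy
  have hx0 : 0 ≤ x := Real.sqrt_nonneg _
  have hxx : x * x = L := Real.mul_self_sqrt hL
  have hyy : y * y = L + 1 := Real.mul_self_sqrt (by linarith)
  have hy1 : 1 ≤ y := by
    rw [hy]; exact Real.one_le_sqrt.2 (by linarith)
  have hyx : y ≤ x + 1 := by
    by_contra h
    push Not at h
    nlinarith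
  have hxy : x ≤ y := by
    by_contra h
    push Not at h
    nlinarith
  have h1 : (y - x) * (y + x) = 1 := by nlinarith
  have h2 : (y - x) * (y * y + x * y + x * x) ≤ (y - x) * (3 / 2 * y * (y + x)) := by
    apply mul_le_mul_of_nonneg_left _ (by linarith)
    nlinarith
  have h3 : (y - x) * (3 / 2 * y * (y + x)) = 3 / 2 * y := by
    have : (y - x) * (3 / 2 * y * (y + x)) = 3 / 2 * y * ((y - x) * (y + x)) := by ring
    rw [this, h1, mul_one]
  have h4 : (y - x) * (y * y + x * y + x * x) = y * y * y - x * x * x := by ring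
  rw [← hyy, ← hxx]
  linarith

theorem mass_ge32 (l : List (ℤ × ℤ)) (hl : ∀ s ∈ l, legal s) :
    1 + 2 / 15 * (l.length * Real.sqrt l.length) ≤ mass l := by
  induction l with
  | nil => rw [mass_nil]; simp
  | cons s l ih =>
    have hl' : ∀ s ∈ l, legal s := fun t ht => hl t (by simp [ht])
    have hs := hl s (by simp)
    rw [mass_cons s l hs hl', List.length_cons]
    have h1 := ih hl'
    have h2 := axes_ge l hl' s hs
    have h3 := pc_le_one l s
    have h4 := sqrt_cube l.length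
    push_cast
    linarith

theorem surv_le_half {n : ℕ} (hn : 3 ≤ n) (k : ℕ) (hk : 1000 * (n * Real.sqrt n) ≤ k) :
    surv (torus n) k ≤ 1 / 2 := by
  set T := (n - 2) / 6 with hT
  have h1 : 6 * T + 2 ≤ n := by omega
  have h2 : n ≤ 6 * T + 7 := by omega
  have hn0 : (0 : ℝ) < n := by positivity
  have hn2 : (0 : ℝ) < (n : ℝ) ^ 2 := by positivity
  have hT0 : (0 : ℝ) ≤ T := by positivity
  have h1' : (6 * (T : ℝ) + 2) ≤ n := by exact_mod_cast h1
  have hsT : Real.sqrt T ≤ T + 1 := by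
    rw [Real.sqrt_le_left (by linarith)]
    nlinarith
  have hsT0 := Real.sqrt_nonneg (T : ℝ)
  have hSn : 1 + 2 / 15 * (T * Real.sqrt T) ≤ (n : ℝ) ^ 2 := by
    have : (T : ℝ) * Real.sqrt T ≤ T * (T + 1) := mul_le_mul_of_nonneg_left hsT hT0
    nlinarith
  refine (surv_torus_le hn k T h1 (1 + 2 / 15 * (T * Real.sqrt T)) hSn (fun s hs hl => by
    have := mass_ge32 s hl
    rw [hs] at this
    exact this)).trans ?_
  -- the exponent
  have hS : n * Real.sqrt n ≤ 375 * (1 + 2 / 15 * (T * Real.sqrt T)) := by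
    rcases Nat.eq_zero_or_pos T with h0 | h0
    · have h7 : (n : ℝ) ≤ 7 := by
        have : n ≤ 7 := by omega
        exact_mod_cast this
      have h8 : Real.sqrt n ≤ 7 := by
        rw [Real.sqrt_le_left (by norm_num)]
        linarith
      have h9 : (n : ℝ) * Real.sqrt n ≤ 7 * 7 :=
        mul_le_mul h7 h8 (Real.sqrt_nonneg _) (by norm_num)
      have h10 : 0 ≤ (T : ℝ) * Real.sqrt T := by positivity
      linarith
    · have h7 : (n : ℝ) ≤ 13 * T := by
        have : n ≤ 13 * T := by omega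
        exact_mod_cast this
      have h8 : Real.sqrt n ≤ 3.65 * Real.sqrt T := by
        have : Real.sqrt (3.65 ^ 2 * T) = 3.65 * Real.sqrt T := by
          rw [Real.sqrt_mul (by norm_num), Real.sqrt_sq (by norm_num)]
        rw [← this]
        apply Real.sqrt_le_sqrt
        nlinarith
      have h9 : (n : ℝ) * Real.sqrt n ≤ (13 * T) * (3.65 * Real.sqrt T) :=
        mul_le_mul h7 h8 (Real.sqrt_nonneg _) (by positivity)
      have h10 : 0 ≤ (T : ℝ) * Real.sqrt T := by positivity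
      linarith
  set S := 1 + 2 / 15 * (T * Real.sqrt T) with hSdef
  have hS0 : 0 < S := by positivity
  have hexp : 7 / 3 * (n : ℝ) ≤ S * k / (n : ℝ) ^ 2 := by
    rw [le_div_iff₀ hn2]
    have hsq : Real.sqrt n * Real.sqrt n = n := Real.mul_self_sqrt hn0.le
    have a1 : S * (1000 * (n * Real.sqrt n)) ≤ S * k := mul_le_mul_of_nonneg_left hk hS0.le
    have a2 : (n * Real.sqrt n) / 375 * (1000 * (n * Real.sqrt n))
        ≤ S * (1000 * (n * Real.sqrt n)) := by
      apply mul_le_mul_of_nonneg_right _ (by positivity)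
      linarith
    have a3 : (n * Real.sqrt n) / 375 * (1000 * (n * Real.sqrt n)) = 8 / 3 * (n : ℝ) ^ 3 := by
      have : (n * Real.sqrt n) / 375 * (1000 * (n * Real.sqrt n))
          = 8 / 3 * ((n : ℝ) ^ 2 * (Real.sqrt n * Real.sqrt n)) := by ring
      rw [this, hsq]; ring
    have a4 : 7 / 3 * (n : ℝ) * (n : ℝ) ^ 2 ≤ 8 / 3 * (n : ℝ) ^ 3 := by
      have : 0 ≤ (n : ℝ) ^ 3 := by positivity
      nlinarith
    linarith
  have e1 : Real.exp (-(S * k / (n : ℝ) ^ 2)) ≤ Real.exp (-(7 / 3 * (n : ℝ))) :=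
    Real.exp_le_exp.2 (by linarith)
  have e2 : (5 : ℝ) ^ T ≤ Real.exp (n / 3) := by
    have h5 : (5 : ℝ) ≤ Real.exp 2 := by
      have := Real.exp_one_gt_d9
      have h6 : Real.exp 2 = Real.exp 1 ^ 2 := by rw [← Real.exp_nat_mul]; norm_num
      rw [h6]; nlinarith
    calc (5 : ℝ) ^ T ≤ Real.exp 2 ^ T := pow_le_pow_left₀ (by norm_num) h5 T
      _ = Real.exp (T * 2) := by rw [← Real.exp_nat_mul]
      _ ≤ Real.exp (n / 3) := Real.exp_le_exp.2 (by linarith)
  have e3 : 2 * (n : ℝ) ^ 2 ≤ Real.exp (2 * n) := by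
    have h6 : Real.exp (2 * n) = Real.exp n * Real.exp n := by rw [← Real.exp_add]; ring_nf
    have h7 := Real.quadratic_le_exp_of_nonneg hn0.le
    rw [h6]
    have h8 : (3 / 2 : ℝ) * n ≤ Real.exp n := by nlinarith [sq_nonneg ((n : ℝ) - 1)]
    have h9 : (3 / 2 * (n : ℝ)) * (3 / 2 * n) ≤ Real.exp n * Real.exp n :=
      mul_le_mul h8 h8 (by positivity) (Real.exp_pos _).le
    nlinarith
  calc (n : ℝ) ^ 2 * 5 ^ T * Real.exp (-(S * k / (n : ℝ) ^ 2))
      ≤ (Real.exp (2 * n) / 2) * Real.exp (n / 3) * Real.exp (-(7 / 3 * (n : ℝ))) := by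
        apply mul_le_mul _ e1 (Real.exp_pos _).le (by positivity)
        apply mul_le_mul _ e2 (by positivity) (by positivity)
        linarith
    _ = 1 / 2 := by
        rw [div_mul_eq_mul_div, div_mul_eq_mul_div, ← Real.exp_add, ← Real.exp_add]
        have : 2 * (n : ℝ) + n / 3 + -(7 / 3 * n) = 0 := by ring
        rw [this, Real.exp_zero]

/-- `z(T_n) ≤ 1001 n^{3/2}` for every `n ≥ 3`. -/
theorem zombieNumber_le {n : ℕ} (hn : 3 ≤ n) :
    (zombieNumber (torus n) : ℝ) ≤ 1001 * (n * Real.sqrt n) := by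
  have h1 : zombieNumber (torus n) ≤ ⌈1000 * (n * Real.sqrt n)⌉₊ :=
    Nat.sInf_le (surv_le_half hn _ (Nat.le_ceil _))
  have h2 : (⌈1000 * (n * Real.sqrt n)⌉₊ : ℝ) < 1000 * (n * Real.sqrt n) + 1 :=
    Nat.ceil_lt_add_one (by positivity)
  have h3 : (zombieNumber (torus n) : ℝ) ≤ ⌈1000 * (n * Real.sqrt n)⌉₊ := by exact_mod_cast h1
  have h4 : (1 : ℝ) ≤ n * Real.sqrt n := by
    have : (1 : ℝ) ≤ n := by
      have : 1 ≤ n := by omega
      exact_mod_cast this
    have h5 : 1 ≤ Real.sqrt n := Real.one_le_sqrt.2 this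
    nlinarith
  linarith

end MP34e
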