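import Pool.Agent.Work.MP_34e428_co.LHistJ
import Pool.Agent.Work.MP_34e428_co.LValJ
import Pool.Agent.Work.MP_34e428_co.LAsym
import Pool.Agent.Work.MP_34e428_co.LCountJ
import Pool.Agent.Work.MP_34e428_co.LNoJump
import Pool.Agent.Work.MP_34e428_co.LUnion
import Pool.Agent.Work.MP_34e428_co.LCoin1
import Pool.Agent.Work.MP_34e428_co.LCoin3
import Pool.Agent.Work.MP_34e428_co.LLocalJ
import Pool.Agent.Work.MP_34e428_co.Up32

/-! Lower bound for the zombie number of the toroidal grid: assembly. -/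

set_option autoImplicit false

open Finset
open scoped Classical

namespace MP34e

/-- the sample space of one zombie -/
noncomputable def Sp (K o T : ℕ) : Finset ((ℤ × ℤ) × ((Fin T → Bool) × (Fin T → Fin 6))) :=
  boxJ K o ×ˢ (univ : Finset ((Fin T → Bool) × (Fin T → Fin 6)))

theorem card_boxJ {n K o : ℕ} (hn : n + o = 2 * K + 1) : ((boxJ K o).card : ℝ) = (n : ℝ) ^ 2 := by
  unfold boxJ
  rw [Finset.card_product, Int.card_Icc]
  have : ((K : ℤ) + 1 - (-(K : ℤ) + o)).toNat = n := by omega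
  rw [this]
  push_cast
  ring

theorem card_Sp {n K o : ℕ} (T : ℕ) (hn : n + o = 2 * K + 1) :
    ((Sp K o T).card : ℝ) = (n : ℝ) ^ 2 * (2 ^ T * 6 ^ T) := by
  unfold Sp
  rw [Finset.card_product, Nat.cast_mul, card_boxJ hn]
  congr 1
  rw [Finset.card_univ, Fintype.card_prod]
  simp

theorem boxJ_subset (K o : ℕ) : boxJ K o ⊆ box K := by
  intro p hp
  unfold boxJ at hp
  unfold box
  rw [mem_product, mem_Icc, mem_Icc] at *
  omega

/-- an event which only depends on the initial displacement and on the first coins -/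
theorem count_Sp_pc {K o T : ℕ} (P : (ℤ × ℤ) × (Fin T → Bool) → Prop) (b : ℝ)
    (h : (((box K ×ˢ (univ : Finset (Fin T → Bool))).filter P).card : ℝ) ≤ b * 2 ^ T) :
    (((Sp K o T).filter (fun x => P (x.1, x.2.1))).card : ℝ) ≤ b * (2 ^ T * 6 ^ T) := by
  have h1 : ((Sp K o T).filter (fun x => P (x.1, x.2.1))).card ≤
      (((box K ×ˢ (univ : Finset (Fin T → Bool))).filter P) ×ˢ
        (univ : Finset (Fin T → Fin 6))).card := by
    apply Finset.card_le_card_of_injOn (fun x => ((x.1, x.2.1), x.2.2))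
    · intro x hx
      simp only [Finset.coe_filter, Set.mem_ofPred_eq, Sp, mem_product] at hx
      simp only [Finset.coe_product, Finset.coe_filter, Set.mem_prod, Set.mem_ofPred_eq,
        mem_product, Finset.coe_univ, Set.mem_univ, and_true, mem_univ]
      exact ⟨boxJ_subset K o hx.1.1, hx.2⟩
    · rintro ⟨a, b, c⟩ _ ⟨a', b', c'⟩ _ h
      simp only [Prod.mk.injEq] at h ⊢
      exact ⟨h.1.1, h.1.2, h.2⟩
  have h2 : (((Sp K o T).filter (fun x => P (x.1, x.2.1))).card : ℝ) ≤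
      (((box K ×ˢ (univ : Finset (Fin T → Bool))).filter P).card : ℝ) * 6 ^ T := by
    have h3 : ((((box K ×ˢ (univ : Finset (Fin T → Bool))).filter P) ×ˢ
        (univ : Finset (Fin T → Fin 6))).card : ℝ) =
        (((box K ×ˢ (univ : Finset (Fin T → Bool))).filter P).card : ℝ) * 6 ^ T := by
      rw [Finset.card_product]
      push_cast
      congr 1
      simp
    rw [← h3]
    exact_mod_cast h1
  calc _ ≤ _ := h2
    _ ≤ (b * 2 ^ T) * 6 ^ T := mul_le_mul_of_nonneg_right h (by positivity)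
    _ = b * (2 ^ T * 6 ^ T) := by ring

/-- an event which only depends on the first coins -/
theorem count_Sp_c {n K o T : ℕ} (hn : n + o = 2 * K + 1) (Q : (Fin T → Bool) → Prop) (b : ℝ)
    (h : (((univ : Finset (Fin T → Bool)).filter Q).card : ℝ) ≤ 2 ^ T * b) :
    (((Sp K o T).filter (fun x => Q x.2.1)).card : ℝ) ≤ b * (Sp K o T).card := by
  have h1 : (Sp K o T).filter (fun x => Q x.2.1) =
      boxJ K o ×ˢ (((univ : Finset (Fin T → Bool)).filter Q) ×ˢ
        (univ : Finset (Fin T → Fin 6))) := by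
    ext ⟨a, b, c⟩
    simp [Sp]
  rw [h1, Finset.card_product, Finset.card_product, card_Sp T hn]
  push_cast
  rw [card_boxJ hn]
  have h2 : ((univ : Finset (Fin T → Fin 6)).card : ℝ) = 6 ^ T := by simp
  rw [h2]
  calc (n : ℝ) ^ 2 * ((((univ : Finset (Fin T → Bool)).filter Q).card : ℝ) * 6 ^ T)
      ≤ (n : ℝ) ^ 2 * ((2 ^ T * b) * 6 ^ T) := by gcongr
    _ = b * ((n : ℝ) ^ 2 * (2 ^ T * 6 ^ T)) := by ring

/-- an event which only depends on the initial displacement -/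
theorem count_Sp_p {K o T : ℕ} (Q : ℤ × ℤ → Prop) (b : ℝ)
    (h : (((boxJ K o).filter Q).card : ℝ) ≤ b) :
    (((Sp K o T).filter (fun x => Q x.1)).card : ℝ) ≤ b * (2 ^ T * 6 ^ T) := by
  have h1 : (Sp K o T).filter (fun x => Q x.1) =
      ((boxJ K o).filter Q) ×ˢ (univ : Finset ((Fin T → Bool) × (Fin T → Fin 6))) := by
    ext ⟨a, b, c⟩
    simp [Sp]
  rw [h1, Finset.card_product]
  push_cast
  have h2 : ((univ : Finset ((Fin T → Bool) × (Fin T → Fin 6))).card : ℝ) = 2 ^ T * 6 ^ T := by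
    rw [Finset.card_univ, Fintype.card_prod]
    simp
  rw [h2]
  exact mul_le_mul_of_nonneg_right h (by positivity)

theorem card_close (K o R : ℕ) : (((boxJ K o).filter (fun p => ds p ≤ 30 * R)).card : ℝ) ≤
    (60 * (R : ℝ) + 1) ^ 2 := by
  have h1 : (boxJ K o).filter (fun p => ds p ≤ 30 * R) ⊆
      Icc (-(30 * R : ℤ)) (30 * R) ×ˢ Icc (-(30 * R : ℤ)) (30 * R) := by
    intro p hp
    rw [mem_filter] at hp
    have := ds_coord p
    rw [mem_product, mem_Icc, mem_Icc]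
    omega
  have h2 := Finset.card_le_card h1
  rw [Finset.card_product, Int.card_Icc] at h2
  have h3 : ((30 * (R : ℤ)) + 1 - -(30 * R)).toNat = 60 * R + 1 := by omega
  rw [h3] at h2
  calc (((boxJ K o).filter (fun p => ds p ≤ 30 * R)).card : ℝ) ≤
      (((60 * R + 1) * (60 * R + 1) : ℕ) : ℝ) := by exact_mod_cast h2
    _ = (60 * (R : ℝ) + 1) ^ 2 := by push_cast; ring

/-- bad zombies -/
def BadJ (K L₀ R B S₁ S₂ T : ℕ) (x : (ℤ × ℤ) × ((Fin T → Bool) × (Fin T → Fin 6))) : Prop :=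
  ds x.1 ≤ 30 * R ∨ ¬ GC L₀ (ex x.2.1) T ∨ ¬ GB B (4 * K) (ex x.2.1) T ∨
    ¬ ESC (B + 8 * R + 100) S₁ (ex x.2.1) T ∨ ¬ ESC (3 * K) S₂ (ex x.2.1) T

/-- near zombies -/
def NearJ (K R TN T : ℕ) (a : ℕ) (x : (ℤ × ℤ) × ((Fin T → Bool) × (Fin T → Fin 6))) : Prop :=
  ∃ t, a ≤ t ∧ t ≤ a + 12 * R ∧ t ≤ T ∧ ANearJ K R (30 * R) TN (ex x.2.1) t x.1

/-- front zombies -/
def FrJ (K R T : ℕ) (s : ℕ) (x : (ℤ × ℤ) × ((Fin T → Bool) × (Fin T → Fin 6))) : Prop :=
  AFront K (R + 4) (30 * R) (ex x.2.1) s x.1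

/-- probability of a bad zombie -/
noncomputable def epsJ (n K L₀ R B S₁ S₂ T : ℕ) : ℝ :=
  (60 * (R : ℝ) + 1) ^ 2 / (n : ℝ) ^ 2 +
          ((T : ℝ) + 1) ^ 2 * (2 * Real.exp (-((L₀ : ℝ) / 25))) +
          ((T : ℝ) + 1) ^ 2 * (2 * Real.exp (-((B : ℝ) ^ 2 / (2 * ((4 * K : ℕ) : ℝ))))) +
          ((T : ℝ) + 1) * (1 / 2) ^ (S₁ / (2 * (B + 8 * R + 100 + 2) ^ 2)) +
          ((T : ℝ) + 1) * (1 / 2) ^ (S₂ / (2 * (3 * K + 2) ^ 2))

theorem card_filter_or5 {α : Type*} (S : Finset α) (P P₁ P₂ P₃ P₄ P₅ : α → Prop)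
    [DecidablePred P] (h : ∀ x, P x → P₁ x ∨ P₂ x ∨ P₃ x ∨ P₄ x ∨ P₅ x) :
    ((S.filter P).card : ℝ) ≤
      (S.filter P₁).card + (S.filter P₂).card + (S.filter P₃).card + (S.filter P₄).card +
        (S.filter P₅).card := by
  have h0 : S.filter P ⊆ S.filter P₁ ∪ (S.filter P₂ ∪ (S.filter P₃ ∪
    (S.filter P₄ ∪ S.filter P₅))) := by
    intro x hx
    rw [mem_filter] at hx
    have := h x hx.2
    simp only [mem_union, mem_filter]
    tauto
  have h00 := Finset.card_le_card h0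
  have h1 := Finset.card_union_le (S.filter P₁) (S.filter P₂ ∪ (S.filter P₃ ∪
    (S.filter P₄ ∪ S.filter P₅)))
  have h2 := Finset.card_union_le (S.filter P₂) (S.filter P₃ ∪ (S.filter P₄ ∪ S.filter P₅))
  have h3 := Finset.card_union_le (S.filter P₃) (S.filter P₄ ∪ S.filter P₅)
  have h4 := Finset.card_union_le (S.filter P₄) (S.filter P₅)
  have h5 : (S.filter P).card ≤
      (S.filter P₁).card + (S.filter P₂).card + (S.filter P₃).card + (S.filter P₄).card +
        (S.filter P₅).card := by omega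
  exact_mod_cast h5

theorem count_BadJ {n K o L₀ R B S₁ S₂ T : ℕ} (hn : n + o = 2 * K + 1) (hn0 : 0 < n)
    (hK : 1 ≤ K) :
    (((Sp K o T).filter (BadJ K L₀ R B S₁ S₂ T)).card : ℝ) ≤
      epsJ n K L₀ R B S₁ S₂ T * (Sp K o T).card := by
  refine (card_filter_or5 (Sp K o T) (BadJ K L₀ R B S₁ S₂ T) (fun x => ds x.1 ≤ 30 * R)
    (fun x => ¬ GC L₀ (ex x.2.1) T)
    (fun x => ¬ GB B (4 * K) (ex x.2.1) T) (fun x => ¬ ESC (B + 8 * R + 100) S₁ (ex x.2.1) T)
    (fun x => ¬ ESC (3 * K) S₂ (ex x.2.1) T) (fun x hx => hx)).trans ?_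
  have h1 := count_Sp_p (K := K) (o := o) (T := T) (fun p => ds p ≤ 30 * R)
    ((60 * (R : ℝ) + 1) ^ 2) (by convert card_close K o R)
  have h2 := count_Sp_c (T := T) hn (fun c => ¬ GC L₀ (ex c) T)
    (((T : ℝ) + 1) ^ 2 * (2 * Real.exp (-((L₀ : ℝ) / 25)))) (by convert count_GC T L₀)
  have h3 := count_Sp_c (T := T) hn (fun c => ¬ GB B (4 * K) (ex c) T)
    (((T : ℝ) + 1) ^ 2 * (2 * Real.exp (-((B : ℝ) ^ 2 / (2 * ((4 * K : ℕ) : ℝ))))))
    (by convert count_GB T B (4 * K) (by omega))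
  have h4 := count_Sp_c (T := T) hn (fun c => ¬ ESC (B + 8 * R + 100) S₁ (ex c) T)
    (((T : ℝ) + 1) * (1 / 2) ^ (S₁ / (2 * (B + 8 * R + 100 + 2) ^ 2)))
    (by convert count_ESC T (B + 8 * R + 100) S₁)
  have h5 := count_Sp_c (T := T) hn (fun c => ¬ ESC (3 * K) S₂ (ex c) T)
    (((T : ℝ) + 1) * (1 / 2) ^ (S₂ / (2 * (3 * K + 2) ^ 2)))
    (by convert count_ESC T (3 * K) S₂)
  have h6 : (60 * (R : ℝ) + 1) ^ 2 * (2 ^ T * 6 ^ T) =
      (60 * (R : ℝ) + 1) ^ 2 / (n : ℝ) ^ 2 * (Sp K o T).card := by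
    rw [card_Sp T hn]
    have : (n : ℝ) ≠ 0 := by positivity
    field_simp
  rw [h6] at h1
  unfold epsJ
  have e : ∀ a b c d f s : ℝ, (a + b + c + d + f) * s = a * s + b * s + c * s + d * s + f * s := by
    intros; ring
  rw [e]
  exact add_le_add (add_le_add (add_le_add (add_le_add h1 h2) h3) h4) h5

/-- probability of a near zombie -/
noncomputable def qJ (n K R TN : ℕ) : ℝ :=
  (12 * (R : ℝ) + 1) * (10 ^ 9 * (R : ℝ) ^ 3 *
          (Real.sqrt K + ((TN : ℝ) + 1) / Real.sqrt K)) / (n : ℝ) ^ 2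

theorem count_NearJ {n K o R TN T : ℕ} (hn : n + o = 2 * K + 1) (hn0 : 0 < n) (hR : 4 ≤ R)
    (hK : 4 ≤ K) (a : ℕ) :
    (((Sp K o T).filter (NearJ K R TN T a)).card : ℝ) ≤ qJ n K R TN * (Sp K o T).card := by
  set b : ℝ := 10 ^ 9 * (R : ℝ) ^ 3 * (Real.sqrt K + ((TN : ℝ) + 1) / Real.sqrt K) with hb
  have hb0 : 0 ≤ b := by positivity
  have h1 : (Sp K o T).filter (NearJ K R TN T a) ⊆
      (Icc a (a + 12 * R)).biUnion (fun t => (Sp K o T).filter
        (fun x => t ≤ T ∧ ANearJ K R (30 * R) TN (ex x.2.1) t x.1)) := by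
    intro x hx
    rw [mem_filter] at hx
    obtain ⟨hx1, t, ht1, ht2, ht3, ht4⟩ := hx
    rw [mem_biUnion]
    exact ⟨t, by rw [mem_Icc]; exact ⟨ht1, ht2⟩, by rw [mem_filter]; exact ⟨hx1, ht3, ht4⟩⟩
  have h2 : (((Sp K o T).filter (NearJ K R TN T a)).card : ℝ) ≤
      ∑ t ∈ Icc a (a + 12 * R), (((Sp K o T).filter
        (fun x => t ≤ T ∧ ANearJ K R (30 * R) TN (ex x.2.1) t x.1)).card : ℝ) := by
    exact_mod_cast (Finset.card_le_card h1).trans Finset.card_biUnion_le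
  have h3 : ∀ t ∈ Icc a (a + 12 * R), (((Sp K o T).filter
        (fun x => t ≤ T ∧ ANearJ K R (30 * R) TN (ex x.2.1) t x.1)).card : ℝ) ≤
        b * (2 ^ T * 6 ^ T) := by
    intro t _
    by_cases ht : t ≤ T
    · have h4 := count_Sp_pc (o := o) (fun x => ANearJ K R (30 * R) TN (ex x.2) t x.1) b
        (count_ANearJ K R (30 * R) TN ht hR le_rfl hK)
      have h5 : (Sp K o T).filter (fun x => t ≤ T ∧ ANearJ K R (30 * R) TN (ex x.2.1) t x.1) =
          (Sp K o T).filter (fun x => ANearJ K R (30 * R) TN (ex x.2.1) t x.1) := by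
        apply Finset.filter_congr
        intro x _
        simp [ht]
      rw [h5]
      exact h4
    · have h5 : (Sp K o T).filter (fun x => t ≤ T ∧ ANearJ K R (30 * R) TN (ex x.2.1) t x.1) =
          ∅ := by
        apply Finset.filter_false_of_mem
        intro x _ h6
        exact ht h6.1
      rw [h5]
      simp only [Finset.card_empty, Nat.cast_zero]
      positivity
  refine h2.trans ((Finset.sum_le_sum h3).trans ?_)
  rw [Finset.sum_const, Nat.card_Icc, nsmul_eq_mul, card_Sp T hn]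
  have h6 : ((a + 12 * R + 1 - a : ℕ) : ℝ) = 12 * R + 1 := by
    have : a + 12 * R + 1 - a = 12 * R + 1 := by omega
    rw [this]; push_cast; ring
  rw [h6]
  unfold qJ
  rw [← hb]
  have : (n : ℝ) ≠ 0 := by positivity
  apply le_of_eq
  field_simp

theorem count_FrJ {n K o R T : ℕ} (hn : n + o = 2 * K + 1) (hn0 : 0 < n) (s : ℕ) (hs : s ≤ T) :
    (((Sp K o T).filter (FrJ K R T s)).card : ℝ) ≤
      (200 * ((R : ℝ) + 4)) ^ 2 / (n : ℝ) ^ 2 * (Sp K o T).card := by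
  have h1 := count_Sp_pc (K := K) (o := o) (fun x => AFront K (R + 4) (30 * R) (ex x.2) s x.1)
    ((200 * ((R + 4 : ℕ) : ℝ)) ^ 2) (count_AFront K (R + 4) (30 * R) hs (by omega) (by omega))
  refine h1.trans (le_of_eq ?_)
  rw [card_Sp T hn]
  have : (n : ℝ) ≠ 0 := by positivity
  push_cast
  field_simp

/-- the game with `k` zombies is won with probability at least `3 / 4` -/
theorem surv_ge34 {n K o k L₀ M L₁ R B S₁ TN S₂ l T : ℕ} [NeZero n] (hn : n + o = 2 * K + 1)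
    (ho : o ≤ 1) (h1 : 100 ≤ L₀) (h2 : 1000 * (M + 1) * L₀ ≤ L₁) (h3 : 1000 * L₁ ≤ R)
    (h4 : 4 ≤ R) (h5 : 200 * R + 10 * B + 10 * (30 * R) + 1000 ≤ K) (h6 : S₁ + 8 * K ≤ TN)
    (h7 : TN + (l + 1) * (S₂ + 1) + 30 * K ≤ T)
    (h8 : (k : ℝ) * epsJ n K L₀ R B S₁ S₂ T +
        ((T : ℝ) + 1) * ((k : ℝ) * qJ n K R TN) ^ (M + 1) +
        (k : ℝ) ^ 2 * ((TN : ℝ) + 1) * (2 * ((12 * R : ℕ) : ℝ) + 1) *
          ((200 * ((R : ℝ) + 4)) ^ 2 / (n : ℝ) ^ 2) ^ 2 +
        (k : ℝ) * (1 / 2) ^ l ≤ 1 / 4) : 3 / 4 ≤ surv (tor n) k := by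
  have hn0 : 0 < n := Nat.pos_of_ne_zero (NeZero.ne n)
  have hnR : (0 : ℝ) < n := by exact_mod_cast hn0
  refine le_trans ?_ (surv_geJ hn ho (by omega) R L₁ T (k := k))
  set S := Sp K o T with hS
  have hSdef : S = boxJ K o ×ˢ (univ : Finset ((Fin T → Bool) × (Fin T → Fin 6))) := rfl
  rw [← hSdef]
  set X := Fintype.piFinset (fun _ : Fin k => S) with hX
  have hXc : (X.card : ℝ) = (S.card : ℝ) ^ k := by
    rw [hX, Fintype.card_piFinset]
    simp
  have hSc : (S.card : ℝ) = (n : ℝ) ^ 2 * (2 ^ T * 6 ^ T) := card_Sp T hn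
  rw [← hSc, le_div_iff₀ (by rw [hSc]; positivity)]
  -- the bad events
  set E1 := X.filter (fun x => (∃ i, BadJ K L₀ R B S₁ S₂ T (x i)) ∨
      (∃ a ≤ T, M < (univ.filter (fun i => NearJ K R TN T a (x i))).card) ∨
      (∃ i j, i ≠ j ∧ ∃ s ≤ TN, ∃ s' ≤ TN, s ≤ s' + 12 * R ∧ s' ≤ s + 12 * R ∧
        FrJ K R T s (x i) ∧ FrJ K R T s' (x j))) with hE1
  have b1 : (E1.card : ℝ) ≤ ((k : ℝ) * epsJ n K L₀ R B S₁ S₂ T +
        ((T : ℝ) + 1) * ((k : ℝ) * qJ n K R TN) ^ (M + 1) +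
        (k : ℝ) ^ 2 * ((TN : ℝ) + 1) * (2 * ((12 * R : ℕ) : ℝ) + 1) *
          ((200 * ((R : ℝ) + 4)) ^ 2 / (n : ℝ) ^ 2) ^ 2) * (S.card : ℝ) ^ k := by
    apply union_bound S k T M TN (12 * R) (BadJ K L₀ R B S₁ S₂ T) (NearJ K R TN T) (FrJ K R T)
    · unfold epsJ; positivity
    · unfold qJ; positivity
    · positivity
    · exact count_BadJ hn hn0 (by omega)
    · intro a _; exact count_NearJ hn hn0 h4 (by omega) a
    · intro s hs; exact count_FrJ hn hn0 s (by omega)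
  set T₁ := TN + (l + 1) * (S₂ + 1) with hT₁
  set E2 : Fin k → Finset (Fin k → (ℤ × ℤ) × ((Fin T → Bool) × (Fin T → Fin 6))) := fun i =>
    X.filter (fun x => NoJump K o (ex (x i).2.1) (fun t => jc K (ex6 (x i).2.2 t))
        (pthJ K o R L₁ (fun i => ex (x i).2.1) (fun i t => jc K (ex6 (x i).2.2 t))
          (fun i => (x i).1)) (x i).1 l T₁) with hE2
  have b2 : ∀ i, ((E2 i).card : ℝ) ≤ (1 / 2) ^ l * (S.card : ℝ) ^ k := by
    intro i
    have := count_NoJump (K := K) (o := o) (k := k) R L₁ T l T₁ (by omega) i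
    rw [← hSdef, ← hX, hXc] at this
    exact this
  set G := X.filter (fun x => (∀ t ≤ T, ∀ i, 2 ≤ ds ((runJ K o R L₁ (fun i => ex (x i).2.1)
          (fun i t => jc K (ex6 (x i).2.2 t)) (fun i => (x i).1) t).1 i)) ∧
        ∀ i, SafeJ K o ((runJ K o R L₁ (fun i => ex (x i).2.1)
          (fun i t => jc K (ex6 (x i).2.2 t)) (fun i => (x i).1) T).1 i)) with hG
  have hcov : X ⊆ G ∪ (E1 ∪ univ.biUnion E2) := by
    intro x hx
    by_contra hc
    rw [mem_union, mem_union] at hc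
    push Not at hc
    obtain ⟨hg, he1, he2⟩ := hc
    apply hg
    have hbox : ∀ i, (x i).1 ∈ boxJ K o := by
      intro i
      have := Fintype.mem_piFinset.mp hx i
      rw [hSdef, mem_product] at this
      exact this.1
    have hnb : ¬ ((∃ i, BadJ K L₀ R B S₁ S₂ T (x i)) ∨
      (∃ a ≤ T, M < (univ.filter (fun i => NearJ K R TN T a (x i))).card) ∨
      (∃ i j, i ≠ j ∧ ∃ s ≤ TN, ∃ s' ≤ TN, s ≤ s' + 12 * R ∧ s' ≤ s + 12 * R ∧
        FrJ K R T s (x i) ∧ FrJ K R T s' (x j))) := by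
      intro h
      exact he1 (by rw [hE1, mem_filter]; exact ⟨hx, h⟩)
    rw [not_or, not_or] at hnb
    obtain ⟨hnb1, hnb2, hnb3⟩ := hnb
    have hbad : ∀ i, 30 * (R : ℤ) < ds (x i).1 ∧ GC L₀ (ex (x i).2.1) T ∧
        GB B (4 * K) (ex (x i).2.1) T ∧ ESC (B + 8 * R + 100) S₁ (ex (x i).2.1) T ∧
        ESC (3 * K) S₂ (ex (x i).2.1) T := by
      intro i
      have : ¬ BadJ K L₀ R B S₁ S₂ T (x i) := fun h => hnb1 ⟨i, h⟩
      unfold BadJ at this
      push Not at this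
      exact this
    set c : Fin k → ℕ → Bool := fun i => ex (x i).2.1 with hc
    set J : Fin k → ℕ → ℤ × ℤ → Bool := fun i t => jc K (ex6 (x i).2.2 t) with hJ
    set p : Fin k → ℤ × ℤ := fun i => (x i).1 with hp
    have hbal := runJ_bal K o (by omega : 1 ≤ R) L₁ c J p T
    have hfst := runJ_fst K o R L₁ c J p
    have hloc : ∀ t ≤ T, ∀ i, 2 ≤ ds ((runJ K o R L₁ c J p t).1 i) := by
      refine local_safeJ ho h1 h2 h3 (by omega) c J p hbox (fun i => (hbad i).1)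
        (fun i => (hbad i).2.1) ?_ ?_
      · intro u hu hd a hua
        rcases Nat.lt_or_ge T a with hTa | hTa
        · rw [Finset.filter_false_of_mem]
          · simp
          · rintro i _ ⟨s, hs1, hs2, _⟩
            omega
        · have h9 : ¬ (M < (univ.filter (fun i => NearJ K R TN T a (x i))).card) := by
            intro h; exact hnb2 ⟨a, hTa, h⟩
          refine le_trans (Finset.card_le_card ?_) (not_lt.mp h9)
          intro i hi
          rw [mem_filter] at hi ⊢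
          obtain ⟨_, s, hs1, hs2, hs3, hs4⟩ := hi
          refine ⟨mem_univ _, s, hs1, by omega, by omega, ?_⟩
          have hb := hbad i
          rw [hfst] at hs3 hs4
          refine hist_nearJ (o := o) (B := B) (S₁ := S₁) (T := T) (J := J i) ho h4 h5 h6 hbal
            hb.2.2.1 hb.2.2.2.1 (hbox i) (by omega) ?_ hs3 (by push_cast; exact hs4)
          intro r hr
          have := hd r (by omega) i
          rw [hfst] at this
          exact this
      · intro u hu hd i j hij s s' hs hs' hss hss' hF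
        apply hnb3
        rw [hfst, hfst] at hF
        have hbi := hbad i
        have hbj := hbad j
        obtain ⟨⟨f1, f2, f3⟩, ⟨f4, f5, f6⟩⟩ := hF
        have g1 := hist_frontJ (o := o) (ρ := 30 * R) (B := B) (S₁ := S₁) (T := T) (J := J i) ho h4
          h5 h6 hbal hbi.2.2.1 hbi.2.2.2.1 (hbox i) (t := s) (by omega) (by
            intro r hr
            have := hd r (by omega) i
            rw [hfst] at this
            exact this) ⟨f1, f2⟩ (by push_cast; exact f3)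
        have g2 := hist_frontJ (o := o) (ρ := 30 * R) (B := B) (S₁ := S₁) (T := T) (J := J j) ho h4
          h5 h6 hbal hbj.2.2.1 hbj.2.2.2.1 (hbox j) (t := s') (by omega) (by
            intro r hr
            have := hd r (by omega) j
            rw [hfst] at this
            exact this) ⟨f4, f5⟩ (by push_cast; exact f6)
        exact ⟨i, j, hij, s, g1.2, s', g2.2, hss, hss', g1.1, g2.1⟩
    rw [hG, mem_filter]
    refine ⟨hx, hloc, ?_⟩
    intro i
    have hb := hbad i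
    show SafeJ K o ((runJ K o R L₁ c J p T).1 i)
    rw [hfst]
    refine hist_safeJ (o := o) (ρ := 30 * R) (B := B) (S₁ := S₁) (S₂ := S₂) (TN := TN) (l := l)
      (J := J i) ho h4 h5 h6 h7 hbal hb.2.2.1 hb.2.2.2.1 hb.2.2.2.2 (hbox i) ?_ ?_
    · intro s hs
      have := hloc s hs i
      rw [hfst] at this
      exact this
    · intro _ hnj
      apply he2
      rw [mem_biUnion]
      exact ⟨i, mem_univ _, by rw [hE2, mem_filter]; exact ⟨hx, hnj⟩⟩
  have b3 : (X.card : ℝ) ≤ G.card + (E1.card + ∑ i, ((E2 i).card : ℝ)) := by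
    have e1 := Finset.card_le_card hcov
    have e2 := Finset.card_union_le G (E1 ∪ univ.biUnion E2)
    have e3 := Finset.card_union_le E1 (univ.biUnion E2)
    have e4 : (univ.biUnion E2).card ≤ ∑ i, (E2 i).card := Finset.card_biUnion_le
    have e5 : X.card ≤ G.card + (E1.card + ∑ i, (E2 i).card) := by omega
    exact_mod_cast e5
  have b4 : ∑ i, ((E2 i).card : ℝ) ≤ (k : ℝ) * (1 / 2) ^ l * (S.card : ℝ) ^ k := by
    calc ∑ i, ((E2 i).card : ℝ) ≤ ∑ _i : Fin k, (1 / 2) ^ l * (S.card : ℝ) ^ k :=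
          Finset.sum_le_sum (fun i _ => b2 i)
      _ = (k : ℝ) * (1 / 2) ^ l * (S.card : ℝ) ^ k := by
          rw [Finset.sum_const, Finset.card_univ, Fintype.card_fin, nsmul_eq_mul]; ring
  have hSk : (0 : ℝ) ≤ (S.card : ℝ) ^ k := by positivity
  have b5 := mul_le_mul_of_nonneg_right h8 hSk
  rw [hXc] at b3
  rw [add_mul] at b5
  linarith

theorem zombie_lower : ∃ n₀ : ℕ, 3 ≤ n₀ ∧ ∀ n ≥ n₀,
    n * Real.sqrt n / (Real.log n) ^ 30 ≤ (zombieNumber (torus n) : ℝ) := by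
  obtain ⟨n₀, h⟩ := asym
  refine ⟨max n₀ 3, le_max_right _ _, fun n hn => ?_⟩
  have hn3 : 3 ≤ n := (le_max_right _ _).trans hn
  have hn0 : n₀ ≤ n := (le_max_left _ _).trans hn
  have : NeZero n := ⟨by omega⟩
  by_contra hc
  push Not at hc
  obtain ⟨K, o, hKo, ho⟩ : ∃ K o : ℕ, n + o = 2 * K + 1 ∧ o ≤ 1 := by
    rcases Nat.even_or_odd' n with ⟨m, hm | hm⟩
    · exact ⟨m, 1, by omega, le_rfl⟩
    · exact ⟨m, 0, by omega, by omega⟩
  obtain ⟨L₀, M, L₁, R, B, S₁, TN, S₂, l, T, h1, h2, h3, h4, h5, h6, h7, h8⟩ :=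
    h n hn0 K o (zombieNumber (torus n)) hKo ho hc.le
  have h9 := surv_ge34 hKo ho h1 h2 h3 h4 h5 h6 h7 h8
  rw [← surv_torus] at h9
  have h10 : surv (torus n) (zombieNumber (torus n)) ≤ 1 / 2 :=
    Nat.sInf_mem (s := {k | surv (torus n) k ≤ 1 / 2}) ⟨5 * n ^ 2, surv_five hn3⟩
  linarith

theorem val_zero_zombies {V : Type*} [Fintype V] (G : SimpleGraph V) (T : ℕ) (z : Fin 0 → V)
    (v : V) : val G T z v = 1 := by
  induction T generalizing z v with
  | zero => unfold val; simp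
  | succ T ih =>
    unfold val
    rw [if_neg (by rintro ⟨i, _⟩; exact i.elim0)]
    have h1 : ∀ z' : Fin 0 → V, (∏ i, move G v (z i) (z' i)) *
        (if ∃ i, z' i = v then 0 else ⨆ v' : {v' // v' = v ∨ G.Adj v v'}, val G T z' v') = 1 := by
      intro z'
      rw [if_neg (by rintro ⟨i, _⟩; exact i.elim0)]
      have : Nonempty {v' // v' = v ∨ G.Adj v v'} := ⟨⟨v, Or.inl rfl⟩⟩
      simp [ih]
    rw [Finset.sum_congr rfl (fun z' _ => h1 z')]
    simp

theorem surv_zero_zombies {V : Type*} [Fintype V] [Nonempty V] (G : SimpleGraph V) :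
    surv G 0 = 1 := by
  have h : ∀ T, survT G 0 T = 1 := by
    intro T
    unfold survT
    simp [val_zero_zombies]
  unfold surv
  simp [h]

theorem zombie_pos {n : ℕ} (hn : 3 ≤ n) : 1 ≤ zombieNumber (torus n) := by
  by_contra hc
  have h0 : zombieNumber (torus n) = 0 := by omega
  have h10 : surv (torus n) (zombieNumber (torus n)) ≤ 1 / 2 :=
    Nat.sInf_mem (s := {k | surv (torus n) k ≤ 1 / 2}) ⟨5 * n ^ 2, surv_five hn⟩
  have : NeZero n := ⟨by omega⟩
  rw [h0, surv_zero_zombies] at h10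
  norm_num at h10

theorem growth : ∃ c : ℝ, 0 < c ∧ ∀ n : ℕ, 3 ≤ n →
    c * (n * Real.sqrt n) / (Real.log n) ^ 30 ≤ (zombieNumber (torus n) : ℝ) ∧
    (zombieNumber (torus n) : ℝ) ≤ 1001 * (n * Real.sqrt n) := by
  obtain ⟨n₀, hn₀, h⟩ := zombie_lower
  have hpos : (0 : ℝ) < n₀ * Real.sqrt n₀ := by
    have : (0 : ℝ) < n₀ := by exact_mod_cast (by omega : 0 < n₀)
    positivity
  refine ⟨1 / (n₀ * Real.sqrt n₀ + 1), by positivity, fun n hn => ⟨?_, zombieNumber_le hn⟩⟩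
  have hn' : (3 : ℝ) ≤ n := by exact_mod_cast hn
  have hlog : 1 ≤ Real.log n := by
    rw [Real.le_log_iff_exp_le (by linarith)]
    have := Real.exp_one_lt_d9
    linarith
  have hlog30 : 1 ≤ (Real.log n) ^ 30 := one_le_pow₀ hlog
  have hc1 : 1 / ((n₀ : ℝ) * Real.sqrt n₀ + 1) ≤ 1 := by
    rw [div_le_one (by positivity)]; linarith
  have hx0 : (0 : ℝ) ≤ n * Real.sqrt n := by positivity
  rcases le_or_gt n₀ n with hle | hlt
  · refine le_trans ?_ (h n hle)
    apply div_le_div_of_nonneg_right _ (by positivity)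
    calc 1 / ((n₀ : ℝ) * Real.sqrt n₀ + 1) * (n * Real.sqrt n) ≤ 1 * (n * Real.sqrt n) :=
          mul_le_mul_of_nonneg_right hc1 hx0
      _ = n * Real.sqrt n := one_mul _
  · have h1 : (1 : ℝ) ≤ zombieNumber (torus n) := by exact_mod_cast zombie_pos hn
    refine le_trans ?_ h1
    have hnn : (n : ℝ) ≤ n₀ := by exact_mod_cast hlt.le
    have h2 : (n : ℝ) * Real.sqrt n ≤ n₀ * Real.sqrt n₀ + 1 := by
      have := mul_le_mul hnn (Real.sqrt_le_sqrt hnn) (Real.sqrt_nonneg _) (by positivity)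
      linarith
    rw [div_le_one (by positivity)]
    calc 1 / ((n₀ : ℝ) * Real.sqrt n₀ + 1) * (n * Real.sqrt n) ≤
          1 / ((n₀ : ℝ) * Real.sqrt n₀ + 1) * (n₀ * Real.sqrt n₀ + 1) :=
          mul_le_mul_of_nonneg_left h2 (by positivity)
      _ = 1 := by field_simp
      _ ≤ _ := hlog30

end MP34e
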