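import Pool.Agent.Work.MP_34e428_co.LDefs

/-! History of one zombie on the torus (module H): deterministic state machine. -/

set_option autoImplicit false

open Finset

namespace MP34e

namespace Hist

/-! ### cumulative counts -/

theorem F_zero (h : ℕ → Bool) : ct h 0 0 = 0 := ct_self h 0

theorem F_step (h : ℕ → Bool) (r : ℕ) :
    (h r = true ∧ ct h 0 (r + 1) = ct h 0 r + 1) ∨ (h r = false ∧ ct h 0 (r + 1) = ct h 0 r) := by
  rw [ct_succ h (Nat.zero_le r)]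
  rcases h r with _ | _ <;> simp

theorem F_step' (h : ℕ → Bool) (r : ℕ) :
    ct h 0 (r + 1) = ct h 0 r + 1 ∨ ct h 0 (r + 1) = ct h 0 r := by
  rcases F_step h r with h1 | h1
  · exact Or.inl h1.2
  · exact Or.inr h1.2

theorem F_nt (h : ℕ → Bool) (r : ℕ) : ct (nt h) 0 r = r - ct h 0 r := by
  rw [ct_nt h (Nat.zero_le r)]
  simp

theorem ct_eq (h : ℕ → Bool) {a b : ℕ} (hab : a ≤ b) : ct h a b = ct h 0 b - ct h 0 a := by
  have := ct_add h (Nat.zero_le a) hab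
  omega

theorem F_lip (h : ℕ → Bool) {a b : ℕ} (hab : a ≤ b) :
    0 ≤ ct h 0 b - ct h 0 a ∧ ct h 0 b - ct h 0 a ≤ (b : ℤ) - a := by
  rw [← ct_eq h hab]
  exact ⟨ct_nonneg h a b, ct_le h hab⟩

/-! ### trajectories -/

/-- step of one coordinate: zombie indicator `m`, survivor indicator `b` -/
def CS (K : ℕ) (x x' m b : ℤ) : Prop :=
  (0 < x → (x = K ∧ m = 0 ∧ b = 1 → x' = -(K : ℤ)) ∧
    (¬ (x = K ∧ m = 0 ∧ b = 1) → x' = x - m + b)) ∧
  (x < 0 → x' = x + m + b) ∧ (x = 0 → x' = b)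

/-- trajectory of one zombie up to time `U`, never caught -/
structure Tj (K U : ℕ) (X Y : ℕ → ℤ) (h e : ℕ → Bool) : Prop where
  bx : ∀ t ≤ U, -(K : ℤ) ≤ X t ∧ X t ≤ K ∧ -(K : ℤ) ≤ Y t ∧ Y t ≤ K
  dd : ∀ t ≤ U, 2 ≤ |X t| + |Y t|
  st : ∀ t < U, ∃ m b : ℤ, (m = 0 ∨ m = 1) ∧ (b = 0 ∨ b = 1) ∧
    b = ct e 0 (t + 1) - ct e 0 t ∧
    (X t ≠ 0 → Y t ≠ 0 → m = ct h 0 (t + 1) - ct h 0 t) ∧ (X t = 0 → m = 0) ∧ (Y t = 0 → m = 1) ∧
    CS K (X t) (X (t + 1)) m b ∧ CS K (Y t) (Y (t + 1)) (1 - m) (1 - b)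

theorem Tj.swap {K U : ℕ} {X Y : ℕ → ℤ} {h e : ℕ → Bool} (H : Tj K U X Y h e) :
    Tj K U Y X (nt h) (nt e) where
  bx := fun t ht => by
    have := H.bx t ht
    omega
  dd := fun t ht => by
    have := H.dd t ht
    omega
  st := fun t ht => by
    obtain ⟨m, b, hm, hb, h1, h2, h3, h4, h5, h6⟩ := H.st t ht
    refine ⟨1 - m, 1 - b, by omega, by omega, ?_, ?_, ?_, ?_, h6, ?_⟩
    · rw [F_nt, F_nt]; push_cast; omega
    · intro hy hx
      have := h2 hx hy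
      rw [F_nt, F_nt]; push_cast; omega
    · intro hy
      have := h4 hy
      omega
    · intro hx
      have := h3 hx
      omega
    · have e1 : (1 : ℤ) - (1 - m) = m := by ring
      have e2 : (1 : ℤ) - (1 - b) = b := by ring
      rw [e1, e2]
      exact h5

theorem wr_eq (K : ℕ) (x : ℤ) : ((K : ℤ) < x ∧ wr K x = x - (2 * K + 1)) ∨
    (x ≤ K ∧ wr K x = x) := by
  unfold wr
  split_ifs with h
  · exact Or.inl ⟨h, rfl⟩
  · exact Or.inr ⟨by omega, rfl⟩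

theorem sign_cases (x : ℤ) : (x < 0 ∧ x.sign = -1) ∨ (x = 0 ∧ x.sign = 0) ∨ (0 < x ∧ x.sign = 1) := by
  rcases lt_trichotomy x 0 with h1 | h1 | h1
  · exact Or.inl ⟨h1, Int.sign_eq_neg_one_of_neg h1⟩
  · exact Or.inr (Or.inl ⟨h1, by rw [h1]; rfl⟩)
  · exact Or.inr (Or.inr ⟨h1, Int.sign_eq_one_of_pos h1⟩)

theorem cs_move0 {K : ℕ} {x : ℤ} : CS K x (x - x.sign) 1 0 := by
  unfold CS
  rcases sign_cases x with ⟨h1, h2⟩ | ⟨h1, h2⟩ | ⟨h1, h2⟩ <;> rw [h2] <;> omega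

theorem cs_stay0 {K : ℕ} {x : ℤ} : CS K x x 0 0 := by
  unfold CS
  omega

theorem cs_move1 {K : ℕ} {x : ℤ} (hK : 1 ≤ K) (hx : x ≠ 0) (hx2 : x ≤ K) :
    CS K x (wr K (x - x.sign + 1)) 1 1 := by
  unfold CS
  rcases sign_cases x with ⟨h1, h2⟩ | ⟨h1, h2⟩ | ⟨h1, h2⟩
  · rw [h2]
    rcases wr_eq K (x - -1 + 1) with ⟨h3, h4⟩ | ⟨h3, h4⟩
    · omega
    · rw [h4]; omega
  · exact absurd h1 hx
  · rw [h2]
    rcases wr_eq K (x - 1 + 1) with ⟨h3, h4⟩ | ⟨h3, h4⟩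
    · omega
    · rw [h4]; omega

theorem cs_stay1 {K : ℕ} {x : ℤ} (hK : 1 ≤ K) (hx2 : x ≤ K) : CS K x (wr K (x + 1)) 0 1 := by
  unfold CS
  rcases wr_eq K (x + 1) with ⟨h3, h4⟩ | ⟨h3, h4⟩
  · rw [h4]; omega
  · rw [h4]; omega

/-- the step of `tr` -/
theorem tr_step {K : ℕ} (hK : 1 ≤ K) (h e : ℕ → Bool) (p : ℤ × ℤ) (t : ℕ)
    (hb1 : -(K : ℤ) ≤ (tr K h e p t).1) (hb2 : (tr K h e p t).1 ≤ K)
    (hb3 : -(K : ℤ) ≤ (tr K h e p t).2) (hb4 : (tr K h e p t).2 ≤ K)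
    (hd : 2 ≤ |(tr K h e p t).1| + |(tr K h e p t).2|) :
    ∃ m b : ℤ, (m = 0 ∨ m = 1) ∧ (b = 0 ∨ b = 1) ∧
    b = ct e 0 (t + 1) - ct e 0 t ∧
    ((tr K h e p t).1 ≠ 0 → (tr K h e p t).2 ≠ 0 → m = ct h 0 (t + 1) - ct h 0 t) ∧
    ((tr K h e p t).1 = 0 → m = 0) ∧ ((tr K h e p t).2 = 0 → m = 1) ∧
    CS K ((tr K h e p t).1) ((tr K h e p (t + 1)).1) m b ∧
    CS K ((tr K h e p t).2) ((tr K h e p (t + 1)).2) (1 - m) (1 - b) := by
  have hs : tr K h e p (t + 1) = sm K (e t) (zm (h t) (tr K h e p t)) := rfl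
  generalize hq : tr K h e p t = q at *
  obtain ⟨x, y⟩ := q
  simp only at *
  rw [hs]
  have hxy : ¬ (x = 0 ∧ y = 0) := by
    rintro ⟨rfl, rfl⟩
    simp at hd
  -- horizontal or vertical move
  have hz : (zm (h t) (x, y) = (x - x.sign, y) ∧ x ≠ 0 ∧ (y ≠ 0 → h t = true)) ∨
      (zm (h t) (x, y) = (x, y - y.sign) ∧ y ≠ 0 ∧ (x ≠ 0 → h t = false)) := by
    unfold zm hx hy
    simp only
    by_cases hx0 : x = 0
    · rw [if_pos hx0]
      exact Or.inr ⟨rfl, fun hy0 => hxy ⟨hx0, hy0⟩, fun hc => absurd hx0 hc⟩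
    · rw [if_neg hx0]
      by_cases hy0 : y = 0
      · rw [if_pos hy0]
        exact Or.inl ⟨rfl, hx0, fun hc => absurd hy0 hc⟩
      · rw [if_neg hy0]
        rcases hht : h t with _ | _
        · exact Or.inr ⟨by simp, hy0, fun _ => rfl⟩
        · exact Or.inl ⟨by simp, hx0, fun _ => rfl⟩
  clear hs hq hd hxy
  have hF := F_step h t
  have hE := F_step e t
  rcases hz with ⟨hz, hx0, hh⟩ | ⟨hz, hy0, hh⟩
  · rw [hz]
    have hm : x ≠ 0 → y ≠ 0 → (1 : ℤ) = ct h 0 (t + 1) - ct h 0 t := by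
      intro _ hy0
      rcases hF with ⟨_, hF⟩ | ⟨hf, _⟩
      · omega
      · rw [hh hy0] at hf; exact absurd hf (by simp)
    rcases hE with ⟨het, hE⟩ | ⟨het, hE⟩
    · rw [het]
      exact ⟨1, 1, by omega, by omega, by omega, hm, by omega, by omega, cs_move1 hK hx0 hb2,
        cs_stay0⟩
    · rw [het]
      exact ⟨1, 0, by omega, by omega, by omega, hm, by omega, by omega, cs_move0,
        cs_stay1 hK hb4⟩
  · rw [hz]
    have hm : x ≠ 0 → y ≠ 0 → (0 : ℤ) = ct h 0 (t + 1) - ct h 0 t := by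
      intro hx0 _
      rcases hF with ⟨hf, _⟩ | ⟨_, hF⟩
      · rw [hh hx0] at hf; exact absurd hf (by simp)
      · omega
    rcases hE with ⟨het, hE⟩ | ⟨het, hE⟩
    · rw [het]
      exact ⟨0, 1, by omega, by omega, by omega, hm, by omega, by omega, cs_stay1 hK hb2,
        cs_move0⟩
    · rw [het]
      exact ⟨0, 0, by omega, by omega, by omega, hm, by omega, by omega, cs_stay0,
        cs_move1 hK hy0 hb4⟩

theorem tr_box {K : ℕ} (hK : 1 ≤ K) (h e : ℕ → Bool) (p : ℤ × ℤ) (hp : p ∈ box K) (U : ℕ)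
    (hd : ∀ s ≤ U, 2 ≤ ds (tr K h e p s)) : ∀ t ≤ U,
    -(K : ℤ) ≤ (tr K h e p t).1 ∧ (tr K h e p t).1 ≤ K ∧ -(K : ℤ) ≤ (tr K h e p t).2 ∧
      (tr K h e p t).2 ≤ K := by
  intro t
  induction t with
  | zero =>
    intro _
    have h1 := (mem_box K p).1 hp
    rw [abs_le, abs_le] at h1
    exact ⟨h1.1.1, h1.1.2, h1.2.1, h1.2.2⟩
  | succ t ih =>
    intro ht
    obtain ⟨h1, h2, h3, h4⟩ := ih (by omega)
    obtain ⟨m, b, hm, hb, -, -, hx0, hy0, hX, hY⟩ :=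
      tr_step hK h e p t h1 h2 h3 h4 (hd t (by omega))
    unfold CS at hX hY
    refine ⟨?_, ?_, ?_, ?_⟩
    · clear hY hy0
      rcases hm with rfl | rfl <;> rcases hb with rfl | rfl <;> omega
    · clear hY hy0
      rcases hm with rfl | rfl <;> rcases hb with rfl | rfl <;> omega
    · clear hX hx0
      rcases hm with rfl | rfl <;> rcases hb with rfl | rfl <;> omega
    · clear hX hx0
      rcases hm with rfl | rfl <;> rcases hb with rfl | rfl <;> omega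

theorem tr_Tj {K : ℕ} (hK : 1 ≤ K) (h e : ℕ → Bool) (p : ℤ × ℤ) (hp : p ∈ box K) (U : ℕ)
    (hd : ∀ s ≤ U, 2 ≤ ds (tr K h e p s)) :
    Tj K U (fun t => (tr K h e p t).1) (fun t => (tr K h e p t).2) h e where
  bx := tr_box hK h e p hp U hd
  dd := hd
  st := fun t ht => by
    obtain ⟨h1, h2, h3, h4⟩ := tr_box hK h e p hp U hd t (by omega)
    exact tr_step hK h e p t h1 h2 h3 h4 (hd t (by omega))

/-! ### hypotheses -/

/-- all hypotheses on one zombie -/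
structure Hyp (K R ρ B S₁ TN T U : ℕ) (X Y : ℕ → ℤ) (h e : ℕ → Bool) : Prop where
  tj : Tj K U X Y h e
  hU : U ≤ T
  hR : 1 ≤ R
  hK : 100 * R + 10 * B + 10 * ρ + 100 ≤ K
  hTN : S₁ + 8 * K ≤ TN
  bal : ∀ t ≤ T, -(2 * (R : ℤ)) ≤ 2 * ct e 0 t - t ∧ 2 * ct e 0 t - t ≤ 2 * R
  gb : ∀ a b : ℕ, a ≤ b → b ≤ T → b ≤ a + 4 * K →
    -(B : ℤ) ≤ 2 * (ct h 0 b - ct h 0 a) - ((b : ℤ) - a) ∧
      2 * (ct h 0 b - ct h 0 a) - ((b : ℤ) - a) ≤ B
  esc : ∀ a : ℕ, a + S₁ ≤ T → ∃ s s' : ℕ, a ≤ s ∧ s ≤ s' ∧ s' ≤ a + S₁ ∧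
    ((B : ℤ) + 8 * R < 2 * (ct h 0 s' - ct h 0 s) - ((s' : ℤ) - s) ∨
      2 * (ct h 0 s' - ct h 0 s) - ((s' : ℤ) - s) < -((B : ℤ) + 8 * R))

theorem Hyp.swap {K R ρ B S₁ TN T U : ℕ} {X Y : ℕ → ℤ} {h e : ℕ → Bool}
    (H : Hyp K R ρ B S₁ TN T U X Y h e) : Hyp K R ρ B S₁ TN T U Y X (nt h) (nt e) where
  tj := H.tj.swap
  hU := H.hU
  hR := H.hR
  hK := H.hK
  hTN := H.hTN
  bal := fun t ht => by
    have := H.bal t ht
    rw [F_nt]
    omega
  gb := fun a b h1 h2 h3 => by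
    have := H.gb a b h1 h2 h3
    rw [F_nt, F_nt]
    omega
  esc := fun a ha => by
    obtain ⟨s, s', h1, h2, h3, h4⟩ := H.esc a ha
    refine ⟨s, s', h1, h2, h3, ?_⟩
    rw [F_nt, F_nt]
    omega

/-! ### closed formulas of one coordinate before its first contact with `0` -/

def CW (X : ℕ → ℤ) (h e : ℕ → Bool) (t : ℕ) : Prop :=
  ∀ r ≤ t, X r = X 0 - ct h 0 r + ct e 0 r ∧ (r < t → 0 < X r)

def CE0 (X : ℕ → ℤ) (h e : ℕ → Bool) (t : ℕ) : Prop :=
  ∀ r ≤ t, X r = X 0 + ct h 0 r + ct e 0 r ∧ (r < t → X r < 0)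

def CE1 (K : ℕ) (X : ℕ → ℤ) (h e : ℕ → Bool) (σ t : ℕ) : Prop :=
  σ < t ∧ X σ = K ∧ ct h 0 (σ + 1) = ct h 0 σ ∧ ct e 0 (σ + 1) = ct e 0 σ + 1 ∧
    (∀ r ≤ σ, X r = X 0 - ct h 0 r + ct e 0 r ∧ 0 < X r) ∧
    ∀ r, σ < r → r ≤ t → X r = -(K : ℤ) + (ct h 0 r - ct h 0 σ) + (ct e 0 r - ct e 0 σ) - 1 ∧
      (r < t → X r < 0)

def CE (K : ℕ) (X : ℕ → ℤ) (h e : ℕ → Bool) (t : ℕ) : Prop :=
  CE0 X h e t ∨ ∃ σ, CE1 K X h e σ t

def Fr (K : ℕ) (X : ℕ → ℤ) (h e : ℕ → Bool) (t : ℕ) : Prop :=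
  (CW X h e t ∧ 0 < X t) ∨ (CE K X h e t ∧ X t < 0)

def To (K : ℕ) (X : ℕ → ℤ) (h e : ℕ → Bool) (t : ℕ) : Prop :=
  (CW X h e t ∧ X t = 0) ∨ (CE K X h e t ∧ 0 ≤ X t ∧ X t ≤ 1)

theorem fr_step {K : ℕ} {X : ℕ → ℤ} {h e : ℕ → Bool} {t : ℕ} (hK : 1 ≤ K)
    (hF : Fr K X h e t)
    (hs : CS K (X t) (X (t + 1)) (ct h 0 (t + 1) - ct h 0 t) (ct e 0 (t + 1) - ct e 0 t)) :
    Fr K X h e (t + 1) ∨ To K X h e (t + 1) := by
  have h1 := F_step' h t
  have h2 := F_step' e t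
  unfold CS at hs
  rcases hF with ⟨hC, hp⟩ | ⟨hC, hn⟩
  · have hv := (hC t le_rfl).1
    by_cases hw : X t = K ∧ ct h 0 (t + 1) = ct h 0 t ∧ ct e 0 (t + 1) = ct e 0 t + 1
    · have hX : X (t + 1) = -(K : ℤ) := by omega
      refine Or.inl (Or.inr ⟨Or.inr ⟨t, by omega, hw.1, hw.2.1, hw.2.2, ?_, ?_⟩, by omega⟩)
      · intro r hr
        refine ⟨(hC r hr).1, ?_⟩
        rcases Nat.lt_or_ge r t with h3 | h3
        · exact (hC r hr).2 h3
        · have : r = t := by omega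
          rw [this]; exact hp
      · intro r hr1 hr2
        have : r = t + 1 := by omega
        subst this
        exact ⟨by omega, by omega⟩
    · have hX : X (t + 1) = X t - (ct h 0 (t + 1) - ct h 0 t) + (ct e 0 (t + 1) - ct e 0 t) := by
        omega
      have hC' : CW X h e (t + 1) := by
        intro r hr
        rcases Nat.lt_or_ge t r with h3 | h3
        · have : r = t + 1 := by omega
          subst this
          exact ⟨by omega, by omega⟩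
        · refine ⟨(hC r h3).1, fun _ => ?_⟩
          rcases Nat.lt_or_ge r t with h4 | h4
          · exact (hC r h3).2 h4
          · have : r = t := by omega
            rw [this]; exact hp
      rcases lt_trichotomy (X (t + 1)) 0 with h5 | h5 | h5
      · omega
      · exact Or.inr (Or.inl ⟨hC', h5⟩)
      · exact Or.inl (Or.inl ⟨hC', h5⟩)
  · have hX : X (t + 1) = X t + (ct h 0 (t + 1) - ct h 0 t) + (ct e 0 (t + 1) - ct e 0 t) :=
      hs.2.1 hn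
    have hC' : CE K X h e (t + 1) := by
      rcases hC with hC | ⟨σ, hσ, h3, h4, h5, h6, h7⟩
      · refine Or.inl ?_
        intro r hr
        have hv := (hC t le_rfl).1
        rcases Nat.lt_or_ge t r with h3 | h3
        · have : r = t + 1 := by omega
          subst this
          exact ⟨by omega, by omega⟩
        · refine ⟨(hC r h3).1, fun _ => ?_⟩
          rcases Nat.lt_or_ge r t with h4 | h4
          · exact (hC r h3).2 h4
          · have : r = t := by omega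
            rw [this]; exact hn
      · refine Or.inr ⟨σ, by omega, h3, h4, h5, h6, ?_⟩
        have hv := (h7 t hσ le_rfl).1
        intro r hr1 hr2
        rcases Nat.lt_or_ge t r with h8 | h8
        · have : r = t + 1 := by omega
          subst this
          exact ⟨by omega, by omega⟩
        · refine ⟨(h7 r hr1 h8).1, fun _ => ?_⟩
          rcases Nat.lt_or_ge r t with h9 | h9
          · exact (h7 r hr1 h8).2 h9
          · have : r = t := by omega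
            rw [this]; exact hn
    rcases lt_or_ge (X (t + 1)) 0 with h5 | h5
    · exact Or.inl (Or.inr ⟨hC', h5⟩)
    · exact Or.inr (Or.inr ⟨hC', h5, by omega⟩)

section Bounds

variable {K R ρ B S₁ TN T U : ℕ} {X Y : ℕ → ℤ} {h e : ℕ → Bool}

theorem ce0_time (H : Hyp K R ρ B S₁ TN T U X Y h e) {t : ℕ} (ht : t ≤ U) (hC : CE0 X h e t)
    (hX : X t ≤ 1) : t ≤ 2 * K + 2 * R + 2 := by
  have h1 := (hC t le_rfl).1
  have h2 := (H.tj.bx 0 (Nat.zero_le _)).1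
  have h3 := H.bal t (le_trans ht H.hU)
  have h4 := ct_nonneg h 0 t
  omega

theorem ce1_time (H : Hyp K R ρ B S₁ TN T U X Y h e) {σ t : ℕ} (ht : t ≤ U)
    (hC : CE1 K X h e σ t) (hX : X t ≤ 1) : t ≤ σ + 2 * K + 4 * R + 4 := by
  obtain ⟨h1, h2, h3, h4, h5, h6⟩ := hC
  have h7 := (h6 t h1 le_rfl).1
  have h8 := H.bal t (le_trans ht H.hU)
  have h9 := H.bal σ (le_trans (by omega) H.hU)
  have h10 := F_lip h (le_of_lt h1)
  omega

/-- the first wrap is early if the other coordinate is close to `K` soon after -/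
theorem wrap_bound (H : Hyp K R ρ B S₁ TN T U X Y h e) {σ s : ℕ} (hσs : σ < s)
    (hs4 : s ≤ σ + 4 * K) (hsU : s ≤ U) (hXσ : X σ = K)
    (hX : ∀ r ≤ σ, X r = X 0 - ct h 0 r + ct e 0 r ∧ 0 < X r)
    (hY : CW Y (nt h) (nt e) s) (hYs : Y s = K) : σ < S₁ := by
  by_contra hc
  rw [not_lt] at hc
  obtain ⟨s1, s2, h1, h2, h3, h4⟩ := H.esc 0 (by have := H.hU; omega)
  have hT := H.hU
  have e1 := (hX s1 (by omega)).1
  have e2 := (hX s2 (by omega)).1
  have e3 := (hX σ le_rfl).1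
  have f1 := (hY s1 (by omega)).1
  have f2 := (hY s2 (by omega)).1
  have f3 := (hY σ (by omega)).1
  have f4 := (hY s le_rfl).1
  rw [F_nt, F_nt] at f1 f2 f3 f4
  have b1 := H.tj.bx s1 (by omega)
  have b2 := H.tj.bx s2 (by omega)
  have g1 := H.gb σ s (le_of_lt hσs) (by omega) hs4
  have l1 := H.bal s1 (by omega)
  have l2 := H.bal s2 (by omega)
  have l3 := H.bal σ (by omega)
  have l4 := H.bal s (by omega)
  omega

end Bounds

/-! ### joint states -/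

/-- zombie of type A (south east) between times `τ` and `s` -/
def QA (X Y : ℕ → ℤ) (h e : ℕ → Bool) (τ s : ℕ) : Prop :=
  (∀ r, τ ≤ r → r ≤ s → X r < 0 ∧ 0 ≤ Y r ∧ X r - Y r = X τ - Y τ + 2 * (ct e 0 r - ct e 0 τ) ∧
    (ct h 0 s - ct h 0 r) - (ct e 0 s - ct e 0 r) ≤ Y s) ∧
  ∃ r, τ ≤ r ∧ r ≤ s ∧ Y s ≤ 1 + (ct h 0 s - ct h 0 r) - (ct e 0 s - ct e 0 r)

/-- behind and safe -/
def Sf (K : ℕ) (x y : ℤ) : Prop := 0 ≤ x ∧ 0 ≤ y ∧ 2 ≤ x + y ∧ x + y ≤ K

/-- start of a borderline phase -/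
def I3 (K TN : ℕ) (X Y : ℕ → ℤ) (h e : ℕ → Bool) (τ : ℕ) : Prop :=
  τ ≤ TN ∧ ((CE K X h e τ ∧ X τ = 1 ∧ CW Y (nt h) (nt e) τ ∧ Y τ = K) ∨
    (CE K Y (nt h) (nt e) τ ∧ Y τ = 1 ∧ CW X h e τ ∧ X τ = K))

/-- borderline phase -/
def Conf (K : ℕ) (X Y : ℕ → ℤ) (h e : ℕ → Bool) (τ s : ℕ) : Prop :=
  ∀ r, τ ≤ r → r ≤ s → 1 ≤ X r ∧ 1 ≤ Y r ∧ X r + Y r = K + 1 ∧
    X r = X τ - (ct h 0 r - ct h 0 τ) + (ct e 0 r - ct e 0 τ)

/-- possible starts of type A phases -/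
def InfoA (K TN : ℕ) (X Y : ℕ → ℤ) (h e : ℕ → Bool) (τ : ℕ) : Prop :=
  (Fr K X h e τ ∧ X τ < 0 ∧ To K Y (nt h) (nt e) τ) ∨
  (X τ = -(K : ℤ) ∧ Y τ = 0 ∧ ∃ τ' s, τ = s + 1 ∧ τ' ≤ s ∧ I3 K TN X Y h e τ' ∧
    Conf K X Y h e τ' s)

def IA (K TN : ℕ) (X Y : ℕ → ℤ) (h e : ℕ → Bool) (s : ℕ) : Prop :=
  ∃ τ ≤ s, InfoA K TN X Y h e τ ∧ QA X Y h e τ s

def IC (K TN : ℕ) (X Y : ℕ → ℤ) (h e : ℕ → Bool) (s : ℕ) : Prop :=
  ∃ τ ≤ s, I3 K TN X Y h e τ ∧ Conf K X Y h e τ s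

def Inv (K TN : ℕ) (X Y : ℕ → ℤ) (h e : ℕ → Bool) (s : ℕ) : Prop :=
  (Fr K X h e s ∧ Fr K Y (nt h) (nt e) s) ∨ IA K TN X Y h e s ∨
    IA K TN Y X (nt h) (nt e) s ∨ IC K TN X Y h e s ∨ Sf K (X s) (Y s)

theorem I3.swap {K TN : ℕ} {X Y : ℕ → ℤ} {h e : ℕ → Bool} {τ : ℕ} (H : I3 K TN X Y h e τ) :
    I3 K TN Y X (nt h) (nt e) τ := by
  obtain ⟨h1, h2⟩ := H
  refine ⟨h1, ?_⟩
  rw [nt_nt, nt_nt]
  exact h2.symm

theorem Conf.swap {K : ℕ} {X Y : ℕ → ℤ} {h e : ℕ → Bool} {τ s : ℕ} (hτs : τ ≤ s)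
    (H : Conf K X Y h e τ s) : Conf K Y X (nt h) (nt e) τ s := by
  intro r h1 h2
  have h3 := H r h1 h2
  have h4 := H τ le_rfl hτs
  rw [F_nt, F_nt, F_nt, F_nt]
  omega

theorem IC.swap {K TN : ℕ} {X Y : ℕ → ℤ} {h e : ℕ → Bool} {s : ℕ} (H : IC K TN X Y h e s) :
    IC K TN Y X (nt h) (nt e) s := by
  obtain ⟨τ, h1, h2, h3⟩ := H
  exact ⟨τ, h1, h2.swap, h3.swap h1⟩

theorem Inv.swap {K TN : ℕ} {X Y : ℕ → ℤ} {h e : ℕ → Bool} {s : ℕ} (H : Inv K TN X Y h e s) :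
    Inv K TN Y X (nt h) (nt e) s := by
  rcases H with ⟨h1, h2⟩ | h1 | h1 | h1 | h1
  · left
    rw [nt_nt, nt_nt]
    exact ⟨h2, h1⟩
  · right; right; left
    rw [nt_nt, nt_nt]
    exact h1
  · right; left
    exact h1
  · right; right; right; left
    exact h1.swap
  · right; right; right; right
    unfold Sf at *
    omega

section Steps

variable {K R ρ B S₁ TN T U : ℕ} {X Y : ℕ → ℤ} {h e : ℕ → Bool}

theorem qa_refl {τ : ℕ} (h1 : X τ < 0) (h2 : 0 ≤ Y τ) (h3 : Y τ ≤ 1) : QA X Y h e τ τ := by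
  refine ⟨?_, τ, le_rfl, le_rfl, by omega⟩
  intro r hr1 hr2
  have : r = τ := by omega
  subst this
  omega

theorem qa_len (H : Hyp K R ρ B S₁ TN T U X Y h e) {τ s : ℕ} (hs : s ≤ U) (hτs : τ ≤ s)
    (hY : Y τ ≤ 1) (hQ : QA X Y h e τ s) : (s : ℤ) < τ + K + 4 * R + 1 := by
  obtain ⟨h1, h2, h3, h4⟩ := hQ.1 s hτs le_rfl
  have h5 := (H.tj.bx τ (by omega)).1
  have l1 := H.bal s (le_trans hs H.hU)
  have l2 := H.bal τ (le_trans (by omega) H.hU)
  omega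

theorem qa_Y (H : Hyp K R ρ B S₁ TN T U X Y h e) {τ s : ℕ} (hs : s ≤ U) (hτs : τ ≤ s)
    (hY : Y τ ≤ 1) (hQ : QA X Y h e τ s) : 2 * Y s ≤ 2 + B + 4 * R := by
  have h0 := qa_len H hs hτs hY hQ
  obtain ⟨r, h1, h2, h3⟩ := hQ.2
  have hK := H.hK
  have g1 := H.gb r s h2 (le_trans hs H.hU) (by omega)
  have l1 := H.bal s (le_trans hs H.hU)
  have l2 := H.bal r (le_trans (by omega) H.hU)
  omega

theorem qa_step (H : Hyp K R ρ B S₁ TN T U X Y h e) {τ s : ℕ} (hs : s < U) (hτs : τ ≤ s)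
    (hY : Y τ ≤ 1) (hQ : QA X Y h e τ s) :
    QA X Y h e τ (s + 1) ∨ Sf K (X (s + 1)) (Y (s + 1)) := by
  have hY2 := qa_Y H (le_of_lt hs) hτs hY hQ
  have hK := H.hK
  obtain ⟨m, b, hm, hb, hbe, hmh, -, hY0, hXs, hYs⟩ := H.tj.st s hs
  obtain ⟨h1, h2, h3, h4⟩ := hQ.1 s hτs le_rfl
  have hX' : X (s + 1) = X s + m + b := hXs.2.1 h1
  have hY' : (Y s = 0 ∧ m = 1 ∧ Y (s + 1) = 1 - b) ∨
      (0 < Y s ∧ m = ct h 0 (s + 1) - ct h 0 s ∧ Y (s + 1) = Y s - (1 - m) + (1 - b)) := by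
    unfold CS at hYs
    rcases Nat.eq_zero_or_pos (Y s).toNat with h5 | h5
    · left
      have h6 : Y s = 0 := by omega
      exact ⟨h6, hY0 h6, hYs.2.2 h6⟩
    · right
      have h6 : 0 < Y s := by omega
      exact ⟨h6, hmh (by omega) (by omega), (hYs.1 h6).2 (by omega)⟩
  clear hXs hYs
  have hF := F_step' h s
  rcases lt_or_ge (X (s + 1)) 0 with hx | hx
  · left
    refine ⟨?_, ?_⟩
    · intro r hr1 hr2
      rcases Nat.lt_or_ge s r with h5 | h5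
      · have : r = s + 1 := by omega
        subst this
        omega
      · obtain ⟨g1, g2, g3, g4⟩ := hQ.1 r hr1 h5
        refine ⟨g1, g2, g3, ?_⟩
        omega
    · rcases hY' with ⟨h5, h6, h7⟩ | ⟨h5, h6, h7⟩
      · exact ⟨s + 1, by omega, le_rfl, by omega⟩
      · obtain ⟨r, g1, g2, g3⟩ := hQ.2
        exact ⟨r, g1, by omega, by omega⟩
  · right
    have hd := H.tj.dd (s + 1) (by omega)
    unfold Sf
    have hyy : 0 ≤ Y (s + 1) := by omega
    rw [abs_of_nonneg hx, abs_of_nonneg hyy] at hd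
    omega

theorem ia_step (H : Hyp K R ρ B S₁ TN T U X Y h e) {s : ℕ} (hs : s < U)
    (hQ : IA K TN X Y h e s) : IA K TN X Y h e (s + 1) ∨ Sf K (X (s + 1)) (Y (s + 1)) := by
  obtain ⟨τ, h1, h2, h3⟩ := hQ
  have hY : Y τ ≤ 1 := by
    rcases h2 with ⟨_, _, h4⟩ | ⟨_, h4, _⟩
    · rcases h4 with ⟨_, h5⟩ | ⟨_, _, h5⟩ <;> omega
    · omega
  rcases qa_step H hs h1 hY h3 with h4 | h4
  · exact Or.inl ⟨τ, by omega, h2, h4⟩
  · exact Or.inr h4

theorem sf_step (H : Hyp K R ρ B S₁ TN T U X Y h e) {s : ℕ} (hs : s < U)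
    (hS : Sf K (X s) (Y s)) : Sf K (X (s + 1)) (Y (s + 1)) := by
  have hK := H.hK
  obtain ⟨m, b, hm, hb, -, -, hX0, hY0, hXs, hYs⟩ := H.tj.st s hs
  obtain ⟨h1, h2, h3, h4⟩ := hS
  have hX' : 0 ≤ X (s + 1) ∧ X (s + 1) = X s - m + b := by
    unfold CS at hXs
    rcases Nat.eq_zero_or_pos (X s).toNat with h5 | h5
    · have h6 : X s = 0 := by omega
      have := hXs.2.2 h6
      have := hX0 h6
      omega
    · have h6 : 0 < X s := by omega
      have := (hXs.1 h6).2 (by omega)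
      omega
  have hY' : 0 ≤ Y (s + 1) ∧ Y (s + 1) = Y s - (1 - m) + (1 - b) := by
    unfold CS at hYs
    rcases Nat.eq_zero_or_pos (Y s).toNat with h5 | h5
    · have h6 : Y s = 0 := by omega
      have := hYs.2.2 h6
      have := hY0 h6
      omega
    · have h6 : 0 < Y s := by omega
      have := (hYs.1 h6).2 (by omega)
      omega
  unfold Sf
  omega

theorem ic_step (H : Hyp K R ρ B S₁ TN T U X Y h e) {s : ℕ} (hs : s < U)
    (hC : IC K TN X Y h e s) : IC K TN X Y h e (s + 1) ∨ IA K TN X Y h e (s + 1) ∨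
      IA K TN Y X (nt h) (nt e) (s + 1) := by
  have hK := H.hK
  obtain ⟨τ, h1, h2, h3⟩ := hC
  obtain ⟨m, b, hm, hb, hbe, hmh, -, -, hXs, hYs⟩ := H.tj.st s hs
  obtain ⟨g1, g2, g3, g4⟩ := h3 s h1 le_rfl
  have hm' := hmh (by omega) (by omega)
  unfold CS at hXs hYs
  have hX1 := hXs.1 (by omega)
  have hY1 := hYs.1 (by omega)
  clear hXs hYs hmh
  by_cases w1 : X s = K ∧ m = 0 ∧ b = 1
  · -- wrap of X: type A
    right; left
    have hx := hX1.1 w1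
    have hy : Y (s + 1) = 0 := by
      have := hY1.2 (by omega)
      omega
    exact ⟨s + 1, le_rfl, Or.inr ⟨hx, hy, τ, s, rfl, h1, h2, h3⟩,
      qa_refl (by omega) (by omega) (by omega)⟩
  · by_cases w2 : Y s = K ∧ 1 - m = 0 ∧ 1 - b = 1
    · right; right
      have hy := hY1.1 w2
      have hx : X (s + 1) = 0 := by
        have := hX1.2 w1
        omega
      exact ⟨s + 1, le_rfl, Or.inr ⟨hy, hx, τ, s, rfl, h1, h2.swap, h3.swap h1⟩,
        qa_refl (by omega) (by omega) (by omega)⟩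
    · left
      have hx := hX1.2 w1
      have hy := hY1.2 w2
      refine ⟨τ, by omega, h2, ?_⟩
      intro r hr1 hr2
      rcases Nat.lt_or_ge s r with h5 | h5
      · have : r = s + 1 := by omega
        subst this
        clear hX1 hY1
        omega
      · exact h3 r hr1 h5

/-- `X` has touched zero, `Y` has not -/
theorem touch_step (H : Hyp K R ρ B S₁ TN T U X Y h e) {t : ℕ} (ht : t ≤ U)
    (hX : To K X h e t) (hY : Fr K Y (nt h) (nt e) t) :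
    IA K TN Y X (nt h) (nt e) t ∨ IC K TN X Y h e t ∨ Sf K (X t) (Y t) := by
  have hK := H.hK
  have hTN := H.hTN
  have hX01 : 0 ≤ X t ∧ X t ≤ 1 := by
    rcases hX with ⟨_, h1⟩ | ⟨_, h1, h2⟩ <;> omega
  rcases lt_or_ge (Y t) 0 with hy | hy
  · left
    refine ⟨t, le_rfl, Or.inl ⟨hY, hy, ?_⟩, qa_refl hy hX01.1 hX01.2⟩
    rw [nt_nt, nt_nt]
    exact hX
  · right
    have hd := H.tj.dd t ht
    rw [abs_of_nonneg hX01.1, abs_of_nonneg hy] at hd
    have hbx := H.tj.bx t ht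
    by_cases hk : X t + Y t ≤ K
    · right
      unfold Sf
      omega
    · left
      have hx1 : X t = 1 := by omega
      have hyK : Y t = K := by omega
      have hCX : CE K X h e t := by
        rcases hX with ⟨_, h1⟩ | ⟨h1, _, _⟩
        · omega
        · exact h1
      have hCY : CW Y (nt h) (nt e) t := by
        rcases hY with ⟨h1, _⟩ | ⟨_, h1⟩
        · exact h1
        · omega
      have htN : t ≤ TN := by
        rcases hCX with hC | ⟨σ, hC⟩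
        · have := ce0_time H ht hC (by omega)
          omega
        · have h5 := ce1_time H ht hC (by omega)
          have h6 := wrap_bound H hC.1 (by omega) ht hC.2.1 hC.2.2.2.2.1 hCY hyK
          omega
      refine ⟨t, le_rfl, ⟨htN, Or.inl ⟨hCX, hx1, hCY, hyK⟩⟩, ?_⟩
      intro r hr1 hr2
      have : r = t := by omega
      subst this
      omega

theorem fr_fr_step (H : Hyp K R ρ B S₁ TN T U X Y h e) {t : ℕ} (ht : t < U)
    (hX : Fr K X h e t) (hY : Fr K Y (nt h) (nt e) t) : Inv K TN X Y h e (t + 1) := by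
  have hK := H.hK
  have hX0 : X t ≠ 0 := by
    rcases hX with ⟨_, h1⟩ | ⟨_, h1⟩ <;> omega
  have hY0 : Y t ≠ 0 := by
    rcases hY with ⟨_, h1⟩ | ⟨_, h1⟩ <;> omega
  obtain ⟨m, b, hm, hb, hbe, hmh, -, -, hXs, hYs⟩ := H.tj.st t ht
  have hm' := hmh hX0 hY0
  have hXs' := hXs
  have hYs' := hYs
  rw [hm', hbe] at hXs
  have e1 : 1 - m = ct (nt h) 0 (t + 1) - ct (nt h) 0 t := by
    rw [F_nt, F_nt]; push_cast; omega
  have e2 : 1 - b = ct (nt e) 0 (t + 1) - ct (nt e) 0 t := by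
    rw [F_nt, F_nt]; push_cast; omega
  rw [e1, e2] at hYs
  rcases fr_step (by omega) hX hXs with hX1 | hX1
  · rcases fr_step (by omega) hY hYs with hY1 | hY1
    · exact Or.inl ⟨hX1, hY1⟩
    · have hX1' : Fr K X (nt (nt h)) (nt (nt e)) (t + 1) := by rw [nt_nt, nt_nt]; exact hX1
      rcases touch_step H.swap (by omega) hY1 hX1' with h1 | h1 | h1
      · rw [nt_nt, nt_nt] at h1
        exact Or.inr (Or.inl h1)
      · have h2 := h1.swap
        rw [nt_nt, nt_nt] at h2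
        exact Or.inr (Or.inr (Or.inr (Or.inl h2)))
      · refine Or.inr (Or.inr (Or.inr (Or.inr ?_)))
        unfold Sf at *
        omega
  · rcases fr_step (by omega) hY hYs with hY1 | hY1
    · rcases touch_step H (by omega) hX1 hY1 with h1 | h1 | h1
      · exact Or.inr (Or.inr (Or.inl h1))
      · exact Or.inr (Or.inr (Or.inr (Or.inl h1)))
      · exact Or.inr (Or.inr (Or.inr (Or.inr h1)))
    · exfalso
      have hd := H.tj.dd (t + 1) (by omega)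
      have hX01 : 0 ≤ X (t + 1) ∧ X (t + 1) ≤ 1 := by
        rcases hX1 with ⟨_, h1⟩ | ⟨_, h1, h2⟩ <;> omega
      have hY01 : 0 ≤ Y (t + 1) ∧ Y (t + 1) ≤ 1 := by
        rcases hY1 with ⟨_, h1⟩ | ⟨_, h1, h2⟩ <;> omega
      rw [abs_of_nonneg hX01.1, abs_of_nonneg hY01.1] at hd
      have hX2 : X (t + 1) = 1 := by omega
      have hY2 : Y (t + 1) = 1 := by omega
      have hXn : X t < 0 := by
        rcases hX1 with ⟨_, h1⟩ | ⟨h1, _, _⟩
        · omega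
        · rcases h1 with h1 | ⟨σ, h1⟩
          · exact (h1 t (by omega)).2 (by omega)
          · have h3 := h1.2.2.2.2.2
            rcases Nat.lt_or_ge σ t with h4 | h4
            · exact (h3 t h4 (by omega)).2 (by omega)
            · have h5 : σ = t := by have := h1.1; omega
              subst h5
              have h6 := (h3 (σ + 1) (by omega) le_rfl).1
              have := F_step' h σ
              have := F_step' e σ
              omega
      have hYn : Y t < 0 := by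
        rcases hY1 with ⟨_, h1⟩ | ⟨h1, _, _⟩
        · omega
        · rcases h1 with h1 | ⟨σ, h1⟩
          · exact (h1 t (by omega)).2 (by omega)
          · have h3 := h1.2.2.2.2.2
            rcases Nat.lt_or_ge σ t with h4 | h4
            · exact (h3 t h4 (by omega)).2 (by omega)
            · have h5 : σ = t := by have := h1.1; omega
              subst h5
              have h6 := (h3 (σ + 1) (by omega) le_rfl).1
              have := F_step' (nt h) σ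
              have := F_step' (nt e) σ
              omega
      have e3 := hXs'.2.1 hXn
      have e4 := hYs'.2.1 hYn
      omega

theorem inv_zero (H : Hyp K R ρ B S₁ TN T U X Y h e) : Inv K TN X Y h e 0 := by
  have hbx := H.tj.bx 0 (Nat.zero_le _)
  have hd := H.tj.dd 0 (Nat.zero_le _)
  have hK := H.hK
  have cw : ∀ (X : ℕ → ℤ) (h e : ℕ → Bool), CW X h e 0 := by
    intro X h e r hr
    have : r = 0 := by omega
    subst this
    rw [F_zero, F_zero]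
    exact ⟨by ring, by omega⟩
  have ce : ∀ (X : ℕ → ℤ) (h e : ℕ → Bool), CE K X h e 0 := by
    intro X h e
    left
    intro r hr
    have : r = 0 := by omega
    subst this
    rw [F_zero, F_zero]
    exact ⟨by ring, by omega⟩
  have fr : ∀ (X : ℕ → ℤ) (h e : ℕ → Bool), X 0 ≠ 0 → Fr K X h e 0 := by
    intro X h e hx
    rcases lt_or_gt_of_ne hx with h1 | h1
    · exact Or.inr ⟨ce X h e, h1⟩
    · exact Or.inl ⟨cw X h e, h1⟩
  by_cases hx : X 0 = 0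
  · have hy : Y 0 ≠ 0 := by
      intro hy
      rw [hx, hy] at hd
      simp at hd
    rcases touch_step H (Nat.zero_le _) (Or.inl ⟨cw X h e, hx⟩) (fr Y _ _ hy) with h1 | h1 | h1
    · exact Or.inr (Or.inr (Or.inl h1))
    · exact Or.inr (Or.inr (Or.inr (Or.inl h1)))
    · exact Or.inr (Or.inr (Or.inr (Or.inr h1)))
  · by_cases hy : Y 0 = 0
    · rcases touch_step H.swap (Nat.zero_le _) (Or.inl ⟨cw Y _ _, hy⟩) (fr X _ _ hx) with
        h1 | h1 | h1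
      · rw [nt_nt, nt_nt] at h1
        exact Or.inr (Or.inl h1)
      · have h2 := h1.swap
        rw [nt_nt, nt_nt] at h2
        exact Or.inr (Or.inr (Or.inr (Or.inl h2)))
      · refine Or.inr (Or.inr (Or.inr (Or.inr ?_)))
        unfold Sf at *
        omega
    · exact Or.inl ⟨fr X _ _ hx, fr Y _ _ hy⟩

theorem inv_all (H : Hyp K R ρ B S₁ TN T U X Y h e) : ∀ t ≤ U, Inv K TN X Y h e t := by
  intro t
  induction t with
  | zero => intro _; exact inv_zero H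
  | succ t ih =>
    intro ht
    rcases ih (by omega) with ⟨h1, h2⟩ | h1 | h1 | h1 | h1
    · exact fr_fr_step H (by omega) h1 h2
    · rcases ia_step H (by omega) h1 with h2 | h2
      · exact Or.inr (Or.inl h2)
      · exact Or.inr (Or.inr (Or.inr (Or.inr h2)))
    · rcases ia_step H.swap (by omega) h1 with h2 | h2
      · exact Or.inr (Or.inr (Or.inl h2))
      · refine Or.inr (Or.inr (Or.inr (Or.inr ?_)))
        unfold Sf at *
        omega
    · rcases ic_step H (by omega) h1 with h2 | h2 | h2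
      · exact Or.inr (Or.inr (Or.inr (Or.inl h2)))
      · exact Or.inr (Or.inl h2)
      · exact Or.inr (Or.inr (Or.inl h2))
    · exact Or.inr (Or.inr (Or.inr (Or.inr (sf_step H (by omega) h1))))

end Steps

section Final

variable {K R ρ B S₁ TN T U : ℕ} {X Y : ℕ → ℤ} {h e : ℕ → Bool}

theorem pre_of (H : Hyp K R ρ B S₁ TN T U X Y h e) {t : ℕ} (ht : t ≤ U)
    (hC : CW X h e t ∨ CE K X h e t) {v w : ℤ} (hv : |X t - v| ≤ w) :
    Pre K R h t v w (X 0) := by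
  have l1 := H.bal t (le_trans ht H.hU)
  rw [abs_le] at hv
  rcases hC with hC | hC | ⟨σ, h1, h2, h3, h4, h5, h6⟩
  · have h1 := (hC t le_rfl).1
    right; left
    rw [abs_le]
    omega
  · have h1 := (hC t le_rfl).1
    left
    rw [abs_le]
    omega
  · right; right
    have h7 := (h6 t h1 le_rfl).1
    have h8 := (h5 σ le_rfl).1
    have l2 := H.bal σ (le_trans (by omega) H.hU)
    refine ⟨σ, h1, ?_, ?_⟩
    · rw [abs_le]
      omega
    · rw [ct_eq h (le_of_lt h1), abs_le]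
      omega

theorem qa_bal (H : Hyp K R ρ B S₁ TN T U X Y h e) {τ s : ℕ} (hs : s ≤ U)
    (hQ : QA X Y h e τ s) {a : ℤ} (hY : 2 * Y s + 4 * R ≤ a) {τ' : ℕ} (hτ' : τ ≤ τ') :
    MP34e.bal (nt h) τ' s a := by
  intro r hr1 hr2
  have h1 := (hQ.1 r (by omega) hr2).2.2.2
  have l1 := H.bal s (le_trans hs H.hU)
  have l2 := H.bal r (le_trans (by omega) H.hU)
  rw [ct_eq _ hr2, F_nt, F_nt]
  omega

theorem near_A (H : Hyp K R ρ B S₁ TN T U X Y h e) {t : ℕ} (ht : t ≤ U)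
    (hQ : IA K TN X Y h e t) (hρ : |X t| + |Y t| ≤ ρ) :
    (∃ τ ≤ t, t ≤ τ + 4 * K ∧ Pre K R (nt h) τ 0 1 (Y 0) ∧
      Pre K R h τ (-((t : ℤ) - τ)) (ρ + 4 * R + 1) (X 0) ∧
      MP34e.bal (nt h) τ t (4 * R + 2 * ρ)) ∨
    ((∃ τ ≤ TN, (Pre K R h τ 0 1 (X 0) ∧ Pre K R (nt h) τ K 1 (Y 0)) ∨
      (Pre K R (nt h) τ 0 1 (Y 0) ∧ Pre K R h τ K 1 (X 0))) ∧
    K ≤ 4 * t ∧ MP34e.bal (nt h) (t - K / 4) t (4 * R + 2 * ρ)) := by
  have hK := H.hK
  obtain ⟨τ, h1, h2, h3⟩ := hQ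
  obtain ⟨g1, g2, g3, g4⟩ := h3.1 t h1 le_rfl
  have hρ' : -X t + Y t ≤ ρ := by
    rw [abs_of_neg g1, abs_of_nonneg g2] at hρ
    exact hρ
  have l1 := H.bal t (le_trans ht H.hU)
  have l2 := H.bal τ (le_trans (by omega) H.hU)
  rcases h2 with ⟨h4, h5, h6⟩ | ⟨h4, h5, τ', s, h6, h7, h8, h9⟩
  · left
    have hY01 : 0 ≤ Y τ ∧ Y τ ≤ 1 := by
      rcases h6 with ⟨_, h7⟩ | ⟨_, h7, h8⟩ <;> omega
    have hl := qa_len H ht h1 hY01.2 h3
    refine ⟨τ, h1, by omega, ?_, ?_, qa_bal H ht h3 (by omega) le_rfl⟩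
    · refine pre_of H.swap (by omega) ?_ (by rw [abs_le]; omega)
      rcases h6 with ⟨h7, _⟩ | ⟨h7, _, _⟩
      · exact Or.inl h7
      · exact Or.inr h7
    · refine pre_of H (by omega) ?_ (by rw [abs_le]; omega)
      rcases h4 with ⟨h7, _⟩ | ⟨h7, _⟩
      · exact Or.inl h7
      · exact Or.inr h7
  · right
    have hlen : (K : ℤ) ≤ 4 * ((t : ℤ) - τ) := by omega
    refine ⟨⟨τ', h8.1, ?_⟩, by omega, qa_bal H ht h3 (by omega) (by omega)⟩
    rcases h8.2 with ⟨c1, c2, c3, c4⟩ | ⟨c1, c2, c3, c4⟩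
    · left
      exact ⟨pre_of H (by omega) (Or.inr c1) (by rw [abs_le]; omega),
        pre_of H.swap (by omega) (Or.inl c3) (by rw [abs_le]; omega)⟩
    · right
      exact ⟨pre_of H.swap (by omega) (Or.inr c1) (by rw [abs_le]; omega),
        pre_of H (by omega) (Or.inl c3) (by rw [abs_le]; omega)⟩

theorem near_all (H : Hyp K R ρ B S₁ TN T U X Y h e) {t : ℕ} (ht : t ≤ U)
    (hn : X t < 0 ∨ Y t < 0) (hρ : |X t| + |Y t| ≤ ρ) :
    ANear K R ρ TN h t (X 0, Y 0) := by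
  unfold ANear
  simp only
  rcases inv_all H t ht with ⟨h1, h2⟩ | h1 | h1 | ⟨τ, h1, h2, h3⟩ | h1
  · left
    have hx := abs_nonneg (X t)
    have hy := abs_nonneg (Y t)
    refine ⟨pre_of H ht ?_ (by rw [sub_zero]; omega),
      pre_of H.swap ht ?_ (by rw [sub_zero]; omega)⟩
    · rcases h1 with ⟨h3, _⟩ | ⟨h3, _⟩
      · exact Or.inl h3
      · exact Or.inr h3
    · rcases h2 with ⟨h3, _⟩ | ⟨h3, _⟩
      · exact Or.inl h3
      · exact Or.inr h3
  · rcases near_A H ht h1 hρ with h2 | ⟨h2, h3, h4⟩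
    · exact Or.inr (Or.inl h2)
    · exact Or.inr (Or.inr (Or.inr ⟨h2, h3, Or.inr h4⟩))
  · have h1' := near_A H.swap ht h1 (by omega)
    rw [nt_nt] at h1'
    rcases h1' with h2 | ⟨⟨τ, h2, h2'⟩, h3, h4⟩
    · exact Or.inr (Or.inr (Or.inl h2))
    · exact Or.inr (Or.inr (Or.inr ⟨⟨τ, h2, h2'.symm⟩, h3, Or.inl h4⟩))
  · exfalso
    have := h3 t h1 le_rfl
    omega
  · exfalso
    unfold Sf at h1
    omega

theorem front_all (H : Hyp K R ρ B S₁ TN T U X Y h e) {t : ℕ} (ht : t ≤ U)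
    (hn : X t < 0 ∧ Y t < 0) (hρ : |X t| + |Y t| ≤ ρ) :
    AFront K R ρ h t (X 0, Y 0) ∧ t ≤ TN := by
  have hK := H.hK
  have hTN := H.hTN
  rcases inv_all H t ht with ⟨h1, h2⟩ | ⟨τ, h1, h2, h3⟩ | ⟨τ, h1, h2, h3⟩ | ⟨τ, h1, h2, h3⟩ | h1
  · have hx := abs_nonneg (X t)
    have hy := abs_nonneg (Y t)
    have hCX : CE K X h e t := by
      rcases h1 with ⟨_, h3⟩ | ⟨h3, _⟩
      · omega
      · exact h3
    have hCY : CE K Y (nt h) (nt e) t := by
      rcases h2 with ⟨_, h3⟩ | ⟨h3, _⟩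
      · omega
      · exact h3
    refine ⟨⟨pre_of H ht (Or.inr hCX) (by rw [sub_zero]; omega),
      pre_of H.swap ht (Or.inr hCY) (by rw [sub_zero]; omega)⟩, ?_⟩
    rcases hCX with hC | ⟨σ, hC⟩
    · have := ce0_time H ht hC (by omega)
      omega
    · rcases hCY with hC' | ⟨σ', hC'⟩
      · have := ce0_time H.swap ht hC' (by omega)
        omega
      · have t1 := ce1_time H ht hC (by omega)
        have t2 := ce1_time H.swap ht hC' (by omega)
        obtain ⟨a1, a2, a3, a4, a5, a6⟩ := hC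
        obtain ⟨b1, b2, b3, b4, b5, b6⟩ := hC'
        rcases lt_trichotomy σ σ' with hσ | hσ | hσ
        · have : σ < S₁ := by
            refine wrap_bound H hσ (by omega) (by omega) a2 a5 ?_ b2
            intro r hr
            exact ⟨(b5 r hr).1, fun _ => (b5 r hr).2⟩
          omega
        · exfalso
          subst hσ
          rw [F_nt, F_nt] at b4
          push_cast at b4
          omega
        · have : σ' < S₁ := by
            refine wrap_bound H.swap hσ (by omega) (by omega) b2 b5 ?_ a2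
            rw [nt_nt, nt_nt]
            intro r hr
            exact ⟨(a5 r hr).1, fun _ => (a5 r hr).2⟩
          omega
  · exfalso
    have := h3.1 t h1 le_rfl
    omega
  · exfalso
    have := h3.1 t h1 le_rfl
    omega
  · exfalso
    have := h3 t h1 le_rfl
    omega
  · exfalso
    unfold Sf at h1
    omega

/-- escape from a strip of width `3 K` -/
def Esc2 (K S₂ T : ℕ) (h : ℕ → Bool) : Prop := ∀ a : ℕ, a + S₂ ≤ T → ∃ s s' : ℕ,
  a ≤ s ∧ s ≤ s' ∧ s' ≤ a + S₂ ∧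
    (3 * (K : ℤ) < 2 * (ct h 0 s' - ct h 0 s) - ((s' : ℤ) - s) ∨
      2 * (ct h 0 s' - ct h 0 s) - ((s' : ℤ) - s) < -(3 * (K : ℤ)))

theorem Esc2.swap {S₂ : ℕ} (hE : Esc2 K S₂ T h) : Esc2 K S₂ T (nt h) := by
  intro a ha
  obtain ⟨s, s', h1, h2, h3, h4⟩ := hE a ha
  refine ⟨s, s', h1, h2, h3, ?_⟩
  rw [F_nt, F_nt]
  omega

/-- a coordinate cannot stay positive and unwrapped from the start for a long time -/
theorem no_long (H : Hyp K R ρ B S₁ TN T U X Y h e) {S₂ : ℕ} (hE : Esc2 K S₂ T h) {t : ℕ}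
    (ht : t ≤ U) (hX : ∀ r ≤ t, X r = X 0 - ct h 0 r + ct e 0 r ∧ 0 < X r) : t < S₂ := by
  by_contra hc
  rw [not_lt] at hc
  have hK := H.hK
  obtain ⟨s, s', h1, h2, h3, h4⟩ := hE 0 (by have := H.hU; omega)
  have hT := H.hU
  have e1 := hX s (by omega)
  have e2 := hX s' (by omega)
  have b1 := H.tj.bx s (by omega)
  have b2 := H.tj.bx s' (by omega)
  have l1 := H.bal s (by omega)
  have l2 := H.bal s' (by omega)
  omega

/-- ... with a confinement phase starting at `τ` -/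
theorem no_conf (H : Hyp K R ρ B S₁ TN T U X Y h e) {S₂ : ℕ} (hE : Esc2 K S₂ T h) {τ s : ℕ}
    (hs : s ≤ U) (hC : Conf K X Y h e τ s) : s < τ + S₂ := by
  by_contra hc
  rw [not_lt] at hc
  have hK := H.hK
  have hT := H.hU
  obtain ⟨r, r', h1, h2, h3, h4⟩ := hE τ (by omega)
  have e1 := hC r (by omega) (by omega)
  have e2 := hC r' (by omega) (by omega)
  have l1 := H.bal r (by omega)
  have l2 := H.bal r' (by omega)
  omega

/-- if `Y` is closed at `t` (with value at most 1 in the eastern cases) and `t` is large, then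
`Y` was western for a long time -/
theorem west_long (H : Hyp K R ρ B S₁ TN T U X Y h e) {t : ℕ} (ht : t ≤ U)
    (hC : CW X h e t ∨ (CE K X h e t ∧ X t ≤ 1)) (htl : 2 * K + 2 * R + 3 ≤ t) :
    ∀ r ≤ t - (2 * K + 4 * R + 5), X r = X 0 - ct h 0 r + ct e 0 r ∧ 0 < X r := by
  intro r hr
  rcases hC with hC | ⟨hC | ⟨σ, hC⟩, hX⟩
  · exact ⟨(hC r (by omega)).1, (hC r (by omega)).2 (by omega)⟩
  · have := ce0_time H ht hC hX
    omega
  · have h1 := ce1_time H ht hC hX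
    exact hC.2.2.2.2.1 r (by omega)

/-- the final state: type A is impossible at a late time -/
theorem late_A (H : Hyp K R ρ B S₁ TN T U X Y h e) {S₂ : ℕ} (hE : Esc2 K S₂ T h)
    (hU : TN + S₂ + 20 * K ≤ U) (hQ : IA K TN X Y h e U) : False := by
  have hK := H.hK
  have hTN := H.hTN
  obtain ⟨τ, h1, h2, h3⟩ := hQ
  have hY1 : Y τ ≤ 1 := by
    rcases h2 with ⟨_, _, h4⟩ | ⟨_, h4, _⟩
    · rcases h4 with ⟨_, h5⟩ | ⟨_, _, h5⟩ <;> omega
    · omega
  have hl := qa_len H le_rfl h1 hY1 h3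
  rcases h2 with ⟨h4, h5, h6⟩ | ⟨h4, h5, τ', s, h6, h7, h8, h9⟩
  · have hw : CW X h e τ ∨ (CE K X h e τ ∧ X τ ≤ 1) := by
      rcases h4 with ⟨h7, _⟩ | ⟨h7, _⟩
      · exact Or.inl h7
      · exact Or.inr ⟨h7, by omega⟩
    have h8 := no_long H hE (t := τ - (2 * K + 4 * R + 5)) (by omega)
      (west_long H (by omega) hw (by omega))
    omega
  · have h10 := no_conf H hE (by omega) h9
    have h11 := h8.1
    omega

theorem safe_all (H : Hyp K R ρ B S₁ TN T U X Y h e) {S₂ : ℕ} (hE : Esc2 K S₂ T h)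
    (hU : TN + S₂ + 20 * K ≤ U) : Sf K (X U) (Y U) := by
  have hK := H.hK
  have hTN := H.hTN
  rcases inv_all H U le_rfl with ⟨h1, h2⟩ | h1 | h1 | ⟨τ, h1, h2, h3⟩ | h1
  · exfalso
    have hw : CW X h e U ∨ (CE K X h e U ∧ X U ≤ 1) := by
      rcases h1 with ⟨h7, _⟩ | ⟨h7, _⟩
      · exact Or.inl h7
      · exact Or.inr ⟨h7, by omega⟩
    have h8 := no_long H hE (t := U - (2 * K + 4 * R + 5)) (by omega)
      (west_long H (by omega) hw (by omega))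
    omega
  · exact (late_A H hE hU h1).elim
  · exact (late_A H.swap hE.swap hU h1).elim
  · exfalso
    have h4 := no_conf H hE le_rfl h3
    have h5 := h2.1
    omega
  · exact h1

/-- the hypotheses in terms of the original data -/
theorem mkHyp {K R ρ B S₁ TN T : ℕ} (hR : 1 ≤ R)
    (hK : 100 * R + 10 * B + 10 * ρ + 100 ≤ K)
    (hTN : S₁ + 8 * K ≤ TN) {h e : ℕ → Bool} (he : BalP R e T) (hB : GB B (4 * K) h T)
    (hE : ESC (B + 8 * R) S₁ h T) {p : ℤ × ℤ} (hp : p ∈ box K) {t : ℕ} (ht : t ≤ T)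
    (hd : ∀ s ≤ t, 2 ≤ ds (tr K h e p s)) :
    Hyp K R ρ B S₁ TN T t (fun t => (tr K h e p t).1) (fun t => (tr K h e p t).2) h e where
  tj := tr_Tj (by omega) h e p hp t hd
  hU := ht
  hR := hR
  hK := hK
  hTN := hTN
  bal := fun s hs => by
    have := he s hs
    rw [abs_le] at this
    exact this
  gb := fun a b h1 h2 h3 => by
    have := hB a b h1 h2 h3
    rw [abs_le, ct_eq h h1] at this
    exact this
  esc := fun a ha => by
    obtain ⟨s, s', h1, h2, h3, h4⟩ := hE a ha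
    refine ⟨s, s', h1, h2, h3, ?_⟩
    rw [lt_abs, ct_eq h h2] at h4
    push_cast at h4
    omega

theorem mkEsc2 {K S₂ T : ℕ} {h : ℕ → Bool} (hE : ESC (3 * K) S₂ h T) : Esc2 K S₂ T h := by
  intro a ha
  obtain ⟨s, s', h1, h2, h3, h4⟩ := hE a ha
  refine ⟨s, s', h1, h2, h3, ?_⟩
  rw [lt_abs, ct_eq h h2] at h4
  push_cast at h4
  omega

end Final

end Hist

/-! ### the module -/

theorem hist_near {K R ρ B S₁ TN T : ℕ} (hR : 1 ≤ R) (hK : 100 * R + 10 * B + 10 * ρ + 100 ≤ K)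
    (hTN : S₁ + 8 * K ≤ TN) {h e : ℕ → Bool} (he : BalP R e T) (hB : GB B (4 * K) h T)
    (hE : ESC (B + 8 * R) S₁ h T) {p : ℤ × ℤ} (hp : p ∈ box K) {t : ℕ} (ht : t ≤ T)
    (hd : ∀ s ≤ t, 2 ≤ ds (tr K h e p s)) (hn : (tr K h e p t).1 < 0 ∨ (tr K h e p t).2 < 0)
    (hρ : ds (tr K h e p t) ≤ ρ) : ANear K R ρ TN h t p :=
  Hist.near_all (Hist.mkHyp hR hK hTN he hB hE hp ht hd) le_rfl hn hρ

theorem hist_front {K R ρ B S₁ TN T : ℕ} (hR : 1 ≤ R)
    (hK : 100 * R + 10 * B + 10 * ρ + 100 ≤ K)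
    (hTN : S₁ + 8 * K ≤ TN) {h e : ℕ → Bool} (he : BalP R e T) (hB : GB B (4 * K) h T)
    (hE : ESC (B + 8 * R) S₁ h T) {p : ℤ × ℤ} (hp : p ∈ box K) {t : ℕ} (ht : t ≤ T)
    (hd : ∀ s ≤ t, 2 ≤ ds (tr K h e p s)) (hn : (tr K h e p t).1 < 0 ∧ (tr K h e p t).2 < 0)
    (hρ : ds (tr K h e p t) ≤ ρ) : AFront K R ρ h t p ∧ t ≤ TN :=
  Hist.front_all (Hist.mkHyp hR hK hTN he hB hE hp ht hd) le_rfl hn hρ

theorem hist_safe {K R ρ B S₁ S₂ TN T : ℕ} (hR : 1 ≤ R)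
    (hK : 100 * R + 10 * B + 10 * ρ + 100 ≤ K)
    (hTN : S₁ + 8 * K ≤ TN) (hT : TN + S₂ + 20 * K ≤ T) {h e : ℕ → Bool} (he : BalP R e T)
    (hB : GB B (4 * K) h T) (hE : ESC (B + 8 * R) S₁ h T) (hE2 : ESC (3 * K) S₂ h T)
    {p : ℤ × ℤ} (hp : p ∈ box K) (hd : ∀ s ≤ T, 2 ≤ ds (tr K h e p s)) :
    Safe K (tr K h e p T) :=
  Hist.safe_all (Hist.mkHyp (ρ := ρ) hR hK hTN he hB hE hp le_rfl hd) (Hist.mkEsc2 hE2) hT

end MP34e
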