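import Pool.Agent.Work.MP_34e428_co.LDefsJ
import Pool.Agent.Work.MP_34e428_co.LHist

/-! History of one zombie on the torus, both parities (module HJ). -/

set_option autoImplicit false

open Finset

namespace MP34e

namespace HistJ

open Hist (F_zero F_step F_step' F_nt ct_eq F_lip sign_cases)

/-! ### trajectories -/

/-- step of one coordinate: zombie indicator `m`, survivor indicator `b`, jump indicator `a` -/
def CSJ (K o : ℕ) (x x' m b a : ℤ) : Prop :=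
  (a = 1 → o = 1 ∧ x = K ∧ m = 1 ∧ x' = -(K : ℤ) + 1 + b) ∧
  (a = 0 → (0 < x → (x = K ∧ m = 0 ∧ b = 1 → x' = -(K : ℤ) + o) ∧
      (¬ (x = K ∧ m = 0 ∧ b = 1) → x' = x - m + b)) ∧
    (x < 0 → x' = x + m + b) ∧ (x = 0 → x' = b))

/-- trajectory of one zombie up to time `U`, never caught; `h` = corrected coins, `jd` = jump
decisions, `jn` = number of jumps -/
structure TjJ (K o U : ℕ) (X Y : ℕ → ℤ) (h e jd : ℕ → Bool) (jn : ℕ → ℤ) : Prop where
  ho : o ≤ 1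
  bx : ∀ t ≤ U, -(K : ℤ) + o ≤ X t ∧ X t ≤ K ∧ -(K : ℤ) + o ≤ Y t ∧ Y t ≤ K
  dd : ∀ t ≤ U, 2 ≤ |X t| + |Y t|
  j0 : jn 0 = 0
  st : ∀ t < U, ∃ m b a c : ℤ, (m = 0 ∨ m = 1) ∧ (b = 0 ∨ b = 1) ∧ (a = 0 ∨ a = 1) ∧
    (c = 0 ∨ c = 1) ∧ a + c ≤ 1 ∧
    b = ct e 0 (t + 1) - ct e 0 t ∧
    (X t ≠ 0 → Y t ≠ 0 → m = ct h 0 (t + 1) - ct h 0 t) ∧ (X t = 0 → m = 0) ∧ (Y t = 0 → m = 1) ∧
    CSJ K o (X t) (X (t + 1)) m b a ∧ CSJ K o (Y t) (Y (t + 1)) (1 - m) (1 - b) c ∧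
    jn (t + 1) = jn t + a + c ∧
    (o = 1 → jd t = true → X t = K → Y t = 0 → a = 1) ∧
    (o = 1 → jd t = true → X t = 0 → Y t = K → c = 1)

theorem TjJ.swap {K o U : ℕ} {X Y : ℕ → ℤ} {h e jd : ℕ → Bool} {jn : ℕ → ℤ}
    (H : TjJ K o U X Y h e jd jn) : TjJ K o U Y X (nt h) (nt e) jd jn where
  ho := H.ho
  bx := fun t ht => by
    have := H.bx t ht
    omega
  dd := fun t ht => by
    have := H.dd t ht
    omega
  j0 := H.j0
  st := fun t ht => by
    obtain ⟨m, b, a, c, hm, hb, ha, hc, hac, h1, h2, h3, h4, h5, h6, h7, h8, h9⟩ := H.st t ht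
    refine ⟨1 - m, 1 - b, c, a, by omega, by omega, hc, ha, by omega, ?_, ?_, ?_, ?_, h6, ?_,
      by omega, ?_, ?_⟩
    · rw [F_nt, F_nt]; push_cast; omega
    · intro hy hx
      have := h2 hx hy
      rw [F_nt, F_nt]; push_cast; omega
    · intro hy
      have := h4 hy
      omega
    · intro hx
      have := h3 hx
      omega
    · have e1 : (1 : ℤ) - (1 - m) = m := by ring
      have e2 : (1 : ℤ) - (1 - b) = b := by ring
      rw [e1, e2]
      exact h5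
    · intro ho hj hy hx
      exact h9 ho hj hx hy
    · intro ho hj hy hx
      exact h8 ho hj hx hy

/-! ### hypotheses -/

/-- all hypotheses on one zombie -/
structure HypJ (K o R ρ B S₁ TN U : ℕ) (X Y : ℕ → ℤ) (h e jd : ℕ → Bool) (jn : ℕ → ℤ) :
    Prop where
  tj : TjJ K o U X Y h e jd jn
  hR : 4 ≤ R
  hK : 200 * R + 10 * B + 10 * ρ + 1000 ≤ K
  hTN : S₁ + 8 * K ≤ TN
  bal : ∀ t ≤ U, -(2 * (R : ℤ)) ≤ 2 * ct e 0 t - t ∧ 2 * ct e 0 t - t ≤ 2 * R
  gb : ∀ a b : ℕ, a ≤ b → b ≤ U → b ≤ a + 4 * K →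
    -((B : ℤ) + 6) ≤ 2 * (ct h 0 b - ct h 0 a) - ((b : ℤ) - a) ∧
      2 * (ct h 0 b - ct h 0 a) - ((b : ℤ) - a) ≤ B + 6
  esc : ∀ a : ℕ, a + S₁ ≤ U → ∃ s s' : ℕ, a ≤ s ∧ s ≤ s' ∧ s' ≤ a + S₁ ∧
    ((B : ℤ) + 8 * R + 94 < 2 * (ct h 0 s' - ct h 0 s) - ((s' : ℤ) - s) ∨
      2 * (ct h 0 s' - ct h 0 s) - ((s' : ℤ) - s) < -((B : ℤ) + 8 * R + 94))

theorem HypJ.swap {K o R ρ B S₁ TN U : ℕ} {X Y : ℕ → ℤ} {h e jd : ℕ → Bool} {jn : ℕ → ℤ}
    (H : HypJ K o R ρ B S₁ TN U X Y h e jd jn) :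
    HypJ K o R ρ B S₁ TN U Y X (nt h) (nt e) jd jn where
  tj := H.tj.swap
  hR := H.hR
  hK := H.hK
  hTN := H.hTN
  bal := fun t ht => by
    have := H.bal t ht
    rw [F_nt]
    omega
  gb := fun a b h1 h2 h3 => by
    have := H.gb a b h1 h2 h3
    rw [F_nt, F_nt]
    omega
  esc := fun a ha => by
    obtain ⟨s, s', h1, h2, h3, h4⟩ := H.esc a ha
    refine ⟨s, s', h1, h2, h3, ?_⟩
    rw [F_nt, F_nt]
    omega

/-! ### closed formulas of one coordinate before its first contact with `0` -/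

def CW (X : ℕ → ℤ) (h e : ℕ → Bool) (t : ℕ) : Prop :=
  ∀ r ≤ t, X r = X 0 - ct h 0 r + ct e 0 r ∧ (r < t → 0 < X r)

def CE0 (X : ℕ → ℤ) (h e : ℕ → Bool) (t : ℕ) : Prop :=
  ∀ r ≤ t, X r = X 0 + ct h 0 r + ct e 0 r ∧ (r < t → X r < 0)

def CE1 (K o : ℕ) (X : ℕ → ℤ) (h e : ℕ → Bool) (σ t : ℕ) : Prop :=
  σ < t ∧ X σ = K ∧ (∀ r ≤ σ, X r = X 0 - ct h 0 r + ct e 0 r ∧ 0 < X r) ∧
    ∀ r, σ < r → r ≤ t →
      X r = -(K : ℤ) + (ct h 0 r - ct h 0 σ) + (ct e 0 r - ct e 0 σ) - 1 + o ∧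
      (r < t → X r < 0)

def CE (K o : ℕ) (X : ℕ → ℤ) (h e : ℕ → Bool) (t : ℕ) : Prop :=
  CE0 X h e t ∨ ∃ σ, CE1 K o X h e σ t

/-- free coordinate, western (`c = 0`) or eastern (`c = 1`) -/
def Fr (K o : ℕ) (X : ℕ → ℤ) (h e : ℕ → Bool) (t : ℕ) (c : ℤ) : Prop :=
  (c = 0 ∧ CW X h e t ∧ 0 < X t) ∨ (c = 1 ∧ CE K o X h e t ∧ X t < 0)

/-- first contact with zero -/
def To (K o : ℕ) (X : ℕ → ℤ) (h e : ℕ → Bool) (t : ℕ) (c : ℤ) : Prop :=
  (c = 0 ∧ CW X h e t ∧ X t = 0) ∨ (c = 1 ∧ CE K o X h e t ∧ 0 ≤ X t ∧ X t ≤ 1)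

theorem fr_step {K o : ℕ} {X : ℕ → ℤ} {h e : ℕ → Bool} {t : ℕ} {c a : ℤ} (ho : o ≤ 1)
    (hK : 10 ≤ K) (ha : a = 0 ∨ a = 1) (hF : Fr K o X h e t c)
    (hs : CSJ K o (X t) (X (t + 1)) (ct h 0 (t + 1) - ct h 0 t)
      (ct e 0 (t + 1) - ct e 0 t) a) :
    ∃ c', c + a ≤ c' ∧ (Fr K o X h e (t + 1) c' ∨ To K o X h e (t + 1) c') := by
  have h1 := F_step' h t
  have h2 := F_step' e t
  unfold CSJ at hs
  rcases hF with ⟨rfl, hC, hp⟩ | ⟨rfl, hC, hn⟩
  · have hv := (hC t le_rfl).1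
    by_cases hw : X t = K ∧ (a = 1 ∨ (ct h 0 (t + 1) = ct h 0 t ∧ ct e 0 (t + 1) = ct e 0 t + 1))
    · have hX : X (t + 1) = -(K : ℤ) + (ct h 0 (t + 1) - ct h 0 t) +
          (ct e 0 (t + 1) - ct e 0 t) - 1 + o := by
        rcases ha with rfl | rfl <;> omega
      refine ⟨1, by omega, Or.inl (Or.inr ⟨rfl, Or.inr ⟨t, by omega, hw.1, ?_, ?_⟩, by omega⟩)⟩
      · intro r hr
        refine ⟨(hC r hr).1, ?_⟩
        rcases Nat.lt_or_ge r t with h3 | h3
        · exact (hC r hr).2 h3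
        · have : r = t := by omega
          rw [this]; exact hp
      · intro r hr1 hr2
        have : r = t + 1 := by omega
        subst this
        exact ⟨by omega, by omega⟩
    · have ha0 : a = 0 := by
        rcases ha with rfl | rfl
        · rfl
        · exfalso
          exact hw ⟨(hs.1 rfl).2.1, Or.inl rfl⟩
      subst ha0
      have hX : X (t + 1) = X t - (ct h 0 (t + 1) - ct h 0 t) + (ct e 0 (t + 1) - ct e 0 t) := by
        omega
      have hC' : CW X h e (t + 1) := by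
        intro r hr
        rcases Nat.lt_or_ge t r with h3 | h3
        · have : r = t + 1 := by omega
          subst this
          exact ⟨by omega, by omega⟩
        · refine ⟨(hC r h3).1, fun _ => ?_⟩
          rcases Nat.lt_or_ge r t with h4 | h4
          · exact (hC r h3).2 h4
          · have : r = t := by omega
            rw [this]; exact hp
      rcases lt_trichotomy (X (t + 1)) 0 with h5 | h5 | h5
      · omega
      · exact ⟨0, by omega, Or.inr (Or.inl ⟨rfl, hC', h5⟩)⟩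
      · exact ⟨0, by omega, Or.inl (Or.inl ⟨rfl, hC', h5⟩)⟩
  · have ha0 : a = 0 := by
      rcases ha with rfl | rfl
      · rfl
      · exfalso
        have := (hs.1 rfl).2.1
        omega
    subst ha0
    have hX : X (t + 1) = X t + (ct h 0 (t + 1) - ct h 0 t) + (ct e 0 (t + 1) - ct e 0 t) :=
      (hs.2 rfl).2.1 hn
    have hC' : CE K o X h e (t + 1) := by
      rcases hC with hC | ⟨σ, hσ, h3, h6, h7⟩
      · refine Or.inl ?_
        intro r hr
        have hv := (hC t le_rfl).1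
        rcases Nat.lt_or_ge t r with h3 | h3
        · have : r = t + 1 := by omega
          subst this
          exact ⟨by omega, by omega⟩
        · refine ⟨(hC r h3).1, fun _ => ?_⟩
          rcases Nat.lt_or_ge r t with h4 | h4
          · exact (hC r h3).2 h4
          · have : r = t := by omega
            rw [this]; exact hn
      · refine Or.inr ⟨σ, by omega, h3, h6, ?_⟩
        have hv := (h7 t hσ le_rfl).1
        intro r hr1 hr2
        rcases Nat.lt_or_ge t r with h8 | h8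
        · have : r = t + 1 := by omega
          subst this
          exact ⟨by omega, by omega⟩
        · refine ⟨(h7 r hr1 h8).1, fun _ => ?_⟩
          rcases Nat.lt_or_ge r t with h9 | h9
          · exact (h7 r hr1 h8).2 h9
          · have : r = t := by omega
            rw [this]; exact hn
    rcases lt_or_ge (X (t + 1)) 0 with h5 | h5
    · exact ⟨1, by omega, Or.inl (Or.inr ⟨rfl, hC', h5⟩)⟩
    · exact ⟨1, by omega, Or.inr (Or.inr ⟨rfl, hC', h5, by omega⟩)⟩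

section Bounds

variable {K o R ρ B S₁ TN U : ℕ} {X Y : ℕ → ℤ} {h e jd : ℕ → Bool} {jn : ℕ → ℤ}

theorem ce0_time (H : HypJ K o R ρ B S₁ TN U X Y h e jd jn) {t : ℕ} (ht : t ≤ U)
    (hC : CE0 X h e t) (hX : X t ≤ 1) : t ≤ 2 * K + 2 * R + 2 := by
  have h1 := (hC t le_rfl).1
  have h2 := (H.tj.bx 0 (Nat.zero_le _)).1
  have h3 := H.bal t ht
  have h4 := ct_nonneg h 0 t
  omega

theorem ce1_time (H : HypJ K o R ρ B S₁ TN U X Y h e jd jn) {σ t : ℕ} (ht : t ≤ U)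
    (hC : CE1 K o X h e σ t) (hX : X t ≤ 1) : t ≤ σ + 2 * K + 4 * R + 4 := by
  obtain ⟨h1, h2, h5, h6⟩ := hC
  have h7 := (h6 t h1 le_rfl).1
  have h8 := H.bal t ht
  have h9 := H.bal σ (by omega)
  have h10 := F_lip h (le_of_lt h1)
  omega

/-- the first wrap is early if the other coordinate is close to `K` soon after -/
theorem wrap_bound (H : HypJ K o R ρ B S₁ TN U X Y h e jd jn) {σ s : ℕ} (hσs : σ ≤ s)
    (hs4 : s ≤ σ + 4 * K) (hsU : s ≤ U) (hXσ : X σ = K)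
    (hX : ∀ r ≤ σ, X r = X 0 - ct h 0 r + ct e 0 r ∧ 0 < X r)
    (hY : CW Y (nt h) (nt e) s) (hYs : (K : ℤ) - 1 ≤ Y s) : σ < S₁ := by
  by_contra hc
  rw [not_lt] at hc
  obtain ⟨s1, s2, h1, h2, h3, h4⟩ := H.esc 0 (by omega)
  have e1 := (hX s1 (by omega)).1
  have e2 := (hX s2 (by omega)).1
  have e3 := (hX σ le_rfl).1
  have f1 := (hY s1 (by omega)).1
  have f2 := (hY s2 (by omega)).1
  have f3 := (hY σ (by omega)).1
  have f4 := (hY s le_rfl).1
  rw [F_nt, F_nt] at f1 f2 f3 f4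
  have b1 := H.tj.bx s1 (by omega)
  have b2 := H.tj.bx s2 (by omega)
  have g1 := H.gb σ s hσs (by omega) hs4
  have l1 := H.bal s1 (by omega)
  have l2 := H.bal s2 (by omega)
  have l3 := H.bal σ (by omega)
  have l4 := H.bal s (by omega)
  omega

end Bounds

/-! ### joint states -/

/-- zombie of type A (south east) between times `τ` and `s` -/
def QA (X Y : ℕ → ℤ) (h e : ℕ → Bool) (τ s : ℕ) : Prop :=
  (∀ r, τ ≤ r → r ≤ s → X r < 0 ∧ 0 ≤ Y r ∧ X r - Y r = X τ - Y τ + 2 * (ct e 0 r - ct e 0 τ) ∧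
    (ct h 0 s - ct h 0 r) - (ct e 0 s - ct e 0 r) ≤ Y s) ∧
  ∃ r, τ ≤ r ∧ r ≤ s ∧ Y s ≤ 2 + (ct h 0 s - ct h 0 r) - (ct e 0 s - ct e 0 r)

/-- behind and safe -/
def Sf (K o : ℕ) (x y : ℤ) : Prop := 0 ≤ x ∧ 0 ≤ y ∧ 2 ≤ x + y ∧ x + y + o ≤ K

/-- start of a borderline phase, one coordinate eastern -/
def I3 (K o TN : ℕ) (X Y : ℕ → ℤ) (h e : ℕ → Bool) (τ : ℕ) : Prop :=
  τ ≤ TN ∧ ((CE K o X h e τ ∧ 0 ≤ X τ ∧ X τ ≤ 1 ∧ CW Y (nt h) (nt e) τ ∧ (K : ℤ) - 1 ≤ Y τ) ∨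
    (CE K o Y (nt h) (nt e) τ ∧ 0 ≤ Y τ ∧ Y τ ≤ 1 ∧ CW X h e τ ∧ (K : ℤ) - 1 ≤ X τ))

/-- start of a borderline phase, both coordinates western -/
def I0 (K : ℕ) (X Y : ℕ → ℤ) (h e : ℕ → Bool) (τ : ℕ) : Prop :=
  X 0 + Y 0 = K ∧ CW X h e τ ∧ CW Y (nt h) (nt e) τ

/-- the two ends of the line `x + y = K` -/
def Vs (K : ℕ) (x y : ℤ) : Prop := (x = K ∧ y = 0) ∨ (x = 0 ∧ y = K)

/-- borderline phase -/
def Ln (K o : ℕ) (X Y : ℕ → ℤ) (h e jd : ℕ → Bool) (τ s : ℕ) (c : ℤ) : Prop :=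
  (K : ℤ) + 1 - o ≤ c ∧ c ≤ K + 1 ∧
  (∀ r, τ ≤ r → r ≤ s → 0 ≤ X r ∧ 0 ≤ Y r ∧ X r + Y r = c) ∧
  ∀ r, τ ≤ r → r < s →
    (1 ≤ X r → 1 ≤ Y r →
      X (r + 1) = X r - (ct h 0 (r + 1) - ct h 0 r) + (ct e 0 (r + 1) - ct e 0 r)) ∧
    (Vs K (X r) (Y r) → jd r = false)

/-- possible starts of type A phases -/
def InfoA (K o TN : ℕ) (X Y : ℕ → ℤ) (h e jd : ℕ → Bool) (τ : ℕ) : Prop :=
  ((∃ c, Fr K o X h e τ c) ∧ X τ < 0 ∧ ∃ c, To K o Y (nt h) (nt e) τ c) ∨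
  (X τ ≤ -(K : ℤ) + 2 ∧ 0 ≤ Y τ ∧ Y τ ≤ 2 ∧ ∃ τ' s c, τ = s + 1 ∧ τ' ≤ s ∧
    (I3 K o TN X Y h e τ' ∨ I0 K X Y h e τ') ∧ Ln K o X Y h e jd τ' s c)

def IA (K o TN : ℕ) (X Y : ℕ → ℤ) (h e jd : ℕ → Bool) (s : ℕ) : Prop :=
  ∃ τ ≤ s, InfoA K o TN X Y h e jd τ ∧ QA X Y h e τ s

def IC (K o TN : ℕ) (X Y : ℕ → ℤ) (h e jd : ℕ → Bool) (s : ℕ) : Prop :=
  ∃ τ ≤ s, ∃ c, (I3 K o TN X Y h e τ ∨ I0 K X Y h e τ) ∧ Ln K o X Y h e jd τ s c

def Inv (K o TN : ℕ) (X Y : ℕ → ℤ) (h e jd : ℕ → Bool) (jn : ℕ → ℤ) (s : ℕ) : Prop :=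
  (∃ cx cy, Fr K o X h e s cx ∧ Fr K o Y (nt h) (nt e) s cy ∧ jn s ≤ cx + cy) ∨
  (IA K o TN X Y h e jd s ∧ jn s ≤ 2) ∨
  (IA K o TN Y X (nt h) (nt e) jd s ∧ jn s ≤ 2) ∨
  (IC K o TN X Y h e jd s ∧ jn s ≤ 1) ∨ (Sf K o (X s) (Y s) ∧ jn s ≤ 2)

theorem I3.swap {K o TN : ℕ} {X Y : ℕ → ℤ} {h e : ℕ → Bool} {τ : ℕ}
    (H : I3 K o TN X Y h e τ) : I3 K o TN Y X (nt h) (nt e) τ := by
  obtain ⟨h1, h2⟩ := H
  refine ⟨h1, ?_⟩
  rw [nt_nt, nt_nt]
  exact h2.symm

theorem I0.swap {K : ℕ} {X Y : ℕ → ℤ} {h e : ℕ → Bool} {τ : ℕ}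
    (H : I0 K X Y h e τ) : I0 K Y X (nt h) (nt e) τ := by
  obtain ⟨h1, h2, h3⟩ := H
  refine ⟨by omega, h3, ?_⟩
  rw [nt_nt, nt_nt]
  exact h2

theorem IN.swap {K o TN : ℕ} {X Y : ℕ → ℤ} {h e : ℕ → Bool} {τ : ℕ}
    (H : I3 K o TN X Y h e τ ∨ I0 K X Y h e τ) :
    I3 K o TN Y X (nt h) (nt e) τ ∨ I0 K Y X (nt h) (nt e) τ := by
  rcases H with H | H
  · exact Or.inl H.swap
  · exact Or.inr H.swap

theorem Vs.swap {K : ℕ} {x y : ℤ} (H : Vs K x y) : Vs K y x := by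
  rcases H with ⟨h1, h2⟩ | ⟨h1, h2⟩
  · exact Or.inr ⟨h2, h1⟩
  · exact Or.inl ⟨h2, h1⟩

theorem Ln.swap {K o : ℕ} {X Y : ℕ → ℤ} {h e jd : ℕ → Bool} {τ s : ℕ} {c : ℤ}
    (H : Ln K o X Y h e jd τ s c) : Ln K o Y X (nt h) (nt e) jd τ s c := by
  obtain ⟨h1, h2, h3, h4⟩ := H
  refine ⟨h1, h2, fun r hr1 hr2 => ?_, fun r hr1 hr2 => ⟨fun hy hx => ?_, fun hv => ?_⟩⟩
  · have := h3 r hr1 hr2
    omega
  · have g1 := h3 r hr1 (le_of_lt hr2)
    have g2 := h3 (r + 1) (by omega) hr2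
    have g3 := (h4 r hr1 hr2).1 hx hy
    rw [F_nt, F_nt, F_nt, F_nt]
    push_cast
    omega
  · exact (h4 r hr1 hr2).2 hv.swap

theorem IC.swap {K o TN : ℕ} {X Y : ℕ → ℤ} {h e jd : ℕ → Bool} {s : ℕ}
    (H : IC K o TN X Y h e jd s) : IC K o TN Y X (nt h) (nt e) jd s := by
  obtain ⟨τ, h1, c, h2, h3⟩ := H
  exact ⟨τ, h1, c, IN.swap h2, h3.swap⟩

theorem Sf.swap {K o : ℕ} {x y : ℤ} (H : Sf K o x y) : Sf K o y x := by
  unfold Sf at *
  omega

section Steps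

variable {K o R ρ B S₁ TN U : ℕ} {X Y : ℕ → ℤ} {h e jd : ℕ → Bool} {jn : ℕ → ℤ}

theorem qa_refl {τ : ℕ} (h1 : X τ < 0) (h2 : 0 ≤ Y τ) (h3 : Y τ ≤ 2) : QA X Y h e τ τ := by
  refine ⟨?_, τ, le_rfl, le_rfl, by omega⟩
  intro r hr1 hr2
  have : r = τ := by omega
  subst this
  omega

theorem qa_len (H : HypJ K o R ρ B S₁ TN U X Y h e jd jn) {τ s : ℕ} (hs : s ≤ U) (hτs : τ ≤ s)
    (hY : Y τ ≤ 2) (hQ : QA X Y h e τ s) : (s : ℤ) < τ + K + 4 * R + 2 := by
  obtain ⟨h1, h2, h3, h4⟩ := hQ.1 s hτs le_rfl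
  have h5 := (H.tj.bx τ (by omega)).1
  have l1 := H.bal s hs
  have l2 := H.bal τ (by omega)
  omega

theorem qa_Y (H : HypJ K o R ρ B S₁ TN U X Y h e jd jn) {τ s : ℕ} (hs : s ≤ U) (hτs : τ ≤ s)
    (hY : Y τ ≤ 2) (hQ : QA X Y h e τ s) : 2 * Y s ≤ 10 + B + 4 * R := by
  have h0 := qa_len H hs hτs hY hQ
  obtain ⟨r, h1, h2, h3⟩ := hQ.2
  have hK := H.hK
  have g1 := H.gb r s h2 hs (by omega)
  have l1 := H.bal s hs
  have l2 := H.bal r (by omega)
  omega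

theorem qa_step (H : HypJ K o R ρ B S₁ TN U X Y h e jd jn) {τ s : ℕ} (hs : s < U) (hτs : τ ≤ s)
    (hY : Y τ ≤ 2) (hQ : QA X Y h e τ s) :
    (QA X Y h e τ (s + 1) ∨ Sf K o (X (s + 1)) (Y (s + 1))) ∧ jn (s + 1) = jn s := by
  have hY2 := qa_Y H (le_of_lt hs) hτs hY hQ
  have hK := H.hK
  have ho := H.tj.ho
  obtain ⟨m, b, a, c, hm, hb, ha, hc, hac, hbe, hmh, -, hY0, hXs, hYs, hjn, -, -⟩ := H.tj.st s hs
  obtain ⟨h1, h2, h3, h4⟩ := hQ.1 s hτs le_rfl
  have ha0 : a = 0 := by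
    rcases ha with h5 | h5
    · exact h5
    · exfalso
      have := (hXs.1 h5).2.1
      omega
  have hc0 : c = 0 := by
    rcases hc with h5 | h5
    · exact h5
    · exfalso
      have := (hYs.1 h5).2.1
      omega
  have hX' : X (s + 1) = X s + m + b := (hXs.2 ha0).2.1 h1
  have hY' : (Y s = 0 ∧ m = 1 ∧ Y (s + 1) = 1 - b) ∨
      (0 < Y s ∧ m = ct h 0 (s + 1) - ct h 0 s ∧ Y (s + 1) = Y s - (1 - m) + (1 - b)) := by
    have hYs' := hYs.2 hc0
    rcases Nat.eq_zero_or_pos (Y s).toNat with h5 | h5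
    · left
      have h6 : Y s = 0 := by omega
      exact ⟨h6, hY0 h6, hYs'.2.2 h6⟩
    · right
      have h6 : 0 < Y s := by omega
      exact ⟨h6, hmh (by omega) (by omega), (hYs'.1 h6).2 (by omega)⟩
  clear hXs hYs
  have hF := F_step' h s
  refine ⟨?_, by omega⟩
  rcases lt_or_ge (X (s + 1)) 0 with hx | hx
  · left
    refine ⟨?_, ?_⟩
    · intro r hr1 hr2
      rcases Nat.lt_or_ge s r with h5 | h5
      · have : r = s + 1 := by omega
        subst this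
        omega
      · obtain ⟨g1, g2, g3, g4⟩ := hQ.1 r hr1 h5
        refine ⟨g1, g2, g3, ?_⟩
        omega
    · rcases hY' with ⟨h5, h6, h7⟩ | ⟨h5, h6, h7⟩
      · exact ⟨s + 1, by omega, le_rfl, by omega⟩
      · obtain ⟨r, g1, g2, g3⟩ := hQ.2
        exact ⟨r, g1, by omega, by omega⟩
  · right
    have hd := H.tj.dd (s + 1) (by omega)
    unfold Sf
    have hyy : 0 ≤ Y (s + 1) := by omega
    rw [abs_of_nonneg hx, abs_of_nonneg hyy] at hd
    omega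

theorem infoA_Y {τ : ℕ} (h2 : InfoA K o TN X Y h e jd τ) : Y τ ≤ 2 := by
  rcases h2 with ⟨_, _, _, h4⟩ | ⟨_, _, h4, _⟩
  · rcases h4 with ⟨_, _, h5⟩ | ⟨_, _, _, h5⟩ <;> omega
  · exact h4

theorem ia_step (H : HypJ K o R ρ B S₁ TN U X Y h e jd jn) {s : ℕ} (hs : s < U)
    (hQ : IA K o TN X Y h e jd s) (hj : jn s ≤ 2) :
    (IA K o TN X Y h e jd (s + 1) ∧ jn (s + 1) ≤ 2) ∨
      (Sf K o (X (s + 1)) (Y (s + 1)) ∧ jn (s + 1) ≤ 2) := by
  obtain ⟨τ, h1, h2, h3⟩ := hQ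
  obtain ⟨h4, h5⟩ := qa_step H hs h1 (infoA_Y h2) h3
  rcases h4 with h4 | h4
  · exact Or.inl ⟨⟨τ, by omega, h2, h4⟩, by omega⟩
  · exact Or.inr ⟨h4, by omega⟩

theorem sf_step (H : HypJ K o R ρ B S₁ TN U X Y h e jd jn) {s : ℕ} (hs : s < U)
    (hS : Sf K o (X s) (Y s)) :
    Sf K o (X (s + 1)) (Y (s + 1)) ∧ jn (s + 1) = jn s := by
  have hK := H.hK
  have ho := H.tj.ho
  obtain ⟨m, b, a, c, hm, hb, ha, hc, hac, -, -, hX0, hY0, hXs, hYs, hjn, -, -⟩ := H.tj.st s hs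
  obtain ⟨h1, h2, h3, h4⟩ := hS
  have ha0 : a = 0 := by
    rcases ha with h5 | h5
    · exact h5
    · exfalso
      obtain ⟨g1, g2, _, _⟩ := hXs.1 h5
      omega
  have hc0 : c = 0 := by
    rcases hc with h5 | h5
    · exact h5
    · exfalso
      obtain ⟨g1, g2, _, _⟩ := hYs.1 h5
      omega
  have hX' : 0 ≤ X (s + 1) ∧ X (s + 1) = X s - m + b := by
    have hXs' := hXs.2 ha0
    rcases Nat.eq_zero_or_pos (X s).toNat with h5 | h5
    · have h6 : X s = 0 := by omega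
      have := hXs'.2.2 h6
      have := hX0 h6
      omega
    · have h6 : 0 < X s := by omega
      have := (hXs'.1 h6).2 (by intro h7; have := hY0 (by omega); omega)
      omega
  have hY' : 0 ≤ Y (s + 1) ∧ Y (s + 1) = Y s - (1 - m) + (1 - b) := by
    have hYs' := hYs.2 hc0
    rcases Nat.eq_zero_or_pos (Y s).toNat with h5 | h5
    · have h6 : Y s = 0 := by omega
      have := hYs'.2.2 h6
      have := hY0 h6
      omega
    · have h6 : 0 < Y s := by omega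
      have := (hYs'.1 h6).2 (by intro h7; have := hX0 (by omega); omega)
      omega
  unfold Sf
  clear hXs hYs
  omega

/-- one step of a borderline phase -/
theorem ln_cases (H : HypJ K o R ρ B S₁ TN U X Y h e jd jn) {s : ℕ} (hs : s < U) {c : ℤ}
    (hc1 : (K : ℤ) + 1 - o ≤ c) (hc2 : c ≤ K + 1) (hx0 : 0 ≤ X s) (hy0 : 0 ≤ Y s)
    (hxy : X s + Y s = c) :
    (X (s + 1) ≤ -(K : ℤ) + 2 ∧ 0 ≤ Y (s + 1) ∧ Y (s + 1) ≤ 2 ∧ jn (s + 1) ≤ jn s + 1) ∨
    (Y (s + 1) ≤ -(K : ℤ) + 2 ∧ 0 ≤ X (s + 1) ∧ X (s + 1) ≤ 2 ∧ jn (s + 1) ≤ jn s + 1) ∨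
    (0 ≤ X (s + 1) ∧ 0 ≤ Y (s + 1) ∧ X (s + 1) + Y (s + 1) = c ∧ jn (s + 1) = jn s ∧
      (1 ≤ X s → 1 ≤ Y s →
        X (s + 1) = X s - (ct h 0 (s + 1) - ct h 0 s) + (ct e 0 (s + 1) - ct e 0 s)) ∧
      (Vs K (X s) (Y s) → jd s = false)) := by
  have hK := H.hK
  have ho := H.tj.ho
  have hbx := H.tj.bx s (by omega)
  obtain ⟨m, b, a, d, hm, hb, ha, hd, had, hbe, hmh, hX0, hY0, hXs, hYs, hjn, hj1, hj2⟩ :=
    H.tj.st s hs
  have hV : a = 0 → d = 0 → Vs K (X s) (Y s) → jd s = false := by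
    intro ha0 hd0 hv
    by_contra hjd
    rw [Bool.not_eq_false] at hjd
    rcases hv with ⟨g1, g2⟩ | ⟨g1, g2⟩
    · have := hj1 (by omega) hjd g1 g2
      omega
    · have := hj2 (by omega) hjd g1 g2
      omega
  rcases ha with ha | ha
  · rcases hd with hd | hd
    · -- no jump
      have hX1 := hXs.2 ha
      have hY1 := hYs.2 hd
      clear hXs hYs hj1 hj2
      have hV' := hV ha hd
      clear hV
      rcases eq_or_lt_of_le hx0 with hx | hx
      · -- X s = 0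
        right; right
        have hm0 := hX0 hx.symm
        have hx' := hX1.2.2 hx.symm
        have hy' := (hY1.1 (by omega)).2 (by omega)
        clear hX1 hY1
        exact ⟨by omega, by omega, by omega, by omega, by omega, hV'⟩
      · rcases eq_or_lt_of_le hy0 with hy | hy
        · right; right
          have hm0 := hY0 hy.symm
          have hy' := hY1.2.2 hy.symm
          have hx' := (hX1.1 (by omega)).2 (by omega)
          clear hX1 hY1
          exact ⟨by omega, by omega, by omega, by omega, by omega, hV'⟩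
        · have hm' := hmh (by omega) (by omega)
          have hX2 := hX1.1 hx
          have hY2 := hY1.1 hy
          clear hX1 hY1
          by_cases w1 : X s = K ∧ m = 0 ∧ b = 1
          · left
            have hx' := hX2.1 w1
            have hy' := hY2.2 (by omega)
            clear hX2 hY2
            exact ⟨by omega, by omega, by omega, by omega⟩
          · by_cases w2 : Y s = K ∧ 1 - m = 0 ∧ 1 - b = 1
            · right; left
              have hy' := hY2.1 w2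
              have hx' := hX2.2 w1
              clear hX2 hY2
              exact ⟨by omega, by omega, by omega, by omega⟩
            · right; right
              have hx' := hX2.2 w1
              have hy' := hY2.2 w2
              clear hX2 hY2
              exact ⟨by omega, by omega, by omega, by omega, by omega, hV'⟩
    · -- jump of Y
      right; left
      obtain ⟨g1, g2, g3, g4⟩ := hYs.1 hd
      have hX1 := hXs.2 ha
      clear hXs hYs hj1 hj2 hV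
      rcases eq_or_lt_of_le hx0 with hx | hx
      · have hx' := hX1.2.2 hx.symm
        clear hX1
        exact ⟨by omega, by omega, by omega, by omega⟩
      · have hx' := (hX1.1 hx).2 (by omega)
        clear hX1
        exact ⟨by omega, by omega, by omega, by omega⟩
  · -- jump of X
    left
    obtain ⟨g1, g2, g3, g4⟩ := hXs.1 ha
    have hd0 : d = 0 := by omega
    have hY1 := hYs.2 hd0
    clear hXs hYs hj1 hj2 hV
    rcases eq_or_lt_of_le hy0 with hy | hy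
    · have hy' := hY1.2.2 hy.symm
      clear hY1
      exact ⟨by omega, by omega, by omega, by omega⟩
    · have hy' := (hY1.1 hy).2 (by omega)
      clear hY1
      exact ⟨by omega, by omega, by omega, by omega⟩

theorem ic_step (H : HypJ K o R ρ B S₁ TN U X Y h e jd jn) {s : ℕ} (hs : s < U)
    (hC : IC K o TN X Y h e jd s) (hj : jn s ≤ 1) :
    (IC K o TN X Y h e jd (s + 1) ∧ jn (s + 1) ≤ 1) ∨
    (IA K o TN X Y h e jd (s + 1) ∧ jn (s + 1) ≤ 2) ∨
    (IA K o TN Y X (nt h) (nt e) jd (s + 1) ∧ jn (s + 1) ≤ 2) := by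
  have hK := H.hK
  obtain ⟨τ, h1, c, h2, h3⟩ := hC
  obtain ⟨g1, g2, g3⟩ := h3.2.2.1 s h1 le_rfl
  rcases ln_cases H hs h3.1 h3.2.1 g1 g2 g3 with ⟨a1, a2, a3, a4⟩ | ⟨a1, a2, a3, a4⟩ |
    ⟨a1, a2, a3, a4, a5, a6⟩
  · right; left
    exact ⟨⟨s + 1, le_rfl, Or.inr ⟨a1, a2, a3, τ, s, c, rfl, h1, h2, h3⟩,
      qa_refl (by omega) a2 a3⟩, by omega⟩
  · right; right
    exact ⟨⟨s + 1, le_rfl, Or.inr ⟨a1, a2, a3, τ, s, c, rfl, h1, IN.swap h2, h3.swap⟩,
      qa_refl (by omega) a2 a3⟩, by omega⟩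
  · left
    refine ⟨⟨τ, by omega, c, h2, h3.1, h3.2.1, ?_, ?_⟩, by omega⟩
    · intro r hr1 hr2
      rcases Nat.lt_or_ge s r with h5 | h5
      · have : r = s + 1 := by omega
        subst this
        exact ⟨a1, a2, a3⟩
      · exact h3.2.2.1 r hr1 h5
    · intro r hr1 hr2
      rcases Nat.lt_or_ge r s with h5 | h5
      · exact h3.2.2.2 r hr1 h5
      · have : r = s := by omega
        subst this
        exact ⟨a5, a6⟩

theorem sum_cw (hX : CW X h e U) (hY : CW Y (nt h) (nt e) U) :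
    X U + Y U = X 0 + Y 0 := by
  have h1 := (hX U le_rfl).1
  have h2 := (hY U le_rfl).1
  rw [F_nt, F_nt] at h2
  omega

/-- `X` has touched zero, `Y` has not -/
theorem touch_step (H : HypJ K o R ρ B S₁ TN U X Y h e jd jn) {t : ℕ} (ht : t ≤ U) {cx cy : ℤ}
    (hX : To K o X h e t cx) (hY : Fr K o Y (nt h) (nt e) t cy) (hj : jn t ≤ cx + cy) :
    (IA K o TN Y X (nt h) (nt e) jd t ∧ jn t ≤ 2) ∨ (IC K o TN X Y h e jd t ∧ jn t ≤ 1) ∨
      (Sf K o (X t) (Y t) ∧ jn t ≤ 2) := by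
  have hK := H.hK
  have hTN := H.hTN
  have ho := H.tj.ho
  have hX01 : 0 ≤ X t ∧ X t ≤ 1 := by
    rcases hX with ⟨_, _, h1⟩ | ⟨_, _, h1, h2⟩ <;> omega
  have hcx : cx ≤ 1 := by
    rcases hX with ⟨h1, _⟩ | ⟨h1, _⟩ <;> omega
  have hcy : cy ≤ 1 := by
    rcases hY with ⟨h1, _⟩ | ⟨h1, _⟩ <;> omega
  rcases lt_or_ge (Y t) 0 with hy | hy
  · left
    refine ⟨⟨t, le_rfl, Or.inl ⟨⟨cy, hY⟩, hy, cx, ?_⟩, qa_refl hy hX01.1 (by omega)⟩, by omega⟩
    rw [nt_nt, nt_nt]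
    exact hX
  · right
    have hd := H.tj.dd t ht
    rw [abs_of_nonneg hX01.1, abs_of_nonneg hy] at hd
    have hbx := H.tj.bx t ht
    by_cases hk : X t + Y t + o ≤ K
    · right
      unfold Sf
      omega
    · left
      have hcy0 : cy = 0 ∧ CW Y (nt h) (nt e) t := by
        rcases hY with ⟨h1, h2, _⟩ | ⟨_, _, h1⟩
        · exact ⟨h1, h2⟩
        · omega
      refine ⟨⟨t, le_rfl, X t + Y t, ?_, by omega, by omega, ?_, ?_⟩, by omega⟩
      · rcases hX with ⟨h1, h2, h3⟩ | ⟨h1, h2, h3, h4⟩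
        · right
          refine ⟨?_, h2, hcy0.2⟩
          have := sum_cw h2 hcy0.2
          omega
        · left
          refine ⟨?_, Or.inl ⟨h2, h3, h4, hcy0.2, by omega⟩⟩
          rcases h2 with hC | ⟨σ, hC⟩
          · have := ce0_time H ht hC (by omega)
            omega
          · have h5 := ce1_time H ht hC (by omega)
            have h6 := wrap_bound H (le_of_lt hC.1) (by omega) ht hC.2.1 hC.2.2.1 hcy0.2 (by omega)
            omega
      · intro r hr1 hr2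
        have : r = t := by omega
        subst this
        omega
      · intro r hr1 hr2
        omega

theorem to_one {t : ℕ} {c : ℤ} (hK : 10 ≤ K) (ho : o ≤ 1) (hX : To K o X h e (t + 1) c)
    (hX1 : X (t + 1) = 1) : X t < 0 := by
  rcases hX with ⟨_, _, h1⟩ | ⟨_, h1, _, _⟩
  · omega
  · rcases h1 with h1 | ⟨σ, h1⟩
    · exact (h1 t (by omega)).2 (by omega)
    · have h3 := h1.2.2.2
      rcases Nat.lt_or_ge σ t with h4 | h4
      · exact (h3 t h4 (by omega)).2 (by omega)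
      · have h5 : σ = t := by have := h1.1; omega
        subst h5
        have h6 := (h3 (σ + 1) (by omega) le_rfl).1
        have := F_step' h σ
        have := F_step' e σ
        omega

theorem fr_fr_step (H : HypJ K o R ρ B S₁ TN U X Y h e jd jn) {t : ℕ} (ht : t < U) {cx cy : ℤ}
    (hX : Fr K o X h e t cx) (hY : Fr K o Y (nt h) (nt e) t cy) (hj : jn t ≤ cx + cy) :
    Inv K o TN X Y h e jd jn (t + 1) := by
  have hK := H.hK
  have ho := H.tj.ho
  have hX0 : X t ≠ 0 := by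
    rcases hX with ⟨_, _, h1⟩ | ⟨_, _, h1⟩ <;> omega
  have hY0 : Y t ≠ 0 := by
    rcases hY with ⟨_, _, h1⟩ | ⟨_, _, h1⟩ <;> omega
  obtain ⟨m, b, a, c, hm, hb, ha, hc, hac, hbe, hmh, -, -, hXs, hYs, hjn, -, -⟩ := H.tj.st t ht
  have hm' := hmh hX0 hY0
  have hXs' := hXs
  have hYs' := hYs
  rw [hm', hbe] at hXs
  have e1 : 1 - m = ct (nt h) 0 (t + 1) - ct (nt h) 0 t := by
    rw [F_nt, F_nt]; push_cast; omega
  have e2 : 1 - b = ct (nt e) 0 (t + 1) - ct (nt e) 0 t := by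
    rw [F_nt, F_nt]; push_cast; omega
  rw [e1, e2] at hYs
  obtain ⟨cx', hcx', hX1⟩ := fr_step ho (by omega) ha hX hXs
  obtain ⟨cy', hcy', hY1⟩ := fr_step ho (by omega) hc hY hYs
  have hj' : jn (t + 1) ≤ cx' + cy' := by omega
  rcases hX1 with hX1 | hX1
  · rcases hY1 with hY1 | hY1
    · exact Or.inl ⟨cx', cy', hX1, hY1, hj'⟩
    · have hX1' : Fr K o X (nt (nt h)) (nt (nt e)) (t + 1) cx' := by rw [nt_nt, nt_nt]; exact hX1
      rcases touch_step H.swap (by omega) hY1 hX1' (by omega) with h1 | h1 | h1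
      · rw [nt_nt, nt_nt] at h1
        exact Or.inr (Or.inl h1)
      · have h2 := h1.1.swap
        rw [nt_nt, nt_nt] at h2
        exact Or.inr (Or.inr (Or.inr (Or.inl ⟨h2, h1.2⟩)))
      · exact Or.inr (Or.inr (Or.inr (Or.inr ⟨h1.1.swap, h1.2⟩)))
  · rcases hY1 with hY1 | hY1
    · rcases touch_step H (by omega) hX1 hY1 hj' with h1 | h1 | h1
      · exact Or.inr (Or.inr (Or.inl h1))
      · exact Or.inr (Or.inr (Or.inr (Or.inl h1)))
      · exact Or.inr (Or.inr (Or.inr (Or.inr h1)))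
    · exfalso
      have hd := H.tj.dd (t + 1) (by omega)
      have hX01 : 0 ≤ X (t + 1) ∧ X (t + 1) ≤ 1 := by
        rcases hX1 with ⟨_, _, h1⟩ | ⟨_, _, h1, h2⟩ <;> omega
      have hY01 : 0 ≤ Y (t + 1) ∧ Y (t + 1) ≤ 1 := by
        rcases hY1 with ⟨_, _, h1⟩ | ⟨_, _, h1, h2⟩ <;> omega
      rw [abs_of_nonneg hX01.1, abs_of_nonneg hY01.1] at hd
      have hX2 : X (t + 1) = 1 := by omega
      have hY2 : Y (t + 1) = 1 := by omega
      have hXn : X t < 0 := to_one (by omega) ho hX1 hX2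
      have hYn : Y t < 0 := to_one (by omega) ho hY1 hY2
      have ha0 : a = 0 := by
        rcases ha with h5 | h5
        · exact h5
        · have := (hXs'.1 h5).2.1
          omega
      have hc0 : c = 0 := by
        rcases hc with h5 | h5
        · exact h5
        · have := (hYs'.1 h5).2.1
          omega
      have e3 := (hXs'.2 ha0).2.1 hXn
      have e4 := (hYs'.2 hc0).2.1 hYn
      clear hXs hYs hXs' hYs'
      omega

theorem cw_zero (X : ℕ → ℤ) (h e : ℕ → Bool) : CW X h e 0 := by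
  intro r hr
  have : r = 0 := by omega
  subst this
  rw [F_zero, F_zero]
  exact ⟨by ring, by omega⟩

theorem fr_zero (X : ℕ → ℤ) (h e : ℕ → Bool) (hx : X 0 ≠ 0) :
    ∃ c, 0 ≤ c ∧ Fr K o X h e 0 c := by
  rcases lt_or_gt_of_ne hx with h1 | h1
  · refine ⟨1, by omega, Or.inr ⟨rfl, Or.inl ?_, h1⟩⟩
    intro r hr
    have : r = 0 := by omega
    subst this
    rw [F_zero, F_zero]
    exact ⟨by ring, by omega⟩
  · exact ⟨0, le_rfl, Or.inl ⟨rfl, cw_zero X h e, h1⟩⟩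

theorem inv_zero (H : HypJ K o R ρ B S₁ TN U X Y h e jd jn) : Inv K o TN X Y h e jd jn 0 := by
  have hd := H.tj.dd 0 (Nat.zero_le _)
  have hj := H.tj.j0
  by_cases hx : X 0 = 0
  · have hy : Y 0 ≠ 0 := by
      intro hy
      rw [hx, hy] at hd
      simp at hd
    obtain ⟨cy, hcy, hY⟩ := fr_zero (K := K) (o := o) Y (nt h) (nt e) hy
    rcases touch_step H (Nat.zero_le _) (cx := 0) (Or.inl ⟨rfl, cw_zero X h e, hx⟩) hY
      (by omega) with h1 | h1 | h1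
    · exact Or.inr (Or.inr (Or.inl h1))
    · exact Or.inr (Or.inr (Or.inr (Or.inl h1)))
    · exact Or.inr (Or.inr (Or.inr (Or.inr h1)))
  · obtain ⟨cx, hcx, hX⟩ := fr_zero (K := K) (o := o) X h e hx
    by_cases hy : Y 0 = 0
    · have hX1' : Fr K o X (nt (nt h)) (nt (nt e)) 0 cx := by rw [nt_nt, nt_nt]; exact hX
      rcases touch_step H.swap (Nat.zero_le _) (cx := 0) (Or.inl ⟨rfl, cw_zero Y _ _, hy⟩) hX1'
        (by omega) with h1 | h1 | h1
      · rw [nt_nt, nt_nt] at h1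
        exact Or.inr (Or.inl h1)
      · have h2 := h1.1.swap
        rw [nt_nt, nt_nt] at h2
        exact Or.inr (Or.inr (Or.inr (Or.inl ⟨h2, h1.2⟩)))
      · exact Or.inr (Or.inr (Or.inr (Or.inr ⟨h1.1.swap, h1.2⟩)))
    · obtain ⟨cy, hcy, hY⟩ := fr_zero (K := K) (o := o) Y (nt h) (nt e) hy
      exact Or.inl ⟨cx, cy, hX, hY, by omega⟩

theorem inv_all (H : HypJ K o R ρ B S₁ TN U X Y h e jd jn) :
    ∀ t ≤ U, Inv K o TN X Y h e jd jn t := by
  intro t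
  induction t with
  | zero => intro _; exact inv_zero H
  | succ t ih =>
    intro ht
    rcases ih (by omega) with ⟨cx, cy, h1, h2, h3⟩ | ⟨h1, hj⟩ | ⟨h1, hj⟩ | ⟨h1, hj⟩ | ⟨h1, hj⟩
    · exact fr_fr_step H (by omega) h1 h2 h3
    · rcases ia_step H (by omega) h1 hj with h2 | h2
      · exact Or.inr (Or.inl h2)
      · exact Or.inr (Or.inr (Or.inr (Or.inr h2)))
    · rcases ia_step H.swap (by omega) h1 hj with h2 | h2
      · exact Or.inr (Or.inr (Or.inl h2))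
      · exact Or.inr (Or.inr (Or.inr (Or.inr ⟨h2.1.swap, h2.2⟩)))
    · rcases ic_step H (by omega) h1 hj with h2 | h2 | h2
      · exact Or.inr (Or.inr (Or.inr (Or.inl h2)))
      · exact Or.inr (Or.inl h2)
      · exact Or.inr (Or.inr (Or.inl h2))
    · obtain ⟨h2, h3⟩ := sf_step H (by omega) h1
      exact Or.inr (Or.inr (Or.inr (Or.inr ⟨h2, by omega⟩)))

theorem inv_jn {t : ℕ} (hI : Inv K o TN X Y h e jd jn t) : jn t ≤ 2 := by
  rcases hI with ⟨cx, cy, h1, h2, h3⟩ | ⟨h1, hj⟩ | ⟨h1, hj⟩ | ⟨h1, hj⟩ | ⟨h1, hj⟩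
  · have hcx : cx ≤ 1 := by
      rcases h1 with ⟨h1, _⟩ | ⟨h1, _⟩ <;> omega
    have hcy : cy ≤ 1 := by
      rcases h2 with ⟨h1, _⟩ | ⟨h1, _⟩ <;> omega
    omega
  all_goals omega

end Steps

section Final

variable {K o R ρ B S₁ TN U : ℕ} {X Y : ℕ → ℤ} {h e jd : ℕ → Bool} {jn : ℕ → ℤ} {g : ℕ → Bool}

/-- the corrected coins `h` are close to the coins `g` -/
def Cl (U : ℕ) (h g : ℕ → Bool) : Prop := ∀ a b : ℕ, a ≤ b → b ≤ U →
  -3 ≤ (ct h 0 b - ct h 0 a) - ct g a b ∧ (ct h 0 b - ct h 0 a) - ct g a b ≤ 3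

theorem Cl.swap (hc : Cl U h g) : Cl U (nt h) (nt g) := by
  intro a b h1 h2
  have := hc a b h1 h2
  rw [F_nt, F_nt, ct_nt g h1]
  omega

theorem pre_of (H : HypJ K o R ρ B S₁ TN U X Y h e jd jn) (hc : Cl U h g) {t : ℕ} (ht : t ≤ U)
    (hC : CW X h e t ∨ CE K o X h e t) {v w : ℤ} (hv : |X t - v| ≤ w) :
    Pre K (R + 4) g t v w (X 0) := by
  have ho := H.tj.ho
  have l1 := H.bal t ht
  have c1 := hc 0 t (Nat.zero_le _) ht
  rw [F_zero] at c1
  rw [abs_le] at hv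
  rcases hC with hC | hC | ⟨σ, h1, h2, h5, h6⟩
  · have h1 := (hC t le_rfl).1
    right; left
    rw [abs_le]
    push_cast
    omega
  · have h1 := (hC t le_rfl).1
    left
    rw [abs_le]
    push_cast
    omega
  · right; right
    have h7 := (h6 t h1 le_rfl).1
    have h8 := (h5 σ le_rfl).1
    have l2 := H.bal σ (by omega)
    have c2 := hc 0 σ (Nat.zero_le _) (by omega)
    have c3 := hc σ t (le_of_lt h1) ht
    rw [F_zero] at c2
    refine ⟨σ, h1, ?_, ?_⟩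
    · rw [abs_le]
      push_cast
      omega
    · rw [abs_le]
      push_cast
      omega

theorem qa_bal (H : HypJ K o R ρ B S₁ TN U X Y h e jd jn) (hc : Cl U h g) {τ s : ℕ} (hs : s ≤ U)
    (hQ : QA X Y h e τ s) {a : ℤ} (hY : 2 * Y s + 4 * R + 6 ≤ a) {τ' : ℕ} (hτ' : τ ≤ τ') :
    MP34e.bal (nt g) τ' s a := by
  intro r hr1 hr2
  have h1 := (hQ.1 r (by omega) hr2).2.2.2
  have l1 := H.bal s hs
  have l2 := H.bal r (by omega)
  have c1 := hc r s hr2 hs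
  rw [ct_nt g hr2]
  omega

theorem near_A (H : HypJ K o R ρ B S₁ TN U X Y h e jd jn) (hc : Cl U h g) {t : ℕ} (ht : t ≤ U)
    (hQ : IA K o TN X Y h e jd t) (hρ : |X t| + |Y t| ≤ ρ) :
    (∃ τ ≤ t, t ≤ τ + 4 * K ∧ Pre K (R + 4) (nt g) τ 0 1 (Y 0) ∧
      Pre K (R + 4) g τ (-((t : ℤ) - τ)) (ρ + 4 * ((R + 4 : ℕ) : ℤ) + 1) (X 0) ∧
      MP34e.bal (nt g) τ t (4 * ((R + 4 : ℕ) : ℤ) + 2 * ρ)) ∨
    ((∃ τ ≤ TN, (Pre K (R + 4) g τ 0 1 (X 0) ∧ Pre K (R + 4) (nt g) τ K 1 (Y 0)) ∨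
      (Pre K (R + 4) (nt g) τ 0 1 (Y 0) ∧ Pre K (R + 4) g τ K 1 (X 0))) ∧
    K ≤ 4 * t ∧ MP34e.bal (nt g) (t - K / 4) t (4 * ((R + 4 : ℕ) : ℤ) + 2 * ρ)) ∨
    (X 0 + Y 0 = K ∧ K ≤ 4 * t ∧
      MP34e.bal (nt g) (t - K / 4) t (4 * ((R + 4 : ℕ) : ℤ) + 2 * ρ)) := by
  have hK := H.hK
  obtain ⟨τ, h1, h2, h3⟩ := hQ
  obtain ⟨g1, g2, g3, g4⟩ := h3.1 t h1 le_rfl
  have hρ' : -X t + Y t ≤ ρ := by
    rw [abs_of_neg g1, abs_of_nonneg g2] at hρ
    exact hρ
  have l1 := H.bal t ht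
  have l2 := H.bal τ (by omega)
  have hl := qa_len H ht h1 (infoA_Y h2) h3
  rcases h2 with ⟨⟨cx, h4⟩, h5, cy, h6⟩ | ⟨h4, h5, h5', τ', s, c, h6, h7, h8, h9⟩
  · left
    have hY01 : 0 ≤ Y τ ∧ Y τ ≤ 1 := by
      rcases h6 with ⟨_, _, h7⟩ | ⟨_, _, h7, h8⟩ <;> omega
    refine ⟨τ, h1, by omega, ?_, ?_, qa_bal H hc ht h3 (by push_cast; omega) le_rfl⟩
    · refine pre_of H.swap hc.swap (by omega) ?_ (by rw [abs_le]; omega)
      rcases h6 with ⟨_, h7, _⟩ | ⟨_, h7, _, _⟩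
      · exact Or.inl h7
      · exact Or.inr h7
    · refine pre_of H hc (by omega) ?_ (by rw [abs_le]; push_cast; omega)
      rcases h4 with ⟨_, h7, _⟩ | ⟨_, h7, _⟩
      · exact Or.inl h7
      · exact Or.inr h7
  · right
    have hlen : (K : ℤ) ≤ 4 * ((t : ℤ) - τ) := by omega
    have hb : MP34e.bal (nt g) (t - K / 4) t (4 * ((R + 4 : ℕ) : ℤ) + 2 * ρ) :=
      qa_bal H hc ht h3 (by push_cast; omega) (by omega)
    rcases h8 with h8 | h8
    · left
      refine ⟨⟨τ', h8.1, ?_⟩, by omega, hb⟩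
      have hbx := H.tj.bx τ' (by omega)
      rcases h8.2 with ⟨c1, c2, c2', c3, c4⟩ | ⟨c1, c2, c2', c3, c4⟩
      · left
        exact ⟨pre_of H hc (by omega) (Or.inr c1) (by rw [abs_le]; omega),
          pre_of H.swap hc.swap (by omega) (Or.inl c3) (by rw [abs_le]; omega)⟩
      · right
        exact ⟨pre_of H.swap hc.swap (by omega) (Or.inr c1) (by rw [abs_le]; omega),
          pre_of H hc (by omega) (Or.inl c3) (by rw [abs_le]; omega)⟩
    · right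
      exact ⟨h8.1, by omega, hb⟩

theorem near_all (H : HypJ K o R ρ B S₁ TN U X Y h e jd jn) (hc : Cl U h g) {t : ℕ} (ht : t ≤ U)
    (hn : X t < 0 ∨ Y t < 0) (hρ : |X t| + |Y t| ≤ ρ) :
    ANearJ K R ρ TN g t (X 0, Y 0) := by
  unfold ANearJ ANear
  simp only
  rcases inv_all H t ht with ⟨cx, cy, h1, h2, -⟩ | ⟨h1, -⟩ | ⟨h1, -⟩ | ⟨⟨τ, h1, c, h2, h3⟩, -⟩ |
    ⟨h1, -⟩
  · left; left
    have hx := abs_nonneg (X t)
    have hy := abs_nonneg (Y t)
    refine ⟨pre_of H hc ht ?_ (by rw [sub_zero]; omega),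
      pre_of H.swap hc.swap ht ?_ (by rw [sub_zero]; omega)⟩
    · rcases h1 with ⟨_, h3, _⟩ | ⟨_, h3, _⟩
      · exact Or.inl h3
      · exact Or.inr h3
    · rcases h2 with ⟨_, h3, _⟩ | ⟨_, h3, _⟩
      · exact Or.inl h3
      · exact Or.inr h3
  · rcases near_A H hc ht h1 hρ with h2 | ⟨h2, h3, h4⟩ | ⟨h2, h3, h4⟩
    · exact Or.inl (Or.inr (Or.inl h2))
    · exact Or.inl (Or.inr (Or.inr (Or.inr ⟨h2, h3, Or.inr h4⟩)))
    · exact Or.inr ⟨h2, h3, Or.inr h4⟩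
  · have h1' := near_A H.swap hc.swap ht h1 (by omega)
    rw [nt_nt] at h1'
    rcases h1' with h2 | ⟨⟨τ, h2, h2'⟩, h3, h4⟩ | ⟨h2, h3, h4⟩
    · exact Or.inl (Or.inr (Or.inr (Or.inl h2)))
    · exact Or.inl (Or.inr (Or.inr (Or.inr ⟨⟨τ, h2, h2'.symm⟩, h3, Or.inl h4⟩)))
    · exact Or.inr ⟨by omega, h3, Or.inl h4⟩
  · exfalso
    have := h3.2.2.1 t h1 le_rfl
    omega
  · exfalso
    unfold Sf at h1
    omega

theorem front_all (H : HypJ K o R ρ B S₁ TN U X Y h e jd jn) (hc : Cl U h g) {t : ℕ} (ht : t ≤ U)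
    (hn : X t < 0 ∧ Y t < 0) (hρ : |X t| + |Y t| ≤ ρ) :
    AFront K (R + 4) ρ g t (X 0, Y 0) ∧ t ≤ TN := by
  have hK := H.hK
  have hTN := H.hTN
  rcases inv_all H t ht with ⟨cx, cy, h1, h2, -⟩ | ⟨⟨τ, h1, h2, h3⟩, -⟩ | ⟨⟨τ, h1, h2, h3⟩, -⟩ |
    ⟨⟨τ, h1, c, h2, h3⟩, -⟩ | ⟨h1, -⟩
  · have hx := abs_nonneg (X t)
    have hy := abs_nonneg (Y t)
    have hCX : CE K o X h e t := by
      rcases h1 with ⟨_, _, h3⟩ | ⟨_, h3, _⟩
      · omega
      · exact h3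
    have hCY : CE K o Y (nt h) (nt e) t := by
      rcases h2 with ⟨_, _, h3⟩ | ⟨_, h3, _⟩
      · omega
      · exact h3
    refine ⟨⟨pre_of H hc ht (Or.inr hCX) (by rw [sub_zero]; omega),
      pre_of H.swap hc.swap ht (Or.inr hCY) (by rw [sub_zero]; omega)⟩, ?_⟩
    rcases hCX with hC | ⟨σ, hC⟩
    · have := ce0_time H ht hC (by omega)
      omega
    · rcases hCY with hC' | ⟨σ', hC'⟩
      · have := ce0_time H.swap ht hC' (by omega)
        omega
      · have t1 := ce1_time H ht hC (by omega)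
        have t2 := ce1_time H.swap ht hC' (by omega)
        obtain ⟨a1, a2, a5, a6⟩ := hC
        obtain ⟨b1, b2, b5, b6⟩ := hC'
        rcases Nat.le_total σ σ' with hσ | hσ
        · have : σ < S₁ := by
            refine wrap_bound H hσ (by omega) (by omega) a2 a5 ?_ (by omega)
            intro r hr
            exact ⟨(b5 r hr).1, fun _ => (b5 r hr).2⟩
          omega
        · have : σ' < S₁ := by
            refine wrap_bound H.swap hσ (by omega) (by omega) b2 b5 ?_ (by omega)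
            rw [nt_nt, nt_nt]
            intro r hr
            exact ⟨(a5 r hr).1, fun _ => (a5 r hr).2⟩
          omega
  · exfalso
    have := h3.1 t h1 le_rfl
    omega
  · exfalso
    have := h3.1 t h1 le_rfl
    omega
  · exfalso
    have := h3.2.2.1 t h1 le_rfl
    omega
  · exfalso
    unfold Sf at h1
    omega

/-- escape from a strip of width `3 K` -/
def Esc2 (K S₂ U : ℕ) (h : ℕ → Bool) : Prop := ∀ a : ℕ, a + S₂ ≤ U → ∃ s s' : ℕ,
  a ≤ s ∧ s ≤ s' ∧ s' ≤ a + S₂ ∧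
    (3 * (K : ℤ) - 6 < 2 * (ct h 0 s' - ct h 0 s) - ((s' : ℤ) - s) ∨
      2 * (ct h 0 s' - ct h 0 s) - ((s' : ℤ) - s) < -(3 * (K : ℤ) - 6))

theorem Esc2.swap {S₂ : ℕ} (hE : Esc2 K S₂ U h) : Esc2 K S₂ U (nt h) := by
  intro a ha
  obtain ⟨s, s', h1, h2, h3, h4⟩ := hE a ha
  refine ⟨s, s', h1, h2, h3, ?_⟩
  rw [F_nt, F_nt]
  omega

/-- a coordinate cannot stay positive and unwrapped from the start for a long time -/
theorem no_long (H : HypJ K o R ρ B S₁ TN U X Y h e jd jn) {S₂ : ℕ} (hE : Esc2 K S₂ U h) {t : ℕ}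
    (ht : t ≤ U) (hX : ∀ r ≤ t, X r = X 0 - ct h 0 r + ct e 0 r ∧ 0 < X r) : t < S₂ := by
  by_contra hc
  rw [not_lt] at hc
  have hK := H.hK
  obtain ⟨s, s', h1, h2, h3, h4⟩ := hE 0 (by omega)
  have e1 := hX s (by omega)
  have e2 := hX s' (by omega)
  have b1 := H.tj.bx s (by omega)
  have b2 := H.tj.bx s' (by omega)
  have l1 := H.bal s (by omega)
  have l2 := H.bal s' (by omega)
  omega

/-- a line phase visits an end in every long window -/
theorem ln_vis (H : HypJ K o R ρ B S₁ TN U X Y h e jd jn) {S₂ : ℕ} (hE : Esc2 K S₂ U h)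
    {τ s a : ℕ} {c : ℤ} (hs : s ≤ U) (hL : Ln K o X Y h e jd τ s c) (hτ : τ ≤ a)
    (ha : a + S₂ ≤ s) : ∃ r, a ≤ r ∧ r < a + S₂ ∧ (X r = 0 ∨ Y r = 0) := by
  by_contra hcon
  push Not at hcon
  have hK := H.hK
  have hpos : ∀ r, a ≤ r → r < a + S₂ → 1 ≤ X r ∧ 1 ≤ Y r := by
    intro r h1 h2
    have h3 := hcon r h1 h2
    have h4 := hL.2.2.1 r (by omega) (by omega)
    omega
  have hcl : ∀ d : ℕ, d ≤ S₂ → X (a + d) = X a - (ct h 0 (a + d) - ct h 0 a) +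
      (ct e 0 (a + d) - ct e 0 a) := by
    intro d
    induction d with
    | zero => intro _; simp
    | succ d ih =>
      intro hd
      have h1 := ih (by omega)
      obtain ⟨h2, h3⟩ := hpos (a + d) (by omega) (by omega)
      have h4 := (hL.2.2.2 (a + d) (by omega) (by omega)).1 h2 h3
      have h5 : a + (d + 1) = a + d + 1 := by omega
      rw [h5]
      omega
  obtain ⟨r, r', h1, h2, h3, h4⟩ := hE a (by omega)
  have e1 := hcl (r - a) (by omega)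
  have e2 := hcl (r' - a) (by omega)
  rw [show a + (r - a) = r by omega] at e1
  rw [show a + (r' - a) = r' by omega] at e2
  have b1 := H.tj.bx r (by omega)
  have b2 := H.tj.bx r' (by omega)
  have b3 := hL.2.2.1 r (by omega) (by omega)
  have b4 := hL.2.2.1 r' (by omega) (by omega)
  have l1 := H.bal r (by omega)
  have l2 := H.bal r' (by omega)
  omega

/-- visits of the ends of the line without a jump -/
def NJ (K : ℕ) (X Y : ℕ → ℤ) (jd : ℕ → Bool) (l T₁ : ℕ) : Prop :=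
  (∃ F : Finset ℕ, l ≤ F.card ∧ ∀ r ∈ F, r < T₁ ∧ Vs K (X r) (Y r)) ∧
    ∀ t < T₁, Vs K (X t) (Y t) → jd t = false

theorem NJ.swap {l T₁ : ℕ} (hN : NJ K X Y jd l T₁) : NJ K Y X jd l T₁ := by
  obtain ⟨⟨F, h1, h2⟩, h3⟩ := hN
  exact ⟨⟨F, h1, fun r hr => ⟨(h2 r hr).1, (h2 r hr).2.swap⟩⟩, fun t ht hv => h3 t ht hv.swap⟩

theorem cw_ne {τ r : ℕ} (hC : CW X h e τ) (hr : r < τ) : X r ≠ 0 := by
  have := (hC r (le_of_lt hr)).2 hr
  omega

theorem ce_ne {τ r : ℕ} (hC : CE K o X h e τ) (hr : r < τ) : X r ≠ 0 := by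
  rcases hC with hC | ⟨σ, hC⟩
  · have := (hC r (le_of_lt hr)).2 hr
    omega
  · rcases Nat.lt_or_ge σ r with h4 | h4
    · have := (hC.2.2.2 r h4 (le_of_lt hr)).2 hr
      omega
    · have := (hC.2.2.1 r h4).2
      omega

theorem in_ne {τ r : ℕ} (hI : I3 K o TN X Y h e τ ∨ I0 K X Y h e τ) (hr : r < τ) :
    X r ≠ 0 ∧ Y r ≠ 0 := by
  rcases hI with ⟨_, ⟨h1, _, _, h2, _⟩ | ⟨h1, _, _, h2, _⟩⟩ | ⟨_, h1, h2⟩
  · exact ⟨ce_ne h1 hr, cw_ne h2 hr⟩
  · exact ⟨cw_ne h2 hr, ce_ne h1 hr⟩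
  · exact ⟨cw_ne h1 hr, cw_ne h2 hr⟩

theorem late_L (H : HypJ K o R ρ B S₁ TN U X Y h e jd jn) {S₂ l : ℕ} (hE : Esc2 K S₂ U h)
    (hN : o = 1 → ¬ NJ K X Y jd l (TN + (l + 1) * (S₂ + 1))) {τ s : ℕ} {c : ℤ} (hs : s ≤ U)
    (hI : I3 K o TN X Y h e τ ∨ I0 K X Y h e τ) (hL : Ln K o X Y h e jd τ s c)
    (hl : TN + (l + 1) * (S₂ + 1) ≤ s) (hl2 : TN + S₂ ≤ s) (hτs : τ ≤ s) : False := by
  have hK := H.hK
  have ho := H.tj.ho
  -- the start of the phase
  have hτ : τ ≤ TN + S₂ := by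
    rcases hI with ⟨h1, _⟩ | ⟨_, h1, _⟩
    · omega
    · rcases Nat.eq_zero_or_pos τ with h2 | h2
      · omega
      · have := no_long H hE (t := τ - 1) (by omega) (fun r hr =>
          ⟨(h1 r (by omega)).1, (h1 r (by omega)).2 (by omega)⟩)
        omega
  rcases eq_or_lt_of_le hL.2.1 with hc | hc
  · -- the line `x + y = K + 1`
    have hτ2 : τ ≤ TN := by
      rcases hI with ⟨h1, _⟩ | ⟨h1, h2, h3⟩
      · exact h1
      · exfalso
        have := sum_cw h2 h3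
        have h4 := (hL.2.2.1 τ le_rfl hτs).2.2
        omega
    obtain ⟨r, h1, h2, h3⟩ := ln_vis H hE hs hL hτ2 hl2
    have h4 := hL.2.2.1 r (by omega) (by omega)
    have h5 := H.tj.bx r (by omega)
    omega
  · have ho1 : o = 1 := by have := hL.1; omega
    have hcK : c = K := by have := hL.1; omega
    refine hN ho1 ⟨?_, ?_⟩
    · have key : ∀ j ≤ l, ∃ F : Finset ℕ, j ≤ F.card ∧
          ∀ r ∈ F, r < TN + S₂ + j * (S₂ + 1) ∧ Vs K (X r) (Y r) := by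
        intro j
        induction j with
        | zero => intro _; exact ⟨∅, by simp, by simp⟩
        | succ j ih =>
          intro hj
          obtain ⟨F, hF1, hF2⟩ := ih (by omega)
          have hmul : (j + 1) * (S₂ + 1) = j * (S₂ + 1) + (S₂ + 1) := by ring
          have hmul2 : (l + 1) * (S₂ + 1) = l * (S₂ + 1) + (S₂ + 1) := by ring
          have hmul3 : (j + 1) * (S₂ + 1) ≤ l * (S₂ + 1) := Nat.mul_le_mul_right _ hj
          obtain ⟨r, h1, h2, h3⟩ := ln_vis H hE hs hL (a := TN + S₂ + j * (S₂ + 1)) (by omega)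
            (by omega)
          have h4 := hL.2.2.1 r (by omega) (by omega)
          have hv : Vs K (X r) (Y r) := by
            unfold Vs
            omega
          refine ⟨insert r F, ?_, ?_⟩
          · rw [Finset.card_insert_of_notMem]
            · omega
            · intro hr
              have := (hF2 r hr).1
              omega
          · intro r' hr'
            rcases Finset.mem_insert.1 hr' with h5 | h5
            · subst h5
              exact ⟨by omega, hv⟩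
            · have := hF2 r' h5
              exact ⟨by omega, this.2⟩
      obtain ⟨F, hF1, hF2⟩ := key l le_rfl
      refine ⟨F, hF1, fun r hr => ⟨?_, (hF2 r hr).2⟩⟩
      have := (hF2 r hr).1
      have hmul2 : (l + 1) * (S₂ + 1) = l * (S₂ + 1) + (S₂ + 1) := by ring
      omega
    · intro t ht hv
      rcases Nat.lt_or_ge t τ with h1 | h1
      · exfalso
        have := in_ne hI h1
        rcases hv with ⟨_, h2⟩ | ⟨h2, _⟩
        · exact this.2 h2
        · exact this.1 h2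
      · exact (hL.2.2.2 t h1 (by omega)).2 hv

/-- if `X` is closed at `t` (with value at most 1 in the eastern cases) and `t` is large, then
`X` was western for a long time -/
theorem west_long (H : HypJ K o R ρ B S₁ TN U X Y h e jd jn) {t : ℕ} (ht : t ≤ U)
    (hC : CW X h e t ∨ (CE K o X h e t ∧ X t ≤ 1)) (htl : 2 * K + 2 * R + 3 ≤ t) :
    ∀ r ≤ t - (2 * K + 4 * R + 5), X r = X 0 - ct h 0 r + ct e 0 r ∧ 0 < X r := by
  intro r hr
  rcases hC with hC | ⟨hC | ⟨σ, hC⟩, hX⟩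
  · exact ⟨(hC r (by omega)).1, (hC r (by omega)).2 (by omega)⟩
  · have := ce0_time H ht hC hX
    omega
  · have h1 := ce1_time H ht hC hX
    exact hC.2.2.1 r (by omega)

/-- the final state: type A is impossible at a late time -/
theorem late_A (H : HypJ K o R ρ B S₁ TN U X Y h e jd jn) {S₂ l : ℕ} (hE : Esc2 K S₂ U h)
    (hN : o = 1 → ¬ NJ K X Y jd l (TN + (l + 1) * (S₂ + 1)))
    (hU : TN + (l + 1) * (S₂ + 1) + 30 * K ≤ U) (hQ : IA K o TN X Y h e jd U) : False := by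
  have hK := H.hK
  have hTN := H.hTN
  have hS : S₂ + 1 ≤ (l + 1) * (S₂ + 1) := Nat.le_mul_of_pos_left _ (by omega)
  obtain ⟨τ, h1, h2, h3⟩ := hQ
  have hl := qa_len H le_rfl h1 (infoA_Y h2) h3
  rcases h2 with ⟨⟨cx, h4⟩, h5, cy, h6⟩ | ⟨h4, h5, h5', τ', s, c, h6, h7, h8, h9⟩
  · have hw : CW X h e τ ∨ (CE K o X h e τ ∧ X τ ≤ 1) := by
      rcases h4 with ⟨_, h7, _⟩ | ⟨_, h7, _⟩
      · exact Or.inl h7
      · exact Or.inr ⟨h7, by omega⟩
    have h8 := no_long H hE (t := τ - (2 * K + 4 * R + 5)) (by omega)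
      (west_long H (by omega) hw (by omega))
    omega
  · exact late_L H hE hN (by omega) h8 h9 (by omega) (by omega) h7

theorem safe_all (H : HypJ K o R ρ B S₁ TN U X Y h e jd jn) {S₂ l : ℕ} (hE : Esc2 K S₂ U h)
    (hN : o = 1 → ¬ NJ K X Y jd l (TN + (l + 1) * (S₂ + 1)))
    (hU : TN + (l + 1) * (S₂ + 1) + 30 * K ≤ U) : Sf K o (X U) (Y U) := by
  have hK := H.hK
  have hTN := H.hTN
  have hS : S₂ + 1 ≤ (l + 1) * (S₂ + 1) := Nat.le_mul_of_pos_left _ (by omega)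
  rcases inv_all H U le_rfl with ⟨cx, cy, h1, h2, -⟩ | ⟨h1, -⟩ | ⟨h1, -⟩ |
    ⟨⟨τ, h1, c, h2, h3⟩, -⟩ | ⟨h1, -⟩
  · exfalso
    have hw : CW X h e U ∨ (CE K o X h e U ∧ X U ≤ 1) := by
      rcases h1 with ⟨_, h7, _⟩ | ⟨_, h7, _⟩
      · exact Or.inl h7
      · exact Or.inr ⟨h7, by omega⟩
    have h8 := no_long H hE (t := U - (2 * K + 4 * R + 5)) (by omega)
      (west_long H (by omega) hw (by omega))
    omega
  · exact (late_A H hE hN hU h1).elim
  · exact (late_A H.swap hE.swap (fun ho hc => hN ho hc.swap) hU h1).elim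
  · exact (late_L H hE hN le_rfl h2 h3 (by omega) (by omega) h1).elim
  · exact h1

end Final

/-! ### from the displacements to the state machine -/

section Build

theorem wrJ_eq (K o : ℕ) (x : ℤ) : ((K : ℤ) < x ∧ wrJ K o x = x - (2 * K + 1 - o)) ∨
    (x ≤ K ∧ wrJ K o x = x) := by
  unfold wrJ
  split_ifs with h
  · exact Or.inl ⟨h, rfl⟩
  · exact Or.inr ⟨by omega, rfl⟩

theorem csj_move0 {K o : ℕ} {x : ℤ} : CSJ K o x (x - x.sign) 1 0 0 := by
  unfold CSJ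
  rcases sign_cases x with ⟨h1, h2⟩ | ⟨h1, h2⟩ | ⟨h1, h2⟩ <;> rw [h2] <;> omega

theorem csj_stay0 {K o : ℕ} {x : ℤ} : CSJ K o x x 0 0 0 := by
  unfold CSJ
  omega

theorem csj_move1 {K o : ℕ} {x : ℤ} (hK : 1 ≤ K) (hx : x ≠ 0) (hx2 : x ≤ K) :
    CSJ K o x (wrJ K o (x - x.sign + 1)) 1 1 0 := by
  unfold CSJ
  rcases sign_cases x with ⟨h1, h2⟩ | ⟨h1, h2⟩ | ⟨h1, h2⟩
  · rw [h2]
    rcases wrJ_eq K o (x - -1 + 1) with ⟨h3, h4⟩ | ⟨h3, h4⟩
    · omega
    · rw [h4]; omega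
  · exact absurd h1 hx
  · rw [h2]
    rcases wrJ_eq K o (x - 1 + 1) with ⟨h3, h4⟩ | ⟨h3, h4⟩
    · omega
    · rw [h4]; omega

theorem csj_stay1 {K o : ℕ} {x : ℤ} (hK : 1 ≤ K) (hx2 : x ≤ K) :
    CSJ K o x (wrJ K o (x + 1)) 0 1 0 := by
  unfold CSJ
  rcases wrJ_eq K o (x + 1) with ⟨h3, h4⟩ | ⟨h3, h4⟩
  · rw [h4]; omega
  · rw [h4]; omega

theorem csj_jump0 {K o : ℕ} {x : ℤ} (ho : o = 1) (hx : x = K) :
    CSJ K o x (-(K : ℤ) + 1) 1 0 1 := by
  unfold CSJ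
  omega

theorem csj_jump1 {K o : ℕ} {x : ℤ} (hK : 2 ≤ K) (ho : o = 1) (hx : x = K) :
    CSJ K o x (wrJ K o (-(K : ℤ) + 1 + 1)) 1 1 1 := by
  unfold CSJ
  rcases wrJ_eq K o (-(K : ℤ) + 1 + 1) with ⟨h3, h4⟩ | ⟨h3, h4⟩
  · omega
  · rw [h4]; omega

/-- jump in the first coordinate -/
def JX (K o : ℕ) (h b : Bool) (q : ℤ × ℤ) : Prop :=
  o = 1 ∧ b = true ∧ q.1 = K ∧ (q.2 ≠ K ∨ h = true)

/-- jump in the second coordinate -/
def JY (K o : ℕ) (h b : Bool) (q : ℤ × ℤ) : Prop :=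
  ¬ JX K o h b q ∧ o = 1 ∧ b = true ∧ q.2 = K ∧ (q.1 ≠ K ∨ h = false)

open scoped Classical in
/-- corrected coins -/
noncomputable def hc (K o : ℕ) (h : ℕ → Bool) (jd : ℕ → Bool) (Q : ℕ → ℤ × ℤ) (t : ℕ) : Bool :=
  if JX K o (h t) (jd t) (Q t) then true else if JY K o (h t) (jd t) (Q t) then false else h t

open scoped Classical in
/-- number of jumps -/
noncomputable def nj (K o : ℕ) (h : ℕ → Bool) (jd : ℕ → Bool) (Q : ℕ → ℤ × ℤ) : ℕ → ℤ
  | 0 => 0
  | t + 1 => nj K o h jd Q t +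
      (if JX K o (h t) (jd t) (Q t) ∨ JY K o (h t) (jd t) (Q t) then 1 else 0)

variable {K o : ℕ} {h jd : ℕ → Bool} {Q : ℕ → ℤ × ℤ}

theorem nj_mono {a b : ℕ} (hab : a ≤ b) : nj K o h jd Q a ≤ nj K o h jd Q b := by
  induction b, hab using Nat.le_induction with
  | base => exact le_rfl
  | succ b _ ih =>
    rw [nj]
    split_ifs <;> omega

theorem nj_ct {a b : ℕ} (hab : a ≤ b) :
    -(nj K o h jd Q b - nj K o h jd Q a) ≤ ct (hc K o h jd Q) a b - ct h a b ∧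
      ct (hc K o h jd Q) a b - ct h a b ≤ nj K o h jd Q b - nj K o h jd Q a := by
  induction b, hab using Nat.le_induction with
  | base => rw [ct_self, ct_self]; omega
  | succ b hb ih =>
    rw [nj, ct_succ _ hb, ct_succ _ hb]
    by_cases h1 : JX K o (h b) (jd b) (Q b)
    · have e1 : hc K o h jd Q b = true := by unfold hc; rw [if_pos h1]
      rw [if_pos (Or.inl h1), e1]
      split_ifs <;> omega
    · by_cases h2 : JY K o (h b) (jd b) (Q b)
      · rw [if_pos (Or.inr h2)]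
        split_ifs <;> omega
      · have e1 : hc K o h jd Q b = h b := by unfold hc; rw [if_neg h1, if_neg h2]
        rw [if_neg (by tauto), e1]
        split_ifs <;> omega

/-- the step of `trJ` -/
theorem trJ_step {K o : ℕ} (hK : 2 ≤ K) (_ : o ≤ 1) (h e : ℕ → Bool) (J : ℕ → ℤ × ℤ → Bool)
    (p : ℤ × ℤ) (t : ℕ)
    (hb2 : (trJ K o h J e p t).1 ≤ K) (hb4 : (trJ K o h J e p t).2 ≤ K)
    (hd : 2 ≤ |(trJ K o h J e p t).1| + |(trJ K o h J e p t).2|) :
    ∃ m b a c : ℤ, (m = 0 ∨ m = 1) ∧ (b = 0 ∨ b = 1) ∧ (a = 0 ∨ a = 1) ∧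
    (c = 0 ∨ c = 1) ∧ a + c ≤ 1 ∧
    b = ct e 0 (t + 1) - ct e 0 t ∧
    ((trJ K o h J e p t).1 ≠ 0 → (trJ K o h J e p t).2 ≠ 0 →
      m = ct (hc K o h (fun t => J t (trJ K o h J e p t)) (trJ K o h J e p)) 0 (t + 1) -
        ct (hc K o h (fun t => J t (trJ K o h J e p t)) (trJ K o h J e p)) 0 t) ∧
    ((trJ K o h J e p t).1 = 0 → m = 0) ∧ ((trJ K o h J e p t).2 = 0 → m = 1) ∧
    CSJ K o ((trJ K o h J e p t).1) ((trJ K o h J e p (t + 1)).1) m b a ∧
    CSJ K o ((trJ K o h J e p t).2) ((trJ K o h J e p (t + 1)).2) (1 - m) (1 - b) c ∧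
    nj K o h (fun t => J t (trJ K o h J e p t)) (trJ K o h J e p) (t + 1) =
      nj K o h (fun t => J t (trJ K o h J e p t)) (trJ K o h J e p) t + a + c ∧
    (o = 1 → J t (trJ K o h J e p t) = true → (trJ K o h J e p t).1 = K →
      (trJ K o h J e p t).2 = 0 → a = 1) ∧
    (o = 1 → J t (trJ K o h J e p t) = true → (trJ K o h J e p t).1 = 0 →
      (trJ K o h J e p t).2 = K → c = 1) := by
  have hs : trJ K o h J e p (t + 1) =
    smJ K o (e t) (zj K o (h t) (J t (trJ K o h J e p t)) (trJ K o h J e p t)) := rfl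
  have hF := F_step (hc K o h (fun t => J t (trJ K o h J e p t)) (trJ K o h J e p)) t
  have hE := F_step e t
  rw [nj]
  rcases Classical.em (JX K o (h t) (J t (trJ K o h J e p t)) (trJ K o h J e p t)) with hX | hX
  · -- jump in the first coordinate
    have e1 : hc K o h (fun t => J t (trJ K o h J e p t)) (trJ K o h J e p) t = true := by
      unfold hc; rw [if_pos hX]
    rw [e1] at hF
    have hF' := hF.resolve_right (by simp)
    rw [if_pos (Or.inl hX)]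
    have hz : zj K o (h t) (J t (trJ K o h J e p t)) (trJ K o h J e p t) =
        (-(K : ℤ) + 1, (trJ K o h J e p t).2) := by
      unfold zj; exact if_pos hX
    rw [hz] at hs
    obtain ⟨g1, g2, g3, g4⟩ := hX
    rw [hs]
    rcases hE with ⟨het, hE⟩ | ⟨het, hE⟩
    · rw [het]
      exact ⟨1, 1, 1, 0, by omega, by omega, by omega, by omega, by omega, by omega,
        fun _ _ => by omega, fun _ => by omega, fun _ => rfl, csj_jump1 hK g1 g3, csj_stay0,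
        by ring, fun _ _ _ _ => rfl, fun _ _ _ _ => by omega⟩
    · rw [het]
      exact ⟨1, 0, 1, 0, by omega, by omega, by omega, by omega, by omega, by omega,
        fun _ _ => by omega, fun _ => by omega, fun _ => rfl, csj_jump0 g1 g3,
        csj_stay1 (by omega) hb4, by ring, fun _ _ _ _ => rfl, fun _ _ _ _ => by omega⟩
  · rcases Classical.em (JY K o (h t) (J t (trJ K o h J e p t)) (trJ K o h J e p t)) with hY | hY
    · -- jump in the second coordinate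
      have e1 : hc K o h (fun t => J t (trJ K o h J e p t)) (trJ K o h J e p) t = false := by
        unfold hc; rw [if_neg hX, if_pos hY]
      rw [e1] at hF
      have hF' := hF.resolve_left (by simp)
      rw [if_pos (Or.inr hY)]
      have hz : zj K o (h t) (J t (trJ K o h J e p t)) (trJ K o h J e p t) =
          ((trJ K o h J e p t).1, -(K : ℤ) + 1) := by
        unfold zj
        unfold JX at hX
        rw [if_neg hX]
        exact if_pos hY.2
      rw [hz] at hs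
      obtain ⟨g0, g1, g2, g3, g4⟩ := hY
      rw [hs]
      rcases hE with ⟨het, hE⟩ | ⟨het, hE⟩
      · rw [het]
        exact ⟨0, 1, 0, 1, by omega, by omega, by omega, by omega, by omega, by omega,
          fun _ _ => by omega, fun _ => rfl, fun _ => by omega, csj_stay1 (by omega) hb2,
          csj_jump0 g1 g3, by ring, fun _ _ _ _ => by omega, fun _ _ _ _ => rfl⟩
      · rw [het]
        exact ⟨0, 0, 0, 1, by omega, by omega, by omega, by omega, by omega, by omega,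
          fun _ _ => by omega, fun _ => rfl, fun _ => by omega, csj_stay0,
          csj_jump1 hK g1 g3, by ring, fun _ _ _ _ => by omega, fun _ _ _ _ => rfl⟩
    · -- no jump
      have e1 : hc K o h (fun t => J t (trJ K o h J e p t)) (trJ K o h J e p) t = h t := by
        unfold hc; rw [if_neg hX, if_neg hY]
      rw [e1] at hF
      rw [if_neg (by tauto)]
      have hz0 : zj K o (h t) (J t (trJ K o h J e p t)) (trJ K o h J e p t) =
          zm (h t) (trJ K o h J e p t) := by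
        unfold zj
        have hX' := hX
        unfold JX at hX'
        rw [if_neg hX', if_neg (fun hc => hY ⟨hX, hc⟩)]
      rw [hz0] at hs
      have hj1 : o = 1 → J t (trJ K o h J e p t) = true → (trJ K o h J e p t).1 = K →
          (trJ K o h J e p t).2 = 0 → (0 : ℤ) = 1 := by
        intro g1 g2 g3 g4
        exact (hX ⟨g1, g2, g3, Or.inl (by omega)⟩).elim
      have hj2 : o = 1 → J t (trJ K o h J e p t) = true → (trJ K o h J e p t).1 = 0 →
          (trJ K o h J e p t).2 = K → (0 : ℤ) = 1 := by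
        intro g1 g2 g3 g4
        exact (hY ⟨hX, g1, g2, g4, Or.inl (by omega)⟩).elim
      clear hX hY e1 hz0
      generalize J t (trJ K o h J e p t) = jj at *
      generalize nj K o h (fun t => J t (trJ K o h J e p t)) (trJ K o h J e p) t = N at *
      generalize ct (hc K o h (fun t => J t (trJ K o h J e p t)) (trJ K o h J e p)) 0 (t + 1) = C1
        at *
      generalize ct (hc K o h (fun t => J t (trJ K o h J e p t)) (trJ K o h J e p)) 0 t = C0 at *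
      generalize trJ K o h J e p (t + 1) = q' at *
      generalize trJ K o h J e p t = q at *
      obtain ⟨x, y⟩ := q
      simp only at *
      have hxy : ¬ (x = 0 ∧ y = 0) := by
        rintro ⟨rfl, rfl⟩
        simp at hd
      -- horizontal or vertical move
      have hz : (zm (h t) (x, y) = (x - x.sign, y) ∧ x ≠ 0 ∧ (y ≠ 0 → h t = true)) ∨
          (zm (h t) (x, y) = (x, y - y.sign) ∧ y ≠ 0 ∧ (x ≠ 0 → h t = false)) := by
        unfold zm hx hy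
        simp only
        by_cases hx0 : x = 0
        · rw [if_pos hx0]
          exact Or.inr ⟨rfl, fun hy0 => hxy ⟨hx0, hy0⟩, fun hc => absurd hx0 hc⟩
        · rw [if_neg hx0]
          by_cases hy0 : y = 0
          · rw [if_pos hy0]
            exact Or.inl ⟨rfl, hx0, fun hc => absurd hy0 hc⟩
          · rw [if_neg hy0]
            rcases hht : h t with _ | _
            · exact Or.inr ⟨by simp, hy0, fun _ => rfl⟩
            · exact Or.inl ⟨by simp, hx0, fun _ => rfl⟩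
      clear hd hxy
      rw [hs]
      clear hs
      rcases hz with ⟨hz, hx0, hh⟩ | ⟨hz, hy0, hh⟩
      · rw [hz]
        have hm : x ≠ 0 → y ≠ 0 → (1 : ℤ) = C1 - C0 := by
          intro _ hy0
          rcases hF with ⟨_, hF⟩ | ⟨hf, _⟩
          · omega
          · rw [hh hy0] at hf; exact absurd hf (by simp)
        rcases hE with ⟨het, hE⟩ | ⟨het, hE⟩
        · rw [het]
          exact ⟨1, 1, 0, 0, by omega, by omega, by omega, by omega, by omega, by omega, hm,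
            by omega, by omega, csj_move1 (by omega) hx0 hb2, csj_stay0, by ring, hj1, hj2⟩
        · rw [het]
          exact ⟨1, 0, 0, 0, by omega, by omega, by omega, by omega, by omega, by omega, hm,
            by omega, by omega, csj_move0, csj_stay1 (by omega) hb4, by ring, hj1, hj2⟩
      · rw [hz]
        have hm : x ≠ 0 → y ≠ 0 → (0 : ℤ) = C1 - C0 := by
          intro hx0 _
          rcases hF with ⟨hf, _⟩ | ⟨_, hF⟩
          · rw [hh hx0] at hf; exact absurd hf (by simp)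
          · omega
        rcases hE with ⟨het, hE⟩ | ⟨het, hE⟩
        · rw [het]
          exact ⟨0, 1, 0, 0, by omega, by omega, by omega, by omega, by omega, by omega, hm,
            by omega, by omega, csj_stay1 (by omega) hb2, csj_move0, by ring, hj1, hj2⟩
        · rw [het]
          exact ⟨0, 0, 0, 0, by omega, by omega, by omega, by omega, by omega, by omega, hm,
            by omega, by omega, csj_stay0, csj_move1 (by omega) hy0 hb4, by ring, hj1, hj2⟩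

theorem boxJ_bounds {K o : ℕ} {p : ℤ × ℤ} (hp : p ∈ boxJ K o) :
    -(K : ℤ) + o ≤ p.1 ∧ p.1 ≤ K ∧ -(K : ℤ) + o ≤ p.2 ∧ p.2 ≤ K := by
  unfold boxJ at hp
  rw [Finset.mem_product, Finset.mem_Icc, Finset.mem_Icc] at hp
  omega

theorem trJ_box {K o : ℕ} (hK : 2 ≤ K) (ho : o ≤ 1) (h e : ℕ → Bool) (J : ℕ → ℤ × ℤ → Bool)
    (p : ℤ × ℤ) (hp : p ∈ boxJ K o) (U : ℕ) (hd : ∀ s ≤ U, 2 ≤ ds (trJ K o h J e p s)) :
    ∀ t ≤ U, -(K : ℤ) + o ≤ (trJ K o h J e p t).1 ∧ (trJ K o h J e p t).1 ≤ K ∧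
      -(K : ℤ) + o ≤ (trJ K o h J e p t).2 ∧ (trJ K o h J e p t).2 ≤ K := by
  intro t
  induction t with
  | zero =>
    intro _
    exact boxJ_bounds hp
  | succ t ih =>
    intro ht
    obtain ⟨h1, h2, h3, h4⟩ := ih (by omega)
    obtain ⟨m, b, a, c, hm, hb, ha, hc, hac, -, -, hx0, hy0, hX, hY, -, -, -⟩ :=
      trJ_step hK ho h e J p t h2 h4 (hd t (by omega))
    unfold CSJ at hX hY
    refine ⟨?_, ?_, ?_, ?_⟩
    · clear hY hy0
      rcases ha with rfl | rfl <;> rcases hm with rfl | rfl <;> rcases hb with rfl | rfl <;> omega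
    · clear hY hy0
      rcases ha with rfl | rfl <;> rcases hm with rfl | rfl <;> rcases hb with rfl | rfl <;> omega
    · clear hX hx0
      rcases hc with rfl | rfl <;> rcases hm with rfl | rfl <;> rcases hb with rfl | rfl <;> omega
    · clear hX hx0
      rcases hc with rfl | rfl <;> rcases hm with rfl | rfl <;> rcases hb with rfl | rfl <;> omega

theorem trJ_Tj {K o : ℕ} (hK : 2 ≤ K) (ho : o ≤ 1) (h e : ℕ → Bool) (J : ℕ → ℤ × ℤ → Bool)
    (p : ℤ × ℤ) (hp : p ∈ boxJ K o) (U : ℕ) (hd : ∀ s ≤ U, 2 ≤ ds (trJ K o h J e p s)) :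
    TjJ K o U (fun t => (trJ K o h J e p t).1) (fun t => (trJ K o h J e p t).2)
      (hc K o h (fun t => J t (trJ K o h J e p t)) (trJ K o h J e p)) e
      (fun t => J t (trJ K o h J e p t))
      (nj K o h (fun t => J t (trJ K o h J e p t)) (trJ K o h J e p)) where
  ho := ho
  bx := trJ_box hK ho h e J p hp U hd
  dd := hd
  j0 := rfl
  st := fun t ht => by
    obtain ⟨h1, h2, h3, h4⟩ := trJ_box hK ho h e J p hp U hd t (by omega)
    exact trJ_step hK ho h e J p t h2 h4 (hd t (by omega))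

theorem cl_of {K o : ℕ} {h jd : ℕ → Bool} {Q : ℕ → ℤ × ℤ} {U : ℕ} (hU : nj K o h jd Q U ≤ 3) :
    Cl U (hc K o h jd Q) h := by
  intro a b hab hb
  have h1 := nj_ct (K := K) (o := o) (h := h) (jd := jd) (Q := Q) hab
  have h2 := nj_mono (K := K) (o := o) (h := h) (jd := jd) (Q := Q) (Nat.zero_le a)
  have h3 := nj_mono (K := K) (o := o) (h := h) (jd := jd) (Q := Q) hb
  have h4 : nj K o h jd Q 0 = 0 := rfl
  rw [ct_eq _ hab] at h1
  omega

/-- the hypotheses in terms of the original data -/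
theorem mkHyp {K o R ρ B S₁ TN T : ℕ} (ho : o ≤ 1) (hR : 4 ≤ R)
    (hK : 200 * R + 10 * B + 10 * ρ + 1000 ≤ K)
    (hTN : S₁ + 8 * K ≤ TN) {h e : ℕ → Bool} {J : ℕ → ℤ × ℤ → Bool} (he : BalP R e T)
    (hB : GB B (4 * K) h T)
    (hE : ESC (B + 8 * R + 100) S₁ h T) {p : ℤ × ℤ} (hp : p ∈ boxJ K o) {U : ℕ} (hU : U ≤ T)
    (hd : ∀ s ≤ U, 2 ≤ ds (trJ K o h J e p s))
    (hj : nj K o h (fun t => J t (trJ K o h J e p t)) (trJ K o h J e p) U ≤ 3) :
    HypJ K o R ρ B S₁ TN U (fun t => (trJ K o h J e p t).1) (fun t => (trJ K o h J e p t).2)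
      (hc K o h (fun t => J t (trJ K o h J e p t)) (trJ K o h J e p)) e
      (fun t => J t (trJ K o h J e p t))
      (nj K o h (fun t => J t (trJ K o h J e p t)) (trJ K o h J e p)) where
  tj := trJ_Tj (by omega) ho h e J p hp U hd
  hR := hR
  hK := hK
  hTN := hTN
  bal := fun s hs => by
    have := he s (by omega)
    rw [abs_le] at this
    exact this
  gb := fun a b h1 h2 h3 => by
    have := hB a b h1 (by omega) h3
    rw [abs_le] at this
    have h4 := cl_of hj a b h1 h2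
    omega
  esc := fun a ha => by
    obtain ⟨s, s', h1, h2, h3, h4⟩ := hE a (by omega)
    refine ⟨s, s', h1, h2, h3, ?_⟩
    rw [lt_abs] at h4
    push_cast at h4
    have h5 := cl_of hj s s' h2 (by omega)
    omega

/-- at most two jumps -/
theorem jumps_le {K o R ρ B S₁ TN T : ℕ} (ho : o ≤ 1) (hR : 4 ≤ R)
    (hK : 200 * R + 10 * B + 10 * ρ + 1000 ≤ K)
    (hTN : S₁ + 8 * K ≤ TN) {h e : ℕ → Bool} {J : ℕ → ℤ × ℤ → Bool} (he : BalP R e T)
    (hB : GB B (4 * K) h T)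
    (hE : ESC (B + 8 * R + 100) S₁ h T) {p : ℤ × ℤ} (hp : p ∈ boxJ K o) {U : ℕ} (hU : U ≤ T)
    (hd : ∀ s ≤ U, 2 ≤ ds (trJ K o h J e p s)) :
    nj K o h (fun t => J t (trJ K o h J e p t)) (trJ K o h J e p) U ≤ 2 := by
  induction U with
  | zero =>
    have : nj K o h (fun t => J t (trJ K o h J e p t)) (trJ K o h J e p) 0 = 0 := rfl
    omega
  | succ U ih =>
    have h1 := ih (by omega) (fun s hs => hd s (by omega))
    have h2 : nj K o h (fun t => J t (trJ K o h J e p t)) (trJ K o h J e p) (U + 1) ≤ 3 := by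
      rw [nj]
      split_ifs <;> omega
    exact inv_jn (inv_all (mkHyp (ρ := ρ) ho hR hK hTN he hB hE hp hU hd h2) (U + 1) le_rfl)

theorem mkEsc2 {K S₂ U T : ℕ} {h g : ℕ → Bool} (hE : ESC (3 * K) S₂ g T) (hU : U ≤ T)
    (hc : Cl U h g) : Esc2 K S₂ U h := by
  intro a ha
  obtain ⟨s, s', h1, h2, h3, h4⟩ := hE a (by omega)
  refine ⟨s, s', h1, h2, h3, ?_⟩
  rw [lt_abs] at h4
  push_cast at h4
  have h5 := hc s s' h2 (by omega)
  omega

end Build

end HistJ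

/-! ### the module -/

theorem hist_nearJ {K o R ρ B S₁ TN T : ℕ} (ho : o ≤ 1) (hR : 4 ≤ R)
    (hK : 200 * R + 10 * B + 10 * ρ + 1000 ≤ K)
    (hTN : S₁ + 8 * K ≤ TN) {h e : ℕ → Bool} {J : ℕ → ℤ × ℤ → Bool} (he : BalP R e T)
    (hB : GB B (4 * K) h T)
    (hE : ESC (B + 8 * R + 100) S₁ h T) {p : ℤ × ℤ} (hp : p ∈ boxJ K o) {t : ℕ} (ht : t ≤ T)
    (hd : ∀ s ≤ t, 2 ≤ ds (trJ K o h J e p s))
    (hn : (trJ K o h J e p t).1 < 0 ∨ (trJ K o h J e p t).2 < 0)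
    (hρ : ds (trJ K o h J e p t) ≤ ρ) : ANearJ K R ρ TN h t p := by
  have hj := HistJ.jumps_le ho hR hK hTN he hB hE hp ht hd
  exact HistJ.near_all (HistJ.mkHyp ho hR hK hTN he hB hE hp ht hd (by omega))
    (HistJ.cl_of (by omega)) le_rfl hn hρ

theorem hist_frontJ {K o R ρ B S₁ TN T : ℕ} (ho : o ≤ 1) (hR : 4 ≤ R)
    (hK : 200 * R + 10 * B + 10 * ρ + 1000 ≤ K)
    (hTN : S₁ + 8 * K ≤ TN) {h e : ℕ → Bool} {J : ℕ → ℤ × ℤ → Bool} (he : BalP R e T)
    (hB : GB B (4 * K) h T)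
    (hE : ESC (B + 8 * R + 100) S₁ h T) {p : ℤ × ℤ} (hp : p ∈ boxJ K o) {t : ℕ} (ht : t ≤ T)
    (hd : ∀ s ≤ t, 2 ≤ ds (trJ K o h J e p s))
    (hn : (trJ K o h J e p t).1 < 0 ∧ (trJ K o h J e p t).2 < 0)
    (hρ : ds (trJ K o h J e p t) ≤ ρ) : AFront K (R + 4) ρ h t p ∧ t ≤ TN := by
  have hj := HistJ.jumps_le ho hR hK hTN he hB hE hp ht hd
  exact HistJ.front_all (HistJ.mkHyp ho hR hK hTN he hB hE hp ht hd (by omega))
    (HistJ.cl_of (by omega)) le_rfl hn hρ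

theorem hist_safeJ {K o R ρ B S₁ S₂ TN T l : ℕ} (ho : o ≤ 1) (hR : 4 ≤ R)
    (hK : 200 * R + 10 * B + 10 * ρ + 1000 ≤ K)
    (hTN : S₁ + 8 * K ≤ TN) (hT : TN + (l + 1) * (S₂ + 1) + 30 * K ≤ T) {h e : ℕ → Bool}
    {J : ℕ → ℤ × ℤ → Bool} (he : BalP R e T)
    (hB : GB B (4 * K) h T) (hE : ESC (B + 8 * R + 100) S₁ h T) (hE2 : ESC (3 * K) S₂ h T)
    {p : ℤ × ℤ} (hp : p ∈ boxJ K o) (hd : ∀ s ≤ T, 2 ≤ ds (trJ K o h J e p s))
    (hJ : o = 1 → ¬ NoJump K o h J e p l (TN + (l + 1) * (S₂ + 1))) :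
    SafeJ K o (trJ K o h J e p T) := by
  have hj := HistJ.jumps_le ho hR hK hTN he hB hE hp le_rfl hd
  have hcl : HistJ.Cl T (HistJ.hc K o h (fun t => J t (trJ K o h J e p t)) (trJ K o h J e p)) h :=
    HistJ.cl_of (by omega)
  refine HistJ.safe_all (HistJ.mkHyp (ρ := ρ) ho hR hK hTN he hB hE hp le_rfl hd (by omega))
    (HistJ.mkEsc2 hE2 le_rfl hcl) (fun h1 hN => hJ h1 ?_) hT
  obtain ⟨⟨F, hF1, hF2⟩, h3⟩ := hN
  have hv : ∀ t, HistJ.Vs K (trJ K o h J e p t).1 (trJ K o h J e p t).2 ↔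
      Vis K (trJ K o h J e p t) := by
    intro t
    unfold HistJ.Vs Vis
    rw [Prod.ext_iff, Prod.ext_iff]
  refine ⟨le_trans hF1 (Finset.card_le_card ?_), ?_⟩
  · intro r hr
    simp only [Finset.mem_filter, Finset.mem_range]
    exact ⟨(hF2 r hr).1, (hv r).1 (hF2 r hr).2⟩
  · intro t ht hvt
    exact h3 t ht ((hv t).2 hvt)

end MP34e
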