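import Pool.Agent.Work.MP_34e428_co.LDefs

/-! Lower bound: one zombie near the survivor. -/

set_option autoImplicit false

open Finset

namespace MP34e

set_option linter.unusedSimpArgs false

theorem zm_cases (h : Bool) (p : ℤ × ℤ) :
    (p.1 = 0 ∧ p.2 = 0 ∧ zm h p = (0, 0)) ∨
    (p.1 < 0 ∧ (p.2 = 0 ∨ h = true) ∧ zm h p = (p.1 + 1, p.2)) ∨
    (0 < p.1 ∧ (p.2 = 0 ∨ h = true) ∧ zm h p = (p.1 - 1, p.2)) ∨
    (p.2 < 0 ∧ (p.1 = 0 ∨ h = false) ∧ zm h p = (p.1, p.2 + 1)) ∨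
    (0 < p.2 ∧ (p.1 = 0 ∨ h = false) ∧ zm h p = (p.1, p.2 - 1)) := by
  obtain ⟨x, y⟩ := p
  unfold zm hx hy
  simp only
  rcases lt_trichotomy x 0 with hx | hx | hx
  · rcases lt_trichotomy y 0 with hy | hy | hy
    · rcases h with _ | _
      · simp [hx.ne, hy.ne, Int.sign_eq_neg_one_of_neg hx, Int.sign_eq_neg_one_of_neg hy]; omega
      · simp [hx.ne, hy.ne, Int.sign_eq_neg_one_of_neg hx, Int.sign_eq_neg_one_of_neg hy]; omega
    · subst hy
      simp [hx.ne, Int.sign_eq_neg_one_of_neg hx]; omega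
    · rcases h with _ | _
      · simp [hx.ne, hy.ne', Int.sign_eq_neg_one_of_neg hx, Int.sign_eq_one_of_pos hy]; omega
      · simp [hx.ne, hy.ne', Int.sign_eq_neg_one_of_neg hx, Int.sign_eq_one_of_pos hy]; omega
  · subst hx
    rcases lt_trichotomy y 0 with hy | hy | hy
    · simp [Int.sign_eq_neg_one_of_neg hy]; omega
    · subst hy; simp
    · simp [Int.sign_eq_one_of_pos hy]; omega
  · rcases lt_trichotomy y 0 with hy | hy | hy
    · rcases h with _ | _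
      · simp [hx.ne', hy.ne, Int.sign_eq_one_of_pos hx, Int.sign_eq_neg_one_of_neg hy]; omega
      · simp [hx.ne', hy.ne, Int.sign_eq_one_of_pos hx, Int.sign_eq_neg_one_of_neg hy]; omega
    · subst hy
      simp [hx.ne', Int.sign_eq_one_of_pos hx]; omega
    · rcases h with _ | _
      · simp [hx.ne', hy.ne', Int.sign_eq_one_of_pos hx, Int.sign_eq_one_of_pos hy]; omega
      · simp [hx.ne', hy.ne', Int.sign_eq_one_of_pos hx, Int.sign_eq_one_of_pos hy]; omega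

/-- one round far from the wrap -/
theorem sm_near {K : ℕ} (e : Bool) {p : ℤ × ℤ} (h1 : p.1 < K) (h2 : p.2 < K) :
    (sm K e p).1 = p.1 + (if e then 1 else 0) ∧ (sm K e p).2 = p.2 + (if e then 0 else 1) := by
  unfold sm wr
  rcases e with _ | _
  · have : ¬ ((K : ℤ) < p.2 + 1) := by omega
    simp [this]
  · have : ¬ ((K : ℤ) < p.1 + 1) := by omega
    simp [this]

theorem ds_nonneg (p : ℤ × ℤ) : 0 ≤ ds p := by unfold ds; positivity

theorem mem_box_ds {K : ℕ} {p : ℤ × ℤ} (hp : p ∈ box K) :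
    -(K : ℤ) ≤ p.1 ∧ p.1 ≤ K ∧ -(K : ℤ) ≤ p.2 ∧ p.2 ≤ K := by
  rw [mem_box, abs_le, abs_le] at hp
  omega

theorem zm_box {K : ℕ} (h : Bool) {p : ℤ × ℤ} (hp : p ∈ box K) : zm h p ∈ box K := by
  have h0 := mem_box_ds hp
  rw [mem_box, abs_le, abs_le]
  rcases zm_cases h p with ⟨h1, h2, h3⟩ | ⟨h1, h2, h3⟩ | ⟨h1, h2, h3⟩ | ⟨h1, h2, h3⟩ | ⟨h1, h2, h3⟩ <;>
    rw [h3] <;> simp only <;> omega

theorem sm_box {K : ℕ} (e : Bool) {p : ℤ × ℤ} (hp : p ∈ box K) : sm K e p ∈ box K := by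
  have h0 := mem_box_ds hp
  rw [mem_box, abs_le, abs_le]
  unfold sm wr
  rcases e with _ | _
  · simp only [Bool.false_eq_true, if_false]
    split_ifs <;> omega
  · simp only [if_true]
    split_ifs <;> omega

theorem ds_zm (h : Bool) {p : ℤ × ℤ} (hp : 1 ≤ ds p) : ds (zm h p) = ds p - 1 := by
  unfold ds at *
  rcases zm_cases h p with ⟨h1, h2, h3⟩ | ⟨h1, h2, h3⟩ | ⟨h1, h2, h3⟩ | ⟨h1, h2, h3⟩ | ⟨h1, h2, h3⟩
  · rw [h1, h2] at hp; simp at hp
  · rw [h3]; simp only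
    rw [abs_of_neg h1, abs_of_nonpos (by omega : p.1 + 1 ≤ 0)]; ring
  · rw [h3]; simp only
    rw [abs_of_pos h1, abs_of_nonneg (by omega : 0 ≤ p.1 - 1)]; ring
  · rw [h3]; simp only
    rw [abs_of_neg h1, abs_of_nonpos (by omega : p.2 + 1 ≤ 0)]; ring
  · rw [h3]; simp only
    rw [abs_of_pos h1, abs_of_nonneg (by omega : 0 ≤ p.2 - 1)]; ring

theorem ds_sm {K : ℕ} (e : Bool) {p : ℤ × ℤ} (hp : p ∈ box K) :
    ds p - 1 ≤ ds (sm K e p) ∧ ds (sm K e p) ≤ ds p + 1 := by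
  have h0 := mem_box_ds hp
  unfold ds sm wr
  rcases e with _ | _
  · simp only [Bool.false_eq_true, if_false]
    split_ifs with hc
    · have h1 : p.2 = K := by omega
      rw [h1]
      rw [abs_of_nonneg (by omega : (0:ℤ) ≤ K)]
      have h2 : (K : ℤ) + 1 - (2 * K + 1) = -K := by ring
      rw [h2, abs_neg, abs_of_nonneg (by omega : (0:ℤ) ≤ K)]
      omega
    · have h1 := abs_sub_abs_le_abs_sub p.2 (p.2 + 1)
      have h2 := abs_sub_abs_le_abs_sub (p.2 + 1) p.2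
      have h3 : |p.2 - (p.2 + 1)| = 1 := by norm_num
      have h4 : |p.2 + 1 - p.2| = 1 := by norm_num
      omega
  · simp only [if_true]
    split_ifs with hc
    · have h1 : p.1 = K := by omega
      rw [h1]
      rw [abs_of_nonneg (by omega : (0:ℤ) ≤ K)]
      have h2 : (K : ℤ) + 1 - (2 * K + 1) = -K := by ring
      rw [h2, abs_neg, abs_of_nonneg (by omega : (0:ℤ) ≤ K)]
      omega
    · have h1 := abs_sub_abs_le_abs_sub p.1 (p.1 + 1)
      have h2 := abs_sub_abs_le_abs_sub (p.1 + 1) p.1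
      have h3 : |p.1 - (p.1 + 1)| = 1 := by norm_num
      have h4 : |p.1 + 1 - p.1| = 1 := by norm_num
      omega

/-- `q` is a sequence of displacements of a zombie with coins `h`; far from the survivor only
the evolution of the distance is recorded -/
structure Seq (K : ℕ) (h e : ℕ → Bool) (q : ℕ → ℤ × ℤ) : Prop where
  near : ∀ s, ds (q s) < K →
    (q (s + 1)).1 = (zm (h s) (q s)).1 + (if e s then 1 else 0) ∧
    (q (s + 1)).2 = (zm (h s) (q s)).2 + (if e s then 0 else 1)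
  ds_step : ∀ s, 1 ≤ ds (q s) → ds (q (s + 1)) ≤ ds (q s) ∧ ds (q s) ≤ ds (q (s + 1)) + 2

theorem Seq.ds_back {K : ℕ} {h e : ℕ → Bool} {q : ℕ → ℤ × ℤ} (hq : Seq K h e q)
    {s u : ℕ} (hsu : s ≤ u) (hd : ∀ r, s ≤ r → r ≤ u → 1 ≤ ds (q r)) :
    ds (q u) ≤ ds (q s) ∧ ds (q s) ≤ ds (q u) + 2 * ((u : ℤ) - s) := by
  induction u, hsu using Nat.le_induction with
  | base => constructor <;> omega
  | succ u hsu ih =>
    have ih := ih (fun r hr hr' => hd r hr (by omega))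
    have h1 := hq.ds_step u (hd u hsu (by omega))
    push_cast
    omega

/-! types -/

def tF (p : ℤ × ℤ) : Prop := p.1 < 0 ∧ p.2 < 0
def tA (p : ℤ × ℤ) : Prop := p.1 < 0 ∧ 0 ≤ p.2
def tB (p : ℤ × ℤ) : Prop := 0 ≤ p.1 ∧ p.2 < 0
def tS (p : ℤ × ℤ) : Prop := 0 ≤ p.1 ∧ 0 ≤ p.2

theorem types (p : ℤ × ℤ) : tF p ∨ tA p ∨ tB p ∨ tS p := by
  unfold tF tA tB tS; omega

theorem ds_coord (p : ℤ × ℤ) : -ds p ≤ p.1 ∧ p.1 ≤ ds p ∧ -ds p ≤ p.2 ∧ p.2 ≤ ds p := by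
  unfold ds
  have h1 := abs_nonneg p.1
  have h2 := abs_nonneg p.2
  have h3 := neg_abs_le p.1
  have h4 := le_abs_self p.1
  have h5 := neg_abs_le p.2
  have h6 := le_abs_self p.2
  omega

theorem ds_F {p : ℤ × ℤ} (h : tF p) : ds p = -p.1 - p.2 := by
  unfold ds; rw [abs_of_neg h.1, abs_of_neg h.2]; ring

theorem ds_A {p : ℤ × ℤ} (h : tA p) : ds p = -p.1 + p.2 := by
  unfold ds; rw [abs_of_neg h.1, abs_of_nonneg h.2]

theorem ds_B {p : ℤ × ℤ} (h : tB p) : ds p = p.1 - p.2 := by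
  unfold ds; rw [abs_of_nonneg h.1, abs_of_neg h.2]; ring

theorem ds_S {p : ℤ × ℤ} (h : tS p) : ds p = p.1 + p.2 := by
  unfold ds; rw [abs_of_nonneg h.1, abs_of_nonneg h.2]

theorem Seq.type_step {K : ℕ} {h e : ℕ → Bool} {q : ℕ → ℤ × ℤ} (hq : Seq K h e q) {s : ℕ}
    (hK : ds (q s) < K) (hd' : 2 ≤ ds (q (s + 1))) :
    (tS (q s) → tS (q (s + 1))) ∧ (tA (q s) → tA (q (s + 1)) ∨ tS (q (s + 1))) ∧
    (tB (q s) → tB (q (s + 1)) ∨ tS (q (s + 1))) ∧
    (tF (q s) → tF (q (s + 1)) ∨ tA (q (s + 1)) ∨ tB (q (s + 1))) := by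
  obtain ⟨h1, h2⟩ := hq.near s hK
  unfold tS tA tB tF
  have hd2 : ¬ ((q (s + 1)).1 = 0 ∧ (q (s + 1)).2 = 0) := by
    rintro ⟨a, b⟩
    unfold ds at hd'
    rw [a, b] at hd'
    simp at hd'
  rcases zm_cases (h s) (q s) with ⟨a1, a2, h3⟩ | ⟨a1, a2, h3⟩ | ⟨a1, a2, h3⟩ | ⟨a1, a2, h3⟩ |
    ⟨a1, a2, h3⟩ <;> rw [h3] at h1 h2 <;> simp only at h1 h2 <;>
    rcases he : e s with _ | _ <;> rw [he] at h1 h2 <;>
    simp only [if_true, if_false, Bool.false_eq_true] at h1 h2 <;> omega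

/-- queue inequality, type A -/
theorem Seq.qA {K : ℕ} {h e : ℕ → Bool} {q : ℕ → ℤ × ℤ} (hq : Seq K h e q) {a u : ℕ}
    (hau : a ≤ u) (hA : ∀ r, a ≤ r → r < u → tA (q r)) (hK : ∀ r, a ≤ r → r < u → ds (q r) < K) :
    (q a).2 + ct h a u - ct e a u ≤ (q u).2 ∧ (q a).1 + ct h a u + ct e a u ≤ (q u).1 ∧
    (q u).1 ≤ (q a).1 + 2 * ((u : ℤ) - a) := by
  induction u, hau using Nat.le_induction with
  | base => simp [ct_self]
  | succ u hau ih =>
    have ih := ih (fun r h1 h2 => hA r h1 (by omega)) (fun r h1 h2 => hK r h1 (by omega))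
    obtain ⟨h1, h2⟩ := hq.near u (hK u hau (by omega))
    have hA' := hA u hau (by omega)
    unfold tA at hA'
    rw [ct_succ h hau, ct_succ e hau]
    push_cast
    rcases zm_cases (h u) (q u) with ⟨a1, a2, h3⟩ | ⟨a1, a2, h3⟩ | ⟨a1, a2, h3⟩ | ⟨a1, a2, h3⟩ |
      ⟨a1, a2, h3⟩ <;> rw [h3] at h1 h2 <;> simp only at h1 h2 <;>
      rcases he : e u with _ | _ <;> rw [he] at h1 h2 <;>
      rcases hh : h u with _ | _ <;> (try simp [hh] at a2) <;>
      simp only [if_true, if_false, Bool.false_eq_true] at h1 h2 ⊢ <;> omega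

/-- queue inequality, type B -/
theorem Seq.qB {K : ℕ} {h e : ℕ → Bool} {q : ℕ → ℤ × ℤ} (hq : Seq K h e q) {a u : ℕ}
    (hau : a ≤ u) (hA : ∀ r, a ≤ r → r < u → tB (q r)) (hK : ∀ r, a ≤ r → r < u → ds (q r) < K) :
    (q a).1 + ct e a u - ct h a u ≤ (q u).1 ∧
    (q a).2 + (((u : ℤ) - a) - ct h a u) + (((u : ℤ) - a) - ct e a u) ≤ (q u).2 ∧
    (q u).2 ≤ (q a).2 + 2 * ((u : ℤ) - a) := by
  induction u, hau using Nat.le_induction with
  | base => simp [ct_self]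
  | succ u hau ih =>
    have ih := ih (fun r h1 h2 => hA r h1 (by omega)) (fun r h1 h2 => hK r h1 (by omega))
    obtain ⟨h1, h2⟩ := hq.near u (hK u hau (by omega))
    have hA' := hA u hau (by omega)
    unfold tB at hA'
    rw [ct_succ h hau, ct_succ e hau]
    push_cast
    rcases zm_cases (h u) (q u) with ⟨a1, a2, h3⟩ | ⟨a1, a2, h3⟩ | ⟨a1, a2, h3⟩ | ⟨a1, a2, h3⟩ |
      ⟨a1, a2, h3⟩ <;> rw [h3] at h1 h2 <;> simp only at h1 h2 <;>
      rcases he : e u with _ | _ <;> rw [he] at h1 h2 <;>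
      rcases hh : h u with _ | _ <;> (try simp [hh] at a2) <;>
      simp only [if_true, if_false, Bool.false_eq_true] at h1 h2 ⊢ <;> omega

/-- front zombies move freely -/
theorem Seq.qF {K : ℕ} {h e : ℕ → Bool} {q : ℕ → ℤ × ℤ} (hq : Seq K h e q) {a u : ℕ}
    (hau : a ≤ u) (hA : ∀ r, a ≤ r → r < u → tF (q r)) (hK : ∀ r, a ≤ r → r < u → ds (q r) < K) :
    (q u).1 = (q a).1 + ct h a u + ct e a u ∧
    (q u).2 = (q a).2 + (((u : ℤ) - a) - ct h a u) + (((u : ℤ) - a) - ct e a u) := by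
  induction u, hau using Nat.le_induction with
  | base => simp [ct_self]
  | succ u hau ih =>
    have ih := ih (fun r h1 h2 => hA r h1 (by omega)) (fun r h1 h2 => hK r h1 (by omega))
    obtain ⟨h1, h2⟩ := hq.near u (hK u hau (by omega))
    have hA' := hA u hau (by omega)
    unfold tF at hA'
    rw [ct_succ h hau, ct_succ e hau]
    push_cast
    rcases zm_cases (h u) (q u) with ⟨a1, a2, h3⟩ | ⟨a1, a2, h3⟩ | ⟨a1, a2, h3⟩ | ⟨a1, a2, h3⟩ |
      ⟨a1, a2, h3⟩ <;> rw [h3] at h1 h2 <;> simp only at h1 h2 <;>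
      rcases he : e u with _ | _ <;> rw [he] at h1 h2 <;>
      rcases hh : h u with _ | _ <;> (try simp [hh] at a2) <;>
      simp only [if_true, if_false, Bool.false_eq_true] at h1 h2 ⊢ <;> omega

/-- swapping the two coordinates -/
theorem zm_swap (h : Bool) (p : ℤ × ℤ) : zm (!h) p.swap = (zm h p).swap := by
  obtain ⟨x, y⟩ := p
  unfold zm hx hy
  simp only [Prod.swap_prod_mk, Prod.swap]
  by_cases hx : x = 0
  · subst hx
    by_cases hy : y = 0
    · subst hy; simp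
    · simp [hy]
  · by_cases hy : y = 0
    · subst hy; simp [hx]
    · rcases h with _ | _ <;> simp [hx, hy]

theorem sm_swap (K : ℕ) (e : Bool) (p : ℤ × ℤ) : sm K (!e) p.swap = (sm K e p).swap := by
  unfold sm
  rcases e with _ | _ <;> simp [Prod.swap]

theorem ds_swap (p : ℤ × ℤ) : ds p.swap = ds p := by
  unfold ds; simp [add_comm]

theorem Seq.swap {K : ℕ} {h e : ℕ → Bool} {q : ℕ → ℤ × ℤ} (hq : Seq K h e q) :
    Seq K (nt h) (nt e) (fun s => (q s).swap) := by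
  refine ⟨fun s hs => ?_, fun s hs => ?_⟩
  · rw [ds_swap] at hs
    obtain ⟨h1, h2⟩ := hq.near s hs
    show (q (s + 1)).2 = (zm (!(h s)) (q s).swap).1 + _ ∧ (q (s + 1)).1 = (zm (!(h s)) (q s).swap).2 + _
    rw [zm_swap, h1, h2]
    unfold nt
    rcases e s with _ | _ <;> simp
  · rw [ds_swap] at hs
    rw [ds_swap, ds_swap]
    exact hq.ds_step s hs

/-- the trajectories of the model are such sequences -/
theorem seq_of_rec {K : ℕ} {h e : ℕ → Bool} {q : ℕ → ℤ × ℤ} (h0 : q 0 ∈ box K)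
    (hq : ∀ s, q (s + 1) = sm K (e s) (zm (h s) (q s))) : Seq K h e q := by
  have hbox : ∀ s, q s ∈ box K := by
    intro s
    induction s with
    | zero => exact h0
    | succ s ih => rw [hq s]; exact sm_box _ (zm_box _ ih)
  refine ⟨fun s hK => ?_, fun s hd => ?_⟩
  · rw [hq s]
    have h1 := ds_coord (q s)
    refine sm_near _ ?_ ?_
    · rcases zm_cases (h s) (q s) with ⟨_, _, h3⟩ | ⟨_, _, h3⟩ | ⟨_, _, h3⟩ | ⟨_, _, h3⟩ |
        ⟨_, _, h3⟩ <;> rw [h3] <;> simp only <;> omega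
    · rcases zm_cases (h s) (q s) with ⟨_, _, h3⟩ | ⟨_, _, h3⟩ | ⟨_, _, h3⟩ | ⟨_, _, h3⟩ |
        ⟨_, _, h3⟩ <;> rw [h3] <;> simp only <;> omega
  · have h1 := ds_zm (h s) hd
    have h2 := ds_sm (e s) (zm_box (h s) (hbox s))
    rw [← hq s] at h2
    omega

end MP34e
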