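import Pool.Agent.Work.MP_34e428_co.LLoc1

/-! Lower bound: a front zombie which is pushed to one side. -/

set_option autoImplicit false

open Finset

namespace MP34e

set_option linter.unusedSimpArgs false

theorem GC.lin {L₀ : ℕ} {h : ℕ → Bool} {T : ℕ} (hG : GC L₀ h T) {a b : ℕ} (hab : a ≤ b)
    (hb : b ≤ T) :
    49 * ((b : ℤ) - a) - 50 * L₀ ≤ 100 * ct h a b ∧
    100 * ct h a b ≤ 51 * ((b : ℤ) - a) + 50 * L₀ := by
  have h1 := hG a b hab hb
  have h2 := le_abs_self (2 * ct h a b - ((b : ℤ) - a))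
  have h3 := neg_abs_le (2 * ct h a b - ((b : ℤ) - a))
  constructor <;> linarith

theorem GC.nt {L₀ : ℕ} {h : ℕ → Bool} {T : ℕ} (hG : GC L₀ h T) : GC L₀ (nt h) T := by
  intro a b hab hb
  have h1 := hG a b hab hb
  rw [ct_nt h hab]
  have h2 : 2 * ((b : ℤ) - a - ct h a b) - ((b : ℤ) - a) = -(2 * ct h a b - ((b : ℤ) - a)) := by
    ring
  rw [h2, abs_neg]
  exact h1

/-- a zombie of type A stays of type A or becomes of type S; type S is absorbing -/
theorem Seq.stayS {K : ℕ} {h e : ℕ → Bool} {q : ℕ → ℤ × ℤ} (hq : Seq K h e q) {a u : ℕ}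
    (hau : a ≤ u) (hd : ∀ r, a ≤ r → r ≤ u → 2 ≤ ds (q r)) (hK : ds (q a) < K)
    (hS : tS (q a)) : tS (q u) := by
  induction u, hau using Nat.le_induction with
  | base => exact hS
  | succ u hau ih =>
    have ih := ih (fun r h1 h2 => hd r h1 (by omega))
    have h1 := (hq.ds_back hau (fun r h1 h2 => by have := hd r h1 (by omega); omega)).1
    exact (hq.type_step (by omega) (hd _ (by omega) le_rfl)).1 ih

theorem Seq.stayB {K : ℕ} {h e : ℕ → Bool} {q : ℕ → ℤ × ℤ} (hq : Seq K h e q) {a u : ℕ}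
    (hau : a ≤ u) (hd : ∀ r, a ≤ r → r ≤ u → 2 ≤ ds (q r)) (hK : ds (q a) < K)
    (hS : tB (q a)) : tS (q u) ∨ ∀ r, a ≤ r → r ≤ u → tB (q r) := by
  induction u, hau using Nat.le_induction with
  | base => right; intro r h1 h2; have : r = a := by omega
            rw [this]; exact hS
  | succ u hau ih =>
    have ih := ih (fun r h1 h2 => hd r h1 (by omega))
    have h1 := (hq.ds_back hau (fun r h1 h2 => by have := hd r h1 (by omega); omega)).1
    have h2 := hq.type_step (s := u) (by omega) (hd _ (by omega) le_rfl)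
    rcases ih with ih | ih
    · left; exact h2.1 ih
    · rcases h2.2.2.1 (ih u hau le_rfl) with h3 | h3
      · right
        intro r hr1 hr2
        rcases Nat.lt_or_ge r (u + 1) with h4 | h4
        · exact ih r hr1 (by omega)
        · have : r = u + 1 := by omega
          rw [this]; exact h3
      · left; exact h3

theorem Seq.stayA {K : ℕ} {h e : ℕ → Bool} {q : ℕ → ℤ × ℤ} (hq : Seq K h e q) {a u : ℕ}
    (hau : a ≤ u) (hd : ∀ r, a ≤ r → r ≤ u → 2 ≤ ds (q r)) (hK : ds (q a) < K)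
    (hS : tA (q a)) : tS (q u) ∨ ∀ r, a ≤ r → r ≤ u → tA (q r) := by
  have h1 := hq.swap.stayB hau (fun r h1 h2 => by rw [ds_swap]; exact hd r h1 h2)
    (by rw [ds_swap]; exact hK) ⟨hS.2, hS.1⟩
  rcases h1 with h1 | h1
  · left; exact ⟨h1.2, h1.1⟩
  · right; intro r hr1 hr2; have := h1 r hr1 hr2; exact ⟨this.2, this.1⟩

/-- the type changes at most once from F -/
theorem Seq.leaveF {K : ℕ} {h e : ℕ → Bool} {q : ℕ → ℤ × ℤ} (hq : Seq K h e q) {a u : ℕ}
    (hau : a ≤ u) (hd : ∀ r, a ≤ r → r ≤ u → 2 ≤ ds (q r)) (hK : ds (q a) < K)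
    (hS : tF (q a)) : (∀ r, a ≤ r → r ≤ u → tF (q r)) ∨
      ∃ v, a < v ∧ v ≤ u ∧ (∀ r, a ≤ r → r < v → tF (q r)) ∧ (tA (q v) ∨ tB (q v)) := by
  induction u, hau using Nat.le_induction with
  | base => left; intro r h1 h2; have : r = a := by omega
            rw [this]; exact hS
  | succ u hau ih =>
    have ih := ih (fun r h1 h2 => hd r h1 (by omega))
    have h1 := (hq.ds_back hau (fun r h1 h2 => by have := hd r h1 (by omega); omega)).1
    have h2 := hq.type_step (s := u) (by omega) (hd _ (by omega) le_rfl)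
    rcases ih with ih | ⟨v, hv1, hv2, hv3, hv4⟩
    · rcases h2.2.2.2 (ih u hau le_rfl) with h3 | h3
      · left
        intro r hr1 hr2
        rcases Nat.lt_or_ge r (u + 1) with h4 | h4
        · exact ih r hr1 (by omega)
        · have : r = u + 1 := by omega
          rw [this]; exact h3
      · right
        exact ⟨u + 1, by omega, le_rfl, fun r hr1 hr2 => ih r hr1 (by omega), h3⟩
    · right; exact ⟨v, hv1, by omega, hv3, hv4⟩

/-- the effect of a timer (survivor goes east) on its front zombie -/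
theorem Seq.geoE {K : ℕ} {h e : ℕ → Bool} {q : ℕ → ℤ × ℤ} (hq : Seq K h e q)
    {L₀ L₁ T t0 u : ℕ} {X : ℤ} (hL₀ : 100 ≤ L₀) (hX0 : 0 ≤ X) (hX : 40 * (X + L₀) ≤ L₁)
    (hK : 2 * L₁ ≤ K) (hG : GC L₀ h T) (hu : u ≤ T)
    (ht0 : t0 ≤ u) (hd : ∀ s, t0 ≤ s → s ≤ u → 2 ≤ ds (q s))
    (hx : (q t0).1 < 0) (hy : (q t0).2 < 0) (hx2 : -2 * (q t0).1 ≤ L₁ + 2)
    (hy2 : (L₁ : ℤ) - 1 ≤ -2 * (q t0).2) (hsum : -(q t0).1 - (q t0).2 ≤ L₁ + 1)
    (hex : ∀ s, t0 ≤ s → s ≤ u → s ≤ t0 + 3 * L₁ → ((s : ℤ) - t0) - ct e t0 s ≤ X) :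
    (tF (q u) → (L₁ : ℤ) ≤ 4 * ds (q u)) ∧ (tA (q u) ∨ tB (q u) → 4 ≤ ds (q u)) := by
  have cL₀ : (100 : ℤ) ≤ L₀ := by exact_mod_cast hL₀
  have cK : 2 * (L₁ : ℤ) ≤ K := by exact_mod_cast hK
  have hd1 : ∀ s, t0 ≤ s → s ≤ u → 1 ≤ ds (q s) := fun s h1 h2 => by
    have := hd s h1 h2; linarith
  have hF0 : tF (q t0) := ⟨hx, hy⟩
  have hds0 : ds (q t0) < K := by rw [ds_F hF0]; linarith
  have hKs : ∀ s, t0 ≤ s → s ≤ u → ds (q s) < K := fun s h1 h2 => by
    have := (hq.ds_back h1 (fun r h3 h4 => hd1 r h3 (h4.trans h2))).1; linarith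
  rcases hq.leaveF ht0 hd hds0 hF0 with hall | ⟨v, hv1, hv2, hv3, hv4⟩
  · -- front on the whole interval
    have hbd : u ≤ t0 + 3 * L₁ := by
      by_contra hc
      have hc : t0 + 3 * L₁ < u := by omega
      have hlt : t0 ≤ t0 + 3 * L₁ := Nat.le_add_right _ _
      have h1 := hq.qF (a := t0) (u := t0 + 3 * L₁) hlt
        (fun r h1 h2 => hall r h1 (h2.le.trans hc.le)) (fun r h1 h2 => hKs r h1 (h2.le.trans hc.le))
      have h2 := (hall (t0 + 3 * L₁) hlt hc.le).1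
      have h3 := (hG.lin (a := t0) (b := t0 + 3 * L₁) hlt (hc.le.trans hu)).1
      have h4 := hex (t0 + 3 * L₁) hlt hc.le le_rfl
      rw [h1.1] at h2
      push_cast at h3 h4
      linarith
    have h1 := hq.qF (a := t0) (u := u) ht0
        (fun r h1 h2 => hall r h1 h2.le) (fun r h1 h2 => hKs r h1 h2.le)
    have h2 := hall u ht0 le_rfl
    have h3 := hG.lin ht0 hu
    have h4 := hex u ht0 le_rfl hbd
    have h5 := ds_F h2
    refine ⟨fun _ => ?_, fun h6 => ?_⟩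
    · rw [h5]
      have h7 := h2.1
      rw [h1.1] at h7 ⊢
      rw [h1.2]
      linarith [h3.1, h3.2]
    · unfold tA tB at h6
      unfold tF at h2
      exfalso
      rcases h6 with h6 | h6
      · linarith [h6.2, h2.2]
      · linarith [h6.1, h2.1]
  · -- the crossing time is `v`
    have hF := hq.qF (a := t0) (u := v) hv1.le hv3 (fun r h1 h2 => hKs r h1 (h2.le.trans hv2))
    have hv1' : t0 ≤ v - 1 := by omega
    have hv1'' : v - 1 < v := by omega
    have hF' := hq.qF (a := t0) (u := v - 1) hv1' (fun r h1 h2 => hv3 r h1 (h2.trans hv1''))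
      (fun r h1 h2 => hKs r h1 ((h2.trans hv1'').le.trans hv2))
    have hf1 := (hv3 (v - 1) hv1' hv1'').1
    rw [hF'.1] at hf1
    have hb1 : v - 1 < t0 + 3 * L₁ := by
      by_contra hc
      have hc : t0 + 3 * L₁ < v := by omega
      have hcu : t0 + 3 * L₁ ≤ u := hc.le.trans hv2
      have hlt : t0 ≤ t0 + 3 * L₁ := Nat.le_add_right _ _
      have h1 := hq.qF (a := t0) (u := t0 + 3 * L₁) hlt
        (fun r h1 h2 => hv3 r h1 (h2.trans hc)) (fun r h1 h2 => hKs r h1 (h2.le.trans hcu))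
      have h2 := (hv3 (t0 + 3 * L₁) hlt hc).1
      have h3 := (hG.lin (a := t0) (b := t0 + 3 * L₁) hlt (hcu.trans hu)).1
      have h4 := hex (t0 + 3 * L₁) hlt hcu le_rfl
      rw [h1.1] at h2
      push_cast at h3 h4
      linarith
    have h3 := hG.lin (a := t0) (b := v - 1) hv1' (by omega)
    have h4 := hex (v - 1) hv1' (by omega) hb1.le
    have hvc : ((v - 1 : ℕ) : ℤ) = (v : ℤ) - 1 := by omega
    rw [hvc] at h3 h4
    -- v is about L₁ / 3 after t0
    have hv5 : 149 * ((v : ℤ) - t0) ≤ 50 * L₁ + 100 * X + 50 * L₀ + 250 := by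
      linarith [h3.1, h3.2]
    have h3' := hG.lin (a := t0) (b := v) hv1.le (hv2.trans hu)
    have h4' := hex v hv1.le hv2 (by omega)
    have hyv : (q v).2 * 4 ≤ -L₁ := by
      rw [hF.2]
      linarith [h3'.1, h3'.2]
    have hBv : tB (q v) := by
      rcases hv4 with h5 | h5
      · exfalso; unfold tA at h5; linarith [h5.2]
      · exact h5
    have hdv : ds (q v) < K := hKs v hv1.le hv2
    rcases hq.stayB hv2 (fun r h5 h6 => hd r (hv1.le.trans h5) h6) hdv hBv with hS | hB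
    · unfold tS at hS
      refine ⟨fun h6 => ?_, fun h6 => ?_⟩
      · exfalso; unfold tF at h6; linarith [h6.1, hS.1]
      · exfalso; unfold tA tB at h6
        rcases h6 with h6 | h6
        · linarith [h6.1, hS.1]
        · linarith [h6.2, hS.2]
    · have hBu := hB u hv2 le_rfl
      refine ⟨fun h6 => ?_, fun _ => ?_⟩
      · exfalso; unfold tF at h6; unfold tB at hBu; linarith [h6.1, hBu.1]
      have h6 := hq.qB hv2 (fun r h5 h6 => hB r h5 h6.le)
          (fun r h5 h6 => hKs r (hv1.le.trans h5) h6.le)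
      have h9 := ct_le e hv2
      have h10 := ct_le e hv1.le
      have h11 := hBv.1
      have h12 := hBu.1
      have h13 := hBu.2
      have hub : u ≤ t0 + 3 * L₁ := by
        by_contra hc
        have hc : (t0 : ℤ) + 3 * L₁ < u := by omega
        have h7 := (hG.lin (a := t0) (b := u) ht0 hu).1
        have h8 := ct_add h hv1.le hv2
        have h12' := hF.2
        have h7' := (hG.lin (a := t0) (b := t0 + 3 * L₁) (by omega) (by omega)).1
        have h14 := ct_add (nt h) (show t0 ≤ t0 + 3 * L₁ by omega) (show t0 + 3 * L₁ ≤ u by omega)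
        have h15 := ct_nonneg (nt h) (t0 + 3 * L₁) u
        have h16 := ct_add (nt h) hv1.le hv2
        have h17 := (hG.lin (a := t0) (b := t0 + 3 * L₁) (by omega) (by omega)).2
        rw [ct_nt h (show t0 ≤ t0 + 3 * L₁ by omega)] at h14
        rw [ct_nt h hv1.le, ct_nt h hv2] at h16
        push_cast at h7' h14 h17
        linarith [h6.1, h6.2.1, h6.2.2]
      rw [ds_B hBu]
      have h7 := (hG.lin (a := v) (b := u) hv2 hu).2
      have h8 := ct_add e hv1.le hv2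
      have h9' := hex u ht0 le_rfl hub
      rcases le_or_gt (8 * ((u : ℤ) - v)) (L₁ - 16) with h14 | h14
      · linarith [h6.2.2]
      · linarith [h6.1]

theorem Seq.geoN {K : ℕ} {h e : ℕ → Bool} {q : ℕ → ℤ × ℤ} (hq : Seq K h e q)
    {L₀ L₁ T t0 u : ℕ} {X : ℤ} (hL₀ : 100 ≤ L₀) (hX0 : 0 ≤ X) (hX : 40 * (X + L₀) ≤ L₁)
    (hK : 2 * L₁ ≤ K) (hG : GC L₀ h T) (hu : u ≤ T)
    (ht0 : t0 ≤ u) (hd : ∀ s, t0 ≤ s → s ≤ u → 2 ≤ ds (q s))
    (hx : (q t0).1 < 0) (hy : (q t0).2 < 0) (hx2 : -2 * (q t0).2 ≤ L₁ + 2)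
    (hy2 : (L₁ : ℤ) - 1 ≤ -2 * (q t0).1) (hsum : -(q t0).1 - (q t0).2 ≤ L₁ + 1)
    (hex : ∀ s, t0 ≤ s → s ≤ u → s ≤ t0 + 3 * L₁ → ct e t0 s ≤ X) :
    (tF (q u) → (L₁ : ℤ) ≤ 4 * ds (q u)) ∧ (tA (q u) ∨ tB (q u) → 4 ≤ ds (q u)) := by
  have h1 := hq.swap.geoE hL₀ hX0 hX hK hG.nt hu ht0 (fun s h1 h2 => by
    rw [ds_swap]; exact hd s h1 h2) hy hx hx2 hy2 (by
      show -(q t0).2 - (q t0).1 ≤ L₁ + 1
      linarith) (fun s h1 h2 h3 => by
      rw [ct_nt e h1]
      have := hex s h1 h2 h3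
      linarith)
  simp only [ds_swap] at h1
  refine ⟨fun h2 => h1.1 ⟨h2.2, h2.1⟩, fun h2 => h1.2 ?_⟩
  rcases h2 with h2 | h2
  · right; exact ⟨h2.2, h2.1⟩
  · left; exact ⟨h2.2, h2.1⟩

end MP34e
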