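import Pool.Agent.Work.MP_34e428_co.LLoc2

/-! Lower bound: the survivor and `k` zombies; blocked steps and timers. -/

set_option autoImplicit false

open Finset

namespace MP34e

set_option linter.unusedSimpArgs false

open scoped Classical in
/-- hypotheses of the local analysis. `q s i` : displacement of zombie `i` after `s` rounds,
`mq s i` : after the move of the zombies in round `s + 1`, `m s` : memory, `e s` : the survivor's
move in round `s + 1` -/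
structure Loc (k K R L₁ L₀ M T : ℕ) (c : Fin k → ℕ → Bool) (q mq : ℕ → Fin k → ℤ × ℤ)
    (m : ℕ → Mem) (e : ℕ → Bool) : Prop where
  hL₀ : 100 ≤ L₀
  hL₁ : 1000 * (M + 1) * L₀ ≤ L₁
  hR : 1000 * L₁ ≤ R
  hK : 100 * R ≤ K
  seq : ∀ i, Seq K (c i) e (fun s => q s i)
  mqn : ∀ s i, ds (q s i) < K → mq s i = zm (c i s) (q s i)
  mqf : ∀ s i, ds (q s i) ≤ ds (mq s i) + 1
  dir : ∀ s, e s = dirn R L₁ (m s) (mq s)
  mem : ∀ s, m (s + 1) = nmem R L₁ (m s) (mq s)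
  m0 : m 0 = ⟨0, true, 0, true⟩
  ini : ∀ i, 30 * (R : ℤ) < ds (q 0 i)
  gc : ∀ i, GC L₀ (c i) T
  hM : ∀ u ≤ T, (∀ s ≤ u, ∀ i, 2 ≤ ds (q s i)) → ∀ a, u ≤ a + 12 * R →
      (univ.filter (fun i : Fin k => ∃ s, a ≤ s ∧ s ≤ u ∧
        ((q s i).1 < 0 ∨ (q s i).2 < 0) ∧ ds (q s i) ≤ 30 * R)).card ≤ M
  hF : ∀ u ≤ T, (∀ s ≤ u, ∀ i, 2 ≤ ds (q s i)) → ∀ i j : Fin k, i ≠ j →
      ∀ s s' : ℕ, s ≤ u → s' ≤ u → s ≤ s' + 12 * R → s' ≤ s + 12 * R →
      ¬ (((q s i).1 < 0 ∧ (q s i).2 < 0 ∧ ds (q s i) ≤ 30 * R) ∧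
        ((q s' j).1 < 0 ∧ (q s' j).2 < 0 ∧ ds (q s' j) ≤ 30 * R))

variable {k K R L₁ L₀ M T : ℕ} {c : Fin k → ℕ → Bool} {q mq : ℕ → Fin k → ℤ × ℤ}
    {m : ℕ → Mem} {e : ℕ → Bool}

/-- the induction hypothesis -/
def Inv (R u : ℕ) (q : ℕ → Fin k → ℤ × ℤ) (m : ℕ → Mem) : Prop :=
  ∀ s ≤ u, (∀ i, 2 ≤ ds (q s i)) ∧ (∀ i, tF (q s i) → 10 ≤ ds (q s i)) ∧ |(m s).D| < 2 * R

theorem Inv.two {u : ℕ} (h : Inv R u q m) {s : ℕ} (hs : s ≤ u) (i : Fin k) : 2 ≤ ds (q s i) :=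
  (h s hs).1 i

/-- integer versions of the inequalities between the parameters -/
theorem Loc.num (X : Loc k K R L₁ L₀ M T c q mq m e) :
    (100 : ℤ) ≤ L₀ ∧ 1000 * (L₀ : ℤ) + 1000 * (M * L₀ : ℕ) ≤ L₁ ∧ 1000 * (L₁ : ℤ) ≤ R ∧
      100 * (R : ℤ) ≤ K := by
  refine ⟨by exact_mod_cast X.hL₀, ?_, by exact_mod_cast X.hR, by exact_mod_cast X.hK⟩
  have h := X.hL₁
  have h2 : 1000 * L₀ + 1000 * (M * L₀) ≤ L₁ := by
    calc 1000 * L₀ + 1000 * (M * L₀) = 1000 * (M + 1) * L₀ := by ring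
      _ ≤ L₁ := h
  exact_mod_cast h2

theorem zm_F {h : Bool} {p : ℤ × ℤ} (hp : (zm h p).1 < 0 ∧ (zm h p).2 < 0) : tF p := by
  unfold tF
  rcases zm_cases h p with ⟨a1, a2, h3⟩ | ⟨a1, a2, h3⟩ | ⟨a1, a2, h3⟩ | ⟨a1, a2, h3⟩ |
    ⟨a1, a2, h3⟩ <;> rw [h3] at hp <;> simp only at hp <;> omega

/-- who blocks east -/
theorem block_E {h : Bool} {p : ℤ × ℤ} (hd : 2 ≤ ds p) (hF : tF p → 10 ≤ ds p)
    (hb : |(zm h p).1 + 1| + |(zm h p).2| ≤ 1) : tA p ∧ ds p ≤ 3 := by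
  have h1 := ds_zm h (p := p) (by omega)
  have h2 : ds (zm h p) ≤ 2 := by
    unfold ds
    have h3 := abs_add_le ((zm h p).1 + 1) (-1)
    have h4 : (zm h p).1 + 1 + -1 = (zm h p).1 := by ring
    rw [h4] at h3
    have h5 : |(-1 : ℤ)| = 1 := by norm_num
    omega
  refine ⟨?_, by omega⟩
  have h6 := le_abs_self ((zm h p).1 + 1)
  have h7 := neg_abs_le ((zm h p).1 + 1)
  have h8 := le_abs_self ((zm h p).2)
  have h9 := neg_abs_le ((zm h p).2)
  rcases types p with ht | ht | ht | ht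
  · have := hF ht; omega
  · exact ht
  · exfalso
    have hB := ds_B ht
    unfold tB at ht
    rcases zm_cases h p with ⟨a1, a2, h3⟩ | ⟨a1, a2, h3⟩ | ⟨a1, a2, h3⟩ | ⟨a1, a2, h3⟩ |
      ⟨a1, a2, h3⟩ <;> rw [h3] at h6 h7 h8 h9 hb <;> simp only at h6 h7 h8 h9 hb <;> omega
  · exfalso
    have hB := ds_S ht
    unfold tS at ht
    rcases zm_cases h p with ⟨a1, a2, h3⟩ | ⟨a1, a2, h3⟩ | ⟨a1, a2, h3⟩ | ⟨a1, a2, h3⟩ |
      ⟨a1, a2, h3⟩ <;> rw [h3] at h6 h7 h8 h9 hb <;> simp only at h6 h7 h8 h9 hb <;> omega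

theorem block_N {h : Bool} {p : ℤ × ℤ} (hd : 2 ≤ ds p) (hF : tF p → 10 ≤ ds p)
    (hb : |(zm h p).1| + |(zm h p).2 + 1| ≤ 1) : tB p ∧ ds p ≤ 3 := by
  have h1 := block_E (h := !h) (p := p.swap) (by rw [ds_swap]; exact hd)
    (by rw [ds_swap]; intro h2; exact hF ⟨h2.2, h2.1⟩) (by
      rw [zm_swap]
      show |(zm h p).2 + 1| + |(zm h p).1| ≤ 1
      linarith)
  rw [ds_swap] at h1
  exact ⟨⟨h1.1.2, h1.1.1⟩, h1.2⟩

/-- a zombie which blocks at time `s` -/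
def Blk (mq : ℕ → Fin k → ℤ × ℤ) (s : ℕ) (i : Fin k) : Prop :=
  |(mq s i).1 + 1| + |(mq s i).2| ≤ 1 ∨ |(mq s i).1| + |(mq s i).2 + 1| ≤ 1

theorem Loc.mq_near (X : Loc k K R L₁ L₀ M T c q mq m e) {s : ℕ} {i : Fin k}
    (h : ds (mq s i) + 1 < K) : mq s i = zm (c i s) (q s i) :=
  X.mqn s i (by have := X.mqf s i; omega)

theorem ds_of_blkE {p : ℤ × ℤ} (h : |p.1 + 1| + |p.2| ≤ 1) : ds p ≤ 2 := by
  unfold ds
  have h3 := abs_add_le (p.1 + 1) (-1)
  have h4 : p.1 + 1 + -1 = p.1 := by ring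
  rw [h4] at h3
  have h5 : |(-1 : ℤ)| = 1 := by norm_num
  omega

theorem ds_of_blkN {p : ℤ × ℤ} (h : |p.1| + |p.2 + 1| ≤ 1) : ds p ≤ 2 := by
  have := ds_of_blkE (p := p.swap) (by show |p.2 + 1| + |p.1| ≤ 1; linarith)
  rwa [ds_swap] at this

theorem Loc.blkE (X : Loc k K R L₁ L₀ M T c q mq m e) {u s : ℕ} (hI : Inv R u q m) (hs : s ≤ u)
    {i : Fin k} (h : |(mq s i).1 + 1| + |(mq s i).2| ≤ 1) : tA (q s i) ∧ ds (q s i) ≤ 3 := by
  obtain ⟨n1, n2, n3, n4⟩ := X.num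
  have h1 := X.mq_near (s := s) (i := i) (by have := ds_of_blkE h; omega)
  rw [h1] at h
  exact block_E ((hI s hs).1 i) ((hI s hs).2.1 i) h

theorem Loc.blkN (X : Loc k K R L₁ L₀ M T c q mq m e) {u s : ℕ} (hI : Inv R u q m) (hs : s ≤ u)
    {i : Fin k} (h : |(mq s i).1| + |(mq s i).2 + 1| ≤ 1) : tB (q s i) ∧ ds (q s i) ≤ 3 := by
  obtain ⟨n1, n2, n3, n4⟩ := X.num
  have h1 := X.mq_near (s := s) (i := i) (by have := ds_of_blkN h; omega)
  rw [h1] at h
  exact block_N ((hI s hs).1 i) ((hI s hs).2.1 i) h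

/-- a zombie at distance at most 3 of type A or B is harmless after `2 L₀` rounds -/
theorem Loc.harmless (X : Loc k K R L₁ L₀ M T c q mq m e) {u r s : ℕ} (hu : u ≤ T)
    (hI : Inv R u q m) {i : Fin k}
    (hr : tA (q r i) ∨ tB (q r i)) (h3 : ds (q r i) ≤ 3) (hs : r + 2 * L₀ ≤ s) (hs' : s ≤ u) :
    tS (q s i) := by
  obtain ⟨n1, n2, n3, n4⟩ := X.num
  have hrs : r ≤ s := by omega
  have hKr : ds (q r i) < K := by omega
  have hd : ∀ v, r ≤ v → v ≤ s → 2 ≤ ds (q v i) := fun v _ h2 => hI.two (h2.trans hs') i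
  have hK : ∀ v, r ≤ v → v < s → ds (q v i) < K := fun v h1 h2 => by
    have := ((X.seq i).ds_back h1 (fun w h5 h6 => by
      have := hd w h5 (h6.trans h2.le); omega)).1
    omega
  have hg := ((X.gc i).lin hrs (hs'.trans hu))
  rcases hr with hr | hr
  · rcases (X.seq i).stayA hrs hd hKr hr with h | h
    · exact h
    · exfalso
      have h1 := (X.seq i).qA hrs (fun v h1 h2 => h v h1 h2.le) hK
      have h2 := h s hrs le_rfl
      have h4 := ct_nonneg e r s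
      have h5 := ds_A hr
      unfold tA at hr h2
      omega
  · rcases (X.seq i).stayB hrs hd hKr hr with h | h
    · exact h
    · exfalso
      have h1 := (X.seq i).qB hrs (fun v h1 h2 => h v h1 h2.le) hK
      have h2 := h s hrs le_rfl
      have h4 := ct_le e hrs
      have h5 := ds_B hr
      unfold tB at hr h2
      omega

open scoped Classical in
/-- number of blocked steps in a window -/
theorem Loc.count_blocked (X : Loc k K R L₁ L₀ M T c q mq m e) {u : ℕ} (hu : u ≤ T)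
    (hI : Inv R u q m) {a b : ℕ} (hb : b ≤ u + 1) (hab : b ≤ a + 12 * R) :
    ((Ico a b).filter (fun s => ∃ i, Blk mq s i)).card ≤ 2 * L₀ * M := by
  obtain ⟨n1, n2, n3, n4⟩ := X.num
  rcases Nat.lt_or_ge a b with hlt | hge
  swap
  · rw [Finset.Ico_eq_empty (by omega)]; simp
  set N := univ.filter (fun i : Fin k => ∃ s, a ≤ s ∧ s ≤ b - 1 ∧
        ((q s i).1 < 0 ∨ (q s i).2 < 0) ∧ ds (q s i) ≤ 30 * R) with hN
  have hcard : N.card ≤ M := X.hM (b - 1) (by omega) (fun s hs i => hI.two (by omega) i) a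
    (by omega)
  have hblk : ∀ s i, s ≤ u → Blk mq s i → (tA (q s i) ∨ tB (q s i)) ∧ ds (q s i) ≤ 3 := by
    intro s i hs h
    rcases h with h | h
    · have := X.blkE hI hs h; exact ⟨Or.inl this.1, this.2⟩
    · have := X.blkN hI hs h; exact ⟨Or.inr this.1, this.2⟩
  have hsub : (Ico a b).filter (fun s => ∃ i, Blk mq s i) ⊆
      N.biUnion (fun i => (Ico a b).filter (fun s => Blk mq s i)) := by
    intro s hs
    rw [mem_filter, mem_Ico] at hs
    obtain ⟨⟨h1, h2⟩, i, hi⟩ := hs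
    rw [mem_biUnion]
    have h3 := hblk s i (by omega) hi
    refine ⟨i, ?_, ?_⟩
    · rw [hN, mem_filter]
      refine ⟨mem_univ _, s, h1, by omega, ?_, by omega⟩
      rcases h3.1 with h4 | h4
      · left; exact h4.1
      · right; exact h4.2
    · rw [mem_filter, mem_Ico]; exact ⟨⟨h1, h2⟩, hi⟩
  have hone : ∀ i ∈ N, ((Ico a b).filter (fun s => Blk mq s i)).card ≤ 2 * L₀ := by
    intro i _
    rcases ((Ico a b).filter (fun s => Blk mq s i)).eq_empty_or_nonempty with h | h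
    · rw [h]; simp
    · obtain ⟨r, hr⟩ := h
      set r0 := ((Ico a b).filter (fun s => Blk mq s i)).min' ⟨r, hr⟩ with hr0
      have hr0m := Finset.min'_mem _ (⟨r, hr⟩ : ((Ico a b).filter (fun s => Blk mq s i)).Nonempty)
      rw [← hr0, mem_filter, mem_Ico] at hr0m
      have h3 := hblk r0 i (by omega) hr0m.2
      have hsub2 : (Ico a b).filter (fun s => Blk mq s i) ⊆ Ico r0 (r0 + 2 * L₀) := by
        intro s hs
        have h4 : r0 ≤ s := Finset.min'_le _ _ hs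
        rw [mem_filter, mem_Ico] at hs
        rw [mem_Ico]
        refine ⟨h4, ?_⟩
        by_contra hc
        have h5 := X.harmless hu hI h3.1 h3.2 (s := s) (by omega) (by omega)
        have h6 := hblk s i (by omega) hs.2
        unfold tA tB tS at *
        omega
      calc _ ≤ (Ico r0 (r0 + 2 * L₀)).card := Finset.card_le_card hsub2
        _ = 2 * L₀ := by simp
  calc _ ≤ (N.biUnion (fun i => (Ico a b).filter (fun s => Blk mq s i))).card :=
        Finset.card_le_card hsub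
    _ ≤ N.card * (2 * L₀) := Finset.card_biUnion_le_card_mul _ _ _ hone
    _ ≤ M * (2 * L₀) := Nat.mul_le_mul_right _ hcard
    _ = 2 * L₀ * M := by ring

/-! ### memory -/

theorem Loc.mD (X : Loc k K R L₁ L₀ M T c q mq m e) (s : ℕ) :
    (m (s + 1)).D = (m s).D + (if e s then 1 else -1) := by
  rw [X.mem s, X.dir s]; rfl

theorem Loc.mph (X : Loc k K R L₁ L₀ M T c q mq m e) (s : ℕ) :
    (m (s + 1)).ph = nph R (m s) := by
  rw [X.mem s]; rfl

theorem Loc.mtm (X : Loc k K R L₁ L₀ M T c q mq m e) (s : ℕ) :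
    (m (s + 1)).tm = ntm L₁ (m s) (mq s) - 1 := by
  rw [X.mem s]; rfl

theorem Loc.mdr (X : Loc k K R L₁ L₀ M T c q mq m e) (s : ℕ) :
    (m (s + 1)).dr = ndr L₁ (m s) (mq s) := by
  rw [X.mem s]; rfl

theorem Loc.D_ct (X : Loc k K R L₁ L₀ M T c q mq m e) {a b : ℕ} (hab : a ≤ b) :
    (m b).D = (m a).D + 2 * ct e a b - ((b : ℤ) - a) := by
  induction b, hab using Nat.le_induction with
  | base => simp [ct_self]
  | succ b hab ih =>
    rw [X.mD, ih, ct_succ e hab]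
    push_cast
    split_ifs <;> ring

/-- a timer starts at time `s` -/
def Start (L₁ : ℕ) (mq : ℕ → Fin k → ℤ × ℤ) (m : ℕ → Mem) (s : ℕ) : Prop :=
  (m s).tm = 0 ∧ ∃ i, front L₁ (mq s i)

theorem ntm_start {s : ℕ} (h : Start L₁ mq m s) : ntm L₁ (m s) (mq s) = 3 * L₁ := by
  unfold ntm; exact if_pos h

theorem ntm_not {s : ℕ} (h : ¬ Start L₁ mq m s) : ntm L₁ (m s) (mq s) = (m s).tm := by
  unfold ntm; exact if_neg h

theorem ndr_not {s : ℕ} (h : ¬ Start L₁ mq m s) : ndr L₁ (m s) (mq s) = (m s).dr := by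
  unfold ndr; exact if_neg h

theorem Loc.tm_after (X : Loc k K R L₁ L₀ M T c q mq m e) {t0 : ℕ} (h : Start L₁ mq m t0)
    (j : ℕ) (hj : j < 3 * L₁) : (m (t0 + j + 1)).tm = 3 * L₁ - (j + 1) := by
  induction j with
  | zero =>
    rw [Nat.add_zero, X.mtm, ntm_start h]
  | succ j ih =>
    have ih := ih (by omega)
    have h2 : ¬ Start L₁ mq m (t0 + (j + 1)) := by
      intro h3
      have h4 := h3.1
      rw [← Nat.add_assoc, ih] at h4
      omega
    rw [X.mtm, ntm_not h2, ← Nat.add_assoc, ih]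
    omega

/-- a running timer was started -/
theorem Loc.tm_back (X : Loc k K R L₁ L₀ M T c q mq m e) (s : ℕ) (h : 0 < (m s).tm) :
    ∃ t0, Start L₁ mq m t0 ∧ t0 < s ∧ s + (m s).tm = t0 + 3 * L₁ ∧
      (m s).dr = ndr L₁ (m t0) (mq t0) := by
  induction s with
  | zero => rw [X.m0] at h; simp at h
  | succ s ih =>
    rw [X.mtm] at h
    rw [X.mtm, X.mdr]
    by_cases hs : Start L₁ mq m s
    · rw [ntm_start hs] at h ⊢
      exact ⟨s, hs, by omega, by omega, rfl⟩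
    · rw [ntm_not hs] at h ⊢
      rw [ndr_not hs]
      obtain ⟨t0, h1, h2, h3, h4⟩ := ih (by omega)
      exact ⟨t0, h1, by omega, by omega, h4⟩

theorem Loc.ntm_back (X : Loc k K R L₁ L₀ M T c q mq m e) (s : ℕ)
    (h : 0 < ntm L₁ (m s) (mq s)) :
    ∃ t0, Start L₁ mq m t0 ∧ t0 ≤ s ∧ s < t0 + 3 * L₁ ∧
      ndr L₁ (m s) (mq s) = ndr L₁ (m t0) (mq t0) := by
  by_cases hs : Start L₁ mq m s
  · rw [ntm_start hs] at h
    exact ⟨s, hs, le_rfl, by omega, rfl⟩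
  · rw [ntm_not hs] at h
    rw [ndr_not hs]
    obtain ⟨t0, h1, h2, h3, h4⟩ := X.tm_back s h
    exact ⟨t0, h1, by omega, by omega, h4⟩

/-- the timer runs after a start -/
theorem Loc.ntm_run (X : Loc k K R L₁ L₀ M T c q mq m e) {t0 s : ℕ} (h : Start L₁ mq m t0)
    (h1 : t0 ≤ s) (h2 : s < t0 + 3 * L₁) : 0 < ntm L₁ (m s) (mq s) ∧
      ndr L₁ (m s) (mq s) = ndr L₁ (m t0) (mq t0) := by
  obtain ⟨j, rfl⟩ := Nat.exists_eq_add_of_le h1
  induction j with
  | zero => rw [Nat.add_zero, ntm_start h]; exact ⟨by omega, rfl⟩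
  | succ j ih =>
    have ih := ih (by omega) (by omega)
    have h3 := X.tm_after h j (by omega)
    have h4 : ¬ Start L₁ mq m (t0 + (j + 1)) := by
      intro h5
      have h6 := h5.1
      rw [← Nat.add_assoc, h3] at h6
      omega
    rw [ntm_not h4, ndr_not h4, ← Nat.add_assoc, h3, X.mdr]
    exact ⟨by omega, ih.2⟩

/-- front zombies at distance at most `L₁ + 1` have a running timer -/
theorem Loc.ntm_of_front (X : Loc k K R L₁ L₀ M T c q mq m e) {s : ℕ} {i : Fin k}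
    (h : front L₁ (mq s i)) : 0 < ntm L₁ (m s) (mq s) := by
  obtain ⟨n1, n2, n3, n4⟩ := X.num
  by_cases hs : Start L₁ mq m s
  · rw [ntm_start hs]; omega
  · rw [ntm_not hs]
    by_contra hc
    exact hs ⟨by omega, i, h⟩

/-! ### history of a front zombie -/

theorem Loc.F_pred (X : Loc k K R L₁ L₀ M T c q mq m e) {s : ℕ} {i : Fin k}
    (hd : 2 ≤ ds (q s i)) (hd' : 2 ≤ ds (q (s + 1) i)) (h : tF (q (s + 1) i))
    (hK : ds (q (s + 1) i) + 2 < K) :
    tF (q s i) ∧ ds (q s i) = ds (q (s + 1) i) + 2 ∧ tF (mq s i) ∧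
      ds (mq s i) = ds (q (s + 1) i) + 1 := by
  have h1 : ds (q (s + 1) i) ≤ ds (q s i) ∧ ds (q s i) ≤ ds (q (s + 1) i) + 2 :=
    (X.seq i).ds_step s (by show 1 ≤ ds (q s i); omega)
  have hK' : ds (q s i) < K := by omega
  have h2 := (X.seq i).type_step (s := s) hK' hd'
  have h3 : tF (q s i) := by
    rcases types (q s i) with ht | ht | ht | ht
    · exact ht
    · have := h2.2.1 ht; unfold tA tS tF at *; omega
    · have := h2.2.2.1 ht; unfold tB tS tF at *; omega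
    · have := h2.1 ht; unfold tS tF at *; omega
  have h4 : (q (s + 1) i).1 = (zm (c i s) (q s i)).1 + (if e s then 1 else 0) ∧
    (q (s + 1) i).2 = (zm (c i s) (q s i)).2 + (if e s then 0 else 1) := (X.seq i).near s hK'
  have h5 : tF (mq s i) := by
    rw [X.mqn s i hK']
    unfold tF at h ⊢
    rcases he : e s with _ | _ <;> rw [he] at h4 <;>
      simp only [if_true, if_false, Bool.false_eq_true] at h4 <;> omega
  have h6 := ds_zm (c i s) (p := q s i) (by omega)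
  rw [← X.mqn s i hK'] at h6 h4
  have h7 := ds_F h5
  have h8 := ds_F h
  refine ⟨h3, ?_, h5, ?_⟩
  · rcases he : e s with _ | _ <;> rw [he] at h4 <;>
      simp only [if_true, if_false, Bool.false_eq_true] at h4 <;> omega
  · rcases he : e s with _ | _ <;> rw [he] at h4 <;>
      simp only [if_true, if_false, Bool.false_eq_true] at h4 <;> omega

theorem Loc.F_chain (X : Loc k K R L₁ L₀ M T c q mq m e) {a s : ℕ} {i : Fin k} (has : a ≤ s)
    (hd : ∀ r ≤ s, 2 ≤ ds (q r i)) (h : tF (q s i)) (hK : ds (q s i) + 2 * ((s : ℤ) - a) < K) :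
    tF (q a i) ∧ ds (q a i) = ds (q s i) + 2 * ((s : ℤ) - a) := by
  induction s, has using Nat.le_induction with
  | base => exact ⟨h, by ring⟩
  | succ s has ih =>
    push_cast at hK
    have h1 := X.F_pred (hd s (by omega)) (hd (s + 1) le_rfl) h (by omega)
    have h2 := ih (fun r hr => hd r (by omega)) h1.1 (by omega)
    push_cast
    exact ⟨h2.1, by omega⟩

end MP34e
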