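import Pool.Agent.Work.MP_34e428_co.LLoc3

/-! Lower bound: the strategy keeps the distance at least 2 (module L). -/

set_option autoImplicit false

open Finset

namespace MP34e

set_option linter.unusedSimpArgs false

variable {k K R L₁ L₀ M T : ℕ} {c : Fin k → ℕ → Bool} {q mq : ℕ → Fin k → ℤ × ℤ}
    {m : ℕ → Mem} {e : ℕ → Bool}

/-! ### starts -/

theorem Loc.trig (X : Loc k K R L₁ L₀ M T c q mq m e) {t0 : ℕ} {i : Fin k}
    (h : front L₁ (mq t0 i)) : tF (q t0 i) ∧ ds (q t0 i) ≤ L₁ + 1 ∧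
      mq t0 i = zm (c i t0) (q t0 i) ∧ ds (mq t0 i) = -(mq t0 i).1 - (mq t0 i).2 ∧
      ds (q t0 i) = ds (mq t0 i) + 1 := by
  obtain ⟨n1, n2, n3, n4⟩ := X.num
  obtain ⟨h1, h2, h3⟩ := h
  have h4 : ds (mq t0 i) = -(mq t0 i).1 - (mq t0 i).2 := ds_F ⟨h1, h2⟩
  have h5 := X.mq_near (s := t0) (i := i) (by omega)
  have h6 : tF (q t0 i) := zm_F (h := c i t0) (by rw [← h5]; exact ⟨h1, h2⟩)
  have h7 := ds_F h6
  have h8 := ds_zm (c i t0) (p := q t0 i) (by unfold tF at h6; omega)
  rw [← h5] at h8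
  exact ⟨h6, by omega, h5, h4, by omega⟩

theorem Loc.uniq (X : Loc k K R L₁ L₀ M T c q mq m e) {u : ℕ} (hu : u ≤ T)
    (hI : Inv R u q m) {i j : Fin k} {s s' : ℕ} (hs : s ≤ u) (hs' : s' ≤ u)
    (h1 : s ≤ s' + 12 * R) (h2 : s' ≤ s + 12 * R) (hi : tF (q s i)) (hi' : ds (q s i) ≤ 30 * R)
    (hj : tF (q s' j)) (hj' : ds (q s' j) ≤ 30 * R) : i = j := by
  by_contra hne
  exact X.hF u hu (fun r hr l => hI.two hr l) i j hne s s' hs hs' h1 h2
    ⟨⟨hi.1, hi.2, hi'⟩, ⟨hj.1, hj.2, hj'⟩⟩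

theorem Loc.start_gap (X : Loc k K R L₁ L₀ M T c q mq m e) {u : ℕ} (hu : u ≤ T)
    (hI : Inv R u q m) {t1 t0 : ℕ} (h1 : Start L₁ mq m t1) (h0 : Start L₁ mq m t0)
    (hlt : t1 < t0) (ht0 : t0 ≤ u) : t1 + 12 * R < t0 := by
  obtain ⟨n1, n2, n3, n4⟩ := X.num
  by_contra hc
  have hc : t0 ≤ t1 + 12 * R := by omega
  have h3 : t1 + 3 * L₁ ≤ t0 := by
    by_contra hc2
    have h4 := X.tm_after h1 (t0 - t1 - 1) (by omega)
    have h5 : t1 + (t0 - t1 - 1) + 1 = t0 := by omega
    rw [h5, h0.1] at h4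
    omega
  obtain ⟨i, hi⟩ := h0.2
  obtain ⟨j, hj⟩ := h1.2
  have gi := X.trig hi
  have gj := X.trig hj
  have hij := X.uniq hu hI (i := i) (j := j) ht0 (by omega : t1 ≤ u) hc (by omega) gi.1 (by omega)
    gj.1 (by omega)
  subst hij
  have h6 := X.F_chain (a := t1) (s := t0) (i := i) hlt.le (fun r hr => hI.two (hr.trans ht0) i)
    gi.1 (by omega)
  have h7 := hI.two ht0 i
  omega

theorem Loc.start_far (X : Loc k K R L₁ L₀ M T c q mq m e) {u : ℕ} (hu : u ≤ T)
    (hI : Inv R u q m) {t0 : ℕ} (h0 : Start L₁ mq m t0) (ht0 : t0 ≤ u) {i : Fin k}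
    (hi : front L₁ (mq t0 i)) : (L₁ : ℤ) - 1 ≤ ds (mq t0 i) := by
  obtain ⟨n1, n2, n3, n4⟩ := X.num
  have gi := X.trig hi
  rcases Nat.eq_zero_or_pos t0 with hz | hpos
  · subst hz
    have := X.ini i
    omega
  · obtain ⟨s, rfl⟩ : ∃ s, t0 = s + 1 := ⟨t0 - 1, by omega⟩
    have h1 := X.F_pred (hI.two (by omega : s ≤ u) i) (hI.two ht0 i) gi.1 (by omega)
    by_contra hc
    have h2 : front L₁ (mq s i) := ⟨h1.2.2.1.1, h1.2.2.1.2, by
      have := ds_F h1.2.2.1; omega⟩
    obtain ⟨t1, h3, h4, h5, _⟩ := X.ntm_back s (X.ntm_of_front h2)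
    have h6 := X.start_gap hu hI h3 h0 (by omega) ht0
    omega

/-! ### behaviour of the survivor -/

theorem Loc.dir_free (X : Loc k K R L₁ L₀ M T c q mq m e) {s : ℕ}
    (hD : |(m s).D| < 2 * R) (hb : ¬ ∃ i, Blk mq s i) : e s = pref R L₁ (m s) (mq s) := by
  have h1 : ¬ Eblk (mq s) := fun ⟨i, hi⟩ => hb ⟨i, Or.inl hi⟩
  have h2 : ¬ Nblk (mq s) := fun ⟨i, hi⟩ => hb ⟨i, Or.inr hi⟩
  rw [abs_lt] at hD
  rw [X.dir s]
  unfold dirn
  rw [if_neg (by omega), if_neg (by omega)]
  rcases hp : pref R L₁ (m s) (mq s) with _ | _ <;> simp [h1, h2]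

theorem Loc.dir_avoid (X : Loc k K R L₁ L₀ M T c q mq m e) {s : ℕ}
    (hD : |(m s).D| < 2 * R) (hb : ¬ (Eblk (mq s) ∧ Nblk (mq s))) :
    (e s = true → ¬ Eblk (mq s)) ∧ (e s = false → ¬ Nblk (mq s)) := by
  rw [abs_lt] at hD
  rw [X.dir s]
  unfold dirn
  rw [if_neg (by omega), if_neg (by omega)]
  rcases hp : pref R L₁ (m s) (mq s) with _ | _
  · simp only [Bool.false_eq_true, if_false, decide_eq_true_eq, decide_eq_false_iff_not]
    exact ⟨fun h1 h2 => hb ⟨h2, h1⟩, fun h => h⟩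
  · simp only [if_true, decide_eq_true_eq, decide_eq_false_iff_not, not_not]
    exact ⟨fun h => h, fun h1 h2 => hb ⟨h1, h2⟩⟩

theorem ct_le_card (e : ℕ → Bool) {a b : ℕ} (S : Finset ℕ)
    (h : ∀ r, a ≤ r → r < b → e r = true → r ∈ S) : ct e a b ≤ S.card := by
  unfold ct
  have : (Ico a b).filter (fun t => e t = true) ⊆ S := by
    intro r hr
    rw [mem_filter, mem_Ico] at hr
    exact h r hr.1.1 hr.1.2 hr.2
  exact_mod_cast Finset.card_le_card this

theorem ct_ge_card (e : ℕ → Bool) {a b : ℕ} (hab : a ≤ b) (S : Finset ℕ)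
    (h : ∀ r, a ≤ r → r < b → e r = false → r ∈ S) : ((b : ℤ) - a) - ct e a b ≤ S.card := by
  rw [← ct_nt e hab]
  exact ct_le_card _ _ (fun r h1 h2 h3 => h r h1 h2 (by unfold nt at h3; simpa using h3))

open scoped Classical in
/-- while a timer runs the survivor goes in the direction of the timer -/
theorem Loc.exc_timer (X : Loc k K R L₁ L₀ M T c q mq m e) {u : ℕ} (hu : u ≤ T)
    (hI : Inv R u q m) {t0 s : ℕ} (h0 : Start L₁ mq m t0) (ht0 : t0 ≤ s) (hs : s ≤ u + 1)
    (hs' : s ≤ t0 + 3 * L₁) :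
    (ndr L₁ (m t0) (mq t0) = true → ((s : ℤ) - t0) - ct e t0 s ≤ (2 * L₀ * M : ℕ)) ∧
    (ndr L₁ (m t0) (mq t0) = false → ct e t0 s ≤ (2 * L₀ * M : ℕ)) := by
  obtain ⟨n1, n2, n3, n4⟩ := X.num
  have hc := X.count_blocked hu hI (a := t0) (b := s) hs (by omega)
  have key : ∀ r, t0 ≤ r → r < s → (¬ ∃ i, Blk mq r i) → e r = ndr L₁ (m t0) (mq t0) := by
    intro r h1 h2 h3
    rw [X.dir_free (hI r (by omega)).2.2 h3]
    obtain ⟨h4, h5⟩ := X.ntm_run h0 h1 (by omega)
    unfold pref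
    rw [if_pos h4, h5]
  constructor
  · intro hd
    refine (ct_ge_card e ht0 ((Ico t0 s).filter (fun s => ∃ i, Blk mq s i)) ?_).trans
      (by exact_mod_cast hc)
    intro r h1 h2 h3
    rw [mem_filter, mem_Ico]
    refine ⟨⟨h1, h2⟩, ?_⟩
    by_contra h4
    rw [key r h1 h2 h4, hd] at h3
    exact absurd h3 (by simp)
  · intro hd
    refine (ct_le_card e ((Ico t0 s).filter (fun s => ∃ i, Blk mq s i)) ?_).trans
      (by exact_mod_cast hc)
    intro r h1 h2 h3
    rw [mem_filter, mem_Ico]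
    refine ⟨⟨h1, h2⟩, ?_⟩
    by_contra h4
    rw [key r h1 h2 h4, hd] at h3
    exact absurd h3 (by simp)

/-- a zombie which triggered a timer is harmless -/
theorem Loc.shape (X : Loc k K R L₁ L₀ M T c q mq m e) {u : ℕ} (hu : u ≤ T)
    (hI : Inv R u q m) {t0 u' : ℕ} (h0 : Start L₁ mq m t0) (ht0 : t0 ≤ u) {i : Fin k}
    (hi : front L₁ (mq t0 i)) (h1 : t0 ≤ u') (h2 : u' ≤ u + 1) (h3 : u' ≤ T)
    (hd : ∀ s ≤ u', 2 ≤ ds (q s i)) :
    (tF (q u' i) → (L₁ : ℤ) ≤ 4 * ds (q u' i)) ∧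
      (tA (q u' i) ∨ tB (q u' i) → 4 ≤ ds (q u' i)) := by
  obtain ⟨n1, n2, n3, n4⟩ := X.num
  obtain ⟨g1, g2, g3, g4, g5⟩ := X.trig hi
  have hfar := X.start_far hu hI h0 ht0 hi
  have hst : (m t0).tm = 0 ∧ ∃ i, front L₁ (mq t0 i) := h0
  -- the direction of the timer
  have hdir : ndr L₁ (m t0) (mq t0) = decide ((mq t0 i).2 < (mq t0 i).1) := by
    unfold ndr
    rw [if_pos hst]
    congr 1
    rw [eq_iff_iff]
    constructor
    · rintro ⟨j, hj1, hj2⟩
      obtain ⟨f1, f2, _, _, _⟩ := X.trig hj1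
      have : j = i := X.uniq hu hI ht0 ht0 (by omega) (by omega) f1 (by omega) g1 (by omega)
      rw [this] at hj2
      exact hj2
    · intro hj
      exact ⟨i, hi, hj⟩
  have hxc : (0 : ℤ) ≤ (2 * L₀ * M : ℕ) := by positivity
  have e1 : ((2 * L₀ * M : ℕ) : ℤ) = 2 * (M * L₀ : ℕ) := by push_cast; ring
  have hX : 40 * (((2 * L₀ * M : ℕ) : ℤ) + L₀) ≤ L₁ := by rw [e1]; omega
  have hKL : 2 * L₁ ≤ K := by omega
  have hmv : ∀ v, v ≤ u' → v ≤ u + 1 := fun v hv => hv.trans h2
  have hF1 := ds_F g1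
  have hq1 : (mq t0 i).1 - 1 ≤ (q t0 i).1 ∧ (q t0 i).1 ≤ (mq t0 i).1 ∧
      (mq t0 i).2 - 1 ≤ (q t0 i).2 ∧ (q t0 i).2 ≤ (mq t0 i).2 := by
    unfold tF at g1
    rcases zm_cases (c i t0) (q t0 i) with ⟨a1, a2, b3⟩ | ⟨a1, a2, b3⟩ | ⟨a1, a2, b3⟩ |
      ⟨a1, a2, b3⟩ | ⟨a1, a2, b3⟩ <;> rw [← g3] at b3 <;> rw [b3] <;> simp only <;> omega
  obtain ⟨p1, p2, p3, p4⟩ := hq1
  by_cases hlt : (mq t0 i).2 < (mq t0 i).1
  · have hdt : ndr L₁ (m t0) (mq t0) = true := by rw [hdir]; simpa using hlt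
    refine (X.seq i).geoE (L₀ := L₀) (L₁ := L₁) (T := T) (t0 := t0) (u := u') X.hL₀ hxc hX hKL
      (X.gc i) h3 h1 (fun s _ h5 => hd s h5) g1.1 g1.2 ?_ ?_ ?_ ?_
    · show -2 * (q t0 i).1 ≤ L₁ + 2
      obtain ⟨_, _, hi3⟩ := hi
      omega
    · show (L₁ : ℤ) - 1 ≤ -2 * (q t0 i).2
      omega
    · show -(q t0 i).1 - (q t0 i).2 ≤ L₁ + 1
      omega
    · intro s h5 h6 h7
      exact (X.exc_timer hu hI h0 h5 (h6.trans h2) h7).1 hdt
  · have hdt : ndr L₁ (m t0) (mq t0) = false := by rw [hdir]; simpa using hlt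
    refine (X.seq i).geoN (L₀ := L₀) (L₁ := L₁) (T := T) (t0 := t0) (u := u') X.hL₀ hxc hX hKL
      (X.gc i) h3 h1 (fun s _ h5 => hd s h5) g1.1 g1.2 ?_ ?_ ?_ ?_
    · show -2 * (q t0 i).2 ≤ L₁ + 2
      obtain ⟨_, _, hi3⟩ := hi
      omega
    · show (L₁ : ℤ) - 1 ≤ -2 * (q t0 i).1
      omega
    · show -(q t0 i).1 - (q t0 i).2 ≤ L₁ + 1
      omega
    · intro s h5 h6 h7
      exact (X.exc_timer hu hI h0 h5 (h6.trans h2) h7).2 hdt


/-! ### exceptions -/

open scoped Classical in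
/-- steps not following the phase -/
noncomputable def Exc (R : ℕ) (m : ℕ → Mem) (e : ℕ → Bool) (a b : ℕ) : Finset ℕ :=
  (Ico a b).filter (fun r => e r ≠ nph R (m r))

open scoped Classical in
theorem Loc.exc_sub (X : Loc k K R L₁ L₀ M T c q mq m e) {u : ℕ}
    (hI : Inv R u q m) {a b : ℕ} (hb : b ≤ u + 1) :
    Exc R m e a b ⊆ (Ico a b).filter (fun s => ∃ i, Blk mq s i) ∪
      (Ico a b).filter (fun s => 0 < ntm L₁ (m s) (mq s)) := by
  intro r hr
  unfold Exc at hr
  rw [mem_filter, mem_Ico] at hr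
  rw [mem_union, mem_filter, mem_filter, mem_Ico]
  by_contra hc
  push Not at hc
  have h1 : ¬ ∃ i, Blk mq r i := by
    rintro ⟨i, hi⟩
    exact hc.1 hr.1 i hi
  have h2 : ¬ 0 < ntm L₁ (m r) (mq r) := by
    have := hc.2 hr.1
    omega
  apply hr.2
  rw [X.dir_free (hI r (by omega)).2.2 h1]
  unfold pref
  rw [if_neg h2]

open scoped Classical in
theorem Loc.exc_card (X : Loc k K R L₁ L₀ M T c q mq m e) {u : ℕ} (hu : u ≤ T)
    (hI : Inv R u q m) {a b : ℕ} (hb : b ≤ u + 1) (hab : b ≤ a + R) :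
    (Exc R m e a b).card ≤ 3 * L₁ + 2 * L₀ * M := by
  obtain ⟨n1, n2, n3, n4⟩ := X.num
  have h1 := X.count_blocked hu hI (a := a) (b := b) hb (by omega)
  have h2 : ((Ico a b).filter (fun s => 0 < ntm L₁ (m s) (mq s))).card ≤ 3 * L₁ := by
    rcases ((Ico a b).filter (fun s => 0 < ntm L₁ (m s) (mq s))).eq_empty_or_nonempty with h | h
    · rw [h]; simp
    · obtain ⟨s, hs⟩ := h
      rw [mem_filter, mem_Ico] at hs
      obtain ⟨t0, h3, h4, h5, _⟩ := X.ntm_back s hs.2
      have hsub : (Ico a b).filter (fun s => 0 < ntm L₁ (m s) (mq s)) ⊆ Ico t0 (t0 + 3 * L₁) := by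
        intro s' hs'
        rw [mem_filter, mem_Ico] at hs'
        obtain ⟨t1, g3, g4, g5, _⟩ := X.ntm_back s' hs'.2
        rw [mem_Ico]
        have : t1 = t0 := by
          rcases lt_trichotomy t1 t0 with hl | hl | hl
          · have := X.start_gap hu hI g3 h3 hl (by omega); omega
          · exact hl
          · have := X.start_gap hu hI h3 g3 hl (by omega); omega
        omega
      calc _ ≤ (Ico t0 (t0 + 3 * L₁)).card := Finset.card_le_card hsub
        _ = 3 * L₁ := by simp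
  calc _ ≤ _ := Finset.card_le_card (X.exc_sub hI hb)
    _ ≤ _ := Finset.card_union_le _ _
    _ ≤ 3 * L₁ + 2 * L₀ * M := by omega

open scoped Classical in
theorem Loc.exc_card' (X : Loc k K R L₁ L₀ M T c q mq m e) {u : ℕ} (hu : u ≤ T)
    (hI : Inv R u q m) {a b : ℕ} (hb : b ≤ u + 1) (hab : b ≤ a + R)
    (hn : ∀ s, a ≤ s → s < b → ¬ 0 < ntm L₁ (m s) (mq s)) :
    (Exc R m e a b).card ≤ 2 * L₀ * M := by
  have h1 := X.count_blocked hu hI (a := a) (b := b) hb (by omega)
  have h2 : (Ico a b).filter (fun s => 0 < ntm L₁ (m s) (mq s)) = ∅ := by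
    rw [Finset.filter_eq_empty_iff]
    intro s hs
    rw [mem_Ico] at hs
    exact hn s hs.1 hs.2
  have h3 := Finset.card_le_card (X.exc_sub hI (a := a) hb)
  rw [h2, Finset.union_empty] at h3
  exact h3.trans h1

theorem Loc.D_lip (X : Loc k K R L₁ L₀ M T c q mq m e) {a b : ℕ} (hab : a ≤ b) :
    (m b).D ≤ (m a).D + ((b : ℤ) - a) ∧ (m a).D - ((b : ℤ) - a) ≤ (m b).D := by
  have h1 := X.D_ct hab
  have h2 := ct_nonneg e a b
  have h3 := ct_le e hab
  constructor <;> linarith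

theorem nph_cases (R : ℕ) (mm : Mem) : ((R : ℤ) ≤ mm.D ∧ nph R mm = false) ∨
    (¬ (R : ℤ) ≤ mm.D ∧ mm.D ≤ -(R : ℤ) ∧ nph R mm = true) ∨
    (¬ (R : ℤ) ≤ mm.D ∧ ¬ mm.D ≤ -(R : ℤ) ∧ nph R mm = mm.ph) := by
  unfold nph
  split_ifs with h1 h2
  · exact Or.inl ⟨h1, rfl⟩
  · exact Or.inr (Or.inl ⟨h1, h2, rfl⟩)
  · exact Or.inr (Or.inr ⟨h1, h2, rfl⟩)

/-- in a window of length at most `R` the phase changes at most once -/
theorem Loc.phase_split (X : Loc k K R L₁ L₀ M T c q mq m e) {a b : ℕ} (hab : a ≤ b)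
    (hR : b ≤ a + R) :
    (∀ r, a ≤ r → r < b → nph R (m r) = nph R (m a)) ∨
    ∃ v, a < v ∧ v < b ∧ (∀ r, a ≤ r → r < v → nph R (m r) = nph R (m a)) ∧
      (∀ r, v ≤ r → r < b → nph R (m r) = !nph R (m a)) ∧
      (nph R (m a) = true → (R : ℤ) ≤ (m v).D) ∧ (nph R (m a) = false → (m v).D ≤ -(R : ℤ)) := by
  obtain ⟨n1, n2, n3, n4⟩ := X.num
  induction b, hab using Nat.le_induction with
  | base => left; intro r h1 h2; omega
  | succ b hab ih =>
    rcases Nat.eq_or_lt_of_le hab with heq | hlt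
    · subst heq
      left
      intro r h1 h2
      have : r = a := by omega
      rw [this]
    obtain ⟨d, hd⟩ : ∃ d, b = d + 1 := ⟨b - 1, by omega⟩
    have hph : (m b).ph = nph R (m d) := by rw [hd]; exact X.mph d
    rcases ih (by omega) with h | ⟨v, h1, h2, h3, h4, h5, h6⟩
    · have hdd := h d (by omega) (by omega)
      by_cases heq : nph R (m b) = nph R (m a)
      · left
        intro r hr1 hr2
        rcases Nat.lt_or_ge r b with h7 | h7
        · exact h r hr1 h7
        · have : r = b := by omega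
          rw [this]; exact heq
      · right
        refine ⟨b, by omega, by omega, fun r hr1 hr2 => h r hr1 hr2, ?_, ?_, ?_⟩
        · intro r hr1 hr2
          have : r = b := by omega
          rw [this]
          rcases hx : nph R (m b) with _ | _ <;> rcases hy : nph R (m a) with _ | _ <;>
            simp_all
        · intro ha
          rcases nph_cases R (m b) with h7 | h7 | h7
          · exact h7.1
          · rw [h7.2.2, ha] at heq; exact absurd rfl heq
          · rw [h7.2.2, hph, hdd] at heq; exact absurd rfl heq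
        · intro ha
          rcases nph_cases R (m b) with h7 | h7 | h7
          · rw [h7.2, ha] at heq; exact absurd rfl heq
          · exact h7.2.1
          · rw [h7.2.2, hph, hdd] at heq; exact absurd rfl heq
    · have hdd := h4 d (by omega) (by omega)
      right
      refine ⟨v, h1, by omega, h3, ?_, h5, h6⟩
      intro r hr1 hr2
      rcases Nat.lt_or_ge r b with h7 | h7
      · exact h4 r hr1 h7
      · have hrb : r = b := by omega
        rw [hrb]
        have hl := X.D_lip (a := v) (b := b) (by omega)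
        rcases nph_cases R (m b) with h8 | h8 | h8
        · rcases hy : nph R (m a) with _ | _
          · have := h6 hy
            omega
          · rw [h8.2]; rfl
        · rcases hy : nph R (m a) with _ | _
          · rw [h8.2.2]; rfl
          · have := h5 hy
            omega
        · rw [h8.2.2, hph, hdd]

open scoped Classical in
/-- drift while the phase is constant -/
theorem Loc.drift (X : Loc k K R L₁ L₀ M T c q mq m e) {a b : ℕ} (hab : a ≤ b) (β : Bool)
    (h : ∀ r, a ≤ r → r < b → nph R (m r) = β) :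
    (β = true → (m a).D + ((b : ℤ) - a) - 2 * ((Exc R m e a b).card : ℤ) ≤ (m b).D) ∧
    (β = false → (m b).D ≤ (m a).D - ((b : ℤ) - a) + 2 * ((Exc R m e a b).card : ℤ)) := by
  have h1 := X.D_ct hab
  constructor
  · intro hβ
    have h2 := ct_ge_card e hab (Exc R m e a b) (by
      intro r h3 h4 h5
      unfold Exc
      rw [mem_filter, mem_Ico]
      refine ⟨⟨h3, h4⟩, ?_⟩
      rw [h5, h r h3 h4, hβ]; simp)
    linarith
  · intro hβ
    have h2 := ct_le_card (a := a) (b := b) e (Exc R m e a b) (by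
      intro r h3 h4 h5
      unfold Exc
      rw [mem_filter, mem_Ico]
      refine ⟨⟨h3, h4⟩, ?_⟩
      rw [h5, h r h3 h4, hβ]; simp)
    linarith

theorem Exc_add {a b c' : ℕ} (hab : a ≤ b) (hbc : b ≤ c') :
    (Exc R m e a b).card + (Exc R m e b c').card = (Exc R m e a c').card := by
  classical
  unfold Exc
  rw [← Finset.card_union_of_disjoint, ← Finset.filter_union,
    Finset.Ico_union_Ico_eq_Ico hab hbc]
  exact Finset.disjoint_filter_filter (Finset.Ico_disjoint_Ico_consecutive a b c')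

/-- the walk of the survivor moves a lot -/
theorem Loc.variation (X : Loc k K R L₁ L₀ M T c q mq m e) {a b : ℕ} (hab : a ≤ b)
    (hR : b ≤ a + R) : ∃ r, a ≤ r ∧ r ≤ b ∧
      ((b : ℤ) - a) ≤ 4 * |(m b).D - (m r).D| + 8 * ((Exc R m e a b).card : ℤ) := by
  rcases X.phase_split hab hR with h | ⟨v, h1, h2, h3, h4, _, _⟩
  · refine ⟨a, le_rfl, hab, ?_⟩
    have h1 := X.drift hab (nph R (m a)) h
    have h5 : (0 : ℤ) ≤ ((Exc R m e a b).card : ℤ) := by positivity
    have h6 := le_abs_self ((m b).D - (m a).D)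
    have h7 := neg_abs_le ((m b).D - (m a).D)
    have h8 := abs_nonneg ((m b).D - (m a).D)
    rcases hx : nph R (m a) with _ | _
    · have := h1.2 hx; linarith
    · have := h1.1 hx; linarith
  · have g1 := X.drift (a := a) (b := v) h1.le (nph R (m a)) h3
    have g2 := X.drift (a := v) (b := b) h2.le (!nph R (m a)) h4
    have g3 := Exc_add (R := R) (m := m) (e := e) h1.le h2.le
    have g4 : ((Exc R m e a v).card : ℤ) + ((Exc R m e v b).card : ℤ) =
      ((Exc R m e a b).card : ℤ) := by exact_mod_cast g3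
    have h5 : (0 : ℤ) ≤ ((Exc R m e a v).card : ℤ) := by positivity
    have h5' : (0 : ℤ) ≤ ((Exc R m e v b).card : ℤ) := by positivity
    have h6 := le_abs_self ((m b).D - (m a).D)
    have h7 := neg_abs_le ((m b).D - (m a).D)
    have h6' := le_abs_self ((m b).D - (m v).D)
    have h7' := neg_abs_le ((m b).D - (m v).D)
    have h8 := abs_nonneg ((m b).D - (m a).D)
    have h8' := abs_nonneg ((m b).D - (m v).D)
    have key : ((b : ℤ) - a) ≤ 2 * |(m b).D - (m v).D| + |(m b).D - (m a).D| +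
        4 * ((Exc R m e a b).card : ℤ) := by
      rcases hx : nph R (m a) with _ | _
      · have k1 := g1.2 hx; have k2 := g2.1 (by rw [hx]; rfl); linarith
      · have k1 := g1.1 hx; have k2 := g2.2 (by rw [hx]; rfl); linarith
    rcases le_total |(m b).D - (m v).D| |(m b).D - (m a).D| with h9 | h9
    · exact ⟨a, le_rfl, hab, by linarith⟩
    · exact ⟨v, h1.le, h2.le, by linarith⟩

/-! ### two zombies blocking at the same time -/

theorem Loc.clash (X : Loc k K R L₁ L₀ M T c q mq m e) {a u : ℕ} (hau : a ≤ u) (hu : u ≤ T)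
    (hR : u ≤ a + R) {i j : Fin k} (hi : ∀ r, a ≤ r → r ≤ u → tA (q r i))
    (hj : ∀ r, a ≤ r → r ≤ u → tB (q r j)) (hi3 : ds (q u i) ≤ 3) (hj3 : ds (q u j) ≤ 3)
    (hKi : ∀ r, a ≤ r → r ≤ u → ds (q r i) < K) (hKj : ∀ r, a ≤ r → r ≤ u → ds (q r j) < K) :
    46 * ((u : ℤ) - a) ≤ 200 * L₀ + 1200 + 400 * ((Exc R m e a u).card : ℤ) := by
  obtain ⟨r, hr1, hr2, hr3⟩ := X.variation hau hR
  have h1 := (X.seq i).qA hr2 (fun s h1 h2 => hi s (hr1.trans h1) h2.le)
    (fun s h1 h2 => hKi s (hr1.trans h1) h2.le)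
  have h2 := (X.seq j).qB hr2 (fun s h1 h2 => hj s (hr1.trans h1) h2.le)
    (fun s h1 h2 => hKj s (hr1.trans h1) h2.le)
  have h1' : (q r i).2 + ct (c i) r u - ct e r u ≤ (q u i).2 := h1.1
  have h2' : (q r j).1 + ct e r u - ct (c j) r u ≤ (q u j).1 := h2.1
  have h3 := (X.gc i).lin hr2 hu
  have h4 := (X.gc j).lin hr2 hu
  have h5 := X.D_ct hr2
  have h6 := hi r hr1 hr2
  have h7 := hj r hr1 hr2
  have h8 := (ds_coord (q u i)).2.2.2
  have h9 := (ds_coord (q u j)).2.1
  have hru : (a : ℤ) ≤ r := by exact_mod_cast hr1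
  have h10 : 50 * |(m u).D - (m r).D| ≤ ((u : ℤ) - r) + 50 * L₀ + 300 := by
    rcases abs_cases ((m u).D - (m r).D) with ⟨ha, _⟩ | ⟨ha, _⟩
    · rw [ha]; linarith [h4.2, h7.1]
    · rw [ha]; linarith [h3.1, h6.2]
  linarith

/-- backward history of a zombie of type A or B -/
theorem Loc.hist_AB (X : Loc k K R L₁ L₀ M T c q mq m e) {a u : ℕ} (hau : a ≤ u) {i : Fin k}
    (hd : ∀ r, a ≤ r → r ≤ u → 2 ≤ ds (q r i)) (hK : ∀ r, a ≤ r → r ≤ u → ds (q r i) < K) :
    (tA (q u i) → (∀ r, a ≤ r → r ≤ u → tA (q r i)) ∨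
      ∃ τ, a ≤ τ ∧ τ < u ∧ tF (q τ i) ∧ ∀ r, τ < r → r ≤ u → tA (q r i)) ∧
    (tB (q u i) → (∀ r, a ≤ r → r ≤ u → tB (q r i)) ∨
      ∃ τ, a ≤ τ ∧ τ < u ∧ tF (q τ i) ∧ ∀ r, τ < r → r ≤ u → tB (q r i)) := by
  induction u, hau using Nat.le_induction with
  | base =>
    refine ⟨fun h => Or.inl ?_, fun h => Or.inl ?_⟩ <;>
    · intro r h1 h2
      have : r = a := by omega
      rw [this]; exact h
  | succ u hau ih =>
    have ih := ih (fun r h1 h2 => hd r h1 (by omega)) (fun r h1 h2 => hK r h1 (by omega))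
    have h2 := (X.seq i).type_step (s := u) (hK u hau (by omega)) (hd (u + 1) (by omega) le_rfl)
    have h2S : tS (q u i) → tS (q (u + 1) i) := h2.1
    have h2A : tA (q u i) → tA (q (u + 1) i) ∨ tS (q (u + 1) i) := h2.2.1
    have h2B : tB (q u i) → tB (q (u + 1) i) ∨ tS (q (u + 1) i) := h2.2.2.1
    constructor
    · intro h
      have h3 : tF (q u i) ∨ tA (q u i) := by
        rcases types (q u i) with ht | ht | ht | ht
        · left; exact ht
        · right; exact ht
        · exfalso; have := h2B ht; unfold tA tB tS at *; omega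
        · exfalso; have := h2S ht; unfold tA tS at *; omega
      rcases h3 with h3 | h3
      · right
        refine ⟨u, hau, by omega, h3, fun r h4 h5 => ?_⟩
        have : r = u + 1 := by omega
        rw [this]; exact h
      · rcases ih.1 h3 with h4 | ⟨τ, h5, h6, h7, h8⟩
        · left
          intro r h5 h6
          rcases Nat.lt_or_ge u r with h7 | h7
          · have : r = u + 1 := by omega
            rw [this]; exact h
          · exact h4 r h5 h7
        · right
          refine ⟨τ, h5, by omega, h7, fun r h9 h10 => ?_⟩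
          rcases Nat.lt_or_ge u r with h11 | h11
          · have : r = u + 1 := by omega
            rw [this]; exact h
          · exact h8 r h9 h11
    · intro h
      have h3 : tF (q u i) ∨ tB (q u i) := by
        rcases types (q u i) with ht | ht | ht | ht
        · left; exact ht
        · exfalso; have := h2A ht; unfold tA tB tS at *; omega
        · right; exact ht
        · exfalso; have := h2S ht; unfold tB tS at *; omega
      rcases h3 with h3 | h3
      · right
        refine ⟨u, hau, by omega, h3, fun r h4 h5 => ?_⟩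
        have : r = u + 1 := by omega
        rw [this]; exact h
      · rcases ih.2 h3 with h4 | ⟨τ, h5, h6, h7, h8⟩
        · left
          intro r h5 h6
          rcases Nat.lt_or_ge u r with h7 | h7
          · have : r = u + 1 := by omega
            rw [this]; exact h
          · exact h4 r h5 h7
        · right
          refine ⟨τ, h5, by omega, h7, fun r h9 h10 => ?_⟩
          rcases Nat.lt_or_ge u r with h11 | h11
          · have : r = u + 1 := by omega
            rw [this]; exact h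
          · exact h8 r h9 h11

/-- a running timer in the neighbourhood of a front zombie belongs to this zombie -/
theorem Loc.timer_own (X : Loc k K R L₁ L₀ M T c q mq m e) {u : ℕ} (hu : u ≤ T)
    (hI : Inv R u q m) {s τ : ℕ} (hs : s ≤ u) (hτ : τ ≤ u) {i : Fin k} (hF : tF (q τ i))
    (hdi : ds (q τ i) ≤ 30 * R) (h1 : s ≤ τ + R) (h2 : τ ≤ s + R)
    (hn : 0 < ntm L₁ (m s) (mq s)) :
    ∃ t0, Start L₁ mq m t0 ∧ t0 ≤ s ∧ s < t0 + 3 * L₁ ∧ front L₁ (mq t0 i) := by
  obtain ⟨n1, n2, n3, n4⟩ := X.num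
  obtain ⟨t0, h3, h4, h5, _⟩ := X.ntm_back s hn
  obtain ⟨j, hj⟩ := h3.2
  have g := X.trig hj
  have : j = i := X.uniq hu hI (i := j) (j := i) (s := t0) (s' := τ) (h4.trans hs) hτ (by omega)
    (by omega) g.1 (by omega) hF hdi
  rw [this] at hj
  exact ⟨t0, h3, h4, h5, hj⟩

/-- a crossing zombie which comes near was not seen before -/
theorem Loc.cross (X : Loc k K R L₁ L₀ M T c q mq m e) {u : ℕ} (hu : u ≤ T)
    (hI : Inv R u q m) {τ : ℕ} (hτ : τ < u) (hτ' : u ≤ τ + R) {i : Fin k}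
    (hF : tF (q τ i)) (hAB : tA (q u i) ∨ tB (q u i)) (h3 : ds (q u i) ≤ 3) :
    (L₁ : ℤ) ≤ 2 * ((u : ℤ) - τ) + 3 ∧
      ∀ s, τ < s → s < u → ¬ 0 < ntm L₁ (m s) (mq s) := by
  obtain ⟨n1, n2, n3, n4⟩ := X.num
  have hb := (X.seq i).ds_back (s := τ) (u := u) hτ.le (fun r _ h2 => by
    have := hI.two h2 i; omega)
  have hb1 : ds (q τ i) ≤ ds (q u i) + 2 * ((u : ℤ) - τ) := hb.2
  have hno : ∀ t0, Start L₁ mq m t0 → t0 ≤ u → ¬ front L₁ (mq t0 i) := by
    intro t0 h0 ht0 hf
    have := (X.shape hu hI h0 ht0 hf ht0 (by omega) hu (fun s hs => hI.two hs i)).2 hAB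
    omega
  refine ⟨?_, ?_⟩
  · rcases Nat.eq_zero_or_pos τ with hz | hpos
    · subst hz
      have := X.ini i
      omega
    · obtain ⟨s, rfl⟩ : ∃ s, τ = s + 1 := ⟨τ - 1, by omega⟩
      have h1 := X.F_pred (hI.two (by omega : s ≤ u) i) (hI.two hτ.le i) hF (by omega)
      by_contra hc
      have h2 : front L₁ (mq s i) := ⟨h1.2.2.1.1, h1.2.2.1.2, by
        have := ds_F h1.2.2.1; omega⟩
      obtain ⟨t0, g1, g2, g3, g4⟩ := X.timer_own hu hI (s := s) (τ := s + 1) (by omega) hτ.le hF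
        (by omega) (by omega) (by omega) (X.ntm_of_front h2)
      exact hno t0 g1 (by omega) g4
  · intro s h4 h5 h6
    obtain ⟨t0, g1, g2, g3, g4⟩ := X.timer_own hu hI (s := s) (τ := τ) h5.le hτ.le hF
        (by omega) (by omega) (by omega) h6
    exact hno t0 g1 (by omega) g4

theorem Loc.no_double (X : Loc k K R L₁ L₀ M T c q mq m e) {u : ℕ} (hu : u ≤ T)
    (hI : Inv R u q m) : ¬ (Eblk (mq u) ∧ Nblk (mq u)) := by
  obtain ⟨n1, n2, n3, n4⟩ := X.num
  rintro ⟨⟨i, hi⟩, ⟨j, hj⟩⟩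
  obtain ⟨hiA, hi3⟩ := X.blkE hI le_rfl hi
  obtain ⟨hjB, hj3⟩ := X.blkN hI le_rfl hj
  have hback : ∀ (l : Fin k) (r : ℕ), r ≤ u → ds (q r l) ≤ ds (q u l) + 2 * ((u : ℤ) - r) := by
    intro l r hr
    exact ((X.seq l).ds_back (s := r) (u := u) hr (fun v _ h2 => by
      have := hI.two h2 l; omega)).2
  have hRu : R ≤ u := by
    have h1 := hback i 0 (Nat.zero_le _)
    have h2 := X.ini i
    push_cast at h1
    omega
  obtain ⟨a, ha⟩ : ∃ a, u = a + R := ⟨u - R, by omega⟩
  have hau : a ≤ u := by omega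
  have hKi : ∀ r, a ≤ r → r ≤ u → ds (q r i) < K := fun r h1 h2 => by
    have := hback i r h2; omega
  have hKj : ∀ r, a ≤ r → r ≤ u → ds (q r j) < K := fun r h1 h2 => by
    have := hback j r h2; omega
  have hdi : ∀ r, a ≤ r → r ≤ u → 2 ≤ ds (q r i) := fun r h1 h2 => hI.two h2 i
  have hdj : ∀ r, a ≤ r → r ≤ u → 2 ≤ ds (q r j) := fun r h1 h2 => hI.two h2 j
  have hM0 : (0 : ℤ) ≤ (M * L₀ : ℕ) := by positivity
  have e1 : ((2 * L₀ * M : ℕ) : ℤ) = 2 * (M * L₀ : ℕ) := by push_cast; ring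
  rcases (X.hist_AB hau hdi hKi).1 hiA with hio | ⟨τ, t1, t2, t3, t4⟩
  · rcases (X.hist_AB hau hdj hKj).2 hjB with hjo | ⟨τ, t1, t2, t3, t4⟩
    · -- both are old
      have h1 := X.clash hau hu (by omega) hio hjo hi3 hj3 hKi hKj
      have h2 := X.exc_card hu hI (a := a) (b := u) (by omega) (by omega)
      have h3 : ((Exc R m e a u).card : ℤ) ≤ 3 * L₁ + (2 * L₀ * M : ℕ) := by exact_mod_cast h2
      rw [e1] at h3
      have h4 : (u : ℤ) - a = R := by omega
      rw [h4] at h1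
      omega
    · -- `j` crossed
      have h1 := X.cross hu hI t2 (by omega) t3 (Or.inr hjB) hj3
      have h2 := X.clash (a := τ + 1) (u := u) (by omega) hu (by omega)
        (fun r h1 h2 => hio r (by omega) h2) (fun r h1 h2 => t4 r (by omega) h2) hi3 hj3
        (fun r h1 h2 => hKi r (by omega) h2) (fun r h1 h2 => hKj r (by omega) h2)
      have h3 := X.exc_card' hu hI (a := τ + 1) (b := u) (by omega) (by omega)
        (fun s h3 h4 => h1.2 s (by omega) h4)
      have h4 : ((Exc R m e (τ + 1) u).card : ℤ) ≤ (2 * L₀ * M : ℕ) := by exact_mod_cast h3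
      rw [e1] at h4
      push_cast at h2
      omega
  · have hjo : ∀ r, a ≤ r → r ≤ u → tB (q r j) := by
      rcases (X.hist_AB hau hdj hKj).2 hjB with hjo | ⟨τ', s1, s2, s3, s4⟩
      · exact hjo
      · exfalso
        have h1 := hback i τ t2.le
        have h2 := hback j τ' s2.le
        have : i = j := X.uniq hu hI (s := τ) (s' := τ') t2.le s2.le (by omega) (by omega) t3
          (by omega) s3 (by omega)
        subst this
        unfold tA tB at *
        omega
    have h1 := X.cross hu hI t2 (by omega) t3 (Or.inl hiA) hi3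
    have h2 := X.clash (a := τ + 1) (u := u) (by omega) hu (by omega)
      (fun r h1 h2 => t4 r (by omega) h2) (fun r h1 h2 => hjo r (by omega) h2) hi3 hj3
      (fun r h1 h2 => hKi r (by omega) h2) (fun r h1 h2 => hKj r (by omega) h2)
    have h3 := X.exc_card' hu hI (a := τ + 1) (b := u) (by omega) (by omega)
      (fun s h3 h4 => h1.2 s (by omega) h4)
    have h4 : ((Exc R m e (τ + 1) u).card : ℤ) ≤ (2 * L₀ * M : ℕ) := by exact_mod_cast h3
    rw [e1] at h4
    push_cast at h2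
    omega

/-! ### the induction -/

theorem Loc.step (X : Loc k K R L₁ L₀ M T c q mq m e) {u : ℕ} (hu : u + 1 ≤ T)
    (hI : Inv R u q m) : Inv R (u + 1) q m := by
  obtain ⟨n1, n2, n3, n4⟩ := X.num
  have hM0 : (0 : ℤ) ≤ (M * L₀ : ℕ) := by positivity
  have e1 : ((2 * L₀ * M : ℕ) : ℤ) = 2 * (M * L₀ : ℕ) := by push_cast; ring
  have huT : u ≤ T := by omega
  -- distance at least two
  have h2 : ∀ i, 2 ≤ ds (q (u + 1) i) := by
    intro i
    rcases lt_or_ge (ds (q u i)) K with hK | hK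
    · have hn : (q (u + 1) i).1 = (zm (c i u) (q u i)).1 + (if e u then 1 else 0) ∧
        (q (u + 1) i).2 = (zm (c i u) (q u i)).2 + (if e u then 0 else 1) :=
        (X.seq i).near u hK
      rw [← X.mqn u i hK] at hn
      have hav := X.dir_avoid (hI u le_rfl).2.2 (X.no_double huT hI)
      rcases he : e u with _ | _
      · have h3 := hav.2 he
        rw [he] at hn
        simp only [Bool.false_eq_true, if_false, add_zero] at hn
        unfold ds
        rw [hn.1, hn.2]
        by_contra hc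
        exact h3 ⟨i, by omega⟩
      · have h3 := hav.1 he
        rw [he] at hn
        simp only [if_true, add_zero] at hn
        unfold ds
        rw [hn.1, hn.2]
        by_contra hc
        exact h3 ⟨i, by omega⟩
    · have h3 : ds (q u i) ≤ ds (q (u + 1) i) + 2 :=
        ((X.seq i).ds_step u (by show 1 ≤ ds (q u i); omega)).2
      omega
  have h2' : ∀ s ≤ u + 1, ∀ i, 2 ≤ ds (q s i) := by
    intro s hs i
    rcases Nat.lt_or_ge u s with h3 | h3
    · have : s = u + 1 := by omega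
      rw [this]; exact h2 i
    · exact hI.two h3 i
  -- front zombies
  have hF : ∀ i, tF (q (u + 1) i) → 10 ≤ ds (q (u + 1) i) := by
    intro i hi
    by_contra hc
    have h1 := X.F_pred (hI.two le_rfl i) (h2 i) hi (by omega)
    have h3 : front L₁ (mq u i) := ⟨h1.2.2.1.1, h1.2.2.1.2, by
        have := ds_F h1.2.2.1; omega⟩
    obtain ⟨t0, g1, g2, g3, g4⟩ := X.timer_own huT hI (s := u) (τ := u) le_rfl le_rfl h1.1
        (by omega) (by omega) (by omega) (X.ntm_of_front h3)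
    have := (X.shape huT hI g1 g2 g4 (u' := u + 1) (by omega) le_rfl hu
      (fun s hs => h2' s hs i)).1 hi
    omega
  -- the walk
  have hD : |(m (u + 1)).D| < 2 * R := by
    have hD0 : (m 0).D = 0 := by rw [X.m0]
    have hl := X.D_lip (a := 0) (b := u + 1) (by omega)
    rw [hD0] at hl
    rcases Nat.lt_or_ge (u + 1) R with hlt | hge
    · rw [abs_lt]; push_cast at hl; constructor <;> omega
    · obtain ⟨a, ha⟩ : ∃ a, u + 1 = a + R := ⟨u + 1 - R, by omega⟩
      have h1 := X.exc_card huT hI (a := a) (b := u + 1) le_rfl (by omega)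
      have h3 : ((Exc R m e a (u + 1)).card : ℤ) ≤ 3 * L₁ + (2 * L₀ * M : ℕ) := by
        exact_mod_cast h1
      rw [e1] at h3
      have haI := (hI a (by omega)).2.2
      rw [abs_lt] at haI ⊢
      have h4 : ∀ r, a ≤ r → r < u + 1 → (m (u + 1)).D ≤ (m r).D + R ∧
          (m r).D - R ≤ (m (u + 1)).D := by
        intro r hr1 hr2
        have := X.D_lip (a := r) (b := u + 1) hr2.le
        push_cast at this
        constructor <;> omega
      constructor
      · by_contra hc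
        have h5 := (X.drift (a := a) (b := u + 1) (by omega) true (by
          intro r hr1 hr2
          have := h4 r hr1 hr2
          rcases nph_cases R (m r) with h6 | h6 | h6
          · omega
          · exact h6.2.2
          · omega)).1 rfl
        push_cast at h5
        omega
      · by_contra hc
        have h5 := (X.drift (a := a) (b := u + 1) (by omega) false (by
          intro r hr1 hr2
          have := h4 r hr1 hr2
          rcases nph_cases R (m r) with h6 | h6 | h6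
          · exact h6.2
          · omega
          · omega)).2 rfl
        push_cast at h5
        omega
  intro s hs
  rcases Nat.lt_or_ge u s with h3 | h3
  · have : s = u + 1 := by omega
    rw [this]; exact ⟨h2, hF, hD⟩
  · exact hI s h3

theorem Loc.inv (X : Loc k K R L₁ L₀ M T c q mq m e) (u : ℕ) (hu : u ≤ T) : Inv R u q m := by
  obtain ⟨n1, n2, n3, n4⟩ := X.num
  induction u with
  | zero =>
    intro s hs
    have : s = 0 := by omega
    subst this
    refine ⟨fun i => ?_, fun i _ => ?_, ?_⟩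
    · have := X.ini i; omega
    · have := X.ini i; omega
    · rw [X.m0]; simp; omega
  | succ u ih => exact X.step hu (ih (by omega))

/-- module L, abstract form -/
theorem Loc.two_le (X : Loc k K R L₁ L₀ M T c q mq m e) {t : ℕ} (ht : t ≤ T) (i : Fin k) :
    2 ≤ ds (q t i) := (X.inv t ht).two le_rfl i

end MP34e
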