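import Pool.Agent.Work.MP_34e428_co.LDefs

/-! Module P1 of the lower bound: counting possible initial values. -/

set_option autoImplicit false

open Finset
open scoped Classical

namespace MP34e

theorem card_le_of_diff (S : Finset ℤ) (m : ℕ) (h : ∀ x ∈ S, ∀ y ∈ S, x - y ≤ m) :
    S.card ≤ m + 1 := by
  rcases S.eq_empty_or_nonempty with h0 | h0
  · subst h0; simp
  · have hsub : S ⊆ Icc (S.min' h0) (S.min' h0 + m) := by
      intro x hx
      rw [Finset.mem_Icc]
      exact ⟨S.min'_le x hx, by have := h x hx _ (S.min'_mem h0); omega⟩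
    have := Finset.card_le_card hsub
    rw [Int.card_Icc] at this
    omega

theorem card_Pre (K R : ℕ) (g : ℕ → Bool) (t : ℕ) (v : ℤ) (w : ℕ) :
    ((Icc (-(K : ℤ)) K).filter (fun x => Pre K R g t v w x)).card ≤ 6 * w + 10 * R + 3 := by
  set I := Icc (-(K : ℤ)) K
  set A := I.filter (fun x => |2 * x - (2 * v - 2 * ct g 0 t - t)| ≤ 2 * w + 2 * R) with hA
  set B := I.filter (fun x => |2 * x - (2 * v + 2 * ct g 0 t - t)| ≤ 2 * w + 2 * R) with hB
  set C := I.filter (fun x => ∃ σ < t, |2 * x - (2 * K + 2 * ct g 0 σ - σ)| ≤ 2 * R ∧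
    |2 * v + 2 * K + 2 - 2 * ct g σ t - ((t : ℤ) - σ)| ≤ 2 * w + 4 * R) with hC
  have hsub : I.filter (fun x => Pre K R g t v w x) ⊆ A ∪ (B ∪ C) := by
    intro x hx
    rw [Finset.mem_filter] at hx
    obtain ⟨h1, h2⟩ := hx
    rcases h2 with h2 | h2 | h2
    · exact Finset.mem_union_left _ (by rw [hA, Finset.mem_filter]; exact ⟨h1, h2⟩)
    · exact Finset.mem_union_right _ (Finset.mem_union_left _
        (by rw [hB, Finset.mem_filter]; exact ⟨h1, h2⟩))
    · exact Finset.mem_union_right _ (Finset.mem_union_right _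
        (by rw [hC, Finset.mem_filter]; exact ⟨h1, h2⟩))
  have hcA : A.card ≤ (2 * w + 2 * R) + 1 := by
    apply card_le_of_diff
    intro x hx y hy
    rw [hA, Finset.mem_filter] at hx hy
    have h1 := abs_le.mp hx.2
    have h2 := abs_le.mp hy.2
    push_cast
    omega
  have hcB : B.card ≤ (2 * w + 2 * R) + 1 := by
    apply card_le_of_diff
    intro x hx y hy
    rw [hB, Finset.mem_filter] at hx hy
    have h1 := abs_le.mp hx.2
    have h2 := abs_le.mp hy.2
    push_cast
    omega
  have hcC : C.card ≤ (2 * w + 6 * R) + 1 := by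
    apply card_le_of_diff
    intro x hx y hy
    rw [hC, Finset.mem_filter] at hx hy
    obtain ⟨_, s, hs, hx1, hx2⟩ := hx
    obtain ⟨_, s', hs', hy1, hy2⟩ := hy
    rw [abs_le] at hx1 hx2 hy1 hy2
    push_cast
    rcases le_total s s' with hle | hle
    · have e1 := ct_add g hle hs'.le
      have e2 := ct_add g (Nat.zero_le s) hle
      have e3 := ct_nonneg g s s'
      have e4 := ct_le g hle
      omega
    · have e1 := ct_add g hle hs.le
      have e2 := ct_add g (Nat.zero_le s') hle
      have e3 := ct_nonneg g s' s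
      have e4 := ct_le g hle
      omega
  have h1 := Finset.card_le_card hsub
  have h2 := Finset.card_union_le A (B ∪ C)
  have h3 := Finset.card_union_le B C
  omega

end MP34e
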