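import Mathlib

/-! The displacement walk of one zombie against a survivor that follows fixed steps. -/

open Finset
open scoped Classical

namespace MP34e

/-- horizontal zombie move (on displacements survivor minus zombie) -/
def hx (D : ℤ × ℤ) : ℤ × ℤ := (D.1 - D.1.sign, D.2)

/-- vertical zombie move -/
def hy (D : ℤ × ℤ) : ℤ × ℤ := (D.1, D.2 - D.2.sign)

/-- a survivor step: stay or move to one of the four neighbours -/
def legal (s : ℤ × ℤ) : Prop := |s.1| + |s.2| ≤ 1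

/-- Probability that a zombie at displacement `D` (survivor minus zombie) catches a survivor whose
successive steps are those of the list; the zombie moves first. -/
noncomputable def pc : List (ℤ × ℤ) → ℤ × ℤ → ℝ
  | [], D => if D = 0 then 1 else 0
  | s :: l, D =>
      if D = 0 then 1
      else if D.1 = 0 then (if hy D = 0 then 1 else pc l (hy D + s))
      else if D.2 = 0 then (if hx D = 0 then 1 else pc l (hx D + s))
      else (pc l (hx D + s) + pc l (hy D + s)) / 2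

/-- total capture mass -/
noncomputable def mass (l : List (ℤ × ℤ)) : ℝ := ∑' D : ℤ × ℤ, pc l D

/-- the capture mass just after the zombie move, collected along the two axes -/
noncomputable def axes (l : List (ℤ × ℤ)) (s : ℤ × ℤ) : ℝ :=
  ∑' a : ℤ, if a = 0 then 0 else pc l ((a, 0) + s) + pc l ((0, a) + s)

theorem pc_nonneg (l : List (ℤ × ℤ)) (D : ℤ × ℤ) : 0 ≤ pc l D := by
  induction l generalizing D with
  | nil => unfold pc; positivity
  | cons s l ih =>
    unfold pc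
    have h1 := ih (hx D + s)
    have h2 := ih (hy D + s)
    split_ifs <;> linarith

theorem pc_le_one (l : List (ℤ × ℤ)) (D : ℤ × ℤ) : pc l D ≤ 1 := by
  induction l generalizing D with
  | nil => unfold pc; split_ifs <;> norm_num
  | cons s l ih =>
    unfold pc
    have h1 := ih (hx D + s)
    have h2 := ih (hy D + s)
    split_ifs <;> linarith

theorem abs_sub_sign (a : ℤ) (h : a ≠ 0) : |a - a.sign| = |a| - 1 := by
  rcases lt_trichotomy a 0 with h1 | h1 | h1
  · rw [Int.sign_eq_neg_one_of_neg h1, abs_of_neg h1, abs_of_nonpos (by omega)]; omega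
  · exact absurd h1 h
  · rw [Int.sign_eq_one_of_pos h1, abs_of_pos h1, abs_of_nonneg (by omega)]

theorem hx_fst (D : ℤ × ℤ) : (hx D).1 = D.1 - D.1.sign := rfl
theorem hx_snd (D : ℤ × ℤ) : (hx D).2 = D.2 := rfl
theorem hy_fst (D : ℤ × ℤ) : (hy D).1 = D.1 := rfl
theorem hy_snd (D : ℤ × ℤ) : (hy D).2 = D.2 - D.2.sign := rfl

theorem pc_support (l : List (ℤ × ℤ)) (hl : ∀ s ∈ l, legal s) (D : ℤ × ℤ) (h : pc l D ≠ 0) :
    |D.1| + |D.2| ≤ 2 * l.length := by
  induction l generalizing D with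
  | nil =>
    unfold pc at h
    split_ifs at h with h1
    · rw [h1]; simp
    · exact absurd rfl h
  | cons s l ih =>
    have hs : |s.1| + |s.2| ≤ 1 := hl s (by simp)
    have ih' := ih (fun s hs => hl s (by simp [hs]))
    have step : ∀ E : ℤ × ℤ, |E.1| + |E.2| ≤ |D.1| + |D.2| - 1 → True := fun _ _ => trivial
    unfold pc at h
    push_cast [List.length_cons]
    have tri : ∀ E : ℤ × ℤ, |E.1| + |E.2| = |D.1| + |D.2| - 1 → pc l (E + s) ≠ 0 →
        |D.1| + |D.2| ≤ 2 * ((l.length : ℤ) + 1) := by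
      intro E hE hne
      have h1 := ih' (E + s) hne
      have h2 : |E.1| ≤ |E.1 + s.1| + |s.1| := by
        have := abs_sub (E.1 + s.1) s.1
        simpa using this
      have h3 : |E.2| ≤ |E.2 + s.2| + |s.2| := by
        have := abs_sub (E.2 + s.2) s.2
        simpa using this
      simp only [Prod.fst_add, Prod.snd_add] at h1
      linarith
    have hxe : D.1 ≠ 0 → |(hx D).1| + |(hx D).2| = |D.1| + |D.2| - 1 := by
      intro h0
      rw [hx_fst, hx_snd, abs_sub_sign _ h0]; ring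
    have hye : D.2 ≠ 0 → |(hy D).1| + |(hy D).2| = |D.1| + |D.2| - 1 := by
      intro h0
      rw [hy_fst, hy_snd, abs_sub_sign _ h0]; ring
    have z0 : ∀ E : ℤ × ℤ, |E.1| + |E.2| = |D.1| + |D.2| - 1 → E = 0 →
        |D.1| + |D.2| ≤ 2 * ((l.length : ℤ) + 1) := by
      intro E hE h0
      rw [h0] at hE
      simp at hE
      have : (0 : ℤ) ≤ l.length := by positivity
      linarith
    split_ifs at h with h1 h2 h3 h4 h5
    · rw [h1]; simp; positivity
    · have : D.2 ≠ 0 := fun h0 => h1 (Prod.ext h2 h0)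
      exact z0 _ (hye this) h3
    · have : D.2 ≠ 0 := fun h0 => h1 (Prod.ext h2 h0)
      exact tri _ (hye this) h
    · exact z0 _ (hxe h2) h5
    · exact tri _ (hxe h2) h
    · by_cases h6 : pc l (hx D + s) = 0
      · have h7 : pc l (hy D + s) ≠ 0 := by
          intro h8; apply h; rw [h6, h8]; norm_num
        exact tri _ (hye h4) h7
      · exact tri _ (hxe h2) h6

/-- the box of radius `R` -/
noncomputable def box (R : ℕ) : Finset (ℤ × ℤ) := Icc (-(R : ℤ)) R ×ˢ Icc (-(R : ℤ)) R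

theorem mem_box (R : ℕ) (D : ℤ × ℤ) : D ∈ box R ↔ |D.1| ≤ R ∧ |D.2| ≤ R := by
  unfold box
  rw [Finset.mem_product, Finset.mem_Icc, Finset.mem_Icc, abs_le, abs_le]

theorem mass_eq (l : List (ℤ × ℤ)) (hl : ∀ s ∈ l, legal s) (R : ℕ) (hR : 2 * l.length ≤ R) :
    mass l = ∑ D ∈ box R, pc l D := by
  unfold mass
  apply tsum_eq_sum
  intro D hD
  by_contra h
  apply hD
  have h1 := pc_support l hl D h
  rw [mem_box]
  have h2 := abs_nonneg D.1
  have h3 := abs_nonneg D.2
  have h4 : (2 * (l.length : ℤ)) ≤ R := by exact_mod_cast hR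
  constructor <;> linarith

theorem pc_add_zero_of (l : List (ℤ × ℤ)) (hl : ∀ s ∈ l, legal s) (s : ℤ × ℤ) (hs : legal s)
    (R : ℕ) (hR : 2 * l.length + 1 ≤ R) (D : ℤ × ℤ) (hD : D ∉ box R) : pc l (D + s) = 0 := by
  by_contra h
  apply hD
  have h1 := pc_support l hl _ h
  rw [mem_box]
  have h4 : (2 * (l.length : ℤ)) + 1 ≤ R := by exact_mod_cast hR
  unfold legal at hs
  simp only [Prod.fst_add, Prod.snd_add] at h1
  have h2 : |D.1| ≤ |D.1 + s.1| + |s.1| := by
    have := abs_sub (D.1 + s.1) s.1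
    simpa using this
  have h3 : |D.2| ≤ |D.2 + s.2| + |s.2| := by
    have := abs_sub (D.2 + s.2) s.2
    simpa using this
  have := abs_nonneg (D.1 + s.1)
  have := abs_nonneg (D.2 + s.2)
  have := abs_nonneg s.1
  have := abs_nonneg s.2
  constructor <;> linarith

theorem mass_shift (l : List (ℤ × ℤ)) (hl : ∀ s ∈ l, legal s) (s : ℤ × ℤ) (hs : legal s) (R : ℕ)
    (hR : 2 * l.length + 1 ≤ R) : ∑ D ∈ box R, pc l (D + s) = mass l := by
  unfold mass
  rw [← (Equiv.addRight s).tsum_eq (fun D => pc l D)]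
  symm
  apply tsum_eq_sum
  intro D hD
  exact pc_add_zero_of l hl s hs R hR D hD

theorem sum_Icc_succ (f : ℤ → ℝ) (R : ℕ) :
    ∑ a ∈ Icc (-((R + 1 : ℕ) : ℤ)) (R + 1 : ℕ), f a
      = ∑ a ∈ Icc (-(R : ℤ)) R, f a + f (R + 1) + f (-(R + 1)) := by
  have h : Icc (-((R + 1 : ℕ) : ℤ)) (R + 1 : ℕ)
      = insert (-((R : ℤ) + 1)) (insert ((R : ℤ) + 1) (Icc (-(R : ℤ)) R)) := by
    ext a
    simp only [Finset.mem_Icc, Finset.mem_insert]
    push_cast
    omega
  rw [h, Finset.sum_insert, Finset.sum_insert]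
  · ring
  · simp
  · simp only [Finset.mem_insert, Finset.mem_Icc]
    omega

theorem one_dim (G : ℤ → ℝ) (R : ℕ) :
    ∑ a ∈ Icc (-((R + 1 : ℕ) : ℤ)) (R + 1 : ℕ), (if a = 0 then 0 else G (a - a.sign))
      = G 0 + ∑ a ∈ Icc (-(R : ℤ)) R, G a := by
  induction R with
  | zero =>
    rw [sum_Icc_succ]
    simp
  | succ R ih =>
    rw [sum_Icc_succ, ih, sum_Icc_succ]
    have h1 : ((R + 1 : ℕ) : ℤ) + 1 ≠ 0 := by positivity
    have h2 : -(((R + 1 : ℕ) : ℤ) + 1) ≠ 0 := by
      intro h; apply h1; omega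
    rw [if_neg h1, if_neg h2, Int.sign_eq_one_of_pos (by positivity),
      Int.sign_eq_neg_one_of_neg (by omega)]
    have h3 : ((R + 1 : ℕ) : ℤ) + 1 - 1 = (R : ℤ) + 1 := by push_cast; ring
    have h4 : -(((R + 1 : ℕ) : ℤ) + 1) - -1 = -((R : ℤ) + 1) := by push_cast; ring
    rw [h3, h4]
    ring

/-- weight of a move: `1` on an axis, `1/2` off the axes -/
noncomputable def wt (b : ℤ) : ℝ := if b = 0 then 1 else 1 / 2

theorem pc_cons (s : ℤ × ℤ) (l : List (ℤ × ℤ)) (D : ℤ × ℤ) :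
    pc (s :: l) D = (if D = 0 then 1 else 0)
      + (if D.1 = 0 then 0 else (if hx D = 0 then 1 else pc l (hx D + s)) * wt D.2)
      + (if D.2 = 0 then 0 else (if hy D = 0 then 1 else pc l (hy D + s)) * wt D.1) := by
  rw [pc]
  unfold wt
  rcases D with ⟨a, b⟩
  by_cases ha : a = 0 <;> by_cases hb : b = 0
  · subst ha; subst hb; simp
  · subst ha
    have : ((0 : ℤ), b) ≠ 0 := by
      intro h; exact hb (congrArg Prod.snd h)
    simp [this, hb]
  · subst hb
    have : (a, (0 : ℤ)) ≠ 0 := by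
      intro h; exact ha (congrArg Prod.fst h)
    simp [this, ha]
  · have h0 : (a, b) ≠ 0 := by
      intro h; exact ha (congrArg Prod.fst h)
    have h1 : hx (a, b) ≠ 0 := by
      intro h; exact hb (congrArg Prod.snd h)
    have h2 : hy (a, b) ≠ 0 := by
      intro h; exact ha (congrArg Prod.fst h)
    simp only [h0, h1, h2, if_false, ha, hb]
    ring

theorem sum_box (R : ℕ) (f : ℤ × ℤ → ℝ) :
    ∑ D ∈ box R, f D = ∑ b ∈ Icc (-(R : ℤ)) R, ∑ a ∈ Icc (-(R : ℤ)) R, f (a, b) := by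
  unfold box
  rw [Finset.sum_product_right]

theorem sum_box' (R : ℕ) (f : ℤ × ℤ → ℝ) :
    ∑ D ∈ box R, f D = ∑ a ∈ Icc (-(R : ℤ)) R, ∑ b ∈ Icc (-(R : ℤ)) R, f (a, b) := by
  unfold box
  rw [Finset.sum_product]

theorem sum_wt (R : ℕ) (F : ℤ → ℝ) :
    ∑ b ∈ Icc (-(R : ℤ)) R, F b * wt b = (∑ b ∈ Icc (-(R : ℤ)) R, F b) / 2 + F 0 / 2 := by
  have h : ∀ b : ℤ, F b * wt b = F b / 2 + (if b = 0 then F 0 / 2 else 0) := by
    intro b
    unfold wt
    split_ifs with h
    · subst h; ring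
    · ring
  simp_rw [h]
  rw [Finset.sum_add_distrib, ← Finset.sum_div, Finset.sum_ite_eq', if_pos]
  rw [Finset.mem_Icc]
  constructor <;> simp

theorem shrink (R : ℕ) (F : ℤ → ℝ) (h1 : F (R + 1) = 0) (h2 : F (-(R + 1)) = 0) :
    ∑ a ∈ Icc (-(R : ℤ)) R, F a = ∑ a ∈ Icc (-((R + 1 : ℕ) : ℤ)) (R + 1 : ℕ), F a := by
  rw [sum_Icc_succ, h1, h2]; ring

theorem hstep (R : ℕ) (g : ℤ × ℤ → ℝ) (hg : ∀ D, D ∉ box R → g D = 0) :
    ∑ D ∈ box (R + 1), (if D.1 = 0 then 0 else g (hx D) * wt D.2)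
      = (∑ D ∈ box R, g D) / 2 + (∑ a ∈ Icc (-(R : ℤ)) R, g (a, 0)) / 2
        + (∑ b ∈ Icc (-(R : ℤ)) R, g (0, b)) / 2 + g (0, 0) / 2 := by
  rw [sum_box]
  have h1 : ∀ b : ℤ, ∑ a ∈ Icc (-((R + 1 : ℕ) : ℤ)) (R + 1 : ℕ),
      (if (a, b).1 = 0 then 0 else g (hx (a, b)) * wt (a, b).2)
      = (g (0, b) + ∑ a ∈ Icc (-(R : ℤ)) R, g (a, b)) * wt b := by
    intro b
    have := one_dim (fun a => g (a, b) * wt b) R
    rw [add_mul, Finset.sum_mul]
    rw [← this]
    rfl
  simp_rw [h1]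
  rw [sum_wt, sum_Icc_succ]
  have z1 : ∀ c : ℤ, g (c, (R : ℤ) + 1) = 0 := by
    intro c
    apply hg
    rw [mem_box]
    rintro ⟨_, h⟩
    rw [abs_le] at h
    have := h.2
    simp at this
  have z2 : ∀ c : ℤ, g (c, -((R : ℤ) + 1)) = 0 := by
    intro c
    apply hg
    rw [mem_box]
    rintro ⟨_, h⟩
    rw [abs_le] at h
    have := h.1
    simp at this
  simp_rw [z1, z2]
  rw [sum_box, Finset.sum_add_distrib]
  simp
  ring

theorem vstep (R : ℕ) (g : ℤ × ℤ → ℝ) (hg : ∀ D, D ∉ box R → g D = 0) :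
    ∑ D ∈ box (R + 1), (if D.2 = 0 then 0 else g (hy D) * wt D.1)
      = (∑ D ∈ box R, g D) / 2 + (∑ a ∈ Icc (-(R : ℤ)) R, g (a, 0)) / 2
        + (∑ b ∈ Icc (-(R : ℤ)) R, g (0, b)) / 2 + g (0, 0) / 2 := by
  have h := hstep R (fun D => g D.swap) (fun D hD => hg _ (by
    rw [mem_box] at hD ⊢; simpa [and_comm] using hD))
  have e1 : ∑ D ∈ box (R + 1), (if D.2 = 0 then 0 else g (hy D) * wt D.1)
      = ∑ D ∈ box (R + 1), (if D.1 = 0 then 0 else g (hx D).swap * wt D.2) := by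
    rw [sum_box, sum_box']
    rfl
  have e2 : ∑ D ∈ box R, g D.swap = ∑ D ∈ box R, g D := by
    rw [sum_box, sum_box']
    rfl
  rw [e1, h, e2]
  simp only [Prod.swap_prod_mk]
  ring

theorem mass_nil : mass [] = 1 := by
  unfold mass
  rw [tsum_eq_single (0 : ℤ × ℤ)]
  · simp [pc]
  · intro D hD
    simp [pc, hD]

/-- The reversed mass recursion. -/
theorem mass_cons (s : ℤ × ℤ) (l : List (ℤ × ℤ)) (hs : legal s) (hl : ∀ s ∈ l, legal s) :
    mass (s :: l) = 5 + mass l - pc l s + axes l s := by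
  set R := 2 * l.length + 1 with hR
  have hl' : ∀ t ∈ s :: l, legal t := by
    intro t ht
    rcases List.mem_cons.1 ht with rfl | ht
    · exact hs
    · exact hl t ht
  rw [mass_eq (s :: l) hl' (R + 1) (by rw [List.length_cons]; omega)]
  simp_rw [pc_cons]
  rw [Finset.sum_add_distrib, Finset.sum_add_distrib]
  set g : ℤ × ℤ → ℝ := fun D => if D = 0 then 1 else pc l (D + s) with hg
  have hg0 : ∀ D, D ∉ box R → g D = 0 := by
    intro D hD
    have hD0 : D ≠ 0 := by
      rintro rfl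
      apply hD
      rw [mem_box]; simp
    rw [hg]
    simp only [hD0, if_false]
    exact pc_add_zero_of l hl s hs R le_rfl D hD
  have e1 := hstep R g hg0
  have e2 := vstep R g hg0
  rw [hg] at e1 e2
  rw [e1, e2, Finset.sum_ite_eq', if_pos (by rw [mem_box]; simp; positivity)]
  have e3 : ∑ D ∈ box R, (if D = 0 then 1 else pc l (D + s)) = 1 + mass l - pc l s := by
    rw [← mass_shift l hl s hs R le_rfl]
    have : ∀ D : ℤ × ℤ, (if D = 0 then (1 : ℝ) else pc l (D + s))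
        = pc l (D + s) + (if D = 0 then 1 - pc l s else 0) := by
      intro D
      split_ifs with h
      · rw [h]; simp
      · ring
    simp_rw [this]
    rw [Finset.sum_add_distrib, Finset.sum_ite_eq', if_pos (by rw [mem_box]; simp)]
    ring
  have e4 : axes l s = ∑ a ∈ Icc (-(R : ℤ)) R,
      (if a = 0 then 0 else pc l ((a, 0) + s) + pc l ((0, a) + s)) := by
    unfold axes
    apply tsum_eq_sum
    intro a ha
    have h1 : (a, (0 : ℤ)) ∉ box R := by
      rw [mem_box]; rintro ⟨h, _⟩; exact ha (Finset.mem_Icc.2 (abs_le.1 h))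
    have h2 : ((0 : ℤ), a) ∉ box R := by
      rw [mem_box]; rintro ⟨_, h⟩; exact ha (Finset.mem_Icc.2 (abs_le.1 h))
    rw [pc_add_zero_of l hl s hs R le_rfl _ h1, pc_add_zero_of l hl s hs R le_rfl _ h2]
    simp
  have e5 : ∑ a ∈ Icc (-(R : ℤ)) R, (if (a, (0 : ℤ)) = 0 then (1 : ℝ) else pc l ((a, 0) + s))
      + ∑ a ∈ Icc (-(R : ℤ)) R, (if ((0 : ℤ), a) = 0 then (1 : ℝ) else pc l ((0, a) + s))
      = 2 + axes l s := by
    rw [e4, ← Finset.sum_add_distrib]
    have : ∀ a : ℤ, ((if (a, (0 : ℤ)) = 0 then (1 : ℝ) else pc l ((a, 0) + s))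
        + (if ((0 : ℤ), a) = 0 then (1 : ℝ) else pc l ((0, a) + s)))
        = (if a = 0 then 2 else 0)
          + (if a = 0 then 0 else pc l ((a, 0) + s) + pc l ((0, a) + s)) := by
      intro a
      by_cases h : a = 0
      · subst h; norm_num
      · have h1 : (a, (0 : ℤ)) ≠ 0 := fun h' => h (congrArg Prod.fst h')
        have h2 : ((0 : ℤ), a) ≠ 0 := fun h' => h (congrArg Prod.snd h')
        simp [h, h1, h2]
    simp_rw [this]
    rw [Finset.sum_add_distrib, Finset.sum_ite_eq', if_pos (by rw [Finset.mem_Icc]; constructor <;> simp)]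
  rw [e3]
  have e6 : ((0 : ℤ), (0 : ℤ)) = 0 := rfl
  simp only [e6, if_true]
  linarith

theorem axes_nonneg (l : List (ℤ × ℤ)) (s : ℤ × ℤ) : 0 ≤ axes l s := by
  unfold axes
  apply tsum_nonneg
  intro a
  split_ifs
  · rfl
  · exact add_nonneg (pc_nonneg _ _) (pc_nonneg _ _)

theorem mass_ge (l : List (ℤ × ℤ)) (hl : ∀ s ∈ l, legal s) : 4 * (l.length : ℝ) + 1 ≤ mass l := by
  induction l with
  | nil => rw [mass_nil]; simp
  | cons s l ih =>
    have h1 := ih (fun t ht => hl t (by simp [ht]))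
    rw [mass_cons s l (hl s (by simp)) (fun t ht => hl t (by simp [ht]))]
    have h2 := pc_le_one l s
    have h3 := axes_nonneg l s
    push_cast [List.length_cons]
    linarith

end MP34e
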