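import Pool.Agent.Work.MP_34e428_co.NDefs

/-! Linear lower bound, module NA1: likelihood ratios. -/

set_option autoImplicit false

open Finset
open scoped Classical

namespace MP34e

theorem star (e : ℕ → Bool) {τ t₀ b : ℕ} (h0 : τ ≤ t₀) (hb : t₀ ≤ b)
    (hcap : ∀ r, τ ≤ r → r ≤ t₀ → ((t₀ : ℤ) - r) ≤ 3 * ct e r t₀) :
    ∑ u ∈ Icc t₀ b, cc e τ (u - τ) 6 ≤ 160000 * cc e τ (t₀ - τ) 0 +
      400000 * ∑ u ∈ (Ico t₀ b).filter (fun u => e u = true), cc e τ (u - τ) 0 := by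
  sorry

end MP34e
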