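import Pool.Agent.Work.MP_34e428_co.NDefs

/-! Linear lower bound, module NA2: overshoot of the simple random walk. -/

set_option autoImplicit false

open Finset
open scoped Classical

namespace MP34e

theorem srw_over1 {g m : ℕ} (hg : 1 ≤ g) (hm : m ≤ g) {z : ℤ} (hz : 0 ≤ z) :
    srw m (fun y => if y < 0 then -(y : ℝ) else 0) z ≤
      2 * Real.sqrt g * srw m (fun y => if y < 0 then 1 else 0) z := by
  sorry

theorem srw_over2 {g m : ℕ} (hg : 16 ≤ g) (hm : m ≤ g) {z : ℤ} (hz : 0 ≤ z) :
    srw m (fun y => if y < 0 then (y : ℝ) ^ 2 else 0) z ≤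
      2 * g * srw m (fun y => if y < 0 then 1 else 0) z := by
  sorry

end MP34e
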