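import Pool.Agent.Work.MP_34e428_co.NA2

/-! Linear lower bound, module NA3: the queue at the top. -/

set_option autoImplicit false

open Finset
open scoped Classical

namespace MP34e

theorem lemmaN (e : ℕ → Bool) {g τ t₀ : ℕ} (hg : 256 ≤ g) (h0 : τ ≤ t₀)
    (hmax : ∀ r, τ ≤ r → r ≤ t₀ → Dv e r ≤ Dv e t₀)
    (hgap : ∀ r, τ ≤ r → r + g ≤ t₀ → ∃ s, r ≤ s ∧ s ≤ r + g ∧ Dv e s = Dv e t₀)
    (hL : g ^ 2 ≤ t₀ - τ) (j : ℕ) :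
    cc e τ (t₀ - τ) j ≤ 9 * (2 * j + 4 * Real.sqrt g) / Real.sqrt (t₀ - τ : ℕ) := by
  sorry

end MP34e
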