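import Pool.Agent.Work.MP_34e428_co.NDefs

/-! Linear lower bound, module NA4: pushes of the queue. -/

set_option autoImplicit false

open Finset
open scoped Classical

namespace MP34e

theorem pushes (e : ℕ → Bool) {τ t₀ b g : ℕ} (hg : 16 ≤ g) (h0 : τ ≤ t₀) (hb : t₀ ≤ b)
    (hmax : ∀ r, t₀ ≤ r → r ≤ b → Dv e r ≤ Dv e t₀) (hb2 : b ≤ t₀ + 2 * g) (B : ℝ)
    (hN : ∀ j : ℕ, cc e τ (t₀ - τ) j ≤ B * (2 * j + 4 * Real.sqrt g)) :
    ∑ u ∈ (Ico t₀ b).filter (fun u => e u = true), cc e τ (u - τ) 0 ≤ 40 * g * B := by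
  sorry

end MP34e
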