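import Pool.Agent.Work.MP_34e428_co.NA1
import Pool.Agent.Work.MP_34e428_co.NA3
import Pool.Agent.Work.MP_34e428_co.NA4

/-! Linear lower bound, module NA5: sums over a window. -/

set_option autoImplicit false

open Finset
open scoped Classical

namespace MP34e

theorem kappa_double (e : ℕ → Bool) {W K g a b : ℕ} (hg : 256 ≤ g) (ha : g ≤ a) (hab : a ≤ b)
    (hb : b ≤ a + g) (hS : Str W g e b) (hK : 16 * g ^ 2 ≤ K) :
    ∑ s ∈ Icc a b, ∑ τ ∈ Icc (s - 4 * K) s, cc e τ (s - τ) 6 ≤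
      10 ^ 10 * (g * Real.sqrt K + (g : ℝ) ^ 3) := by
  sorry

theorem kappa_single (e : ℕ → Bool) {W K g a b : ℕ} (hg : 256 ≤ g) (ha : g ≤ a) (hab : a ≤ b)
    (hb : b ≤ a + g) (hS : Str W g e b) (hK : 16 * g ^ 2 ≤ K) :
    ∑ s ∈ (Icc a b).filter (fun s => K ≤ 4 * s), cc e (s - K / 4) (K / 4) 6 ≤
      10 ^ 10 * g / Real.sqrt K := by
  sorry

end MP34e
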