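import Pool.Agent.Work.MP_34e428_co.NDefs

/-! Linear lower bound, module NAD: adaptivity of the strategy. -/

set_option autoImplicit false

open Finset
open scoped Classical

namespace MP34e

theorem pthX_adapt {w K o k T : ℕ}
    (x x' : Fin k → (ℤ × ℤ) × ((Fin T → Bool) × (Fin T → Fin 6))) (s : ℕ)
    (h1 : ∀ r < s, pthX w K o x r = pthX w K o x' r)
    (h2 : ∀ i, x i = x' i ∨ ∀ r ≤ s, ¬ ViX w K o r (pthX w K o x) (x i) ∧
      ¬ ViX w K o r (pthX w K o x') (x' i)) :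
    pthX w K o x s = pthX w K o x' s := by
  sorry

theorem pthX_bal {w K o k T : ℕ}
    (x : Fin k → (ℤ × ℤ) × ((Fin T → Bool) × (Fin T → Fin 6))) (t : ℕ) :
    |Dv (pthX w K o x) t| ≤ 256 * w := by
  sorry

theorem ViX_congr {w K o T : ℕ} {s : ℕ} {e e' : ℕ → Bool} (h : ∀ r < s, e r = e' r)
    (y : (ℤ × ℤ) × ((Fin T → Bool) × (Fin T → Fin 6))) : ViX w K o s e y ↔ ViX w K o s e' y := by
  sorry

theorem card_never {w K o T : ℕ} (ho : o ≤ 1) (hK : 100 ≤ K) (e : ℕ → Bool) :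
    (SpN K o T).card ≤ 9 * ((SpN K o T).filter (fun y => ∀ s < T, ¬ ViX w K o s e y)).card := by
  sorry

end MP34e
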