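import Mathlib

/-! Linear lower bound, module NAL: the adaptive lemma. -/

set_option autoImplicit false

open Finset
open scoped Classical

namespace MP34e

theorem adaptive {X : Type*} (S : Finset X) (k T : ℕ) (P : (Fin k → X) → ℕ → Bool)
    (V : ℕ → (ℕ → Bool) → X → Prop) (G : ℕ → (ℕ → Bool) → X → ℝ) (A : ℝ)
    (hV : ∀ s e e', (∀ r < s, e r = e' r) → ∀ y, (V s e y ↔ V s e' y))
    (hG : ∀ s e e', (∀ r < s, e r = e' r) → ∀ y, G s e y = G s e' y)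
    (hG1 : ∀ s e y, 1 ≤ G s e y)
    (hP : ∀ x ∈ Fintype.piFinset (fun _ : Fin k => S),
      ∀ x' ∈ Fintype.piFinset (fun _ : Fin k => S), ∀ s < T, (∀ r < s, P x r = P x' r) →
      (∀ i, x i = x' i ∨ ∀ r ≤ s, ¬ V r (P x) (x i) ∧ ¬ V r (P x') (x' i)) → P x s = P x' s)
    (hinv : ∀ e, S.card ≤ 9 * (S.filter (fun y => ∀ s < T, ¬ V s e y)).card)
    (hA : ∀ e, ∑ s ∈ range T, ∑ y ∈ S.filter (fun y => V s e y ∧ ∀ r < s, ¬ V r e y),
      (G s e y - 1) ≤ A * S.card) :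
    ∑ x ∈ Fintype.piFinset (fun _ : Fin k => S), ∏ i : Fin k, ∏ s ∈ range T,
      (if V s (P x) (x i) ∧ ∀ r < s, ¬ V r (P x) (x i) then G s (P x) (x i) else 1) ≤
      (S.card : ℝ) ^ k * Real.exp (9 * k * A) := by
  sorry

end MP34e
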