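import Pool.Agent.Work.MP_34e428_co.NDefs

/-! Linear lower bound, module NC3: length of an episode. -/

set_option autoImplicit false

open Finset
open scoped Classical

namespace MP34e

theorem dur_sum {T s : ℕ} (hs : s ≤ T) (F : (ℕ → Bool) → Prop)
    (hF : ∀ g g', (∀ r < s, g r = g' r) → (F g ↔ F g')) :
    ∑ c : Fin T → Bool, (if F (ex c) then ((5 : ℝ) / 4) ^ dur T (ex c) s else 0) ≤
      4 * (((univ : Finset (Fin T → Bool)).filter (fun c => F (ex c))).card : ℝ) ∧
    ∑ c : Fin T → Bool, (if F (ex c) then ((5 : ℝ) / 4) ^ dur T (nt (ex c)) s else 0) ≤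
      4 * (((univ : Finset (Fin T → Bool)).filter (fun c => F (ex c))).card : ℝ) := by
  sorry

end MP34e
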