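import Pool.Agent.Work.MP_34e428_co.NDefs
import Pool.Agent.Work.MP_34e428_co.LPre

/-! Linear lower bound, module NC2: counting initial values. -/

set_option autoImplicit false

open Finset
open scoped Classical

namespace MP34e

theorem card_PreE (S : Finset ℤ) (K : ℕ) (e g : ℕ → Bool) (t : ℕ) (v : ℤ) :
    (S.filter (PreE K e g t v)).card ≤ 125 := by
  sorry

end MP34e
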