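import Pool.Agent.Work.MP_34e428_co.NC1
import Pool.Agent.Work.MP_34e428_co.NC2
import Pool.Agent.Work.MP_34e428_co.LCount
import Pool.Agent.Work.MP_34e428_co.LCoin2

/-! Linear lower bound, module NC4: counting near zombies for a fixed path. -/

set_option autoImplicit false

open Finset
open scoped Classical

namespace MP34e

theorem count_ENear {K T TN W s : ℕ} (e : ℕ → Bool) (hs : s ≤ T) (hK : 4 ≤ K)
    (hW : ∀ r ≤ s, |Dv e r| ≤ W) :
    (((box K ×ˢ (univ : Finset (Fin T → Bool))).filter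
      (fun x => ENear K TN e (ex x.2) s x.1)).card : ℝ) ≤
    2 ^ T * (15625 * (1 + ∑ τ ∈ Icc (s - 4 * K) s, cc e τ (s - τ) 6) +
      (if K ≤ 4 * s then (10 ^ 7 * ((W : ℝ) + 10) * Real.sqrt ((TN : ℝ) + 1) + 2 * K + 2) *
        cc e (s - K / 4) (K / 4) 6 else 0)) := by
  sorry

end MP34e
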