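import Pool.Agent.Work.MP_34e428_co.NDefs
import Pool.Agent.Work.MP_34e428_co.LHistJ

/-! Linear lower bound, module NH1: history of one zombie for a fixed path. -/

set_option autoImplicit false

open Finset
open scoped Classical

namespace MP34e

theorem hist_E {K o R B S₁ TN T : ℕ} (ho : o ≤ 1) (hR : 4 ≤ R)
    (hK : 200 * R + 10 * B + 2000 ≤ K)
    (hTN : S₁ + 8 * K ≤ TN) {h e : ℕ → Bool} {J : ℕ → ℤ × ℤ → Bool} (he : BalP R e T)
    (hB : GB B (4 * K) h T)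
    (hE : ESC (B + 8 * R + 100) S₁ h T) {p : ℤ × ℤ} (hp : p ∈ boxJ K o) {t : ℕ} (ht : t ≤ T)
    (hd : ∀ s ≤ t, 2 ≤ ds (trJ K o h J e p s)) (hρ : ds (trJ K o h J e p t) ≤ 3) :
    ((trJ K o h J e p t).1 < 0 → ENear K TN e h t p) ∧
    ((trJ K o h J e p t).2 < 0 → ENear K TN (nt e) (nt h) t p.swap) := by
  sorry

end MP34e
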