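import Pool.Agent.Work.MP_34e428_co.NA5
import Pool.Agent.Work.MP_34e428_co.NC3
import Pool.Agent.Work.MP_34e428_co.NC4
import Pool.Agent.Work.MP_34e428_co.NH1

/-! Linear lower bound, module NB1: the budget of a window. -/

set_option autoImplicit false

open Finset
open scoped Classical

namespace MP34e

theorem budgetE {K o R B S₁ TN T w : ℕ} (ho : o ≤ 1) (hw : 1 ≤ w) (hR : 7000 * w ≤ R)
    (hK : 200 * R + 10 * B + 2000 ≤ K) (hKg : 16 * (70000 * w) ^ 2 ≤ K)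
    (hTN : S₁ + 8 * K ≤ TN) (a : ℕ) (e : ℕ → Bool) :
    ∑ s ∈ range T, ∑ y ∈ (SpN K o T).filter (fun y => ViX w K o s e y ∧ ∀ r < s, ¬ ViX w K o r e y),
      (WtE w K o R B S₁ a s e y - 1) ≤ bud w K TN * (2 ^ T * 6 ^ T) := by
  sorry

theorem budgetN {K o R B S₁ TN T w : ℕ} (ho : o ≤ 1) (hw : 1 ≤ w) (hR : 7000 * w ≤ R)
    (hK : 200 * R + 10 * B + 2000 ≤ K) (hKg : 16 * (70000 * w) ^ 2 ≤ K)
    (hTN : S₁ + 8 * K ≤ TN) (a : ℕ) (e : ℕ → Bool) :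
    ∑ s ∈ range T, ∑ y ∈ (SpN K o T).filter (fun y => ViX w K o s e y ∧ ∀ r < s, ¬ ViX w K o r e y),
      (WtN w K o R B S₁ a s e y - 1) ≤ bud w K TN * (2 ^ T * 6 ^ T) := by
  sorry

end MP34e
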