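import Pool.Agent.Work.MP_34e428_co.NDefs

/-! Linear lower bound, module NC1: counting coins for the queue. -/

set_option autoImplicit false

open Finset
open scoped Classical

namespace MP34e

theorem count_balE (e : ℕ → Bool) {T τ s : ℕ} (hτ : τ ≤ s) (hs : s ≤ T) (a : ℤ)
    (F : (ℕ → Bool) → Prop) (hF : ∀ g g', (∀ r < τ, g r = g' r) → (F g ↔ F g')) :
    (((univ : Finset (Fin T → Bool)).filter
        (fun c => F (ex c) ∧ balE e (ex c) τ s a)).card : ℝ) =
      (((univ : Finset (Fin T → Bool)).filter (fun c => F (ex c))).card : ℝ) *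
        cc e τ (s - τ) a := by
  sorry

end MP34e
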