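import Pool.Agent.Work.MP_34e428_co.LNoJump

/-! The linear lower bound (in `n^{3/2}`) for the zombie number of the toroidal grid:
definitions. Conventions of `LDefs`, `LDefsJ`: displacement = survivor - zombie, the survivor only
moves east (`true`) or north (`false`), `n = 2 K + 1 - o`. -/

set_option autoImplicit false

open Finset
open scoped Classical

namespace MP34e

/-! ### strategies with memory -/

/-- a strategy: the move and the new memory, as functions of the memory and of the displacements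
after the move of the zombies -/
structure Strat (k : ℕ) (M : Type) where
  dir : M → (Fin k → ℤ × ℤ) → Bool
  upd : M → (Fin k → ℤ × ℤ) → M

/-- the game: displacements and memory after `t` rounds; coins `c i t`, jump decisions `J i t`,
initial displacements `p i` -/
noncomputable def runG (K o : ℕ) {k : ℕ} {M : Type} (σ : Strat k M) (m₀ : M)
    (c : Fin k → ℕ → Bool) (J : Fin k → ℕ → ℤ × ℤ → Bool) (p : Fin k → ℤ × ℤ) :
    ℕ → (Fin k → ℤ × ℤ) × M
  | 0 => (p, m₀)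
  | t + 1 =>
    let s := runG K o σ m₀ c J p t
    let q : Fin k → ℤ × ℤ := fun i => zj K o (c i t) (J i t (s.1 i)) (s.1 i)
    (fun i => smJ K o (σ.dir s.2 q) (q i), σ.upd s.2 q)

/-- displacements after the moves of the zombies in round `t + 1` -/
noncomputable def midG (K o : ℕ) {k : ℕ} {M : Type} (σ : Strat k M) (m₀ : M)
    (c : Fin k → ℕ → Bool) (J : Fin k → ℕ → ℤ × ℤ → Bool) (p : Fin k → ℤ × ℤ) (t : ℕ) :
    Fin k → ℤ × ℤ :=
  fun i => zj K o (c i t) (J i t ((runG K o σ m₀ c J p t).1 i)) ((runG K o σ m₀ c J p t).1 i)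

/-- the sequence of moves of the survivor -/
noncomputable def pthG (K o : ℕ) {k : ℕ} {M : Type} (σ : Strat k M) (m₀ : M)
    (c : Fin k → ℕ → Bool) (J : Fin k → ℕ → ℤ × ℤ → Bool) (p : Fin k → ℤ × ℤ) : ℕ → Bool :=
  fun t => σ.dir (runG K o σ m₀ c J p t).2 (midG K o σ m₀ c J p t)

/-! ### paths of the survivor -/

/-- (east moves) - (north moves) before time `t` -/
def Dv (e : ℕ → Bool) (t : ℕ) : ℤ := 2 * ct e 0 t - t

/-- structured path up to time `t`: `|D| ≤ W`, and both `W` and `-W` are visited in every window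
of length `g` -/
def Str (W g : ℕ) (e : ℕ → Bool) (t : ℕ) : Prop :=
  (∀ r ≤ t, |Dv e r| ≤ W) ∧
  ∀ r, r + g ≤ t → (∃ s, r ≤ s ∧ s ≤ r + g ∧ Dv e s = W) ∧
    ∃ s, r ≤ s ∧ s ≤ r + g ∧ Dv e s = -(W : ℤ)

/-- phase of the survivor (`true` = going east) before round `t + 1` -/
noncomputable def phE (w : ℕ) (e : ℕ → Bool) : ℕ → Bool
  | 0 => true
  | t + 1 => if 128 * (w : ℤ) ≤ Dv e t then false
      else if Dv e t ≤ -(128 * (w : ℤ)) then true else phE w e t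

/-- a decision is made in round `t + 1` -/
def decE (w : ℕ) (e : ℕ → Bool) (t : ℕ) : Prop := phE w e t = true ∧ 128 * (w : ℤ) ≤ Dv e t

/-! ### the strategy -/

/-- the zombie makes the east move dangerous (displacement after the move of the zombie) -/
def EB (q : ℤ × ℤ) : Prop := |q.1 + 1| + |q.2| ≤ 1

/-- the zombie makes the north move dangerous -/
def NB (q : ℤ × ℤ) : Prop := |q.1| + |q.2 + 1| ≤ 1

/-- the zombies looked at by a decision -/
def Gam (w : ℕ) (ρ : ℤ) (q : ℤ × ℤ) : Prop := q.2 < 0 ∧ q.1 < 120 * (w : ℤ) ∧ ds q ≤ ρ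

/-- memory: `D` = (east moves) - (north moves), phase, timer, level and the observed zombies -/
structure MemN (k : ℕ) where
  D : ℤ
  ph : Bool
  tm : ℕ
  lv : ℤ
  S : Finset (Fin k)

/-- initial memory -/
def mem0 (k : ℕ) : MemN k := ⟨0, true, 0, 0, ∅⟩

/-- a decision is made -/
def decN (w : ℕ) {k : ℕ} (m : MemN k) : Prop := m.ph = true ∧ 128 * (w : ℤ) ≤ m.D

/-- the new phase -/
noncomputable def phN (w : ℕ) {k : ℕ} (m : MemN k) : Bool :=
  if 128 * (w : ℤ) ≤ m.D then false else if m.D ≤ -(128 * (w : ℤ)) then true else m.ph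

/-- the radius chosen by a decision -/
noncomputable def rad (w : ℕ) {k : ℕ} (q : Fin k → ℤ × ℤ) : ℕ :=
  if ∃ i, Gam w (4096 * w) (q i) then
    (if ∃ i, Gam w (32768 * w) (q i) ∧ 4096 * (w : ℤ) < ds (q i) then 32768 * w else 4096 * w)
  else 0

/-- the observed zombies -/
noncomputable def SN (w : ℕ) {k : ℕ} (m : MemN k) (q : Fin k → ℤ × ℤ) : Finset (Fin k) :=
  if decN w m then univ.filter (fun i => Gam w (rad w q) (q i)) else m.S

/-- the timer -/
noncomputable def tmN (w : ℕ) {k : ℕ} (m : MemN k) (q : Fin k → ℤ × ℤ) : ℕ :=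
  if decN w m then 2 * rad w q else m.tm

/-- invariant of a front zombie -/
def th (D : ℤ) (q : ℤ × ℤ) : ℤ := D - (q.1 - q.2)

/-- the level `a` is good for the observed zombies -/
def goodLv (w : ℕ) {k : ℕ} (m : MemN k) (q : Fin k → ℤ × ℤ) (a : ℤ) : Prop :=
  ∀ i ∈ SN w m q, 32 * (w : ℤ) ≤ |th m.D (q i) - a|

/-- the level -/
noncomputable def lvN (w : ℕ) {k : ℕ} (m : MemN k) (q : Fin k → ℤ × ℤ) : ℤ :=
  if decN w m then
    (if goodLv w m q (-(64 * w)) then -(64 * w) else if goodLv w m q 0 then 0 else 64 * w)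
  else m.lv

/-- there is an observed front zombie above the level -/
def upN (w : ℕ) {k : ℕ} (m : MemN k) (q : Fin k → ℤ × ℤ) : Prop :=
  ∃ i ∈ SN w m q, (q i).1 < 0 ∧ (q i).2 < 0 ∧ lvN w m q ≤ th m.D (q i)

/-- the target value of `D` -/
noncomputable def tgN (w : ℕ) {k : ℕ} (m : MemN k) (q : Fin k → ℤ × ℤ) : ℤ :=
  if phN w m = true then 128 * w
  else if 0 < tmN w m q then (if upN w m q then lvN w m q else lvN w m q - 16 * w)
  else -(128 * w)

/-- the move -/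
noncomputable def dirN (w : ℕ) {k : ℕ} (m : MemN k) (q : Fin k → ℤ × ℤ) : Bool :=
  if 256 * (w : ℤ) ≤ m.D then false else if m.D ≤ -(256 * (w : ℤ)) then true
  else if m.D < tgN w m q then decide (¬ ∃ i, EB (q i)) else decide (∃ i, NB (q i))

/-- the new memory -/
noncomputable def updN (w : ℕ) {k : ℕ} (m : MemN k) (q : Fin k → ℤ × ℤ) : MemN k :=
  ⟨m.D + (if dirN w m q = true then 1 else -1), phN w m, tmN w m q - 1, lvN w m q, SN w m q⟩

/-- the strategy -/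
noncomputable def stN (w k : ℕ) : Strat k (MemN k) := ⟨dirN w, updN w⟩

/-! ### one zombie and a path -/

/-- displacement after the move of the zombie in round `t + 1` -/
noncomputable def mdJ (K o : ℕ) (h : ℕ → Bool) (J : ℕ → ℤ × ℤ → Bool) (e : ℕ → Bool) (p : ℤ × ℤ)
    (t : ℕ) : ℤ × ℤ := zj K o (h t) (J t (trJ K o h J e p t)) (trJ K o h J e p t)

/-- the zombie is visible to the survivor in round `t + 1` -/
def ViN (w K o : ℕ) (h : ℕ → Bool) (J : ℕ → ℤ × ℤ → Bool) (e : ℕ → Bool) (p : ℤ × ℤ) (t : ℕ) :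
    Prop :=
  EB (mdJ K o h J e p t) ∨ NB (mdJ K o h J e p t) ∨
    (decE w e t ∧ Gam w (32768 * w) (mdJ K o h J e p t))

/-- the zombie becomes visible in round `t + 1` -/
def FvN (w K o : ℕ) (h : ℕ → Bool) (J : ℕ → ℤ × ℤ → Bool) (e : ℕ → Bool) (p : ℤ × ℤ) (t : ℕ) :
    Prop :=
  ViN w K o h J e p t ∧ ∀ r < t, ¬ ViN w K o h J e p r

/-- length of an episode -/
noncomputable def dur (T : ℕ) (h : ℕ → Bool) (s : ℕ) : ℕ :=
  ((Ico s T).filter (fun r => ct h s (r + 1) ≤ 2)).card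

/-- arrival of a zombie which makes the east move dangerous -/
def ArE (w K o : ℕ) (h : ℕ → Bool) (J : ℕ → ℤ × ℤ → Bool) (e : ℕ → Bool) (p : ℤ × ℤ) (s : ℕ) :
    Prop :=
  FvN w K o h J e p s ∧ EB (mdJ K o h J e p s) ∧ Str (128 * w) (70000 * w) e s ∧
    ∀ r ≤ s, 2 ≤ ds (trJ K o h J e p r)

/-- arrival of a zombie which makes the north move dangerous -/
def ArN (w K o : ℕ) (h : ℕ → Bool) (J : ℕ → ℤ × ℤ → Bool) (e : ℕ → Bool) (p : ℤ × ℤ) (s : ℕ) :
    Prop :=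
  FvN w K o h J e p s ∧ NB (mdJ K o h J e p s) ∧ Str (128 * w) (70000 * w) e s ∧
    ∀ r ≤ s, 2 ≤ ds (trJ K o h J e p r)

/-! ### counting for a fixed path -/

/-- the queue with arrivals `g` and services `e` -/
def balE (e g : ℕ → Bool) (τ s : ℕ) (a : ℤ) : Prop :=
  ∀ r, τ ≤ r → r ≤ s → ct g r s - ct e r s ≤ a

/-- probability of `balE e · τ (τ + n) j` -/
noncomputable def cc (e : ℕ → Bool) (τ : ℕ) : ℕ → ℤ → ℝ
  | 0 => fun j => if 0 ≤ j then 1 else 0
  | n + 1 => fun j => if 0 ≤ j then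
      (cc e τ n (j + (if e (τ + n) = true then 1 else 0)) +
        cc e τ n (j + (if e (τ + n) = true then 1 else 0) - 1)) / 2 else 0

/-- `n` steps of the average over the two neighbours -/
noncomputable def srw : ℕ → (ℤ → ℝ) → ℤ → ℝ
  | 0 => fun f => f
  | n + 1 => fun f z => (srw n f (z - 1) + srw n f (z + 1)) / 2

/-- possible initial values `x` of a coordinate whose value at time `t` is close to `v`, moved by
coins `g` and by the survivor `e`, before its first contact with `0` -/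
def PreE (K : ℕ) (e g : ℕ → Bool) (t : ℕ) (v x : ℤ) : Prop :=
  |x - (v - ct g 0 t - ct e 0 t)| ≤ 12 ∨ |x - (v + ct g 0 t - ct e 0 t)| ≤ 12 ∨
  ∃ σ < t, |x - (K + ct g 0 σ - ct e 0 σ)| ≤ 12 ∧ |v + K - ct g σ t - ct e σ t| ≤ 12

/-- pure event containing: the zombie is east of the survivor and within distance `3` at time
`s`, when the path of the survivor is `e` -/
def ENear (K TN : ℕ) (e g : ℕ → Bool) (s : ℕ) (p : ℤ × ℤ) : Prop :=
  (PreE K e g s 0 p.1 ∧ PreE K (nt e) (nt g) s 0 p.2) ∨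
  (∃ τ ≤ s, s ≤ τ + 4 * K ∧ PreE K (nt e) (nt g) τ 0 p.2 ∧ PreE K e g τ (-2 * ct e τ s) p.1 ∧
    balE e g τ s 6) ∨
  (K ≤ 4 * s ∧ balE e g (s - K / 4) s 6 ∧
    ((∃ τ ≤ TN, 4 * τ + K ≤ 4 * s ∧
      ((PreE K e g τ 0 p.1 ∧ PreE K (nt e) (nt g) τ K p.2 ∧ balE (nt e) (nt g) 0 τ 4) ∨
        (PreE K (nt e) (nt g) τ 0 p.2 ∧ PreE K e g τ K p.1 ∧ balE e g 0 τ 4))) ∨
      p.1 + p.2 = K))

/-- the sample space of one zombie -/
noncomputable def SpN (K o T : ℕ) : Finset ((ℤ × ℤ) × ((Fin T → Bool) × (Fin T → Fin 6))) :=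
  boxJ K o ×ˢ univ

/-! ### the sample space -/

/-- the path of the survivor -/
noncomputable def pthX (w K o : ℕ) {k T : ℕ}
    (x : Fin k → (ℤ × ℤ) × ((Fin T → Bool) × (Fin T → Fin 6))) : ℕ → Bool :=
  pthG K o (stN w k) (mem0 k) (fun i => ex (x i).2.1) (fun i t => jc K (ex6 (x i).2.2 t))
    (fun i => (x i).1)

/-- the zombie `y` is visible in round `s + 1`, for the path `e` -/
def ViX (w K o : ℕ) {T : ℕ} (s : ℕ) (e : ℕ → Bool)
    (y : (ℤ × ℤ) × ((Fin T → Bool) × (Fin T → Fin 6))) : Prop :=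
  ViN w K o (ex y.2.1) (fun t => jc K (ex6 y.2.2 t)) e y.1 s

/-- good zombie -/
def GdN (K R B S₁ T : ℕ) (y : (ℤ × ℤ) × ((Fin T → Bool) × (Fin T → Fin 6))) : Prop :=
  30 * (R : ℤ) < ds y.1 ∧ GB B (4 * K) (ex y.2.1) T ∧ ESC (B + 8 * R + 100) S₁ (ex y.2.1) T

/-- weights, east side -/
noncomputable def WtE (w K o R B S₁ : ℕ) {T : ℕ} (a s : ℕ) (e : ℕ → Bool)
    (y : (ℤ × ℤ) × ((Fin T → Bool) × (Fin T → Fin 6))) : ℝ :=
  if a ≤ s ∧ s < a + 70000 * w ∧ GdN K R B S₁ T y ∧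
    ArE w K o (ex y.2.1) (fun t => jc K (ex6 y.2.2 t)) e y.1 s then
    (5 / 4) ^ dur T (ex y.2.1) s else 1

/-- weights, north side -/
noncomputable def WtN (w K o R B S₁ : ℕ) {T : ℕ} (a s : ℕ) (e : ℕ → Bool)
    (y : (ℤ × ℤ) × ((Fin T → Bool) × (Fin T → Fin 6))) : ℝ :=
  if a ≤ s ∧ s < a + 70000 * w ∧ GdN K R B S₁ T y ∧
    ArN w K o (ex y.2.1) (fun t => jc K (ex6 y.2.2 t)) e y.1 s then
    (5 / 4) ^ dur T (nt (ex y.2.1)) s else 1

/-- the budget of a window -/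
noncomputable def bud (w K TN : ℕ) : ℝ :=
  4 * (15625 * (70000 * (w : ℝ) + 1 + 10 ^ 10 * (70000 * (w : ℝ) * Real.sqrt K +
      (70000 * (w : ℝ)) ^ 3)) +
    (10 ^ 7 * (128 * (w : ℝ) + 10) * Real.sqrt ((TN : ℝ) + 1) + 2 * K + 2) *
      (10 ^ 10 * (70000 * (w : ℝ)) / Real.sqrt K))

/-- front zombie within distance `ρ` -/
def FrN (ρ : ℤ) (q : ℤ × ℤ) : Prop := q.1 < 0 ∧ q.2 < 0 ∧ ds q ≤ ρ

/-- error terms of one zombie -/
noncomputable def epsN (n K w R B S₁ S₂ T : ℕ) : ℝ :=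
  (60 * (R : ℝ) + 1) ^ 2 / (n : ℝ) ^ 2 +
  ((T : ℝ) + 1) ^ 2 * (2 * Real.exp (-((w : ℝ) ^ 2 / (2 * ((524288 * w : ℕ) : ℝ))))) +
  ((T : ℝ) + 1) ^ 2 * (2 * Real.exp (-((B : ℝ) ^ 2 / (2 * ((4 * K : ℕ) : ℝ))))) +
  ((T : ℝ) + 1) * (1 / 2) ^ (S₁ / (2 * (B + 8 * R + 100 + 2) ^ 2)) +
  ((T : ℝ) + 1) * (1 / 2) ^ (S₂ / (2 * (3 * K + 2) ^ 2))

/-- total error -/
noncomputable def errN (n K k w R B S₁ TN S₂ l T : ℕ) : ℝ :=
  (k : ℝ) * epsN n K w R B S₁ S₂ T +
  (k : ℝ) ^ 3 * (((TN : ℝ) + 1) * ((2 * ((786432 * w : ℕ) : ℝ) + 1) ^ 2 *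
    ((200 * ((R : ℝ) + 4)) ^ 2 / (n : ℝ) ^ 2) ^ 3)) +
  2 * ((T : ℝ) + 1) * (Real.exp w * (4 / 5) ^ (16 * w)) +
  (k : ℝ) * (1 / 2) ^ l

end MP34e
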