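import Pool.Agent.Work.MP_34e428_co.LUnion

/-! Linear lower bound, module NF1: three front zombies. -/

set_option autoImplicit false

open Finset
open scoped Classical

namespace MP34e

theorem ub_triple {α : Type*} (S : Finset α) (k TN W : ℕ) (Fr : ℕ → α → Prop) (r : ℝ)
    (hr0 : 0 ≤ r) (hr : ∀ s ≤ TN, ((S.filter (Fr s)).card : ℝ) ≤ r * S.card) :
    (((Fintype.piFinset (fun _ : Fin k => S)).filter (fun x =>
      ∃ i j l, i ≠ j ∧ i ≠ l ∧ j ≠ l ∧ ∃ s ≤ TN, ∃ s' ≤ TN, ∃ s'' ≤ TN,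
        s ≤ s' + W ∧ s' ≤ s + W ∧ s ≤ s'' + W ∧ s'' ≤ s + W ∧
        Fr s (x i) ∧ Fr s' (x j) ∧ Fr s'' (x l))).card : ℝ) ≤
      (k : ℝ) ^ 3 * (((TN : ℝ) + 1) * ((2 * W + 1) ^ 2 * (r ^ 3 * (S.card : ℝ) ^ k))) := by
  sorry

end MP34e
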