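import Pool.Agent.Work.MP_34e428_co.LValJ
import Pool.Agent.Work.MP_34e428_co.NDefs

/-! Linear lower bound, module NG1: the value of the game and a strategy with memory. -/

set_option autoImplicit false

open Finset
open scoped Classical

namespace MP34e

theorem surv_geG {n K o k : ℕ} [NeZero n] (hn : n + o = 2 * K + 1) (ho : o ≤ 1) (hK : 2 ≤ K)
    {M : Type} (σ : Strat k M) (m₀ : M) (T : ℕ) :
    (((Fintype.piFinset (fun _ : Fin k => SpN K o T)).filter (fun x =>
        (∀ t ≤ T, ∀ i, 2 ≤ ds ((runG K o σ m₀ (fun i => ex (x i).2.1)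
          (fun i t => jc K (ex6 (x i).2.2 t)) (fun i => (x i).1) t).1 i)) ∧
        ∀ i, SafeJ K o ((runG K o σ m₀ (fun i => ex (x i).2.1)
          (fun i t => jc K (ex6 (x i).2.2 t)) (fun i => (x i).1) T).1 i))).card : ℝ) /
      (((n : ℝ) ^ 2 * (2 ^ T * 6 ^ T)) ^ k) ≤ surv (tor n) k := by
  sorry

end MP34e
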