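import Pool.Agent.Work.MP_34e428_co.NDefs

/-! Linear lower bound, module NG2: visits of the ends of the line without a jump. -/

set_option autoImplicit false

open Finset
open scoped Classical

namespace MP34e

theorem count_NoJumpG {K o k : ℕ} {M : Type} (σ : Strat k M) (m₀ : M) (T l T₁ : ℕ) (hT : T₁ ≤ T)
    (i : Fin k) :
    (((Fintype.piFinset (fun _ : Fin k => SpN K o T)).filter
      (fun x => NoJump K o (ex (x i).2.1) (fun t => jc K (ex6 (x i).2.2 t))
        (pthG K o σ m₀ (fun i => ex (x i).2.1) (fun i t => jc K (ex6 (x i).2.2 t))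
          (fun i => (x i).1)) (x i).1 l T₁)).card : ℝ) ≤
      (1 / 2) ^ l * (Fintype.piFinset (fun _ : Fin k => SpN K o T)).card := by
  sorry

end MP34e
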