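import Pool.Agent.Work.MP_34e428_co.NDefs
import Pool.Agent.Work.MP_34e428_co.LLocalJ

/-! Linear lower bound, module NLoc: the local lemma. -/

set_option autoImplicit false

open Finset
open scoped Classical

namespace MP34e

theorem local_safeN {k K o w T : ℕ} (ho : o ≤ 1) (hw : 1000 ≤ w) (hK : 10 ^ 7 * w ≤ K)
    (c : Fin k → ℕ → Bool) (J : Fin k → ℕ → ℤ × ℤ → Bool) (p : Fin k → ℤ × ℤ)
    (hbox : ∀ i, p i ∈ boxJ K o) (hfar : ∀ i, 4194304 * (w : ℤ) < ds (p i))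
    (hGB : ∀ i, GB w (524288 * w) (c i) T)
    (hF : ∀ u ≤ T, (∀ s ≤ u, ∀ i, 2 ≤ ds ((runG K o (stN w k) (mem0 k) c J p s).1 i)) →
      ¬ ∃ i j l, i ≠ j ∧ i ≠ l ∧ j ≠ l ∧ ∃ s s' s'', s ≤ u ∧ s' ≤ u ∧ s'' ≤ u ∧
        s ≤ s' + 786432 * w ∧ s' ≤ s + 786432 * w ∧ s ≤ s'' + 786432 * w ∧ s'' ≤ s + 786432 * w ∧
        FrN (524288 * w) ((runG K o (stN w k) (mem0 k) c J p s).1 i) ∧
        FrN (524288 * w) ((runG K o (stN w k) (mem0 k) c J p s').1 j) ∧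
        FrN (524288 * w) ((runG K o (stN w k) (mem0 k) c J p s'').1 l))
    (hE : ∀ a ≤ T, ∑ s ∈ Ico a (a + 70000 * w), ∑ i,
      (if ArE w K o (c i) (J i) (pthG K o (stN w k) (mem0 k) c J p) (p i) s then
        dur T (c i) s else 0) ≤ 16 * w)
    (hN : ∀ a ≤ T, ∑ s ∈ Ico a (a + 70000 * w), ∑ i,
      (if ArN w K o (c i) (J i) (pthG K o (stN w k) (mem0 k) c J p) (p i) s then
        dur T (nt (c i)) s else 0) ≤ 16 * w) :
    ∀ t ≤ T, ∀ i, 2 ≤ ds ((runG K o (stN w k) (mem0 k) c J p t).1 i) := by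
  sorry

end MP34e
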