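import Pool.Agent.Work.MP_34e428_co.NG1
import Pool.Agent.Work.MP_34e428_co.NG2
import Pool.Agent.Work.MP_34e428_co.NF1
import Pool.Agent.Work.MP_34e428_co.NAL
import Pool.Agent.Work.MP_34e428_co.NAD
import Pool.Agent.Work.MP_34e428_co.NB1
import Pool.Agent.Work.MP_34e428_co.NLoc
import Pool.Agent.Work.MP_34e428_co.LFinalJ

/-! Linear lower bound, module NP: the game with few zombies is won by the survivor. -/

set_option autoImplicit false

open Finset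
open scoped Classical

namespace MP34e

/-- the deviation event of one window, east side -/
def DevE (w K o R B S₁ : ℕ) {k T : ℕ} (a : ℕ)
    (x : Fin k → (ℤ × ℤ) × ((Fin T → Bool) × (Fin T → Fin 6))) : Prop :=
  (∀ i, GdN K R B S₁ T (x i)) ∧ 16 * w < ∑ s ∈ Ico a (a + 70000 * w), ∑ i,
    (if ArE w K o (ex (x i).2.1) (fun t => jc K (ex6 (x i).2.2 t)) (pthX w K o x) (x i).1 s then
      dur T (ex (x i).2.1) s else 0)

/-- the deviation event of one window, north side -/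
def DevN (w K o R B S₁ : ℕ) {k T : ℕ} (a : ℕ)
    (x : Fin k → (ℤ × ℤ) × ((Fin T → Bool) × (Fin T → Fin 6))) : Prop :=
  (∀ i, GdN K R B S₁ T (x i)) ∧ 16 * w < ∑ s ∈ Ico a (a + 70000 * w), ∑ i,
    (if ArN w K o (ex (x i).2.1) (fun t => jc K (ex6 (x i).2.2 t)) (pthX w K o x) (x i).1 s then
      dur T (nt (ex (x i).2.1)) s else 0)

theorem count_Dev {n K o R B S₁ TN T w k : ℕ} (hn : n + o = 2 * K + 1) (hn0 : 0 < n) (ho : o ≤ 1)
    (hw : 1 ≤ w) (hR : 7000 * w ≤ R) (hK : 200 * R + 10 * B + 2000 ≤ K)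
    (hKg : 16 * (70000 * w) ^ 2 ≤ K) (hTN : S₁ + 8 * K ≤ TN)
    (hA : 9 * (k : ℝ) * (bud w K TN / (n : ℝ) ^ 2) ≤ w) (a : ℕ) :
    (((Fintype.piFinset (fun _ : Fin k => SpN K o T)).filter
      (DevE w K o R B S₁ a)).card : ℝ) ≤
      Real.exp w * (4 / 5) ^ (16 * w) * (Fintype.piFinset (fun _ : Fin k => SpN K o T)).card ∧
    (((Fintype.piFinset (fun _ : Fin k => SpN K o T)).filter
      (DevN w K o R B S₁ a)).card : ℝ) ≤
      Real.exp w * (4 / 5) ^ (16 * w) * (Fintype.piFinset (fun _ : Fin k => SpN K o T)).card := by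
  sorry

theorem surv_ge34N {n K o k w R B S₁ TN S₂ l T : ℕ} [NeZero n] (hn : n + o = 2 * K + 1)
    (ho : o ≤ 1) (h1 : 1000 ≤ w) (h2 : 140000 * w ≤ R)
    (h5 : 200 * R + 10 * B + 10 * (30 * R) + 1000 ≤ K) (h5' : 16 * (70000 * w) ^ 2 ≤ K)
    (h6 : S₁ + 8 * K ≤ TN) (h7 : TN + (l + 1) * (S₂ + 1) + 30 * K ≤ T)
    (hA : 9 * (k : ℝ) * (bud w K TN / (n : ℝ) ^ 2) ≤ w)
    (h8 : errN n K k w R B S₁ TN S₂ l T ≤ 1 / 4) : 3 / 4 ≤ surv (tor n) k := by
  sorry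

end MP34e
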