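import Pool.Agent.Work.MP_34e428_co.NDefs

/-! Linear lower bound, module NZ: choice of the parameters. -/

set_option autoImplicit false

open Finset
open scoped Classical

namespace MP34e

theorem asymN : ∃ n₀ : ℕ, ∀ n ≥ n₀, ∀ K o k : ℕ, n + o = 2 * K + 1 → o ≤ 1 →
    (k : ℝ) ≤ n * Real.sqrt n / 10 ^ 22 →
    ∃ w R B S₁ TN S₂ l T : ℕ, 1000 ≤ w ∧ 140000 * w ≤ R ∧
      200 * R + 10 * B + 10 * (30 * R) + 1000 ≤ K ∧ 16 * (70000 * w) ^ 2 ≤ K ∧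
      S₁ + 8 * K ≤ TN ∧ TN + (l + 1) * (S₂ + 1) + 30 * K ≤ T ∧
      9 * (k : ℝ) * (bud w K TN / (n : ℝ) ^ 2) ≤ w ∧
      errN n K k w R B S₁ TN S₂ l T ≤ 1 / 4 := by
  sorry

end MP34e
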