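import Pool.Agent.Work.MP_34e428_co.Frame
import Pool.Agent.Work.MP_34e428_co.Mass

/-! Distances and zombie moves on the toroidal grid. -/

open Finset SimpleGraph
open scoped Classical

namespace MP34e

/-- the cycle on `ZMod n` -/
abbrev cyc (n : ℕ) : SimpleGraph (ZMod n) := circulantGraph ({1} : Set (ZMod n))

theorem cyc_adj {n : ℕ} (hn : 2 ≤ n) (u v : ZMod n) : (cyc n).Adj u v ↔ v = u + 1 ∨ v = u - 1 := by
  have : Fact (1 < n) := ⟨hn⟩
  unfold cyc circulantGraph
  simp only [SimpleGraph.fromRel_adj, Set.mem_singleton_iff]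
  constructor
  · rintro ⟨_, h | h⟩
    · right; rw [← h]; ring
    · left; rw [← h]; ring
  · rintro (rfl | rfl)
    · refine ⟨?_, Or.inr (by ring)⟩
      intro h
      have : (1 : ZMod n) = 0 := by
        have := congrArg (fun x => x - u) h
        simpa using this.symm
      exact one_ne_zero this
    · refine ⟨?_, Or.inl (by ring)⟩
      intro h
      have : (1 : ZMod n) = 0 := by
        have := congrArg (fun x => u - x) h
        simpa using this.symm
      exact one_ne_zero this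

theorem cyc_walk {n : ℕ} (hn : 2 ≤ n) (u : ZMod n) (a : ℤ) :
    ∃ p : (cyc n).Walk u (u + (a : ZMod n)), p.length = a.natAbs := by
  have pos : ∀ m : ℕ, ∃ p : (cyc n).Walk u (u + (m : ZMod n)), p.length = m := by
    intro m
    induction m with
    | zero => exact ⟨Walk.nil.copy rfl (by simp), by simp⟩
    | succ m ih =>
      obtain ⟨p, hp⟩ := ih
      have hadj : (cyc n).Adj (u + (m : ZMod n)) (u + ((m + 1 : ℕ) : ZMod n)) := by
        rw [cyc_adj hn]; left; push_cast; ring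
      exact ⟨p.concat hadj, by rw [Walk.length_concat, hp]⟩
  have neg : ∀ m : ℕ, ∃ p : (cyc n).Walk u (u + ((-(m : ℤ) : ℤ) : ZMod n)), p.length = m := by
    intro m
    induction m with
    | zero => exact ⟨Walk.nil.copy rfl (by simp), by simp⟩
    | succ m ih =>
      obtain ⟨p, hp⟩ := ih
      have hadj : (cyc n).Adj (u + ((-(m : ℤ) : ℤ) : ZMod n))
          (u + ((-((m + 1 : ℕ) : ℤ) : ℤ) : ZMod n)) := by
        rw [cyc_adj hn]; right; push_cast; ring
      exact ⟨p.concat hadj, by rw [Walk.length_concat, hp]⟩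
  rcases Int.natAbs_eq a with h | h
  · obtain ⟨p, hp⟩ := pos a.natAbs
    refine ⟨p.copy rfl ?_, by rw [Walk.length_copy, hp]⟩
    conv_rhs => rw [h]
    simp
  · obtain ⟨p, hp⟩ := neg a.natAbs
    refine ⟨p.copy rfl ?_, by rw [Walk.length_copy, hp]⟩
    conv_rhs => rw [h]

theorem cyc_walk_rev {n : ℕ} (hn : 2 ≤ n) {u v : ZMod n} (p : (cyc n).Walk u v) :
    ∃ b : ℤ, b.natAbs ≤ p.length ∧ v = u + (b : ZMod n) := by
  induction p with
  | nil => exact ⟨0, by simp, by simp⟩
  | cons h p ih =>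
    obtain ⟨b, hb, rfl⟩ := ih
    rw [cyc_adj hn] at h
    rcases h with rfl | rfl
    · refine ⟨b + 1, ?_, by push_cast; ring⟩
      rw [Walk.length_cons]; omega
    · refine ⟨b - 1, ?_, by push_cast; ring⟩
      rw [Walk.length_cons]; omega

theorem cyc_connected {n : ℕ} (hn : 2 ≤ n) : (cyc n).Connected := by
  have : NeZero n := ⟨by omega⟩
  refine ⟨fun u v => ?_⟩
  obtain ⟨p, _⟩ := cyc_walk hn u ((v - u).val : ℤ)
  refine ⟨p.copy rfl ?_⟩
  simp

theorem cyc_dist {n : ℕ} (hn : 2 ≤ n) (u : ZMod n) (a : ℤ) (ha : 2 * a.natAbs ≤ n) :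
    (cyc n).dist u (u + (a : ZMod n)) = a.natAbs := by
  apply le_antisymm
  · obtain ⟨p, hp⟩ := cyc_walk hn u a
    rw [← hp]
    exact dist_le p
  · by_contra hlt
    push Not at hlt
    obtain ⟨p, hp⟩ := (cyc_connected hn).exists_walk_length_eq_dist u (u + (a : ZMod n))
    obtain ⟨b, hb, he⟩ := cyc_walk_rev hn p
    rw [hp] at hb
    have h1 : ((a - b : ℤ) : ZMod n) = 0 := by
      push_cast
      have := congrArg (fun x => x - u) he
      simp only [add_sub_cancel_left] at this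
      rw [this]; ring
    rw [ZMod.intCast_zmod_eq_zero_iff_dvd] at h1
    have h2 : a - b = 0 := by
      apply Int.eq_zero_of_abs_lt_dvd h1
      rw [abs_lt]
      omega
    have h3 : a = b := by linarith
    omega

/-- the toroidal grid -/
abbrev tor (n : ℕ) : SimpleGraph (ZMod n × ZMod n) := cyc n □ cyc n

/-- an integer vector as a vector mod `n` -/
def cz (n : ℕ) (D : ℤ × ℤ) : ZMod n × ZMod n := ((D.1 : ZMod n), (D.2 : ZMod n))

theorem cz_add (n : ℕ) (D E : ℤ × ℤ) : cz n (D + E) = cz n D + cz n E := by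
  unfold cz; simp

theorem tor_dist {n : ℕ} (hn : 2 ≤ n) (z : ZMod n × ZMod n) (D : ℤ × ℤ)
    (h1 : 2 * D.1.natAbs ≤ n) (h2 : 2 * D.2.natAbs ≤ n) :
    (tor n).dist z (z + cz n D) = D.1.natAbs + D.2.natAbs := by
  unfold SimpleGraph.dist
  rw [edist_boxProd, ENat.toNat_add]
  · have e1 := cyc_dist hn z.1 D.1 h1
    have e2 := cyc_dist hn z.2 D.2 h2
    unfold SimpleGraph.dist at e1 e2
    exact congrArg₂ (· + ·) e1 e2
  · exact (edist_ne_top_iff_reachable).2 ((cyc_connected hn).preconnected _ _)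
  · exact (edist_ne_top_iff_reachable).2 ((cyc_connected hn).preconnected _ _)

theorem tor_adj {n : ℕ} (hn : 2 ≤ n) (z w : ZMod n × ZMod n) :
    (tor n).Adj z w ↔ w = z + cz n (1, 0) ∨ w = z + cz n (-1, 0) ∨ w = z + cz n (0, 1) ∨
      w = z + cz n (0, -1) := by
  rw [boxProd_adj, cyc_adj hn, cyc_adj hn]
  unfold cz
  simp only [Prod.ext_iff, Prod.fst_add, Prod.snd_add]
  push_cast
  simp only [add_zero, ← sub_eq_add_neg]
  tauto

theorem cz_zero_iff {n : ℕ} (D : ℤ × ℤ) (h1 : D.1.natAbs < n) (h2 : D.2.natAbs < n) :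
    cz n D = 0 ↔ D = 0 := by
  constructor
  · intro h
    unfold cz at h
    rw [Prod.ext_iff] at h
    obtain ⟨e1, e2⟩ := h
    simp only [Prod.fst_zero, Prod.snd_zero] at e1 e2
    rw [ZMod.intCast_zmod_eq_zero_iff_dvd] at e1 e2
    have f1 := Int.eq_zero_of_abs_lt_dvd e1 (by rw [abs_lt]; omega)
    have f2 := Int.eq_zero_of_abs_lt_dvd e2 (by rw [abs_lt]; omega)
    exact Prod.ext f1 f2
  · rintro rfl
    simp [cz]

/-- The moves of a zombie at `z` towards a survivor at `z + D`. -/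
theorem mem_closer {n : ℕ} [NeZero n] (hn : 2 ≤ n) (z w : ZMod n × ZMod n) (D : ℤ × ℤ)
    (h1 : 2 * (D.1.natAbs + 1) ≤ n) (h2 : 2 * (D.2.natAbs + 1) ≤ n) :
    w ∈ closer (tor n) (z + cz n D) z ↔
      (D.1 ≠ 0 ∧ w = z + cz n (D.1.sign, 0)) ∨ (D.2 ≠ 0 ∧ w = z + cz n (0, D.2.sign)) := by
  unfold closer
  rw [Finset.mem_filter]
  simp only [Finset.mem_univ, true_and]
  rw [tor_adj hn, tor_dist hn z D (by omega) (by omega)]
  have key : ∀ s : ℤ × ℤ, s.1.natAbs ≤ 1 → s.2.natAbs ≤ 1 →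
      (tor n).dist (z + cz n s) (z + cz n D) = (D.1 - s.1).natAbs + (D.2 - s.2).natAbs := by
    intro s hs1 hs2
    have : z + cz n D = (z + cz n s) + cz n (D - s) := by
      rw [add_assoc, ← cz_add]
      congr 2
      ring
    rw [this, tor_dist hn _ (D - s)]
    · rfl
    · simp only [Prod.fst_sub]; omega
    · simp only [Prod.snd_sub]; omega
  constructor
  · rintro ⟨h, hd⟩
    rcases h with rfl | rfl | rfl | rfl
    · rw [key (1, 0) (by simp) (by simp)] at hd
      have h3 : 0 < D.1 := by simp only at hd; omega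
      left
      exact ⟨by omega, by rw [Int.sign_eq_one_of_pos h3]⟩
    · rw [key (-1, 0) (by simp) (by simp)] at hd
      have h3 : D.1 < 0 := by simp only at hd; omega
      left
      exact ⟨by omega, by rw [Int.sign_eq_neg_one_of_neg h3]⟩
    · rw [key (0, 1) (by simp) (by simp)] at hd
      have h3 : 0 < D.2 := by simp only at hd; omega
      right
      exact ⟨by omega, by rw [Int.sign_eq_one_of_pos h3]⟩
    · rw [key (0, -1) (by simp) (by simp)] at hd
      have h3 : D.2 < 0 := by simp only at hd; omega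
      right
      exact ⟨by omega, by rw [Int.sign_eq_neg_one_of_neg h3]⟩
  · rintro (⟨h, rfl⟩ | ⟨h, rfl⟩)
    · rcases lt_or_gt_of_ne h with h3 | h3
      · rw [Int.sign_eq_neg_one_of_neg h3]
        refine ⟨by simp, ?_⟩
        rw [key (-1, 0) (by simp) (by simp)]
        simp only; omega
      · rw [Int.sign_eq_one_of_pos h3]
        refine ⟨by simp, ?_⟩
        rw [key (1, 0) (by simp) (by simp)]
        simp only; omega
    · rcases lt_or_gt_of_ne h with h3 | h3
      · rw [Int.sign_eq_neg_one_of_neg h3]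
        refine ⟨by simp, ?_⟩
        rw [key (0, -1) (by simp) (by simp)]
        simp only; omega
      · rw [Int.sign_eq_one_of_pos h3]
        refine ⟨by simp, ?_⟩
        rw [key (0, 1) (by simp) (by simp)]
        simp only; omega

theorem sub_hx (n : ℕ) (v : ZMod n × ZMod n) (D : ℤ × ℤ) :
    v - cz n D + cz n (D.1.sign, 0) = v - cz n (hx D) := by
  unfold cz hx
  ext <;> simp
  ring

theorem sub_hy (n : ℕ) (v : ZMod n × ZMod n) (D : ℤ × ℤ) :
    v - cz n D + cz n (0, D.2.sign) = v - cz n (hy D) := by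
  unfold cz hy
  ext <;> simp
  ring

theorem closer_x {n : ℕ} [NeZero n] (hn : 2 ≤ n) (v : ZMod n × ZMod n) (D : ℤ × ℤ)
    (h1 : 2 * (D.1.natAbs + 1) ≤ n) (h2 : 2 * (D.2.natAbs + 1) ≤ n) (h3 : D.1 ≠ 0)
    (h4 : D.2 = 0) : closer (tor n) v (v - cz n D) = {v - cz n (hx D)} := by
  ext w
  have := mem_closer hn (v - cz n D) w D h1 h2
  rw [sub_add_cancel] at this
  rw [this, sub_hx, Finset.mem_singleton]
  simp [h3, h4]

theorem closer_y {n : ℕ} [NeZero n] (hn : 2 ≤ n) (v : ZMod n × ZMod n) (D : ℤ × ℤ)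
    (h1 : 2 * (D.1.natAbs + 1) ≤ n) (h2 : 2 * (D.2.natAbs + 1) ≤ n) (h3 : D.1 = 0)
    (h4 : D.2 ≠ 0) : closer (tor n) v (v - cz n D) = {v - cz n (hy D)} := by
  ext w
  have := mem_closer hn (v - cz n D) w D h1 h2
  rw [sub_add_cancel] at this
  rw [this, sub_hy, Finset.mem_singleton]
  simp [h3, h4]

theorem closer_xy {n : ℕ} [NeZero n] (hn : 2 ≤ n) (v : ZMod n × ZMod n) (D : ℤ × ℤ)
    (h1 : 2 * (D.1.natAbs + 1) ≤ n) (h2 : 2 * (D.2.natAbs + 1) ≤ n) (h3 : D.1 ≠ 0)
    (h4 : D.2 ≠ 0) :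
    closer (tor n) v (v - cz n D) = {v - cz n (hx D), v - cz n (hy D)} := by
  ext w
  have := mem_closer hn (v - cz n D) w D h1 h2
  rw [sub_add_cancel] at this
  rw [this, sub_hx, sub_hy, Finset.mem_insert, Finset.mem_singleton]
  simp [h3, h4]

theorem hx_ne_hy {n : ℕ} (v : ZMod n × ZMod n) (D : ℤ × ℤ)
    (h1 : 2 * (D.1.natAbs + 1) ≤ n) (h2 : 2 * (D.2.natAbs + 1) ≤ n) (h3 : D.1 ≠ 0) :
    v - cz n (hx D) ≠ v - cz n (hy D) := by
  intro h
  have h4 : cz n (hx D) = cz n (hy D) := by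
    have := congrArg (fun x => v - x) h
    simpa using this
  have h5 : cz n (hx D - hy D) = 0 := by
    have : cz n (hx D) = cz n (hx D - hy D) + cz n (hy D) := by rw [← cz_add]; congr 1; ring
    rw [this] at h4
    simpa using h4
  have e1 : (hx D - hy D).1 = - D.1.sign := by
    simp [hx, hy]
  have e2 : (hx D - hy D).2 = D.2.sign := by
    simp [hx, hy]
  have a1 : D.1.sign.natAbs = 1 := Int.natAbs_sign_of_ne_zero h3
  have a2 : D.2.sign.natAbs ≤ 1 := by
    rcases Int.sign_trichotomy D.2 with h | h | h <;> rw [h] <;> simp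
  rw [cz_zero_iff] at h5
  · have := congrArg Prod.fst h5
    rw [e1] at this
    simp at this
    exact h3 this
  · rw [e1, Int.natAbs_neg, a1]; omega
  · rw [e2]; omega

end MP34e
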