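import Pool.Agent.Work.MP_34e428_co.Link

/-! Upper bounds for the zombie number of the toroidal grid. -/

open Finset SimpleGraph

namespace MP34e

/-- The toroidal grid `C_n □ C_n`. -/
abbrev torus (n : ℕ) : SimpleGraph (Fin n × Fin n) := cycleGraph n □ cycleGraph n

theorem surv_torus (n : ℕ) [NeZero n] (k : ℕ) : surv (torus n) k = surv (tor n) k := by
  obtain ⟨m, rfl⟩ := Nat.exists_eq_succ_of_ne_zero (NeZero.ne n)
  unfold torus tor cyc
  rw [cycleGraph_eq_circulantGraph]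
  rfl

theorem surv_torus_le {n : ℕ} (hn : 3 ≤ n) (k T : ℕ) (hT : 6 * T + 2 ≤ n) (S : ℝ)
    (hSn : S ≤ (n : ℝ) ^ 2)
    (hS : ∀ s : List (ℤ × ℤ), s.length = T → (∀ x ∈ s, legal x) → S ≤ mass s) :
    surv (torus n) k ≤ (n : ℝ) ^ 2 * 5 ^ T * Real.exp (-(S * k / (n : ℝ) ^ 2)) := by
  have : NeZero n := ⟨by omega⟩
  rw [surv_torus]
  refine (surv_tor_le k T hT S hS).trans ?_
  apply mul_le_mul_of_nonneg_left _ (by positivity)
  have hn2 : (0 : ℝ) < (n : ℝ) ^ 2 := by positivity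
  have h1 : 1 - S / (n : ℝ) ^ 2 ≤ Real.exp (-(S / (n : ℝ) ^ 2)) := by
    have := Real.add_one_le_exp (-(S / (n : ℝ) ^ 2))
    linarith
  have h0 : 0 ≤ 1 - S / (n : ℝ) ^ 2 := by
    rw [sub_nonneg, div_le_one hn2]; exact hSn
  calc (1 - S / (n : ℝ) ^ 2) ^ k ≤ Real.exp (-(S / (n : ℝ) ^ 2)) ^ k :=
        pow_le_pow_left₀ h0 h1 k
    _ = Real.exp (-(S * k / (n : ℝ) ^ 2)) := by
        rw [← Real.exp_nat_mul]; congr 1; ring

theorem surv_five {n : ℕ} (hn : 3 ≤ n) : surv (torus n) (5 * n ^ 2) ≤ 1 / 2 := by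
  set T := (n - 2) / 6 with hT
  have h1 : 6 * T + 2 ≤ n := by omega
  have h2 : n ≤ 6 * T + 7 := by omega
  have hn2 : (0 : ℝ) < (n : ℝ) ^ 2 := by positivity
  have hS : (4 * (T : ℝ) + 1) ≤ (n : ℝ) ^ 2 := by
    have : (6 * (T : ℝ) + 2) ≤ n := by exact_mod_cast h1
    have hT0 : (0 : ℝ) ≤ T := by positivity
    nlinarith
  refine (surv_torus_le hn (5 * n ^ 2) T h1 (4 * (T : ℝ) + 1) hS (fun s hs hl => by
    have := mass_ge s hl
    rw [hs] at this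
    exact this)).trans ?_
  have e1 : (4 * (T : ℝ) + 1) * ((5 * n ^ 2 : ℕ) : ℝ) / (n : ℝ) ^ 2 = 20 * T + 5 := by
    push_cast
    field_simp
    ring
  rw [e1]
  have e2 : Real.exp (-(20 * (T : ℝ) + 5)) = Real.exp (-5) * Real.exp (-20) ^ T := by
    rw [← Real.exp_nat_mul, ← Real.exp_add]; congr 1; ring
  rw [e2]
  have h3 : (n : ℝ) ^ 2 ≤ 49 * 4 ^ T := by
    have h4 : n ≤ 7 * 2 ^ T := by
      have : T + 1 ≤ 2 ^ T := Nat.lt_two_pow_self
      omega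
    calc (n : ℝ) ^ 2 ≤ (7 * 2 ^ T : ℝ) ^ 2 := by
          apply pow_le_pow_left₀ (by positivity)
          exact_mod_cast h4
      _ = 49 * 4 ^ T := by rw [mul_pow, ← pow_mul, mul_comm T 2, pow_mul]; norm_num
  have e5 : (2.7 : ℝ) ^ 5 ≤ Real.exp 5 := by
    have := Real.exp_one_gt_d9
    calc (2.7 : ℝ) ^ 5 ≤ Real.exp 1 ^ 5 := pow_le_pow_left₀ (by norm_num) (by linarith) 5
      _ = Real.exp 5 := by rw [← Real.exp_nat_mul]; norm_num
  have e6 : Real.exp (-5) ≤ 1 / 98 := by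
    rw [Real.exp_neg, inv_eq_one_div]
    apply one_div_le_one_div_of_le (by norm_num)
    refine le_trans ?_ e5
    norm_num
  have e7 : Real.exp (-20) ≤ 1 / 20 := by
    have : Real.exp (-20) = Real.exp (-5) ^ 4 := by rw [← Real.exp_nat_mul]; norm_num
    rw [this]
    calc Real.exp (-5) ^ 4 ≤ (1 / 98) ^ 4 := pow_le_pow_left₀ (Real.exp_pos _).le e6 4
      _ ≤ 1 / 20 := by norm_num
  calc (n : ℝ) ^ 2 * 5 ^ T * (Real.exp (-5) * Real.exp (-20) ^ T)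
      ≤ (49 * 4 ^ T) * 5 ^ T * ((1 / 98) * (1 / 20) ^ T) := by
        apply mul_le_mul
        · exact mul_le_mul_of_nonneg_right h3 (by positivity)
        · exact mul_le_mul e6 (pow_le_pow_left₀ (Real.exp_pos _).le e7 T)
            (pow_nonneg (Real.exp_pos _).le _) (by norm_num)
        · exact mul_nonneg (Real.exp_pos _).le (pow_nonneg (Real.exp_pos _).le _)
        · positivity
    _ = 1 / 2 * (4 * 5 * (1 / 20)) ^ T := by rw [mul_pow, mul_pow]; ring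
    _ = 1 / 2 := by norm_num

theorem zombie_le {n : ℕ} (hn : 3 ≤ n) :
    surv (torus n) (5 * n ^ 2) ≤ 1 / 2 ∧ zombieNumber (torus n) ≤ 5 * n ^ 2 :=
  ⟨surv_five hn, Nat.sInf_le (surv_five hn)⟩

end MP34e
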