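import Pool.Agent.Work.MP_34e428_co.Fam
import Pool.Agent.Work.MP_34e428_co.Upper

/-! The capture mass of a path of length `T` is at least a constant times `T ^ (3/2)`. -/

open Finset
open scoped Classical

namespace MP34e

/-- expected distance from the origin of a simple random walk started at `m` after `w` steps -/
noncomputable def uu : ℕ → ℤ → ℝ
  | 0, m => |(m : ℝ)|
  | w + 1, m => (uu w (m + 1) + uu w (m - 1)) / 2

theorem uu_neg (w : ℕ) (m : ℤ) : uu w (-m) = uu w m := by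
  induction w generalizing m with
  | zero => simp [uu]
  | succ w ih =>
    rw [uu, uu]
    have h1 : -m + 1 = -(m - 1) := by ring
    have h2 : -m - 1 = -(m + 1) := by ring
    rw [h1, h2, ih, ih]
    ring

theorem uu_conv (w : ℕ) (a d : ℤ) : 2 * uu w a ≤ uu w (a + d) + uu w (a - d) := by
  induction w generalizing a with
  | zero =>
    simp only [uu]
    push_cast
    have := abs_add_le ((a : ℝ) + d) (a - d)
    have h2 : (a : ℝ) + d + (a - d) = 2 * a := by ring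
    rw [h2, abs_mul, abs_two] at this
    exact this
  | succ w ih =>
    simp only [uu]
    have h1 := ih (a + 1)
    have h2 := ih (a - 1)
    have e1 : a + d + 1 = a + 1 + d := by ring
    have e2 : a - d + 1 = a + 1 - d := by ring
    have e3 : a + d - 1 = a - 1 + d := by ring
    have e4 : a - d - 1 = a - 1 - d := by ring
    rw [e1, e2, e3, e4]
    linarith

theorem uu_zero_le (w : ℕ) (m : ℤ) : uu w 0 ≤ uu w m := by
  have h := uu_conv w 0 m
  rw [zero_add, zero_sub, uu_neg] at h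
  linarith

theorem uu_poly (q : ℝ) (hq : 0 < q) (w : ℕ) (m : ℤ) :
    2 * (((m : ℝ) ^ 2 + w) / q - ((m : ℝ) ^ 4 + 6 * (m : ℝ) ^ 2 * w + 3 * (w : ℝ) ^ 2 - 2 * w) / q ^ 3)
      ≤ uu w m := by
  induction w generalizing m with
  | zero =>
    simp only [uu, Nat.cast_zero]
    set x : ℝ := |(m : ℝ)| with hx
    have hx0 : 0 ≤ x := abs_nonneg _
    have e2 : (m : ℝ) ^ 2 = x ^ 2 := by rw [hx, sq_abs]
    have e4 : (m : ℝ) ^ 4 = x ^ 4 := by
      have : (m : ℝ) ^ 4 = ((m : ℝ) ^ 2) ^ 2 := by ring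
      rw [this, e2]; ring
    rw [e2, e4]
    have key : 0 ≤ q ^ 3 - 2 * q ^ 2 * x + 2 * x ^ 3 := by
      by_cases h : q ≤ 2 * x
      · have h1 : 0 ≤ q * (q - x) ^ 2 := by positivity
        have h2 : 0 ≤ x ^ 2 * (2 * x - q) := mul_nonneg (by positivity) (by linarith)
        nlinarith
      · push Not at h
        have h1 : 0 ≤ q ^ 2 * (q - 2 * x) := mul_nonneg (by positivity) (by linarith)
        have h2 : 0 ≤ x ^ 3 := by positivity
        nlinarith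
    have h3 : x - 2 * ((x ^ 2 + 0) / q - (x ^ 4 + 6 * x ^ 2 * 0 + 3 * (0 : ℝ) ^ 2 - 2 * 0) / q ^ 3)
        = x * (q ^ 3 - 2 * q ^ 2 * x + 2 * x ^ 3) / q ^ 3 := by
      field_simp
      ring
    have h4 : 0 ≤ x * (q ^ 3 - 2 * q ^ 2 * x + 2 * x ^ 3) / q ^ 3 := by positivity
    linarith
  | succ w ih =>
    simp only [uu]
    have h1 := ih (m + 1)
    have h2 := ih (m - 1)
    push_cast at h1 h2 ⊢
    have : 2 * (((m : ℝ) ^ 2 + (w + 1)) / q - ((m : ℝ) ^ 4 + 6 * (m : ℝ) ^ 2 * (w + 1)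
        + 3 * ((w : ℝ) + 1) ^ 2 - 2 * (w + 1)) / q ^ 3)
        = (2 * ((((m : ℝ) + 1) ^ 2 + w) / q - (((m : ℝ) + 1) ^ 4 + 6 * ((m : ℝ) + 1) ^ 2 * w
            + 3 * (w : ℝ) ^ 2 - 2 * w) / q ^ 3)
          + 2 * ((((m : ℝ) - 1) ^ 2 + w) / q - (((m : ℝ) - 1) ^ 4 + 6 * ((m : ℝ) - 1) ^ 2 * w
            + 3 * (w : ℝ) ^ 2 - 2 * w) / q ^ 3)) / 2 := by
      field_simp
      ring
    rw [this]
    linarith

theorem uu_ge (w : ℕ) (m : ℤ) : 2 / 5 * Real.sqrt w ≤ uu w m := by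
  refine le_trans ?_ (uu_zero_le w m)
  rcases Nat.eq_zero_or_pos w with h | h
  · subst h
    simp [uu]
  have hw : (0 : ℝ) < w := by exact_mod_cast h
  set x := Real.sqrt w with hx
  have hx0 : 0 < x := Real.sqrt_pos.2 hw
  have hxx : x * x = w := Real.mul_self_sqrt hw.le
  have h1 := uu_poly (5 / 2 * x) (by positivity) w 0
  refine le_trans ?_ h1
  have e : 2 * (((((0 : ℤ) : ℝ)) ^ 2 + w) / (5 / 2 * x) - ((((0 : ℤ) : ℝ)) ^ 4
      + 6 * (((0 : ℤ) : ℝ)) ^ 2 * w + 3 * (w : ℝ) ^ 2 - 2 * w) / (5 / 2 * x) ^ 3)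
      = (4 / 5 - 48 / 125) * x + 32 / 125 / x := by
    rw [← hxx]
    field_simp
    push_cast
    ring
  rw [e]
  have : 0 ≤ 32 / 125 / x := by positivity
  linarith

/-- the bias of a step -/
def sg (s : ℤ × ℤ) : ℤ := |s.2| - |s.1|

/-- the expected final value of the compensated difference -/
noncomputable def evl : List (ℤ × ℤ) → ℤ × ℤ → ℤ → ℝ
  | [], _, m => |(m : ℝ)|
  | t :: l, s, m => (evl l t (m + sg s + 1) + evl l t (m + sg s - 1)) / 2

theorem evl_eq (l : List (ℤ × ℤ)) (s : ℤ × ℤ) : ∃ c : ℤ, ∀ m, evl l s m = uu l.length (m + c) := by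
  induction l generalizing s with
  | nil => exact ⟨0, fun m => by simp [evl, uu]⟩
  | cons t l ih =>
    obtain ⟨c, hc⟩ := ih t
    refine ⟨sg s + c, fun m => ?_⟩
    rw [evl, hc, hc, List.length_cons, uu]
    have e1 : m + sg s + 1 + c = m + (sg s + c) + 1 := by ring
    have e2 : m + sg s - 1 + c = m + (sg s + c) - 1 := by ring
    rw [e1, e2]

theorem legal_cases (s : ℤ × ℤ) (hs : legal s) :
    s = (0, 0) ∨ s = (1, 0) ∨ s = (-1, 0) ∨ s = (0, 1) ∨ s = (0, -1) := by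
  obtain ⟨a, b⟩ := s
  unfold legal at hs
  simp only at hs
  have ha := abs_nonneg a
  have hb := abs_nonneg b
  rcases eq_or_ne a 0 with h | h
  · subst h
    rw [abs_zero, zero_add, abs_le] at hs
    have : b = -1 ∨ b = 0 ∨ b = 1 := by omega
    rcases this with rfl | rfl | rfl <;> simp
  · have h1 : 1 ≤ |a| := Int.one_le_abs h
    have h2 : |b| = 0 := by omega
    rw [abs_eq_zero] at h2
    subst h2
    rw [abs_zero, add_zero, abs_le] at hs
    have : a = -1 ∨ a = 1 := by omega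
    rcases this with rfl | rfl <;> simp

theorem pot_all (s : ℤ × ℤ) (hs : legal s) (X Y : ℤ) (r l t b : ℕ) (X1 Y1 : ℤ) (r1 l1 t1 b1 : ℕ)
    (hX1 : X1 = X + s.1) (hr1 : r1 = ((r : ℤ) - s.1).toNat) (hl1 : l1 = ((l : ℤ) + s.1).toNat)
    (hY1 : Y1 = Y + s.2) (ht1 : t1 = ((t : ℤ) - s.2).toNat) (hb1 : b1 = ((b : ℤ) + s.2).toNat) :
    |(Y1.natAbs : ℤ) - (tz X1).natAbs - (Y.natAbs - X.natAbs) - sg s - 1|
    + |((tz Y1).natAbs : ℤ) - X1.natAbs - (Y.natAbs - X.natAbs) - sg s + 1|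
    + 2 * (FF (tz X1) (r1 - 1) (l1 - 1)
      + FF Y1 (if X1 = 0 then t1 - 1 else t1) (if X1 = 0 then b1 - 1 else b1)
      + FF X1 (if Y1 = 0 then r1 - 1 else r1) (if Y1 = 0 then l1 - 1 else l1)
      + FF (tz Y1) (t1 - 1) (b1 - 1))
    ≤ 4 * (FF X r l + FF Y t b) +
      4 * (ci (Y1 = 0 ∧ r1 = 0) + ci (Y1 = 0 ∧ l1 = 0) + ci (X1 = 0 ∧ t1 = 0)
        + ci (X1 = 0 ∧ b1 = 0)) := by
  have i1 : FF Y1 (if X1 = 0 then t1 - 1 else t1) (if X1 = 0 then b1 - 1 else b1)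
      = if X1 = 0 then FF Y1 (t1 - 1) (b1 - 1) else FF Y1 t1 b1 := by split_ifs <;> rfl
  have i2 : FF X1 (if Y1 = 0 then r1 - 1 else r1) (if Y1 = 0 then l1 - 1 else l1)
      = if Y1 = 0 then FF X1 (r1 - 1) (l1 - 1) else FF X1 r1 l1 := by split_ifs <;> rfl
  rw [i1, i2]
  have hz : ∀ n : ℕ, ((n : ℤ) - 0).toNat = n ∧ ((n : ℤ) + 0).toNat = n := fun n => by simp
  rcases legal_cases s hs with rfl | rfl | rfl | rfl | rfl
  · simp only [(hz _).1, (hz _).2, add_zero] at *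
    subst hX1 hr1 hl1 hY1 ht1 hb1
    have h := pot_0 X1 Y1 r1 l1 t1 b1
    have e : sg (0, 0) = 0 := by simp [sg]
    rw [e]
    simp only [sub_zero]
    linarith
  · simp only [(hz _).1, (hz _).2, add_zero] at *
    subst hY1 ht1 hb1
    have h := pot_h 1 (Or.inl rfl) X Y1 r l t1 b1 X1 r1 l1 hX1 hr1 hl1
    have e : sg (1, 0) = -1 := by simp [sg]
    rw [e]
    simp only [sub_neg_eq_add]
    linarith
  · simp only [(hz _).1, (hz _).2, add_zero] at *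
    subst hY1 ht1 hb1
    have h := pot_h (-1) (Or.inr rfl) X Y1 r l t1 b1 X1 r1 l1 hX1 hr1 hl1
    have e : sg (-1, 0) = -1 := by simp [sg]
    rw [e]
    simp only [sub_neg_eq_add]
    linarith
  · simp only [(hz _).1, (hz _).2, add_zero] at *
    subst hX1 hr1 hl1
    have h := pot_h 1 (Or.inl rfl) Y X1 t b r1 l1 Y1 t1 b1 hY1 ht1 hb1
    have e : sg (0, 1) = 1 := by simp [sg]
    rw [e]
    have a1 : |(Y1.natAbs : ℤ) - (tz X1).natAbs - (Y.natAbs - X1.natAbs) - 1 - 1|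
        = |((tz X1).natAbs : ℤ) - Y1.natAbs - (X1.natAbs - Y.natAbs) + 1 + 1| := by
      rw [← abs_neg]; congr 1; ring
    have a2 : |((tz Y1).natAbs : ℤ) - X1.natAbs - (Y.natAbs - X1.natAbs) - 1 + 1|
        = |(X1.natAbs : ℤ) - (tz Y1).natAbs - (X1.natAbs - Y.natAbs) + 1 - 1| := by
      rw [← abs_neg]; congr 1; ring
    rw [a1, a2]
    linarith
  · simp only [(hz _).1, (hz _).2, add_zero] at *
    subst hX1 hr1 hl1
    have h := pot_h (-1) (Or.inr rfl) Y X1 t b r1 l1 Y1 t1 b1 hY1 ht1 hb1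
    have e : sg (0, -1) = 1 := by simp [sg]
    rw [e]
    have a1 : |(Y1.natAbs : ℤ) - (tz X1).natAbs - (Y.natAbs - X1.natAbs) - 1 - 1|
        = |((tz X1).natAbs : ℤ) - Y1.natAbs - (X1.natAbs - Y.natAbs) + 1 + 1| := by
      rw [← abs_neg]; congr 1; ring
    have a2 : |((tz Y1).natAbs : ℤ) - X1.natAbs - (Y.natAbs - X1.natAbs) - 1 + 1|
        = |(X1.natAbs : ℤ) - (tz Y1).natAbs - (X1.natAbs - Y.natAbs) + 1 - 1| := by
      rw [← abs_neg]; congr 1; ring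
    rw [a1, a2]
    linarith

theorem pot_main (l : List (ℤ × ℤ)) (hl : ∀ s ∈ l, legal s) (s : ℤ × ℤ) (hs : legal s) (X : ℤ)
    (r q : ℕ) (Y : ℤ) (t b : ℕ) (m : ℤ) :
    evl l s m ≤ ((|(Y.natAbs : ℤ) - X.natAbs - m| + 2 * (FF X r q + FF Y t b) : ℤ) : ℝ)
      + 2 * WW l (X + s.1) ((r : ℤ) - s.1).toNat ((q : ℤ) + s.1).toNat (Y + s.2)
        ((t : ℤ) - s.2).toNat ((b : ℤ) + s.2).toNat := by
  induction l generalizing s X r q Y t b m with
  | nil =>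
    rw [evl]
    have h1 := FF_nonneg X r q
    have h2 := FF_nonneg Y t b
    have h3 := WW_nonneg [] (X + s.1) ((r : ℤ) - s.1).toNat ((q : ℤ) + s.1).toNat (Y + s.2)
        ((t : ℤ) - s.2).toNat ((b : ℤ) + s.2).toNat
    have h4 : |m| ≤ |(Y.natAbs : ℤ) - X.natAbs - m| + 2 * (FF X r q + FF Y t b) := by
      rw [abs_eq_max_neg, abs_eq_max_neg]
      omega
    have h5 : |(m : ℝ)| = ((|m| : ℤ) : ℝ) := by push_cast; rfl
    rw [h5]
    have h6 : ((|m| : ℤ) : ℝ) ≤ ((|(Y.natAbs : ℤ) - X.natAbs - m| + 2 * (FF X r q + FF Y t b) : ℤ) : ℝ) :=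
      by exact_mod_cast h4
    linarith
  | cons t' l ih =>
    rw [evl]
    set X1 := X + s.1 with hX1
    set r1 := ((r : ℤ) - s.1).toNat with hr1
    set q1 := ((q : ℤ) + s.1).toNat with hq1
    set Y1 := Y + s.2 with hY1
    set t1 := ((t : ℤ) - s.2).toNat with ht1
    set b1 := ((b : ℤ) + s.2).toNat with hb1
    have hst := WW_step t' l (fun s hs => hl s (by simp [hs])) (hl t' (by simp)) X1 r1 q1 Y1 t1 b1
    have hpot := pot_all s hs X Y r q t b X1 Y1 r1 q1 t1 b1 hX1 hr1 hq1 hY1 ht1 hb1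
    have ih1 := ih (fun s hs => hl s (by simp [hs])) t' (hl t' (by simp)) (tz X1) (r1 - 1) (q1 - 1)
      Y1 (if X1 = 0 then t1 - 1 else t1) (if X1 = 0 then b1 - 1 else b1) (m + sg s + 1)
    have ih2 := ih (fun s hs => hl s (by simp [hs])) t' (hl t' (by simp)) X1
      (if Y1 = 0 then r1 - 1 else r1) (if Y1 = 0 then q1 - 1 else q1) (tz Y1) (t1 - 1) (b1 - 1)
      (m + sg s - 1)
    have e1 : WW l (tz X1 + t'.1) (((r1 - 1 : ℕ) : ℤ) - t'.1).toNat
        (((q1 - 1 : ℕ) : ℤ) + t'.1).toNat (Y1 + t'.2)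
        (((if X1 = 0 then t1 - 1 else t1 : ℕ) : ℤ) - t'.2).toNat
        (((if X1 = 0 then b1 - 1 else b1 : ℕ) : ℤ) + t'.2).toNat = Wh t' l X1 r1 q1 Y1 t1 b1 := by
      unfold Wh
      split_ifs <;> rfl
    have e2 : WW l (X1 + t'.1) (((if Y1 = 0 then r1 - 1 else r1 : ℕ) : ℤ) - t'.1).toNat
        (((if Y1 = 0 then q1 - 1 else q1 : ℕ) : ℤ) + t'.1).toNat (tz Y1 + t'.2)
        (((t1 - 1 : ℕ) : ℤ) - t'.2).toNat
        (((b1 - 1 : ℕ) : ℤ) + t'.2).toNat = Wv t' l X1 r1 q1 Y1 t1 b1 := by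
      unfold Wv
      split_ifs <;> rfl
    rw [e1] at ih1
    rw [e2] at ih2
    have tri1 : |(Y1.natAbs : ℤ) - (tz X1).natAbs - (m + sg s + 1)|
        ≤ |(Y.natAbs : ℤ) - X.natAbs - m|
          + |(Y1.natAbs : ℤ) - (tz X1).natAbs - (Y.natAbs - X.natAbs) - sg s - 1| := by
      have := abs_add_le ((Y.natAbs : ℤ) - X.natAbs - m)
        ((Y1.natAbs : ℤ) - (tz X1).natAbs - (Y.natAbs - X.natAbs) - sg s - 1)
      refine le_trans (le_of_eq ?_) this
      congr 1; ring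
    have tri2 : |((tz Y1).natAbs : ℤ) - X1.natAbs - (m + sg s - 1)|
        ≤ |(Y.natAbs : ℤ) - X.natAbs - m|
          + |((tz Y1).natAbs : ℤ) - X1.natAbs - (Y.natAbs - X.natAbs) - sg s + 1| := by
      have := abs_add_le ((Y.natAbs : ℤ) - X.natAbs - m)
        (((tz Y1).natAbs : ℤ) - X1.natAbs - (Y.natAbs - X.natAbs) - sg s + 1)
      refine le_trans (le_of_eq ?_) this
      congr 1; ring
    have tot : (|(Y1.natAbs : ℤ) - (tz X1).natAbs - (m + sg s + 1)|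
        + 2 * (FF (tz X1) (r1 - 1) (q1 - 1)
          + FF Y1 (if X1 = 0 then t1 - 1 else t1) (if X1 = 0 then b1 - 1 else b1)))
        + (|((tz Y1).natAbs : ℤ) - X1.natAbs - (m + sg s - 1)|
        + 2 * (FF X1 (if Y1 = 0 then r1 - 1 else r1) (if Y1 = 0 then q1 - 1 else q1)
          + FF (tz Y1) (t1 - 1) (b1 - 1)))
        ≤ 2 * (|(Y.natAbs : ℤ) - X.natAbs - m| + 2 * (FF X r q + FF Y t b))
          + 4 * (ci (Y1 = 0 ∧ r1 = 0) + ci (Y1 = 0 ∧ q1 = 0) + ci (X1 = 0 ∧ t1 = 0)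
            + ci (X1 = 0 ∧ b1 = 0)) := by
      linarith
    have tot' : ((((|(Y1.natAbs : ℤ) - (tz X1).natAbs - (m + sg s + 1)|
        + 2 * (FF (tz X1) (r1 - 1) (q1 - 1)
          + FF Y1 (if X1 = 0 then t1 - 1 else t1) (if X1 = 0 then b1 - 1 else b1)) : ℤ)) : ℝ))
        + (((|((tz Y1).natAbs : ℤ) - X1.natAbs - (m + sg s - 1)|
        + 2 * (FF X1 (if Y1 = 0 then r1 - 1 else r1) (if Y1 = 0 then q1 - 1 else q1)
          + FF (tz Y1) (t1 - 1) (b1 - 1)) : ℤ)) : ℝ)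
        ≤ 2 * (((|(Y.natAbs : ℤ) - X.natAbs - m| + 2 * (FF X r q + FF Y t b) : ℤ)) : ℝ)
          + 4 * (((ci (Y1 = 0 ∧ r1 = 0) + ci (Y1 = 0 ∧ q1 = 0) + ci (X1 = 0 ∧ t1 = 0)
            + ci (X1 = 0 ∧ b1 = 0) : ℤ)) : ℝ) := by
      exact_mod_cast tot
    linarith

end MP34e
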