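import Mathlib

/-! Module AS: choice of the parameters for the exact order of the zombie number. -/

set_option autoImplicit false

open Finset

namespace MP34e

theorem as_ev : ∃ n₀ : ℕ, ∀ n ≥ n₀, (10 ^ 6 : ℝ) ≤ Real.log n ∧
    (200 * Real.log n) ^ 120 ≤ (n : ℝ) := by
  have h1 : ∀ᶠ n : ℕ in Filter.atTop, (10 ^ 6 : ℝ) ≤ Real.log n :=
    (Real.tendsto_log_atTop.comp tendsto_natCast_atTop_atTop).eventually_ge_atTop _
  have h2 : ∀ᶠ y : ℝ in Filter.atTop, ‖Real.log y ^ 120‖ ≤ (1 / 200 ^ 120 : ℝ) * ‖id y‖ :=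
    (Real.isLittleO_pow_log_id_atTop (n := 120)).bound (by positivity)
  have h3 : ∀ᶠ n : ℕ in Filter.atTop, ‖Real.log n ^ 120‖ ≤ (1 / 200 ^ 120 : ℝ) * ‖id (n : ℝ)‖ :=
    tendsto_natCast_atTop_atTop.eventually h2
  obtain ⟨n₀, h0⟩ := Filter.eventually_atTop.mp (h1.and h3)
  refine ⟨n₀, fun n hn => ⟨(h0 n hn).1, ?_⟩⟩
  have h4 := (h0 n hn).2
  rw [Real.norm_eq_abs, abs_of_nonneg (by have := (h0 n hn).1; positivity), id,
    Real.norm_eq_abs, abs_of_nonneg (by positivity)] at h4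
  rw [mul_pow]
  calc (200 : ℝ) ^ 120 * Real.log n ^ 120 ≤ 200 ^ 120 * (1 / 200 ^ 120 * (n : ℝ)) := by gcongr
    _ = (n : ℝ) := by
      rw [← mul_assoc, mul_one_div_cancel (by positivity), one_mul]

section ascore

variable {m s K B TN T k : ℝ}

theorem as_sm (hm : 10 ^ 8 ≤ m) (hs : m ^ 60 ≤ s) (j : ℕ) (hj : j ≤ 59) : 10 ^ 8 * m ^ j ≤ s := by
  have hm1 : 1 ≤ m := by linarith
  calc 10 ^ 8 * m ^ j ≤ m * m ^ j := by gcongr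
    _ = m ^ (j + 1) := by ring
    _ ≤ m ^ 60 := pow_le_pow_right₀ hm1 (by omega)
    _ ≤ s := hs

theorem as_tn (hm : 10 ^ 8 ≤ m) (hs : m ^ 60 ≤ s) (hK : 2 * K ≤ s ^ 2)
    (hB0 : 0 ≤ B) (hB : B ≤ 2 * m * s)
    (hTN : TN = 2 * (B + 8000 * (16 * m) + 102) ^ 2 * m + 8 * K) :
    TN + 1 ≤ 19 * m ^ 3 * s ^ 2 := by
  have hs1 := as_sm hm hs 1 (by norm_num)
  have hm1 : 1 ≤ m := by linarith
  have h1 : B + 8000 * (16 * m) + 102 ≤ 3 * m * s := by nlinarith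
  have h2 : 2 * (B + 8000 * (16 * m) + 102) ^ 2 * m ≤ 2 * (3 * m * s) ^ 2 * m := by gcongr
  have h3 : 2 * (3 * m * s) ^ 2 * m = 18 * (m ^ 3 * s ^ 2) := by ring
  have h4 : 5 * s ^ 2 ≤ m ^ 3 * s ^ 2 := by
    apply mul_le_mul_of_nonneg_right _ (by positivity)
    calc (5 : ℝ) ≤ 10 ^ 8 := by norm_num
      _ ≤ m := hm
      _ ≤ m ^ 3 := le_self_pow₀ hm1 (by norm_num)
  have h5 : 1 ≤ s ^ 2 := one_le_pow₀ (by nlinarith)
  rw [hTN]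
  nlinarith

theorem as_t (hm : 10 ^ 8 ≤ m) (hs : m ^ 60 ≤ s) (hK0 : 0 ≤ K) (hK : 2 * K ≤ s ^ 2)
    (hTN : TN + 1 ≤ 19 * m ^ 3 * s ^ 2)
    (hT : T = TN + (m + 1) * (2 * (3 * K + 2) ^ 2 * m + 1) + 30 * K) :
    T + 1 ≤ s ^ 5 := by
  have hs1 := as_sm hm hs 1 (by norm_num)
  have hs2 := as_sm hm hs 2 (by norm_num)
  have hs3 := as_sm hm hs 3 (by norm_num)
  have hm1 : 1 ≤ m := by linarith
  have hs0 : 10 ^ 8 ≤ s := by nlinarith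
  have hs0' : 0 ≤ s := by linarith
  have h1 : 3 * K + 2 ≤ 2 * s ^ 2 := by nlinarith
  have h2 : 2 * (3 * K + 2) ^ 2 * m + 1 ≤ 9 * s ^ 4 * m := by
    have h3 : 2 * (3 * K + 2) ^ 2 * m ≤ 2 * (2 * s ^ 2) ^ 2 * m := by gcongr
    have h4 : 1 ≤ s ^ 4 * m := by
      have := one_le_pow₀ (n := 4) (show 1 ≤ s by linarith)
      nlinarith
    have h5 : 2 * (2 * s ^ 2) ^ 2 * m = 8 * (s ^ 4 * m) := by ring
    nlinarith
  have h3 : (m + 1) * (2 * (3 * K + 2) ^ 2 * m + 1) ≤ (2 * m) * (9 * s ^ 4 * m) := by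
    apply mul_le_mul (by linarith) h2 (by positivity) (by positivity)
  have h4 : (2 * m) * (9 * s ^ 4 * m) = 18 * (m ^ 2 * s ^ 4) := by ring
  have h5 : 10 ^ 8 * (m ^ 2 * s ^ 4) ≤ s ^ 5 := by
    calc 10 ^ 8 * (m ^ 2 * s ^ 4) = (10 ^ 8 * m ^ 2) * s ^ 4 := by ring
      _ ≤ s * s ^ 4 := by gcongr
      _ = s ^ 5 := by ring
  have h6 : 10 ^ 8 * (m ^ 3 * s ^ 2) ≤ s ^ 5 := by
    calc 10 ^ 8 * (m ^ 3 * s ^ 2) = (10 ^ 8 * m ^ 3) * s ^ 2 := by ring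
      _ ≤ s * s ^ 2 := by gcongr
      _ = s ^ 3 := by ring
      _ ≤ s ^ 5 := pow_le_pow_right₀ (by linarith) (by norm_num)
  have h7 : 10 ^ 8 * s ^ 2 ≤ s ^ 5 := by
    calc 10 ^ 8 * s ^ 2 ≤ s * s ^ 2 := by gcongr
      _ = s ^ 3 := by ring
      _ ≤ s ^ 5 := pow_le_pow_right₀ (by linarith) (by norm_num)
  have h8 : 0 ≤ s ^ 5 := by positivity
  rw [hT]
  linarith

theorem as_i (hm : 10 ^ 8 ≤ m) (hs : m ^ 60 ≤ s) (hk : k ≤ s ^ 3) :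
    k * ((60000 * (16 * m) + 1) ^ 2 / s ^ 4) ≤ 1 / 100 := by
  have hm1 : 1 ≤ m := by linarith
  have hm0 : 0 < m := by linarith
  have hs0 : 0 < s := lt_of_lt_of_le (by positivity) hs
  have h1 : 60000 * (16 * m) + 1 ≤ 10 ^ 6 * m := by linarith
  calc k * ((60000 * (16 * m) + 1) ^ 2 / s ^ 4) ≤ s ^ 3 * ((10 ^ 6 * m) ^ 2 / s ^ 4) := by gcongr
    _ = 10 ^ 12 * m ^ 2 / s := by field_simp
    _ ≤ 10 ^ 12 * m ^ 2 / m ^ 60 := by gcongr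
    _ = 10 ^ 12 / m ^ 58 := by field_simp
    _ ≤ 10 ^ 12 / (10 ^ 8) ^ 58 := by gcongr
    _ ≤ 1 / 100 := by norm_num

theorem as_viii (hm : 10 ^ 8 ≤ m) (hs : m ^ 60 ≤ s) (hk0 : 0 ≤ k) (hk : k ≤ s ^ 3)
    (hTN0 : 0 ≤ TN) (hTN : TN + 1 ≤ 19 * m ^ 3 * s ^ 2) :
    k ^ 3 * (TN + 1) * (2 * (12000 * (16 * m)) + 1) ^ 2 *
      ((200 * (1000 * (16 * m) + 4)) ^ 2 / s ^ 4) ^ 3 ≤ 1 / 100 := by
  have hm1 : 1 ≤ m := by linarith
  have hm0 : 0 < m := by linarith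
  have hs0 : 0 < s := lt_of_lt_of_le (by positivity) hs
  have h1 : 2 * (12000 * (16 * m)) + 1 ≤ 10 ^ 6 * m := by linarith
  have h2 : 200 * (1000 * (16 * m) + 4) ≤ 10 ^ 7 * m := by linarith
  calc k ^ 3 * (TN + 1) * (2 * (12000 * (16 * m)) + 1) ^ 2 *
      ((200 * (1000 * (16 * m) + 4)) ^ 2 / s ^ 4) ^ 3
      ≤ (s ^ 3) ^ 3 * (19 * m ^ 3 * s ^ 2) * (10 ^ 6 * m) ^ 2 *
          ((10 ^ 7 * m) ^ 2 / s ^ 4) ^ 3 := by gcongr
    _ = 19 * 10 ^ 54 * m ^ 11 / s := by field_simp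
    _ ≤ 19 * 10 ^ 54 * m ^ 11 / m ^ 60 := by gcongr
    _ = 19 * 10 ^ 54 / m ^ 49 := by field_simp
    _ ≤ 19 * 10 ^ 54 / (10 ^ 8) ^ 49 := by gcongr
    _ ≤ 1 / 100 := by norm_num

theorem as_c (hm : 10 ^ 8 ≤ m) (hs : m ^ 60 ≤ s) (hK1 : s ^ 2 ≤ 2 * K + 1)
    (hB : B ≤ 2 * m * s) : 500000 * (16 * m) + 10 * B + 1000 ≤ K := by
  have hs1 := as_sm hm hs 1 (by norm_num)
  have hm1 : 1 ≤ m := by linarith
  have hs0 : 10 ^ 8 ≤ s := by nlinarith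
  have h2 : 10 ^ 8 * (m * s) ≤ s ^ 2 := by nlinarith
  have h3 : s * 10 ^ 8 ≤ s ^ 2 := by nlinarith
  nlinarith

theorem as_d (hm : 10 ^ 8 ≤ m) (hs : m ^ 60 ≤ s) (hK1 : s ^ 2 ≤ 2 * K + 1) :
    (6000 * (16 * m)) ^ 2 ≤ K := by
  have hs1 := as_sm hm hs 1 (by norm_num)
  have hm1 : 1 ≤ m := by linarith
  have hs0 : 10 ^ 8 ≤ s := by nlinarith
  have h2 : (10 ^ 8 * m) ^ 2 ≤ s ^ 2 := by
    apply pow_le_pow_left₀ (by positivity)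
    simpa using hs1
  nlinarith

theorem as_e (hm : 10 ^ 8 ≤ m) (hs : m ^ 60 ≤ s) (hK : 2 * K ≤ s ^ 2) (hK1 : s ^ 2 ≤ 2 * K + 1)
    (hTN0 : 0 ≤ TN) (hTN : TN + 1 ≤ 19 * m ^ 3 * s ^ 2) :
    (16 * m) ^ 6 * (K + TN) ^ 2 ≤ K ^ 3 := by
  have hs1 := as_sm hm hs 1 (by norm_num)
  have hs12 := as_sm hm hs 12 (by norm_num)
  have hm1 : 1 ≤ m := by linarith
  have hm0 : 0 ≤ m := by linarith
  have hs0 : 10 ^ 8 ≤ s := by nlinarith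
  have hs0' : 0 ≤ s := by linarith
  have hK4 : s ^ 2 / 4 ≤ K := by nlinarith
  have hK0 : 0 ≤ K := le_trans (by positivity) hK4
  have h1 : s ^ 2 ≤ m ^ 3 * s ^ 2 := by
    have : 1 ≤ m ^ 3 := one_le_pow₀ hm1
    nlinarith
  have h2 : K + TN ≤ 20 * m ^ 3 * s ^ 2 := by linarith
  have h3 : 10 ^ 16 * m ^ 12 ≤ s ^ 2 := by
    have h4 : (10 ^ 8 * m ^ 12) * 10 ^ 8 ≤ s * s := by
      apply mul_le_mul hs12 hs0 (by norm_num) hs0'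
    linarith
  calc (16 * m) ^ 6 * (K + TN) ^ 2 ≤ (16 * m) ^ 6 * (20 * m ^ 3 * s ^ 2) ^ 2 := by gcongr
    _ = (16 ^ 6 * 400) * m ^ 12 * s ^ 4 := by ring
    _ ≤ (10 ^ 16 / 64) * m ^ 12 * s ^ 4 := by gcongr; norm_num
    _ = (10 ^ 16 * m ^ 12) * s ^ 4 / 64 := by ring
    _ ≤ s ^ 2 * s ^ 4 / 64 := by gcongr
    _ = (s ^ 2 / 4) ^ 3 := by ring
    _ ≤ K ^ 3 := by gcongr

end ascore

/-- `s ^ 13` is at most `exp (0.065 m)` -/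
theorem as_exp {m s : ℝ} (hs0 : 0 ≤ s) (hs : s ≤ Real.exp (m / 200)) :
    s ^ 13 ≤ Real.exp (13 * m / 200) := by
  calc s ^ 13 ≤ (Real.exp (m / 200)) ^ 13 := by gcongr
    _ = Real.exp (13 * m / 200) := by
      rw [← Real.exp_nat_mul]; congr 1; push_cast; ring

theorem as_half : (1 / 2 : ℝ) ≤ Real.exp (-(6 / 10)) := by
  have h2 : Real.exp (6 / 10) ≤ 2 := by
    have h3 : Real.exp (6 / 10) ^ 5 ≤ 2 ^ 5 := by
      rw [← Real.exp_nat_mul, show ((5 : ℕ) : ℝ) * (6 / 10) = ((3 : ℕ) : ℝ) * 1 by norm_num,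
        Real.exp_nat_mul]
      have h4 := Real.exp_one_lt_d9
      calc Real.exp 1 ^ 3 ≤ 2.7182818286 ^ 3 := by gcongr
        _ ≤ 2 ^ 5 := by norm_num
    exact le_of_pow_le_pow_left₀ (by norm_num) (by norm_num) h3
  rw [Real.exp_neg, inv_eq_one_div]
  exact one_div_le_one_div_of_le (Real.exp_pos _) h2

theorem as_half_pow (m : ℕ) : (1 / 2 : ℝ) ^ m ≤ Real.exp (-(6 * m / 10)) := by
  calc (1 / 2 : ℝ) ^ m ≤ (Real.exp (-(6 / 10))) ^ m := by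
        gcongr; exact as_half
    _ = Real.exp (-(6 * m / 10)) := by
      rw [← Real.exp_nat_mul]; congr 1; ring

theorem as_small {m : ℝ} (hm : 10 ^ 8 ≤ m) : Real.exp (-(m / 2)) ≤ 1 / 1000 := by
  rw [Real.exp_neg, inv_eq_one_div]
  apply one_div_le_one_div_of_le (by norm_num)
  have := Real.add_one_le_exp (m / 2)
  linarith

/-- `s ^ 13 * 2 ^ (-m)` is small -/
theorem as_small_half {m : ℕ} {s : ℝ} (hm : (10 ^ 8 : ℝ) ≤ m) (hs0 : 0 ≤ s)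
    (hs : s ≤ Real.exp (m / 200)) : s ^ 13 * (1 / 2) ^ m ≤ 1 / 1000 := by
  calc s ^ 13 * (1 / 2) ^ m ≤ Real.exp (13 * m / 200) * Real.exp (-(6 * m / 10)) := by
        gcongr
        · exact as_exp hs0 hs
        · exact as_half_pow m
    _ = Real.exp (13 * m / 200 + -(6 * m / 10)) := by rw [Real.exp_add]
    _ ≤ Real.exp (-(m / 2)) := by
      apply Real.exp_le_exp.mpr
      linarith
    _ ≤ 1 / 1000 := as_small hm

theorem as_small_exp {m s : ℝ} (hm : 10 ^ 8 ≤ m) (hs0 : 0 ≤ s)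
    (hs : s ≤ Real.exp (m / 200)) : s ^ 13 * Real.exp (-(16 * m / 25)) ≤ 1 / 1000 := by
  calc s ^ 13 * Real.exp (-(16 * m / 25)) ≤ Real.exp (13 * m / 200) * Real.exp (-(16 * m / 25)) := by
        gcongr
        exact as_exp hs0 hs
    _ = Real.exp (13 * m / 200 + -(16 * m / 25)) := by rw [Real.exp_add]
    _ ≤ Real.exp (-(m / 2)) := by
      apply Real.exp_le_exp.mpr
      linarith
    _ ≤ 1 / 1000 := as_small hm

/-- the binomial term -/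
theorem as_choose (k m : ℕ) (C s r : ℝ) (hC : 0 < C) (hs : 0 < s) (hr0 : 0 ≤ r) (hr : r ≤ s)
    (δ P : ℝ) (hδ0 : 0 ≤ δ) (hk : (k : ℝ) ≤ δ * s ^ 3) (hP : 1 ≤ P) (hδ : 64 * C * δ ≤ 1 / (2 * P)) :
    (k.choose (m + 1) : ℝ) * (P ^ m * 2) * (C * (16 * m) * r / s ^ 4) ^ (m + 1) ≤ (1 / 2) ^ m := by
  have hfac : (((m + 1 : ℕ) : ℝ)) ^ (m + 1) / ((m + 1).factorial : ℝ) ≤ Real.exp ((m + 1 : ℕ) : ℝ) :=
    Real.pow_div_factorial_le_exp _ (by positivity) _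
  have hexp : Real.exp ((m + 1 : ℕ) : ℝ) ≤ 4 ^ (m + 1) := by
    rw [show ((m + 1 : ℕ) : ℝ) = ((m + 1 : ℕ) : ℝ) * 1 by ring, Real.exp_nat_mul]
    gcongr
    have := Real.exp_one_lt_d9
    linarith
  have hch : (k.choose (m + 1) : ℝ) ≤ (k : ℝ) ^ (m + 1) / ((m + 1).factorial : ℝ) :=
    Nat.choose_le_pow_div _ _
  have hm1 : (0 : ℝ) < (((m + 1 : ℕ) : ℝ)) ^ (m + 1) := by positivity
  have hf0 : (0 : ℝ) < ((m + 1).factorial : ℝ) := by positivity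
  have hinv : 1 / ((m + 1).factorial : ℝ) ≤ 4 ^ (m + 1) / (((m + 1 : ℕ) : ℝ)) ^ (m + 1) := by
    rw [div_le_div_iff₀ hf0 hm1]
    have := hfac.trans hexp
    rw [div_le_iff₀ hf0] at this
    linarith
  have hch2 : (k.choose (m + 1) : ℝ) ≤ (4 * k / ((m + 1 : ℕ) : ℝ)) ^ (m + 1) := by
    calc (k.choose (m + 1) : ℝ) ≤ (k : ℝ) ^ (m + 1) / ((m + 1).factorial : ℝ) := hch
      _ = (k : ℝ) ^ (m + 1) * (1 / ((m + 1).factorial : ℝ)) := by ring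
      _ ≤ (k : ℝ) ^ (m + 1) * (4 ^ (m + 1) / (((m + 1 : ℕ) : ℝ)) ^ (m + 1)) := by gcongr
      _ = (4 * k / ((m + 1 : ℕ) : ℝ)) ^ (m + 1) := by
        rw [div_pow, mul_pow]; ring
  have hbase : (4 * k / ((m + 1 : ℕ) : ℝ)) * (C * (16 * m) * r / s ^ 4) ≤ 1 / (2 * P) := by
    have hm0 : (0 : ℝ) < ((m + 1 : ℕ) : ℝ) := by positivity
    have hmm : (m : ℝ) / ((m + 1 : ℕ) : ℝ) ≤ 1 := by
      rw [div_le_one hm0]; push_cast; linarith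
    have hmm0 : 0 ≤ (m : ℝ) / ((m + 1 : ℕ) : ℝ) := by positivity
    calc (4 * k / ((m + 1 : ℕ) : ℝ)) * (C * (16 * m) * r / s ^ 4)
        = 64 * C * ((m : ℝ) / ((m + 1 : ℕ) : ℝ)) * (k * r / s ^ 4) := by ring
      _ ≤ 64 * C * 1 * ((δ * s ^ 3) * s / s ^ 4) := by gcongr
      _ = 64 * C * δ := by field_simp
      _ ≤ 1 / (2 * P) := hδ
  have hbase0 : 0 ≤ (4 * k / ((m + 1 : ℕ) : ℝ)) * (C * (16 * m) * r / s ^ 4) := by positivity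
  have hP0 : 0 < P := by linarith
  calc (k.choose (m + 1) : ℝ) * (P ^ m * 2) * (C * (16 * m) * r / s ^ 4) ^ (m + 1)
      ≤ (4 * k / ((m + 1 : ℕ) : ℝ)) ^ (m + 1) * (P ^ m * 2) *
          (C * (16 * m) * r / s ^ 4) ^ (m + 1) := by gcongr
    _ = ((4 * k / ((m + 1 : ℕ) : ℝ)) * (C * (16 * m) * r / s ^ 4)) ^ (m + 1) * (P ^ m * 2) := by
      rw [mul_pow]; ring
    _ ≤ (1 / (2 * P)) ^ (m + 1) * (P ^ m * 2) := by gcongr
    _ = (1 / 2) ^ m * (1 / P) := by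
      rw [div_pow, mul_pow, div_pow]
      field_simp
      simp only [one_pow]
      ring
    _ ≤ (1 / 2) ^ m * 1 := by
      gcongr
      rw [div_le_one hP0]; exact hP
    _ = (1 / 2) ^ m := mul_one _

/-- AS: choice of the parameters (m of order 100 log n, B of order sqrt(n) log n, S₁, TN of order
n log^3 n, S₂ of order n² log n, l of order log n). -/
theorem asymZ (C₁ : ℝ) (hC₁ : 0 < C₁) : ∃ δ : ℝ, 0 < δ ∧ ∃ n₀ : ℕ, ∀ n ≥ n₀, ∀ K o k : ℕ,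
    n + o = 2 * K + 1 → o ≤ 1 → (k : ℝ) ≤ δ * (n * Real.sqrt n) →
    ∃ m B S₁ TN S₂ l T : ℕ, 100 ≤ m ∧ 500000 * (16 * m) + 10 * B + 1000 ≤ K ∧
      S₁ + 8 * K ≤ TN ∧ TN + (l + 1) * (S₂ + 1) + 30 * K ≤ T ∧ (6000 * (16 * m)) ^ 2 ≤ K ∧
      (16 * m) ^ 6 * (K + TN) ^ 2 ≤ K ^ 3 ∧
      (k : ℝ) * ((60000 * ((16 * m : ℕ) : ℝ) + 1) ^ 2 / (n : ℝ) ^ 2 +
          ((T : ℝ) + 1) ^ 2 * (2 * Real.exp (-(((16 * m : ℕ) : ℝ) / 25))) +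
          ((T : ℝ) + 1) ^ 2 * (2 * Real.exp (-((B : ℝ) ^ 2 / (2 * ((4 * K : ℕ) : ℝ))))) +
          ((T : ℝ) + 1) * (1 / 2) ^ (S₁ / (2 * (B + 8000 * (16 * m) + 100 + 2) ^ 2)) +
          ((T : ℝ) + 1) * (1 / 2) ^ (S₂ / (2 * (3 * K + 2) ^ 2))) +
        ((T : ℝ) + 1) ^ 2 * ((k.choose (m + 1)) * 2 ^ (2000 * (16 * m) + 1) *
          (C₁ * ((16 * m : ℕ) : ℝ) * Real.sqrt K / (n : ℝ) ^ 2) ^ (m + 1)) +
        ((T : ℝ) + 1) ^ 2 * (1 / 2) ^ (m + 2) +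
        (k : ℝ) ^ 3 * ((TN : ℝ) + 1) * (2 * ((12000 * (16 * m) : ℕ) : ℝ) + 1) ^ 2 *
          ((200 * (((1000 * (16 * m) : ℕ) : ℝ) + 4)) ^ 2 / (n : ℝ) ^ 2) ^ 3 +
        (k : ℝ) * (1 / 2) ^ l ≤ 1 / 4 := by
  obtain ⟨P, hPdef⟩ : ∃ P : ℝ, P = (2 ^ 32000 : ℝ) := ⟨_, rfl⟩
  have hP1 : 1 ≤ P := by rw [hPdef]; exact one_le_pow₀ (by norm_num)
  have hP0 : 0 < P := lt_of_lt_of_le one_pos hP1
  have hPm : ∀ m : ℕ, (2 : ℝ) ^ (2000 * (16 * m) + 1) = P ^ m * 2 := by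
    intro m
    rw [hPdef, ← pow_mul, pow_succ]
    congr 2
    ring
  clear hPdef
  obtain ⟨δ, hδdef⟩ : ∃ δ : ℝ, δ = min 1 (1 / (2 * P) / (64 * C₁)) := ⟨_, rfl⟩
  have hδ0 : 0 < δ := by rw [hδdef]; positivity
  have hδ1 : δ ≤ 1 := by rw [hδdef]; exact min_le_left _ _
  have hδ2 : 64 * C₁ * δ ≤ 1 / (2 * P) := by
    have h1 : δ ≤ 1 / (2 * P) / (64 * C₁) := by rw [hδdef]; exact min_le_right _ _
    calc 64 * C₁ * δ ≤ 64 * C₁ * (1 / (2 * P) / (64 * C₁)) := by gcongr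
      _ = 1 / (2 * P) := by field_simp
  clear hδdef
  obtain ⟨n₀, h0⟩ := as_ev
  refine ⟨δ, hδ0, n₀, fun n hn K o k hno ho hk => ?_⟩
  obtain ⟨hx, hp⟩ := h0 n hn
  obtain ⟨x, hxdef⟩ : ∃ x : ℝ, x = Real.log n := ⟨_, rfl⟩
  rw [← hxdef] at hx hp
  have hx0 : 0 < x := by linarith
  have hn1 : 1 ≤ n := by
    rcases Nat.eq_zero_or_pos n with h | h
    · rw [h, Nat.cast_zero, Real.log_zero] at hxdef
      linarith
    · exact h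
  have hn1' : (1 : ℝ) ≤ n := by exact_mod_cast hn1
  obtain ⟨m, hmdef⟩ : ∃ m : ℕ, m = ⌈100 * x⌉₊ := ⟨_, rfl⟩
  have hxm : 100 * x ≤ m := by rw [hmdef]; exact Nat.le_ceil _
  have hmx1 : (m : ℝ) ≤ 100 * x + 1 := by
    rw [hmdef]; exact (Nat.ceil_lt_add_one (by positivity)).le
  have hmx : (m : ℝ) ≤ 200 * x := by linarith
  have hm : (10 ^ 8 : ℝ) ≤ m := by linarith
  have hmN : 10 ^ 8 ≤ m := by exact_mod_cast hm
  have hm1 : (1 : ℝ) ≤ m := by linarith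
  obtain ⟨s, hsdef⟩ : ∃ s : ℝ, s = Real.sqrt n := ⟨_, rfl⟩
  rw [← hsdef] at hk
  have hs0 : 0 ≤ s := by rw [hsdef]; exact Real.sqrt_nonneg _
  have hs2 : s ^ 2 = n := by rw [hsdef]; exact Real.sq_sqrt (by positivity)
  have hms : (m : ℝ) ^ 60 ≤ s := by
    have h1 : (200 * x) ^ 60 ≤ s := by
      rw [hsdef]
      apply Real.le_sqrt_of_sq_le
      rw [← pow_mul]
      exact hp
    exact (pow_le_pow_left₀ (by positivity) hmx 60).trans h1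
  have hsm : (m : ℝ) ≤ s := (le_self_pow₀ hm1 (by norm_num)).trans hms
  have hs1 : 1 ≤ s := hm1.trans hsm
  have hs210 : (10 : ℝ) ≤ s ^ 2 := by
    calc (10 : ℝ) ≤ 10 ^ 8 := by norm_num
      _ ≤ s := hm.trans hsm
      _ ≤ s ^ 2 := le_self_pow₀ hs1 (by norm_num)
  have hse : s ≤ Real.exp (m / 200) := by
    rw [hsdef, Real.sqrt_le_left (Real.exp_pos _).le, ← Real.exp_nat_mul]
    calc (n : ℝ) = Real.exp x := by rw [hxdef, Real.exp_log (by linarith)]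
      _ ≤ Real.exp (((2 : ℕ) : ℝ) * (m / 200)) := by
        apply Real.exp_le_exp.mpr
        push_cast
        linarith
  have hK : 2 * (K : ℝ) ≤ s ^ 2 := by
    rw [hs2]
    have : 2 * K ≤ n := by omega
    exact_mod_cast this
  have hK1 : s ^ 2 ≤ 2 * (K : ℝ) + 1 := by
    rw [hs2]
    have : n ≤ 2 * K + 1 := by omega
    exact_mod_cast this
  have hkd : (k : ℝ) ≤ δ * s ^ 3 := by
    have : (n : ℝ) * s = s ^ 3 := by rw [← hs2]; ring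
    rw [← this]; exact hk
  have hks3 : (k : ℝ) ≤ s ^ 3 := by
    refine hkd.trans ?_
    have h3 : 0 ≤ s ^ 3 := by positivity
    nlinarith
  have hk0 : (0 : ℝ) ≤ k := by positivity
  -- the number `B`
  obtain ⟨B, hBdef⟩ : ∃ B : ℕ, B = m * (Nat.sqrt n + 1) := ⟨_, rfl⟩
  have hsq1 : s ≤ (Nat.sqrt n : ℝ) + 1 := by
    rw [hsdef, Real.sqrt_le_left (by positivity)]
    have := Nat.lt_succ_sqrt n
    have h2 : (n : ℝ) < ((Nat.sqrt n : ℝ) + 1) * ((Nat.sqrt n : ℝ) + 1) := by exact_mod_cast this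
    nlinarith
  have hsq2 : (Nat.sqrt n : ℝ) ≤ s := by rw [hsdef]; exact Real.nat_sqrt_le_real_sqrt
  have hB1 : m * s ≤ B := by
    rw [hBdef]; push_cast
    exact mul_le_mul_of_nonneg_left hsq1 (by positivity)
  have hB2 : (B : ℝ) ≤ 2 * m * s := by
    rw [hBdef]; push_cast
    have : (Nat.sqrt n : ℝ) + 1 ≤ 2 * s := by linarith
    calc (m : ℝ) * ((Nat.sqrt n : ℝ) + 1) ≤ m * (2 * s) := by gcongr
      _ = 2 * m * s := by ring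
  have hB0 : (0 : ℝ) ≤ B := by positivity
  obtain ⟨S₁, hS1⟩ : ∃ S : ℕ, S = 2 * (B + 8000 * (16 * m) + 100 + 2) ^ 2 * m := ⟨_, rfl⟩
  obtain ⟨S₂, hS2⟩ : ∃ S : ℕ, S = 2 * (3 * K + 2) ^ 2 * m := ⟨_, rfl⟩
  obtain ⟨TN, hTNdef⟩ : ∃ TN : ℕ, TN = S₁ + 8 * K := ⟨_, rfl⟩
  obtain ⟨T, hTdef⟩ : ∃ T : ℕ, T = TN + (m + 1) * (S₂ + 1) + 30 * K := ⟨_, rfl⟩
  have hTN : (TN : ℝ) + 1 ≤ 19 * (m : ℝ) ^ 3 * s ^ 2 := by
    apply as_tn hm hms hK hB0 hB2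
    rw [hTNdef, hS1]; push_cast; ring
  have hT : (T : ℝ) + 1 ≤ s ^ 5 := by
    apply as_t (K := (K : ℝ)) hm hms (by positivity) hK hTN
    rw [hTdef, hS2]; push_cast; ring
  refine ⟨m, B, S₁, TN, S₂, m, T, by omega, ?_, ?_, ?_, ?_, ?_, ?_⟩
  · have := as_c (K := (K : ℝ)) hm hms hK1 hB2
    exact_mod_cast this
  · exact hTNdef.ge
  · exact hTdef.ge
  · have := as_d (K := (K : ℝ)) hm hms hK1
    exact_mod_cast this
  · have := as_e (K := (K : ℝ)) (TN := (TN : ℝ)) hm hms hK hK1 (by positivity) hTN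
    exact_mod_cast this
  · -- the estimate
    have hn4 : (n : ℝ) ^ 2 = s ^ 4 := by rw [← hs2]; ring
    rw [hn4]
    have hdiv1 : S₁ / (2 * (B + 8000 * (16 * m) + 100 + 2) ^ 2) = m := by
      rw [hS1]; exact Nat.mul_div_cancel_left _ (by positivity)
    have hdiv2 : S₂ / (2 * (3 * K + 2) ^ 2) = m := by
      rw [hS2]; exact Nat.mul_div_cancel_left _ (by positivity)
    rw [hdiv1, hdiv2, hPm m]
    have hs3 : 0 ≤ s ^ 3 := by positivity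
    have hT0 : (0 : ℝ) ≤ (T : ℝ) + 1 := by positivity
    have hEx := as_small_exp (m := (m : ℝ)) hm hs0 hse
    have hHf := as_small_half hm hs0 hse
    have hcastE : (-(((16 * m : ℕ) : ℝ) / 25)) = -(16 * (m : ℝ) / 25) := by push_cast; ring
    rw [hcastE]
    obtain ⟨E, hE⟩ : ∃ E : ℝ, E = Real.exp (-(16 * (m : ℝ) / 25)) := ⟨_, rfl⟩
    rw [← hE] at hEx ⊢
    have hE0 : 0 < E := by rw [hE]; exact Real.exp_pos _
    have a1 : (k : ℝ) * ((60000 * ((16 * m : ℕ) : ℝ) + 1) ^ 2 / s ^ 4) ≤ 1 / 100 := by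
      push_cast
      exact as_i hm hms hks3
    have hkT : (k : ℝ) * ((T : ℝ) + 1) ^ 2 ≤ s ^ 13 := by
      calc (k : ℝ) * ((T : ℝ) + 1) ^ 2 ≤ s ^ 3 * (s ^ 5) ^ 2 := by gcongr
        _ = s ^ 13 := by ring
    have hkT1 : (k : ℝ) * ((T : ℝ) + 1) ≤ s ^ 13 := by
      calc (k : ℝ) * ((T : ℝ) + 1) ≤ s ^ 3 * s ^ 5 := by gcongr
        _ = s ^ 8 := by ring
        _ ≤ s ^ 13 := pow_le_pow_right₀ hs1 (by norm_num)
    have hT2 : ((T : ℝ) + 1) ^ 2 ≤ s ^ 13 := by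
      calc ((T : ℝ) + 1) ^ 2 ≤ (s ^ 5) ^ 2 := by gcongr
        _ = s ^ 10 := by ring
        _ ≤ s ^ 13 := pow_le_pow_right₀ hs1 (by norm_num)
    have a2 : (k : ℝ) * (((T : ℝ) + 1) ^ 2 * (2 * E)) ≤ 2 / 1000 := by
      calc (k : ℝ) * (((T : ℝ) + 1) ^ 2 * (2 * E)) = 2 * ((k : ℝ) * ((T : ℝ) + 1) ^ 2 * E) := by
            ring
        _ ≤ 2 * (s ^ 13 * E) := by gcongr
        _ ≤ 2 * (1 / 1000) := by gcongr
        _ = 2 / 1000 := by norm_num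
    have a3 : (k : ℝ) * (((T : ℝ) + 1) ^ 2 *
        (2 * Real.exp (-((B : ℝ) ^ 2 / (2 * ((4 * K : ℕ) : ℝ)))))) ≤ 2 / 1000 := by
      have hexp : Real.exp (-((B : ℝ) ^ 2 / (2 * ((4 * K : ℕ) : ℝ)))) ≤ E := by
        rw [hE]
        apply Real.exp_le_exp.mpr
        apply neg_le_neg
        have hK0 : (0 : ℝ) < K := by
          linarith only [hs210, hK1]
        rw [le_div_iff₀ (by push_cast; positivity)]
        push_cast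
        have h1 : (m * s) ^ 2 ≤ (B : ℝ) ^ 2 := by gcongr
        have h2 : (m : ℝ) * (2 * K) ≤ (m : ℝ) * s ^ 2 := by gcongr
        have h30 : 0 ≤ (m : ℝ) * s ^ 2 := by positivity
        have h3 : 16 * (m : ℝ) / 25 * (2 * (4 * K)) ≤ 3 * ((m : ℝ) * s ^ 2) := by
          linarith only [h2, h30]
        have h4 : 3 * ((m : ℝ) * s ^ 2) ≤ (m * s) ^ 2 := by
          have h5 : (m * s) ^ 2 = m * ((m : ℝ) * s ^ 2) := by ring
          rw [h5]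
          have h7 : (3 : ℝ) ≤ m := by linarith only [hm]
          exact mul_le_mul_of_nonneg_right h7 h30
        linarith only [h1, h3, h4]
      refine le_trans ?_ a2
      gcongr
    have a4 : (k : ℝ) * (((T : ℝ) + 1) * (1 / 2) ^ m) ≤ 1 / 1000 := by
      calc (k : ℝ) * (((T : ℝ) + 1) * (1 / 2) ^ m) =
          (k : ℝ) * ((T : ℝ) + 1) * (1 / 2) ^ m := by ring
        _ ≤ s ^ 13 * (1 / 2) ^ m := by gcongr
        _ ≤ 1 / 1000 := hHf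
    have a5 : ((T : ℝ) + 1) ^ 2 * ((k.choose (m + 1)) * (P ^ m * 2) *
          (C₁ * ((16 * m : ℕ) : ℝ) * Real.sqrt K / s ^ 4) ^ (m + 1)) ≤ 1 / 1000 := by
      have hr : Real.sqrt K ≤ s := by
        rw [Real.sqrt_le_left hs0]
        have : (0 : ℝ) ≤ K := by positivity
        linarith
      have h1 := as_choose k m C₁ s (Real.sqrt K) hC₁ (by linarith) (Real.sqrt_nonneg _) hr δ P
        hδ0.le hkd hP1 hδ2
      have h2 : ((16 * m : ℕ) : ℝ) = 16 * (m : ℝ) := by push_cast; ring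
      rw [h2]
      calc ((T : ℝ) + 1) ^ 2 * ((k.choose (m + 1)) * (P ^ m * 2) *
          (C₁ * (16 * (m : ℝ)) * Real.sqrt K / s ^ 4) ^ (m + 1))
          ≤ s ^ 13 * (1 / 2) ^ m := by gcongr
        _ ≤ 1 / 1000 := hHf
    have a6 : ((T : ℝ) + 1) ^ 2 * (1 / 2) ^ (m + 2) ≤ 1 / 1000 := by
      calc ((T : ℝ) + 1) ^ 2 * (1 / 2) ^ (m + 2) ≤ s ^ 13 * (1 / 2) ^ m := by
            apply mul_le_mul hT2 _ (by positivity) (by positivity)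
            exact pow_le_pow_of_le_one (by norm_num) (by norm_num) (by omega)
        _ ≤ 1 / 1000 := hHf
    have a7 : (k : ℝ) ^ 3 * ((TN : ℝ) + 1) * (2 * ((12000 * (16 * m) : ℕ) : ℝ) + 1) ^ 2 *
          ((200 * (((1000 * (16 * m) : ℕ) : ℝ) + 4)) ^ 2 / s ^ 4) ^ 3 ≤ 1 / 100 := by
      push_cast
      exact as_viii hm hms hk0 hks3 (by positivity) hTN
    have a8 : (k : ℝ) * (1 / 2) ^ m ≤ 1 / 1000 := by
      calc (k : ℝ) * (1 / 2) ^ m ≤ s ^ 13 * (1 / 2) ^ m := by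
            gcongr
            exact hks3.trans (pow_le_pow_right₀ hs1 (by norm_num))
        _ ≤ 1 / 1000 := hHf
    have e1 : (k : ℝ) * ((60000 * ((16 * m : ℕ) : ℝ) + 1) ^ 2 / s ^ 4 +
          ((T : ℝ) + 1) ^ 2 * (2 * E) +
          ((T : ℝ) + 1) ^ 2 * (2 * Real.exp (-((B : ℝ) ^ 2 / (2 * ((4 * K : ℕ) : ℝ))))) +
          ((T : ℝ) + 1) * (1 / 2) ^ m + ((T : ℝ) + 1) * (1 / 2) ^ m) =
        (k : ℝ) * ((60000 * ((16 * m : ℕ) : ℝ) + 1) ^ 2 / s ^ 4) +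
        (k : ℝ) * (((T : ℝ) + 1) ^ 2 * (2 * E)) +
        (k : ℝ) * (((T : ℝ) + 1) ^ 2 *
          (2 * Real.exp (-((B : ℝ) ^ 2 / (2 * ((4 * K : ℕ) : ℝ)))))) +
        (k : ℝ) * (((T : ℝ) + 1) * (1 / 2) ^ m) +
        (k : ℝ) * (((T : ℝ) + 1) * (1 / 2) ^ m) := by ring
    rw [e1]
    linarith only [a1, a2, a3, a4, a5, a6, a7, a8]

end MP34e
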