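import Pool.Agent.Work.MP_34e428_co.ZDefs
import Pool.Agent.Work.MP_34e428_co.LCoin2

/-! Module CW: two disjoint windows. -/

set_option autoImplicit false

open Finset
open scoped Classical

namespace MP34e

/-- independence of events which depend on the coins before, respectively from, time `τ` -/
private theorem indep_card {T : ℕ} (τ : ℕ) (P Q : (Fin T → Bool) → Prop)
    (hP : ∀ c c' : Fin T → Bool, (∀ i : Fin T, (i : ℕ) < τ → c i = c' i) → (P c ↔ P c'))
    (hQ : ∀ c c' : Fin T → Bool, (∀ i : Fin T, τ ≤ (i : ℕ) → c i = c' i) → (Q c ↔ Q c')) :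
    (univ.filter (fun c => Q c ∧ P c)).card * 2 ^ T =
      (univ.filter Q).card * (univ.filter P).card := by
  let mix : (Fin T → Bool) → (Fin T → Bool) → (Fin T → Bool) :=
    fun u v i => if (i : ℕ) < τ then u i else v i
  have m1 : ∀ u v (i : Fin T), (i : ℕ) < τ → mix u v i = u i := by
    intro u v i hi; simp only [mix]; rw [if_pos hi]
  have m2 : ∀ u v (i : Fin T), τ ≤ (i : ℕ) → mix u v i = v i := by
    intro u v i hi; simp only [mix]; rw [if_neg (by omega)]
  have mm : ∀ u v : Fin T → Bool, mix (mix u v) (mix v u) = u := by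
    intro u v
    funext i
    simp only [mix]
    split_ifs <;> rfl
  have hU : (univ : Finset (Fin T → Bool)).card = 2 ^ T := by simp
  rw [← hU, ← Finset.card_product, ← Finset.card_product]
  symm
  apply Finset.card_nbij' (fun p => (mix p.2 p.1, mix p.1 p.2)) (fun p => (mix p.2 p.1, mix p.1 p.2))
  · intro p hp
    simp only [Finset.coe_product, Set.mem_prod, Finset.mem_coe, Finset.mem_filter,
      Finset.mem_univ, true_and, and_true] at hp ⊢
    exact ⟨(hQ _ _ (m2 p.2 p.1)).mpr hp.1, (hP _ _ (m1 p.2 p.1)).mpr hp.2⟩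
  · intro p hp
    simp only [Finset.coe_product, Set.mem_prod, Finset.mem_coe, Finset.mem_filter,
      Finset.mem_univ, true_and, and_true] at hp ⊢
    exact ⟨(hQ _ _ (m2 p.2 p.1)).mpr hp.1, (hP _ _ (m1 p.1 p.2)).mpr hp.2⟩
  · intro p _
    simp only [mm]
  · intro p _
    simp only [mm]

private theorem ct_agree {T : ℕ} (c c' : Fin T → Bool) (a b : ℕ)
    (h : ∀ i : Fin T, a ≤ (i : ℕ) → (i : ℕ) < b → c i = c' i) :
    ct (ex c) a b = ct (ex c') a b := by
  apply ct_congr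
  intro n h1 h2
  unfold ex
  split_ifs with h3
  · exact h ⟨n, h3⟩ h1 h2
  · rfl

private theorem low_agree {T : ℕ} (e : ℕ → Bool) (ℓ : ℤ) (τ s : ℕ) (c c' : Fin T → Bool)
    (h : ∀ i : Fin T, τ ≤ (i : ℕ) → (i : ℕ) < s → c i = c' i) :
    Low e (ex c) ℓ τ s ↔ Low e (ex c') ℓ τ s := by
  have key : ∀ r, τ ≤ r → ct (ex c) r s = ct (ex c') r s := fun r hr =>
    ct_agree c c' r s (fun i h1 h2 => h i (hr.trans h1) h2)
  unfold Low
  constructor
  · intro H r h1 h2
    rw [← key r h1]; exact H r h1 h2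
  · intro H r h1 h2
    rw [key r h1]; exact H r h1 h2

private theorem low_bal {L : ℕ} (e g : ℕ → Bool) (s : ℕ)
    (he : ∀ t ≤ s, |2 * ct e 0 t - t| ≤ 240 * L) (τ : ℕ) (h : Low e g 8 τ s) :
    bal (nt g) τ s ((16 + 480 * L : ℕ) : ℤ) := by
  intro r h1 h2
  have h3 := h r h1 h2
  have a1 := abs_le.mp (he s le_rfl)
  have a2 := abs_le.mp (he r h2)
  have a3 := ct_add e (Nat.zero_le r) h2
  have a4 := ct_nt g h2
  rw [a4]
  push_cast
  linarith [a1.1, a1.2, a2.1, a2.2]

private theorem one_low {T : ℕ} (L : ℕ) (hL : 1 ≤ L) (e : ℕ → Bool) (s : ℕ) (hs : s ≤ T)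
    (he : ∀ t ≤ s, |2 * ct e 0 t - t| ≤ 240 * L) (τ : ℕ) (h3 : τ ≤ s) :
    ((univ.filter (fun c : Fin T → Bool => Low e (ex c) 8 τ s)).card : ℝ) ≤
      4000 * (L : ℝ) / Real.sqrt ((s : ℝ) - τ + 1) * 2 ^ T := by
  have hL' : (1 : ℝ) ≤ L := by exact_mod_cast hL
  have h1 : ((univ.filter (fun c : Fin T → Bool => Low e (ex c) 8 τ s)).card : ℝ) ≤
      ((univ.filter (fun c : Fin T → Bool =>
        bal (nt (ex c)) (s - (s - τ)) s ((16 + 480 * L : ℕ) : ℤ))).card : ℝ) := by
    have : (univ.filter (fun c : Fin T → Bool => Low e (ex c) 8 τ s)) ⊆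
        (univ.filter (fun c : Fin T → Bool =>
        bal (nt (ex c)) (s - (s - τ)) s ((16 + 480 * L : ℕ) : ℤ))) := by
      intro c hc
      simp only [Finset.mem_filter, Finset.mem_univ, true_and] at hc ⊢
      have e1 : s - (s - τ) = τ := by omega
      rw [e1]
      exact low_bal e (ex c) s he τ hc
    exact_mod_cast Finset.card_le_card this
  have h2 := single_bal_nt (T := T) (t := s) (N := s - τ) hs (by omega) (16 + 480 * L)
  refine h1.trans (h2.trans ?_)
  have e2 : ((s - τ : ℕ) : ℝ) = (s : ℝ) - τ := by push_cast [h3]; ring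
  rw [e2]
  have hN : (0 : ℝ) ≤ (s : ℝ) - τ := by
    have : (τ : ℝ) ≤ s := by exact_mod_cast h3
    linarith
  set q := Real.sqrt ((s : ℝ) - τ + 1) with hq
  have hq1 : 1 ≤ q := by
    rw [hq]; apply Real.one_le_sqrt.mpr; linarith
  have hq2 : (s : ℝ) - τ + 1 = q * q := (Real.mul_self_sqrt (by linarith)).symm
  have hq0 : 0 < q := by linarith
  rw [hq2, mul_comm]
  apply mul_le_mul_of_nonneg_right _ (by positivity)
  rw [div_le_div_iff₀ (by positivity) hq0]
  push_cast
  have h5 : (2 * q + 1) ≤ 3 * q := by linarith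
  have h6 : ((16 : ℝ) + 480 * L + 1) ≤ 497 * L := by linarith
  have h7 : ((16 : ℝ) + 480 * L + 1) * (2 * q + 1) ≤ 497 * L * (3 * q) :=
    mul_le_mul h6 h5 (by positivity) (by positivity)
  have h8 : 497 * (L : ℝ) * (3 * q) * q ≤ 4000 * L * (q * q) := by
    have : 0 ≤ (L : ℝ) * (q * q) := by positivity
    nlinarith
  calc ((16 : ℝ) + 480 * L + 1) * (2 * q + 1) * q ≤ 497 * (L : ℝ) * (3 * q) * q :=
        mul_le_mul_of_nonneg_right h7 hq0.le
    _ ≤ _ := h8

/-- CW: two disjoint windows -/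
theorem two_low {T : ℕ} (L : ℕ) (hL : 1 ≤ L) (e : ℕ → Bool) (s : ℕ) (hs : s ≤ T)
    (he : ∀ t ≤ s, |2 * ct e 0 t - t| ≤ 240 * L) (ρ b τ : ℕ) (h1 : ρ ≤ b) (h2 : b ≤ τ)
    (h3 : τ ≤ s) :
    ((univ.filter (fun c : Fin T → Bool => Low e (ex c) 8 τ s ∧ Low e (ex c) 8 ρ b)).card : ℝ) ≤
      (4000 * (L : ℝ)) ^ 2 / (Real.sqrt ((s : ℝ) - τ + 1) * Real.sqrt ((b : ℝ) - ρ + 1)) *
        2 ^ T := by
  have hA := one_low (T := T) L hL e s hs he τ h3
  have hB := one_low (T := T) L hL e b (by omega) (fun t ht => he t (by omega)) ρ h1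
  have hI := indep_card (T := T) τ (fun c => Low e (ex c) 8 ρ b) (fun c => Low e (ex c) 8 τ s)
    (fun c c' h => low_agree e 8 ρ b c c' (fun i _ hi => h i (by omega)))
    (fun c c' h => low_agree e 8 τ s c c' (fun i hi _ => h i hi))
  have hI' : ((univ.filter (fun c : Fin T → Bool =>
      Low e (ex c) 8 τ s ∧ Low e (ex c) 8 ρ b)).card : ℝ) * 2 ^ T =
      ((univ.filter (fun c : Fin T → Bool => Low e (ex c) 8 τ s)).card : ℝ) *
      ((univ.filter (fun c : Fin T → Bool => Low e (ex c) 8 ρ b)).card : ℝ) := by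
    exact_mod_cast hI
  have h2T : (0 : ℝ) < 2 ^ T := by positivity
  have hq1 : 0 < Real.sqrt ((s : ℝ) - τ + 1) := by
    apply Real.sqrt_pos.mpr
    have : (τ : ℝ) ≤ s := by exact_mod_cast h3
    linarith
  have hq2 : 0 < Real.sqrt ((b : ℝ) - ρ + 1) := by
    apply Real.sqrt_pos.mpr
    have : (ρ : ℝ) ≤ b := by exact_mod_cast h1
    linarith
  apply le_of_mul_le_mul_right _ h2T
  rw [hI']
  refine (mul_le_mul hA hB (by positivity) (by positivity)).trans (le_of_eq ?_)
  field_simp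

end MP34e
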