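import Pool.Agent.Work.MP_34e428_co.ZDefs
import Pool.Agent.Work.MP_34e428_co.LPre

/-! Counting possible initial values for an exact path (module CX). -/

set_option autoImplicit false

open Finset
open scoped Classical

namespace MP34e

/-- CX: possible initial values -/
theorem card_PX (K : ℕ) (e g : ℕ → Bool) (t : ℕ) (v : ℤ) :
    ((Icc (-(K : ℤ)) K).filter (fun x => PX K e g t v 20 x)).card ≤ 300 := by
  set I := Icc (-(K : ℤ)) K
  set A := I.filter (fun x => |x - (v + ct g 0 t - ct e 0 t)| ≤ 20) with hA
  set B := I.filter (fun x => |x - (v - ct g 0 t - ct e 0 t)| ≤ 20) with hB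
  set C := I.filter (fun x => ∃ σ < t, |x - (K + ct g 0 σ - ct e 0 σ)| ≤ 20 ∧
    |v + K + 1 - ct g σ t - ct e σ t| ≤ 20) with hC
  have hsub : I.filter (fun x => PX K e g t v 20 x) ⊆ A ∪ (B ∪ C) := by
    intro x hx
    rw [Finset.mem_filter] at hx
    obtain ⟨h1, h2⟩ := hx
    rcases h2 with h2 | h2 | h2
    · exact Finset.mem_union_left _ (by rw [hA, Finset.mem_filter]; exact ⟨h1, h2⟩)
    · exact Finset.mem_union_right _ (Finset.mem_union_left _
        (by rw [hB, Finset.mem_filter]; exact ⟨h1, h2⟩))
    · exact Finset.mem_union_right _ (Finset.mem_union_right _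
        (by rw [hC, Finset.mem_filter]; exact ⟨h1, h2⟩))
  have hcA : A.card ≤ 40 + 1 := by
    apply card_le_of_diff
    intro x hx y hy
    rw [hA, Finset.mem_filter] at hx hy
    have h1 := abs_le.mp hx.2
    have h2 := abs_le.mp hy.2
    push_cast
    omega
  have hcB : B.card ≤ 40 + 1 := by
    apply card_le_of_diff
    intro x hx y hy
    rw [hB, Finset.mem_filter] at hx hy
    have h1 := abs_le.mp hx.2
    have h2 := abs_le.mp hy.2
    push_cast
    omega
  have hcC : C.card ≤ 80 + 1 := by
    apply card_le_of_diff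
    intro x hx y hy
    rw [hC, Finset.mem_filter] at hx hy
    obtain ⟨_, s, hs, hx1, hx2⟩ := hx
    obtain ⟨_, s', hs', hy1, hy2⟩ := hy
    rw [abs_le] at hx1 hx2 hy1 hy2
    push_cast
    rcases le_total s s' with hle | hle
    · have e1 := ct_add g hle hs'.le
      have e2 := ct_add g (Nat.zero_le s) hle
      have e3 := ct_nonneg g s s'
      have f1 := ct_add e hle hs'.le
      have f2 := ct_add e (Nat.zero_le s) hle
      have f3 := ct_nonneg e s s'
      omega
    · have e1 := ct_add g hle hs.le
      have e2 := ct_add g (Nat.zero_le s') hle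
      have e3 := ct_nonneg g s' s
      have f1 := ct_add e hle hs.le
      have f2 := ct_add e (Nat.zero_le s') hle
      have f3 := ct_nonneg e s' s
      omega
  have h1 := Finset.card_le_card hsub
  have h2 := Finset.card_union_le A (B ∪ C)
  have h3 := Finset.card_union_le B C
  omega

end MP34e
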