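import Pool.Agent.Work.MP_34e428_co.ZQM
import Pool.Agent.Work.MP_34e428_co.ZCX
import Pool.Agent.Work.MP_34e428_co.ZCW
import Pool.Agent.Work.MP_34e428_co.LCount

/-! CA: starting points and coins of near zombies, fixed path. -/

set_option autoImplicit false

open Finset
open scoped Classical

namespace MP34e

private theorem sum_inv_sqrt (K : ℕ) :
    ∑ d ∈ range K, 1 / Real.sqrt ((d : ℝ) + 1) ≤ 2 * Real.sqrt K := by
  induction K with
  | zero => simp
  | succ K ih =>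
    rw [Finset.sum_range_succ]
    have h1 : 0 < Real.sqrt ((K : ℝ) + 1) := Real.sqrt_pos.mpr (by positivity)
    have h2 : 0 ≤ Real.sqrt (K : ℝ) := Real.sqrt_nonneg _
    have h3 : Real.sqrt ((K : ℝ) + 1) * Real.sqrt ((K : ℝ) + 1) = (K : ℝ) + 1 :=
      Real.mul_self_sqrt (by positivity)
    have h4 : Real.sqrt (K : ℝ) * Real.sqrt (K : ℝ) = (K : ℝ) :=
      Real.mul_self_sqrt (by positivity)
    have h5 : 1 / Real.sqrt ((K : ℝ) + 1) ≤ 2 * (Real.sqrt ((K : ℝ) + 1) - Real.sqrt K) := by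
      rw [div_le_iff₀ h1]
      nlinarith [sq_nonneg (Real.sqrt ((K : ℝ) + 1) - Real.sqrt K)]
    push_cast
    linarith

private theorem count_PX2 (K : ℕ) (e g e' g' : ℕ → Bool) (t t' : ℕ) (v v' : ℤ) :
    cf (box K) (fun p => PX K e g t v 20 p.1 ∧ PX K e' g' t' v' 20 p.2) ≤ 90000 := by
  have hsub : (box K).filter (fun p => PX K e g t v 20 p.1 ∧ PX K e' g' t' v' 20 p.2) ⊆
      ((Icc (-(K : ℤ)) K).filter (fun x => PX K e g t v 20 x)) ×ˢ
      ((Icc (-(K : ℤ)) K).filter (fun x => PX K e' g' t' v' 20 x)) := by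
    intro p hp
    unfold box at hp
    rw [Finset.mem_filter, Finset.mem_product] at hp
    rw [Finset.mem_product, Finset.mem_filter, Finset.mem_filter]
    exact ⟨⟨hp.1.1, hp.2.1⟩, ⟨hp.1.2, hp.2.2⟩⟩
  rw [← cf_eq]
  refine (Finset.card_le_card hsub).trans ?_
  rw [Finset.card_product]
  exact Nat.mul_le_mul (card_PX K e g t v) (card_PX K e' g' t' v')

private theorem two_low' {T : ℕ} (K L : ℕ) (hL : 1 ≤ L) (e : ℕ → Bool) (s : ℕ) (hs : s ≤ T)
    (he : ∀ t ≤ s, |2 * ct e 0 t - t| ≤ 240 * L) (ρ b τ : ℕ) (h1 : ρ ≤ b) (h2 : b ≤ τ)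
    (h3 : τ ≤ s) (hK : K + 4 * τ ≤ 4 * s) (hK0 : 1 ≤ K) :
    (cf (univ : Finset (Fin T → Bool)) (fun c => Low e (ex c) 8 τ s ∧ Low e (ex c) 8 ρ b) : ℝ) ≤
      (4000 * (L : ℝ)) ^ 2 * (2 / Real.sqrt K) * (1 / Real.sqrt (((b - ρ : ℕ) : ℝ) + 1)) *
        2 ^ T := by
  have h := two_low L hL e s hs he ρ b τ h1 h2 h3
  rw [cf_eq] at h
  refine h.trans ?_
  apply mul_le_mul_of_nonneg_right _ (by positivity)
  have e1 : ((b - ρ : ℕ) : ℝ) = (b : ℝ) - ρ := by push_cast [h1]; ring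
  rw [e1, mul_assoc, div_eq_mul_one_div]
  apply mul_le_mul_of_nonneg_left _ (by positivity)
  have hK1 : (1 : ℝ) ≤ K := by exact_mod_cast hK0
  have hsK : 0 < Real.sqrt (K : ℝ) := Real.sqrt_pos.mpr (by linarith)
  have hx : (K : ℝ) ≤ 4 * ((s : ℝ) - τ + 1) := by
    have : (K : ℝ) + 4 * τ ≤ 4 * s := by exact_mod_cast hK
    linarith
  have hx2 : Real.sqrt K ≤ 2 * Real.sqrt ((s : ℝ) - τ + 1) := by
    have : Real.sqrt K ≤ Real.sqrt (4 * ((s : ℝ) - τ + 1)) := Real.sqrt_le_sqrt hx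
    rw [Real.sqrt_mul (by norm_num), show (4 : ℝ) = 2 ^ 2 by norm_num,
      Real.sqrt_sq (by norm_num)] at this
    exact this
  have hb : (0 : ℝ) < (b : ℝ) - ρ + 1 := by
    have : (ρ : ℝ) ≤ b := by exact_mod_cast h1
    linarith
  have hy : 0 < Real.sqrt ((b : ℝ) - ρ + 1) := Real.sqrt_pos.mpr hb
  have hx0 : 0 < Real.sqrt ((s : ℝ) - τ + 1) := by linarith
  rw [div_mul_div_comm, mul_one, div_le_div_iff₀ (by positivity) (by positivity)]
  nlinarith

/-- the times `τ` of clause 3 -/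
private noncomputable def Ts (K : ℕ) (e : ℕ → Bool) (s : ℕ) : Finset ℕ :=
  (range (s + 1)).filter (fun τ => |2 * ct e τ s - K| ≤ 20)

private theorem Ts_spec {K L : ℕ} (hL : 1 ≤ L) (hLK : (6000 * L) ^ 2 ≤ K) {e : ℕ → Bool} {s : ℕ}
    (he : ∀ t ≤ s, |2 * ct e 0 t - t| ≤ 240 * L) :
    (∀ τ ∈ Ts K e s, K + 4 * τ ≤ 4 * s ∧ τ ≤ s) ∧ (Ts K e s).card ≤ 1001 * L := by
  have hK : 36000000 * L ≤ K := by nlinarith
  have key : ∀ τ ∈ Ts K e s, τ + K ≤ s + (480 * L + 20) ∧ s ≤ τ + K + (480 * L + 20) ∧ τ ≤ s := by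
    intro τ hτ
    unfold Ts at hτ
    rw [Finset.mem_filter, Finset.mem_range] at hτ
    obtain ⟨h1, h2⟩ := hτ
    have h3 := abs_le.mp (he s le_rfl)
    have h4 := abs_le.mp (he τ (by omega))
    have h5 := ct_add e (Nat.zero_le τ) (show τ ≤ s by omega)
    have h6 := abs_le.mp h2
    omega
  constructor
  · intro τ hτ
    have := key τ hτ
    omega
  · have hsub : Ts K e s ⊆ Icc (s - (K + (480 * L + 20))) (s + (480 * L + 20) - K) := by
      intro τ hτ
      have := key τ hτ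
      rw [Finset.mem_Icc]
      omega
    refine (Finset.card_le_card hsub).trans ?_
    rw [Nat.card_Icc]
    omega

/-- the second clause for fixed times -/
private def K2 (K : ℕ) (e g : ℕ → Bool) (s τ : ℕ) (p : ℤ × ℤ) : Prop :=
  Low e g 8 τ s ∧ PX K (nt e) (nt g) τ 0 20 p.2 ∧ PX K e g τ (-(2 * ct e τ s)) 20 p.1

private def K3 (K : ℕ) (e g : ℕ → Bool) (s τ τ' : ℕ) (p : ℤ × ℤ) : Prop :=
  (Low e g 8 τ s ∧ Low e g 8 (max τ' (τ - 1 - (K - 20))) (τ - 1)) ∧
    ((PX K e g τ' 0 20 p.1 ∧ PX K (nt e) (nt g) τ' K 20 p.2) ∨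
        (PX K (nt e) (nt g) τ' 0 20 p.2 ∧ PX K e g τ' K 20 p.1))

private def K4 (K : ℕ) (e g : ℕ → Bool) (s τ : ℕ) (p : ℤ × ℤ) : Prop :=
  (Low e g 8 τ s ∧ Low e g 8 (max 0 (τ - 1 - (K - 20))) (τ - 1)) ∧ p.1 + p.2 = K ∧ |p.2| ≤ τ

private theorem count_K1 {T : ℕ} (K : ℕ) (e : ℕ → Bool) (s : ℕ) :
    (cf (box K ×ˢ (univ : Finset (Fin T → Bool)))
      (fun x => PX K e (ex x.2) s 0 20 x.1.1 ∧ PX K (nt e) (nt (ex x.2)) s 0 20 x.1.2) : ℝ) ≤
      90000 * 2 ^ T := by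
  have h1 := prod_count (T := T) K 90000
    (fun c p => PX K e (ex c) s 0 20 p.1 ∧ PX K (nt e) (nt (ex c)) s 0 20 p.2) (fun _ => True)
    (fun c => count_PX2 K e (ex c) (nt e) (nt (ex c)) s s 0 0)
    (fun x => PX K e (ex x.2) s 0 20 x.1.1 ∧ PX K (nt e) (nt (ex x.2)) s 0 20 x.1.2)
    (fun x hx => ⟨hx, trivial⟩)
  have h2 : cf (univ : Finset (Fin T → Bool)) (fun _ => True) ≤ 2 ^ T := by
    refine (cf_le_card _ _).trans (le_of_eq ?_)
    rw [Finset.card_univ, Fintype.card_fun, Fintype.card_bool, Fintype.card_fin]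
  have h3 := h1.trans (Nat.mul_le_mul_left _ h2)
  exact_mod_cast h3

private theorem count_K2 {T : ℕ} (K : ℕ) (e : ℕ → Bool) (s τ : ℕ) :
    (cf (box K ×ˢ (univ : Finset (Fin T → Bool)))
      (fun x => K2 K e (ex x.2) s τ x.1) : ℝ) ≤
      90000 * ((univ.filter (fun c : Fin T → Bool => Low e (ex c) 8 τ s)).card : ℝ) := by
  have h1 := prod_count (T := T) K 90000
    (fun c p => PX K e (ex c) τ (-(2 * ct e τ s)) 20 p.1 ∧ PX K (nt e) (nt (ex c)) τ 0 20 p.2)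
    (fun c => Low e (ex c) 8 τ s)
    (fun c => count_PX2 K e (ex c) (nt e) (nt (ex c)) τ τ _ 0)
    (fun x => K2 K e (ex x.2) s τ x.1)
    (fun x hx => ⟨⟨hx.2.2, hx.2.1⟩, hx.1⟩)
  rw [cf_eq]
  exact_mod_cast h1

private theorem count_K3 {T : ℕ} (K : ℕ) (e : ℕ → Bool) (s τ τ' : ℕ) :
    (cf (box K ×ˢ (univ : Finset (Fin T → Bool)))
      (fun x => K3 K e (ex x.2) s τ τ' x.1) : ℝ) ≤
      180000 * (cf (univ : Finset (Fin T → Bool)) (fun c => Low e (ex c) 8 τ s ∧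
        Low e (ex c) 8 (max τ' (τ - 1 - (K - 20))) (τ - 1)) : ℝ) := by
  have h1 := prod_count (T := T) K 180000
    (fun c p => (PX K e (ex c) τ' 0 20 p.1 ∧ PX K (nt e) (nt (ex c)) τ' K 20 p.2) ∨
      (PX K e (ex c) τ' K 20 p.1 ∧ PX K (nt e) (nt (ex c)) τ' 0 20 p.2))
    (fun c => Low e (ex c) 8 τ s ∧
        Low e (ex c) 8 (max τ' (τ - 1 - (K - 20))) (τ - 1))
    (by
      intro c
      refine (cf_or (box K) _ (fun p => PX K e (ex c) τ' 0 20 p.1 ∧
        PX K (nt e) (nt (ex c)) τ' K 20 p.2) (fun p =>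
        PX K e (ex c) τ' K 20 p.1 ∧ PX K (nt e) (nt (ex c)) τ' 0 20 p.2)
        (fun p _ hp => hp)).trans ?_
      have e1 := count_PX2 K e (ex c) (nt e) (nt (ex c)) τ' τ' 0 K
      have e2 := count_PX2 K e (ex c) (nt e) (nt (ex c)) τ' τ' K 0
      omega)
    (fun x => K3 K e (ex x.2) s τ τ' x.1)
    (by
      intro x hx
      refine ⟨?_, hx.1⟩
      rcases hx.2 with h | h
      · exact Or.inl h
      · exact Or.inr ⟨h.2, h.1⟩)
  exact_mod_cast h1

private theorem count_K4 {T : ℕ} (K : ℕ) (e : ℕ → Bool) (s τ : ℕ) :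
    (cf (box K ×ˢ (univ : Finset (Fin T → Bool)))
      (fun x => K4 K e (ex x.2) s τ x.1) : ℝ) ≤
      ((min (2 * K + 1) (2 * τ + 1) : ℕ) : ℝ) *
      (cf (univ : Finset (Fin T → Bool)) (fun c => Low e (ex c) 8 τ s ∧
        Low e (ex c) 8 (max 0 (τ - 1 - (K - 20))) (τ - 1)) : ℝ) := by
  have h1 := prod_count (T := T) K (min (2 * K + 1) (2 * τ + 1))
    (fun _ p => p.1 + p.2 = K ∧ |p.2| ≤ τ)
    (fun c => Low e (ex c) 8 τ s ∧ Low e (ex c) 8 (max 0 (τ - 1 - (K - 20))) (τ - 1))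
    (by
      intro c
      have h2 : (box K).filter (fun p : ℤ × ℤ => p.1 + p.2 = K ∧ |p.2| ≤ τ) ⊆
          (Icc (-(min K τ : ℕ) : ℤ) (min K τ : ℕ)).image (fun y => ((K : ℤ) - y, y)) := by
        intro p hp
        unfold box at hp
        rw [Finset.mem_filter, Finset.mem_product, Finset.mem_Icc, Finset.mem_Icc] at hp
        obtain ⟨⟨hp1, hp2⟩, hp3, hp4⟩ := hp
        rw [Finset.mem_image]
        refine ⟨p.2, ?_, ?_⟩
        · rw [Finset.mem_Icc]
          have := abs_le.mp hp4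
          omega
        · ext
          · simp only
            omega
          · rfl
      rw [← cf_eq]
      refine (Finset.card_le_card h2).trans (Finset.card_image_le.trans ?_)
      rw [Int.card_Icc]
      omega)
    (fun x => K4 K e (ex x.2) s τ x.1)
    (fun x hx => ⟨hx.2, hx.1⟩)
  exact_mod_cast h1

/-- CA: starting points and coins of near zombies, fixed path; here `D = 240 L` is reached in
every window of length `6000 L` -/
theorem count_NearA : ∃ C : ℝ, 0 < C ∧ ∀ (K TN L T : ℕ) (e : ℕ → Bool) (a u : ℕ), 1 ≤ L →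
    6000 * L ≤ a → a ≤ u → u ≤ a + 2000 * L → u ≤ T → (6000 * L) ^ 2 ≤ K →
    L ^ 6 * (K + TN) ^ 2 ≤ K ^ 3 → (∀ t ≤ u, |2 * ct e 0 t - t| ≤ 240 * L) →
    (∀ t, t + 6000 * L ≤ u → ∃ s, t ≤ s ∧ s ≤ t + 6000 * L ∧ 2 * ct e 0 s - s = 240 * L) →
    (((box K ×ˢ (univ : Finset (Fin T → Bool))).filter
      (fun x => ∃ s, a ≤ s ∧ s ≤ u ∧ NearA K TN e (ex x.2) s x.1)).card : ℝ) ≤
      C * L * Real.sqrt K * 2 ^ T := by
  obtain ⟨Cq, hCq, hq⟩ := queue_mass
  refine ⟨90000 * 2001 + 90000 * Cq * 6000 +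
    2001 * 1001 * 180000 * 16000000 * 8 + 2001 * 1001 * 16000000 * 8, by positivity, ?_⟩
  intro K TN L T e a u hL hLa hau huL huT hLK hLTN he hret
  have hL1 : (1 : ℝ) ≤ L := by exact_mod_cast hL
  have hK36 : 36000000 * L ≤ K := by nlinarith
  have hK0 : 36000000 ≤ K := by omega
  have hKr : (36000000 : ℝ) ≤ K := by exact_mod_cast hK0
  have hsK : 0 < Real.sqrt (K : ℝ) := Real.sqrt_pos.mpr (by linarith)
  have hsKK : Real.sqrt (K : ℝ) * Real.sqrt K = K := Real.mul_self_sqrt (by linarith)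
  have hsK1 : 1 ≤ Real.sqrt (K : ℝ) := Real.one_le_sqrt.mpr (by linarith)
  have h2T : (0 : ℝ) < 2 ^ T := by positivity
  have hTN0 : (0 : ℝ) ≤ TN := by positivity
  -- L³ (K + TN) ≤ K √K
  have hL3 : (L : ℝ) ^ 3 * ((K : ℝ) + TN) ≤ K * Real.sqrt K := by
    have h1 : ((L : ℝ) ^ 3 * ((K : ℝ) + TN)) ^ 2 ≤ (K * Real.sqrt K) ^ 2 := by
      have h2 : ((L : ℝ) ^ 6 * ((K : ℝ) + TN) ^ 2) ≤ (K : ℝ) ^ 3 := by exact_mod_cast hLTN
      calc ((L : ℝ) ^ 3 * ((K : ℝ) + TN)) ^ 2 = (L : ℝ) ^ 6 * ((K : ℝ) + TN) ^ 2 := by ring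
        _ ≤ (K : ℝ) ^ 3 := h2
        _ = (K : ℝ) ^ 2 * (Real.sqrt K * Real.sqrt K) := by rw [hsKK]; ring
        _ = (K * Real.sqrt K) ^ 2 := by ring
    exact (abs_le_of_sq_le_sq' h1 (by positivity)).2
  have hL3' : (L : ℝ) ^ 3 ≤ Real.sqrt K := by
    have h1 : (L : ℝ) ^ 3 * K ≤ K * Real.sqrt K := by
      refine le_trans ?_ hL3
      apply mul_le_mul_of_nonneg_left _ (by positivity)
      linarith
    have h2 : (L : ℝ) ^ 3 * K ≤ Real.sqrt K * K := by linarith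
    exact le_of_mul_le_mul_right h2 (by linarith)
  have hcardI : ((Icc a u).card : ℝ) ≤ 2001 * L := by
    rw [Nat.card_Icc]
    have : u + 1 - a ≤ 2001 * L := by omega
    exact_mod_cast this
  have hcardT : ∀ s ∈ Icc a u, ((Ts K e s).card : ℝ) ≤ 1001 * L := by
    intro s hs
    rw [Finset.mem_Icc] at hs
    have := (Ts_spec hL hLK (e := e) (s := s) (fun t ht => he t (ht.trans hs.2))).2
    exact_mod_cast this
  set X := box K ×ˢ (univ : Finset (Fin T → Bool)) with hX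
  -- clause 1
  have b1 : (cf X (fun x => ∃ s ∈ Icc a u, PX K e (ex x.2) s 0 20 x.1.1 ∧
      PX K (nt e) (nt (ex x.2)) s 0 20 x.1.2) : ℝ) ≤
      90000 * 2001 * (L * Real.sqrt K * 2 ^ T) := by
    have h1 := cf_sum X (Icc a u) (fun s x => PX K e (ex x.2) s 0 20 x.1.1 ∧
      PX K (nt e) (nt (ex x.2)) s 0 20 x.1.2) (fun _ => 90000 * 2 ^ T)
      (fun s _ => count_K1 K e s)
      (fun x => ∃ s ∈ Icc a u, PX K e (ex x.2) s 0 20 x.1.1 ∧
        PX K (nt e) (nt (ex x.2)) s 0 20 x.1.2) (fun x _ h => h)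
    refine h1.trans ?_
    rw [Finset.sum_const, nsmul_eq_mul]
    calc ((Icc a u).card : ℝ) * (90000 * 2 ^ T) ≤ (2001 * L) * (90000 * 2 ^ T) :=
          mul_le_mul_of_nonneg_right hcardI (by positivity)
      _ = 90000 * 2001 * (L * 1 * 2 ^ T) := by ring
      _ ≤ 90000 * 2001 * (L * Real.sqrt K * 2 ^ T) := by gcongr
  -- clause 2
  have b2 : (cf X (fun x => ∃ s ∈ Icc a u, ∃ τ ∈ Icc (s - 2 * K) s, K2 K e (ex x.2) s τ x.1) : ℝ) ≤
      90000 * Cq * 6000 * (L * Real.sqrt K * 2 ^ T) := by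
    have h1 := cf_sum X (Icc a u)
      (fun s x => ∃ τ ∈ Icc (s - 2 * K) s, K2 K e (ex x.2) s τ x.1)
      (fun s => ∑ τ ∈ Icc (s - 2 * K) s,
        90000 * ((univ.filter (fun c : Fin T → Bool => Low e (ex c) 8 τ s)).card : ℝ))
      (fun s _ => cf_sum X (Icc (s - 2 * K) s) (fun τ x => K2 K e (ex x.2) s τ x.1)
        (fun τ => 90000 * ((univ.filter (fun c : Fin T → Bool => Low e (ex c) 8 τ s)).card : ℝ))
        (fun τ _ => count_K2 K e s τ)
        (fun x => ∃ τ ∈ Icc (s - 2 * K) s, K2 K e (ex x.2) s τ x.1) (fun x _ h => h))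
      (fun x => ∃ s ∈ Icc a u, ∃ τ ∈ Icc (s - 2 * K) s, K2 K e (ex x.2) s τ x.1)
      (fun x _ h => h)
    simp only [← Finset.mul_sum] at h1
    have h2 := hq K T (6000 * L) a u e (240 * L) (by omega) hLK hLa hau (by omega) huT
      (fun t ht => (abs_le.mp (he t ht)).2) hret
    refine h1.trans ?_
    have h3 := mul_le_mul_of_nonneg_left h2 (show (0 : ℝ) ≤ 90000 by norm_num)
    refine h3.trans (le_of_eq ?_)
    push_cast
    ring
  -- clause 3
  have b3 : (cf X (fun x => ∃ s ∈ Icc a u, ∃ τ ∈ Ts K e s,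
      ∃ τ' ∈ (range (TN + 1)).filter (fun τ' => τ' < τ), K3 K e (ex x.2) s τ τ' x.1) : ℝ) ≤
      2001 * 1001 * 180000 * 16000000 * 8 * (L * Real.sqrt K * 2 ^ T) := by
    have hf : ∀ s ∈ Icc a u, ∀ τ ∈ Ts K e s, (cf X (fun x =>
        ∃ τ' ∈ (range (TN + 1)).filter (fun τ' => τ' < τ), K3 K e (ex x.2) s τ τ' x.1) : ℝ) ≤
        180000 * ((4000 * (L : ℝ)) ^ 2 * (2 / Real.sqrt K) *
          (2 * Real.sqrt K + ((TN : ℝ) + 1) * (2 / Real.sqrt K)) * 2 ^ T) := by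
      intro s hs τ hτ
      rw [Finset.mem_Icc] at hs
      have hTs := (Ts_spec hL hLK (e := e) (s := s) (fun t ht => he t (ht.trans hs.2))).1 τ hτ
      have h1 := cf_sum X ((range (TN + 1)).filter (fun τ' => τ' < τ))
        (fun τ' x => K3 K e (ex x.2) s τ τ' x.1)
        (fun τ' => 180000 * ((4000 * (L : ℝ)) ^ 2 * (2 / Real.sqrt K) *
          (1 / Real.sqrt (((min (τ - 1 - τ') (K - 20) : ℕ) : ℝ) + 1)) * 2 ^ T))
        (by
          intro τ' hτ'
          rw [Finset.mem_filter, Finset.mem_range] at hτ'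
          refine (count_K3 K e s τ τ').trans ?_
          apply mul_le_mul_of_nonneg_left _ (by norm_num)
          have h2 := two_low' (T := T) K L hL e s (hs.2.trans huT)
            (fun t ht => he t (ht.trans hs.2)) (max τ' (τ - 1 - (K - 20))) (τ - 1) τ
            (by omega) (by omega) hTs.2 hTs.1 (by omega)
          have e1 : (τ - 1) - max τ' (τ - 1 - (K - 20)) = min (τ - 1 - τ') (K - 20) := by omega
          rw [e1] at h2
          exact h2)
        (fun x => ∃ τ' ∈ (range (TN + 1)).filter (fun τ' => τ' < τ),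
          K3 K e (ex x.2) s τ τ' x.1) (fun x _ h => h)
      refine h1.trans ?_
      rw [← Finset.mul_sum, ← Finset.sum_mul, ← Finset.mul_sum]
      apply mul_le_mul_of_nonneg_left _ (by norm_num)
      apply mul_le_mul_of_nonneg_right _ h2T.le
      apply mul_le_mul_of_nonneg_left _ (by positivity)
      -- sum over τ'
      have h3 : ∀ τ' ∈ (range (TN + 1)).filter (fun τ' => τ' < τ),
          1 / Real.sqrt (((min (τ - 1 - τ') (K - 20) : ℕ) : ℝ) + 1) ≤
          (if τ - 1 - τ' < K then 1 / Real.sqrt (((τ - 1 - τ' : ℕ) : ℝ) + 1) else 0) +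
            2 / Real.sqrt K := by
        intro τ' _
        rcases Nat.lt_or_ge (K - 20) (τ - 1 - τ') with h | h
        · rw [min_eq_right h.le]
          have h4 : (0 : ℝ) ≤ (if τ - 1 - τ' < K then 1 / Real.sqrt (((τ - 1 - τ' : ℕ) : ℝ) + 1)
            else 0) := by
            split_ifs <;> positivity
          have h5 : 1 / Real.sqrt (((K - 20 : ℕ) : ℝ) + 1) ≤ 2 / Real.sqrt K := by
            have e1 : ((K - 20 : ℕ) : ℝ) = (K : ℝ) - 20 := by
              push_cast [show 20 ≤ K by omega]; ring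
            rw [e1]
            have h6 : Real.sqrt K ≤ 2 * Real.sqrt ((K : ℝ) - 20 + 1) := by
              have : Real.sqrt K ≤ Real.sqrt (4 * ((K : ℝ) - 20 + 1)) :=
                Real.sqrt_le_sqrt (by linarith)
              rw [Real.sqrt_mul (by norm_num), show (4 : ℝ) = 2 ^ 2 by norm_num,
                Real.sqrt_sq (by norm_num)] at this
              exact this
            rw [div_le_div_iff₀ (by linarith) hsK]
            linarith
          linarith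
        · rw [min_eq_left h, if_pos (by omega)]
          have : 0 ≤ 2 / Real.sqrt (K : ℝ) := by positivity
          linarith
      refine (Finset.sum_le_sum h3).trans ?_
      rw [Finset.sum_add_distrib, Finset.sum_const, nsmul_eq_mul]
      apply add_le_add
      · rw [← Finset.sum_filter]
        have h4 : ∑ τ' ∈ ((range (TN + 1)).filter (fun τ' => τ' < τ)).filter
            (fun τ' => τ - 1 - τ' < K), 1 / Real.sqrt (((τ - 1 - τ' : ℕ) : ℝ) + 1) ≤
            ∑ d ∈ range K, 1 / Real.sqrt ((d : ℝ) + 1) := by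
          have h5 := Finset.sum_image (s := ((range (TN + 1)).filter (fun τ' => τ' < τ)).filter
            (fun τ' => τ - 1 - τ' < K)) (g := fun τ' : ℕ => τ - 1 - τ')
            (f := fun d : ℕ => 1 / Real.sqrt ((d : ℝ) + 1)) (by
              intro x hx y hy hxy
              rw [Finset.mem_coe, Finset.mem_filter, Finset.mem_filter] at hx hy
              simp only at hxy
              omega)
          rw [← h5]
          apply Finset.sum_le_sum_of_subset_of_nonneg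
          · intro d hd
            rw [Finset.mem_image] at hd
            obtain ⟨x, hx, rfl⟩ := hd
            rw [Finset.mem_filter] at hx
            exact Finset.mem_range.mpr hx.2
          · intro _ _ _
            positivity
        exact h4.trans (sum_inv_sqrt K)
      · apply mul_le_mul_of_nonneg_right _ (by positivity)
        have : ((range (TN + 1)).filter (fun τ' => τ' < τ)).card ≤ TN + 1 := by
          refine (Finset.card_filter_le _ _).trans ?_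
          rw [Finset.card_range]
        exact_mod_cast this
    have h1 := cf_sum X (Icc a u)
      (fun s x => ∃ τ ∈ Ts K e s,
        ∃ τ' ∈ (range (TN + 1)).filter (fun τ' => τ' < τ), K3 K e (ex x.2) s τ τ' x.1)
      (fun s => ∑ _τ ∈ Ts K e s, 180000 * ((4000 * (L : ℝ)) ^ 2 * (2 / Real.sqrt K) *
          (2 * Real.sqrt K + ((TN : ℝ) + 1) * (2 / Real.sqrt K)) * 2 ^ T))
      (fun s hs => cf_sum X (Ts K e s)
        (fun τ x => ∃ τ' ∈ (range (TN + 1)).filter (fun τ' => τ' < τ), K3 K e (ex x.2) s τ τ' x.1)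
        (fun _ => 180000 * ((4000 * (L : ℝ)) ^ 2 * (2 / Real.sqrt K) *
          (2 * Real.sqrt K + ((TN : ℝ) + 1) * (2 / Real.sqrt K)) * 2 ^ T))
        (fun τ hτ => hf s hs τ hτ)
        (fun x => ∃ τ ∈ Ts K e s,
          ∃ τ' ∈ (range (TN + 1)).filter (fun τ' => τ' < τ), K3 K e (ex x.2) s τ τ' x.1)
        (fun x _ h => h))
      (fun x => ∃ s ∈ Icc a u, ∃ τ ∈ Ts K e s,
        ∃ τ' ∈ (range (TN + 1)).filter (fun τ' => τ' < τ), K3 K e (ex x.2) s τ τ' x.1)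
      (fun x _ h => h)
    refine h1.trans ?_
    set V : ℝ := 180000 * ((4000 * (L : ℝ)) ^ 2 * (2 / Real.sqrt K) *
          (2 * Real.sqrt K + ((TN : ℝ) + 1) * (2 / Real.sqrt K)) * 2 ^ T) with hV
    have hV0 : 0 ≤ V := by positivity
    have h2 : ∑ s ∈ Icc a u, ∑ _τ ∈ Ts K e s, V ≤ (2001 * L) * ((1001 * L) * V) := by
      calc ∑ s ∈ Icc a u, ∑ _τ ∈ Ts K e s, V ≤ ∑ _s ∈ Icc a u, (1001 * L) * V := by
            apply Finset.sum_le_sum
            intro s hs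
            rw [Finset.sum_const, nsmul_eq_mul]
            exact mul_le_mul_of_nonneg_right (hcardT s hs) hV0
        _ = ((Icc a u).card : ℝ) * ((1001 * L) * V) := by rw [Finset.sum_const, nsmul_eq_mul]
        _ ≤ _ := mul_le_mul_of_nonneg_right hcardI (by positivity)
    refine h2.trans ?_
    -- final estimate
    have key : ∀ r k n : ℝ, 0 < r → r * r = k → (2 / r) * (2 * r + n * (2 / r)) =
        4 * (k + n) / k := by
      intro r k n hr hk
      subst hk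
      field_simp
      ring
    have e1 : (2 / Real.sqrt (K : ℝ)) * (2 * Real.sqrt K + ((TN : ℝ) + 1) * (2 / Real.sqrt K)) =
        4 * ((K : ℝ) + TN + 1) / K := by
      rw [key _ _ _ hsK hsKK, add_assoc]
    have e2 : (2001 * (L : ℝ)) * ((1001 * L) * V) =
        2001 * 1001 * 180000 * 16000000 * (L : ℝ) *
        ((L : ℝ) ^ 3 * ((2 / Real.sqrt (K : ℝ)) *
          (2 * Real.sqrt K + ((TN : ℝ) + 1) * (2 / Real.sqrt K)))) * 2 ^ T := by
      rw [hV]
      ring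
    rw [e2, e1]
    have h3 : (L : ℝ) ^ 3 * (4 * ((K : ℝ) + TN + 1) / K) ≤ 8 * Real.sqrt K := by
      rw [← mul_div_assoc, div_le_iff₀ (by linarith)]
      have h4 : (L : ℝ) ^ 3 ≤ (L : ℝ) ^ 3 * ((K : ℝ) + TN) := by
        have : (0 : ℝ) ≤ (L : ℝ) ^ 3 := by positivity
        nlinarith
      nlinarith
    calc 2001 * 1001 * 180000 * 16000000 * (L : ℝ) *
        ((L : ℝ) ^ 3 * (4 * ((K : ℝ) + TN + 1) / K)) * 2 ^ T
        ≤ 2001 * 1001 * 180000 * 16000000 * (L : ℝ) * (8 * Real.sqrt K) * 2 ^ T := by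
          gcongr
      _ = _ := by ring
  -- clause 4
  have b4 : (cf X (fun x => ∃ s ∈ Icc a u, ∃ τ ∈ Ts K e s, 1 ≤ τ ∧ K4 K e (ex x.2) s τ x.1) : ℝ) ≤
      2001 * 1001 * 16000000 * 8 * (L * Real.sqrt K * 2 ^ T) := by
    have hf : ∀ s ∈ Icc a u, ∀ τ ∈ Ts K e s, (cf X (fun x =>
        1 ≤ τ ∧ K4 K e (ex x.2) s τ x.1) : ℝ) ≤ 16000000 * 8 * (L : ℝ) ^ 2 * 2 ^ T := by
      intro s hs τ hτ
      rw [Finset.mem_Icc] at hs
      have hTs := (Ts_spec hL hLK (e := e) (s := s) (fun t ht => he t (ht.trans hs.2))).1 τ hτ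
      by_cases hτ1 : 1 ≤ τ
      swap
      · have h0 := cf_sum X (∅ : Finset ℕ) (fun _ _ => False) (fun _ => 0) (by simp)
          (fun x => 1 ≤ τ ∧ K4 K e (ex x.2) s τ x.1) (fun x _ h => absurd h.1 hτ1)
        rw [Finset.sum_empty] at h0
        refine h0.trans (by positivity)
      have h0 : (cf X (fun x => 1 ≤ τ ∧ K4 K e (ex x.2) s τ x.1) : ℝ) ≤
          (cf X (fun x => K4 K e (ex x.2) s τ x.1) : ℝ) := by
        have := cf_or X (fun x => 1 ≤ τ ∧ K4 K e (ex x.2) s τ x.1)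
          (fun x => K4 K e (ex x.2) s τ x.1) (fun _ => False) (fun x _ h => Or.inl h.2)
        have h9 : cf X (fun _ => False) = 0 := by
          unfold cf
          simp
        rw [h9] at this
        exact_mod_cast this
      refine h0.trans ((count_K4 K e s τ).trans ?_)
      have h2 := two_low' (T := T) K L hL e s (hs.2.trans huT)
        (fun t ht => he t (ht.trans hs.2)) (max 0 (τ - 1 - (K - 20))) (τ - 1) τ
        (by omega) (by omega) hTs.2 hTs.1 (by omega)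
      have e1 : (τ - 1) - max 0 (τ - 1 - (K - 20)) = min (τ - 1) (K - 20) := by omega
      rw [e1] at h2
      have h3 : ((min (2 * K + 1) (2 * τ + 1) : ℕ) : ℝ) *
          (1 / Real.sqrt (((min (τ - 1) (K - 20) : ℕ) : ℝ) + 1)) ≤ 4 * Real.sqrt K := by
        rcases Nat.le_total (τ - 1) (K - 20) with h | h
        · rw [min_eq_left h]
          have e2 : ((τ - 1 : ℕ) : ℝ) + 1 = τ := by
            push_cast [hτ1]; ring
          rw [e2]
          have hτr : (1 : ℝ) ≤ τ := by exact_mod_cast hτ1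
          have hsτ : 0 < Real.sqrt (τ : ℝ) := Real.sqrt_pos.mpr (by linarith)
          have hττ : Real.sqrt (τ : ℝ) * Real.sqrt τ = τ := Real.mul_self_sqrt (by linarith)
          have hτK : Real.sqrt (τ : ℝ) ≤ Real.sqrt K := by
            apply Real.sqrt_le_sqrt
            have : τ ≤ K := by omega
            exact_mod_cast this
          have h4 : ((min (2 * K + 1) (2 * τ + 1) : ℕ) : ℝ) ≤ 3 * τ := by
            have : min (2 * K + 1) (2 * τ + 1) ≤ 3 * τ := by omega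
            exact_mod_cast this
          rw [mul_one_div, div_le_iff₀ hsτ]
          nlinarith
        · rw [min_eq_right h]
          have e2 : ((K - 20 : ℕ) : ℝ) = (K : ℝ) - 20 := by
            push_cast [show 20 ≤ K by omega]; ring
          rw [e2]
          have hs1 : 0 < Real.sqrt ((K : ℝ) - 20 + 1) := Real.sqrt_pos.mpr (by linarith)
          have hs2 : Real.sqrt ((K : ℝ) - 20 + 1) * Real.sqrt ((K : ℝ) - 20 + 1) =
              (K : ℝ) - 20 + 1 := Real.mul_self_sqrt (by linarith)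
          have hs3 : Real.sqrt ((K : ℝ) - 20 + 1) ≤ Real.sqrt K :=
            Real.sqrt_le_sqrt (by linarith)
          have h4 : ((min (2 * K + 1) (2 * τ + 1) : ℕ) : ℝ) ≤ 4 * ((K : ℝ) - 20 + 1) := by
            have : ((min (2 * K + 1) (2 * τ + 1) : ℕ) : ℝ) ≤ ((2 * K + 1 : ℕ) : ℝ) := by
              exact_mod_cast min_le_left _ _
            push_cast at this ⊢
            linarith
          rw [mul_one_div, div_le_iff₀ hs1]
          nlinarith
      have h4 := mul_le_mul_of_nonneg_left h2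
        (show (0 : ℝ) ≤ ((min (2 * K + 1) (2 * τ + 1) : ℕ) : ℝ) by positivity)
      refine h4.trans ?_
      calc ((min (2 * K + 1) (2 * τ + 1) : ℕ) : ℝ) * ((4000 * (L : ℝ)) ^ 2 * (2 / Real.sqrt K) *
            (1 / Real.sqrt (((min (τ - 1) (K - 20) : ℕ) : ℝ) + 1)) * 2 ^ T)
          = ((4000 * (L : ℝ)) ^ 2 * (2 / Real.sqrt K)) * 2 ^ T *
            (((min (2 * K + 1) (2 * τ + 1) : ℕ) : ℝ) *
            (1 / Real.sqrt (((min (τ - 1) (K - 20) : ℕ) : ℝ) + 1))) := by ring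
        _ ≤ ((4000 * (L : ℝ)) ^ 2 * (2 / Real.sqrt K)) * 2 ^ T * (4 * Real.sqrt K) := by
            apply mul_le_mul_of_nonneg_left h3 (by positivity)
        _ = 16000000 * 8 * (L : ℝ) ^ 2 * 2 ^ T := by
            field_simp
            ring
    have h1 := cf_sum X (Icc a u)
      (fun s x => ∃ τ ∈ Ts K e s, 1 ≤ τ ∧ K4 K e (ex x.2) s τ x.1)
      (fun s => ∑ _τ ∈ Ts K e s, 16000000 * 8 * (L : ℝ) ^ 2 * 2 ^ T)
      (fun s hs => cf_sum X (Ts K e s)
        (fun τ x => 1 ≤ τ ∧ K4 K e (ex x.2) s τ x.1)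
        (fun _ => 16000000 * 8 * (L : ℝ) ^ 2 * 2 ^ T)
        (fun τ hτ => hf s hs τ hτ)
        (fun x => ∃ τ ∈ Ts K e s, 1 ≤ τ ∧ K4 K e (ex x.2) s τ x.1)
        (fun x _ h => h))
      (fun x => ∃ s ∈ Icc a u, ∃ τ ∈ Ts K e s, 1 ≤ τ ∧ K4 K e (ex x.2) s τ x.1)
      (fun x _ h => h)
    refine h1.trans ?_
    set V : ℝ := 16000000 * 8 * (L : ℝ) ^ 2 * 2 ^ T with hV
    have hV0 : 0 ≤ V := by positivity
    have h2 : ∑ s ∈ Icc a u, ∑ _τ ∈ Ts K e s, V ≤ (2001 * L) * ((1001 * L) * V) := by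
      calc ∑ s ∈ Icc a u, ∑ _τ ∈ Ts K e s, V ≤ ∑ _s ∈ Icc a u, (1001 * L) * V := by
            apply Finset.sum_le_sum
            intro s hs
            rw [Finset.sum_const, nsmul_eq_mul]
            exact mul_le_mul_of_nonneg_right (hcardT s hs) hV0
        _ = ((Icc a u).card : ℝ) * ((1001 * L) * V) := by rw [Finset.sum_const, nsmul_eq_mul]
        _ ≤ _ := mul_le_mul_of_nonneg_right hcardI (by positivity)
    refine h2.trans ?_
    calc (2001 * (L : ℝ)) * ((1001 * L) * V)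
        = 2001 * 1001 * 16000000 * 8 * ((L : ℝ) * (L : ℝ) ^ 3 * 2 ^ T) := by rw [hV]; ring
      _ ≤ 2001 * 1001 * 16000000 * 8 * (L * Real.sqrt K * 2 ^ T) := by gcongr
  -- assembly
  rw [cf_eq]
  have c1 := cf_or X (fun x => ∃ s, a ≤ s ∧ s ≤ u ∧ NearA K TN e (ex x.2) s x.1)
    (fun x => ∃ s ∈ Icc a u, PX K e (ex x.2) s 0 20 x.1.1 ∧
      PX K (nt e) (nt (ex x.2)) s 0 20 x.1.2)
    (fun x => (∃ s ∈ Icc a u, ∃ τ ∈ Icc (s - 2 * K) s, K2 K e (ex x.2) s τ x.1) ∨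
      (∃ s ∈ Icc a u, ∃ τ ∈ Ts K e s,
        ∃ τ' ∈ (range (TN + 1)).filter (fun τ' => τ' < τ), K3 K e (ex x.2) s τ τ' x.1) ∨
      (∃ s ∈ Icc a u, ∃ τ ∈ Ts K e s, 1 ≤ τ ∧ K4 K e (ex x.2) s τ x.1)) (by
      rintro x _ ⟨s, h1, h2, h3⟩
      have hs : s ∈ Icc a u := Finset.mem_Icc.mpr ⟨h1, h2⟩
      rcases h3 with h3 | ⟨τ, h4, h5, h6, h7, h8⟩ | ⟨τ, h4, h5, h6, τ', h7, h8, h9⟩
      · exact Or.inl ⟨s, hs, h3⟩
      · exact Or.inr (Or.inl ⟨s, hs, τ, Finset.mem_Icc.mpr ⟨by omega, h4⟩, h6, h7, h8⟩)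
      · have hT : τ ∈ Ts K e s := by
          unfold Ts
          rw [Finset.mem_filter, Finset.mem_range]
          exact ⟨by omega, h5⟩
        rcases h9 with ⟨h9, h10⟩ | ⟨h9, h10, h11⟩
        · refine Or.inr (Or.inr (Or.inl ⟨s, hs, τ, hT, τ', ?_, ⟨h6, h8⟩, h10⟩))
          rw [Finset.mem_filter, Finset.mem_range]
          omega
        · subst h9
          exact Or.inr (Or.inr (Or.inr ⟨s, hs, τ, hT, by omega, ⟨h6, h8⟩, h10, h11⟩)))
  have c2 := cf_or X (fun x => (∃ s ∈ Icc a u, ∃ τ ∈ Icc (s - 2 * K) s, K2 K e (ex x.2) s τ x.1) ∨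
      (∃ s ∈ Icc a u, ∃ τ ∈ Ts K e s,
        ∃ τ' ∈ (range (TN + 1)).filter (fun τ' => τ' < τ), K3 K e (ex x.2) s τ τ' x.1) ∨
      (∃ s ∈ Icc a u, ∃ τ ∈ Ts K e s, 1 ≤ τ ∧ K4 K e (ex x.2) s τ x.1))
      (fun x => ∃ s ∈ Icc a u, ∃ τ ∈ Icc (s - 2 * K) s, K2 K e (ex x.2) s τ x.1)
      (fun x => (∃ s ∈ Icc a u, ∃ τ ∈ Ts K e s,
        ∃ τ' ∈ (range (TN + 1)).filter (fun τ' => τ' < τ), K3 K e (ex x.2) s τ τ' x.1) ∨
      (∃ s ∈ Icc a u, ∃ τ ∈ Ts K e s, 1 ≤ τ ∧ K4 K e (ex x.2) s τ x.1)) (fun x _ h => h)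
  have c3 := cf_or X (fun x => (∃ s ∈ Icc a u, ∃ τ ∈ Ts K e s,
        ∃ τ' ∈ (range (TN + 1)).filter (fun τ' => τ' < τ), K3 K e (ex x.2) s τ τ' x.1) ∨
      (∃ s ∈ Icc a u, ∃ τ ∈ Ts K e s, 1 ≤ τ ∧ K4 K e (ex x.2) s τ x.1))
      (fun x => ∃ s ∈ Icc a u, ∃ τ ∈ Ts K e s,
        ∃ τ' ∈ (range (TN + 1)).filter (fun τ' => τ' < τ), K3 K e (ex x.2) s τ τ' x.1)
      (fun x => ∃ s ∈ Icc a u, ∃ τ ∈ Ts K e s, 1 ≤ τ ∧ K4 K e (ex x.2) s τ x.1)
      (fun x _ h => h)
  have h1 := c1.trans (Nat.add_le_add_left (c2.trans (Nat.add_le_add_left c3 _)) _)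
  have h2 := (Nat.cast_le (α := ℝ)).mpr h1
  simp only [Nat.cast_add] at h2
  refine h2.trans ?_
  have e1 : (90000 * 2001 + 90000 * Cq * 6000 +
    2001 * 1001 * 180000 * 16000000 * 8 + 2001 * 1001 * 16000000 * 8) * L * Real.sqrt K * 2 ^ T =
    90000 * 2001 * (L * Real.sqrt K * 2 ^ T) + (90000 * Cq * 6000 * (L * Real.sqrt K * 2 ^ T) +
    (2001 * 1001 * 180000 * 16000000 * 8 * (L * Real.sqrt K * 2 ^ T) +
    2001 * 1001 * 16000000 * 8 * (L * Real.sqrt K * 2 ^ T))) := by ring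
  rw [e1]
  exact add_le_add b1 (add_le_add b2 (add_le_add b3 b4))

end MP34e
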