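import Pool.Agent.Work.MP_34e428_co.ZCP0
import Pool.Agent.Work.MP_34e428_co.ZCA

/-! Near zombies on a fixed admissible path (module CP). -/

set_option autoImplicit false

open Finset
open scoped Classical

namespace MP34e

/-- CP: near zombies on a fixed admissible path -/
theorem fixed_path : ∃ C : ℝ, 0 < C ∧ ∀ (K o L B S₁ S₂ TN T : ℕ) (e : ℕ → Bool) (a u : ℕ),
    o ≤ 1 → 1 ≤ L → 500000 * L + 10 * B + 1000 ≤ K → S₁ + 8 * K ≤ TN → (6000 * L) ^ 2 ≤ K →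
    L ^ 6 * (K + TN) ^ 2 ≤ K ^ 3 → a ≤ u → u ≤ a + 2000 * L → u ≤ T → Adm L e u →
    (((SpZ K o T).filter (fun ω => ¬ BadZ K L B S₁ S₂ T ω ∧ NearP K o e a u ω)).card : ℝ) ≤
      C * L * Real.sqrt K * (2 ^ T * 6 ^ T) := by
  exact fixed_path_of count_NearA

end MP34e
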