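import Pool.Agent.Work.MP_34e428_co.ZDefs
import Pool.Agent.Work.MP_34e428_co.LHistJ

/-! Exact history of a zombie which is near the survivor (module HX). -/

set_option autoImplicit false

open Finset
open scoped Classical

namespace MP34e

namespace HistZ

open Hist (F_zero F_step F_step' F_nt ct_eq F_lip sign_cases)
open HistJ

variable {K o R ρ B S₁ TN U : ℕ} {X Y : ℕ → ℤ} {h e jd : ℕ → Bool} {jn : ℕ → ℤ} {g : ℕ → Bool}

theorem px_of (H : HypJ K o R ρ B S₁ TN U X Y h e jd jn) (hc : Cl U h g) {t : ℕ} (ht : t ≤ U)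
    (hC : CW X h e t ∨ CE K o X h e t) {v : ℤ} (hv : |X t - v| ≤ 16) :
    PX K e g t v 20 (X 0) := by
  have ho := H.tj.ho
  have c1 := hc 0 t (Nat.zero_le _) ht
  rw [F_zero] at c1
  rw [abs_le] at hv
  rcases hC with hC | hC | ⟨σ, h1, h2, h5, h6⟩
  · have h1 := (hC t le_rfl).1
    left
    rw [abs_le]
    omega
  · have h1 := (hC t le_rfl).1
    right; left
    rw [abs_le]
    omega
  · right; right
    have h7 := (h6 t h1 le_rfl).1
    have h8 := (h5 σ le_rfl).1
    have c2 := hc 0 σ (Nat.zero_le _) (by omega)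
    have c3 := hc σ t (le_of_lt h1) ht
    have c4 := ct_eq e (le_of_lt h1)
    rw [F_zero] at c2
    refine ⟨σ, h1, ?_, ?_⟩
    · rw [abs_le]
      omega
    · rw [abs_le]
      omega

theorem low_of (H : HypJ K o R ρ B S₁ TN U X Y h e jd jn) (hc : Cl U h g) {τ s : ℕ} (hs : s ≤ U)
    (hQ : QA X Y h e τ s) (hY : Y s ≤ 3) : Low e g 8 τ s := by
  intro r hr1 hr2
  have h1 := (hQ.1 r hr1 hr2).2.2.2
  have c1 := hc r s hr2 hs
  have c2 := ct_eq e hr2
  omega

/-- the coordinate `X` moves up by at most one at each step and does not exceed the free move -/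
theorem ln_one (H : HypJ K o R ρ B S₁ TN U X Y h e jd jn) {τ s r : ℕ} {c : ℤ} (hs : s ≤ U)
    (hL : Ln K o X Y h e jd τ s c) (h1 : τ ≤ r) (h2 : r < s) :
    X (r + 1) ≤ X r + 1 ∧ (1 ≤ X r →
      X (r + 1) ≤ X r - (ct h 0 (r + 1) - ct h 0 r) + (ct e 0 (r + 1) - ct e 0 r)) := by
  have hK := H.hK
  have ho := H.tj.ho
  obtain ⟨l1, l2, l3, l4⟩ := hL
  have g1 := l3 r h1 (le_of_lt h2)
  have g2 := l3 (r + 1) (by omega) h2
  have g3 := (l4 r h1 h2).1
  have f1 := F_step' h r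
  have f2 := F_step' e r
  obtain ⟨m, b, a, d, hm, hb, ha, hd, had, hbe, hmh, hX0, hY0, hXs, hYs, hjn, hj1, hj2⟩ :=
    H.tj.st r (by omega)
  have ha0 : a = 0 := by
    rcases ha with h5 | h5
    · exact h5
    · exfalso
      have := (hXs.1 h5).2.2.2
      omega
  have hX1 := hXs.2 ha0
  clear hXs hYs hj1 hj2
  rcases eq_or_lt_of_le g1.1 with hx | hx
  · have := hX1.2.2 hx.symm
    constructor
    · omega
    · intro h5; omega
  · rcases eq_or_lt_of_le g1.2.1 with hy | hy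
    · have hm1 := hY0 hy.symm
      have := (hX1.1 hx).2 (by omega)
      constructor
      · omega
      · intro _; omega
    · have := g3 (by omega) (by omega)
      constructor
      · omega
      · intro _; omega

/-- going backwards from `X s = K` -/
theorem back_K {s a : ℕ} (hXK : X s = K) (ha : a ≤ s) (hup : ∀ r, a ≤ r → r < s →
      X (r + 1) ≤ X r + 1 ∧ (1 ≤ X r →
      X (r + 1) ≤ X r - (ct h 0 (r + 1) - ct h 0 r) + (ct e 0 (r + 1) - ct e 0 r))) :
    ∀ d : ℕ, a + d ≤ s → (K : ℤ) - d ≤ X (s - d) ∧ (d < K →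
      X s - X (s - d) ≤ -(ct h 0 s - ct h 0 (s - d)) + (ct e 0 s - ct e 0 (s - d))) := by
  intro d
  induction d with
  | zero =>
    intro _
    simp [hXK]
  | succ d ih =>
    intro hd
    obtain ⟨h1, h2⟩ := ih (by omega)
    obtain ⟨h3, h4⟩ := hup (s - (d + 1)) (by omega) (by omega)
    have e1 : s - (d + 1) + 1 = s - d := by omega
    rw [e1] at h3 h4
    refine ⟨by push_cast; omega, fun hK => ?_⟩
    have h5 := h2 (by omega)
    have h6 := h4 (by omega)
    omega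

theorem near_A (H : HypJ K o R ρ B S₁ TN U X Y h e jd jn) (hc : Cl U h g) {t : ℕ} (ht : t ≤ U)
    (hQ : IA K o TN X Y h e jd t) (hρ : |X t| + |Y t| ≤ 3) : NearA K TN e g t (X 0, Y 0) := by
  have hK := H.hK
  have ho := H.tj.ho
  obtain ⟨τ, h1, h2, h3⟩ := hQ
  obtain ⟨g1, g2, g3, g4⟩ := h3.1 t h1 le_rfl
  have hρ' : -X t + Y t ≤ 3 := by
    rw [abs_of_neg g1, abs_of_nonneg g2] at hρ
    exact hρ
  have hl := qa_len H ht h1 (infoA_Y h2) h3
  have hlow : Low e g 8 τ t := low_of H hc ht h3 (by omega)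
  have ce := ct_eq e h1
  rcases h2 with ⟨⟨cx, h4⟩, h5, cy, h6⟩ | ⟨h4, h5, h5', τ', s, c, h6, h7, h8, h9⟩
  · right; left
    have hY01 : 0 ≤ Y τ ∧ Y τ ≤ 1 := by
      rcases h6 with ⟨_, _, h7⟩ | ⟨_, _, h7, h8⟩ <;> omega
    refine ⟨τ, h1, by omega, hlow, ?_, ?_⟩
    · refine px_of H.swap hc.swap (by omega) ?_ (by rw [abs_le]; omega)
      rcases h6 with ⟨_, h7, _⟩ | ⟨_, h7, _, _⟩
      · exact Or.inl h7
      · exact Or.inr h7
    · refine px_of H hc (by omega) ?_ (by rw [abs_le]; omega)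
      rcases h4 with ⟨_, h7, _⟩ | ⟨_, h7, _⟩
      · exact Or.inl h7
      · exact Or.inr h7
  · right; right
    subst h6
    have hbx := H.tj.bx (s + 1) (by omega)
    -- the coordinate `X` is `K` at time `s`
    have hXs : X s = K := by
      obtain ⟨m, b, a, d, hm, hb, ha, hd, had, hbe, hmh, hX0, hY0, hXs, hYs, -, -, -⟩ :=
        H.tj.st s (by omega)
      have hl3 := h9.2.2.1 s h7 le_rfl
      rcases ha with ha | ha
      · have hX1 := hXs.2 ha
        rcases eq_or_lt_of_le hl3.1 with hx | hx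
        · have := hX1.2.2 hx.symm
          omega
        · have hX2 := hX1.1 hx
          by_contra hcon
          have := hX2.2 (by omega)
          omega
      · exact (hXs.1 ha).2.1
    refine ⟨s + 1, h1, by rw [abs_le]; omega, hlow, ?_⟩
    have hgen : ∀ a : ℕ, a ≤ s → (∀ r, a ≤ r → r < s →
      X (r + 1) ≤ X r + 1 ∧ (1 ≤ X r →
      X (r + 1) ≤ X r - (ct h 0 (r + 1) - ct h 0 r) + (ct e 0 (r + 1) - ct e 0 r))) →
        Low e g 8 (max a (s + 1 - 1 - (K - 20))) (s + 1 - 1) := by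
      intro a ha hup r hr1 hr2
      rw [max_le_iff] at hr1
      have hr2' : r ≤ s := by omega
      have hb := (back_K hXs ha hup (s - r) (by omega)).2 (by omega)
      rw [show s - (s - r) = r by omega] at hb
      have c1 := hc r s hr2' (by omega)
      have c2 := ct_eq e hr2'
      have hbr := H.tj.bx r (by omega)
      have e1 : s + 1 - 1 = s := by omega
      rw [e1]
      omega
    rcases h8 with h8 | h8
    · refine ⟨τ', by omega, hgen τ' h7 (fun r hr1 hr2 => ln_one H (by omega) h9 hr1 hr2),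
        Or.inl ⟨h8.1, ?_⟩⟩
      have hbt := H.tj.bx τ' (by omega)
      rcases h8.2 with ⟨c1, c2, c2', c3, c4⟩ | ⟨c1, c2, c2', c3, c4⟩
      · left
        exact ⟨px_of H hc (by omega) (Or.inr c1) (by rw [abs_le]; omega),
          px_of H.swap hc.swap (by omega) (Or.inl c3) (by rw [abs_le]; omega)⟩
      · right
        exact ⟨px_of H.swap hc.swap (by omega) (Or.inr c1) (by rw [abs_le]; omega),
          px_of H hc (by omega) (Or.inl c3) (by rw [abs_le]; omega)⟩
    · obtain ⟨i1, i2, i3⟩ := h8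
      have hup : ∀ r, 0 ≤ r → r < s → X (r + 1) ≤ X r + 1 ∧ (1 ≤ X r →
          X (r + 1) ≤ X r - (ct h 0 (r + 1) - ct h 0 r) + (ct e 0 (r + 1) - ct e 0 r)) := by
        intro r _ hr
        rcases Nat.lt_or_ge r τ' with h10 | h10
        · have e1 := (i2 r (le_of_lt h10)).1
          have e2 := (i2 (r + 1) h10).1
          have f1 := F_step' h r
          have f2 := F_step' e r
          constructor
          · omega
          · intro _; omega
        · exact ln_one H (by omega) h9 h10 hr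
      refine ⟨0, by omega, hgen 0 (Nat.zero_le _) hup, Or.inr ⟨rfl, i1, ?_⟩⟩
      have hb := (back_K (h := h) (e := e) hXs (Nat.zero_le s) hup s (by omega)).1
      rw [Nat.sub_self] at hb
      have hb0 := H.tj.bx 0 (Nat.zero_le _)
      simp only
      rw [abs_le]
      push_cast
      omega

theorem near_all (H : HypJ K o R ρ B S₁ TN U X Y h e jd jn) (hc : Cl U h g) {t : ℕ} (ht : t ≤ U)
    (hn : X t < 0 ∧ 0 ≤ Y t) (hρ : |X t| + |Y t| ≤ 3) : NearA K TN e g t (X 0, Y 0) := by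
  rcases inv_all H t ht with ⟨cx, cy, h1, h2, -⟩ | ⟨h1, -⟩ | ⟨⟨τ, h1, h2, h3⟩, -⟩ |
    ⟨⟨τ, h1, c, h2, h3⟩, -⟩ | ⟨h1, -⟩
  · left
    have hx := abs_nonneg (X t)
    have hy := abs_nonneg (Y t)
    refine ⟨px_of H hc ht ?_ (by rw [sub_zero]; omega),
      px_of H.swap hc.swap ht ?_ (by rw [sub_zero]; omega)⟩
    · rcases h1 with ⟨_, h3, _⟩ | ⟨_, h3, _⟩
      · exact Or.inl h3
      · exact Or.inr h3
    · rcases h2 with ⟨_, h3, _⟩ | ⟨_, h3, _⟩
      · exact Or.inl h3
      · exact Or.inr h3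
  · exact near_A H hc ht h1 hρ
  · exfalso
    have := h3.1 t h1 le_rfl
    omega
  · exfalso
    have := h3.2.2.1 t h1 le_rfl
    omega
  · exfalso
    unfold Sf at h1
    omega

end HistZ

/-- HX: exact history of a near zombie of type A -/
theorem near_exact {K o R ρ B S₁ TN T : ℕ} (ho : o ≤ 1) (hR : 4 ≤ R)
    (hK : 200 * R + 10 * B + 10 * ρ + 1000 ≤ K)
    (hTN : S₁ + 8 * K ≤ TN) {h e : ℕ → Bool} {J : ℕ → ℤ × ℤ → Bool} (he : BalP R e T)
    (hB : GB B (4 * K) h T)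
    (hE : ESC (B + 8 * R + 100) S₁ h T) {p : ℤ × ℤ} (hp : p ∈ boxJ K o) {t : ℕ} (ht : t ≤ T)
    (hd : ∀ s ≤ t, 2 ≤ ds (trJ K o h J e p s)) (hA : tA (trJ K o h J e p t))
    (h3 : ds (trJ K o h J e p t) ≤ 3) : NearA K TN e h t p := by
  have hj := HistJ.jumps_le ho hR hK hTN he hB hE hp ht hd
  exact HistZ.near_all (HistJ.mkHyp ho hR hK hTN he hB hE hp ht hd (by omega))
    (HistJ.cl_of (by omega)) le_rfl hA h3

/-- HX': the same for type B -/
theorem near_exact' {K o R ρ B S₁ TN T : ℕ} (ho : o ≤ 1) (hR : 4 ≤ R)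
    (hK : 200 * R + 10 * B + 10 * ρ + 1000 ≤ K)
    (hTN : S₁ + 8 * K ≤ TN) {h e : ℕ → Bool} {J : ℕ → ℤ × ℤ → Bool} (he : BalP R e T)
    (hB : GB B (4 * K) h T)
    (hE : ESC (B + 8 * R + 100) S₁ h T) {p : ℤ × ℤ} (hp : p ∈ boxJ K o) {t : ℕ} (ht : t ≤ T)
    (hd : ∀ s ≤ t, 2 ≤ ds (trJ K o h J e p s)) (hA : tB (trJ K o h J e p t))
    (h3 : ds (trJ K o h J e p t) ≤ 3) : NearA K TN (nt e) (nt h) t p.swap := by
  have hj := HistJ.jumps_le ho hR hK hTN he hB hE hp ht hd
  have H := HistJ.mkHyp ho hR hK hTN he hB hE hp ht hd (by omega)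
  have hcl : HistJ.Cl t _ h := HistJ.cl_of (show HistJ.nj K o h (fun t => J t (trJ K o h J e p t))
    (trJ K o h J e p) t ≤ 3 by omega)
  have h4 : |(trJ K o h J e p t).2| + |(trJ K o h J e p t).1| ≤ 3 := by
    unfold ds at h3
    omega
  exact HistZ.near_all H.swap hcl.swap le_rfl ⟨hA.2, hA.1⟩ h4

end MP34e
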