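import Pool.Agent.Work.MP_34e428_co.ZDefs
import Pool.Agent.Work.MP_34e428_co.ZHX

/-! Near zombies on a fixed admissible path (module CP, with CA as hypothesis). -/

set_option autoImplicit false

open Finset
open scoped Classical

namespace MP34e

namespace CPZ

theorem ct_congr {g g' : ℕ → Bool} {s : ℕ} (h : ∀ t < s, g t = g' t) (a : ℕ) {b : ℕ}
    (hb : b ≤ s) : ct g a b = ct g' a b := by
  unfold ct
  congr 2
  apply Finset.filter_congr
  intro t ht
  rw [Finset.mem_Ico] at ht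
  rw [h t (by omega)]

theorem PX_congr {K : ℕ} {e g g' : ℕ → Bool} {s : ℕ} (h : ∀ t < s, g t = g' t) {t : ℕ}
    (ht : t ≤ s) {v w x : ℤ} (hP : PX K e g t v w x) : PX K e g' t v w x := by
  unfold PX at *
  rw [← ct_congr h 0 ht]
  rcases hP with hP | hP | ⟨σ, h1, h2, h3⟩
  · exact Or.inl hP
  · exact Or.inr (Or.inl hP)
  · refine Or.inr (Or.inr ⟨σ, h1, ?_, ?_⟩)
    · rw [← ct_congr h 0 (show σ ≤ s by omega)]
      exact h2
    · rw [← ct_congr h σ ht]
      exact h3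

theorem Low_congr {e g g' : ℕ → Bool} {s : ℕ} (h : ∀ t < s, g t = g' t) {ℓ : ℤ} {τ t : ℕ}
    (ht : t ≤ s) (hP : Low e g ℓ τ t) : Low e g' ℓ τ t := by
  intro r h1 h2
  rw [← ct_congr h r ht]
  exact hP r h1 h2

theorem NearA_congr {K TN : ℕ} {e g g' : ℕ → Bool} {s : ℕ} (h : ∀ t < s, g t = g' t) {p : ℤ × ℤ}
    (hP : NearA K TN e g s p) : NearA K TN e g' s p := by
  have h' : ∀ t < s, nt g t = nt g' t := by
    intro t ht
    unfold nt
    rw [h t ht]
  rcases hP with ⟨h1, h2⟩ | ⟨τ, h1, h2, h3, h4, h5⟩ | ⟨τ, h1, h2, h3, τ', h4, h5, h6⟩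
  · exact Or.inl ⟨PX_congr h le_rfl h1, PX_congr h' le_rfl h2⟩
  · exact Or.inr (Or.inl ⟨τ, h1, h2, Low_congr h le_rfl h3, PX_congr h' h1 h4, PX_congr h h1 h5⟩)
  · refine Or.inr (Or.inr ⟨τ, h1, h2, Low_congr h le_rfl h3, τ', h4,
      Low_congr h (by omega) h5, ?_⟩)
    rcases h6 with ⟨h6, ⟨h7, h8⟩ | ⟨h7, h8⟩⟩ | h6
    · exact Or.inl ⟨h6, Or.inl ⟨PX_congr h (by omega) h7, PX_congr h' (by omega) h8⟩⟩
    · exact Or.inl ⟨h6, Or.inr ⟨PX_congr h' (by omega) h7, PX_congr h (by omega) h8⟩⟩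
    · exact Or.inr h6

theorem boxJ_sub (K o : ℕ) : boxJ K o ⊆ box K := by
  intro p hp
  unfold boxJ at hp
  unfold box
  rw [mem_product, mem_Icc, mem_Icc] at *
  omega

/-- an event which only depends on the initial displacement and on the first coins -/
theorem count_pc {K o T : ℕ} (P : (ℤ × ℤ) × (Fin T → Bool) → Prop) (b : ℝ)
    (h : (((box K ×ˢ (univ : Finset (Fin T → Bool))).filter P).card : ℝ) ≤ b * 2 ^ T) :
    (((SpZ K o T).filter (fun x => P (x.1, x.2.1))).card : ℝ) ≤ b * (2 ^ T * 6 ^ T) := by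
  have h1 : ((SpZ K o T).filter (fun x => P (x.1, x.2.1))).card ≤
      (((box K ×ˢ (univ : Finset (Fin T → Bool))).filter P) ×ˢ
        (univ : Finset (Fin T → Fin 6))).card := by
    apply Finset.card_le_card_of_injOn (fun x => ((x.1, x.2.1), x.2.2))
    · intro x hx
      simp only [Finset.coe_filter, Set.mem_ofPred_eq, SpZ, mem_product] at hx
      simp only [Finset.coe_product, Finset.coe_filter, Set.mem_prod, Set.mem_ofPred_eq,
        mem_product, Finset.coe_univ, Set.mem_univ, and_true, mem_univ]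
      exact ⟨boxJ_sub K o hx.1.1, hx.2⟩
    · rintro ⟨a, b, c⟩ _ ⟨a', b', c'⟩ _ h
      simp only [Prod.mk.injEq] at h ⊢
      exact ⟨h.1.1, h.1.2, h.2⟩
  have h2 : (((SpZ K o T).filter (fun x => P (x.1, x.2.1))).card : ℝ) ≤
      (((box K ×ˢ (univ : Finset (Fin T → Bool))).filter P).card : ℝ) * 6 ^ T := by
    have h3 : ((((box K ×ˢ (univ : Finset (Fin T → Bool))).filter P) ×ˢ
        (univ : Finset (Fin T → Fin 6))).card : ℝ) =
        (((box K ×ˢ (univ : Finset (Fin T → Bool))).filter P).card : ℝ) * 6 ^ T := by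
      rw [Finset.card_product]
      push_cast
      congr 1
      simp
    rw [← h3]
    exact_mod_cast h1
  calc _ ≤ (((box K ×ˢ (univ : Finset (Fin T → Bool))).filter P).card : ℝ) * 6 ^ T := h2
    _ ≤ (b * 2 ^ T) * 6 ^ T := by gcongr
    _ = b * (2 ^ T * 6 ^ T) := by ring

/-- exchanging the axes -/
theorem count_swap {K TN T : ℕ} (e : ℕ → Bool) {a u : ℕ} (hu : u ≤ T) :
    ((box K ×ˢ (univ : Finset (Fin T → Bool))).filter
      (fun x => ∃ s, a ≤ s ∧ s ≤ u ∧ NearA K TN e (nt (ex x.2)) s x.1.swap)).card ≤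
    ((box K ×ˢ (univ : Finset (Fin T → Bool))).filter
      (fun x => ∃ s, a ≤ s ∧ s ≤ u ∧ NearA K TN e (ex x.2) s x.1)).card := by
  apply Finset.card_le_card_of_injOn (fun x => (x.1.swap, fun i => !x.2 i))
  · intro x hx
    simp only [Finset.coe_filter, Set.mem_ofPred_eq, mem_product, mem_univ, and_true] at hx ⊢
    obtain ⟨h1, s, h2, h3, h4⟩ := hx
    refine ⟨?_, s, h2, h3, NearA_congr ?_ h4⟩
    · unfold box at *
      rw [mem_product] at *
      exact ⟨h1.2, h1.1⟩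
    · intro t ht
      have : t < T := by omega
      simp [nt, ex, this]
  · rintro ⟨p, c⟩ _ ⟨p', c'⟩ _ h
    simp only [Prod.mk.injEq] at h ⊢
    refine ⟨Prod.swap_injective h.1, ?_⟩
    funext i
    have := congrFun h.2 i
    simpa using this

/-- the distance decreases by at most two in each round -/
theorem ds_lower {K o : ℕ} (hK : 2 ≤ K) (ho : o ≤ 1) (h e : ℕ → Bool) (J : ℕ → ℤ × ℤ → Bool)
    (p : ℤ × ℤ) (hp : p ∈ boxJ K o) (U : ℕ) (hd : ∀ s ≤ U, 2 ≤ ds (trJ K o h J e p s)) :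
    ∀ t ≤ U, ds p - 2 * t ≤ ds (trJ K o h J e p t) := by
  intro t
  induction t with
  | zero =>
    intro _
    simp [trJ]
  | succ t ih =>
    intro ht
    have h0 := ih (by omega)
    obtain ⟨h1, h2, h3, h4⟩ := HistJ.trJ_box hK ho h e J p hp U hd t (by omega)
    obtain ⟨m, b, a, c, hm, hb, ha, hc, hac, -, -, hx0, hy0, hX, hY, -, -, -⟩ :=
      HistJ.trJ_step hK ho h e J p t h2 h4 (hd t (by omega))
    have key : ∀ x x' m b a : ℤ, (m = 0 ∨ m = 1) → (b = 0 ∨ b = 1) → (a = 0 ∨ a = 1) →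
        HistJ.CSJ K o x x' m b a → |x| - m - b ≤ |x'| := by
      intro x x' m b a hm hb ha hC
      unfold HistJ.CSJ at hC
      have e1 := abs_cases x
      have e2 := abs_cases x'
      rcases ha with rfl | rfl
      · have hC2 := hC.2 rfl
        clear hC
        rcases lt_trichotomy x 0 with h5 | h5 | h5
        · have := hC2.2.1 h5
          omega
        · have := hC2.2.2 h5
          omega
        · have hC3 := hC2.1 h5
          clear hC2
          by_cases h6 : x = K ∧ m = 0 ∧ b = 1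
          · have := hC3.1 h6
            omega
          · have := hC3.2 h6
            omega
      · have := hC.1 rfl
        omega
    have k1 := key _ _ _ _ _ hm hb ha hX
    have k2 := key _ _ _ _ _ (show (1 : ℤ) - m = 0 ∨ (1 : ℤ) - m = 1 by omega)
      (show (1 : ℤ) - b = 0 ∨ (1 : ℤ) - b = 1 by omega) hc hY
    unfold ds at *
    push_cast
    omega

end CPZ

/-- CP: near zombies on a fixed admissible path -/
theorem fixed_path_of (hCA : ∃ C : ℝ, 0 < C ∧ ∀ (K TN L T : ℕ) (e : ℕ → Bool) (a u : ℕ), 1 ≤ L →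
    6000 * L ≤ a → a ≤ u → u ≤ a + 2000 * L → u ≤ T → (6000 * L) ^ 2 ≤ K →
    L ^ 6 * (K + TN) ^ 2 ≤ K ^ 3 → (∀ t ≤ u, |2 * ct e 0 t - t| ≤ 240 * L) →
    (∀ t, t + 6000 * L ≤ u → ∃ s, t ≤ s ∧ s ≤ t + 6000 * L ∧ 2 * ct e 0 s - s = 240 * L) →
    (((box K ×ˢ (univ : Finset (Fin T → Bool))).filter
      (fun x => ∃ s, a ≤ s ∧ s ≤ u ∧ NearA K TN e (ex x.2) s x.1)).card : ℝ) ≤
      C * L * Real.sqrt K * 2 ^ T) :
    ∃ C : ℝ, 0 < C ∧ ∀ (K o L B S₁ S₂ TN T : ℕ) (e : ℕ → Bool) (a u : ℕ),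
    o ≤ 1 → 1 ≤ L → 500000 * L + 10 * B + 1000 ≤ K → S₁ + 8 * K ≤ TN → (6000 * L) ^ 2 ≤ K →
    L ^ 6 * (K + TN) ^ 2 ≤ K ^ 3 → a ≤ u → u ≤ a + 2000 * L → u ≤ T → Adm L e u →
    (((SpZ K o T).filter (fun ω => ¬ BadZ K L B S₁ S₂ T ω ∧ NearP K o e a u ω)).card : ℝ) ≤
      C * L * Real.sqrt K * (2 ^ T * 6 ^ T) := by
  obtain ⟨C, hC0, hC⟩ := hCA
  refine ⟨2 * C, by positivity, ?_⟩
  intro K o L B S₁ S₂ TN T e a u ho hL hK hTN hLK hLK3 hau hua huT hadm
  obtain ⟨hbal, hup, hdn⟩ := hadm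
  -- the history of one zombie
  have hhist : ∀ ω ∈ SpZ K o T, ¬ BadZ K L B S₁ S₂ T ω → NearP K o e a u ω →
      6000 * L ≤ a ∧ ((∃ s, a ≤ s ∧ s ≤ u ∧ NearA K TN e (ex ω.2.1) s ω.1) ∨
        (∃ s, a ≤ s ∧ s ≤ u ∧ NearA K TN (nt e) (nt (ex ω.2.1)) s ω.1.swap)) := by
    intro ω hω hbad hnear
    unfold BadZ at hbad
    push Not at hbad
    obtain ⟨b1, b2, b3, b4, b5⟩ := hbad
    obtain ⟨n1, s, n2, n3, n4, n5⟩ := hnear
    have hp : ω.1 ∈ boxJ K o := by
      unfold SpZ at hω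
      exact (mem_product.1 hω).1
    have hd : ∀ s' ≤ s, 2 ≤ ds (trJ K o (ex ω.2.1) (fun t => jc K (ex6 ω.2.2 t)) e ω.1 s') :=
      fun s' hs' => n1 s' (by omega)
    have hds := CPZ.ds_lower (by omega) ho (ex ω.2.1) e (fun t => jc K (ex6 ω.2.2 t)) ω.1 hp s hd
      s le_rfl
    have n5' : ds (trJ K o (ex ω.2.1) (fun t => jc K (ex6 ω.2.2 t)) e ω.1 s) ≤ 3 := n5
    refine ⟨by omega, ?_⟩
    have he : BalP (1000 * L) e s := by
      intro t ht
      have := hbal t (by omega)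
      rw [abs_le] at this ⊢
      push_cast
      omega
    have hB : GB B (4 * K) (ex ω.2.1) s := fun x y h1 h2 h3 => b3 x y h1 (by omega) h3
    have hE : ESC (B + 8 * (1000 * L) + 100) S₁ (ex ω.2.1) s := by
      have e1 : B + 8 * (1000 * L) + 100 = B + 8000 * L + 100 := by omega
      rw [e1]
      exact fun x hx => b4 x (by omega)
    have hK' : 200 * (1000 * L) + 10 * B + 10 * 0 + 1000 ≤ K := by omega
    rcases n4 with n4 | n4
    · left
      exact ⟨s, n2, n3, near_exact (ρ := 0) ho (by omega) hK' hTN he hB hE hp le_rfl hd n4 n5'⟩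
    · right
      exact ⟨s, n2, n3, near_exact' (ρ := 0) ho (by omega) hK' hTN he hB hE hp le_rfl hd n4 n5'⟩
  by_cases ha : 6000 * L ≤ a
  · have hA := CPZ.count_pc (o := o) (fun x : (ℤ × ℤ) × (Fin T → Bool) =>
      ∃ s, a ≤ s ∧ s ≤ u ∧ NearA K TN e (ex x.2) s x.1) (C * L * Real.sqrt K)
      (hC K TN L T e a u hL ha hau hua huT hLK hLK3 hbal hup)
    have hB := CPZ.count_pc (o := o) (fun x : (ℤ × ℤ) × (Fin T → Bool) =>
      ∃ s, a ≤ s ∧ s ≤ u ∧ NearA K TN (nt e) (nt (ex x.2)) s x.1.swap) (C * L * Real.sqrt K)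
      (by
        refine le_trans (Nat.cast_le.2 (CPZ.count_swap (nt e) huT)) ?_
        refine hC K TN L T (nt e) a u hL ha hau hua huT hLK hLK3 ?_ ?_
        · intro t ht
          have := hbal t ht
          rw [abs_le] at this ⊢
          rw [ct_nt e (Nat.zero_le t)]
          push_cast
          omega
        · intro t ht
          obtain ⟨s, h1, h2, h3⟩ := hdn t ht
          refine ⟨s, h1, h2, ?_⟩
          rw [ct_nt e (Nat.zero_le s)]
          push_cast
          omega)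
    have hsub : (SpZ K o T).filter (fun ω => ¬ BadZ K L B S₁ S₂ T ω ∧ NearP K o e a u ω) ⊆
        (SpZ K o T).filter (fun x => (fun x : (ℤ × ℤ) × (Fin T → Bool) =>
          ∃ s, a ≤ s ∧ s ≤ u ∧ NearA K TN e (ex x.2) s x.1) (x.1, x.2.1)) ∪
        (SpZ K o T).filter (fun x => (fun x : (ℤ × ℤ) × (Fin T → Bool) =>
          ∃ s, a ≤ s ∧ s ≤ u ∧ NearA K TN (nt e) (nt (ex x.2)) s x.1.swap) (x.1, x.2.1)) := by
      intro ω hω
      rw [mem_filter] at hω
      rw [mem_union, mem_filter, mem_filter]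
      rcases (hhist ω hω.1 hω.2.1 hω.2.2).2 with h | h
      · exact Or.inl ⟨hω.1, h⟩
      · exact Or.inr ⟨hω.1, h⟩
    calc (((SpZ K o T).filter
          (fun ω => ¬ BadZ K L B S₁ S₂ T ω ∧ NearP K o e a u ω)).card : ℝ)
        ≤ C * L * Real.sqrt K * (2 ^ T * 6 ^ T) + C * L * Real.sqrt K * (2 ^ T * 6 ^ T) := by
          refine le_trans (Nat.cast_le.2 ((Finset.card_le_card hsub).trans
            (Finset.card_union_le _ _))) ?_
          push_cast
          exact add_le_add hA hB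
      _ = 2 * C * L * Real.sqrt K * (2 ^ T * 6 ^ T) := by ring
  · have hempty : (SpZ K o T).filter
        (fun ω => ¬ BadZ K L B S₁ S₂ T ω ∧ NearP K o e a u ω) = ∅ := by
      apply Finset.filter_false_of_mem
      intro ω hω h
      exact ha (hhist ω hω h.1 h.2).1
    rw [hempty, Finset.card_empty, Nat.cast_zero]
    positivity

end MP34e
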