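import Pool.Agent.Work.MP_34e428_co.LLoc1
import Pool.Agent.Work.MP_34e428_co.LNoJump

/-! Exact order of the zombie number of the toroidal grid: definitions.

Conventions as in `LDefs`, `LDefsJ`: displacements are `survivor - zombie`, coin `true` =
horizontal, survivor move `true` = east, `false` = north; `n = 2 K + 1 - o`.

All logarithmic scales are multiples of one parameter `L`. -/

set_option autoImplicit false

open Finset

namespace MP34e

/-! ### Strategies with memory -/

/-- a strategy of the survivor with memory; after the moves of the zombies the survivor sees all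
displacements `q` -/
structure Strat (k : ℕ) where
  M : Type
  m0 : M
  dir : M → (Fin k → ℤ × ℤ) → Bool
  upd : M → (Fin k → ℤ × ℤ) → M

/-- the game: displacements and memory after `t` rounds -/
noncomputable def Strat.run {k : ℕ} (σ : Strat k) (K o : ℕ) (c : Fin k → ℕ → Bool)
    (J : Fin k → ℕ → ℤ × ℤ → Bool) (p : Fin k → ℤ × ℤ) : ℕ → (Fin k → ℤ × ℤ) × σ.M
  | 0 => (p, σ.m0)
  | t + 1 =>
    let s := σ.run K o c J p t
    let q : Fin k → ℤ × ℤ := fun i => zj K o (c i t) (J i t (s.1 i)) (s.1 i)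
    (fun i => smJ K o (σ.dir s.2 q) (q i), σ.upd s.2 q)

/-- displacements after the moves of the zombies in round `t + 1` -/
noncomputable def Strat.mid {k : ℕ} (σ : Strat k) (K o : ℕ) (c : Fin k → ℕ → Bool)
    (J : Fin k → ℕ → ℤ × ℤ → Bool) (p : Fin k → ℤ × ℤ) (t : ℕ) : Fin k → ℤ × ℤ :=
  fun i => zj K o (c i t) (J i t ((σ.run K o c J p t).1 i)) ((σ.run K o c J p t).1 i)

/-- the moves of the survivor -/
noncomputable def Strat.pth {k : ℕ} (σ : Strat k) (K o : ℕ) (c : Fin k → ℕ → Bool)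
    (J : Fin k → ℕ → ℤ × ℤ → Bool) (p : Fin k → ℤ × ℤ) : ℕ → Bool :=
  fun t => σ.dir (σ.run K o c J p t).2 (σ.mid K o c J p t)

theorem Strat.run_fst {k : ℕ} (σ : Strat k) (K o : ℕ) (c : Fin k → ℕ → Bool)
    (J : Fin k → ℕ → ℤ × ℤ → Bool) (p : Fin k → ℤ × ℤ) (t : ℕ) (i : Fin k) :
    (σ.run K o c J p t).1 i = trJ K o (c i) (J i) (σ.pth K o c J p) (p i) t := by
  induction t with
  | zero => rfl
  | succ t ih =>
    rw [trJ, ← ih]
    rfl

/-! ### The strategy -/

/-- memory: `D` = (east moves) - (north moves); current mode (`true` = east mode: `D` goes up to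
`tg`, `false` = north mode: `D` goes down to `-tg`); target level `tg` -/
structure ZM where
  D : ℤ
  ph : Bool
  tg : ℤ

/-- an east move is blocked by zombie displacement `p` (after the moves of the zombies) -/
def EB (p : ℤ × ℤ) : Prop := |p.1 + 1| + |p.2| ≤ 1

/-- a north move is blocked -/
def NB (p : ℤ × ℤ) : Prop := |p.1| + |p.2 + 1| ≤ 1

/-- visible front zombie -/
def vis (L : ℕ) (p : ℤ × ℤ) : Prop := p.1 < 0 ∧ p.2 < 0 ∧ -p.1 - p.2 ≤ 2100 * L

/-- a zombie which influences the decisions of the survivor -/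
def infl (L : ℕ) (p : ℤ × ℤ) : Prop := EB p ∨ NB p ∨ vis L p

/-- the mode ends now -/
def zflip (m : ZM) : Prop := (m.ph = true ∧ m.tg ≤ m.D) ∨ (m.ph = false ∧ m.D ≤ -m.tg)

/-- displacement as seen with the axes exchanged if the new mode is the north mode: the mode
which ends at the level `tg` is followed by a mode in which the front zombie `p` with
`3 p.1 = p.2` (east mode ends, north mode follows) is dangerous -/
def zu (b : Bool) (p : ℤ × ℤ) : ℤ := if b then 3 * p.1 - p.2 else 3 * p.2 - p.1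

/-- the level `lv` is acceptable as target of the new mode `b` (`true` = east), `S` = zombies
which are taken into account -/
def zok (L : ℕ) {k : ℕ} (S : Finset (Fin k)) (b : Bool) (D : ℤ) (q : Fin k → ℤ × ℤ) (lv : ℤ) :
    Prop :=
  ∀ i ∈ S, vis L (q i) → 120 * (L : ℤ) ≤ |zu b (q i) + 4 * (lv - (if b then D else -D))|

open scoped Classical in
/-- the target of the new mode `b` -/
noncomputable def zlev (L : ℕ) {k : ℕ} (S : Finset (Fin k)) (b : Bool) (D : ℤ)
    (q : Fin k → ℤ × ℤ) : ℤ :=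
  if zok L S b D q (240 * L) then 240 * L
  else if zok L S b D q (180 * L) then 180 * L else 120 * L

open scoped Classical in
/-- new mode -/
noncomputable def zph (m : ZM) : Bool := if zflip m then !m.ph else m.ph

open scoped Classical in
/-- new target -/
noncomputable def ztg (L : ℕ) {k : ℕ} (S : Finset (Fin k)) (m : ZM) (q : Fin k → ℤ × ℤ) : ℤ :=
  if zflip m then zlev L S (!m.ph) m.D q else m.tg

open scoped Classical in
/-- the move -/
noncomputable def zdir (L : ℕ) {k : ℕ} (S : Finset (Fin k)) (m : ZM) (q : Fin k → ℤ × ℤ) : Bool :=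
  if 240 * (L : ℤ) ≤ m.D then false else if m.D ≤ -(240 * (L : ℤ)) then true
  else if zph m then decide (¬ ∃ i ∈ S, EB (q i)) else decide (∃ i ∈ S, NB (q i))

/-- the strategy of the survivor who only takes the zombies in `S` into account -/
noncomputable def zst (L : ℕ) {k : ℕ} (S : Finset (Fin k)) : Strat k where
  M := ZM
  m0 := ⟨0, true, 240 * L⟩
  dir := zdir L S
  upd := fun m q => ⟨m.D + (if zdir L S m q then 1 else -1), zph m, ztg L S m q⟩

theorem zst_D (L : ℕ) {k : ℕ} (S : Finset (Fin k)) (K o : ℕ) (c : Fin k → ℕ → Bool)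
    (J : Fin k → ℕ → ℤ × ℤ → Bool) (p : Fin k → ℤ × ℤ) (t : ℕ) :
    ((zst L S).run K o c J p t).2.D = 2 * ct ((zst L S).pth K o c J p) 0 t - t := by
  induction t with
  | zero => simp [Strat.run, ct_self, zst]
  | succ t ih =>
    have h1 : ((zst L S).run K o c J p (t + 1)).2.D =
        ((zst L S).run K o c J p t).2.D + (if (zst L S).pth K o c J p t then 1 else -1) := rfl
    rw [h1, ih, ct_succ _ (Nat.zero_le t)]
    push_cast
    split_ifs <;> ring

theorem zst_D_abs {L : ℕ} (hL : 1 ≤ L) {k : ℕ} (S : Finset (Fin k)) (K o : ℕ)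
    (c : Fin k → ℕ → Bool) (J : Fin k → ℕ → ℤ × ℤ → Bool) (p : Fin k → ℤ × ℤ) (t : ℕ) :
    |((zst L S).run K o c J p t).2.D| ≤ 240 * L := by
  induction t with
  | zero => simp [Strat.run, zst]
  | succ t ih =>
    have h1 : ((zst L S).run K o c J p (t + 1)).2.D =
        ((zst L S).run K o c J p t).2.D + (if (zst L S).pth K o c J p t then 1 else -1) := rfl
    have h2 : 240 * (L : ℤ) ≤ ((zst L S).run K o c J p t).2.D →
        (zst L S).pth K o c J p t = false := by
      intro h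
      have : (zst L S).pth K o c J p t =
        zdir L S ((zst L S).run K o c J p t).2 ((zst L S).mid K o c J p t) := rfl
      rw [this]
      unfold zdir
      rw [if_pos h]
    have h3 : ¬ 240 * (L : ℤ) ≤ ((zst L S).run K o c J p t).2.D →
        ((zst L S).run K o c J p t).2.D ≤ -(240 * (L : ℤ)) →
        (zst L S).pth K o c J p t = true := by
      intro h h'
      have : (zst L S).pth K o c J p t =
        zdir L S ((zst L S).run K o c J p t).2 ((zst L S).mid K o c J p t) := rfl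
      rw [this]
      unfold zdir
      rw [if_neg h, if_pos h']
    rw [h1]
    rw [abs_le] at ih ⊢
    rcases hb : (zst L S).pth K o c J p t with _ | _
    · have : ¬ (((zst L S).run K o c J p t).2.D ≤ -(240 * (L : ℤ))) := by
        intro hc
        have := h3 (by omega) hc
        rw [hb] at this
        exact absurd this (by simp)
      simp only [Bool.false_eq_true, if_false]
      omega
    · have : ¬ (240 * (L : ℤ) ≤ ((zst L S).run K o c J p t).2.D) := by
        intro hc
        have := h2 hc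
        rw [hb] at this
        exact absurd this (by simp)
      simp only [if_true]
      omega

/-! ### Paths -/

/-- admissible path up to time `u`: `|D| ≤ 240 L`, and both extreme levels are reached in every
window of length `6000 L` -/
def Adm (L : ℕ) (e : ℕ → Bool) (u : ℕ) : Prop :=
  (∀ t ≤ u, |2 * ct e 0 t - t| ≤ 240 * L) ∧
  (∀ t, t + 6000 * L ≤ u → ∃ s, t ≤ s ∧ s ≤ t + 6000 * L ∧ 2 * ct e 0 s - s = 240 * L) ∧
  (∀ t, t + 6000 * L ≤ u → ∃ s, t ≤ s ∧ s ≤ t + 6000 * L ∧ 2 * ct e 0 s - s = -(240 * L))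

/-- the queue started at time `τ` with arrivals `¬ e` and services `¬ g` is at most `ℓ` at
time `s` -/
def Low (e g : ℕ → Bool) (ℓ : ℤ) (τ s : ℕ) : Prop :=
  ∀ r : ℕ, τ ≤ r → r ≤ s → ct g r s - ct e r s ≤ ℓ

/-- possible initial values `x` of a coordinate with value within `w` of `v` at time `t`, before
its first contact with `0`, for the EXACT path `e` -/
def PX (K : ℕ) (e g : ℕ → Bool) (t : ℕ) (v w x : ℤ) : Prop :=
  |x - (v + ct g 0 t - ct e 0 t)| ≤ w ∨ |x - (v - ct g 0 t - ct e 0 t)| ≤ w ∨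
  ∃ σ < t, |x - (K + ct g 0 σ - ct e 0 σ)| ≤ w ∧ |v + K + 1 - ct g σ t - ct e σ t| ≤ w

/-- pure event containing: the zombie started at `p` is at time `s` in the quadrant
`x < 0 ≤ y` (type A) at distance at most 3 -/
def NearA (K TN : ℕ) (e g : ℕ → Bool) (s : ℕ) (p : ℤ × ℤ) : Prop :=
  (PX K e g s 0 20 p.1 ∧ PX K (nt e) (nt g) s 0 20 p.2) ∨
  (∃ τ ≤ s, s ≤ τ + 2 * K ∧ Low e g 8 τ s ∧ PX K (nt e) (nt g) τ 0 20 p.2 ∧
    PX K e g τ (-(2 * ct e τ s)) 20 p.1) ∨
  (∃ τ ≤ s, |2 * ct e τ s - K| ≤ 20 ∧ Low e g 8 τ s ∧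
    ∃ τ' < τ, Low e g 8 (max τ' (τ - 1 - (K - 20))) (τ - 1) ∧
      ((τ' ≤ TN ∧ ((PX K e g τ' 0 20 p.1 ∧ PX K (nt e) (nt g) τ' K 20 p.2) ∨
        (PX K (nt e) (nt g) τ' 0 20 p.2 ∧ PX K e g τ' K 20 p.1))) ∨
      (τ' = 0 ∧ p.1 + p.2 = K ∧ |p.2| ≤ τ)))

/-- type A or B and distance at most 3 -/
def near3 (p : ℤ × ℤ) : Prop := (tA p ∨ tB p) ∧ ds p ≤ 3

/-! ### One zombie, fixed path -/

/-- trajectory of the sample `ω` along the path `e` -/
noncomputable def trw (K o : ℕ) {T : ℕ} (e : ℕ → Bool)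
    (ω : (ℤ × ℤ) × ((Fin T → Bool) × (Fin T → Fin 6))) : ℕ → ℤ × ℤ :=
  trJ K o (ex ω.2.1) (fun t => jc K (ex6 ω.2.2 t)) e ω.1

/-- sample space of one zombie -/
noncomputable def SpZ (K o T : ℕ) : Finset ((ℤ × ℤ) × ((Fin T → Bool) × (Fin T → Fin 6))) :=
  boxJ K o ×ˢ (univ : Finset ((Fin T → Bool) × (Fin T → Fin 6)))

/-- bad zombies -/
def BadZ (K L B S₁ S₂ T : ℕ) (ω : (ℤ × ℤ) × ((Fin T → Bool) × (Fin T → Fin 6))) : Prop :=
  ds ω.1 ≤ 30000 * L ∨ ¬ GC L (ex ω.2.1) T ∨ ¬ GB B (4 * K) (ex ω.2.1) T ∨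
    ¬ ESC (B + 8000 * L + 100) S₁ (ex ω.2.1) T ∨ ¬ ESC (3 * K) S₂ (ex ω.2.1) T

/-- along the fixed path `e` the zombie is not caught before `u` and near at some time in
`[a, u]` -/
def NearP (K o : ℕ) {T : ℕ} (e : ℕ → Bool) (a u : ℕ)
    (ω : (ℤ × ℤ) × ((Fin T → Bool) × (Fin T → Fin 6))) : Prop :=
  (∀ s ≤ u, 2 ≤ ds (trw K o e ω s)) ∧ ∃ s, a ≤ s ∧ s ≤ u ∧ near3 (trw K o e ω s)

end MP34e
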