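import Pool.Agent.Work.MP_34e428_co.ZLoc2

/-! Exact order, local analysis: extreme levels, number of blocked rounds. -/

set_option autoImplicit false

open Finset

namespace MP34e

set_option linter.unusedSimpArgs false

variable {k K L m T u : ℕ} {b0 : Bool} {c : Fin k → ℕ → Bool} {q mq : ℕ → Fin k → ℤ × ℤ}
    {mm : ℕ → ZM} {e : ℕ → Bool}

/-- the next flip after a north flip is an east flip -/
theorem ZG.next_flip (X : ZG k K L T u b0 c q mq mm e) {t t' : ℕ} (htt : t < t')
    (hf' : zflip (mm t')) (hn : ∀ r, t < r → r < t' → ¬ zflip (mm r)) :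
    zph (mm t') = !zph (mm t) := by
  have a1 := (X.const (show t ≤ t' - 1 by omega) (fun r a1 a2 => hn r a1 (by omega))).1
  have a2 := X.memph (t' - 1)
  rw [show t' - 1 + 1 = t' by omega] at a2
  have a3 : zph (mm t') = !(mm t').ph := by unfold zph; rw [if_pos hf']
  rw [a3, a2, a1]

theorem ZG.eflip (X : ZG k K L T u b0 c q mq mm e) {w : ℕ} (hw : w + 966 * L ≤ u) :
    ∃ s, w < s ∧ s ≤ w + 966 * L ∧ zflip (mm s) ∧ zph (mm s) = true := by
  have hL := X.hL
  obtain ⟨s1, h1, h2, h3⟩ := X.flip_soon (w := w) (by omega)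
  rcases hp : zph (mm s1) with _ | _
  · obtain ⟨s2, g1, g2, g3⟩ := X.flip_soon (w := s1) (by omega)
    obtain ⟨t', j1, j2, j3, j4⟩ := first_flip mm g1 g3
    refine ⟨t', by omega, by omega, j3, ?_⟩
    rw [X.next_flip j1 j3 j4, hp]; rfl
  · exact ⟨s1, h1, by omega, h3, hp⟩

/-- after an east flip either the top level is reached or a front zombie is visible -/
theorem ZG.top_or (X : ZG k K L T u b0 c q mq mm e) {f : ℕ} (hf : zflip (mm f))
    (hE : zph (mm f) = true) (hu : f + 483 * L ≤ u) :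
    (∃ s, f < s ∧ s ≤ f + 483 * L ∧ (mm s).D = 240 * L) ∨
      ∃ i, tF (q f i) ∧ ds (q f i) ≤ 2100 * L + 1 := by
  by_cases hv : ∃ i, vis L (mq f i)
  · obtain ⟨i, hi⟩ := hv
    have := X.vis_F hi
    exact Or.inr ⟨i, this.1, this.2.1⟩
  · left
    obtain ⟨s2, g1, g2, g3⟩ := X.flip_soon (w := f) (by omega)
    obtain ⟨t', j1, j2, j3, j4⟩ := first_flip mm g1 g3
    have hM := X.mode_E j1 hf j3 j4 hE
    refine ⟨t', j1, by omega, ?_⟩
    rw [hM.1, X.memtg f]
    unfold ztg
    rw [if_pos hf]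
    unfold zlev
    rw [if_pos]
    intro i _ hi
    exact absurd ⟨i, hi⟩ hv

/-- a front zombie at distance at most `2100 L + 1` is no front zombie `1051 L` rounds later -/
theorem ZG.gone (X : ZG k K L T u b0 c q mq mm e) {f f' : ℕ} (hff : f + 1051 * L ≤ f')
    (hf' : f' ≤ u) {i : Fin k} (hd : ds (q f i) ≤ 2100 * L + 1) : ¬ tF (q f' i) := by
  intro hF
  obtain ⟨n1, n2⟩ := X.num
  have hle : f ≤ f' := by omega
  have hK : ds (q f i) < K := by omega
  have h1 := (X.seq i).backF hle (X.two hf' i) hK hF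
  have h2 := (X.seq i).qF hle (fun r a1 a2 => h1 r a1 a2.le) (fun r h6 h7 => by
      have := X.back h6 (h7.le.trans hf') i; have := X.back hle hf' i
      have := (X.back (a := f) (s := r) h6 (h7.le.trans hf') i).1
      omega)
  have h3 := ds_F (h1 f le_rfl hle)
  unfold tF at hF
  zify at hff
  have h4 := ct_nonneg (c i) f f'
  have h5 := ct_nonneg e f f'
  omega

theorem ZG.top (X : ZG k K L T u b0 c q mq mm e) {t : ℕ} (ht : t + 5600 * L ≤ u) :
    ∃ s, t ≤ s ∧ s ≤ t + 5600 * L ∧ (mm s).D = 240 * L := by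
  have hL := X.hL
  obtain ⟨n1, n2⟩ := X.num
  obtain ⟨f1, a1, a2, a3, a4⟩ := X.eflip (w := t) (by omega)
  rcases X.top_or a3 a4 (by omega) with ⟨s, h1, h2, h3⟩ | ⟨i, hi1, hi2⟩
  · exact ⟨s, by omega, by omega, h3⟩
  obtain ⟨f2, b1, b2, b3, b4⟩ := X.eflip (w := f1 + 1051 * L) (by omega)
  rcases X.top_or b3 b4 (by omega) with ⟨s, h1, h2, h3⟩ | ⟨j, hj1, hj2⟩
  · exact ⟨s, by omega, by omega, h3⟩
  obtain ⟨f3, d1, d2, d3, d4⟩ := X.eflip (w := f2 + 1051 * L) (by omega)
  rcases X.top_or d3 d4 (by omega) with ⟨s, h1, h2, h3⟩ | ⟨l, hl1, hl2⟩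
  · exact ⟨s, by omega, by omega, h3⟩
  exfalso
  have hij : i ≠ j := by
    rintro rfl
    exact X.gone (f := f1) (f' := f2) (by omega) (by omega) hi2 hj1
  have hil : i ≠ l := by
    rintro rfl
    exact X.gone (f := f1) (f' := f3) (by omega) (by omega) hi2 hl1
  have hjl : j ≠ l := by
    rintro rfl
    exact X.gone (f := f2) (f' := f3) (by omega) (by omega) hj2 hl1
  exact X.hF i j l hij hil hjl f1 f2 f3 (by omega) (by omega) (by omega) (by omega) (by omega)
    (by omega) (by omega) ⟨⟨hi1, by omega⟩, ⟨hj1, by omega⟩, ⟨hl1, by omega⟩⟩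

/-- the path is admissible -/
theorem ZG.adm (X : ZG k K L T u b0 c q mq mm e) : Adm L e (u + 1) := by
  have hL := X.hL
  have hD : ∀ t, (mm t).D = 2 * ct e 0 t - t := by
    intro t
    have h1 := X.D_ct (Nat.zero_le t)
    rw [X.m0] at h1
    simpa using h1
  refine ⟨fun t _ => ?_, fun t ht => ?_, fun t ht => ?_⟩
  · have h1 := X.D_abs t
    rw [hD t] at h1
    rw [abs_le]
    exact h1
  · obtain ⟨s, h1, h2, h3⟩ := X.top (t := t) (by omega)
    exact ⟨s, h1, by omega, by rw [← hD s, h3]⟩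
  · obtain ⟨s, h1, h2, h3⟩ := X.swap.top (t := t) (by omega)
    refine ⟨s, h1, by omega, ?_⟩
    have h4 : -(mm s).D = 240 * L := h3
    rw [← hD s]
    omega

/-! ### blocked rounds -/

/-- a favourable coin after a blocked round brings the zombie strictly closer to the axis -/
theorem Seq.goodE {K : ℕ} {h e : ℕ → Bool} {q : ℕ → ℤ × ℤ} (hq : Seq K h e q) {s s' : ℕ}
    (hss : s < s') (hd : ∀ r, s ≤ r → r ≤ s' → 2 ≤ ds (q r)) (hK : ds (q s) < K)
    (hA : tA (q s)) (hA' : tA (q s')) (hc : h (s + 1) = true) :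
    (zm (h s) (q s)).1 < (zm (h s') (q s')).1 := by
  have hKr : ∀ r, s ≤ r → r ≤ s' → ds (q r) < K := fun r h1 h2 => by
    have := (hq.ds_back h1 (fun v h3 h4 => by have := hd v h3 (h4.trans h2); omega)).1
    omega
  have hall : ∀ r, s ≤ r → r ≤ s' → tA (q r) := by
    rcases hq.backA hss.le hd hK hA' with h1 | ⟨v, h1, h2, h3, h4⟩
    · exact h1
    · exact absurd (h3 s le_rfl h1) (not_tF_of_A hA)
  have h1 := (hq.near s hK).1
  have h1' : (zm (h s) (q s)).1 ≤ (q (s + 1)).1 := by
    rw [h1]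
    rcases e s with _ | _ <;> simp
  rcases Nat.lt_or_ge (s + 1) s' with h2 | h2
  · have h3 := (hq.qA (a := s + 1) (u := s') h2.le (fun r a1 a2 => hall r (by omega) a2.le)
      (fun r a1 a2 => hKr r (by omega) a2.le)).2.1
    have h4 := ct_add h (show s + 1 ≤ s + 1 + 1 by omega) (show s + 1 + 1 ≤ s' by omega)
    have h5 := ct_succ h (le_refl (s + 1))
    rw [ct_self, hc] at h5
    have h6 := ct_nonneg h (s + 1 + 1) s'
    have h7 := ct_nonneg e (s + 1) s'
    have h8 : (q s').1 ≤ (zm (h s') (q s')).1 := by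
      unfold tA at hA'
      rcases zm_cases (h s') (q s') with ⟨a1, a2, h3⟩ | ⟨a1, a2, h3⟩ | ⟨a1, a2, h3⟩ |
        ⟨a1, a2, h3⟩ | ⟨a1, a2, h3⟩ <;> rw [h3] <;> simp only <;> omega
    simp at h5
    omega
  · have h3 : s' = s + 1 := by omega
    subst h3
    rw [hc]
    unfold tA at hA'
    rcases zm_cases true (q (s + 1)) with ⟨a1, a2, h3⟩ | ⟨a1, a2, h3⟩ | ⟨a1, a2, h3⟩ |
      ⟨a1, a2, h3⟩ | ⟨a1, a2, h3⟩ <;> rw [h3] <;> simp at a2 ⊢ <;> omega

/-- how long a zombie of type A survives -/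
theorem Seq.lastA {K L T : ℕ} {h e : ℕ → Bool} {q : ℕ → ℤ × ℤ} (hq : Seq K h e q)
    (hG : GC L h T) {r s : ℕ} (hrs : r ≤ s) (hs : s ≤ T)
    (hd : ∀ v, r ≤ v → v ≤ s → 2 ≤ ds (q v)) (hK : ds (q r) < K) (hA : tA (q s)) :
    49 * ((s : ℤ) - r) ≤ 100 * ds (q r) + 50 * L := by
  have hKr : ∀ v, r ≤ v → v ≤ s → ds (q v) < K := fun v h1 h2 => by
    have := (hq.ds_back h1 (fun v h3 h4 => by have := hd v h3 (h4.trans h2); omega)).1
    omega
  have h1 := hG.lin hrs hs
  have h0 := ds_coord (q r)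
  have h2 : (q r).1 + ct h r s ≤ (q s).1 := by
    rcases hq.backA hrs hd hK hA with h3 | ⟨v, h3, h4, h5, h6⟩
    · have h7 := hq.qA hrs (fun v a1 a2 => h3 v a1 a2.le) (fun v a1 a2 => hKr v a1 a2.le)
      have := ct_nonneg e r s
      omega
    · have h7 := hq.qF h3.le (fun w a1 a2 => h5 w a1 a2)
        (fun w a1 a2 => hKr w a1 (by omega))
      have h8 := hq.qA h4 (fun w a1 a2 => h6 w a1 a2.le) (fun w a1 a2 => hKr w (by omega) a2.le)
      have h9 := ct_add h h3.le h4
      have h10 := ct_nonneg e r v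
      have h11 := ct_nonneg e v s
      omega
  unfold tA at hA
  omega

theorem Seq.lastAB {K L T : ℕ} {h e : ℕ → Bool} {q : ℕ → ℤ × ℤ} (hq : Seq K h e q)
    (hG : GC L h T) {r s : ℕ} (hrs : r ≤ s) (hs : s ≤ T)
    (hd : ∀ v, r ≤ v → v ≤ s → 2 ≤ ds (q v)) (hK : ds (q r) < K) (hA : tA (q s) ∨ tB (q s)) :
    49 * ((s : ℤ) - r) ≤ 100 * ds (q r) + 50 * L := by
  rcases hA with hA | hA
  · exact hq.lastA hG hrs hs hd hK hA
  · have := hq.swap.lastA hG.nt hrs hs (fun v a1 a2 => by rw [ds_swap]; exact hd v a1 a2)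
      (by rw [ds_swap]; exact hK) ((tA_swap _).2 hA)
    rw [ds_swap] at this
    exact this

theorem ZLoc.num (X : ZLoc k K L m T b0 c q mq mm e) :
    (1600 : ℤ) ≤ L ∧ 500000 * (L : ℤ) ≤ K ∧ (L : ℤ) = 16 * m := by
  have h1 := X.hL
  have h2 := X.hm
  have h3 := X.hK
  refine ⟨by omega, by exact_mod_cast h3, by exact_mod_cast h1⟩

theorem EB_val {p : ℤ × ℤ} (h : EB p) (hd : 1 ≤ ds p) : p.1 = -2 ∨ p.1 = -1 := by
  unfold EB at h
  unfold ds at hd
  have h6 := le_abs_self (p.1 + 1)
  have h7 := neg_abs_le (p.1 + 1)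
  have h8 := abs_nonneg p.2
  by_contra hc
  have h9 : p.1 = 0 := by omega
  rw [h9] at h hd
  have e1 : |(0 : ℤ) + 1| = 1 := by norm_num
  have e2 : |(0 : ℤ)| = 0 := by norm_num
  omega

theorem ZLoc.who_E (X : ZLoc k K L m T b0 c q mq mm e) {s : ℕ} {i : Fin k}
    (hs : 2 ≤ ds (q s i)) (hf : tF (q s i) → 23 * (L : ℤ) ≤ ds (q s i)) (h : EB (mq s i)) :
    tA (q s i) ∧ ds (q s i) ≤ 3 ∧ mq s i = zm (c i s) (q s i) := by
  obtain ⟨n1, n2, n3⟩ := X.num
  have h1 := ds_of_EB h
  have h2 := X.mqf s i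
  have h3 := X.mqn s i (by omega)
  have h4 := h
  unfold EB at h4
  rw [h3] at h4
  have h5 := block_E hs (fun hF => by have := hf hF; omega) h4
  exact ⟨h5.1, h5.2, h3⟩

theorem ZLoc.who_N (X : ZLoc k K L m T b0 c q mq mm e) {s : ℕ} {i : Fin k}
    (hs : 2 ≤ ds (q s i)) (hf : tF (q s i) → 23 * (L : ℤ) ≤ ds (q s i)) (h : NB (mq s i)) :
    tB (q s i) ∧ ds (q s i) ≤ 3 ∧ mq s i = zm (c i s) (q s i) := by
  obtain ⟨n1, n2, n3⟩ := X.num
  have h1 := ds_of_NB h
  have h2 := X.mqf s i
  have h3 := X.mqn s i (by omega)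
  have h4 := h
  unfold NB at h4
  rw [h3] at h4
  have h5 := block_N hs (fun hF => by have := hf hF; omega) h4
  exact ⟨h5.1, h5.2, h3⟩

theorem ZLoc.vis_F (X : ZLoc k K L m T b0 c q mq mm e) {t : ℕ} {i : Fin k}
    (h : vis L (mq t i)) : tF (q t i) ∧ ds (q t i) ≤ 2100 * L + 1 := by
  obtain ⟨n1, n2, n3⟩ := X.num
  obtain ⟨h1, h2, h3⟩ := h
  have h4 : ds (mq t i) = -(mq t i).1 - (mq t i).2 := ds_F ⟨h1, h2⟩
  have h5 := X.mqf t i
  have h6 := X.mqn t i (by omega)
  exact ⟨zm_F (h := c i t) (by rw [← h6]; exact ⟨h1, h2⟩), by omega⟩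

/-- the value which increases at the good rounds of zombie `i` -/
noncomputable def gval (mq : ℕ → Fin k → ℤ × ℤ) (i : Fin k) (s : ℕ) : ℤ :=
  open scoped Classical in if EB (mq s i) then (mq s i).1 else (mq s i).2

/-- round `s` is good for zombie `i` -/
def gone1 (c : Fin k → ℕ → Bool) (mq : ℕ → Fin k → ℤ × ℤ) (i : Fin k) (s : ℕ) : Prop :=
  (EB (mq s i) ∨ NB (mq s i)) ∧ (EB (mq s i) → c i (s + 1) = true) ∧
    (¬ EB (mq s i) → c i (s + 1) = false)

theorem ZLoc.gval_val (X : ZLoc k K L m T b0 c q mq mm e) {i : Fin k} {s : ℕ}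
    (hs : 2 ≤ ds (q s i)) (hf : tF (q s i) → 23 * (L : ℤ) ≤ ds (q s i))
    (h : gone1 c mq i s) : gval mq i s = -2 ∨ gval mq i s = -1 := by
  unfold gval
  by_cases hE : EB (mq s i)
  · rw [if_pos hE]
    have h1 := X.who_E hs hf hE
    apply EB_val hE
    rw [h1.2.2]
    have := ds_zm (c i s) (p := q s i) (by omega)
    omega
  · rw [if_neg hE]
    have hN : NB (mq s i) := h.1.resolve_left hE
    have h1 := X.who_N hs hf hN
    have h2 := EB_val ((EB_swap _).2 hN) (by
      rw [ds_swap, h1.2.2]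
      have := ds_zm (c i s) (p := q s i) (by omega)
      omega)
    exact h2

theorem ZLoc.gval_lt (X : ZLoc k K L m T b0 c q mq mm e) {i : Fin k} {s s' : ℕ} (hss : s < s')
    (hd : ∀ r, r ≤ s' → 2 ≤ ds (q r i))
    (hf : ∀ r, r ≤ s' → tF (q r i) → 23 * (L : ℤ) ≤ ds (q r i))
    (h : gone1 c mq i s) (h' : gone1 c mq i s') : gval mq i s < gval mq i s' := by
  obtain ⟨n1, n2, n3⟩ := X.num
  unfold gval
  have hd' : ∀ r, s ≤ r → r ≤ s' → 2 ≤ ds (q r i) := fun r _ h2 => hd r h2
  by_cases hE : EB (mq s i)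
  · have w := X.who_E (hd s hss.le) (hf s hss.le) hE
    by_cases hE' : EB (mq s' i)
    · have w' := X.who_E (hd s' le_rfl) (hf s' le_rfl) hE'
      rw [if_pos hE, if_pos hE', w.2.2, w'.2.2]
      exact (X.seq i).goodE hss hd' (by omega) w.1 w'.1 (h.2.1 hE)
    · exfalso
      have w' := X.who_N (hd s' le_rfl) (hf s' le_rfl) (h'.1.resolve_left hE')
      rcases (X.seq i).stayA hss.le hd' (by omega) w.1 with h5 | h5
      · have h6 := w'.1
        unfold tS at h5
        unfold tB at h6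
        omega
      · exact not_tB_of_A (h5 s' hss.le le_rfl) w'.1
  · have w := X.who_N (hd s hss.le) (hf s hss.le) (h.1.resolve_left hE)
    by_cases hE' : EB (mq s' i)
    · exfalso
      have w' := X.who_E (hd s' le_rfl) (hf s' le_rfl) hE'
      rcases (X.seq i).stayB hss.le hd' (by omega) w.1 with h5 | h5
      · exact not_tS_of_A w'.1 h5
      · exact not_tB_of_A w'.1 (h5 s' hss.le le_rfl)
    · have w' := X.who_N (hd s' le_rfl) (hf s' le_rfl) (h'.1.resolve_left hE')
      rw [if_neg hE, if_neg hE', w.2.2, w'.2.2]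
      have h1 := (X.seq i).swap.goodE hss (fun r a1 a2 => by rw [ds_swap]; exact hd' r a1 a2)
        (by rw [ds_swap]; omega) ((tA_swap _).2 w.1) ((tA_swap _).2 w'.1)
        (by unfold nt; rw [h.2.2 hE]; rfl)
      have e1 : zm (nt (c i) s) (q s i).swap = (zm (c i s) (q s i)).swap := zm_swap _ _
      have e2 : zm (nt (c i) s') (q s' i).swap = (zm (c i s') (q s' i)).swap := zm_swap _ _
      rw [e1, e2] at h1
      exact h1

open scoped Classical in
/-- at most `L` blocked rounds in a window of length `1000 L` -/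
theorem ZLoc.count (X : ZLoc k K L m T b0 c q mq mm e) (huT : u < T)
    (safe : ∀ s ≤ u, ∀ i, 2 ≤ ds (q s i))
    (fr : ∀ r < u, ∀ i, tF (q r i) → 23 * (L : ℤ) ≤ ds (q r i))
    (adm : ∀ u' < u, Adm L e u') {a b : ℕ} (hab : a ≤ b) (hb : b ≤ u) (hb' : b ≤ a + 1000 * L) :
    ((Ico a b).filter (blkZ mq)).card ≤ L := by
  obtain ⟨n1, n2, n3⟩ := X.num
  have hLm := X.hL
  have hm := X.hm
  by_contra hc
  rw [not_le] at hc
  have hback : ∀ (i : Fin k) (r s : ℕ), r ≤ s → s ≤ u →
      ds (q s i) ≤ ds (q r i) ∧ ds (q r i) ≤ ds (q s i) + 2 * ((s : ℤ) - r) := fun i r s h1 h2 =>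
    (X.seq i).ds_back h1 (fun v h3 h4 => by have := safe v (h4.trans h2) i; omega)
  -- the window is late
  have hlate : 13999 * L ≤ a := by
    obtain ⟨s, hs⟩ := Finset.card_pos.1 (show 0 < ((Ico a b).filter (blkZ mq)).card by omega)
    rw [mem_filter, mem_Ico] at hs
    obtain ⟨⟨h1, h2⟩, i, h3⟩ := hs
    have h4 : ds (q s i) ≤ 3 := by
      rcases h3 with h3 | h3
      · exact (X.who_E (safe s (by omega) i) (fr s (by omega) i) h3).2.1
      · exact (X.who_N (safe s (by omega) i) (fr s (by omega) i) h3).2.1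
    have h5 := (hback i 0 s (Nat.zero_le s) (by omega)).2
    have h6 := X.ini i
    zify
    zify at hb' h2
    push_cast at h5
    omega
  have hgood := X.hC a b hab hb' (by omega) (by omega)
  set N : Finset (Fin k) := univ.filter (fun i => ∃ s, a ≤ s ∧ s ≤ b - 1 ∧ near3 (q s i))
    with hNdef
  have hone : ∀ i ∈ N, ((Ico a b).filter (gone1 c mq i)).card ≤ 2 := by
    intro i _
    have h1 : ((Ico a b).filter (gone1 c mq i)).card ≤ ({-2, -1} : Finset ℤ).card := by
      apply Finset.card_le_card_of_injOn (gval mq i)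
      · intro s hs
        rw [mem_coe, mem_filter, mem_Ico] at hs
        have := X.gval_val (safe s (by omega) i) (fr s (by omega) i) hs.2
        rw [mem_coe, mem_insert, mem_singleton]
        exact this
      · intro s hs s' hs' heq
        rw [mem_coe, mem_filter, mem_Ico] at hs hs'
        rcases lt_trichotomy s s' with h | h | h
        · exfalso
          have := X.gval_lt h (fun r hr => safe r (by omega) i) (fun r hr => fr r (by omega) i)
            hs.2 hs'.2
          omega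
        · exact h
        · exfalso
          have := X.gval_lt h (fun r hr => safe r (by omega) i) (fun r hr => fr r (by omega) i)
            hs'.2 hs.2
          omega
    refine h1.trans ?_
    decide
  have hsub : (Ico a b).filter (goodZ c mq) ⊆
      N.biUnion (fun i => (Ico a b).filter (gone1 c mq i)) := by
    intro s hs
    rw [mem_filter, mem_Ico] at hs
    obtain ⟨⟨h1, h2⟩, i, h3, h4, h5, h6⟩ := hs
    rw [mem_biUnion]
    refine ⟨i, ?_, ?_⟩
    · rw [hNdef, mem_filter]
      refine ⟨mem_univ _, s, h1, by omega, ?_⟩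
      rcases h3 with h3 | h3
      · have := X.who_E (safe s (by omega) i) (fr s (by omega) i) h3
        exact ⟨Or.inl this.1, this.2.1⟩
      · have := X.who_N (safe s (by omega) i) (fr s (by omega) i) h3
        exact ⟨Or.inr this.1, this.2.1⟩
    · rw [mem_filter, mem_Ico]
      exact ⟨⟨h1, h2⟩, h3, h5, h6⟩
  have hG : ((Ico a b).filter (goodZ c mq)).card ≤ N.card * 2 :=
    (Finset.card_le_card hsub).trans (Finset.card_biUnion_le_card_mul _ _ _ hone)
  -- number of near zombies
  have key : ∀ (i : Fin k) (s r : ℕ), a ≤ s → s ≤ b - 1 → near3 (q s i) → r < a - 10 * L →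
      infl L (mq r i) → tF (q r i) ∧ ds (q r i) ≤ 2100 * L + 1 ∧ s ≤ r + 5400 * L := by
    intro i s r h1 h2 h3 h4 h5
    have hru : r < u := by omega
    have hlast := fun hK : ds (q r i) < K =>
      (X.seq i).lastAB (X.gc i) (show r ≤ s by omega) (show s ≤ T by omega)
        (fun v a1 a2 => safe v (by omega) i) hK h3.1
    have h6 : (r : ℤ) + 10 * L < s := by
      have : r + 10 * L < s := by omega
      exact_mod_cast this
    rcases h5 with h5 | h5 | h5
    · exfalso
      have h7 := X.who_E (safe r (by omega) i) (fr r (by omega) i) h5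
      have h8 := hlast (by omega)
      omega
    · exfalso
      have h7 := X.who_N (safe r (by omega) i) (fr r (by omega) i) h5
      have h8 := hlast (by omega)
      omega
    · have h7 := X.vis_F h5
      have h8 := hlast (by omega)
      refine ⟨h7.1, h7.2, ?_⟩
      zify
      omega
  have hN1 := X.hN (b - 1) (by omega) (fun s hs i => safe s (by omega) i)
    (adm (b - 1) (by
      have : a < b := by
        by_contra hh
        rw [Finset.Ico_eq_empty (by omega)] at hc
        simp at hc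
      omega)) (a - 10 * L) (by omega) (by omega)
  have hN2 : (univ.filter (fun i : Fin k => ∃ s r, a ≤ s ∧ s ≤ b - 1 ∧ near3 (q s i) ∧
      r < a - 10 * L ∧ infl L (mq r i))).card ≤ 2 := by
    by_contra hh
    rw [not_le, Finset.two_lt_card] at hh
    obtain ⟨i, hi, j, hj, l, hl, hij, hil, hjl⟩ := hh
    rw [mem_filter] at hi hj hl
    obtain ⟨_, s1, r1, a1, a2, a3, a4, a5⟩ := hi
    obtain ⟨_, s2, r2, b1, b2, b3, b4, b5⟩ := hj
    obtain ⟨_, s3, r3, d1, d2, d3, d4, d5⟩ := hl
    have k1 := key i s1 r1 a1 a2 a3 a4 a5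
    have k2 := key j s2 r2 b1 b2 b3 b4 b5
    have k3 := key l s3 r3 d1 d2 d3 d4 d5
    exact X.hF u huT.le safe i j l hij hil hjl r1 r2 r3 (by omega) (by omega) (by omega)
      (by omega) (by omega) (by omega) (by omega)
      ⟨⟨k1.1, by omega⟩, ⟨k2.1, by omega⟩, ⟨k3.1, by omega⟩⟩
  have hNN : N ⊆ (univ.filter (fun i : Fin k => (∀ r < a - 10 * L, ¬ infl L (mq r i)) ∧
      ∃ s, a - 10 * L ≤ s ∧ s ≤ b - 1 ∧ near3 (q s i))) ∪
      (univ.filter (fun i : Fin k => ∃ s r, a ≤ s ∧ s ≤ b - 1 ∧ near3 (q s i) ∧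
      r < a - 10 * L ∧ infl L (mq r i))) := by
    intro i hi
    rw [hNdef, mem_filter] at hi
    obtain ⟨_, s, h1, h2, h3⟩ := hi
    rw [mem_union, mem_filter, mem_filter]
    by_cases hh : ∀ r < a - 10 * L, ¬ infl L (mq r i)
    · left
      exact ⟨mem_univ _, hh, s, by omega, h2, h3⟩
    · right
      push Not at hh
      obtain ⟨r, h4, h5⟩ := hh
      exact ⟨mem_univ _, s, r, h1, h2, h3, h4, h5⟩
  have hNc : N.card ≤ m + 2 := by
    have h1 := (Finset.card_le_card hNN).trans (Finset.card_union_le _ _)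
    omega
  omega

/-! ### the induction -/

theorem zloc_main (X : ZLoc k K L m T b0 c q mq mm e) :
    ∀ u ≤ T, (∀ s ≤ u, ∀ i, 2 ≤ ds (q s i)) ∧ Adm L e u := by
  obtain ⟨n1, n2, n3⟩ := X.num
  have hLm := X.hL
  have hm := X.hm
  have main : ∀ u ≤ T, (∀ s ≤ u, ∀ i, 2 ≤ ds (q s i)) ∧ (∀ r < u, okr mq e r) ∧
      (∀ r < u, ∀ i, tF (q r i) → 23 * (L : ℤ) ≤ ds (q r i)) ∧ (∀ u' ≤ u, Adm L e u') := by
    intro u
    induction u with
    | zero =>
      intro _
      refine ⟨fun s hs i => ?_, fun r hr => absurd hr (Nat.not_lt_zero r),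
        fun r hr => absurd hr (Nat.not_lt_zero r), fun u' hu' => ?_⟩
      · have : s = 0 := by omega
        subst this
        have := X.ini i
        omega
      · have : u' = 0 := by omega
        subst this
        refine ⟨fun t ht => ?_, fun t ht => by omega, fun t ht => by omega⟩
        have : t = 0 := by omega
        subst this
        rw [ct_self]
        norm_num
    | succ u ih =>
      intro hu
      obtain ⟨h1, h2, h3, h4⟩ := ih (by omega)
      have Y : ZG k K L T u b0 c q mq mm e :=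
        { hL := by omega
          hK := X.hK
          hu := by omega
          seq := X.seq
          mqn := X.mqn
          mqf := X.mqf
          dir := X.dir
          memD := X.memD
          memph := X.memph
          memtg := X.memtg
          m0 := X.m0
          ini := X.ini
          gc := X.gc
          safe := h1
          ok := h2
          fr := h3
          hF := X.hF u (by omega) h1
          cnt := fun a b h5 h6 h7 =>
            X.count (by omega) h1 h3 (fun u' h8 => h4 u' h8.le) h5 h6 h7 }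
      refine ⟨fun s hs i => ?_, fun r hr => ?_, fun r hr i hF => ?_, fun u' hu' => ?_⟩
      · rcases Nat.lt_or_ge u s with h5 | h5
        · have : s = u + 1 := by omega
          subst this
          exact Y.safe_next i
        · exact h1 s h5 i
      · rcases Nat.lt_or_ge r u with h5 | h5
        · exact h2 r h5
        · have : r = u := by omega
          subst this
          exact Y.ok_u
      · rcases Nat.lt_or_ge r u with h5 | h5
        · exact h3 r h5 i hF
        · have : r = u := by omega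
          subst this
          exact Y.front_far le_rfl hF
      · rcases Nat.lt_or_ge u u' with h5 | h5
        · have : u' = u + 1 := by omega
          subst this
          exact Y.adm
        · exact h4 u' h5
  intro u hu
  exact ⟨(main u hu).1, (main u hu).2.2.2 u le_rfl⟩

end MP34e
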