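import Pool.Agent.Work.MP_34e428_co.ZDefs
import Pool.Agent.Work.MP_34e428_co.LLoc2

/-! Exact order: hypotheses of the local analysis of the strategy `zst`. -/

set_option autoImplicit false

open Finset

namespace MP34e

/-- round `s` is blocked -/
def blkZ {k : ℕ} (mq : ℕ → Fin k → ℤ × ℤ) (s : ℕ) : Prop := ∃ i, EB (mq s i) ∨ NB (mq s i)

/-- the next coin of the first blocking zombie is favourable -/
def goodZ {k : ℕ} (c : Fin k → ℕ → Bool) (mq : ℕ → Fin k → ℤ × ℤ) (s : ℕ) : Prop :=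
  ∃ i, (EB (mq s i) ∨ NB (mq s i)) ∧ (∀ j < i, ¬ (EB (mq s j) ∨ NB (mq s j))) ∧
    (EB (mq s i) → c i (s + 1) = true) ∧ (¬ EB (mq s i) → c i (s + 1) = false)

open scoped Classical in
/-- hypotheses of the local analysis. `q s i` : displacement of zombie `i` after `s` rounds,
`mq s i` : after the move of the zombies in round `s + 1`, `mm s` : memory, `e s` : the survivor's
move in round `s + 1`. The structure is invariant under the exchange of the axes. -/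
structure ZLoc (k K L m T : ℕ) (b0 : Bool) (c : Fin k → ℕ → Bool) (q mq : ℕ → Fin k → ℤ × ℤ)
    (mm : ℕ → ZM) (e : ℕ → Bool) : Prop where
  hL : L = 16 * m
  hm : 100 ≤ m
  hK : 500000 * L ≤ K
  seq : ∀ i, Seq K (c i) e (fun s => q s i)
  mqn : ∀ s i, ds (q s i) < K → mq s i = zm (c i s) (q s i)
  mqf : ∀ s i, ds (q s i) ≤ ds (mq s i) + 1
  dir : ∀ s, e s = zdir L univ (mm s) (mq s)
  memD : ∀ s, (mm (s + 1)).D = (mm s).D + (if e s then 1 else -1)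
  memph : ∀ s, (mm (s + 1)).ph = zph (mm s)
  memtg : ∀ s, (mm (s + 1)).tg = ztg L univ (mm s) (mq s)
  m0 : mm 0 = ⟨0, b0, 240 * L⟩
  ini : ∀ i, 30000 * (L : ℤ) < ds (q 0 i)
  gc : ∀ i, GC L (c i) T
  hN : ∀ u ≤ T, (∀ s ≤ u, ∀ i, 2 ≤ ds (q s i)) → Adm L e u → ∀ a ≤ u, u ≤ a + 2000 * L →
    (univ.filter (fun i : Fin k => (∀ r < a, ¬ infl L (mq r i)) ∧
      ∃ s, a ≤ s ∧ s ≤ u ∧ near3 (q s i))).card ≤ m
  hF : ∀ u ≤ T, (∀ s ≤ u, ∀ i, 2 ≤ ds (q s i)) → ∀ i j l : Fin k, i ≠ j → i ≠ l → j ≠ l →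
    ∀ s s' s'' : ℕ, s ≤ u → s' ≤ u → s'' ≤ u → s ≤ s' + 12000 * L → s' ≤ s + 12000 * L →
      s ≤ s'' + 12000 * L → s'' ≤ s + 12000 * L →
      ¬ ((tF (q s i) ∧ ds (q s i) ≤ 30000 * L) ∧ (tF (q s' j) ∧ ds (q s' j) ≤ 30000 * L) ∧
        (tF (q s'' l) ∧ ds (q s'' l) ≤ 30000 * L))
  hC : ∀ a b : ℕ, a ≤ b → b ≤ a + 1000 * L → b + 1 ≤ T →
    8 * (m + 2) ≤ ((Ico a b).filter (blkZ mq)).card →
    2 * (m + 2) < ((Ico a b).filter (goodZ c mq)).card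

end MP34e
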