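import Pool.Agent.Work.MP_34e428_co.ZSamp
import Pool.Agent.Work.MP_34e428_co.ZLocDefs
import Pool.Agent.Work.MP_34e428_co.LUnion

/-! Exact order, module RF: many blocked rounds with few favourable coins. -/

set_option autoImplicit false

open Finset
open scoped Classical

namespace MP34e

namespace ZRF

/-- one sample -/
abbrev Sm (k T : ℕ) : Type := Fin k → (ℤ × ℤ) × ((Fin T → Bool) × (Fin T → Fin 6))

private theorem run_congr {k : ℕ} (σ : Strat k) (K o : ℕ) (c c' : Fin k → ℕ → Bool)
    (J : Fin k → ℕ → ℤ × ℤ → Bool) (p : Fin k → ℤ × ℤ) (s : ℕ)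
    (h : ∀ i, ∀ t < s, c i t = c' i t) : σ.run K o c J p s = σ.run K o c' J p s := by
  induction s with
  | zero => rfl
  | succ s ih =>
    have h1 := ih (fun i t ht => h i t (by omega))
    have h2 : ∀ i, c i s = c' i s := fun i => h i s (by omega)
    simp only [Strat.run, h1, h2]

private theorem mid_congr {k : ℕ} (σ : Strat k) (K o : ℕ) (c c' : Fin k → ℕ → Bool)
    (J : Fin k → ℕ → ℤ × ℤ → Bool) (p : Fin k → ℤ × ℤ) (s : ℕ)
    (h : ∀ i, ∀ t ≤ s, c i t = c' i t) : σ.mid K o c J p s = σ.mid K o c' J p s := by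
  funext i
  unfold Strat.mid
  rw [run_congr σ K o c c' J p s (fun i t ht => h i t (by omega)), h i s le_rfl]

/-- displacements after the moves of the zombies -/
noncomputable def mq {k T : ℕ} (K o L : ℕ) (x : Sm k T) : ℕ → Fin k → ℤ × ℤ :=
  (zst L univ).mid K o (cZ x) (JZ K x) (pZ x)

/-- `i` is the first blocking zombie -/
def Fst {k : ℕ} (q : Fin k → ℤ × ℤ) (i : Fin k) : Prop :=
  (EB (q i) ∨ NB (q i)) ∧ ∀ j < i, ¬ (EB (q j) ∨ NB (q j))

private theorem Fst.unique {k : ℕ} {q : Fin k → ℤ × ℤ} {i j : Fin k} (hi : Fst q i)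
    (hj : Fst q j) : i = j := by
  rcases lt_trichotomy i j with h | h | h
  · exact absurd hi.1 (hj.2 i h)
  · exact h
  · exact absurd hj.1 (hi.2 j h)

private theorem exists_Fst {k : ℕ} {q : Fin k → ℤ × ℤ} (h : ∃ i, EB (q i) ∨ NB (q i)) :
    ∃ i, Fst q i := by
  have hne : (univ.filter (fun i : Fin k => EB (q i) ∨ NB (q i))).Nonempty := by
    obtain ⟨i, hi⟩ := h
    exact ⟨i, by rw [mem_filter]; exact ⟨mem_univ i, hi⟩⟩
  refine ⟨(univ.filter (fun i : Fin k => EB (q i) ∨ NB (q i))).min' hne, ?_, ?_⟩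
  · exact (mem_filter.mp (Finset.min'_mem _ hne)).2
  · intro j hj hc
    have := Finset.min'_le (univ.filter (fun i : Fin k => EB (q i) ∨ NB (q i))) j
      (by rw [mem_filter]; exact ⟨mem_univ j, hc⟩)
    exact absurd hj (not_lt.mpr this)

/-- change the coin number `n` -/
def flp {T : ℕ} (n : ℕ) (c : Fin T → Bool) : Fin T → Bool :=
  fun j => if (j : ℕ) = n then !c j else c j

private theorem flp_flp {T : ℕ} (n : ℕ) (c : Fin T → Bool) : flp n (flp n c) = c := by
  funext j
  unfold flp
  split_ifs <;> simp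

private theorem ex_flp_ne {T : ℕ} (n : ℕ) (c : Fin T → Bool) (t : ℕ) (h : t ≠ n) :
    ex (flp n c) t = ex c t := by
  unfold ex flp
  split_ifs <;> simp_all

private theorem ex_flp_eq {T : ℕ} (n : ℕ) (c : Fin T → Bool) (h : n < T) :
    ex (flp n c) n = !ex c n := by
  unfold ex flp
  simp [h]

/-- change coin number `b + 1` of the first blocking zombie of round `b` -/
noncomputable def tau {k T : ℕ} (K o L b : ℕ) (x : Sm k T) : Sm k T := fun i =>
  if Fst (mq K o L x b) i then ((x i).1, (flp (b + 1) (x i).2.1, (x i).2.2)) else x i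

private theorem tau_pos {k T : ℕ} (K o L b : ℕ) (x : Sm k T) (i : Fin k)
    (h : Fst (mq K o L x b) i) :
    tau K o L b x i = ((x i).1, (flp (b + 1) (x i).2.1, (x i).2.2)) := if_pos h

private theorem tau_neg {k T : ℕ} (K o L b : ℕ) (x : Sm k T) (i : Fin k)
    (h : ¬ Fst (mq K o L x b) i) : tau K o L b x i = x i := if_neg h

private theorem tau_coin {k T : ℕ} (K o L b : ℕ) (x : Sm k T) (i : Fin k) (t : ℕ)
    (ht : t ≤ b) : cZ (tau K o L b x) i t = cZ x i t := by
  unfold cZ tau
  split_ifs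
  · exact ex_flp_ne _ _ _ (by omega)
  · rfl

private theorem tau_J {k T : ℕ} (K o L b : ℕ) (x : Sm k T) :
    JZ K (tau K o L b x) = JZ K x := by
  funext i t
  unfold JZ tau
  split_ifs <;> rfl

private theorem tau_p {k T : ℕ} (K o L b : ℕ) (x : Sm k T) :
    pZ (tau K o L b x) = pZ x := by
  funext i
  unfold pZ tau
  split_ifs <;> rfl

private theorem mq_tau {k T : ℕ} (K o L b : ℕ) (x : Sm k T) (s : ℕ) (hs : s ≤ b) :
    mq K o L (tau K o L b x) s = mq K o L x s := by
  unfold mq
  rw [tau_J, tau_p]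
  exact mid_congr _ K o _ _ _ _ s (fun i t ht => tau_coin K o L b x i t (by omega))

private theorem tau_tau {k T : ℕ} (K o L b : ℕ) (x : Sm k T) :
    tau K o L b (tau K o L b x) = x := by
  funext i
  have h := mq_tau K o L b x b le_rfl
  by_cases hi : Fst (mq K o L x b) i
  · have hi' : Fst (mq K o L (tau K o L b x) b) i := by rw [h]; exact hi
    rw [tau_pos K o L b _ i hi', tau_pos K o L b x i hi]
    simp only [flp_flp]
  · have hi' : ¬ Fst (mq K o L (tau K o L b x) b) i := by rw [h]; exact hi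
    rw [tau_neg K o L b _ i hi', tau_neg K o L b x i hi]

/-- weight of round `s` -/
noncomputable def phi {k T : ℕ} (K o L : ℕ) (x : Sm k T) (s : ℕ) : ℝ :=
  if blkZ (mq K o L x) s then (if goodZ (cZ x) (mq K o L x) s then 1 / 2 else 3 / 2) else 1

private theorem phi_congr {k T : ℕ} (K o L : ℕ) (x x' : Sm k T) (s : ℕ)
    (h1 : mq K o L x s = mq K o L x' s) (h2 : ∀ i, cZ x i (s + 1) = cZ x' i (s + 1)) :
    phi K o L x s = phi K o L x' s := by
  have hb : blkZ (mq K o L x) s ↔ blkZ (mq K o L x') s := by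
    unfold blkZ
    rw [h1]
  have hg : goodZ (cZ x) (mq K o L x) s ↔ goodZ (cZ x') (mq K o L x') s := by
    unfold goodZ
    simp only [h1, h2]
  unfold phi
  by_cases h3 : blkZ (mq K o L x) s
  · by_cases h4 : goodZ (cZ x) (mq K o L x) s
    · rw [if_pos h3, if_pos h4, if_pos (hb.mp h3), if_pos (hg.mp h4)]
    · rw [if_pos h3, if_neg h4, if_pos (hb.mp h3), if_neg (fun h => h4 (hg.mpr h))]
  · rw [if_neg h3, if_neg (fun h => h3 (hb.mpr h))]

private theorem phi_nonneg {k T : ℕ} (K o L : ℕ) (x : Sm k T) (s : ℕ) : 0 ≤ phi K o L x s := by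
  unfold phi
  split_ifs <;> norm_num

private theorem phi_add {k T : ℕ} (K o L : ℕ) (x : Sm k T) (b : ℕ) (hb : b + 1 < T) :
    phi K o L x b + phi K o L (tau K o L b x) b = 2 := by
  have h := mq_tau K o L b x b le_rfl
  by_cases hB : blkZ (mq K o L x) b
  · have hB' : blkZ (mq K o L (tau K o L b x)) b := by
      unfold blkZ at hB ⊢
      rw [h]; exact hB
    obtain ⟨i, hi⟩ := exists_Fst hB
    have hg : goodZ (cZ x) (mq K o L x) b ↔
        cZ x i (b + 1) = decide (EB (mq K o L x b i)) := by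
      constructor
      · rintro ⟨j, h1, h2, h3, h4⟩
        have hij : i = j := hi.unique ⟨h1, h2⟩
        subst hij
        by_cases hE : EB (mq K o L x b i)
        · rw [h3 hE]; simp [hE]
        · rw [h4 hE]; simp [hE]
      · intro he
        refine ⟨i, hi.1, hi.2, ?_, ?_⟩
        · intro hE; rw [he]; simp [hE]
        · intro hE; rw [he]; simp [hE]
    have hg' : goodZ (cZ (tau K o L b x)) (mq K o L (tau K o L b x)) b ↔
        cZ (tau K o L b x) i (b + 1) = decide (EB (mq K o L x b i)) := by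
      unfold goodZ
      rw [h]
      constructor
      · rintro ⟨j, h1, h2, h3, h4⟩
        have hij : i = j := hi.unique ⟨h1, h2⟩
        subst hij
        by_cases hE : EB (mq K o L x b i)
        · rw [h3 hE]; simp [hE]
        · rw [h4 hE]; simp [hE]
      · intro he
        refine ⟨i, hi.1, hi.2, ?_, ?_⟩
        · intro hE; rw [he]; simp [hE]
        · intro hE; rw [he]; simp [hE]
    have hc : cZ (tau K o L b x) i (b + 1) = !cZ x i (b + 1) := by
      unfold cZ tau
      rw [if_pos hi]
      exact ex_flp_eq _ _ hb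
    rw [hc] at hg'
    unfold phi
    rw [if_pos hB, if_pos hB']
    by_cases hx : cZ x i (b + 1) = decide (EB (mq K o L x b i))
    · have n1 : goodZ (cZ x) (mq K o L x) b := hg.mpr hx
      have n2 : ¬ goodZ (cZ (tau K o L b x)) (mq K o L (tau K o L b x)) b := by
        rw [hg', hx]
        simp
      rw [if_pos n1, if_neg n2]
      norm_num
    · have n1 : ¬ goodZ (cZ x) (mq K o L x) b := fun hc => hx (hg.mp hc)
      have n2 : goodZ (cZ (tau K o L b x)) (mq K o L (tau K o L b x)) b := by
        rw [hg']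
        rcases h1 : cZ x i (b + 1) with _ | _ <;>
          rcases h2 : decide (EB (mq K o L x b i)) with _ | _ <;> simp_all
      rw [if_neg n1, if_pos n2]
      norm_num
  · have hB' : ¬ blkZ (mq K o L (tau K o L b x)) b := by
      unfold blkZ at hB ⊢
      rw [h]; exact hB
    unfold phi
    rw [if_neg hB, if_neg hB']
    norm_num

/-- product of the weights -/
noncomputable def W {k T : ℕ} (K o L a b : ℕ) (x : Sm k T) : ℝ := ∏ s ∈ Ico a b, phi K o L x s

private theorem W_tau {k T : ℕ} (K o L a b : ℕ) (x : Sm k T) :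
    W K o L a b (tau K o L b x) = W K o L a b x := by
  unfold W
  apply Finset.prod_congr rfl
  intro s hs
  rw [mem_Ico] at hs
  exact phi_congr K o L _ _ s (mq_tau K o L b x s (by omega))
    (fun i => tau_coin K o L b x i (s + 1) (by omega))

private theorem tau_mem {k T : ℕ} (K o L b : ℕ) (x : Sm k T)
    (hx : x ∈ Fintype.piFinset (fun _ : Fin k => SpZ K o T)) :
    tau K o L b x ∈ Fintype.piFinset (fun _ : Fin k => SpZ K o T) := by
  rw [Fintype.mem_piFinset] at hx ⊢
  intro i
  have := hx i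
  unfold SpZ at this ⊢
  rw [mem_product] at this ⊢
  unfold tau
  split_ifs
  · exact ⟨this.1, mem_univ _⟩
  · exact this

private theorem sum_W {k T : ℕ} (K o L a b : ℕ) (hab : a ≤ b) (hb : b + 1 ≤ T) :
    ∑ x ∈ Fintype.piFinset (fun _ : Fin k => SpZ K o T), W K o L a b x =
      ((Fintype.piFinset (fun _ : Fin k => SpZ K o T)).card : ℝ) := by
  induction b, hab using Nat.le_induction with
  | base => simp [W]
  | succ b hab ih =>
    have ih := ih (by omega)
    have e1 : ∀ x : Sm k T, W K o L a (b + 1) x = W K o L a b x * phi K o L x b := by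
      intro x
      unfold W
      rw [Finset.prod_Ico_succ_top hab]
    have e2 : ∑ x ∈ Fintype.piFinset (fun _ : Fin k => SpZ K o T),
        W K o L a b x * phi K o L x b =
        ∑ x ∈ Fintype.piFinset (fun _ : Fin k => SpZ K o T),
          W K o L a b x * phi K o L (tau K o L b x) b := by
      refine Finset.sum_nbij' (fun x => tau K o L b x) (fun x => tau K o L b x) ?_ ?_ ?_ ?_ ?_
      · intro x hx; exact tau_mem K o L b x hx
      · intro x hx; exact tau_mem K o L b x hx
      · intro x _; exact tau_tau K o L b x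
      · intro x _; exact tau_tau K o L b x
      · intro x _
        rw [tau_tau, W_tau]
    have e3 : ∑ x ∈ Fintype.piFinset (fun _ : Fin k => SpZ K o T),
        W K o L a b x * phi K o L x b + ∑ x ∈ Fintype.piFinset (fun _ : Fin k => SpZ K o T),
          W K o L a b x * phi K o L (tau K o L b x) b =
        2 * ∑ x ∈ Fintype.piFinset (fun _ : Fin k => SpZ K o T), W K o L a b x := by
      rw [← Finset.sum_add_distrib, Finset.mul_sum]
      apply Finset.sum_congr rfl
      intro x _
      rw [← mul_add, phi_add K o L x b (by omega)]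
      ring
    simp only [e1]
    rw [← e2, ih] at e3
    linarith

private theorem W_ge {k T : ℕ} (K o L M a b : ℕ) (x : Sm k T)
    (h1 : 8 * M ≤ ((Ico a b).filter (blkZ (mq K o L x))).card)
    (h2 : ((Ico a b).filter (goodZ (cZ x) (mq K o L x))).card ≤ 2 * M) :
    (2 : ℝ) ^ M ≤ W K o L a b x := by
  have e1 : W K o L a b x = ∏ s ∈ Ico a b,
      ((if blkZ (mq K o L x) s then (3 / 2 : ℝ) else 1) *
        (if goodZ (cZ x) (mq K o L x) s then (1 / 3 : ℝ) else 1)) := by
    unfold W
    apply Finset.prod_congr rfl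
    intro s _
    unfold phi
    by_cases hB : blkZ (mq K o L x) s
    · rw [if_pos hB, if_pos hB]
      split_ifs <;> norm_num
    · rw [if_neg hB, if_neg hB]
      have : ¬ goodZ (cZ x) (mq K o L x) s := by
        rintro ⟨i, hi, _⟩
        exact hB ⟨i, hi⟩
      rw [if_neg this]
      norm_num
  rw [e1, Finset.prod_mul_distrib, Finset.prod_ite, Finset.prod_ite, Finset.prod_const,
    Finset.prod_const, Finset.prod_const, Finset.prod_const, one_pow, one_pow, mul_one, mul_one]
  calc (2 : ℝ) ^ M ≤ (729 / 256 : ℝ) ^ M := by gcongr; norm_num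
    _ = (3 / 2 : ℝ) ^ (8 * M) * (1 / 3 : ℝ) ^ (2 * M) := by
        rw [pow_mul, pow_mul, ← mul_pow]
        norm_num
    _ ≤ (3 / 2 : ℝ) ^ ((Ico a b).filter (blkZ (mq K o L x))).card *
        (1 / 3 : ℝ) ^ ((Ico a b).filter (goodZ (cZ x) (mq K o L x))).card := by
        apply mul_le_mul
        · exact pow_le_pow_right₀ (by norm_num) h1
        · exact pow_le_pow_of_le_one (by norm_num) (by norm_num) h2
        · positivity
        · positivity

private theorem one_pair {k : ℕ} (K o L M T a b : ℕ) (hab : a ≤ b) (hb : b + 1 ≤ T) :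
    (((Fintype.piFinset (fun _ : Fin k => SpZ K o T)).filter (fun x =>
        8 * M ≤ ((Ico a b).filter (blkZ (mq K o L x))).card ∧
        ((Ico a b).filter (goodZ (cZ x) (mq K o L x))).card ≤ 2 * M)).card : ℝ) ≤
      (1 / 2) ^ M * ((Fintype.piFinset (fun _ : Fin k => SpZ K o T)).card : ℝ) := by
  have h1 : (((Fintype.piFinset (fun _ : Fin k => SpZ K o T)).filter (fun x =>
        8 * M ≤ ((Ico a b).filter (blkZ (mq K o L x))).card ∧
        ((Ico a b).filter (goodZ (cZ x) (mq K o L x))).card ≤ 2 * M)).card : ℝ) * 2 ^ M ≤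
      ∑ x ∈ Fintype.piFinset (fun _ : Fin k => SpZ K o T), W K o L a b x := by
    rw [← nsmul_eq_mul, ← Finset.sum_const]
    refine (Finset.sum_le_sum (fun x hx => ?_)).trans
      (Finset.sum_le_sum_of_subset_of_nonneg (Finset.filter_subset _ _) ?_)
    · have := (Finset.mem_filter.mp hx).2
      exact W_ge K o L M a b x this.1 this.2
    · intro x _ _
      exact Finset.prod_nonneg (fun s _ => phi_nonneg K o L x s)
  rw [sum_W K o L a b hab hb] at h1
  rw [one_div, inv_pow, ← div_eq_inv_mul, le_div_iff₀ (by positivity)]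
  exact h1

end ZRF

/-- RF: many blocked rounds with few favourable coins -/
theorem coin_count {K o k L M T : ℕ} :
    (((Fintype.piFinset (fun _ : Fin k => SpZ K o T)).filter (fun x =>
      ∃ a b : ℕ, a ≤ b ∧ b + 1 ≤ T ∧
        8 * M ≤ ((Ico a b).filter
          (blkZ ((zst L univ).mid K o (cZ x) (JZ K x) (pZ x)))).card ∧
        ((Ico a b).filter (goodZ (cZ x)
          ((zst L univ).mid K o (cZ x) (JZ K x) (pZ x)))).card ≤ 2 * M)).card : ℝ) ≤
      ((T : ℝ) + 1) ^ 2 * (1 / 2) ^ M *
        ((Fintype.piFinset (fun _ : Fin k => SpZ K o T)).card : ℝ) := by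
  have h := card_filter_exists_le (Fintype.piFinset (fun _ : Fin k => SpZ K o T))
    (((range (T + 1)) ×ˢ (range (T + 1))).filter (fun ab : ℕ × ℕ => ab.1 ≤ ab.2 ∧ ab.2 + 1 ≤ T))
    (fun ab x => 8 * M ≤ ((Ico ab.1 ab.2).filter (blkZ (ZRF.mq K o L x))).card ∧
        ((Ico ab.1 ab.2).filter (goodZ (cZ x) (ZRF.mq K o L x))).card ≤ 2 * M)
    ((1 / 2) ^ M * ((Fintype.piFinset (fun _ : Fin k => SpZ K o T)).card : ℝ))
    (fun ab hab => by
      have h1 := (Finset.mem_filter.mp hab).2
      have := ZRF.one_pair (k := k) K o L M T ab.1 ab.2 h1.1 h1.2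
      convert this)
    (fun x => ∃ a b : ℕ, a ≤ b ∧ b + 1 ≤ T ∧
        8 * M ≤ ((Ico a b).filter
          (blkZ ((zst L univ).mid K o (cZ x) (JZ K x) (pZ x)))).card ∧
        ((Ico a b).filter (goodZ (cZ x)
          ((zst L univ).mid K o (cZ x) (JZ K x) (pZ x)))).card ≤ 2 * M)
    (by
      rintro x ⟨a, b, h1, h2, h3, h4⟩
      refine ⟨(a, b), ?_, h3, h4⟩
      rw [Finset.mem_filter, Finset.mem_product, Finset.mem_range, Finset.mem_range]
      refine ⟨⟨?_, ?_⟩, h1, h2⟩
      · change a < T + 1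
        omega
      · change b < T + 1
        omega)
  refine h.trans ?_
  rw [mul_assoc]
  refine mul_le_mul_of_nonneg_right ?_ (by positivity)
  have : (((range (T + 1)) ×ˢ (range (T + 1))).filter
      (fun ab : ℕ × ℕ => ab.1 ≤ ab.2 ∧ ab.2 + 1 ≤ T)).card ≤ (T + 1) ^ 2 := by
    refine (Finset.card_filter_le _ _).trans ?_
    rw [Finset.card_product, Finset.card_range, sq]
  exact_mod_cast this

end MP34e
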