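import Mathlib

/-! Exact order, module RC: counting with one dependent factor for each `i ∈ I`. -/

set_option autoImplicit false

open Finset
open scoped Classical

namespace MP34e

/-- RC: counting with one dependent factor for each `i ∈ I` -/
theorem card_dep {Ω : Type*} (S₀ : Finset Ω) (k : ℕ) (I : Finset (Fin k))
    (A : (Fin k → Ω) → Ω → Prop) (hA : ∀ x x', (∀ i ∉ I, x i = x' i) → A x = A x') (b : ℝ)
    (hb : 0 ≤ b) (hc : ∀ x ∈ Fintype.piFinset (fun _ : Fin k => S₀),
      ((S₀.filter (A x)).card : ℝ) ≤ b) :
    (((Fintype.piFinset (fun _ : Fin k => S₀)).filter (fun x => ∀ i ∈ I, A x (x i))).card : ℝ) ≤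
      b ^ I.card * (S₀.card : ℝ) ^ (k - I.card) := by
  have key : ((Fintype.piFinset (fun _ : Fin k => S₀)).filter
      (fun x => ∀ i ∈ I, A x (x i))).card ≤ ⌊b⌋₊ ^ I.card *
        (Fintype.piFinset (fun _ : {i : Fin k // i ∉ I} => S₀)).card := by
    refine Finset.card_le_mul_card_image_of_maps_to
      (f := fun (x : Fin k → Ω) (i : {i : Fin k // i ∉ I}) => x i) ?_ _ ?_
    · intro x hx
      rw [Finset.mem_filter, Fintype.mem_piFinset] at hx
      rw [Fintype.mem_piFinset]
      intro i
      exact hx.1 i
    · intro y _
      rcases Finset.eq_empty_or_nonempty (((Fintype.piFinset (fun _ : Fin k => S₀)).filter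
        (fun x => ∀ i ∈ I, A x (x i))).filter
          (fun x => (fun (i : {i : Fin k // i ∉ I}) => x i) = y)) with h | ⟨x₀, hx₀⟩
      · rw [h]; simp
      · rw [Finset.mem_filter, Finset.mem_filter] at hx₀
        obtain ⟨⟨h1, h2⟩, h3⟩ := hx₀
        have hsub : ((Fintype.piFinset (fun _ : Fin k => S₀)).filter
            (fun x => ∀ i ∈ I, A x (x i))).filter
              (fun x => (fun (i : {i : Fin k // i ∉ I}) => x i) = y) ⊆
            Fintype.piFinset (fun i : Fin k => if i ∈ I then S₀.filter (A x₀) else {x₀ i}) := by
          intro x hx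
          rw [Finset.mem_filter, Finset.mem_filter] at hx
          obtain ⟨⟨g1, g2⟩, g3⟩ := hx
          have hag : ∀ i ∉ I, x i = x₀ i := by
            intro i hi
            have := congrFun (g3.trans h3.symm) ⟨i, hi⟩
            exact this
          have hAA : A x = A x₀ := hA x x₀ hag
          rw [Fintype.mem_piFinset]
          intro i
          by_cases hi : i ∈ I
          · rw [if_pos hi, Finset.mem_filter, ← hAA]
            exact ⟨Fintype.mem_piFinset.mp g1 i, g2 i hi⟩
          · rw [if_neg hi, Finset.mem_singleton]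
            exact hag i hi
        refine (Finset.card_le_card hsub).trans ?_
        rw [Fintype.card_piFinset]
        calc (∏ i : Fin k, (if i ∈ I then S₀.filter (A x₀) else {x₀ i}).card)
            ≤ ∏ i : Fin k, (if i ∈ I then ⌊b⌋₊ else 1) := by
              apply Finset.prod_le_prod'
              intro i _
              by_cases hi : i ∈ I
              · rw [if_pos hi, if_pos hi]
                exact Nat.le_floor (hc x₀ h1)
              · rw [if_neg hi, if_neg hi, Finset.card_singleton]
          _ = ⌊b⌋₊ ^ I.card := by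
              rw [Finset.prod_ite_mem, Finset.univ_inter, Finset.prod_const]
  have hcard : (Fintype.piFinset (fun _ : {i : Fin k // i ∉ I} => S₀)).card =
      S₀.card ^ (k - I.card) := by
    rw [Fintype.card_piFinset, Finset.prod_const, Finset.card_univ]
    congr 1
    rw [Fintype.card_subtype_compl, Fintype.card_fin, Fintype.card_coe]
  rw [hcard] at key
  have h1 : (((Fintype.piFinset (fun _ : Fin k => S₀)).filter
      (fun x => ∀ i ∈ I, A x (x i))).card : ℝ) ≤
        ((⌊b⌋₊ ^ I.card * S₀.card ^ (k - I.card) : ℕ) : ℝ) := by exact_mod_cast key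
  refine h1.trans ?_
  push_cast
  gcongr
  exact Nat.floor_le hb

end MP34e
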