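import Pool.Agent.Work.MP_34e428_co.ZDefs

/-! Exact order: coins, jump decisions and starting points of a sample. -/

set_option autoImplicit false

open Finset

namespace MP34e

/-- coins of a sample -/
noncomputable def cZ {k T : ℕ} (x : Fin k → (ℤ × ℤ) × ((Fin T → Bool) × (Fin T → Fin 6))) :
    Fin k → ℕ → Bool := fun i => ex (x i).2.1

/-- jump decisions of a sample -/
noncomputable def JZ (K : ℕ) {k T : ℕ}
    (x : Fin k → (ℤ × ℤ) × ((Fin T → Bool) × (Fin T → Fin 6))) :
    Fin k → ℕ → ℤ × ℤ → Bool := fun i t => jc K (ex6 (x i).2.2 t)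

/-- starting points of a sample -/
def pZ {k T : ℕ} (x : Fin k → (ℤ × ℤ) × ((Fin T → Bool) × (Fin T → Fin 6))) :
    Fin k → ℤ × ℤ := fun i => (x i).1

end MP34e
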