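import Pool.Agent.Work.MP_34e428_co.ZRA
import Pool.Agent.Work.MP_34e428_co.ZRC
import Pool.Agent.Work.MP_34e428_co.ZSamp
import Pool.Agent.Work.MP_34e428_co.LCoin2
import Pool.Agent.Work.MP_34e428_co.LUnion

/-! Exact order, module RT: many new near zombies in one window. -/

set_option autoImplicit false

open Finset
open scoped Classical

namespace MP34e

private theorem trJ_congr (K o : ℕ) (h : ℕ → Bool) (J : ℕ → ℤ × ℤ → Bool) (e e' : ℕ → Bool)
    (p : ℤ × ℤ) (s : ℕ) (he : ∀ t < s, e t = e' t) : trJ K o h J e p s = trJ K o h J e' p s := by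
  induction s with
  | zero => rfl
  | succ s ih =>
    rw [trJ, trJ, ih (fun t ht => he t (by omega)), he s (by omega)]

private theorem NearP_congr (K o : ℕ) {T : ℕ} (e e' : ℕ → Bool) (a u : ℕ)
    (ω : (ℤ × ℤ) × ((Fin T → Bool) × (Fin T → Fin 6))) (he : ∀ t ≤ u, e t = e' t)
    (h : NearP K o e a u ω) : NearP K o e' a u ω := by
  have key : ∀ s ≤ u, trw K o e ω s = trw K o e' ω s := by
    intro s hs
    exact trJ_congr K o _ _ e e' _ s (fun t ht => he t (by omega))
  obtain ⟨h1, s, h2, h3, h4⟩ := h
  refine ⟨fun s hs => by rw [← key s hs]; exact h1 s hs, s, h2, h3, by rw [← key s h3]; exact h4⟩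

private theorem Adm_congr (L : ℕ) (e e' : ℕ → Bool) (u : ℕ) (he : ∀ t ≤ u, e t = e' t)
    (h : Adm L e u) : Adm L e' u := by
  have key : ∀ t ≤ u, ct e 0 t = ct e' 0 t := by
    intro t ht
    exact ct_congr (fun n _ hn => he n (by omega))
  obtain ⟨h1, h2, h3⟩ := h
  refine ⟨fun t ht => by rw [← key t ht]; exact h1 t ht, ?_, ?_⟩
  · intro t ht
    obtain ⟨s, g1, g2, g3⟩ := h2 t ht
    exact ⟨s, g1, g2, by rw [← key s (by omega)]; exact g3⟩
  · intro t ht
    obtain ⟨s, g1, g2, g3⟩ := h3 t ht
    exact ⟨s, g1, g2, by rw [← key s (by omega)]; exact g3⟩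

/-- the path which is the one of the survivor ignoring `I` before `a` and `w` after `a` -/
private noncomputable def ew {k T : ℕ} (L K o a N : ℕ) (I : Finset (Fin k)) (w : Fin N → Bool)
    (x : Fin k → (ℤ × ℤ) × ((Fin T → Bool) × (Fin T → Fin 6))) (t : ℕ) : Bool :=
  if t < a then (zst L (univ \ I)).pth K o (cZ x) (JZ K x) (pZ x) t
  else if h : t - a < N then w ⟨t - a, h⟩ else false

/-- the event for one zombie -/
private def AA {k T : ℕ} (L K o a u : ℕ)
    (Good : (ℤ × ℤ) × ((Fin T → Bool) × (Fin T → Fin 6)) → Prop) (I : Finset (Fin k))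
    (w : Fin (u + 1 - a) → Bool) (x : Fin k → (ℤ × ℤ) × ((Fin T → Bool) × (Fin T → Fin 6)))
    (ω : (ℤ × ℤ) × ((Fin T → Bool) × (Fin T → Fin 6))) : Prop :=
  Good ω ∧ Adm L (ew L K o a (u + 1 - a) I w x) u ∧
    NearP K o (ew L K o a (u + 1 - a) I w x) a u ω

/-- RT: many new near zombies in one window -/
theorem tuple_count {K o k L m T a u : ℕ}
    (Good : (ℤ × ℤ) × ((Fin T → Bool) × (Fin T → Fin 6)) → Prop) (b : ℝ) (hb : 0 ≤ b)
    (hc : ∀ e : ℕ → Bool, Adm L e u →
      (((SpZ K o T).filter (fun ω => Good ω ∧ NearP K o e a u ω)).card : ℝ) ≤ b)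
    (hau : a ≤ u) :
    (((Fintype.piFinset (fun _ : Fin k => SpZ K o T)).filter (fun x => (∀ i, Good (x i)) ∧
      (∀ s ≤ u, ∀ i, 2 ≤ ds (((zst L univ).run K o (cZ x) (JZ K x) (pZ x) s).1 i)) ∧
      Adm L ((zst L univ).pth K o (cZ x) (JZ K x) (pZ x)) u ∧
      m < (univ.filter (fun i : Fin k =>
        (∀ r < a, ¬ infl L ((zst L univ).mid K o (cZ x) (JZ K x) (pZ x) r i)) ∧
        ∃ s, a ≤ s ∧ s ≤ u ∧
          near3 (((zst L univ).run K o (cZ x) (JZ K x) (pZ x) s).1 i))).card)).card : ℝ) ≤
      (k.choose (m + 1)) * 2 ^ (u + 1 - a) * b ^ (m + 1) *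
        ((SpZ K o T).card : ℝ) ^ (k - (m + 1)) := by
  have h := card_filter_exists_le (Fintype.piFinset (fun _ : Fin k => SpZ K o T))
    (powersetCard (m + 1) (univ : Finset (Fin k)) ×ˢ
      (univ : Finset (Fin (u + 1 - a) → Bool)))
    (fun Iw x => ∀ i ∈ Iw.1, AA L K o a u Good Iw.1 Iw.2 x (x i))
    (b ^ (m + 1) * ((SpZ K o T).card : ℝ) ^ (k - (m + 1)))
    (fun Iw hIw => by
      obtain ⟨I, w⟩ := Iw
      rw [mem_product, mem_powersetCard] at hIw
      have hI : I.card = m + 1 := hIw.1.2
      have hd := card_dep (SpZ K o T) k I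
        (AA L K o a u Good I w)
        (by
          intro x x' hxx
          have : ew L K o a (u + 1 - a) I w x = ew L K o a (u + 1 - a) I w x' := by
            funext t
            unfold ew
            rw [run_local L (univ \ I) K o (cZ x) (cZ x') (JZ K x) (JZ K x') (pZ x) (pZ x')]
            intro i hi
            have hi' : i ∉ I := by
              rw [mem_sdiff] at hi
              exact hi.2
            have := hxx i hi'
            unfold cZ JZ pZ
            rw [this]
            exact ⟨rfl, rfl, rfl⟩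
          funext ω
          unfold AA
          rw [this]) b hb
        (by
          intro x _
          by_cases hA : Adm L (ew L K o a (u + 1 - a) I w x) u
          · refine le_trans (Nat.cast_le.mpr (Finset.card_le_card ?_)) (hc _ hA)
            intro ω hω
            rw [mem_filter] at hω ⊢
            exact ⟨hω.1, hω.2.1, hω.2.2.2⟩
          · rw [Finset.filter_false_of_mem (by
              rintro ω _ ⟨_, h2, _⟩
              exact hA h2)]
            simpa using hb)
      rw [hI] at hd
      convert hd)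
    (fun x => (∀ i, Good (x i)) ∧
      (∀ s ≤ u, ∀ i, 2 ≤ ds (((zst L univ).run K o (cZ x) (JZ K x) (pZ x) s).1 i)) ∧
      Adm L ((zst L univ).pth K o (cZ x) (JZ K x) (pZ x)) u ∧
      m < (univ.filter (fun i : Fin k =>
        (∀ r < a, ¬ infl L ((zst L univ).mid K o (cZ x) (JZ K x) (pZ x) r i)) ∧
        ∃ s, a ≤ s ∧ s ≤ u ∧
          near3 (((zst L univ).run K o (cZ x) (JZ K x) (pZ x) s).1 i))).card)
    (by
      rintro x ⟨hG, hD, hA, hM⟩
      obtain ⟨I, hI1, hI2⟩ := Finset.exists_subset_card_eq (Nat.succ_le_of_lt hM)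
      set e := (zst L univ).pth K o (cZ x) (JZ K x) (pZ x) with he
      refine ⟨(I, fun j => e (a + j)), ?_, ?_⟩
      · rw [mem_product, mem_powersetCard]
        exact ⟨⟨Finset.subset_univ _, hI2⟩, Finset.mem_univ _⟩
      · have hag := run_agree L (univ \ I) K o (cZ x) (JZ K x) (pZ x) a (by
          intro r hr i hi
          have hi' : i ∈ I := by
            by_contra hc
            exact hi (by rw [mem_sdiff]; exact ⟨Finset.mem_univ _, hc⟩)
          exact (Finset.mem_filter.mp (hI1 hi')).2.1 r hr)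
        have hee : ∀ t ≤ u, e t = ew L K o a (u + 1 - a) I (fun j => e (a + j)) x t := by
          intro t ht
          unfold ew
          by_cases hta : t < a
          · rw [if_pos hta]
            exact (hag t (by omega)).2.2 hta
          · rw [if_neg hta, dif_pos (by omega)]
            change e t = e (a + (t - a))
            congr 1
            omega
        intro i hi
        refine ⟨hG i, Adm_congr L _ _ u hee hA, NearP_congr K o _ _ a u _ hee ?_⟩
        have hrun : ∀ s, ((zst L univ).run K o (cZ x) (JZ K x) (pZ x) s).1 i =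
            trw K o e (x i) s := by
          intro s
          rw [Strat.run_fst]
          rfl
        refine ⟨fun s hs => by rw [← hrun s]; exact hD s hs i, ?_⟩
        obtain ⟨s, h1, h2, h3⟩ := (Finset.mem_filter.mp (hI1 hi)).2.2
        exact ⟨s, h1, h2, by rw [← hrun s]; exact h3⟩)
  refine h.trans (le_of_eq ?_)
  rw [Finset.card_product, Finset.card_powersetCard, Finset.card_univ, Finset.card_univ,
    Fintype.card_fin, Fintype.card_fun, Fintype.card_fin, Fintype.card_bool]
  push_cast
  ring

end MP34e
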