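import Pool.Agent.Work.MP_34e428_co.LUnion

/-! Module RU: union bound for three zombies with events at close times. -/

set_option autoImplicit false

open Finset
open scoped Classical

namespace MP34e

private theorem ru_window (TN W s : ℕ) :
    (((range (TN + 1)).filter (fun s' => s ≤ s' + W ∧ s' ≤ s + W)).card : ℝ) ≤ 2 * W + 1 := by
  have : ((range (TN + 1)).filter (fun s' => s ≤ s' + W ∧ s' ≤ s + W)).card ≤
      2 * W + 1 := by
    have hsub : (range (TN + 1)).filter (fun s' => s ≤ s' + W ∧ s' ≤ s + W) ⊆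
        Icc (s - W) (s + W) := by
      intro u hu
      rw [Finset.mem_filter] at hu
      rw [Finset.mem_Icc]
      omega
    have := Finset.card_le_card hsub
    rw [Nat.card_Icc] at this
    omega
  exact_mod_cast this

/-- RU: three zombies with events at close times -/
theorem ub_three' {α : Type*} (S : Finset α) (k TN W : ℕ) (Fr : ℕ → α → Prop) (r : ℝ)
    (hr0 : 0 ≤ r) (hr : ∀ s ≤ TN, ((S.filter (Fr s)).card : ℝ) ≤ r * S.card) :
    (((Fintype.piFinset (fun _ : Fin k => S)).filter (fun x => ∃ i j l, i ≠ j ∧ i ≠ l ∧ j ≠ l ∧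
      ∃ s ≤ TN, ∃ s' ≤ TN, ∃ s'' ≤ TN, s ≤ s' + W ∧ s' ≤ s + W ∧ s ≤ s'' + W ∧ s'' ≤ s + W ∧
        Fr s (x i) ∧ Fr s' (x j) ∧ Fr s'' (x l))).card : ℝ) ≤
      (k : ℝ) ^ 3 * ((TN : ℝ) + 1) * (2 * W + 1) ^ 2 * r ^ 3 * (S.card : ℝ) ^ k := by
  have hW : (0 : ℝ) ≤ 2 * (W : ℝ) + 1 := by positivity
  have hZ : (0 : ℝ) ≤ r ^ 3 * (S.card : ℝ) ^ k := by positivity
  have c4 : (((univ : Finset (Fin k × Fin k × Fin k)).filter
      (fun t => t.1 ≠ t.2.1 ∧ t.1 ≠ t.2.2 ∧ t.2.1 ≠ t.2.2)).card : ℝ) ≤ (k : ℝ) ^ 3 := by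
    have : ((univ : Finset (Fin k × Fin k × Fin k)).filter
        (fun t => t.1 ≠ t.2.1 ∧ t.1 ≠ t.2.2 ∧ t.2.1 ≠ t.2.2)).card ≤ k ^ 3 := by
      refine (Finset.card_filter_le _ _).trans ?_
      rw [Finset.card_univ, Fintype.card_prod, Fintype.card_prod, Fintype.card_fin]
      exact le_of_eq (by ring)
    exact_mod_cast this
  -- three given events
  have h3 : ∀ i j l : Fin k, i ≠ j → i ≠ l → j ≠ l → ∀ s ≤ TN, ∀ s' ≤ TN, ∀ s'' ≤ TN,
      (((Fintype.piFinset (fun _ : Fin k => S)).filter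
        (fun x => Fr s (x i) ∧ Fr s' (x j) ∧ Fr s'' (x l))).card : ℝ) ≤
        r ^ 3 * (S.card : ℝ) ^ k := by
    intro i j l hij hil hjl s hs s' hs' s'' hs''
    have h := pi_card S k {i, j, l} (fun a => if a = i then Fr s else if a = j then Fr s' else Fr s'')
      r (by
        intro a ha
        by_cases h1 : a = i
        · simp only [h1, if_true]; exact hr s hs
        · by_cases h2 : a = j
          · simp only [h1, h2, if_false, if_true, hij.symm]; exact hr s' hs'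
          · simp only [h1, h2, if_false]; exact hr s'' hs'')
      (fun x => Fr s (x i) ∧ Fr s' (x j) ∧ Fr s'' (x l)) (by
        intro x hx a ha
        rw [Finset.mem_insert, Finset.mem_insert, Finset.mem_singleton] at ha
        rcases ha with rfl | rfl | rfl
        · simp only [if_true]; exact hx.1
        · simp only [hij.symm, if_false, if_true]; exact hx.2.1
        · simp only [hil.symm, hjl.symm, if_false]; exact hx.2.2)
    have hc : ({i, j, l} : Finset (Fin k)).card = 3 := by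
      rw [Finset.card_insert_of_notMem (by simp [hij, hil]), Finset.card_pair hjl]
    rw [hc] at h
    convert h
  -- given zombies and first time
  have h2 : ∀ i j l : Fin k, i ≠ j → i ≠ l → j ≠ l → ∀ s ≤ TN,
      (((Fintype.piFinset (fun _ : Fin k => S)).filter (fun x =>
        ∃ s' ≤ TN, ∃ s'' ≤ TN, s ≤ s' + W ∧ s' ≤ s + W ∧ s ≤ s'' + W ∧ s'' ≤ s + W ∧
          Fr s (x i) ∧ Fr s' (x j) ∧ Fr s'' (x l))).card : ℝ) ≤
        (2 * W + 1) ^ 2 * (r ^ 3 * (S.card : ℝ) ^ k) := by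
    intro i j l hij hil hjl s hs
    set I := (range (TN + 1)).filter (fun s' => s ≤ s' + W ∧ s' ≤ s + W) with hI
    have h := card_filter_exists_le (Fintype.piFinset (fun _ : Fin k => S))
      (I ×ˢ I) (fun p x => Fr s (x i) ∧ Fr p.1 (x j) ∧ Fr p.2 (x l))
      (r ^ 3 * (S.card : ℝ) ^ k) (by
        intro p hp
        rw [Finset.mem_product, hI, Finset.mem_filter, Finset.mem_filter, Finset.mem_range,
          Finset.mem_range] at hp
        convert h3 i j l hij hil hjl s hs p.1 (by omega) p.2 (by omega))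
      (fun x => ∃ s' ≤ TN, ∃ s'' ≤ TN, s ≤ s' + W ∧ s' ≤ s + W ∧ s ≤ s'' + W ∧ s'' ≤ s + W ∧
          Fr s (x i) ∧ Fr s' (x j) ∧ Fr s'' (x l)) (by
        rintro x ⟨s', hs', s'', hs'', a1, a2, a3, a4, a5⟩
        refine ⟨(s', s''), ?_, a5⟩
        rw [Finset.mem_product, hI, Finset.mem_filter, Finset.mem_filter, Finset.mem_range,
          Finset.mem_range]
        exact ⟨⟨by omega, a1, a2⟩, by omega, a3, a4⟩)
    refine h.trans (mul_le_mul_of_nonneg_right ?_ hZ)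
    rw [Finset.card_product]
    push_cast
    rw [sq]
    have hw := ru_window TN W s
    rw [← hI] at hw
    exact mul_le_mul hw hw (by positivity) hW
  -- given zombies
  have h1 : ∀ i j l : Fin k, i ≠ j → i ≠ l → j ≠ l →
      (((Fintype.piFinset (fun _ : Fin k => S)).filter (fun x => ∃ s ≤ TN,
        ∃ s' ≤ TN, ∃ s'' ≤ TN, s ≤ s' + W ∧ s' ≤ s + W ∧ s ≤ s'' + W ∧ s'' ≤ s + W ∧
          Fr s (x i) ∧ Fr s' (x j) ∧ Fr s'' (x l))).card : ℝ) ≤
        ((TN : ℝ) + 1) * ((2 * W + 1) ^ 2 * (r ^ 3 * (S.card : ℝ) ^ k)) := by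
    intro i j l hij hil hjl
    have h := card_filter_exists_le (Fintype.piFinset (fun _ : Fin k => S))
      (range (TN + 1)) (fun s x => ∃ s' ≤ TN, ∃ s'' ≤ TN, s ≤ s' + W ∧ s' ≤ s + W ∧
        s ≤ s'' + W ∧ s'' ≤ s + W ∧ Fr s (x i) ∧ Fr s' (x j) ∧ Fr s'' (x l))
      ((2 * W + 1) ^ 2 * (r ^ 3 * (S.card : ℝ) ^ k)) (by
        intro s hs
        rw [Finset.mem_range] at hs
        convert h2 i j l hij hil hjl s (by omega))
      (fun x => ∃ s ≤ TN,
        ∃ s' ≤ TN, ∃ s'' ≤ TN, s ≤ s' + W ∧ s' ≤ s + W ∧ s ≤ s'' + W ∧ s'' ≤ s + W ∧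
          Fr s (x i) ∧ Fr s' (x j) ∧ Fr s'' (x l)) (by
        rintro x ⟨s, hs, a⟩
        exact ⟨s, by rw [Finset.mem_range]; omega, a⟩)
    rw [Finset.card_range] at h
    push_cast at h
    exact h
  have h := card_filter_exists_le (Fintype.piFinset (fun _ : Fin k => S))
    ((univ : Finset (Fin k × Fin k × Fin k)).filter
      (fun t => t.1 ≠ t.2.1 ∧ t.1 ≠ t.2.2 ∧ t.2.1 ≠ t.2.2))
    (fun t x => ∃ s ≤ TN, ∃ s' ≤ TN, ∃ s'' ≤ TN, s ≤ s' + W ∧ s' ≤ s + W ∧ s ≤ s'' + W ∧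
      s'' ≤ s + W ∧ Fr s (x t.1) ∧ Fr s' (x t.2.1) ∧ Fr s'' (x t.2.2))
    (((TN : ℝ) + 1) * ((2 * W + 1) ^ 2 * (r ^ 3 * (S.card : ℝ) ^ k))) (by
      intro t ht
      rw [Finset.mem_filter] at ht
      convert h1 t.1 t.2.1 t.2.2 ht.2.1 ht.2.2.1 ht.2.2.2)
    (fun x => ∃ i j l, i ≠ j ∧ i ≠ l ∧ j ≠ l ∧
      ∃ s ≤ TN, ∃ s' ≤ TN, ∃ s'' ≤ TN, s ≤ s' + W ∧ s' ≤ s + W ∧ s ≤ s'' + W ∧ s'' ≤ s + W ∧
        Fr s (x i) ∧ Fr s' (x j) ∧ Fr s'' (x l)) (by
      rintro x ⟨i, j, l, a1, a2, a3, a⟩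
      refine ⟨(i, j, l), ?_, a⟩
      rw [Finset.mem_filter]
      exact ⟨Finset.mem_univ _, a1, a2, a3⟩)
  refine h.trans ((mul_le_mul_of_nonneg_right c4 (by positivity)).trans (le_of_eq ?_))
  ring

end MP34e
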