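import Pool.Agent.Work.MP_34e428_co.ZSamp
import Pool.Agent.Work.MP_34e428_co.LValJ

/-! Module VG: the game value on the torus `T_n` versus the coins model, general strategies with
memory. -/

set_option autoImplicit false

open Finset SimpleGraph

namespace MP34e

/-- the rule of the survivor on the torus -/
private noncomputable def zruleG (n : ℕ) {k : ℕ} (σ : Strat k) :
    Rule (ZMod n × ZMod n) k σ.M where
  act m z v :=
    (v + cz n (ev (σ.dir m (fun i => dsp n (z i) v))),
      σ.upd m (fun i => dsp n (z i) v))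

private theorem zruleG_run {n K o : ℕ} [NeZero n] (hn : n + o = 2 * K + 1) (ho : o ≤ 1) (hK : 2 ≤ K)
    {k : ℕ} (σ : Strat k) (c : ℕ → Fin k → Bool × Fin 6) (p : Fin k → ℤ × ℤ)
    (hp : ∀ i, p i ∈ boxJ K o) (v0 : ZMod n × ZMod n) (t : ℕ) :
    ((zruleG n σ).run (stpJ n K o)
        ⟨σ.m0, fun i => v0 - cz n (p i), v0⟩ c t).mem
      = (σ.run K o (fun i t => (c t i).1) (fun i t => jc K ((c t i).2 : ℕ)) p t).2 ∧
    ∀ i, dsp n (((zruleG n σ).run (stpJ n K o)
        ⟨σ.m0, fun i => v0 - cz n (p i), v0⟩ c t).zs i)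
        ((zruleG n σ).run (stpJ n K o)
        ⟨σ.m0, fun i => v0 - cz n (p i), v0⟩ c t).sv
      = (σ.run K o (fun i t => (c t i).1) (fun i t => jc K ((c t i).2 : ℕ)) p t).1 i := by
  induction t with
  | zero => exact ⟨rfl, fun i => dspJ_eq hn ho (hp i) v0⟩
  | succ t ih =>
    obtain ⟨ih1, ih2⟩ := ih
    have hq : (fun i => dsp n (stpJ n K o (c t i)
        (((zruleG n σ).run (stpJ n K o)
        ⟨σ.m0, fun i => v0 - cz n (p i), v0⟩ c t).zs i)
        ((zruleG n σ).run (stpJ n K o)
        ⟨σ.m0, fun i => v0 - cz n (p i), v0⟩ c t).sv)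
        ((zruleG n σ).run (stpJ n K o)
        ⟨σ.m0, fun i => v0 - cz n (p i), v0⟩ c t).sv)
        = fun i => zj K o (c t i).1 (jc K ((c t i).2 : ℕ)
            ((σ.run K o (fun i t => (c t i).1) (fun i t => jc K ((c t i).2 : ℕ)) p t).1 i))
            ((σ.run K o (fun i t => (c t i).1) (fun i t => jc K ((c t i).2 : ℕ)) p t).1 i) := by
      funext i
      rw [dsp_stpJ hn ho hK, ih2]
    refine ⟨?_, fun i => ?_⟩
    · change σ.upd _ _ = σ.upd _ _
      rw [hq, ih1]
    · change dsp n _ (_ + cz n (ev (σ.dir _ _))) = smJ K o (σ.dir _ _) _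
      rw [dsp_stepJ hn ho hK, hq, ih1]
      exact congrArg (smJ K o _) (congrFun hq i)

open scoped Classical in
/-- VG: value of the game and strategies -/
theorem surv_geG {n K o k : ℕ} [NeZero n] (hn : n + o = 2 * K + 1) (ho : o ≤ 1) (hK : 2 ≤ K)
    (σ : Strat k) (T : ℕ) :
    (((Fintype.piFinset (fun _ : Fin k => SpZ K o T)).filter
      (fun x => (∀ t ≤ T, ∀ i, 2 ≤ ds ((σ.run K o (cZ x) (JZ K x) (pZ x) t).1 i)) ∧
        ∀ i, SafeJ K o ((σ.run K o (cZ x) (JZ K x) (pZ x) T).1 i))).card : ℝ) /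
      (((n : ℝ) ^ 2 * (2 ^ T * 6 ^ T)) ^ k) ≤ surv (tor n) k := by
  unfold SpZ cZ JZ pZ
  set X := ((Fintype.piFinset (fun _ : Fin k =>
      boxJ K o ×ˢ (univ : Finset ((Fin T → Bool) × (Fin T → Fin 6))))).filter
      (fun x => (∀ t ≤ T, ∀ i, 2 ≤ ds ((σ.run K o (fun i => ex (x i).2.1)
          (fun i t => jc K (ex6 (x i).2.2 t)) (fun i => (x i).1) t).1 i)) ∧
        ∀ i, SafeJ K o ((σ.run K o (fun i => ex (x i).2.1)
          (fun i t => jc K (ex6 (x i).2.2 t)) (fun i => (x i).1) T).1 i))) with hX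
  let F : St (ZMod n × ZMod n) k σ.M → Prop :=
    fun s => ∀ i, SafeJ K o (dsp n (s.zs i) s.sv)
  have hleg : (zruleG n σ).Legal (tor n) := by
    intro m z v
    right
    exact adj_ev (by omega) v _
  have hcardV : (Fintype.card (ZMod n × ZMod n) : ℝ) = (n : ℝ) ^ 2 := by
    rw [Fintype.card_prod, ZMod.card]; push_cast; ring
  have hcardB : (Fintype.card (Bool × Fin 6) : ℝ) = 2 * 6 := by
    rw [Fintype.card_prod, Fintype.card_bool, Fintype.card_fin]; norm_num
  -- the two sequences of coins agree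
  have hex : ∀ (u : Fin T → Bool) (w : Fin T → Fin 6) (j : ℕ), j < T →
      (ext (fun j => (u j, w j)) j).1 = ex u j ∧
      ((ext (fun j => (u j, w j)) j).2 : ℕ) = ex6 w j := by
    intro u w j hj
    unfold ext ex ex6
    rw [dif_pos hj, dif_pos hj, dif_pos hj]
    exact ⟨rfl, rfl⟩
  -- a version of the run with the extended coins
  have hrun : ∀ (x : Fin k → (ℤ × ℤ) × ((Fin T → Bool) × (Fin T → Fin 6))) (t : ℕ), t ≤ T →
      σ.run K o (fun i t => (ext (fun j => ((x i).2.1 j, (x i).2.2 j)) t).1)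
        (fun i t => jc K ((ext (fun j => ((x i).2.1 j, (x i).2.2 j)) t).2 : ℕ))
        (fun i => (x i).1) t
      = σ.run K o (fun i => ex (x i).2.1) (fun i t => jc K (ex6 (x i).2.2 t))
        (fun i => (x i).1) t := by
    intro x t
    induction t with
    | zero => intro _; rfl
    | succ t ih =>
      intro ht
      have h1 := ih (by omega)
      have h2 : ∀ i, (ext (fun j => ((x i).2.1 j, (x i).2.2 j)) t).1 = ex (x i).2.1 t := fun i =>
        (hex _ _ t (by omega)).1
      have h3 : ∀ i, ((ext (fun j => ((x i).2.1 j, (x i).2.2 j)) t).2 : ℕ) = ex6 (x i).2.2 t :=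
        fun i => (hex _ _ t (by omega)).2
      unfold Strat.run
      simp only [h1, h2, h3]
  -- lower bound for the horizons `T + T'`
  have main : ∀ T' : ℕ, (X.card : ℝ) / (((n : ℝ) ^ 2 * (2 ^ T * 6 ^ T)) ^ k)
      ≤ survT (tor n) k (T + T') := by
    intro T'
    have h1 := alive_fin_le_survT (tor n) (stpJ n K o) (realises_stpJ hn ho hK)
      (zruleG n σ) hleg F T' (fun s hs => val_safeJ hn ho hK T' s.zs s.sv hs) T
      σ.m0 0
    rw [hcardV, hcardB] at h1
    have h12 : ((2 : ℝ) * 6) ^ T = 2 ^ T * 6 ^ T := mul_pow _ _ _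
    rw [h12] at h1
    refine le_trans ?_ h1
    apply div_le_div_of_nonneg_right _ (by positivity)
    simp only [Finset.sum_boole]
    norm_cast
    refine Finset.card_le_card_of_injOn
      (fun x i => ((0 : ZMod n × ZMod n) - cz n (x i).1, fun j => ((x i).2.1 j, (x i).2.2 j)))
      ?_ ?_
    · intro x hx
      rw [Finset.mem_coe, hX, Finset.mem_filter, Fintype.mem_piFinset] at hx
      obtain ⟨hx1, hx2, hx3⟩ := hx
      have hbox : ∀ i, (x i).1 ∈ boxJ K o := fun i => (Finset.mem_product.1 (hx1 i)).1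
      rw [Finset.mem_coe, Finset.mem_filter]
      refine ⟨Finset.mem_univ _, ?_⟩
      have hr := zruleG_run hn ho hK σ
        (fun t i => ext (fun j => ((x i).2.1 j, (x i).2.2 j)) t) (fun i => (x i).1) hbox 0
      refine ⟨⟨fun t ht i => ?_, fun t ht i => ?_⟩, ?_⟩
      · apply ne_of_dsJ
        have h5 := (hr t).2 i
        rw [hrun x t ht] at h5
        intro h0
        have := hx2 t ht i
        rw [← h5, h0] at this
        simp [ds] at this
      · apply ne_of_dsJ
        have h5 := (hr t).2 i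
        rw [hrun x t ht.le] at h5
        have h6 := hx2 t ht.le i
        rw [← h5] at h6
        have h3 := zj_ne_zero (o := o) hK h6 (ext (fun j => ((x i).2.1 j, (x i).2.2 j)) t).1
          (jc K ((ext (fun j => ((x i).2.1 j, (x i).2.2 j)) t).2 : ℕ)
          (dsp n (((zruleG n σ).run (stpJ n K o)
            ⟨σ.m0, fun i => 0 - cz n ((fun i => (x i).1) i), 0⟩
            (fun t i => ext (fun j => ((x i).2.1 j, (x i).2.2 j)) t) t).zs i)
          ((zruleG n σ).run (stpJ n K o)
            ⟨σ.m0, fun i => 0 - cz n ((fun i => (x i).1) i), 0⟩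
            (fun t i => ext (fun j => ((x i).2.1 j, (x i).2.2 j)) t) t).sv))
        rw [← dsp_stpJ hn ho hK] at h3
        exact h3
      · change ∀ i, SafeJ K o _
        intro i
        have h5 := (hr T).2 i
        rw [hrun x T le_rfl] at h5
        have h6 := hx3 i
        rw [← h5] at h6
        exact h6
    · intro x hx y hy hxy
      rw [Finset.mem_coe, hX, Finset.mem_filter, Fintype.mem_piFinset] at hx hy
      funext i
      have h6 := congrFun hxy i
      simp only [Prod.mk.injEq, sub_right_inj] at h6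
      have hb1 := (Finset.mem_product.1 (hx.1 i)).1
      have hb2 := (Finset.mem_product.1 (hy.1 i)).1
      have h7 : (x i).1 = (y i).1 := (czJ_eq_iff hn ho hb1 hb2).1 h6.1
      have h8 : (x i).2.1 = (y i).2.1 := by
        funext j
        have := congrFun h6.2 j
        exact congrArg Prod.fst this
      have h9 : (x i).2.2 = (y i).2.2 := by
        funext j
        have := congrFun h6.2 j
        exact congrArg Prod.snd this
      exact Prod.ext h7 (Prod.ext h8 h9)
  unfold surv
  apply le_ciInf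
  intro T''
  rcases le_total T T'' with h | h
  · obtain ⟨T', rfl⟩ := Nat.exists_eq_add_of_le h
    exact main T'
  · exact (main 0).trans (survT_anti _ _ (by simpa using h))

end MP34e
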