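import Pool.Agent.Work.MP_34e428_co.ZSamp

/-! Module VJ: a zombie seldom makes many visits of the ends of the line `x + y = K` without
jumping, general strategies with memory. -/

set_option autoImplicit false

open Finset
open scoped Classical

namespace MP34e

/-- the run up to time `t` only depends on the decisions before `t` -/
private theorem vj_run_congr {k : ℕ} (σ : Strat k) (K o : ℕ) (c : Fin k → ℕ → Bool)
    (J J' : Fin k → ℕ → ℤ × ℤ → Bool) (p : Fin k → ℤ × ℤ) (t : ℕ)
    (h : ∀ s < t, ∀ i q, J i s q = J' i s q) :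
    σ.run K o c J p t = σ.run K o c J' p t := by
  induction t with
  | zero => rfl
  | succ t ih =>
    have h1 := ih (fun s hs => h s (by omega))
    have h3 : ∀ i q, J i t q = J' i t q := h t (by omega)
    unfold Strat.run
    simp only [h1, h3]

/-- the event of the statement -/
private def NJG (K o : ℕ) {k T : ℕ} (σ : Strat k) (l T₁ : ℕ) (i : Fin k)
    (x : Fin k → (ℤ × ℤ) × ((Fin T → Bool) × (Fin T → Fin 6))) : Prop :=
  NoJump K o (ex (x i).2.1) (fun t => jc K (ex6 (x i).2.2 t))
        (σ.pth K o (fun i => ex (x i).2.1) (fun i t => jc K (ex6 (x i).2.2 t))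
          (fun i => (x i).1)) (x i).1 l T₁

private theorem njg_fiber {K o k : ℕ} (σ : Strat k) {T : ℕ} (l T₁ : ℕ) (hT : T₁ ≤ T) (i : Fin k)
    (x : Fin k → (ℤ × ℤ) × ((Fin T → Bool) × (Fin T → Fin 6))) :
    (univ.filter (fun u : Fin T → Fin 6 => NJG K o σ l T₁ i (rep x i u))).card * 2 ^ l
      ≤ 6 ^ T := by
  set c : Fin k → ℕ → Bool := fun j => ex (x j).2.1 with hc
  set p : Fin k → ℤ × ℤ := fun j => (x j).1 with hp
  set J : (ℕ → ℕ) → Fin k → ℕ → ℤ × ℤ → Bool := fun v j t =>
    if j = i then jc K (v t) else jc K (ex6 (x j).2.2 t) with hJ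
  set A : ℕ → (ℕ → ℕ) → Prop := fun t v => Vis K ((σ.run K o c (J v) p t).1 i) with hA
  have hAd : Adapt A := by
    intro t u u' h
    rw [hA]
    simp only
    rw [vj_run_congr σ K o c (J u) (J u') p t]
    intro s hs j q
    rw [hJ]
    simp only
    split_ifs with hj
    · rw [h s hs]
    · rfl
  refine le_trans (Nat.mul_le_mul_right _ ?_) (count_Ev6 T A hAd l T₁ hT)
  apply Finset.card_le_card
  intro u hu
  simp only [Finset.mem_filter, Finset.mem_univ, true_and] at hu ⊢
  unfold NJG NoJump at hu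
  -- identify the run
  have e1 : (fun j => ex (rep x i u j).2.1) = c := by
    funext j
    rw [hc, rep_snd]
  have e2 : (fun j => (rep x i u j).1) = p := by
    funext j
    rw [hp, rep_fst]
  have e3 : (fun (j : Fin k) (t : ℕ) => jc K (ex6 (rep x i u j).2.2 t)) = J (ex6 u) := by
    funext j t
    rw [hJ]
    simp only
    split_ifs with hj
    · subst hj
      unfold rep
      simp
    · unfold rep
      rw [Function.update_of_ne hj]
  have e4 : (fun t : ℕ => jc K (ex6 (rep x i u i).2.2 t)) = J (ex6 u) i := by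
    rw [← e3]
  rw [e1, e2, e3, e4, show (rep x i u i).1 = p i by rw [hp, rep_fst],
    show ex (rep x i u i).2.1 = c i by rw [← e1]] at hu
  have e5 : ∀ t, trJ K o (c i) (J (ex6 u) i) (σ.pth K o c (J (ex6 u)) p) (p i) t
      = (σ.run K o c (J (ex6 u)) p t).1 i := fun t =>
    (Strat.run_fst σ K o c (J (ex6 u)) p t i).symm
  simp only [e5] at hu
  refine ⟨hu.1, fun t ht hAt => ?_⟩
  have h1 := hu.2 t ht hAt
  have hAt' : Vis K ((σ.run K o c (J (ex6 u)) p t).1 i) := hAt
  generalize (σ.run K o c (J (ex6 u)) p t).1 i = q at hAt' h1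
  have hJi : J (ex6 u) i t q = jc K (ex6 u t) q := by rw [hJ]; simp
  rw [hJi] at h1
  unfold jc at h1
  rw [if_pos] at h1
  · simpa using h1
  · rcases hAt' with h2 | h2
    · right; right
      rw [h2]
    · right; left
      rw [h2]

/-- VJ: no jumps -/
theorem count_NoJumpG {K o k : ℕ} (σ : Strat k) (T l T₁ : ℕ) (hT : T₁ ≤ T) (i : Fin k) :
    (((Fintype.piFinset (fun _ : Fin k => SpZ K o T)).filter
      (fun x => NoJump K o (cZ x i) (JZ K x i) (σ.pth K o (cZ x) (JZ K x) (pZ x)) (pZ x i)
        l T₁)).card : ℝ) ≤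
      (1 / 2) ^ l * ((Fintype.piFinset (fun _ : Fin k => SpZ K o T)).card : ℝ) := by
  unfold SpZ
  set Ω := Fintype.piFinset (fun _ : Fin k =>
      boxJ K o ×ˢ (univ : Finset ((Fin T → Bool) × (Fin T → Fin 6)))) with hΩ
  have hmem : ∀ x ∈ Ω, ∀ u, rep x i u ∈ Ω := by
    intro x hx u
    rw [hΩ, Fintype.mem_piFinset] at hx ⊢
    intro j
    have := hx j
    rw [Finset.mem_product] at this ⊢
    refine ⟨?_, Finset.mem_univ _⟩
    rw [rep_fst]
    exact this.1
  have hnat : (Ω.filter (fun x => NJG K o σ l T₁ i x)).card * 6 ^ T * 2 ^ l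
      ≤ Ω.card * 6 ^ T := by
    have hcard : (univ : Finset (Fin T → Fin 6)).card = 6 ^ T := by
      rw [Finset.card_univ]; simp
    have h1 : (Ω.filter (fun x => NJG K o σ l T₁ i x)).card * 6 ^ T
        = ∑ x ∈ Ω, (univ.filter (fun u : Fin T → Fin 6 => NJG K o σ l T₁ i (rep x i u))).card := by
      have h2 : ∑ x ∈ Ω, (univ.filter (fun u : Fin T → Fin 6 =>
          NJG K o σ l T₁ i (rep x i u))).card
          = ((Ω ×ˢ (univ : Finset (Fin T → Fin 6))).filter
            (fun y => NJG K o σ l T₁ i (rep y.1 i y.2))).card := by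
        rw [Finset.card_filter, Finset.sum_product]
        refine Finset.sum_congr rfl fun x _ => ?_
        rw [Finset.card_filter]
      have h3 : (Ω.filter (fun x => NJG K o σ l T₁ i x)).card * 6 ^ T
          = ((Ω ×ˢ (univ : Finset (Fin T → Fin 6))).filter
            (fun y => NJG K o σ l T₁ i y.1)).card := by
        rw [← hcard, ← Finset.card_product]
        congr 1
        ext y
        simp only [Finset.mem_product, Finset.mem_filter, Finset.mem_univ, and_true]
      rw [h2, h3]
      apply Finset.card_bij (fun y _ => (rep y.1 i y.2, (y.1 i).2.2))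
      · intro y hy
        rw [Finset.mem_filter, Finset.mem_product] at hy ⊢
        refine ⟨⟨hmem _ hy.1.1 _, Finset.mem_univ _⟩, ?_⟩
        simp only
        rw [rep_rep]
        exact hy.2
      · intro y _ z _ hyz
        rw [Prod.ext_iff] at hyz
        obtain ⟨hy1, hy2⟩ := hyz
        simp only at hy1 hy2
        have a1 : y.1 = z.1 := by
          rw [← rep_rep y.1 i y.2, ← rep_rep z.1 i z.2, hy1, hy2]
        have a2 : y.2 = z.2 := by
          have := congrFun hy1 i
          unfold rep at this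
          simp at this
          exact this.2.2
        exact Prod.ext a1 a2
      · intro y hy
        rw [Finset.mem_filter, Finset.mem_product] at hy
        refine ⟨(rep y.1 i y.2, (y.1 i).2.2), ?_, ?_⟩
        · rw [Finset.mem_filter, Finset.mem_product]
          refine ⟨⟨hmem _ hy.1.1 _, Finset.mem_univ _⟩, ?_⟩
          simp only
          exact hy.2
        · simp only
          rw [rep_rep]
          have : (rep y.1 i y.2 i).2.2 = y.2 := by unfold rep; simp
          rw [this]
    rw [h1, Finset.sum_mul]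
    calc ∑ x ∈ Ω, (univ.filter (fun u : Fin T → Fin 6 =>
          NJG K o σ l T₁ i (rep x i u))).card * 2 ^ l ≤ ∑ _x ∈ Ω, 6 ^ T :=
          Finset.sum_le_sum fun x _ => njg_fiber σ l T₁ hT i x
      _ = Ω.card * 6 ^ T := by rw [Finset.sum_const, smul_eq_mul]
  have h6 : (0 : ℝ) < 6 ^ T := by positivity
  have h2 : (0 : ℝ) < 2 ^ l := by positivity
  have hreal : ((Ω.filter (fun x => NJG K o σ l T₁ i x)).card : ℝ) * 6 ^ T * 2 ^ l
      ≤ Ω.card * 6 ^ T := by exact_mod_cast hnat
  have h3 : ((Ω.filter (fun x => NJG K o σ l T₁ i x)).card : ℝ) * 2 ^ l ≤ Ω.card := by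
    have : (((Ω.filter (fun x => NJG K o σ l T₁ i x)).card : ℝ) * 2 ^ l) * 6 ^ T
        ≤ Ω.card * 6 ^ T := by linarith
    exact le_of_mul_le_mul_right this h6
  have h4 : ((Ω.filter (fun x => NJG K o σ l T₁ i x)).card : ℝ) ≤ (1 / 2) ^ l * Ω.card := by
    rw [one_div, inv_pow, inv_mul_eq_div, le_div_iff₀ h2]
    exact h3
  exact h4

end MP34e
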