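import Pool.Agent.Work.MP_34e428_co.LFinalJ
import Pool.Agent.Work.MP_34e428_co.ZAS
import Pool.Agent.Work.MP_34e428_co.ZCA
import Pool.Agent.Work.MP_34e428_co.ZCP0
import Pool.Agent.Work.MP_34e428_co.ZRT
import Pool.Agent.Work.MP_34e428_co.ZRF
import Pool.Agent.Work.MP_34e428_co.ZRU
import Pool.Agent.Work.MP_34e428_co.ZVG
import Pool.Agent.Work.MP_34e428_co.ZVJ
import Pool.Agent.Work.MP_34e428_co.ZLoc3

/-! Exact order of the zombie number of the toroidal grid: assembly. -/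

set_option autoImplicit false

open Finset
open scoped Classical

namespace MP34e

theorem card_SpZ {n K o : ℕ} (T : ℕ) (hn : n + o = 2 * K + 1) :
    ((SpZ K o T).card : ℝ) = (n : ℝ) ^ 2 * (2 ^ T * 6 ^ T) := card_Sp T hn

/-- probability of a bad zombie -/
noncomputable def epsZ (n K L B S₁ S₂ T : ℕ) : ℝ :=
  (60000 * (L : ℝ) + 1) ^ 2 / (n : ℝ) ^ 2 +
    ((T : ℝ) + 1) ^ 2 * (2 * Real.exp (-((L : ℝ) / 25))) +
    ((T : ℝ) + 1) ^ 2 * (2 * Real.exp (-((B : ℝ) ^ 2 / (2 * ((4 * K : ℕ) : ℝ))))) +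
    ((T : ℝ) + 1) * (1 / 2) ^ (S₁ / (2 * (B + 8000 * L + 100 + 2) ^ 2)) +
    ((T : ℝ) + 1) * (1 / 2) ^ (S₂ / (2 * (3 * K + 2) ^ 2))

theorem badZ_iff {K L B S₁ S₂ T : ℕ} {ω : (ℤ × ℤ) × ((Fin T → Bool) × (Fin T → Fin 6))} :
    BadZ K L B S₁ S₂ T ω ↔ BadJ K L (1000 * L) B S₁ S₂ T ω := by
  unfold BadZ BadJ
  rw [show 8 * (1000 * L) = 8000 * L by ring,
    show (30 : ℤ) * ((1000 * L : ℕ) : ℤ) = 30000 * L by push_cast; ring]

theorem epsZ_eq (n K L B S₁ S₂ T : ℕ) :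
    epsJ n K L (1000 * L) B S₁ S₂ T = epsZ n K L B S₁ S₂ T := by
  unfold epsJ epsZ
  rw [show 8 * (1000 * L) = 8000 * L by ring,
    show (60 : ℝ) * ((1000 * L : ℕ) : ℝ) = 60000 * L by push_cast; ring]

theorem count_BadZ {n K o L B S₁ S₂ T : ℕ} (hn : n + o = 2 * K + 1) (hn0 : 0 < n)
    (hK : 1 ≤ K) :
    (((SpZ K o T).filter (BadZ K L B S₁ S₂ T)).card : ℝ) ≤
      epsZ n K L B S₁ S₂ T * (SpZ K o T).card := by
  have h1 := count_BadJ (L₀ := L) (R := 1000 * L) (B := B) (S₁ := S₁) (S₂ := S₂) (T := T)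
    hn hn0 hK
  rw [epsZ_eq] at h1
  have h2 : (SpZ K o T).filter (BadZ K L B S₁ S₂ T) =
      (Sp K o T).filter (BadJ K L (1000 * L) B S₁ S₂ T) := by
    show (Sp K o T).filter _ = _
    apply Finset.filter_congr
    intro ω _
    exact badZ_iff
  rw [h2]
  exact h1

/-- many new near zombies in the window `[a, u]` -/
def ManyZ (K o L B S₁ S₂ T m : ℕ) {k : ℕ} (a u : ℕ)
    (x : Fin k → (ℤ × ℤ) × ((Fin T → Bool) × (Fin T → Fin 6))) : Prop :=
  (∀ i, ¬ BadZ K L B S₁ S₂ T (x i)) ∧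
      (∀ s ≤ u, ∀ i, 2 ≤ ds (((zst L univ).run K o (cZ x) (JZ K x) (pZ x) s).1 i)) ∧
      Adm L ((zst L univ).pth K o (cZ x) (JZ K x) (pZ x)) u ∧
      m < (univ.filter (fun i : Fin k =>
        (∀ r < a, ¬ infl L ((zst L univ).mid K o (cZ x) (JZ K x) (pZ x) r i)) ∧
        ∃ s, a ≤ s ∧ s ≤ u ∧
          near3 (((zst L univ).run K o (cZ x) (JZ K x) (pZ x) s).1 i))).card

theorem count_ManyZ {n K o k L m B S₁ S₂ T : ℕ} {C₁ : ℝ} (hC : 0 < C₁)
    (hfix : ∀ (e : ℕ → Bool) (a u : ℕ), a ≤ u → u ≤ a + 2000 * L → u ≤ T → Adm L e u →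
      (((SpZ K o T).filter (fun ω => ¬ BadZ K L B S₁ S₂ T ω ∧ NearP K o e a u ω)).card : ℝ) ≤
        C₁ * L * Real.sqrt K * (2 ^ T * 6 ^ T))
    (hn : n + o = 2 * K + 1) (hn0 : 0 < n) {a u : ℕ} (hau : a ≤ u) (hua : u ≤ a + 2000 * L)
    (huT : u ≤ T) :
    (((Fintype.piFinset (fun _ : Fin k => SpZ K o T)).filter
      (ManyZ K o L B S₁ S₂ T m a u)).card : ℝ) ≤
      (k.choose (m + 1)) * 2 ^ (2000 * L + 1) * (C₁ * L * Real.sqrt K / (n : ℝ) ^ 2) ^ (m + 1) *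
        ((SpZ K o T).card : ℝ) ^ k := by
  have h1 := tuple_count (K := K) (o := o) (k := k) (L := L) (m := m) (T := T) (a := a) (u := u)
    (fun ω => ¬ BadZ K L B S₁ S₂ T ω) (C₁ * L * Real.sqrt K * (2 ^ T * 6 ^ T)) (by positivity)
    (fun e he => by convert hfix e a u hau hua huT he) hau
  refine (le_of_eq ?_).trans (h1.trans ?_)
  · congr!
  have hnR : (0 : ℝ) < n := by exact_mod_cast hn0
  rcases lt_or_ge k (m + 1) with hk | hk
  · rw [Nat.choose_eq_zero_of_lt hk]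
    simp
  · have e1 : C₁ * L * Real.sqrt K * (2 ^ T * 6 ^ T) =
        (C₁ * L * Real.sqrt K / (n : ℝ) ^ 2) * ((SpZ K o T).card : ℝ) := by
      rw [card_SpZ T hn]
      field_simp
    rw [e1, mul_pow]
    have e2 : ((SpZ K o T).card : ℝ) ^ k = ((SpZ K o T).card : ℝ) ^ (m + 1) *
        ((SpZ K o T).card : ℝ) ^ (k - (m + 1)) := by
      rw [← pow_add]
      congr 1
      omega
    rw [e2]
    have e3 : (2 : ℝ) ^ (u + 1 - a) ≤ 2 ^ (2000 * L + 1) :=
      pow_le_pow_right₀ (by norm_num) (by omega)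
    have e4 : 0 ≤ C₁ * L * Real.sqrt K / (n : ℝ) ^ 2 := by positivity
    calc (k.choose (m + 1) : ℝ) * 2 ^ (u + 1 - a) *
          ((C₁ * L * Real.sqrt K / (n : ℝ) ^ 2) ^ (m + 1) * ((SpZ K o T).card : ℝ) ^ (m + 1)) *
          ((SpZ K o T).card : ℝ) ^ (k - (m + 1))
        ≤ (k.choose (m + 1) : ℝ) * 2 ^ (2000 * L + 1) *
          ((C₁ * L * Real.sqrt K / (n : ℝ) ^ 2) ^ (m + 1) * ((SpZ K o T).card : ℝ) ^ (m + 1)) *
          ((SpZ K o T).card : ℝ) ^ (k - (m + 1)) := by gcongr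
      _ = _ := by ring

theorem count_ManyZ' {n K o k L m B S₁ S₂ T : ℕ} {C₁ : ℝ} (hC : 0 < C₁)
    (hfix : ∀ (e : ℕ → Bool) (a u : ℕ), a ≤ u → u ≤ a + 2000 * L → u ≤ T → Adm L e u →
      (((SpZ K o T).filter (fun ω => ¬ BadZ K L B S₁ S₂ T ω ∧ NearP K o e a u ω)).card : ℝ) ≤
        C₁ * L * Real.sqrt K * (2 ^ T * 6 ^ T))
    (hn : n + o = 2 * K + 1) (hn0 : 0 < n) :
    (((Fintype.piFinset (fun _ : Fin k => SpZ K o T)).filter
      (fun x => ∃ a u, a ≤ u ∧ u ≤ a + 2000 * L ∧ u ≤ T ∧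
        ManyZ K o L B S₁ S₂ T m a u x)).card : ℝ) ≤
      ((T : ℝ) + 1) ^ 2 * ((k.choose (m + 1)) * 2 ^ (2000 * L + 1) *
        (C₁ * L * Real.sqrt K / (n : ℝ) ^ 2) ^ (m + 1)) * ((SpZ K o T).card : ℝ) ^ k := by
  set JJ := (range (T + 1) ×ˢ range (T + 1)).filter
    (fun au : ℕ × ℕ => au.1 ≤ au.2 ∧ au.2 ≤ au.1 + 2000 * L ∧ au.2 ≤ T) with hJJ
  have h1 := card_filter_exists_le (Fintype.piFinset (fun _ : Fin k => SpZ K o T)) JJ
    (fun au x => ManyZ K o L B S₁ S₂ T m au.1 au.2 x)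
    ((k.choose (m + 1)) * 2 ^ (2000 * L + 1) * (C₁ * L * Real.sqrt K / (n : ℝ) ^ 2) ^ (m + 1) *
        ((SpZ K o T).card : ℝ) ^ k) (fun au hau => by
      rw [hJJ, mem_filter] at hau
      exact count_ManyZ hC hfix hn hn0 hau.2.1 hau.2.2.1 hau.2.2.2)
    (fun x => ∃ a u, a ≤ u ∧ u ≤ a + 2000 * L ∧ u ≤ T ∧ ManyZ K o L B S₁ S₂ T m a u x) (by
      rintro x ⟨a, u, h1, h2, h3, h4⟩
      refine ⟨(a, u), ?_, h4⟩
      rw [hJJ, mem_filter, mem_product, mem_range, mem_range]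
      exact ⟨⟨by simp only; omega, by simp only; omega⟩, h1, h2, h3⟩)
  have h2 : (JJ.card : ℝ) ≤ ((T : ℝ) + 1) ^ 2 := by
    have h3 := Finset.card_filter_le (range (T + 1) ×ˢ range (T + 1))
      (fun au : ℕ × ℕ => au.1 ≤ au.2 ∧ au.2 ≤ au.1 + 2000 * L ∧ au.2 ≤ T)
    rw [← hJJ, card_product, card_range] at h3
    calc (JJ.card : ℝ) ≤ (((T + 1) * (T + 1) : ℕ) : ℝ) := by exact_mod_cast h3
      _ = ((T : ℝ) + 1) ^ 2 := by push_cast; ring
  have h3 : 0 ≤ (k.choose (m + 1) : ℝ) * 2 ^ (2000 * L + 1) *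
      (C₁ * L * Real.sqrt K / (n : ℝ) ^ 2) ^ (m + 1) * ((SpZ K o T).card : ℝ) ^ k := by
    positivity
  refine h1.trans ((mul_le_mul_of_nonneg_right h2 h3).trans (le_of_eq ?_))
  ring

/-- the game with `k` zombies is won with probability at least `3 / 4` -/
theorem surv_ge34Z {n K o k L m B S₁ TN S₂ l T : ℕ} [NeZero n] {C₁ : ℝ} (hC₁ : 0 < C₁)
    (hfix : ∀ (e : ℕ → Bool) (a u : ℕ), a ≤ u → u ≤ a + 2000 * L → u ≤ T → Adm L e u →
      (((SpZ K o T).filter (fun ω => ¬ BadZ K L B S₁ S₂ T ω ∧ NearP K o e a u ω)).card : ℝ) ≤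
        C₁ * L * Real.sqrt K * (2 ^ T * 6 ^ T))
    (hL : L = 16 * m) (hn : n + o = 2 * K + 1)
    (ho : o ≤ 1) (h1 : 100 ≤ m) (h5 : 500000 * L + 10 * B + 1000 ≤ K) (h6 : S₁ + 8 * K ≤ TN)
    (h7 : TN + (l + 1) * (S₂ + 1) + 30 * K ≤ T)
    (h8 : (k : ℝ) * epsZ n K L B S₁ S₂ T +
        ((T : ℝ) + 1) ^ 2 * ((k.choose (m + 1)) * 2 ^ (2000 * L + 1) *
          (C₁ * L * Real.sqrt K / (n : ℝ) ^ 2) ^ (m + 1)) +
        ((T : ℝ) + 1) ^ 2 * (1 / 2) ^ (m + 2) +
        (k : ℝ) ^ 3 * ((TN : ℝ) + 1) * (2 * ((12000 * L : ℕ) : ℝ) + 1) ^ 2 *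
          ((200 * (((1000 * L : ℕ) : ℝ) + 4)) ^ 2 / (n : ℝ) ^ 2) ^ 3 +
        (k : ℝ) * (1 / 2) ^ l ≤ 1 / 4) : 3 / 4 ≤ surv (tor n) k := by
  have hn0 : 0 < n := Nat.pos_of_ne_zero (NeZero.ne n)
  have hnR : (0 : ℝ) < n := by exact_mod_cast hn0
  refine le_trans ?_ (surv_geG hn ho (by omega) (zst L univ) T (k := k))
  set S := SpZ K o T with hS
  have hSdef : S = boxJ K o ×ˢ (univ : Finset ((Fin T → Bool) × (Fin T → Fin 6))) := rfl
  set X := Fintype.piFinset (fun _ : Fin k => S) with hX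
  have hXc : (X.card : ℝ) = (S.card : ℝ) ^ k := by
    rw [hX, Fintype.card_piFinset]
    simp
  have hSc : (S.card : ℝ) = (n : ℝ) ^ 2 * (2 ^ T * 6 ^ T) := card_SpZ T hn
  rw [← hSc, le_div_iff₀ (by rw [hSc]; positivity)]
  -- the bad events
  set E0 := X.filter (fun x => ∃ i, BadZ K L B S₁ S₂ T (x i)) with hE0
  have b0 : (E0.card : ℝ) ≤ (k : ℝ) * (epsZ n K L B S₁ S₂ T * (S.card : ℝ) ^ k) :=
    ub_one S k (BadZ K L B S₁ S₂ T) _ (count_BadZ hn hn0 (by omega))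
  set E1 := X.filter (fun x => ∃ a u, a ≤ u ∧ u ≤ a + 2000 * L ∧ u ≤ T ∧
        ManyZ K o L B S₁ S₂ T m a u x) with hE1
  have b1 : (E1.card : ℝ) ≤ ((T : ℝ) + 1) ^ 2 * ((k.choose (m + 1)) * 2 ^ (2000 * L + 1) *
        (C₁ * L * Real.sqrt K / (n : ℝ) ^ 2) ^ (m + 1)) * (S.card : ℝ) ^ k :=
    count_ManyZ' hC₁ hfix hn hn0
  set E2 := X.filter (fun x => ∃ a b : ℕ, a ≤ b ∧ b + 1 ≤ T ∧
        8 * (m + 2) ≤ ((Ico a b).filter
          (blkZ ((zst L univ).mid K o (cZ x) (JZ K x) (pZ x)))).card ∧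
        ((Ico a b).filter (goodZ (cZ x)
          ((zst L univ).mid K o (cZ x) (JZ K x) (pZ x)))).card ≤ 2 * (m + 2)) with hE2
  have b2 : (E2.card : ℝ) ≤ ((T : ℝ) + 1) ^ 2 * (1 / 2) ^ (m + 2) * (S.card : ℝ) ^ k := by
    have := coin_count (K := K) (o := o) (k := k) (L := L) (M := m + 2) (T := T)
    rw [← hS, ← hX, hXc] at this
    exact this
  set E3 := X.filter (fun x => ∃ i j l, i ≠ j ∧ i ≠ l ∧ j ≠ l ∧
      ∃ s ≤ TN, ∃ s' ≤ TN, ∃ s'' ≤ TN, s ≤ s' + 12000 * L ∧ s' ≤ s + 12000 * L ∧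
        s ≤ s'' + 12000 * L ∧ s'' ≤ s + 12000 * L ∧
        FrJ K (1000 * L) T s (x i) ∧ FrJ K (1000 * L) T s' (x j) ∧
          FrJ K (1000 * L) T s'' (x l)) with hE3
  have b3 : (E3.card : ℝ) ≤ (k : ℝ) ^ 3 * ((TN : ℝ) + 1) *
      (2 * ((12000 * L : ℕ) : ℝ) + 1) ^ 2 *
      ((200 * (((1000 * L : ℕ) : ℝ) + 4)) ^ 2 / (n : ℝ) ^ 2) ^ 3 * (S.card : ℝ) ^ k := by
    apply ub_three' S k TN (12000 * L) (FrJ K (1000 * L) T)
    · positivity
    · intro s hs
      exact count_FrJ hn hn0 s (by omega)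
  set T₁ := TN + (l + 1) * (S₂ + 1) with hT₁
  set E4 : Fin k → Finset (Fin k → (ℤ × ℤ) × ((Fin T → Bool) × (Fin T → Fin 6))) := fun i =>
    X.filter (fun x => NoJump K o (cZ x i) (JZ K x i)
      ((zst L univ).pth K o (cZ x) (JZ K x) (pZ x)) (pZ x i) l T₁) with hE4
  have b4 : ∀ i, ((E4 i).card : ℝ) ≤ (1 / 2) ^ l * (S.card : ℝ) ^ k := by
    intro i
    have := count_NoJumpG (K := K) (o := o) (k := k) (zst L univ) T l T₁ (by omega) i
    rw [← hS, ← hX, hXc] at this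
    exact this
  set G := X.filter (fun x => (∀ t ≤ T, ∀ i, 2 ≤ ds (((zst L univ).run K o (cZ x) (JZ K x)
      (pZ x) t).1 i)) ∧
        ∀ i, SafeJ K o (((zst L univ).run K o (cZ x) (JZ K x) (pZ x) T).1 i)) with hG
  have hcov : X ⊆ G ∪ (E0 ∪ (E1 ∪ (E2 ∪ (E3 ∪ univ.biUnion E4)))) := by
    intro x hx
    by_contra hcc
    rw [mem_union, mem_union, mem_union, mem_union, mem_union] at hcc
    push Not at hcc
    obtain ⟨hg, he0, he1, he2, he3, he4⟩ := hcc
    apply hg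
    have hbox : ∀ i, (x i).1 ∈ boxJ K o := by
      intro i
      have := Fintype.mem_piFinset.mp hx i
      rw [hSdef, mem_product] at this
      exact this.1
    have hnb0 : ∀ i, ¬ BadZ K L B S₁ S₂ T (x i) := fun i h =>
      he0 (by rw [hE0, mem_filter]; exact ⟨hx, i, h⟩)
    have hbad : ∀ i, 30000 * (L : ℤ) < ds (x i).1 ∧ GC L (ex (x i).2.1) T ∧
        GB B (4 * K) (ex (x i).2.1) T ∧ ESC (B + 8 * (1000 * L) + 100) S₁ (ex (x i).2.1) T ∧
        ESC (3 * K) S₂ (ex (x i).2.1) T := by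
      intro i
      have := hnb0 i
      unfold BadZ at this
      push Not at this
      rw [show 8 * (1000 * L) = 8000 * L by ring]
      exact this
    set c : Fin k → ℕ → Bool := cZ x with hc
    set J : Fin k → ℕ → ℤ × ℤ → Bool := JZ K x with hJ
    set p : Fin k → ℤ × ℤ := pZ x with hp
    have hK1 : 1 ≤ K := by omega
    have hbal : BalP (1000 * L) ((zst L univ).pth K o c J p) T := by
      intro t _
      have e1 := zst_D L univ K o c J p t
      have e2 := zst_D_abs (show 1 ≤ L by omega) univ K o c J p t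
      rw [e1] at e2
      push_cast
      omega
    have hfst := Strat.run_fst (zst L univ) K o c J p
    have hfr : ∀ i : Fin k, ∀ s ≤ T,
        (∀ r ≤ s, 2 ≤ ds (((zst L univ).run K o c J p r).1 i)) →
        tF (((zst L univ).run K o c J p s).1 i) →
        ds (((zst L univ).run K o c J p s).1 i) ≤ 30000 * L →
        FrJ K (1000 * L) T s (x i) ∧ s ≤ TN := by
      intro i s hs hd hF hds
      have hbi := hbad i
      rw [hfst] at hF hds
      exact hist_frontJ (o := o) (ρ := 30 * (1000 * L)) (B := B) (S₁ := S₁) (T := T) (J := J i) ho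
        (show 4 ≤ 1000 * L by omega) (by omega) h6 hbal hbi.2.2.1 hbi.2.2.2.1 (hbox i) hs (by
          intro r hr
          have := hd r hr
          rw [hfst] at this
          exact this) hF (by push_cast; refine le_trans hds (by omega))
    have Y : ZLoc k K L m T true c (fun s => ((zst L univ).run K o c J p s).1)
        ((zst L univ).mid K o c J p) (fun s => (((zst L univ).run K o c J p s).2 : ZM))
        ((zst L univ).pth K o c J p) :=
      { hL := hL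
        hm := h1
        hK := by omega
        seq := fun i => seq_of_recJ hK1 ho
          (b := fun s => J i s (((zst L univ).run K o c J p s).1 i)) (hbox i) (fun s => rfl)
        mqn := by
          intro s i hs
          have h1 := ds_coord (((zst L univ).run K o c J p s).1 i)
          exact zj_of_lt K o _ _ _ (by omega) (by omega)
        mqf := by
          intro s i
          show ds (((zst L univ).run K o c J p s).1 i) ≤ ds (zj K o (c i s) _ _) + 1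
          rcases lt_or_ge (ds (((zst L univ).run K o c J p s).1 i)) 1 with h1 | h1
          · have := ds_nonneg (zj K o (c i s) (J i s (((zst L univ).run K o c J p s).1 i))
              (((zst L univ).run K o c J p s).1 i))
            omega
          · rw [ds_zj hK1 _ _ h1]; omega
        dir := fun s => rfl
        memD := fun s => rfl
        memph := fun s => rfl
        memtg := fun s => rfl
        m0 := rfl
        ini := fun i => (hbad i).1
        gc := fun i => (hbad i).2.1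
        hN := by
          intro u hu hd hadm a hau hua
          by_contra hcon
          rw [not_le] at hcon
          apply he1
          rw [hE1, mem_filter]
          exact ⟨hx, a, u, hau, hua, hu, hnb0, hd, hadm, hcon⟩
        hF := by
          intro u hu hd i j l hij hil hjl s s' s'' hs hs' hs'' g1 g2 g3 g4 hFF
          obtain ⟨⟨f1, f2⟩, ⟨f3, f4⟩, ⟨f5, f6⟩⟩ := hFF
          have k1 := hfr i s (hs.trans hu) (fun r hr => hd r (hr.trans hs) i) f1 f2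
          have k2 := hfr j s' (hs'.trans hu) (fun r hr => hd r (hr.trans hs') j) f3 f4
          have k3 := hfr l s'' (hs''.trans hu) (fun r hr => hd r (hr.trans hs'') l) f5 f6
          apply he3
          rw [hE3, mem_filter]
          exact ⟨hx, i, j, l, hij, hil, hjl, s, k1.2, s', k2.2, s'', k3.2, g1, g2, g3, g4,
            k1.1, k2.1, k3.1⟩
        hC := by
          intro a b hab _ hbT hblk
          by_contra hcon
          rw [not_lt] at hcon
          apply he2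
          rw [hE2, mem_filter]
          exact ⟨hx, a, b, hab, hbT, hblk, hcon⟩ }
    have hloc := (zloc_main Y T le_rfl).1
    rw [hG, mem_filter]
    refine ⟨hx, hloc, ?_⟩
    intro i
    have hb := hbad i
    show SafeJ K o (((zst L univ).run K o c J p T).1 i)
    rw [hfst]
    refine hist_safeJ (o := o) (R := 1000 * L) (ρ := 30 * (1000 * L)) (B := B) (S₁ := S₁)
      (S₂ := S₂) (TN := TN) (l := l)
      (J := J i) ho (by omega) (by omega) h6 h7 hbal hb.2.2.1 hb.2.2.2.1 hb.2.2.2.2 (hbox i) ?_ ?_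
    · intro s hs
      have := hloc s hs i
      rw [hfst] at this
      exact this
    · intro _ hnj
      apply he4
      rw [mem_biUnion]
      exact ⟨i, mem_univ _, by rw [hE4, mem_filter]; exact ⟨hx, hnj⟩⟩
  have b6 : (X.card : ℝ) ≤ G.card + (E0.card + (E1.card + (E2.card + (E3.card +
      ∑ i, ((E4 i).card : ℝ))))) := by
    have e1 := Finset.card_le_card hcov
    have e2 := Finset.card_union_le G (E0 ∪ (E1 ∪ (E2 ∪ (E3 ∪ univ.biUnion E4))))
    have e3 := Finset.card_union_le E0 (E1 ∪ (E2 ∪ (E3 ∪ univ.biUnion E4)))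
    have e4 := Finset.card_union_le E1 (E2 ∪ (E3 ∪ univ.biUnion E4))
    have e5 := Finset.card_union_le E2 (E3 ∪ univ.biUnion E4)
    have e6 := Finset.card_union_le E3 (univ.biUnion E4)
    have e7 : (univ.biUnion E4).card ≤ ∑ i, (E4 i).card := Finset.card_biUnion_le
    have e8 : X.card ≤ G.card + (E0.card + (E1.card + (E2.card + (E3.card +
      ∑ i, (E4 i).card)))) := by omega
    exact_mod_cast e8
  have b7 : ∑ i, ((E4 i).card : ℝ) ≤ (k : ℝ) * (1 / 2) ^ l * (S.card : ℝ) ^ k := by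
    calc ∑ i, ((E4 i).card : ℝ) ≤ ∑ _i : Fin k, (1 / 2) ^ l * (S.card : ℝ) ^ k :=
          Finset.sum_le_sum (fun i _ => b4 i)
      _ = (k : ℝ) * (1 / 2) ^ l * (S.card : ℝ) ^ k := by
          rw [Finset.sum_const, Finset.card_univ, Fintype.card_fin, nsmul_eq_mul]; ring
  have hSk : (0 : ℝ) ≤ (S.card : ℝ) ^ k := by positivity
  have b5 := mul_le_mul_of_nonneg_right h8 hSk
  rw [hXc] at b6
  rw [add_mul, add_mul, add_mul, add_mul] at b5
  linarith

theorem zombie_lowerZ : ∃ δ : ℝ, 0 < δ ∧ ∃ n₀ : ℕ, 3 ≤ n₀ ∧ ∀ n ≥ n₀,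
    δ * (n * Real.sqrt n) ≤ (zombieNumber (torus n) : ℝ) := by
  obtain ⟨C₁, hC₁, hfix⟩ := fixed_path_of count_NearA
  obtain ⟨δ, hδ, n₀, h⟩ := asymZ C₁ hC₁
  refine ⟨δ, hδ, max n₀ 3, le_max_right _ _, fun n hn => ?_⟩
  have hn3 : 3 ≤ n := (le_max_right _ _).trans hn
  have hn0 : n₀ ≤ n := (le_max_left _ _).trans hn
  have : NeZero n := ⟨by omega⟩
  by_contra hc
  push Not at hc
  obtain ⟨K, o, hKo, ho⟩ : ∃ K o : ℕ, n + o = 2 * K + 1 ∧ o ≤ 1 := by
    rcases Nat.even_or_odd' n with ⟨m, hm | hm⟩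
    · exact ⟨m, 1, by omega, le_rfl⟩
    · exact ⟨m, 0, by omega, by omega⟩
  obtain ⟨m, B, S₁, TN, S₂, l, T, h1, h2, h3, h4, h5, h6, h7⟩ :=
    h n hn0 K o (zombieNumber (torus n)) hKo ho hc.le
  have h9 := surv_ge34Z (n := n) (K := K) (o := o) (k := zombieNumber (torus n)) (L := 16 * m)
    (m := m) (B := B) (S₁ := S₁) (TN := TN) (S₂ := S₂) (l := l) (T := T) hC₁
    (fun e a u a1 a2 a3 a4 => hfix K o (16 * m) B S₁ S₂ TN T e a u ho (by omega) h2 h3 h5 h6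
      a1 a2 a3 a4) rfl hKo ho h1 h2 h3 h4 (by
      unfold epsZ
      exact h7)
  rw [← surv_torus] at h9
  have h10 : surv (torus n) (zombieNumber (torus n)) ≤ 1 / 2 :=
    Nat.sInf_mem (s := {k | surv (torus n) k ≤ 1 / 2}) ⟨5 * n ^ 2, surv_five hn3⟩
  linarith

/-- the zombie number of the toroidal grid is of order `n ^ (3 / 2)` -/
theorem order : ∃ c : ℝ, 0 < c ∧ ∀ n : ℕ, 3 ≤ n →
    c * (n * Real.sqrt n) ≤ (zombieNumber (torus n) : ℝ) ∧
    (zombieNumber (torus n) : ℝ) ≤ 1001 * (n * Real.sqrt n) := by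
  obtain ⟨δ, hδ, n₀, hn₀, h⟩ := zombie_lowerZ
  have hpos : (0 : ℝ) < n₀ * Real.sqrt n₀ := by
    have : (0 : ℝ) < n₀ := by exact_mod_cast (by omega : 0 < n₀)
    positivity
  refine ⟨min δ (1 / (n₀ * Real.sqrt n₀)), by positivity, fun n hn => ⟨?_, zombieNumber_le hn⟩⟩
  have hx0 : (0 : ℝ) ≤ n * Real.sqrt n := by positivity
  rcases le_or_gt n₀ n with hle | hlt
  · exact (mul_le_mul_of_nonneg_right (min_le_left _ _) hx0).trans (h n hle)
  · have h1 : (1 : ℝ) ≤ zombieNumber (torus n) := by exact_mod_cast zombie_pos hn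
    refine le_trans ?_ h1
    have hnn : (n : ℝ) ≤ n₀ := by exact_mod_cast hlt.le
    have h2 : (n : ℝ) * Real.sqrt n ≤ n₀ * Real.sqrt n₀ :=
      mul_le_mul hnn (Real.sqrt_le_sqrt hnn) (Real.sqrt_nonneg _) (by positivity)
    calc min δ (1 / (n₀ * Real.sqrt n₀)) * (n * Real.sqrt n) ≤
          1 / (n₀ * Real.sqrt n₀) * (n₀ * Real.sqrt n₀) :=
          mul_le_mul (min_le_right _ _) h2 hx0 (by positivity)
      _ = 1 := by field_simp

end MP34e
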