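import Pool.Agent.Work.MP_34e428_co.ZLocDefs
import Pool.Agent.Work.MP_34e428_co.LLoc3

/-! Exact order, local analysis: swap symmetry, modes and flips. -/

set_option autoImplicit false

open Finset

namespace MP34e

set_option linter.unusedSimpArgs false

/-! ### swapping the axes -/

/-- exchange of the axes on the memory -/
def swM (m : ZM) : ZM := ⟨-m.D, !m.ph, m.tg⟩

theorem EB_swap (p : ℤ × ℤ) : EB p.swap ↔ NB p := by
  unfold EB NB
  simp only [Prod.fst_swap, Prod.snd_swap]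
  rw [add_comm]

theorem NB_swap (p : ℤ × ℤ) : NB p.swap ↔ EB p := by
  unfold EB NB
  simp only [Prod.fst_swap, Prod.snd_swap]
  rw [add_comm]

theorem vis_swap (L : ℕ) (p : ℤ × ℤ) : vis L p.swap ↔ vis L p := by
  unfold vis
  simp only [Prod.fst_swap, Prod.snd_swap]
  constructor <;> rintro ⟨h1, h2, h3⟩ <;> exact ⟨h2, h1, by omega⟩

theorem zflip_sw (m : ZM) : zflip (swM m) ↔ zflip m := by
  unfold zflip swM
  rcases m with ⟨D, ph, tg⟩
  rcases ph with _ | _ <;> simp <;> constructor <;> intro h <;> linarith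

theorem zph_sw (m : ZM) : zph (swM m) = !zph m := by
  unfold zph
  by_cases h : zflip m
  · rw [if_pos h, if_pos ((zflip_sw m).2 h)]
    rfl
  · rw [if_neg h, if_neg (fun h2 => h ((zflip_sw m).1 h2))]
    rfl

theorem zok_sw (L : ℕ) {k : ℕ} (S : Finset (Fin k)) (b : Bool) (D : ℤ) (q : Fin k → ℤ × ℤ)
    (lv : ℤ) : zok L S (!b) (-D) (fun i => (q i).swap) lv ↔ zok L S b D q lv := by
  unfold zok
  constructor
  · intro h i hi hv
    have := h i hi ((vis_swap L (q i)).2 hv)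
    rcases b with _ | _ <;> simpa [zu] using this
  · intro h i hi hv
    have := h i hi ((vis_swap L (q i)).1 hv)
    rcases b with _ | _ <;> simpa [zu] using this

theorem zlev_sw (L : ℕ) {k : ℕ} (S : Finset (Fin k)) (b : Bool) (D : ℤ) (q : Fin k → ℤ × ℤ) :
    zlev L S (!b) (-D) (fun i => (q i).swap) = zlev L S b D q := by
  unfold zlev
  by_cases h1 : zok L S b D q (240 * L)
  · rw [if_pos h1, if_pos ((zok_sw L S b D q _).2 h1)]
  · rw [if_neg h1, if_neg (fun h => h1 ((zok_sw L S b D q _).1 h))]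
    by_cases h2 : zok L S b D q (180 * L)
    · rw [if_pos h2, if_pos ((zok_sw L S b D q _).2 h2)]
    · rw [if_neg h2, if_neg (fun h => h2 ((zok_sw L S b D q _).1 h))]

theorem ztg_sw (L : ℕ) {k : ℕ} (S : Finset (Fin k)) (m : ZM) (q : Fin k → ℤ × ℤ) :
    ztg L S (swM m) (fun i => (q i).swap) = ztg L S m q := by
  unfold ztg
  by_cases h : zflip m
  · rw [if_pos h, if_pos ((zflip_sw m).2 h)]
    exact zlev_sw L S (!m.ph) m.D q
  · rw [if_neg h, if_neg (fun h2 => h ((zflip_sw m).1 h2))]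
    rfl

theorem zdir_sw {L : ℕ} (hL : 1 ≤ L) {k : ℕ} (S : Finset (Fin k)) (m : ZM)
    (q : Fin k → ℤ × ℤ) : zdir L S (swM m) (fun i => (q i).swap) = !zdir L S m q := by
  unfold zdir
  have h1 : (swM m).D = -m.D := rfl
  have hL' : (1 : ℤ) ≤ L := by exact_mod_cast hL
  rw [h1, zph_sw]
  have hE : (∃ i ∈ S, EB (q i).swap) ↔ ∃ i ∈ S, NB (q i) := by
    constructor <;> rintro ⟨i, h, h'⟩
    · exact ⟨i, h, (EB_swap _).1 h'⟩
    · exact ⟨i, h, (EB_swap _).2 h'⟩
  have hN : (∃ i ∈ S, NB (q i).swap) ↔ ∃ i ∈ S, EB (q i) := by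
    constructor <;> rintro ⟨i, h, h'⟩
    · exact ⟨i, h, (NB_swap _).1 h'⟩
    · exact ⟨i, h, (NB_swap _).2 h'⟩
  by_cases h2 : 240 * (L : ℤ) ≤ m.D
  · rw [if_neg (by omega), if_pos (by omega), if_pos h2]; rfl
  by_cases h3 : m.D ≤ -(240 * (L : ℤ))
  · rw [if_pos (by omega), if_neg h2, if_pos h3]; rfl
  rw [if_neg (by omega), if_neg (by omega), if_neg h2, if_neg h3]
  rcases zph m with _ | _
  · simpa using hE
  · simpa using hN

/-- the round is played correctly: no blocked direction is chosen -/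
def okr {k : ℕ} (mq : ℕ → Fin k → ℤ × ℤ) (e : ℕ → Bool) (r : ℕ) : Prop :=
  ((∃ i, EB (mq r i)) → e r = false) ∧ ((∃ i, NB (mq r i)) → e r = true)

open scoped Classical in
/-- geometric hypotheses up to time `u`, invariant under the exchange of the axes -/
structure ZG (k K L T u : ℕ) (b0 : Bool) (c : Fin k → ℕ → Bool) (q mq : ℕ → Fin k → ℤ × ℤ)
    (mm : ℕ → ZM) (e : ℕ → Bool) : Prop where
  hL : 1600 ≤ L
  hK : 500000 * L ≤ K
  hu : u < T
  seq : ∀ i, Seq K (c i) e (fun s => q s i)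
  mqn : ∀ s i, ds (q s i) < K → mq s i = zm (c i s) (q s i)
  mqf : ∀ s i, ds (q s i) ≤ ds (mq s i) + 1
  dir : ∀ s, e s = zdir L univ (mm s) (mq s)
  memD : ∀ s, (mm (s + 1)).D = (mm s).D + (if e s then 1 else -1)
  memph : ∀ s, (mm (s + 1)).ph = zph (mm s)
  memtg : ∀ s, (mm (s + 1)).tg = ztg L univ (mm s) (mq s)
  m0 : mm 0 = ⟨0, b0, 240 * L⟩
  ini : ∀ i, 30000 * (L : ℤ) < ds (q 0 i)
  gc : ∀ i, GC L (c i) T
  safe : ∀ s ≤ u, ∀ i, 2 ≤ ds (q s i)
  ok : ∀ r < u, okr mq e r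
  fr : ∀ r < u, ∀ i, tF (q r i) → 23 * (L : ℤ) ≤ ds (q r i)
  hF : ∀ i j l : Fin k, i ≠ j → i ≠ l → j ≠ l →
    ∀ s s' s'' : ℕ, s ≤ u → s' ≤ u → s'' ≤ u → s ≤ s' + 12000 * L → s' ≤ s + 12000 * L →
      s ≤ s'' + 12000 * L → s'' ≤ s + 12000 * L →
      ¬ ((tF (q s i) ∧ ds (q s i) ≤ 30000 * L) ∧ (tF (q s' j) ∧ ds (q s' j) ≤ 30000 * L) ∧
        (tF (q s'' l) ∧ ds (q s'' l) ≤ 30000 * L))
  cnt : ∀ a b : ℕ, a ≤ b → b ≤ u → b ≤ a + 1000 * L → ((Ico a b).filter (blkZ mq)).card ≤ L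

variable {k K L T u : ℕ} {b0 : Bool} {c : Fin k → ℕ → Bool} {q mq : ℕ → Fin k → ℤ × ℤ}
    {mm : ℕ → ZM} {e : ℕ → Bool}

theorem tF_swap (p : ℤ × ℤ) : tF p.swap ↔ tF p := by
  unfold tF; simp only [Prod.fst_swap, Prod.snd_swap]; tauto

theorem blkZ_swap {k : ℕ} (mq : ℕ → Fin k → ℤ × ℤ) (s : ℕ) :
    blkZ (fun s i => (mq s i).swap) s ↔ blkZ mq s := by
  unfold blkZ
  constructor
  · rintro ⟨i, h⟩
    exact ⟨i, (h.imp (EB_swap _).1 (NB_swap _).1).symm⟩
  · rintro ⟨i, h⟩
    exact ⟨i, (h.symm.imp (EB_swap _).2 (NB_swap _).2)⟩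

theorem ZG.swap (X : ZG k K L T u b0 c q mq mm e) :
    ZG k K L T u (!b0) (fun i => nt (c i)) (fun s i => (q s i).swap) (fun s i => (mq s i).swap)
      (fun s => swM (mm s)) (nt e) where
  hL := X.hL
  hK := X.hK
  hu := X.hu
  seq := fun i => (X.seq i).swap
  mqn := fun s i h => by
    rw [ds_swap] at h
    show (mq s i).swap = zm (!(c i s)) (q s i).swap
    rw [X.mqn s i h, zm_swap]
  mqf := fun s i => by rw [ds_swap, ds_swap]; exact X.mqf s i
  dir := fun s => by
    rw [zdir_sw (by have := X.hL; omega), ← X.dir s]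
    rfl
  memD := fun s => by
    show -(mm (s + 1)).D = -(mm s).D + (if (!e s) = true then 1 else -1)
    rw [X.memD s]
    rcases e s with _ | _ <;> simp <;> ring
  memph := fun s => by
    show (!(mm (s + 1)).ph) = _
    rw [X.memph s, zph_sw]
  memtg := fun s => by
    show (mm (s + 1)).tg = _
    rw [X.memtg s, ztg_sw]
  m0 := by rw [X.m0]; simp [swM]
  ini := fun i => by rw [ds_swap]; exact X.ini i
  gc := fun i => (X.gc i).nt
  safe := fun s hs i => by rw [ds_swap]; exact X.safe s hs i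
  ok := fun r hr => by
    have h0 := X.ok r hr
    refine ⟨fun h => ?_, fun h => ?_⟩
    · obtain ⟨i, hi⟩ := h
      show (!e r) = false
      rw [h0.2 ⟨i, (EB_swap _).1 hi⟩]; rfl
    · obtain ⟨i, hi⟩ := h
      show (!e r) = true
      rw [h0.1 ⟨i, (NB_swap _).1 hi⟩]; rfl
  fr := fun r hr i h => by
    rw [ds_swap]; exact X.fr r hr i ((tF_swap _).1 h)
  hF := fun i j l h1 h2 h3 s s' s'' h4 h5 h6 h7 h8 h9 h10 => by
    rintro ⟨⟨a1, a2⟩, ⟨a3, a4⟩, ⟨a5, a6⟩⟩
    refine X.hF i j l h1 h2 h3 s s' s'' h4 h5 h6 h7 h8 h9 h10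
      ⟨⟨(tF_swap _).1 a1, ?_⟩, ⟨(tF_swap _).1 a3, ?_⟩, ⟨(tF_swap _).1 a5, ?_⟩⟩
    · rw [← ds_swap]; exact a2
    · rw [← ds_swap]; exact a4
    · rw [← ds_swap]; exact a6
  cnt := fun a b h1 h2 h3 => by
    classical
    have h4 : (Ico a b).filter (blkZ (fun s i => (mq s i).swap)) = (Ico a b).filter (blkZ mq) := by
      apply Finset.filter_congr
      intro s _
      exact blkZ_swap mq s
    have h5 := X.cnt a b h1 h2 h3
    convert h5

/-! ### the memory -/

theorem zlev_cases (L : ℕ) {k : ℕ} (S : Finset (Fin k)) (b : Bool) (D : ℤ) (q : Fin k → ℤ × ℤ) :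
    zlev L S b D q = 240 * L ∨ zlev L S b D q = 180 * L ∨ zlev L S b D q = 120 * L := by
  unfold zlev; split_ifs <;> simp

theorem ZG.tg_range (X : ZG k K L T u b0 c q mq mm e) (s : ℕ) :
    120 * (L : ℤ) ≤ (mm s).tg ∧ (mm s).tg ≤ 240 * L := by
  induction s with
  | zero => rw [X.m0]; constructor <;> show _ ≤ _ <;> simp only <;> omega
  | succ s ih =>
    rw [X.memtg s]
    unfold ztg
    split_ifs
    · rcases zlev_cases L univ (!(mm s).ph) (mm s).D (mq s) with h | h | h <;> rw [h] <;> omega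
    · exact ih

theorem ZG.D_abs (X : ZG k K L T u b0 c q mq mm e) (s : ℕ) :
    -(240 * (L : ℤ)) ≤ (mm s).D ∧ (mm s).D ≤ 240 * L := by
  induction s with
  | zero => rw [X.m0]; simp only; constructor <;> omega
  | succ s ih =>
    have hL := X.hL
    have h1 := X.memD s
    have h2 := X.dir s
    unfold zdir at h2
    split_ifs at h2 with h3 h4 h5
    · rw [h2] at h1; simp at h1; omega
    · rw [h2] at h1; simp at h1; omega
    · rcases he : e s with _ | _ <;> rw [he] at h1 <;> simp at h1 <;> omega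
    · rcases he : e s with _ | _ <;> rw [he] at h1 <;> simp at h1 <;> omega

/-- the mode used in round `s` -/
theorem ZG.next_ph (X : ZG k K L T u b0 c q mq mm e) (s : ℕ) : (mm (s + 1)).ph = zph (mm s) :=
  X.memph s

theorem ZG.D_ct (X : ZG k K L T u b0 c q mq mm e) {a b : ℕ} (hab : a ≤ b) :
    (mm b).D = (mm a).D + 2 * ct e a b - ((b : ℤ) - a) := by
  induction b, hab using Nat.le_induction with
  | base => simp [ct_self]
  | succ b hab ih =>
    rw [X.memD, ih, ct_succ e hab]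
    push_cast
    split_ifs <;> ring

/-- the survivor follows the mode unless the round is blocked -/
theorem ZG.follow (X : ZG k K L T u b0 c q mq mm e) (s : ℕ) (h : ¬ blkZ mq s) :
    e s = zph (mm s) := by
  have h1 := X.tg_range s
  have hL := X.hL
  have hE : ¬ ∃ i ∈ (univ : Finset (Fin k)), EB (mq s i) := by
    rintro ⟨i, _, hi⟩; exact h ⟨i, Or.inl hi⟩
  have hN : ¬ ∃ i ∈ (univ : Finset (Fin k)), NB (mq s i) := by
    rintro ⟨i, _, hi⟩; exact h ⟨i, Or.inr hi⟩
  rw [X.dir s]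
  unfold zdir
  split_ifs with h2 h3 h4
  · symm
    unfold zph zflip
    rcases hp : (mm s).ph with _ | _
    · rw [if_neg]
      rintro (⟨h5, _⟩ | ⟨_, h5⟩)
      · exact absurd h5 (by simp)
      · omega
    · rw [if_pos (Or.inl ⟨rfl, by omega⟩)]; rfl
  · symm
    unfold zph zflip
    rcases hp : (mm s).ph with _ | _
    · rw [if_pos (Or.inr ⟨rfl, by omega⟩)]; rfl
    · rw [if_neg]
      rintro (⟨_, h5⟩ | ⟨h5, _⟩)
      · omega
      · exact absurd h5 (by simp)
  · rw [h4]; simpa using hE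
  · have : zph (mm s) = false := by simpa using h4
    rw [this]
    simpa using hN

theorem card_ct_le (e : ℕ → Bool) (a b : ℕ) (S : Finset ℕ)
    (h : ∀ r, a ≤ r → r < b → e r = true → r ∈ S) : ct e a b ≤ S.card := by
  unfold ct
  have : (Ico a b).filter (fun t => e t = true) ⊆ S := by
    intro r hr
    rw [mem_filter, mem_Ico] at hr
    exact h r hr.1.1 hr.1.2 hr.2
  exact_mod_cast Finset.card_le_card this

open scoped Classical in
/-- in north mode there are at most `L` east moves -/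
theorem ZG.few_E (X : ZG k K L T u b0 c q mq mm e) {a b : ℕ} (hab : a ≤ b) (hb : b ≤ u)
    (hb' : b ≤ a + 1000 * L) (h : ∀ r, a ≤ r → r < b → zph (mm r) = false) : ct e a b ≤ L := by
  have h1 := X.cnt a b hab hb hb'
  refine (card_ct_le e a b ((Ico a b).filter (blkZ mq)) ?_).trans (by exact_mod_cast h1)
  intro r h2 h3 h4
  rw [mem_filter, mem_Ico]
  refine ⟨⟨h2, h3⟩, ?_⟩
  by_contra h5
  rw [X.follow r h5, h r h2 h3] at h4
  exact absurd h4 (by simp)

/-- in east mode there are at most `L` north moves -/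
theorem ZG.few_N (X : ZG k K L T u b0 c q mq mm e) {a b : ℕ} (hab : a ≤ b) (hb : b ≤ u)
    (hb' : b ≤ a + 1000 * L) (h : ∀ r, a ≤ r → r < b → zph (mm r) = true) :
    ((b : ℤ) - a) - ct e a b ≤ L := by
  have h1 := X.swap.few_E hab hb hb' (fun r h2 h3 => by
    show zph (swM (mm r)) = false
    rw [zph_sw, h r h2 h3]; rfl)
  rw [ct_nt e hab] at h1
  exact h1

/-- no flip in round `s + 1`: the mode does not change -/
theorem ZG.same (X : ZG k K L T u b0 c q mq mm e) {s : ℕ} (h : ¬ zflip (mm (s + 1))) :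
    zph (mm (s + 1)) = zph (mm s) ∧ (mm (s + 2)).tg = (mm (s + 1)).tg := by
  refine ⟨?_, ?_⟩
  · conv_lhs => unfold zph
    rw [if_neg h, X.memph s]
  · rw [X.memtg (s + 1)]
    unfold ztg
    rw [if_neg h]

theorem ZG.const (X : ZG k K L T u b0 c q mq mm e) {a b : ℕ} (hab : a ≤ b)
    (h : ∀ r, a < r → r ≤ b → ¬ zflip (mm r)) :
    zph (mm b) = zph (mm a) ∧ (mm (b + 1)).tg = (mm (a + 1)).tg := by
  induction b, hab using Nat.le_induction with
  | base => exact ⟨rfl, rfl⟩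
  | succ b hab ih =>
    have ih := ih (fun r h1 h2 => h r h1 (by omega))
    have h1 := X.same (h (b + 1) (by omega) le_rfl)
    exact ⟨h1.1.trans ih.1, h1.2.trans ih.2⟩

/-- after an east flip (or in east mode) the mode ends within `483 L` rounds -/
theorem ZG.flip_soon (X : ZG k K L T u b0 c q mq mm e) {w : ℕ} (hw : w + 483 * L ≤ u) :
    ∃ s, w < s ∧ s ≤ w + 483 * L ∧ zflip (mm s) := by
  by_contra hc
  push Not at hc
  have hL := X.hL
  have h1 : ∀ r, w ≤ r → r ≤ w + 483 * L → zph (mm r) = zph (mm w) := by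
    intro r h2 h3
    exact (X.const h2 (fun r' h4 h5 => hc r' h4 (by omega))).1
  have h2 := X.D_abs w
  have h3 := X.D_abs (w + 483 * L)
  have h4 := X.D_ct (show w ≤ w + 483 * L by omega)
  rcases hp : zph (mm w) with _ | _
  · have h5 := X.few_E (show w ≤ w + 483 * L by omega) hw (by omega)
      (fun r h6 h7 => by rw [h1 r h6 (by omega), hp])
    push_cast at *
    omega
  · have h5 := X.few_N (show w ≤ w + 483 * L by omega) hw (by omega)
      (fun r h6 h7 => by rw [h1 r h6 (by omega), hp])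
    push_cast at *
    omega

/-- the last flip before (or at) `s` -/
theorem last_flip (mm : ℕ → ZM) {s0 s : ℕ} (h0 : s0 ≤ s) (hf : zflip (mm s0)) :
    ∃ t, s0 ≤ t ∧ t ≤ s ∧ zflip (mm t) ∧ ∀ r, t < r → r ≤ s → ¬ zflip (mm r) := by
  induction s, h0 using Nat.le_induction with
  | base => exact ⟨s0, le_rfl, le_rfl, hf, fun r h1 h2 => by omega⟩
  | succ s h0 ih =>
    by_cases h : zflip (mm (s + 1))
    · exact ⟨s + 1, by omega, le_rfl, h, fun r h1 h2 => by omega⟩
    · obtain ⟨t, h1, h2, h3, h4⟩ := ih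
      refine ⟨t, h1, by omega, h3, fun r h5 h6 => ?_⟩
      rcases Nat.lt_or_ge s r with h7 | h7
      · have : r = s + 1 := by omega
        rw [this]; exact h
      · exact h4 r h5 h7

/-- the first flip after `t` -/
theorem first_flip (mm : ℕ → ZM) {t s : ℕ} (h0 : t < s) (hf : zflip (mm s)) :
    ∃ t', t < t' ∧ t' ≤ s ∧ zflip (mm t') ∧ ∀ r, t < r → r < t' → ¬ zflip (mm r) := by
  classical
  have hex : ∃ n, t < n ∧ zflip (mm n) := ⟨s, h0, hf⟩
  refine ⟨Nat.find hex, (Nat.find_spec hex).1, Nat.find_min' hex ⟨h0, hf⟩,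
    (Nat.find_spec hex).2, fun r h1 h2 h3 => ?_⟩
  exact Nat.find_min hex h2 ⟨h1, h3⟩

/-- at a flip into east mode `D` is at most `-120 L` -/
theorem ZG.flip_D (X : ZG k K L T u b0 c q mq mm e) {s : ℕ} (h : zflip (mm s)) :
    (zph (mm s) = true → (mm s).D ≤ -(mm s).tg) ∧ (zph (mm s) = false → (mm s).tg ≤ (mm s).D) := by
  have h1 : zph (mm s) = !(mm s).ph := by unfold zph; rw [if_pos h]
  rw [h1]
  unfold zflip at h
  rcases hp : (mm s).ph with _ | _ <;> rw [hp] at h <;> simp at h <;> simp <;> omega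

/-- two consecutive flips: an east mode `[t, t')` ends exactly at the level chosen at `t` -/
theorem ZG.mode_E (X : ZG k K L T u b0 c q mq mm e) {t t' : ℕ} (htt : t < t')
    (hf : zflip (mm t)) (hf' : zflip (mm t')) (hn : ∀ r, t < r → r < t' → ¬ zflip (mm r))
    (hE : zph (mm t) = true) :
    (mm t').D = (mm (t + 1)).tg ∧ (mm t').tg = (mm (t + 1)).tg ∧ zph (mm t') = false ∧
      t + 240 * L ≤ t' := by
  have hL := X.hL
  have h1 := (X.flip_D hf).1 hE
  have r1 := X.tg_range t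
  have r2 := X.tg_range (t + 1)
  -- constant on [t, t'-1]
  have h2 : ∀ r, t ≤ r → r < t' → zph (mm r) = true ∧ (mm (r + 1)).tg = (mm (t + 1)).tg ∧
      (mm (r + 1)).ph = true := by
    intro r h3 h4
    have h5 := X.const h3 (fun r' h6 h7 => hn r' h6 (by omega))
    exact ⟨h5.1.trans hE, h5.2, by rw [X.memph r, h5.1, hE]⟩
  -- D < tg before t'
  have h3 : ∀ r, t ≤ r → r < t' → (mm r).D < (mm (t + 1)).tg := by
    intro r h4 h5
    rcases Nat.eq_or_lt_of_le h4 with h6 | h6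
    · subst h6; omega
    · have h7 := hn r h6 h5
      have h8 := h2 (r - 1) (by omega) (by omega)
      have h9 : r - 1 + 1 = r := by omega
      rw [h9] at h8
      by_contra hc
      exact h7 (Or.inl ⟨h8.2.2, by omega⟩)
  have h4 := h2 (t' - 1) (by omega) (by omega)
  have h5 : t' - 1 + 1 = t' := by omega
  rw [h5] at h4
  have h6 := h3 (t' - 1) (by omega) (by omega)
  have h7 := X.memD (t' - 1)
  rw [h5] at h7
  have h8 : (mm (t + 1)).tg ≤ (mm t').D := by
    unfold zflip at hf'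
    rw [h4.2.2] at hf'
    simp at hf'
    omega
  have h9 : (mm t').D = (mm (t + 1)).tg := by
    rcases he : e (t' - 1) with _ | _ <;> rw [he] at h7 <;> simp at h7 <;> omega
  have h10 : zph (mm t') = false := by
    unfold zph
    rw [if_pos hf', h4.2.2]; rfl
  refine ⟨h9, h4.2.1, h10, ?_⟩
  have h11 := X.D_ct htt.le
  have h12 := ct_le e htt.le
  zify
  omega

end MP34e
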