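import Pool.Agent.Work.MP_34e428_co.ZLoc1

/-! Exact order, local analysis: positions of near zombies and of front zombies. -/

set_option autoImplicit false

open Finset

namespace MP34e

set_option linter.unusedSimpArgs false

theorem tS_swap (p : ℤ × ℤ) : tS p.swap ↔ tS p := by
  unfold tS; simp only [Prod.fst_swap, Prod.snd_swap]; tauto

theorem tA_swap (p : ℤ × ℤ) : tA p.swap ↔ tB p := by
  unfold tA tB; simp only [Prod.fst_swap, Prod.snd_swap]; tauto

theorem tB_swap (p : ℤ × ℤ) : tB p.swap ↔ tA p := by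
  unfold tA tB; simp only [Prod.fst_swap, Prod.snd_swap]; tauto

theorem not_tS_of_A {p : ℤ × ℤ} (h : tA p) : ¬ tS p := by unfold tA tS at *; omega
theorem not_tB_of_A {p : ℤ × ℤ} (h : tA p) : ¬ tB p := by unfold tA tB at *; omega
theorem not_tF_of_A {p : ℤ × ℤ} (h : tA p) : ¬ tF p := by unfold tA tF at *; omega
theorem not_tS_of_F {p : ℤ × ℤ} (h : tF p) : ¬ tS p := by unfold tF tS at *; omega
theorem not_tA_of_F {p : ℤ × ℤ} (h : tF p) : ¬ tA p := by unfold tF tA at *; omega
theorem not_tB_of_F {p : ℤ × ℤ} (h : tF p) : ¬ tB p := by unfold tF tB at *; omega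

/-- the history of a zombie of type A -/
theorem Seq.backA {K : ℕ} {h e : ℕ → Bool} {q : ℕ → ℤ × ℤ} (hq : Seq K h e q) {a s : ℕ}
    (has : a ≤ s) (hd : ∀ r, a ≤ r → r ≤ s → 2 ≤ ds (q r)) (hK : ds (q a) < K)
    (hA : tA (q s)) : (∀ r, a ≤ r → r ≤ s → tA (q r)) ∨
      ∃ v, a < v ∧ v ≤ s ∧ (∀ r, a ≤ r → r < v → tF (q r)) ∧
        ∀ r, v ≤ r → r ≤ s → tA (q r) := by
  have hK' : ∀ r, a ≤ r → r ≤ s → ds (q r) < K := fun r h1 h2 => by
    have := (hq.ds_back h1 (fun v h3 h4 => by have := hd v h3 (h4.trans h2); omega)).1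
    omega
  rcases types (q a) with ht | ht | ht | ht
  · right
    rcases hq.leaveF has hd hK ht with h1 | ⟨v, h1, h2, h3, h4⟩
    · exact absurd (h1 s has le_rfl) (not_tF_of_A hA)
    · refine ⟨v, h1, h2, h3, ?_⟩
      have hdv : ∀ r, v ≤ r → r ≤ s → 2 ≤ ds (q r) := fun r h5 h6 => hd r (by omega) h6
      rcases h4 with h4 | h4
      · rcases hq.stayA h2 hdv (hK' v (by omega) h2) h4 with h5 | h5
        · exact absurd h5 (not_tS_of_A hA)
        · exact h5
      · exfalso
        rcases hq.stayB h2 hdv (hK' v (by omega) h2) h4 with h5 | h5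
        · exact not_tS_of_A hA h5
        · exact not_tB_of_A hA (h5 s h2 le_rfl)
  · left
    rcases hq.stayA has hd hK ht with h5 | h5
    · exact absurd h5 (not_tS_of_A hA)
    · exact h5
  · exfalso
    rcases hq.stayB has hd hK ht with h5 | h5
    · exact not_tS_of_A hA h5
    · exact not_tB_of_A hA (h5 s has le_rfl)
  · exact absurd (hq.stayS has hd hK ht) (not_tS_of_A hA)

/-- the history of a front zombie -/
theorem Seq.backF {K : ℕ} {h e : ℕ → Bool} {q : ℕ → ℤ × ℤ} (hq : Seq K h e q) {a s : ℕ}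
    (has : a ≤ s) (hd : ∀ r, a ≤ r → r ≤ s → 2 ≤ ds (q r)) (hK : ds (q a) < K)
    (hA : tF (q s)) : ∀ r, a ≤ r → r ≤ s → tF (q r) := by
  intro r h1 h2
  have hK' : ds (q r) < K := by
    have := (hq.ds_back h1 (fun v h3 h4 => by have := hd v h3 (h4.trans h2); omega)).1
    omega
  have hdv : ∀ v, r ≤ v → v ≤ s → 2 ≤ ds (q v) := fun v h5 h6 => hd v (by omega) h6
  rcases types (q r) with ht | ht | ht | ht
  · exact ht
  · exfalso
    rcases hq.stayA h2 hdv hK' ht with h5 | h5
    · exact not_tS_of_F hA h5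
    · exact not_tA_of_F hA (h5 s h2 le_rfl)
  · exfalso
    rcases hq.stayB h2 hdv hK' ht with h5 | h5
    · exact not_tS_of_F hA h5
    · exact not_tB_of_F hA (h5 s h2 le_rfl)
  · exact absurd (hq.stayS h2 hdv hK' ht) (not_tS_of_F hA)

/-- the distance of a zombie of type B only decreases at north moves -/
theorem Seq.dB {K : ℕ} {h e : ℕ → Bool} {q : ℕ → ℤ × ℤ} (hq : Seq K h e q) {a u : ℕ}
    (hau : a ≤ u) (hA : ∀ r, a ≤ r → r < u → tB (q r)) (hK : ∀ r, a ≤ r → r < u → ds (q r) < K) :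
    ds (q a) ≤ ds (q u) + 2 * (((u : ℤ) - a) - ct e a u) := by
  induction u, hau using Nat.le_induction with
  | base => simp [ct_self]
  | succ u hau ih =>
    have ih := ih (fun r h1 h2 => hA r h1 (by omega)) (fun r h1 h2 => hK r h1 (by omega))
    obtain ⟨h1, h2⟩ := hq.near u (hK u hau (by omega))
    have hA' := hA u hau (by omega)
    rw [ct_succ e hau]
    push_cast
    have hB := ds_B hA'
    unfold tB at hA'
    have hz : 0 ≤ (zm (h u) (q u)).1 ∧ (zm (h u) (q u)).2 ≤ 0 ∧
        (zm (h u) (q u)).1 - (zm (h u) (q u)).2 = (q u).1 - (q u).2 - 1 := by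
      rcases zm_cases (h u) (q u) with ⟨a1, a2, h3⟩ | ⟨a1, a2, h3⟩ | ⟨a1, a2, h3⟩ | ⟨a1, a2, h3⟩ |
        ⟨a1, a2, h3⟩ <;> rw [h3] <;> simp only <;> omega
    obtain ⟨z1, z2, z3⟩ := hz
    have key : ds (q u) ≤ ds (q (u + 1)) + 2 * (1 - (if e u then 1 else 0)) := by
      rw [hB]
      unfold ds
      rw [h1, h2]
      rcases he : e u with _ | _
      · simp only [Bool.false_eq_true, if_false, add_zero]
        have b1 := le_abs_self (zm (h u) (q u)).1
        have b2 := neg_abs_le ((zm (h u) (q u)).2 + 1)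
        omega
      · simp only [if_true, add_zero]
        have b1 := le_abs_self ((zm (h u) (q u)).1 + 1)
        have b2 := neg_abs_le ((zm (h u) (q u)).2)
        omega
    linarith

variable {k K L T u : ℕ} {b0 : Bool} {c : Fin k → ℕ → Bool} {q mq : ℕ → Fin k → ℤ × ℤ}
    {mm : ℕ → ZM} {e : ℕ → Bool}

theorem ZG.two (X : ZG k K L T u b0 c q mq mm e) {a s : ℕ} (hs : s ≤ u) (i : Fin k) :
    ∀ r, a ≤ r → r ≤ s → 2 ≤ ds (q r i) := fun r _ h2 => X.safe r (h2.trans hs) i

theorem ZG.back (X : ZG k K L T u b0 c q mq mm e) {a s : ℕ} (has : a ≤ s) (hs : s ≤ u)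
    (i : Fin k) : ds (q s i) ≤ ds (q a i) ∧ ds (q a i) ≤ ds (q s i) + 2 * ((s : ℤ) - a) :=
  (X.seq i).ds_back has (fun r h1 h2 => by have := X.two hs i r h1 h2; omega)

theorem ZG.num (X : ZG k K L T u b0 c q mq mm e) :
    (1600 : ℤ) ≤ L ∧ 500000 * (L : ℤ) ≤ K :=
  ⟨by exact_mod_cast X.hL, by exact_mod_cast X.hK⟩

/-- late in a north mode there are no near zombies of type A -/
theorem ZG.noA_late (X : ZG k K L T u b0 c q mq mm e) {a s : ℕ} (ha : a + 4 * L = s)
    (hs : s ≤ u) (h : ∀ r, a ≤ r → r < s → zph (mm r) = false) (i : Fin k)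
    (hA : tA (q s i)) : 3 < ds (q s i) := by
  obtain ⟨n1, n2⟩ := X.num
  by_contra hc
  have has : a ≤ s := by omega
  have hb := X.back has hs i
  have hsa : (s : ℤ) - a = 4 * L := by omega
  have hKa : ds (q a i) < K := by omega
  have hE := X.few_E has hs (by omega) h
  rcases (X.seq i).backA has (X.two hs i) hKa hA with h1 | ⟨v, h1, h2, h3, h4⟩
  · have h5 := (X.seq i).qA has (fun r h6 h7 => h1 r h6 h7.le) (fun r h6 h7 => by
      have := X.back h6 (h7.le.trans hs) i; omega)
    have h6 := (X.gc i).lin has (hs.trans X.hu.le)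
    have h7 := (h1 a le_rfl has).2
    have h8 := ds_A hA
    unfold tA at hA
    rw [hsa] at h6
    try simp only at h5 h7
    omega
  · have h5 := X.fr (v - 1) (by omega) i (h3 (v - 1) (by omega) (by omega))
    have h6 := X.back (show v - 1 ≤ s by omega) hs i
    omega

/-- early in a north mode there are no near zombies of type B -/
theorem ZG.noB_early (X : ZG k K L T u b0 c q mq mm e) {a t0 s : ℕ} (ha : a + 10 * L = t0)
    (ht : t0 ≤ s) (hs' : s ≤ t0 + 4 * L) (hs : s ≤ u)
    (h : ∀ r, a ≤ r → r < t0 → zph (mm r) = true) (i : Fin k)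
    (hB : tB (q s i)) : 3 < ds (q s i) := by
  obtain ⟨n1, n2⟩ := X.num
  by_contra hc
  have has : a ≤ s := by omega
  have hb := X.back has hs i
  have hKa : ds (q a i) < K := by omega
  have hN := X.few_N (show a ≤ t0 by omega) (ht.trans hs) (by omega) h
  have e1 := ct_add e (show a ≤ t0 by omega) ht
  have e2 := ct_nonneg e t0 s
  have hBs : tA ((fun s => (q s i).swap) s) := (tA_swap _).2 hB
  rcases (X.seq i).swap.backA has (fun r h1 h2 => by rw [ds_swap]; exact X.two hs i r h1 h2)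
    (by rw [ds_swap]; exact hKa) hBs with h1 | ⟨v, h1, h2, h3, h4⟩
  · have h1' : ∀ r, a ≤ r → r ≤ s → tB (q r i) := fun r h5 h6 => (tA_swap _).1 (h1 r h5 h6)
    have h5 := (X.seq i).qB has (fun r h6 h7 => h1' r h6 h7.le) (fun r h6 h7 => by
      have := X.back h6 (h7.le.trans hs) i; omega)
    have h6 := (X.gc i).lin has (hs.trans X.hu.le)
    have h7 := (h1' a le_rfl has).1
    have h8 := ds_B hB
    unfold tB at hB
    try simp only at h5 h7
    omega
  · have hF : tF (q (v - 1) i) := (tF_swap _).1 (h3 (v - 1) (by omega) (by omega))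
    have h5 := X.fr (v - 1) (by omega) i hF
    have h6 := X.back (show v - 1 ≤ v by omega) (h2.trans hs) i
    have hBv : ∀ r, v ≤ r → r ≤ s → tB (q r i) := fun r h5 h6 => (tA_swap _).1 (h4 r h5 h6)
    have h7 := (X.seq i).dB h2 (fun r h8 h9 => hBv r h8 h9.le) (fun r h8 h9 => by
      have := X.back (show a ≤ r by omega) (h9.le.trans hs) i; omega)
    try simp only at h7
    -- north moves in [v, s)
    have h8 : ((s : ℤ) - v) - ct e v s ≤ 5 * L := by
      rcases Nat.lt_or_ge v t0 with h9 | h9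
      · have h10 := X.few_N (show v ≤ t0 by omega) (ht.trans hs) (by omega)
          (fun r h11 h12 => h r (by omega) h12)
        have h11 := ct_add e (show v ≤ t0 by omega) ht
        omega
      · have := ct_nonneg e v s
        omega
    omega

/-- visible zombies are front zombies -/
theorem ZG.vis_F (X : ZG k K L T u b0 c q mq mm e) {t : ℕ} {i : Fin k}
    (h : vis L (mq t i)) : tF (q t i) ∧ ds (q t i) ≤ 2100 * L + 1 ∧ mq t i = zm (c i t) (q t i) := by
  obtain ⟨n1, n2⟩ := X.num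
  obtain ⟨h1, h2, h3⟩ := h
  have h4 : ds (mq t i) = -(mq t i).1 - (mq t i).2 := ds_F ⟨h1, h2⟩
  have h5 := X.mqf t i
  have h6 := X.mqn t i (by omega)
  refine ⟨zm_F (h := c i t) (by rw [← h6]; exact ⟨h1, h2⟩), by omega, h6⟩

/-- the level chosen at a flip is acceptable: at most two front zombies are visible -/
theorem ZG.zok_zlev (X : ZG k K L T u b0 c q mq mm e) {t : ℕ} (ht : t ≤ u) (b : Bool) (D : ℤ) :
    zok L univ b D (mq t) (zlev L univ b D (mq t)) := by
  obtain ⟨n1, n2⟩ := X.num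
  unfold zlev
  split_ifs with h1 h2
  · exact h1
  · exact h2
  · unfold zok at h1 h2 ⊢
    push Not at h1 h2
    obtain ⟨i, _, hi1, hi2⟩ := h1
    obtain ⟨j, _, hj1, hj2⟩ := h2
    intro l _ hl1
    by_contra hl2
    rw [not_le] at hl2
    have hij : i ≠ j := by
      rintro rfl
      rw [abs_lt] at hi2 hj2
      omega
    have hil : i ≠ l := by
      rintro rfl
      rw [abs_lt] at hi2 hl2
      omega
    have hjl : j ≠ l := by
      rintro rfl
      rw [abs_lt] at hj2 hl2
      omega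
    have gi := X.vis_F hi1
    have gj := X.vis_F hj1
    have gl := X.vis_F hl1
    exact X.hF i j l hij hil hjl t t t ht ht ht (by omega) (by omega) (by omega) (by omega)
      ⟨⟨gi.1, by omega⟩, ⟨gj.1, by omega⟩, ⟨gl.1, by omega⟩⟩

/-- previous flips: `t1 < t0` are the last two flips before `s` -/
theorem ZG.two_flips (X : ZG k K L T u b0 c q mq mm e) {s : ℕ} (hs : s ≤ u)
    (hs' : 2000 * L ≤ s) : ∃ t1 t0, t1 < t0 ∧ t0 ≤ s ∧ zflip (mm t1) ∧ zflip (mm t0) ∧
      (∀ r, t1 < r → r < t0 → ¬ zflip (mm r)) ∧ (∀ r, t0 < r → r ≤ s → ¬ zflip (mm r)) ∧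
      t0 ≤ t1 + 483 * L ∧ s < t0 + 483 * L ∧ 1000 * L ≤ t1 := by
  have hL := X.hL
  obtain ⟨f1, g1, g2, g3⟩ := X.flip_soon (w := 0) (by omega)
  obtain ⟨t0, a1, a2, a3, a4⟩ := last_flip mm (show f1 ≤ s by omega) g3
  have a5 : s < t0 + 483 * L := by
    by_contra hc
    obtain ⟨f, b1, b2, b3⟩ := X.flip_soon (w := t0) (by omega)
    exact a4 f b1 (by omega) b3
  have a6 : f1 < t0 := by omega
  obtain ⟨t1, b1, b2, b3, b4⟩ := last_flip mm (show f1 ≤ t0 - 1 by omega) g3
  have b5 : t0 ≤ t1 + 483 * L := by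
    by_contra hc
    obtain ⟨f, d1, d2, d3⟩ := X.flip_soon (w := t1) (by omega)
    exact b4 f d1 (by omega) d3
  exact ⟨t1, t0, by omega, a2, b3, a3, fun r h1 h2 => b4 r h1 (by omega), a4, b5, a5, by omega⟩

/-- front zombies do not come close, main computation -/
theorem ZG.front_aux (X : ZG k K L T u b0 c q mq mm e) {t1 t0 s : ℕ} (h10 : t1 < t0)
    (h0s : t0 ≤ s) (hs : s ≤ u) (f1 : zflip (mm t1)) (f0 : zflip (mm t0))
    (hn : ∀ r, t1 < r → r < t0 → ¬ zflip (mm r))
    (hn' : ∀ r, t0 < r → r < s → ¬ zflip (mm r)) (l1 : t0 ≤ t1 + 483 * L)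
    (l2 : s ≤ t0 + 483 * L) (hE : zph (mm t1) = true) {i : Fin k} (hF : tF (q s i)) :
    23 * (L : ℤ) ≤ ds (q s i) := by
  obtain ⟨n1, n2⟩ := X.num
  by_contra hc
  have h1s : t1 ≤ s := by omega
  have hb := X.back h1s hs i
  have hKa : ds (q t1 i) < K := by omega
  have hall := (X.seq i).backF h1s (X.two hs i) hKa hF
  have hq := (X.seq i).qF h1s (fun r h1 h2 => hall r h1 h2.le) (fun r h6 h7 => by
      have := X.back h6 (h7.le.trans hs) i; omega)
  -- visible at t1
  have hF1 := hall t1 le_rfl h1s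
  have hF2 := hall (t1 + 1) (by omega) (by omega)
  have hmq := X.mqn t1 i hKa
  obtain ⟨w1, w2⟩ := (X.seq i).near t1 hKa
  have hz := ds_zm (c i t1) (p := q t1 i) (by have := X.safe t1 (by omega) i; omega)
  rw [← hmq] at hz w1 w2
  have hm1 : (mq t1 i).1 < 0 ∧ (mq t1 i).2 < 0 := by
    unfold tF at hF2
    rcases he : e t1 with _ | _ <;> rw [he] at w1 w2 <;> simp at w1 w2 <;>
      omega
  have hv : vis L (mq t1 i) := by
    refine ⟨hm1.1, hm1.2, ?_⟩
    rw [← ds_F hm1]
    omega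
  have hzok := X.zok_zlev (t := t1) (by omega) true (mm t1).D i (mem_univ i) hv
  -- the mode
  have hM := X.mode_E h10 f1 f0 hn hE
  have htg : (mm (t1 + 1)).tg = zlev L univ true (mm t1).D (mq t1) := by
    rw [X.memtg t1]
    unfold ztg
    rw [if_pos f1]
    congr 1
    unfold zph at hE
    rw [if_pos f1] at hE
    exact hE
  rw [← htg, ← hM.1] at hzok
  simp only [if_true] at hzok
  have hD := X.D_ct h10.le
  have hN := X.few_N h10.le (h0s.trans hs) (by omega) (fun r h1 h2 => by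
    rw [(X.const h1 (fun r' h3 h4 => hn r' h3 (by omega))).1]; exact hE)
  have hN0 := ct_le e h10.le
  have hE2 := X.few_E h0s hs (by omega) (fun r h1 h2 => by
    rw [(X.const h1 (fun r' h3 h4 => hn' r' h3 (by omega))).1]; exact hM.2.2.1)
  have hE0 := ct_nonneg e t0 s
  have hadd := ct_add e h10.le h0s
  have hG := (X.gc i).lin h1s (hs.trans X.hu.le)
  try simp only at hq
  have hsz := ds_F hF
  -- zu
  have hzu : zu true (mq t1 i) ≤ 3 * (q t1 i).1 - (q t1 i).2 + 3 ∧
      3 * (q t1 i).1 - (q t1 i).2 - 1 ≤ zu true (mq t1 i) := by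
    unfold zu
    rw [if_pos rfl, hmq]
    unfold tF at hF1
    rcases zm_cases (c i t1) (q t1 i) with ⟨a1, a2, b3⟩ | ⟨a1, a2, b3⟩ | ⟨a1, a2, b3⟩ |
      ⟨a1, a2, b3⟩ | ⟨a1, a2, b3⟩ <;> rw [b3] <;> simp only <;> omega
  unfold tF at hF
  rw [le_abs] at hzok
  rcases hzok with hzok | hzok <;> omega

/-- front zombies do not come close -/
theorem ZG.front_far (X : ZG k K L T u b0 c q mq mm e) {s : ℕ} (hs : s ≤ u) {i : Fin k}
    (hF : tF (q s i)) : 23 * (L : ℤ) ≤ ds (q s i) := by
  obtain ⟨n1, n2⟩ := X.num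
  by_contra hc
  have hb := X.back (Nat.zero_le s) hs i
  have hini := X.ini i
  have hs' : 2001 * L ≤ s := by
    zify
    omega
  obtain ⟨t1, t0, h1, h2, h3, h4, h5, h6, h7, h8, h9⟩ := X.two_flips (s := s - 1) (by omega)
    (by omega)
  rcases hE : zph (mm t1) with _ | _
  · have := X.swap.front_aux h1 (show t0 ≤ s by omega) hs ((zflip_sw _).2 h3)
      ((zflip_sw _).2 h4) (fun r a1 a2 a3 => h5 r a1 a2 ((zflip_sw _).1 a3))
      (fun r a1 a2 a3 => h6 r a1 (by omega) ((zflip_sw _).1 a3)) h7 (by omega)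
      (by show zph (swM (mm t1)) = true; rw [zph_sw, hE]; rfl) (i := i) ((tF_swap _).2 hF)
    rw [ds_swap] at this
    exact hc this
  · exact hc (X.front_aux h1 (show t0 ≤ s by omega) hs h3 h4 h5
      (fun r a1 a2 => h6 r a1 (by omega)) h7 (by omega) hE hF)

theorem ds_of_EB {p : ℤ × ℤ} (h : EB p) : ds p ≤ 2 := ds_of_blkE h
theorem ds_of_NB {p : ℤ × ℤ} (h : NB p) : ds p ≤ 2 := ds_of_blkN h

/-- who blocks -/
theorem ZG.who_E (X : ZG k K L T u b0 c q mq mm e) {s : ℕ} (hs : s ≤ u) {i : Fin k}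
    (h : EB (mq s i)) : tA (q s i) ∧ ds (q s i) ≤ 3 ∧ mq s i = zm (c i s) (q s i) := by
  obtain ⟨n1, n2⟩ := X.num
  have h1 := ds_of_EB h
  have h2 := X.mqf s i
  have h3 := X.mqn s i (by omega)
  have h4 := h
  unfold EB at h4
  rw [h3] at h4
  have h5 := block_E (X.safe s hs i) (fun hF => by have := X.front_far hs hF; omega) h4
  exact ⟨h5.1, h5.2, h3⟩

theorem ZG.who_N (X : ZG k K L T u b0 c q mq mm e) {s : ℕ} (hs : s ≤ u) {i : Fin k}
    (h : NB (mq s i)) : tB (q s i) ∧ ds (q s i) ≤ 3 ∧ mq s i = zm (c i s) (q s i) := by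
  obtain ⟨n1, n2⟩ := X.num
  have h1 := ds_of_NB h
  have h2 := X.mqf s i
  have h3 := X.mqn s i (by omega)
  have h4 := h
  unfold NB at h4
  rw [h3] at h4
  have h5 := block_N (X.safe s hs i) (fun hF => by have := X.front_far hs hF; omega) h4
  exact ⟨h5.1, h5.2, h3⟩

/-- the round `u` is played correctly, north mode -/
theorem ZG.ok_N (X : ZG k K L T u b0 c q mq mm e) (hu' : 14000 * L ≤ u)
    (hN : zph (mm u) = false) : okr mq e u := by
  obtain ⟨n1, n2⟩ := X.num
  obtain ⟨t1, t0, h1, h2, h3, h4, h5, h6, h7, h8, h9⟩ := X.two_flips (s := u) le_rfl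
    (by omega)
  have hph0 : zph (mm t0) = false := by
    rw [← (X.const h2 (fun r a1 a2 => h6 r a1 a2)).1]; exact hN
  have hph1 : zph (mm t1) = true := by
    have a1 := (X.const (show t1 ≤ t0 - 1 by omega) (fun r a1 a2 => h5 r a1 (by omega))).1
    have a2 := X.memph (t0 - 1)
    rw [show t0 - 1 + 1 = t0 by omega] at a2
    have a3 : zph (mm t0) = !(mm t0).ph := by unfold zph; rw [if_pos h4]
    rw [a3, a2, a1] at hph0
    simpa using hph0
  have hM := X.mode_E h1 h3 h4 h5 hph1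
  have r0 := X.tg_range t0
  have hDfl := (X.flip_D h4).2 hph0
  have hDu := X.D_ct h2
  have hDa := X.D_abs t0
  have hctn := ct_nonneg e t0 u
  have hfew := X.few_E h2 le_rfl (by omega) (fun r a1 a2 => by
    rw [(X.const a1 (fun r' a3 a4 => h6 r' a3 (by omega))).1]; exact hph0)
  rcases Nat.lt_or_ge u (t0 + 4 * L) with hlt | hge
  · -- early: no type B
    have hnB : ¬ ∃ i, NB (mq u i) := by
      rintro ⟨i, hi⟩
      have g := X.who_N le_rfl hi
      have := X.noB_early (a := t0 - 10 * L) (t0 := t0) (s := u) (by omega) h2 (by omega) le_rfl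
        (fun r a1 a2 => by
          rw [(X.const (show t1 ≤ r by omega) (fun r' a3 a4 => h5 r' a3 (by omega))).1]
          exact hph1) i g.1
      omega
    refine ⟨fun _ => ?_, fun h => absurd h hnB⟩
    rw [X.dir u]
    unfold zdir
    split_ifs with c1 c2 c3
    · rfl
    · exfalso; omega
    · rw [hN] at c3; exact absurd c3 (by simp)
    · simpa using hnB
  · -- late: no type A
    have hnA : ¬ ∃ i, EB (mq u i) := by
      rintro ⟨i, hi⟩
      have g := X.who_E le_rfl hi
      have := X.noA_late (a := u - 4 * L) (s := u) (by omega) le_rfl (fun r a1 a2 => by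
          rw [(X.const (show t0 ≤ r by omega) (fun r' a3 a4 => h6 r' a3 (by omega))).1]
          exact hph0) i g.1
      omega
    refine ⟨fun h => absurd h hnA, fun h => ?_⟩
    rw [X.dir u]
    unfold zdir
    split_ifs with c1 c2 c3
    · exfalso
      zify at hge
      omega
    · rfl
    · rw [hN] at c3; exact absurd c3 (by simp)
    · simpa using h

theorem ZG.ok_early (X : ZG k K L T u b0 c q mq mm e) (hu' : u < 14000 * L) : okr mq e u := by
  obtain ⟨n1, n2⟩ := X.num
  have h1 : ∀ i, ¬ (EB (mq u i) ∨ NB (mq u i)) := by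
    intro i h
    have h2 : ds (mq u i) ≤ 2 := by
      rcases h with h | h
      · exact ds_of_EB h
      · exact ds_of_NB h
    have h3 := X.mqf u i
    have h4 := X.back (Nat.zero_le u) le_rfl i
    have h5 := X.ini i
    zify at hu'
    omega
  exact ⟨fun ⟨i, h⟩ => absurd (Or.inl h) (h1 i), fun ⟨i, h⟩ => absurd (Or.inr h) (h1 i)⟩

/-- every round is played correctly -/
theorem ZG.ok_u (X : ZG k K L T u b0 c q mq mm e) : okr mq e u := by
  rcases Nat.lt_or_ge u (14000 * L) with h | h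
  · exact X.ok_early h
  rcases hp : zph (mm u) with _ | _
  · exact X.ok_N h hp
  · have h1 := X.swap.ok_N h (by show zph (swM (mm u)) = false; rw [zph_sw, hp]; rfl)
    unfold okr nt at h1
    obtain ⟨h2, h3⟩ := h1
    refine ⟨fun h4 => ?_, fun h4 => ?_⟩
    · obtain ⟨i, hi⟩ := h4
      have := h3 ⟨i, (NB_swap _).2 hi⟩
      simpa using this
    · obtain ⟨i, hi⟩ := h4
      have := h2 ⟨i, (EB_swap _).2 hi⟩
      simpa using this

/-- the next position is safe -/
theorem ZG.safe_next (X : ZG k K L T u b0 c q mq mm e) (i : Fin k) : 2 ≤ ds (q (u + 1) i) := by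
  obtain ⟨n1, n2⟩ := X.num
  obtain ⟨h1, h2⟩ := X.ok_u
  have h3 := X.safe u le_rfl i
  rcases lt_or_ge (ds (q u i)) K with hK | hK
  · obtain ⟨w1, w2⟩ := (X.seq i).near u hK
    rw [← X.mqn u i hK] at w1 w2
    try simp only at w1 w2
    unfold ds
    rw [w1, w2]
    rcases he : e u with _ | _
    · have h4 : ¬ NB (mq u i) := fun h => by
        have := h2 ⟨i, h⟩
        rw [he] at this
        exact absurd this (by simp)
      unfold NB at h4
      simp only [Bool.false_eq_true, if_false, add_zero]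
      omega
    · have h4 : ¬ EB (mq u i) := fun h => by
        have := h1 ⟨i, h⟩
        rw [he] at this
        exact absurd this (by simp)
      unfold EB at h4
      simp only [if_true, add_zero]
      omega
  · have h4 := (X.seq i).ds_step u (by show 1 ≤ ds (q u i); omega)
    try simp only at h4
    omega

end MP34e
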