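import Pool.Agent.Work.MP_34e428_co.ZDefs
import Pool.Agent.Work.MP_34e428_co.LCoin3

/-! Exact order of the zombie number of the toroidal grid: definitions for the queue estimates.

`e` is a fixed path (`true` = east, `false` = north = arrival), `g` are coins (`true` = H,
`false` = V = service). -/

set_option autoImplicit false

open Finset

namespace MP34e

/-- free walk of the queue started at height `y` at time `a` -/
def FQ (e g : ℕ → Bool) (y : ℤ) (a t : ℕ) : ℤ := y + ct g a t - ct e a t

/-- the queue started at height `y` at time `a` is at most `ℓ` at time `s` -/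
def nearQ (e g : ℕ → Bool) (y ℓ : ℤ) (a s : ℕ) : Prop :=
  FQ e g y a s ≤ ℓ ∧ ∀ r : ℕ, a ≤ r → r ≤ s → ct g r s - ct e r s ≤ ℓ

/-- number of idle services = depth of the minimum of the free walk below zero on `[a, u]` -/
def Mq (e g : ℕ → Bool) (y : ℤ) (a u : ℕ) : ℕ :=
  (Icc a u).sup (fun r => (-(FQ e g y a r)).toNat)

/-- `x` is a time of a new strict minimum below zero -/
def newmin (e g : ℕ → Bool) (y : ℤ) (a x : ℕ) : Prop :=
  a < x ∧ FQ e g y a x ≤ -1 ∧ ∀ r : ℕ, a ≤ r → r < x → FQ e g y a x < FQ e g y a r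

/-- at time `x` the free walk is negative and lower than it was up to time `x - w` -/
def AQ (e g : ℕ → Bool) (y : ℤ) (a x w : ℕ) : Prop :=
  FQ e g y a x ≤ -1 ∧ ∀ r : ℕ, a ≤ r → r + w ≤ x → FQ e g y a x < FQ e g y a r

/-- the last `j` coins before `x` are all V -/
def Vrun (g : ℕ → Bool) (j x : ℕ) : Prop := ∀ r : ℕ, x ≤ r + j → r < x → g r = false

/-- number of V coins in `[r, s)` -/
def vc (g : ℕ → Bool) (r s : ℕ) : ℤ := (s : ℤ) - r - ct g r s

end MP34e
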