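import Pool.Agent.Work.MP_34e428_co.ZQ0

/-! Module QA: for fixed coins the number of `x` with `AQ` is at most `w` times the depth. -/

set_option autoImplicit false

open Finset
open scoped Classical

namespace MP34e

theorem sum_AQ (e g : ℕ → Bool) (y a u w : ℕ) :
    ((Icc (a + w) u).filter (fun x => AQ e g y a x w)).card ≤ w * Mq e g y a u := by
  set X := (Icc (a + w) u).filter (fun x => AQ e g y a x w) with hX
  let mm : ℕ → ℕ := fun x => (-(FQ e g y a x)).toNat
  let TT : ℕ → ℕ := fun m => sInf {r : ℕ | a ≤ r ∧ FQ e g y a r = -(m : ℤ)}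
  have hmem : ∀ x ∈ X, (a + w ≤ x ∧ x ≤ u) ∧ AQ e g y a x w := by
    intro x hx
    rw [hX, mem_filter, mem_Icc] at hx
    exact hx
  have hmm : ∀ x ∈ X, FQ e g y a x = -(mm x : ℤ) ∧ 1 ≤ mm x := by
    intro x hx
    have h1 := (hmem x hx).2.1
    simp only [mm]
    omega
  have hTx : ∀ x ∈ X, a ≤ TT (mm x) ∧ FQ e g y a (TT (mm x)) = -(mm x : ℤ) ∧ TT (mm x) ≤ x := by
    intro x hx
    have h1 : x ∈ {r : ℕ | a ≤ r ∧ FQ e g y a r = -(mm x : ℤ)} :=
      ⟨by have := (hmem x hx).1; omega, (hmm x hx).1⟩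
    have h2 := Nat.sInf_mem (s := {r : ℕ | a ≤ r ∧ FQ e g y a r = -(mm x : ℤ)}) ⟨x, h1⟩
    exact ⟨h2.1, h2.2, Nat.sInf_le h1⟩
  have hlt : ∀ x ∈ X, x - TT (mm x) < w := by
    intro x hx
    by_contra hcon
    have h1 := hTx x hx
    have h2 := (hmem x hx).2.2 (TT (mm x)) h1.1 (by omega)
    rw [h1.2.1, (hmm x hx).1] at h2
    exact lt_irrefl _ h2
  have hcard : X.card ≤ (Icc 1 (Mq e g y a u) ×ˢ range w).card := by
    apply card_le_card_of_injOn (fun x => (mm x, x - TT (mm x)))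
    · intro x hx
      simp only [coe_product, Set.mem_prod, mem_coe, mem_Icc, mem_range]
      refine ⟨⟨(hmm x hx).2, ?_⟩, hlt x hx⟩
      have h1 : x ∈ Icc a u := by
        rw [mem_Icc]
        have := (hmem x hx).1
        omega
      exact Finset.le_sup (f := fun r => (-(FQ e g y a r)).toNat) h1
    · intro x hx x' hx' h
      simp only [Prod.mk.injEq] at h
      obtain ⟨h1, h2⟩ := h
      have h3 := hTx x hx
      have h4 := hTx x' hx'
      rw [← h1] at h2 h4
      omega
  rw [card_product, Nat.card_Icc, card_range] at hcard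
  calc X.card ≤ (Mq e g y a u + 1 - 1) * w := hcard
    _ = w * Mq e g y a u := by rw [Nat.add_sub_cancel, mul_comm]

end MP34e
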