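import Pool.Agent.Work.MP_34e428_co.ZQ0

/-! Module QC: the backward walk sampled at checkpoints. -/

set_option autoImplicit false

open Finset
open scoped Classical

namespace MP34e

namespace ZQC

/-! ### Expectation over the simple random walk -/

/-- expectation of `f` after `n` steps of the simple random walk started at `z` -/
noncomputable def ew : ℕ → (ℤ → ℝ) → ℤ → ℝ
  | 0, f, z => f z
  | n + 1, f, z => (ew n f (z + 1) + ew n f (z - 1)) / 2

theorem ew_mono (n : ℕ) : ∀ {f g : ℤ → ℝ} (_ : ∀ y, f y ≤ g y) (z : ℤ), ew n f z ≤ ew n g z := by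
  induction n with
  | zero => intro f g h z; exact h z
  | succ n ih =>
    intro f g h z
    have h1 := ih h (z + 1)
    have h2 := ih h (z - 1)
    show (ew n f (z + 1) + ew n f (z - 1)) / 2 ≤ (ew n g (z + 1) + ew n g (z - 1)) / 2
    linarith

theorem ew_add (n : ℕ) (f g : ℤ → ℝ) : ∀ z, ew n (fun y => f y + g y) z = ew n f z + ew n g z := by
  induction n with
  | zero => intro z; rfl
  | succ n ih =>
    intro z
    show (ew n _ (z + 1) + ew n _ (z - 1)) / 2 = (_ + _) / 2 + (_ + _) / 2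
    rw [ih, ih]
    ring

theorem ew_mul (n : ℕ) (a : ℝ) (f : ℤ → ℝ) : ∀ z, ew n (fun y => a * f y) z = a * ew n f z := by
  induction n with
  | zero => intro z; rfl
  | succ n ih =>
    intro z
    show (ew n _ (z + 1) + ew n _ (z - 1)) / 2 = a * ((_ + _) / 2)
    rw [ih, ih]
    ring

theorem ew_const (n : ℕ) (a : ℝ) : ∀ z, ew n (fun _ => a) z = a := by
  induction n with
  | zero => intro z; rfl
  | succ n ih =>
    intro z
    show (ew n _ (z + 1) + ew n _ (z - 1)) / 2 = a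
    rw [ih, ih]
    ring

theorem ew_id (n : ℕ) : ∀ z, ew n (fun y => (y : ℝ)) z = z := by
  induction n with
  | zero => intro z; rfl
  | succ n ih =>
    intro z
    show (ew n _ (z + 1) + ew n _ (z - 1)) / 2 = z
    rw [ih, ih]
    push_cast
    ring

theorem ew_sq (n : ℕ) : ∀ z, ew n (fun y => (y : ℝ) ^ 2) z = (z : ℝ) ^ 2 + n := by
  induction n with
  | zero => intro z; simp [ew]
  | succ n ih =>
    intro z
    show (ew n _ (z + 1) + ew n _ (z - 1)) / 2 = _
    rw [ih, ih]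
    push_cast
    ring

theorem ew_neg (n : ℕ) : ∀ (f : ℤ → ℝ) (z : ℤ), ew n (fun y => f (-y)) z = ew n f (-z) := by
  induction n with
  | zero => intro f z; rfl
  | succ n ih =>
    intro f z
    show (ew n _ (z + 1) + ew n _ (z - 1)) / 2 = (ew n f (-z + 1) + ew n f (-z - 1)) / 2
    rw [ih, ih, show -(z + 1) = -z - 1 by ring, show -(z - 1) = -z + 1 by ring]
    ring

/-- indicator of `y ≤ 0` -/
noncomputable def ng (y : ℤ) : ℝ := if y ≤ 0 then 1 else 0

theorem ng_nonneg (y : ℤ) : 0 ≤ ng y := by unfold ng; split_ifs <;> norm_num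

theorem ng_le_one (y : ℤ) : ng y ≤ 1 := by unfold ng; split_ifs <;> norm_num

theorem half_le (n : ℕ) : 1 / 2 ≤ ew n ng 0 := by
  have h1 : ew n (fun y => ng (-y)) 0 = ew n ng 0 := by
    rw [ew_neg]
    simp
  have h2 : (1 : ℝ) ≤ ew n (fun y => ng y + ng (-y)) 0 := by
    have := ew_mono n (f := fun _ => 1) (g := fun y => ng y + ng (-y)) (by
      intro y
      unfold ng
      by_cases h : y ≤ 0
      · rw [if_pos h]
        split_ifs <;> norm_num
      · rw [if_neg h, if_pos (by omega)]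
        norm_num) 0
    rwa [ew_const] at this
  rw [ew_add, h1] at h2
  linarith

/-- overshoot: if `h n 0` is controlled then the same holds for every nonnegative start -/
theorem overr {φ : ℤ → ℝ} {A : ℝ} {R : ℕ} (h0 : ∀ n ≤ R, ew n (fun y => φ y * ng y) 0 ≤ A * ew n ng 0)
    (hz : ∀ z : ℤ, 1 ≤ z → φ z * ng z ≤ A * ng z) :
    ∀ n ≤ R, ∀ z : ℤ, 0 ≤ z → ew n (fun y => φ y * ng y) z ≤ A * ew n ng z := by
  intro n
  induction n with
  | zero =>
    intro _ z hz0
    rcases eq_or_lt_of_le hz0 with h | h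
    · rw [← h]
      exact h0 0 (by omega)
    · exact hz z h
  | succ n ih =>
    intro hn z hz0
    rcases eq_or_lt_of_le hz0 with h | h
    · rw [← h]
      exact h0 (n + 1) hn
    · have h1 := ih (by omega) (z + 1) (by omega)
      have h2 := ih (by omega) (z - 1) (by omega)
      show (ew n _ (z + 1) + ew n _ (z - 1)) / 2 ≤ A * ((_ + _) / 2)
      linarith

theorem over_sq {R : ℕ} : ∀ n ≤ R, ∀ z : ℤ, 0 ≤ z →
    ew n (fun y => (y : ℝ) ^ 2 * ng y) z ≤ (2 * R) * ew n ng z := by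
  apply overr
  · intro n hn
    have h1 : ew n (fun y => (y : ℝ) ^ 2 * ng y) 0 ≤ n := by
      have := ew_mono n (f := fun y => (y : ℝ) ^ 2 * ng y) (g := fun y => (y : ℝ) ^ 2) (by
        intro y
        exact mul_le_of_le_one_right (sq_nonneg _) (ng_le_one y)) 0
      rw [ew_sq] at this
      simpa using this
    have h2 := half_le n
    have h3 : (n : ℝ) ≤ R := by exact_mod_cast hn
    have h4 : (0 : ℝ) ≤ R := Nat.cast_nonneg R
    nlinarith
  · intro z hz
    have : ng z = 0 := by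
      unfold ng
      rw [if_neg (by omega)]
    rw [this]
    simp

theorem ew_abs (n : ℕ) (z : ℤ) : ew n (fun y => |(y : ℝ)|) z ≤ |(z : ℝ)| + Real.sqrt n := by
  have hmain : ew n (fun y => |((y : ℝ) - z)|) z ≤ Real.sqrt n := by
    have hsq : ew n (fun y => ((y : ℝ) - z) ^ 2) z = n := by
      have h1 : (fun y : ℤ => ((y : ℝ) - z) ^ 2) =
          fun y : ℤ => (fun y : ℤ => (y : ℝ) ^ 2) y +
            (fun y : ℤ => (fun y : ℤ => (-(2 * z) : ℝ) * (fun y : ℤ => (y : ℝ)) y) y +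
              (fun _ : ℤ => (z : ℝ) ^ 2) y) y := by
        funext y
        simp only
        ring
      rw [h1, ew_add, ew_add, ew_mul, ew_sq, ew_id, ew_const]
      ring
    rcases Nat.eq_zero_or_pos n with hn | hn
    · subst hn
      simp [ew]
    · set s := Real.sqrt n with hs
      have hs0 : 0 < s := Real.sqrt_pos.2 (by exact_mod_cast hn)
      have hss : s ^ 2 = n := Real.sq_sqrt (Nat.cast_nonneg n)
      have h2 := ew_mono n (f := fun y => |((y : ℝ) - z)|)
        (g := fun y => (fun y : ℤ => (1 / (2 * s)) * (fun y : ℤ => ((y : ℝ) - z) ^ 2) y) y +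
          (fun _ => s / 2) y) (by
        intro y
        simp only
        have h3 : 0 ≤ (|((y : ℝ) - z)| - s) ^ 2 / (2 * s) := by positivity
        have h4 : (|((y : ℝ) - z)| - s) ^ 2 / (2 * s) =
            1 / (2 * s) * ((y : ℝ) - z) ^ 2 + s / 2 - |((y : ℝ) - z)| := by
          rw [← sq_abs ((y : ℝ) - z)]
          field_simp
          ring
        linarith) z
      rw [ew_add, ew_mul, hsq, ew_const] at h2
      have h5 : 1 / (2 * s) * (n : ℝ) + s / 2 = s := by
        rw [← hss]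
        field_simp
        ring
      linarith
  have h6 := ew_mono n (f := fun y => |(y : ℝ)|)
    (g := fun y => (fun y : ℤ => |((y : ℝ) - z)|) y + (fun _ => |(z : ℝ)|) y) (by
      intro y
      simp only
      have := abs_add_le ((y : ℝ) - z) z
      rwa [sub_add_cancel] at this) z
  rw [ew_add, ew_const] at h6
  linarith

theorem over_abs {R : ℕ} : ∀ n ≤ R, ∀ z : ℤ, 0 ≤ z →
    ew n (fun y => |(y : ℝ)| * ng y) z ≤ (2 * Real.sqrt R) * ew n ng z := by
  apply overr
  · intro n hn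
    have h1 : ew n (fun y => |(y : ℝ)| * ng y) 0 ≤ Real.sqrt n := by
      have := ew_mono n (f := fun y => |(y : ℝ)| * ng y) (g := fun y => |(y : ℝ)|) (by
        intro y
        exact mul_le_of_le_one_right (abs_nonneg _) (ng_le_one y)) 0
      have h2 := ew_abs n 0
      simp at h2
      linarith
    have h2 := half_le n
    have h3 : Real.sqrt n ≤ Real.sqrt R := Real.sqrt_le_sqrt (by exact_mod_cast hn)
    have h4 : 0 ≤ Real.sqrt R := Real.sqrt_nonneg _
    nlinarith
  · intro z hz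
    have : ng z = 0 := by
      unfold ng
      rw [if_neg (by omega)]
    rw [this]
    simp

/-! ### The potential -/

/-- the potential at checkpoints -/
noncomputable def psi (z₀ : ℕ) (β : ℝ) (y : ℤ) : ℝ :=
  if 1 ≤ y then 2 * z₀ * y - (y : ℝ) ^ 2 + β else 0

theorem psi_eq (z₀ : ℕ) (β : ℝ) (y : ℤ) : psi z₀ β y =
    ((2 * z₀) * (y : ℝ) + ((-1) * (y : ℝ) ^ 2 + β)) +
      ((y : ℝ) ^ 2 * ng y + ((2 * z₀) * (|(y : ℝ)| * ng y) + (-β) * ng y)) := by
  unfold psi ng
  by_cases h : 1 ≤ y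
  · rw [if_pos h, if_neg (by omega)]
    ring
  · rw [if_neg h, if_pos (by omega)]
    have : |(y : ℝ)| = -y := by
      apply abs_of_nonpos
      have : y ≤ 0 := by omega
      exact_mod_cast this
    rw [this]
    ring

theorem ew_psi (z₀ : ℕ) (β : ℝ) (n : ℕ) (z : ℤ) : ew n (psi z₀ β) z =
    (2 * z₀ * z - (z : ℝ) ^ 2 + β - n) + (ew n (fun y => (y : ℝ) ^ 2 * ng y) z +
      2 * z₀ * ew n (fun y => |(y : ℝ)| * ng y) z - β * ew n ng z) := by
  have h1 : psi z₀ β = fun y => (fun y : ℤ => (fun y : ℤ => (2 * z₀ : ℝ) * (fun y : ℤ => (y : ℝ)) y) y +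
      (fun y : ℤ => (fun y : ℤ => (-1 : ℝ) * (fun y : ℤ => (y : ℝ) ^ 2) y) y +
        (fun _ : ℤ => β) y) y) y +
      (fun y : ℤ => (fun y : ℤ => (y : ℝ) ^ 2 * ng y) y +
        (fun y : ℤ => (fun y : ℤ => (2 * z₀ : ℝ) * (fun y : ℤ => |(y : ℝ)| * ng y) y) y +
          (fun y : ℤ => (-β) * ng y) y) y) y := by
    funext y
    exact psi_eq z₀ β y
  rw [h1, ew_add, ew_add, ew_mul, ew_id, ew_add, ew_mul, ew_sq, ew_const, ew_add, ew_add, ew_mul,
    ew_mul]
  ring

/-- the checkpoint inequality -/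
theorem psi_step {z₀ R : ℕ} {β : ℝ} (hβ : 2 * R + 2 * z₀ * (2 * Real.sqrt R) ≤ β) {n : ℕ}
    (hn : n ≤ R) {z : ℤ} (hz : 1 ≤ z) : n + ew n (psi z₀ β) z ≤ psi z₀ β z := by
  rw [ew_psi]
  have h1 := over_sq (R := R) n hn z (by omega)
  have h2 := over_abs (R := R) n hn z (by omega)
  have h3 : 0 ≤ ew n ng z := by
    have := ew_mono n (f := fun _ => 0) (g := ng) (fun y => ng_nonneg y) z
    rwa [ew_const] at this
  have h4 : psi z₀ β z = 2 * z₀ * z - (z : ℝ) ^ 2 + β := by
    unfold psi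
    rw [if_pos hz]
  rw [h4]
  have h5 : (0 : ℝ) ≤ 2 * z₀ := by positivity
  have h6 := mul_le_mul_of_nonneg_left h2 h5
  have h7 := mul_le_mul_of_nonneg_right hβ h3
  nlinarith

/-- the potential is large at `z₀` -/
theorem psi_large {z₀ : ℕ} {β : ℝ} (hβ : 0 ≤ β) (n : ℕ) :
    (z₀ : ℝ) ^ 2 ≤ n + ew n (psi z₀ β) z₀ := by
  rw [ew_psi]
  have h1 : 0 ≤ ew n (fun y => (y : ℝ) ^ 2 * ng y) z₀ := by
    have := ew_mono n (f := fun _ => 0) (g := fun y => (y : ℝ) ^ 2 * ng y)
      (fun y => mul_nonneg (sq_nonneg _) (ng_nonneg y)) z₀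
    rwa [ew_const] at this
  have h2 : 0 ≤ ew n (fun y => |(y : ℝ)| * ng y) z₀ := by
    have := ew_mono n (f := fun _ => 0) (g := fun y => |(y : ℝ)| * ng y)
      (fun y => mul_nonneg (abs_nonneg _) (ng_nonneg y)) z₀
    rwa [ew_const] at this
  have h3 : ew n ng z₀ ≤ 1 := by
    have := ew_mono n (f := ng) (g := fun _ => 1) (fun y => ng_le_one y) z₀
    rwa [ew_const] at this
  have h4 : β * ew n ng z₀ ≤ β := mul_le_of_le_one_right hβ h3
  have h5 : 0 ≤ 2 * (z₀ : ℝ) * ew n (fun y => |(y : ℝ)| * ng y) z₀ := by positivity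
  push_cast
  nlinarith

theorem ew_psi_le {z₀ : ℕ} {β : ℝ} (hβ : 0 ≤ β) (n : ℕ) {z : ℤ} (hz : 0 ≤ z) :
    ew n (psi z₀ β) z ≤ 2 * z₀ * (z + Real.sqrt n) + β := by
  have h1 := ew_mono n (f := psi z₀ β)
    (g := fun y => (fun y : ℤ => (2 * z₀ : ℝ) * (fun y : ℤ => |(y : ℝ)|) y) y + (fun _ => β) y) (by
      intro y
      simp only
      unfold psi
      have h2 : (y : ℝ) ≤ |(y : ℝ)| := le_abs_self _
      have h3 : (0 : ℝ) ≤ 2 * z₀ := by positivity
      split_ifs
      · nlinarith [sq_nonneg (y : ℝ)]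
      · positivity) z
  rw [ew_add, ew_mul, ew_const] at h1
  have h4 := ew_abs n z
  have h5 : |(z : ℝ)| = z := abs_of_nonneg (by exact_mod_cast hz)
  rw [h5] at h4
  have h6 : (0 : ℝ) ≤ 2 * z₀ := by positivity
  have h7 := mul_le_mul_of_nonneg_left h4 h6
  linarith

/-! ### The dynamic programming -/

/-- distance to the last checkpoint before `t` (or to `0`) -/
noncomputable def JJ (P : ℕ → Prop) : ℕ → ℕ
  | 0 => 0
  | t + 1 => if P (t + 1) then 0 else JJ P t + 1

theorem JJ_le_self (P : ℕ → Prop) (t : ℕ) : JJ P t ≤ t := by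
  induction t with
  | zero => exact le_rfl
  | succ t ih =>
    show (if P (t + 1) then 0 else JJ P t + 1) ≤ t + 1
    split_ifs
    · omega
    · omega

theorem JJ_none (P : ℕ → Prop) (t : ℕ) : ∀ s, t < s + JJ P t → s ≤ t → ¬ P s := by
  induction t with
  | zero =>
    intro s h1 h2
    have : JJ P 0 = 0 := rfl
    omega
  | succ t ih =>
    intro s h1 h2
    have h3 : JJ P (t + 1) = if P (t + 1) then 0 else JJ P t + 1 := rfl
    rw [h3] at h1
    split_ifs at h1 with h4
    · omega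
    · rcases Nat.lt_or_ge t s with h5 | h5
      · have : s = t + 1 := by omega
        rw [this]
        exact h4
      · exact ih s (by omega) h5

theorem JJ_le {P : ℕ → Prop} {Rc a : ℕ}
    (hP : ∀ t, t + Rc ≤ a → ∃ s, t ≤ s ∧ s ≤ t + Rc ∧ P s) {t : ℕ} (ht : t ≤ a) :
    JJ P t ≤ Rc := by
  by_contra hcon
  push Not at hcon
  have h1 := JJ_le_self P t
  obtain ⟨s, hs1, hs2, hs3⟩ := hP (t - Rc) (by omega)
  exact JJ_none P t s (by omega) (by omega) hs3

/-- the walk is positive at the checkpoints in `[t - j, t]` -/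
def cnp (P : ℕ → Prop) (g : ℕ → Bool) (t j : ℕ) (z : ℤ) : Prop :=
  ∀ s : ℕ, t ≤ s + j → s ≤ t → P s → 1 ≤ z - (2 * ct g s t - ((t : ℤ) - s))

theorem cnp_succ {P : ℕ → Prop} {g : ℕ → Bool} {t j : ℕ} {z : ℤ} (h : cnp P g (t + 1) (j + 1) z) :
    cnp P g t j (z - (if g t then 1 else -1)) := by
  intro s h1 h2 h3
  have := h s (by omega) (by omega) h3
  rw [ct_succ g h2] at this
  push_cast at this
  split_ifs at this ⊢ <;> linarith

theorem cnp_congr {P : ℕ → Prop} {g h : ℕ → Bool} {t j : ℕ} {z : ℤ}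
    (hgh : ∀ n, n < t → g n = h n) : cnp P g t j z ↔ cnp P h t j z := by
  unfold cnp
  constructor
  · intro H s h1 h2 h3
    rw [← ct_congr (g := g) (h := h) (fun n _ hn => hgh n hn)]
    exact H s h1 h2 h3
  · intro H s h1 h2 h3
    rw [ct_congr (g := g) (h := h) (fun n _ hn => hgh n hn)]
    exact H s h1 h2 h3

/-- sum over `j < m` of the number of coin sequences -/
noncomputable def UP (P : ℕ → Prop) (T t m : ℕ) (z : ℤ) : ℝ :=
  ∑ j ∈ range m, ∑ c : Fin T → Bool, (if cnp P (ex c) t j z then (1 : ℝ) else 0)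

theorem UP_inner_le (P : ℕ → Prop) (T t j : ℕ) (z : ℤ) :
    ∑ c : Fin T → Bool, (if cnp P (ex c) t j z then (1 : ℝ) else 0) ≤ 2 ^ T := by
  calc ∑ c : Fin T → Bool, (if cnp P (ex c) t j z then (1 : ℝ) else 0)
      ≤ ∑ _c : Fin T → Bool, (1 : ℝ) := by
        apply Finset.sum_le_sum
        intro c _
        split_ifs <;> norm_num
    _ = 2 ^ T := by
        simp

theorem UP_triv (P : ℕ → Prop) (T t m : ℕ) (z : ℤ) : UP P T t m z ≤ 2 ^ T * m := by
  unfold UP
  calc ∑ j ∈ range m, ∑ c : Fin T → Bool, (if cnp P (ex c) t j z then (1 : ℝ) else 0)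
      ≤ ∑ _j ∈ range m, (2 : ℝ) ^ T := Finset.sum_le_sum (fun j _ => UP_inner_le P T t j z)
    _ = 2 ^ T * m := by
        rw [Finset.sum_const, Finset.card_range, nsmul_eq_mul]; ring

theorem UP_zero_of {P : ℕ → Prop} {T t m : ℕ} {z : ℤ} (hP : P t) (hz : z ≤ 0) :
    UP P T t m z = 0 := by
  unfold UP
  apply Finset.sum_eq_zero
  intro j _
  apply Finset.sum_eq_zero
  intro c _
  rw [if_neg]
  intro h
  have := h t (by omega) le_rfl hP
  rw [ct_self] at this
  omega

theorem UP_rec {P : ℕ → Prop} {T t m : ℕ} {z : ℤ} (ht : t + 1 ≤ T) :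
    UP P T (t + 1) (m + 1) z ≤ 2 ^ T + (1 / 2) * (UP P T t m (z + 1) + UP P T t m (z - 1)) := by
  unfold UP
  rw [Finset.sum_range_succ']
  have h0 := UP_inner_le P T (t + 1) 0 z
  have h1 : ∀ j ∈ range m, ∑ c : Fin T → Bool,
      (if cnp P (ex c) (t + 1) (j + 1) z then (1 : ℝ) else 0) ≤
      (1 / 2) * (∑ c : Fin T → Bool, (if cnp P (ex c) t j (z + 1) then (1 : ℝ) else 0) +
        ∑ c : Fin T → Bool, (if cnp P (ex c) t j (z - 1) then (1 : ℝ) else 0)) := by
    intro j _
    have h2 := flip_sum (T := T) ⟨t, by omega⟩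
      (fun b c => if cnp P (ex c) t j (z - (if b then 1 else -1)) then (1 : ℝ) else 0) (by
        intro b c v
        have : cnp P (ex (Function.update c ⟨t, by omega⟩ v)) t j (z - (if b then 1 else -1)) ↔
            cnp P (ex c) t j (z - (if b then 1 else -1)) := by
          apply cnp_congr
          intro n hn
          apply ex_update
          simp only
          omega
        simp only [this])
    simp only [if_true, Bool.false_eq_true, if_false, sub_neg_eq_add] at h2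
    rw [add_comm (∑ c : Fin T → Bool, (if cnp P (ex c) t j (z + 1) then (1 : ℝ) else 0)), ← h2]
    apply Finset.sum_le_sum
    intro c _
    have h3 : ex c t = c ⟨t, by omega⟩ := by
      unfold ex
      rw [dif_pos (show t < T by omega)]
    by_cases h4 : cnp P (ex c) (t + 1) (j + 1) z
    · have h5 := cnp_succ h4
      rw [h3] at h5
      rw [if_pos h4, if_pos h5]
    · rw [if_neg h4]
      split_ifs <;> norm_num
  have h6 := Finset.sum_le_sum h1
  rw [← Finset.mul_sum, Finset.sum_add_distrib] at h6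
  linarith

theorem UP_bound {P : ℕ → Prop} {T K Rc a z₀ : ℕ} {β : ℝ} (haT : a ≤ T)
    (hP : ∀ t, t + Rc ≤ a → ∃ s, t ≤ s ∧ s ≤ t + Rc ∧ P s) (hz₀ : 2 * K ≤ z₀ ^ 2)
    (hβ : 2 * ((Rc + 1 : ℕ) : ℝ) + 2 * z₀ * (2 * Real.sqrt ((Rc + 1 : ℕ) : ℝ)) ≤ β) :
    ∀ (t : ℕ), t ≤ a → ∀ (m : ℕ) (z : ℤ), m ≤ t + 1 → m ≤ 2 * K + 1 → z ≤ z₀ →
    UP P T t m z ≤ 2 ^ T * (1 + JJ P t + ew (JJ P t) (psi z₀ β) z) := by
  have hβ0 : 0 ≤ β := le_trans (by positivity) hβ
  have hz₀' : (2 * K : ℝ) ≤ (z₀ : ℝ) ^ 2 := by exact_mod_cast hz₀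
  have hT : (0 : ℝ) < 2 ^ T := by positivity
  have hlarge : ∀ t m, m ≤ 2 * K + 1 → UP P T t m z₀ ≤
      2 ^ T * (1 + JJ P t + ew (JJ P t) (psi z₀ β) z₀) := by
    intro t m hm
    refine (UP_triv P T t m z₀).trans ?_
    apply mul_le_mul_of_nonneg_left _ hT.le
    have h1 := psi_large (z₀ := z₀) hβ0 (JJ P t)
    have h2 : (m : ℝ) ≤ 2 * K + 1 := by exact_mod_cast hm
    linarith
  intro t
  induction t with
  | zero =>
    intro _ m z hm hmK hz
    rcases eq_or_lt_of_le hz with h | h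
    · rw [h]
      exact hlarge 0 m hmK
    · refine (UP_triv P T 0 m z).trans ?_
      apply mul_le_mul_of_nonneg_left _ hT.le
      have h1 : (m : ℝ) ≤ 1 := by
        have : m ≤ 1 := by omega
        exact_mod_cast this
      have h2 : JJ P 0 = 0 := rfl
      have h3 : 0 ≤ psi z₀ β z := by
        unfold psi
        split_ifs with h4
        · have h5 : (1 : ℝ) ≤ z := by exact_mod_cast h4
          have h6 : (z : ℝ) ≤ z₀ := by exact_mod_cast hz
          nlinarith
        · exact le_rfl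
      rw [h2]
      show (m : ℝ) ≤ 1 + ((0 : ℕ) : ℝ) + psi z₀ β z
      push_cast
      linarith
  | succ t ih =>
    intro hta
    have main : ∀ (m' : ℕ) (z : ℤ), m' + 1 ≤ t + 1 + 1 → m' + 1 ≤ 2 * K + 1 → z ≤ z₀ →
        UP P T (t + 1) (m' + 1) z ≤
          2 ^ T * (1 + JJ P (t + 1) + ew (JJ P (t + 1)) (psi z₀ β) z) := by
      intro m' z hm hmK hz
      rcases eq_or_lt_of_le hz with h | h
      · rw [h]
        exact hlarge (t + 1) (m' + 1) hmK
      have hJ : JJ P (t + 1) = if P (t + 1) then 0 else JJ P t + 1 := rfl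
      have hrec := UP_rec (P := P) (T := T) (t := t) (m := m') (z := z) (by omega)
      have i1 := ih (by omega) m' (z + 1) (by omega) (by omega) (by omega)
      have i2 := ih (by omega) m' (z - 1) (by omega) (by omega) (by omega)
      have hstep : UP P T (t + 1) (m' + 1) z ≤ 2 ^ T * (1 + ((JJ P t + 1 : ℕ) : ℝ) +
          ew (JJ P t + 1) (psi z₀ β) z) := by
        have e : ew (JJ P t + 1) (psi z₀ β) z =
          (ew (JJ P t) (psi z₀ β) (z + 1) + ew (JJ P t) (psi z₀ β) (z - 1)) / 2 := rfl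
        rw [e]
        push_cast
        linarith
      by_cases hPt : P (t + 1)
      · rw [hJ, if_pos hPt]
        by_cases hz1 : 1 ≤ z
        · refine hstep.trans ?_
          apply mul_le_mul_of_nonneg_left _ hT.le
          have h2 : JJ P t + 1 ≤ Rc + 1 := by
            have := JJ_le hP (t := t) (by omega)
            omega
          have h3 := psi_step hβ h2 hz1
          show 1 + ((JJ P t + 1 : ℕ) : ℝ) + ew (JJ P t + 1) (psi z₀ β) z ≤
            1 + ((0 : ℕ) : ℝ) + psi z₀ β z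
          push_cast at h3 ⊢
          linarith
        · rw [UP_zero_of hPt (by omega)]
          have h4 : psi z₀ β z = 0 := by
            unfold psi
            rw [if_neg hz1]
          show 0 ≤ 2 ^ T * (1 + ((0 : ℕ) : ℝ) + psi z₀ β z)
          rw [h4]
          positivity
      · rw [hJ, if_neg hPt]
        exact hstep
    intro m z hm hmK hz
    rcases Nat.eq_zero_or_pos m with hm0 | hm0
    · subst hm0
      have h1 : UP P T (t + 1) 0 z = 0 := by simp [UP]
      rw [h1]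
      refine le_trans ?_ (main 0 z (by omega) (by omega) hz)
      unfold UP
      apply Finset.sum_nonneg
      intro j _
      apply Finset.sum_nonneg
      intro c _
      split_ifs <;> norm_num
    · obtain ⟨m', rfl⟩ : ∃ m', m = m' + 1 := ⟨m - 1, by omega⟩
      exact main m' z hm hmK hz

end ZQC

open ZQC

/-- QC: the backward walk sampled at checkpoints -/
theorem check_sum : ∃ C : ℝ, 0 < C ∧ ∀ (T K Rc a m : ℕ) (P : ℕ → Prop), 1 ≤ Rc → Rc ≤ K →
    a ≤ T → (∀ t, t + Rc ≤ a → ∃ s, t ≤ s ∧ s ≤ t + Rc ∧ P s) →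
    (∑ τ ∈ Icc (a - 2 * K) a, ((univ.filter (fun c : Fin T → Bool =>
      ∀ r : ℕ, τ ≤ r → r ≤ a → P r → 2 * ct (ex c) r a - ((a : ℤ) - r) ≤ 2 * m)).card : ℝ)) ≤
      C * ((m : ℝ) + Real.sqrt Rc) * Real.sqrt K * 2 ^ T := by
  refine ⟨100, by norm_num, ?_⟩
  intro T K Rc a m P hRc hRK haT hP
  have hK1 : (1 : ℝ) ≤ K := by exact_mod_cast hRc.trans hRK
  have hRc1 : (1 : ℝ) ≤ Rc := by exact_mod_cast hRc
  have hRK' : (Rc : ℝ) ≤ K := by exact_mod_cast hRK
  set sK := Real.sqrt K with hsK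
  set sR := Real.sqrt Rc with hsR
  have hsK2 : sK ^ 2 = K := Real.sq_sqrt (by linarith)
  have hsR2 : sR ^ 2 = Rc := Real.sq_sqrt (by linarith)
  have hsK1 : 1 ≤ sK := by rw [hsK]; exact Real.one_le_sqrt.2 hK1
  have hsR1 : 1 ≤ sR := by rw [hsR]; exact Real.one_le_sqrt.2 hRc1
  have hsRK : sR ≤ sK := Real.sqrt_le_sqrt hRK'
  have hT : (0 : ℝ) < 2 ^ T := by positivity
  -- rewriting the sum
  set M : ℕ := min (2 * K) a + 1 with hM
  have hsum : (∑ τ ∈ Icc (a - 2 * K) a, ((univ.filter (fun c : Fin T → Bool =>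
      ∀ r : ℕ, τ ≤ r → r ≤ a → P r → 2 * ct (ex c) r a - ((a : ℤ) - r) ≤ 2 * m)).card : ℝ)) =
      UP P T a M (2 * m + 1) := by
    unfold UP
    have h1 : Icc (a - 2 * K) a = (range M).image (fun j => a - j) := by
      ext τ
      rw [Finset.mem_Icc, Finset.mem_image]
      constructor
      · intro h
        exact ⟨a - τ, by rw [Finset.mem_range]; omega, by omega⟩
      · rintro ⟨j, hj, rfl⟩
        rw [Finset.mem_range] at hj
        omega
    rw [h1, Finset.sum_image]
    · apply Finset.sum_congr rfl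
      intro j hj
      rw [Finset.mem_range] at hj
      rw [Finset.card_filter]
      push_cast
      apply Finset.sum_congr rfl
      intro c _
      have h2 : (∀ r : ℕ, a - j ≤ r → r ≤ a → P r →
          2 * ct (ex c) r a - ((a : ℤ) - r) ≤ 2 * m) ↔ cnp P (ex c) a j (2 * m + 1) := by
        unfold cnp
        constructor
        · intro h s h3 h4 h5
          have := h s (by omega) h4 h5
          linarith
        · intro h s h3 h4 h5
          have := h s (by omega) h4 h5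
          linarith
      simp only [h2]
    · intro j hj j' hj' h
      rw [Finset.mem_coe, Finset.mem_range] at hj hj'
      simp only at h
      omega
  rw [hsum]
  -- the cutoff
  obtain ⟨z₀, hz₀⟩ : ∃ z₀ : ℕ, z₀ = ⌈Real.sqrt (2 * K)⌉₊ := ⟨_, rfl⟩
  have hs2K : Real.sqrt (2 * K) ^ 2 = 2 * K := Real.sq_sqrt (by linarith)
  have hs2K0 : 0 ≤ Real.sqrt (2 * K) := Real.sqrt_nonneg _
  have hz1 : Real.sqrt (2 * K) ≤ z₀ := by
    rw [hz₀]
    exact Nat.le_ceil _
  have hz2 : (z₀ : ℝ) < Real.sqrt (2 * K) + 1 := by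
    rw [hz₀]
    exact Nat.ceil_lt_add_one hs2K0
  have hz3 : Real.sqrt (2 * K) ≤ 3 / 2 * sK := by
    have : Real.sqrt (2 * K) ≤ Real.sqrt ((3 / 2 * sK) ^ 2) := by
      apply Real.sqrt_le_sqrt
      rw [mul_pow, hsK2]
      linarith
    rwa [Real.sqrt_sq (by positivity)] at this
  have hz4 : (z₀ : ℝ) ≤ 5 / 2 * sK := by linarith
  have hz5 : 2 * K ≤ z₀ ^ 2 := by
    have h1 : (2 * K : ℝ) ≤ (z₀ : ℝ) ^ 2 := by
      rw [← hs2K]
      exact pow_le_pow_left₀ hs2K0 hz1 2
    exact_mod_cast h1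
  have hz6 : sK ≤ z₀ := by
    refine le_trans ?_ hz1
    rw [hsK]
    apply Real.sqrt_le_sqrt
    linarith
  by_cases hmz : (2 * (m : ℤ) + 1) ≤ z₀
  · -- small m
    set β : ℝ := 2 * ((Rc + 1 : ℕ) : ℝ) + 2 * z₀ * (2 * Real.sqrt ((Rc + 1 : ℕ) : ℝ)) with hβ
    have hb := UP_bound (P := P) (T := T) (K := K) (Rc := Rc) (a := a) (z₀ := z₀) (β := β) haT hP
      hz5 le_rfl a le_rfl M (2 * m + 1) (by omega) (by omega) hmz
    refine hb.trans ?_
    have hJ : (JJ P a : ℝ) ≤ Rc := by exact_mod_cast JJ_le hP le_rfl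
    have hβ0 : 0 ≤ β := by positivity
    have he := ew_psi_le (z₀ := z₀) hβ0 (JJ P a) (z := 2 * (m : ℤ) + 1) (by positivity)
    have hsJ : Real.sqrt (JJ P a) ≤ sR := Real.sqrt_le_sqrt hJ
    have hsR' : Real.sqrt ((Rc + 1 : ℕ) : ℝ) ≤ 3 / 2 * sR := by
      have : Real.sqrt ((Rc + 1 : ℕ) : ℝ) ≤ Real.sqrt ((3 / 2 * sR) ^ 2) := by
        apply Real.sqrt_le_sqrt
        rw [mul_pow, hsR2]
        push_cast
        linarith
      rwa [Real.sqrt_sq (by positivity)] at this
    have hβ1 : β ≤ 4 * Rc + 15 * (sK * sR) := by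
      rw [hβ]
      push_cast
      push_cast at hsR'
      have h1 : (z₀ : ℝ) * Real.sqrt ((Rc : ℝ) + 1) ≤ (5 / 2 * sK) * (3 / 2 * sR) := by
        apply mul_le_mul hz4 hsR' (Real.sqrt_nonneg _)
        positivity
      linarith
    have hRc2 : (Rc : ℝ) ≤ sK * sR := by
      rw [← hsR2, sq]
      exact mul_le_mul_of_nonneg_right hsRK (by linarith)
    have h2 : 2 * (z₀ : ℝ) * (((2 * (m : ℤ) + 1 : ℤ) : ℝ) + Real.sqrt (JJ P a)) ≤
        5 * sK * (2 * m + 1 + sR) := by
      push_cast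
      have h3 : (0 : ℝ) ≤ 2 * (m : ℝ) + 1 := by positivity
      have h4 : 0 ≤ Real.sqrt (JJ P a) := Real.sqrt_nonneg _
      apply mul_le_mul (by linarith) (by linarith) (by linarith) (by positivity)
    have h5 : 1 ≤ sK * sR := one_le_mul_of_one_le_of_one_le hsK1 hsR1
    have h6 : sK ≤ sK * sR := le_mul_of_one_le_right (by linarith) hsR1
    have h7 : 0 ≤ (m : ℝ) * sK := by positivity
    have h8 : 1 + (JJ P a : ℝ) + ew (JJ P a) (psi z₀ β) (2 * (m : ℤ) + 1) ≤
        100 * ((m : ℝ) + sR) * sK := by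
      nlinarith
    calc _ ≤ 2 ^ T * (100 * ((m : ℝ) + sR) * sK) := mul_le_mul_of_nonneg_left h8 hT.le
      _ = _ := by ring
  · -- large m
    push Not at hmz
    refine (UP_triv P T a M _).trans ?_
    have h1 : (M : ℝ) ≤ 2 * K + 1 := by
      have : M ≤ 2 * K + 1 := by omega
      exact_mod_cast this
    have h2 : (z₀ : ℝ) < 2 * m + 1 := by exact_mod_cast hmz
    have h3 : sK ≤ 2 * (m + sR) := by linarith
    have h4 : (M : ℝ) ≤ 100 * ((m : ℝ) + sR) * sK := by
      have h5 : sK * sK ≤ 2 * (m + sR) * sK := mul_le_mul_of_nonneg_right h3 (by linarith)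
      have h6 : sK * sK = K := by rw [← sq, hsK2]
      nlinarith
    calc (2 : ℝ) ^ T * M ≤ 2 ^ T * (100 * ((m : ℝ) + sR) * sK) :=
          mul_le_mul_of_nonneg_left h4 hT.le
      _ = _ := by ring

end MP34e
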