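import Pool.Agent.Work.MP_34e428_co.ZQ0

/-! Module QF: flipping the last `ℓ + 1` H coins. -/

set_option autoImplicit false

open Finset
open scoped Classical

namespace MP34e

namespace ZQF

/-- indicator of `true` -/
def ind (b : Bool) : ℤ := if b then 1 else 0

theorem ct_sum (g : ℕ → Bool) (a n : ℕ) : ct g a (a + n) = ∑ i ∈ range n, ind (g (a + i)) := by
  induction n with
  | zero => simp [ct_self]
  | succ n ih =>
    rw [← add_assoc, ct_succ g (Nat.le_add_right a n), ih, Finset.sum_range_succ]
    rfl

theorem ct_card (g : ℕ → Bool) (a n : ℕ) :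
    ct g a (a + n) = (((range n).filter (fun i => g (a + i) = true)).card : ℤ) := by
  rw [ct_sum, Finset.card_filter]
  push_cast
  apply Finset.sum_congr rfl
  intro i _
  unfold ind
  rfl

theorem past_congr {T a : ℕ} {F : (Fin T → Bool) → ℝ} (hF : past a F) {c c' : Fin T → Bool}
    (h : ∀ i : Fin T, (i : ℕ) < a → c i = c' i) : F c = F c' := by
  have key : ∀ S : Finset (Fin T), (∀ i ∈ S, a ≤ (i : ℕ)) → F (S.piecewise c' c) = F c := by
    intro S
    induction S using Finset.induction_on with
    | empty =>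
      intro _
      rw [Finset.piecewise_empty]
    | insert i S hi ih =>
      intro hS
      rw [Finset.piecewise_insert, hF _ _ _ (hS i (Finset.mem_insert_self i S))]
      exact ih fun j hj => hS j (Finset.mem_insert_of_mem hj)
  have h1 := key (univ.filter fun i : Fin T => a ≤ (i : ℕ)) (fun i hi => (Finset.mem_filter.1 hi).2)
  rw [← h1]
  congr 1
  funext i
  by_cases hi : a ≤ (i : ℕ)
  · rw [Finset.piecewise_eq_of_mem _ _ _ (by simp [hi])]
  · rw [Finset.piecewise_eq_of_notMem _ _ _ (by simp [hi])]
    exact h i (by omega)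

theorem ex_congr {T a : ℕ} {c c' : Fin T → Bool} (h : ∀ i : Fin T, (i : ℕ) < a → c i = c' i)
    {n : ℕ} (hn : n < a) : ex c n = ex c' n := by
  unfold ex
  split_ifs with h1
  · exact h ⟨n, h1⟩ hn
  · rfl

/-- fair coin at time `b` -/
theorem fair {T b : ℕ} (hb : b < T) {G : Bool → (Fin T → Bool) → ℝ}
    (hG : ∀ v, past b (G v)) :
    ∑ c : Fin T → Bool, G (ex c b) c =
      (1 / 2) * (∑ c : Fin T → Bool, G true c + ∑ c : Fin T → Bool, G false c) := by
  have h := flip_sum (T := T) ⟨b, hb⟩ G (fun v c v' => hG v c ⟨b, hb⟩ v' le_rfl)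
  rw [← h]
  apply Finset.sum_congr rfl
  intro c _
  have : ex c b = c ⟨b, hb⟩ := by
    unfold ex
    rw [dif_pos hb]
  rw [this]

/-! ### Few H coins -/

theorem few {T : ℕ} (m : ℕ) : ∀ (b h : ℕ) (F : (Fin T → Bool) → ℝ), (∀ c, 0 ≤ F c) → past b F →
    b + m ≤ T + 1 →
    ∑ j ∈ range m, ∑ c : Fin T → Bool, F c * (if ct (ex c) b (b + j) ≤ h then (1 : ℝ) else 0) ≤
      (2 * h + 2) * ∑ c : Fin T → Bool, F c := by
  induction m with
  | zero =>
    intro b h F hF0 _ _
    rw [Finset.sum_range_zero]
    have : 0 ≤ ∑ c : Fin T → Bool, F c := Finset.sum_nonneg fun c _ => hF0 c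
    positivity
  | succ m ih =>
    intro b h F hF0 hF hbm
    have hF' : 0 ≤ ∑ c : Fin T → Bool, F c := Finset.sum_nonneg fun c _ => hF0 c
    rw [Finset.sum_range_succ']
    have h0 : ∑ c : Fin T → Bool, F c * (if ct (ex c) b (b + 0) ≤ h then (1 : ℝ) else 0) ≤
        ∑ c : Fin T → Bool, F c := by
      apply Finset.sum_le_sum
      intro c _
      apply mul_le_of_le_one_right (hF0 c)
      split_ifs <;> norm_num
    rcases Nat.eq_zero_or_pos m with hm | hm
    · subst hm
      rw [Finset.sum_range_zero, zero_add]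
      refine h0.trans ?_
      have : (0 : ℝ) ≤ h := Nat.cast_nonneg h
      nlinarith
    have hbT : b < T := by omega
    have hrec : ∀ j, ∑ c : Fin T → Bool,
        F c * (if ct (ex c) b (b + (j + 1)) ≤ h then (1 : ℝ) else 0) =
        ∑ c : Fin T → Bool, (fun (v : Bool) (c : Fin T → Bool) =>
          F c * (if ind v + ct (ex c) (b + 1) (b + 1 + j) ≤ h then (1 : ℝ) else 0)) (ex c b) c := by
      intro j
      apply Finset.sum_congr rfl
      intro c _
      have e : ct (ex c) b (b + (j + 1)) = ind (ex c b) + ct (ex c) (b + 1) (b + 1 + j) := by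
        rw [← add_assoc, add_right_comm, ct_succ_left (ex c) (by omega)]
        rfl
      simp only [e]
    -- split according to the coin
    have hpt : ∀ (v : Bool), ∑ j ∈ range m, ∑ c : Fin T → Bool,
        F c * (if ex c b = v ∧ ct (ex c) b (b + (j + 1)) ≤ h then (1 : ℝ) else 0) ≤
        (if v then (2 * h : ℝ) else (2 * h + 2)) * ((1 / 2) * ∑ c : Fin T → Bool, F c) := by
      intro v
      set F' : (Fin T → Bool) → ℝ := fun c => F c * (if ex c b = v then 1 else 0) with hF'
      have hF'0 : ∀ c, 0 ≤ F' c := by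
        intro c
        simp only [hF']
        apply mul_nonneg (hF0 c)
        split_ifs <;> norm_num
      have hF'p : past (b + 1) F' := by
        intro c i v' hi
        simp only [hF']
        rw [hF c i v' (by omega), ex_update c i v' (show b ≠ i by omega)]
      have hsum : ∑ c : Fin T → Bool, F' c = (1 / 2) * ∑ c : Fin T → Bool, F c := by
        have h1 := fair (T := T) hbT (G := fun v' c => F c * (if v' = v then 1 else 0)) (by
          intro v' c i v'' hi
          simp only
          rw [hF c i v'' hi])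
        rw [h1]
        cases v <;> simp
      cases v with
      | false =>
        have h2 := ih (b + 1) h F' hF'0 hF'p (by omega)
        rw [hsum] at h2
        simp only [Bool.false_eq_true, if_false]
        refine le_trans (le_of_eq ?_) h2
        apply Finset.sum_congr rfl
        intro j _
        apply Finset.sum_congr rfl
        intro c _
        have e : ct (ex c) b (b + (j + 1)) = ind (ex c b) + ct (ex c) (b + 1) (b + 1 + j) := by
          rw [← add_assoc, add_right_comm, ct_succ_left (ex c) (by omega)]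
          rfl
        simp only [hF', e]
        by_cases hv : ex c b = false
        · simp [hv, ind]
        · simp [hv]
      | true =>
        simp only [if_true]
        rcases Nat.eq_zero_or_pos h with hh | hh
        · subst hh
          have : ∀ j ∈ range m, ∑ c : Fin T → Bool,
              F c * (if ex c b = true ∧ ct (ex c) b (b + (j + 1)) ≤ (0 : ℕ)
                then (1 : ℝ) else 0) = 0 := by
            intro j _
            apply Finset.sum_eq_zero
            intro c _
            rw [if_neg, mul_zero]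
            rintro ⟨h3, h4⟩
            have e : ct (ex c) b (b + (j + 1)) = ind (ex c b) + ct (ex c) (b + 1) (b + 1 + j) := by
              rw [← add_assoc, add_right_comm, ct_succ_left (ex c) (by omega)]
              rfl
            rw [e, h3] at h4
            have := ct_nonneg (ex c) (b + 1) (b + 1 + j)
            unfold ind at h4
            simp at h4
            omega
          rw [Finset.sum_eq_zero this]
          simp
        · obtain ⟨h', rfl⟩ : ∃ h', h = h' + 1 := ⟨h - 1, by omega⟩
          have h2 := ih (b + 1) h' F' hF'0 hF'p (by omega)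
          rw [hsum] at h2
          have h3 : (2 * (h' : ℝ) + 2) = 2 * ((h' + 1 : ℕ) : ℝ) := by
            push_cast
            ring
          rw [h3] at h2
          refine le_trans (le_of_eq ?_) h2
          apply Finset.sum_congr rfl
          intro j _
          apply Finset.sum_congr rfl
          intro c _
          have e : ct (ex c) b (b + (j + 1)) = ind (ex c b) + ct (ex c) (b + 1) (b + 1 + j) := by
            rw [← add_assoc, add_right_comm, ct_succ_left (ex c) (by omega)]
            rfl
          simp only [hF', e]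
          by_cases hv : ex c b = true
          · have e2 : ((1 : ℤ) + ct (ex c) (b + 1) (b + 1 + j) ≤ ((h' + 1 : ℕ) : ℤ)) ↔
                ct (ex c) (b + 1) (b + 1 + j) ≤ (h' : ℤ) := by
              push_cast
              constructor <;> intro h <;> linarith
            simp only [hv, ind, if_true, true_and, e2]
            simp
          · simp [hv]
    have hsplit : ∑ j ∈ range m, ∑ c : Fin T → Bool,
        F c * (if ct (ex c) b (b + (j + 1)) ≤ h then (1 : ℝ) else 0) =
        (∑ j ∈ range m, ∑ c : Fin T → Bool,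
        F c * (if ex c b = true ∧ ct (ex c) b (b + (j + 1)) ≤ h then (1 : ℝ) else 0)) +
        ∑ j ∈ range m, ∑ c : Fin T → Bool,
        F c * (if ex c b = false ∧ ct (ex c) b (b + (j + 1)) ≤ h then (1 : ℝ) else 0) := by
      rw [← Finset.sum_add_distrib]
      apply Finset.sum_congr rfl
      intro j _
      rw [← Finset.sum_add_distrib]
      apply Finset.sum_congr rfl
      intro c _
      cases ex c b <;> simp
    have p1 := hpt true
    have p2 := hpt false
    simp only [if_true, Bool.false_eq_true, if_false] at p1 p2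
    rw [hsplit]
    nlinarith

/-! ### All coins V -/

theorem allV {T : ℕ} (n : ℕ) : ∀ (x : ℕ) (G : (Fin T → Bool) → ℝ), (∀ c, 0 ≤ G c) → past x G →
    x + n ≤ T →
    ∑ c : Fin T → Bool, G c * (if ∀ r, x ≤ r → r < x + n → ex c r = false then (1 : ℝ) else 0) ≤
      (1 / 2) ^ n * ∑ c : Fin T → Bool, G c := by
  induction n with
  | zero =>
    intro x G hG0 _ _
    rw [pow_zero, one_mul]
    apply Finset.sum_le_sum
    intro c _
    apply mul_le_of_le_one_right (hG0 c)
    split_ifs <;> norm_num
  | succ n ih =>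
    intro x G hG0 hG hx
    have hxT : x < T := by omega
    set G' : (Fin T → Bool) → ℝ := fun c => G c * (if ex c x = false then 1 else 0) with hG'
    have hG'0 : ∀ c, 0 ≤ G' c := by
      intro c
      simp only [hG']
      apply mul_nonneg (hG0 c)
      split_ifs <;> norm_num
    have hG'p : past (x + 1) G' := by
      intro c i v' hi
      simp only [hG']
      rw [hG c i v' (by omega), ex_update c i v' (show x ≠ i by omega)]
    have hsum : ∑ c : Fin T → Bool, G' c = (1 / 2) * ∑ c : Fin T → Bool, G c := by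
      have h1 := fair (T := T) hxT (G := fun v' c => G c * (if v' = false then 1 else 0)) (by
        intro v' c i v'' hi
        simp only
        rw [hG c i v'' hi])
      rw [h1]
      simp
    have h2 := ih (x + 1) G' hG'0 hG'p (by omega)
    rw [hsum] at h2
    have h3 : ∑ c : Fin T → Bool,
        G c * (if ∀ r, x ≤ r → r < x + (n + 1) → ex c r = false then (1 : ℝ) else 0) ≤
        ∑ c : Fin T → Bool,
        G' c * (if ∀ r, x + 1 ≤ r → r < x + 1 + n → ex c r = false then (1 : ℝ) else 0) := by
      apply Finset.sum_le_sum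
      intro c _
      by_cases h : ∀ r, x ≤ r → r < x + (n + 1) → ex c r = false
      · have h4 : ∀ r, x + 1 ≤ r → r < x + 1 + n → ex c r = false := fun r h5 h6 =>
          h r (by omega) (by omega)
        have h5 : ex c x = false := h x le_rfl (by omega)
        simp only [hG']
        rw [if_pos h, if_pos h4, if_pos h5, mul_one, mul_one]
      · rw [if_neg h, mul_zero]
        apply mul_nonneg (hG'0 c)
        split_ifs <;> norm_num
    refine h3.trans (h2.trans (le_of_eq ?_))
    rw [pow_succ]
    ring

/-! ### The flip -/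

/-- set the coins in `[p, q)` to V -/
def zr {T : ℕ} (p q : ℕ) (c : Fin T → Bool) : Fin T → Bool := fun n =>
  if p ≤ (n : ℕ) ∧ (n : ℕ) < q then false else c n

theorem ex_zr {T : ℕ} (p q : ℕ) (c : Fin T → Bool) (n : ℕ) :
    ex (zr p q c) n = if p ≤ n ∧ n < q then false else ex c n := by
  unfold ex zr
  split_ifs <;> simp_all

theorem ct_zr_left {T : ℕ} (p q : ℕ) (c : Fin T → Bool) {a r : ℕ} (hr : r ≤ p) :
    ct (ex (zr p q c)) a r = ct (ex c) a r := by
  apply ct_congr
  intro n _ hn
  rw [ex_zr, if_neg (by omega)]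

theorem ct_false {g : ℕ → Bool} {p q : ℕ} (h : ∀ n, p ≤ n → n < q → g n = false) :
    ct g p q = 0 := by
  unfold ct
  rw [Finset.filter_false_of_mem]
  · simp
  · intro n hn
    rw [Finset.mem_Ico] at hn
    rw [h n hn.1 hn.2]
    simp

theorem ct_zr_mid {T : ℕ} (p q : ℕ) (c : Fin T → Bool) : ct (ex (zr p q c)) p q = 0 := by
  apply ct_false
  intro n h1 h2
  rw [ex_zr, if_pos ⟨h1, h2⟩]

/-- the last `ℓ + 1` H coins before `s` start at `p` -/
theorem exists_start {g : ℕ → Bool} {a s ℓ : ℕ} (h : (ℓ : ℤ) + 1 ≤ ct g a s) (has : a ≤ s) :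
    ∃ p, a ≤ p ∧ p < s ∧ ct g p s = ℓ + 1 ∧ g p = true := by
  have hne : ((Finset.Icc a s).filter (fun p => (ℓ : ℤ) + 1 ≤ ct g p s)).Nonempty :=
    ⟨a, Finset.mem_filter.2 ⟨Finset.mem_Icc.2 ⟨le_rfl, has⟩, h⟩⟩
  obtain ⟨p, hp, hmax⟩ := Finset.exists_max_image _ (fun p => p) hne
  rw [Finset.mem_filter, Finset.mem_Icc] at hp
  have hps : p < s := by
    rcases Nat.lt_or_ge p s with h1 | h1
    · exact h1
    · have : p = s := le_antisymm hp.1.2 h1
      rw [this, ct_self] at hp
      omega
  have h1 : ¬ (ℓ : ℤ) + 1 ≤ ct g (p + 1) s := by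
    intro hcon
    have := hmax (p + 1) (Finset.mem_filter.2 ⟨Finset.mem_Icc.2 ⟨by omega, by omega⟩, hcon⟩)
    omega
  have h2 : ct g p s = (if g p then 1 else 0) + ct g (p + 1) s := ct_succ_left g hps
  refine ⟨p, hp.1.1, hps, ?_, ?_⟩
  · have h3 := hp.2
    rw [h2] at h3 ⊢
    split_ifs at h3 ⊢ <;> omega
  · by_contra hcon
    have h3 := hp.2
    rw [h2, if_neg hcon] at h3
    omega

/-- after the flip there is a new minimum -/
theorem exists_newmin {e g' : ℕ → Bool} {y a p s : ℕ} (hap : a ≤ p) (hps : p < s)
    (h1 : FQ e g' y a s ≤ -1) (h2 : ∀ r, a ≤ r → r ≤ p → FQ e g' y a s < FQ e g' y a r) :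
    ∃ x, p < x ∧ x ≤ s ∧ newmin e g' y a x := by
  have hex : ∃ n, a ≤ n ∧ FQ e g' y a n ≤ FQ e g' y a s := ⟨s, by omega, le_rfl⟩
  set x := Nat.find hex with hx
  have hx1 := Nat.find_spec hex
  have hx2 : ∀ m, m < x → ¬ (a ≤ m ∧ FQ e g' y a m ≤ FQ e g' y a s) := fun m hm =>
    Nat.find_min hex hm
  have hxs : x ≤ s := Nat.find_min' hex ⟨by omega, le_rfl⟩
  have hpx : p < x := by
    by_contra hcon
    have := h2 x hx1.1 (by omega)
    have h3 := hx1.2
    rw [← hx] at h3
    omega
  refine ⟨x, hpx, hxs, by omega, hx1.2.trans h1, ?_⟩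
  intro r hr1 hr2
  have h3 := hx2 r hr2
  have h4 : FQ e g' y a s < FQ e g' y a r := by
    by_contra hcon
    exact h3 ⟨hr1, by omega⟩
  exact lt_of_le_of_lt hx1.2 h4

/-- the event for fixed `x`, `j`, `i`: the flip at `s = x + i` starts at `p = x - j` -/
def Ev {T : ℕ} (e : ℕ → Bool) (y a ℓ x j i : ℕ) (c : Fin T → Bool) : Prop :=
  ct (ex c) (x - j) (x + i) = ℓ + 1 ∧ ex c (x - j) = true ∧
    newmin e (ex (zr (x - j) (x + i) c)) y a x

/-- the positions of the `ℓ` H coins after the first one -/
noncomputable def pos {T : ℕ} (p w : ℕ) (c : Fin T → Bool) : Finset ℕ :=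
  ((range w).filter (fun k => ex c (p + k) = true)).erase 0

theorem Ev_sum {T : ℕ} {e : ℕ → Bool} {y a ℓ x j i : ℕ} (hj : 1 ≤ j) (hjx : a + j ≤ x)
    (hx : x + i ≤ T) {F : (Fin T → Bool) → ℝ} (hF : past a F) (hF0 : ∀ c, 0 ≤ F c) :
    ∑ c : Fin T → Bool, F c * (if Ev e y a ℓ x j i c then (1 : ℝ) else 0) ≤
      ((j + i : ℕ) : ℝ) ^ ℓ * ((1 / 2) ^ i *
      ∑ c : Fin T → Bool, F c * (if newmin e (ex c) y a x ∧ Vrun (ex c) j x then 1 else 0)) := by
  set p := x - j with hp
  set w := j + i with hw
  have hpw : p + w = x + i := by omega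
  -- the target event
  set G : (Fin T → Bool) → ℝ := fun c => F c * ((if newmin e (ex c) y a x ∧ Vrun (ex c) j x
    then 1 else 0) * (if ∀ r, x ≤ r → r < x + i → ex c r = false then (1 : ℝ) else 0)) with hG
  have hG0 : ∀ c, 0 ≤ G c := by
    intro c
    simp only [hG]
    apply mul_nonneg (hF0 c)
    split_ifs <;> norm_num
  have step1 : ∑ c : Fin T → Bool, F c * (if Ev e y a ℓ x j i c then (1 : ℝ) else 0) ≤
      ∑ q ∈ (Finset.powersetCard ℓ (range w)) ×ˢ (univ : Finset (Fin T → Bool)), G q.2 := by
    have h1 : ∑ c : Fin T → Bool, F c * (if Ev e y a ℓ x j i c then (1 : ℝ) else 0) =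
        ∑ c ∈ univ.filter (fun c : Fin T → Bool => Ev e y a ℓ x j i c), F c := by
      rw [Finset.sum_filter]
      apply Finset.sum_congr rfl
      intro c _
      split_ifs <;> simp
    rw [h1]
    set Φ : (Fin T → Bool) → Finset ℕ × (Fin T → Bool) := fun c => (pos p w c, zr p (x + i) c)
      with hΦ
    have hinj : Set.InjOn Φ (univ.filter (fun c : Fin T → Bool => Ev e y a ℓ x j i c) :
        Finset (Fin T → Bool)) := by
      intro c hc c' hc' heq
      rw [Finset.mem_coe, Finset.mem_filter] at hc hc'
      have q1 : pos p w c = pos p w c' := congrArg Prod.fst heq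
      have q2 : zr p (x + i) c = zr p (x + i) c' := congrArg Prod.snd heq
      have key : ∀ n, ex c n = ex c' n := by
        intro n
        by_cases hn : p ≤ n ∧ n < x + i
        · obtain ⟨k, rfl⟩ : ∃ k, n = p + k := ⟨n - p, by omega⟩
          by_cases hk : k = 0
          · subst hk
            have r1 := hc.2.2.1
            have r2 := hc'.2.2.1
            rw [add_zero]
            rw [r1, r2]
          · have hkw : k < w := by omega
            have m1 : k ∈ pos p w c ↔ ex c (p + k) = true := by
              unfold pos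
              rw [Finset.mem_erase, Finset.mem_filter, Finset.mem_range]
              tauto
            have m2 : k ∈ pos p w c' ↔ ex c' (p + k) = true := by
              unfold pos
              rw [Finset.mem_erase, Finset.mem_filter, Finset.mem_range]
              tauto
            rw [q1] at m1
            have m3 := m1.symm.trans m2
            cases h1 : ex c (p + k) <;> cases h2 : ex c' (p + k) <;> simp_all
        · have r1 := ex_zr p (x + i) c n
          have r2 := ex_zr p (x + i) c' n
          rw [if_neg hn] at r1 r2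
          rw [← r1, ← r2, q2]
      funext n
      have := key n
      unfold ex at this
      rw [dif_pos n.2, dif_pos n.2] at this
      exact this
    have hmem : ∀ c ∈ univ.filter (fun c : Fin T → Bool => Ev e y a ℓ x j i c),
        Φ c ∈ (Finset.powersetCard ℓ (range w)) ×ˢ (univ : Finset (Fin T → Bool)) := by
      intro c hc
      rw [Finset.mem_filter] at hc
      rw [Finset.mem_product]
      refine ⟨?_, Finset.mem_univ _⟩
      rw [Finset.mem_powersetCard]
      constructor
      · intro k hk
        simp only [hΦ] at hk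
        unfold pos at hk
        exact (Finset.mem_filter.1 (Finset.mem_of_mem_erase hk)).1
      · simp only [hΦ]
        unfold pos
        have e0 : 0 ∈ (range w).filter (fun k => ex c (p + k) = true) := by
          rw [Finset.mem_filter, Finset.mem_range]
          exact ⟨by omega, by rw [add_zero]; exact hc.2.2.1⟩
        rw [Finset.card_erase_of_mem e0]
        have e1 := hc.2.1
        rw [← hp, ← hpw, ct_card] at e1
        have e2 : ((range w).filter (fun k => ex c (p + k) = true)).card = ℓ + 1 := by
          exact_mod_cast e1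
        omega
    have hval : ∀ c ∈ univ.filter (fun c : Fin T → Bool => Ev e y a ℓ x j i c),
        F c = G (Φ c).2 := by
      intro c hc
      rw [Finset.mem_filter] at hc
      have e1 : F (zr p (x + i) c) = F c := by
        apply past_congr hF
        intro n hn
        unfold zr
        rw [if_neg (by omega)]
      have e2 : newmin e (ex (zr p (x + i) c)) y a x := hc.2.2.2
      have e3 : Vrun (ex (zr p (x + i) c)) j x := by
        intro r h1 h2
        rw [ex_zr, if_pos (by omega)]
      have e4 : ∀ r, x ≤ r → r < x + i → ex (zr p (x + i) c) r = false := by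
        intro r h1 h2
        rw [ex_zr, if_pos (by omega)]
      simp only [hG, hΦ]
      rw [e1, if_pos ⟨e2, e3⟩, if_pos e4]
      ring
    calc ∑ c ∈ univ.filter (fun c : Fin T → Bool => Ev e y a ℓ x j i c), F c
        = ∑ c ∈ univ.filter (fun c : Fin T → Bool => Ev e y a ℓ x j i c), G (Φ c).2 :=
          Finset.sum_congr rfl hval
      _ = ∑ q ∈ (univ.filter (fun c : Fin T → Bool => Ev e y a ℓ x j i c)).image Φ, G q.2 :=
          (Finset.sum_image (f := fun q : Finset ℕ × (Fin T → Bool) => G q.2) hinj).symm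
      _ ≤ _ := by
          apply Finset.sum_le_sum_of_subset_of_nonneg
          · intro q hq
            rw [Finset.mem_image] at hq
            obtain ⟨c, hc, rfl⟩ := hq
            exact hmem c hc
          · intro q _ _
            exact hG0 _
  have step2 : ∑ q ∈ (Finset.powersetCard ℓ (range w)) ×ˢ (univ : Finset (Fin T → Bool)), G q.2 ≤
      (w : ℝ) ^ ℓ * ∑ c : Fin T → Bool, G c := by
    rw [Finset.sum_product]
    simp only
    rw [Finset.sum_const, Finset.card_powersetCard, Finset.card_range, nsmul_eq_mul]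
    apply mul_le_mul_of_nonneg_right _ (Finset.sum_nonneg fun c _ => hG0 c)
    have : w.choose ℓ ≤ w ^ ℓ := Nat.choose_le_pow w ℓ
    exact_mod_cast this
  have step3 : ∑ c : Fin T → Bool, G c ≤ (1 / 2) ^ i *
      ∑ c : Fin T → Bool, F c * (if newmin e (ex c) y a x ∧ Vrun (ex c) j x then 1 else 0) := by
    have h1 := allV (T := T) i x
      (fun c => F c * (if newmin e (ex c) y a x ∧ Vrun (ex c) j x then 1 else 0)) (by
        intro c
        apply mul_nonneg (hF0 c)
        split_ifs <;> norm_num) (by
        intro c k v hk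
        have e1 : ∀ r, r ≤ x → ct (ex (Function.update c k v)) a r = ct (ex c) a r := by
          intro r hr
          exact ct_update c k v (Or.inr (by omega))
        have e2 : newmin e (ex (Function.update c k v)) y a x ↔ newmin e (ex c) y a x := by
          unfold newmin FQ
          rw [e1 x le_rfl]
          constructor
          · rintro ⟨h1, h2, h3⟩
            refine ⟨h1, h2, fun r hr1 hr2 => ?_⟩
            have := h3 r hr1 hr2
            rwa [e1 r hr2.le] at this
          · rintro ⟨h1, h2, h3⟩
            refine ⟨h1, h2, fun r hr1 hr2 => ?_⟩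
            rw [e1 r hr2.le]
            exact h3 r hr1 hr2
        have e3 : Vrun (ex (Function.update c k v)) j x ↔ Vrun (ex c) j x := by
          unfold Vrun
          constructor
          · intro h r h1 h2
            have := h r h1 h2
            rwa [ex_update c k v (by omega)] at this
          · intro h r h1 h2
            rw [ex_update c k v (by omega)]
            exact h r h1 h2
        simp only [e2, e3]
        rw [hF c k v (by omega)]) hx
    refine le_trans (le_of_eq ?_) h1
    apply Finset.sum_congr rfl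
    intro c _
    simp only [hG]
    ring
  calc _ ≤ _ := step1
    _ ≤ _ := step2
    _ ≤ _ := mul_le_mul_of_nonneg_left step3 (by positivity)

end ZQF

open ZQF

/-- QF: flipping the last `ℓ + 1` H coins -/
theorem flip_near (ℓ : ℕ) : ∃ C : ℝ, 0 < C ∧ ∀ (T : ℕ) (e : ℕ → Bool) (a u y : ℕ)
    (F : (Fin T → Bool) → ℝ), a ≤ u → u ≤ T → past a F → (∀ c, 0 ≤ F c) →
    ∑ c : Fin T → Bool, F c * ∑ s ∈ Icc a u, (if nearQ e (ex c) y ℓ a s then (1 : ℝ) else 0) ≤
      C * ∑ c : Fin T → Bool, F c +
      C * ∑ j ∈ Icc 1 (u - a), (j : ℝ) ^ ℓ * ∑ x ∈ Icc (a + j) u, ∑ c : Fin T → Bool,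
        F c * (if newmin e (ex c) y a x ∧ Vrun (ex c) j x then (1 : ℝ) else 0) := by
  have hsm : Summable fun i : ℕ => ((i + 1 : ℕ) : ℝ) ^ ℓ * (1 / 2 : ℝ) ^ i := by
    have h1 : Summable fun i : ℕ => (i : ℝ) ^ ℓ * (1 / 2 : ℝ) ^ i :=
      summable_pow_mul_geometric_of_norm_lt_one ℓ (by norm_num)
    have h2 := (summable_nat_add_iff (f := fun i : ℕ => (i : ℝ) ^ ℓ * (1 / 2 : ℝ) ^ i) 1).2 h1
    refine (h2.mul_left 2).congr fun i => ?_
    rw [pow_succ]
    ring
  set S₀ : ℝ := ∑' i : ℕ, ((i + 1 : ℕ) : ℝ) ^ ℓ * (1 / 2 : ℝ) ^ i with hSz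
  have hSz0 : 0 ≤ S₀ := tsum_nonneg fun i => by positivity
  refine ⟨max (2 * ℓ + 2) (S₀ + 1), by positivity, ?_⟩
  intro T e a u y F hau huT hF hF0
  have hFs : 0 ≤ ∑ c : Fin T → Bool, F c := Finset.sum_nonneg fun c _ => hF0 c
  set N : ℕ → ℕ → ℝ := fun j x => ∑ c : Fin T → Bool,
        F c * (if newmin e (ex c) y a x ∧ Vrun (ex c) j x then (1 : ℝ) else 0) with hN
  have hN0 : ∀ j x, 0 ≤ N j x := by
    intro j x
    simp only [hN]
    apply Finset.sum_nonneg
    intro c _
    apply mul_nonneg (hF0 c)
    split_ifs <;> norm_num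
  -- pointwise bound
  have hpt : ∀ (c : Fin T → Bool) (s : ℕ), s ∈ Icc a u →
      (if nearQ e (ex c) y ℓ a s then (1 : ℝ) else 0) ≤
      (if ct (ex c) a s ≤ ℓ then (1 : ℝ) else 0) +
      ∑ j ∈ Icc 1 (u - a), ∑ x ∈ Icc (a + j) u, ∑ i ∈ range (u + 1 - x),
        (if s = x + i ∧ Ev e y a ℓ x j i c then (1 : ℝ) else 0) := by
    intro c s hs
    rw [Finset.mem_Icc] at hs
    have hnn : ∀ j ∈ Icc 1 (u - a), 0 ≤ ∑ x ∈ Icc (a + j) u, ∑ i ∈ range (u + 1 - x),
        (if s = x + i ∧ Ev e y a ℓ x j i c then (1 : ℝ) else 0) := by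
      intro j _
      apply Finset.sum_nonneg
      intro x _
      apply Finset.sum_nonneg
      intro i _
      split_ifs <;> norm_num
    by_cases hnear : nearQ e (ex c) y ℓ a s
    · rw [if_pos hnear]
      by_cases hfew : ct (ex c) a s ≤ ℓ
      · rw [if_pos hfew]
        have := Finset.sum_nonneg hnn
        linarith
      · rw [if_neg hfew, zero_add]
        obtain ⟨p, hap, hps, hct, hpt⟩ := exists_start (g := ex c) (a := a) (s := s) (ℓ := ℓ)
          (by omega) hs.1
        set g' := ex (zr p s c) with hg'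
        have hA : ct g' a s = ct (ex c) a p := by
          rw [← ct_add g' hap hps.le, hg', ct_zr_left p s c le_rfl, ct_zr_mid, add_zero]
        have hB : ct (ex c) a s = ct (ex c) a p + (ℓ + 1) := by
          rw [← ct_add (ex c) hap hps.le, hct]
        have hnear' : nearQ e (ex c) y ℓ a s := hnear
        unfold nearQ FQ at hnear'
        have h1 : FQ e g' y a s ≤ -1 := by
          unfold FQ
          have := hnear'.1
          rw [hA]
          rw [hB] at this
          linarith
        have h2 : ∀ r, a ≤ r → r ≤ p → FQ e g' y a s < FQ e g' y a r := by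
          intro r hr1 hr2
          have h3 := hnear'.2 r hr1 (by omega)
          have h4 : ct g' a r = ct (ex c) a r := ct_zr_left p s c hr2
          have h5 : ct (ex c) a s = ct (ex c) a r + ct (ex c) r s :=
            (ct_add (ex c) hr1 (by omega)).symm
          have h6 : ct e a s = ct e a r + ct e r s := (ct_add e hr1 (by omega)).symm
          unfold FQ
          rw [hA, h4]
          linarith
        obtain ⟨x, hpx, hxs, hnm⟩ := exists_newmin hap hps h1 h2
        have hj1 : x - (x - p) = p := by omega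
        have hj2 : x + (s - x) = s := by omega
        have hEv : Ev e y a ℓ x (x - p) (s - x) c := by
          unfold Ev
          rw [hj1, hj2]
          exact ⟨hct, hpt, hnm⟩
        have hmj : (x - p) ∈ Icc 1 (u - a) := by
          rw [Finset.mem_Icc]
          omega
        have hmx : x ∈ Icc (a + (x - p)) u := by
          rw [Finset.mem_Icc]
          omega
        have hmi : (s - x) ∈ range (u + 1 - x) := by
          rw [Finset.mem_range]
          omega
        have hnn3 : ∀ j x, ∀ i ∈ range (u + 1 - x),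
            (0 : ℝ) ≤ (if s = x + i ∧ Ev e y a ℓ x j i c then (1 : ℝ) else 0) := by
          intro j x i _
          split_ifs <;> norm_num
        have hnn2 : ∀ j, ∀ x ∈ Icc (a + j) u, (0 : ℝ) ≤ ∑ i ∈ range (u + 1 - x),
            (if s = x + i ∧ Ev e y a ℓ x j i c then (1 : ℝ) else 0) := by
          intro j x _
          exact Finset.sum_nonneg (hnn3 j x)
        calc (1 : ℝ) = (if s = x + (s - x) ∧ Ev e y a ℓ x (x - p) (s - x) c
              then (1 : ℝ) else 0) := by
              rw [if_pos ⟨hj2.symm, hEv⟩]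
          _ ≤ ∑ i ∈ range (u + 1 - x),
              (if s = x + i ∧ Ev e y a ℓ x (x - p) i c then (1 : ℝ) else 0) :=
              Finset.single_le_sum (f := fun i => if s = x + i ∧ Ev e y a ℓ x (x - p) i c
                then (1 : ℝ) else 0) (hnn3 (x - p) x) hmi
          _ ≤ ∑ x' ∈ Icc (a + (x - p)) u, ∑ i ∈ range (u + 1 - x'),
              (if s = x' + i ∧ Ev e y a ℓ x' (x - p) i c then (1 : ℝ) else 0) :=
              Finset.single_le_sum (f := fun x' => ∑ i ∈ range (u + 1 - x'),
                (if s = x' + i ∧ Ev e y a ℓ x' (x - p) i c then (1 : ℝ) else 0))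
                (hnn2 (x - p)) hmx
          _ ≤ _ :=
              Finset.single_le_sum (f := fun j => ∑ x' ∈ Icc (a + j) u, ∑ i ∈ range (u + 1 - x'),
                (if s = x' + i ∧ Ev e y a ℓ x' j i c then (1 : ℝ) else 0)) hnn hmj
    · rw [if_neg hnear]
      have := Finset.sum_nonneg hnn
      have h2 : (0 : ℝ) ≤ (if ct (ex c) a s ≤ ℓ then (1 : ℝ) else 0) := by
        split_ifs <;> norm_num
      linarith
  -- few H coins
  have hfew : ∑ c : Fin T → Bool, F c * ∑ s ∈ Icc a u,
      (if ct (ex c) a s ≤ ℓ then (1 : ℝ) else 0) ≤ (2 * ℓ + 2) * ∑ c : Fin T → Bool, F c := by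
    have h1 := few (T := T) (u + 1 - a) a ℓ F hF0 hF (by omega)
    refine le_trans (le_of_eq ?_) h1
    rw [Finset.sum_comm]
    apply Finset.sum_congr rfl
    intro c _
    rw [← Finset.mul_sum]
    congr 1
    have h2 : Icc a u = (range (u + 1 - a)).image (fun j => a + j) := by
      ext s
      rw [Finset.mem_Icc, Finset.mem_image]
      constructor
      · intro h
        exact ⟨s - a, by rw [Finset.mem_range]; omega, by omega⟩
      · rintro ⟨j, hj, rfl⟩
        rw [Finset.mem_range] at hj
        omega
    rw [h2, Finset.sum_image]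
    intro j _ j' _ h
    simpa using h
  -- the main term
  have hmain : ∑ c : Fin T → Bool, F c * ∑ s ∈ Icc a u,
      (∑ j ∈ Icc 1 (u - a), ∑ x ∈ Icc (a + j) u, ∑ i ∈ range (u + 1 - x),
        (if s = x + i ∧ Ev e y a ℓ x j i c then (1 : ℝ) else 0)) ≤
      S₀ * ∑ j ∈ Icc 1 (u - a), (j : ℝ) ^ ℓ * ∑ x ∈ Icc (a + j) u, N j x := by
    have h1 : ∀ c : Fin T → Bool, ∑ s ∈ Icc a u,
        (∑ j ∈ Icc 1 (u - a), ∑ x ∈ Icc (a + j) u, ∑ i ∈ range (u + 1 - x),
        (if s = x + i ∧ Ev e y a ℓ x j i c then (1 : ℝ) else 0)) ≤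
        ∑ j ∈ Icc 1 (u - a), ∑ x ∈ Icc (a + j) u, ∑ i ∈ range (u + 1 - x),
        (if Ev e y a ℓ x j i c then (1 : ℝ) else 0) := by
      intro c
      rw [Finset.sum_comm]
      apply Finset.sum_le_sum
      intro j _
      rw [Finset.sum_comm]
      apply Finset.sum_le_sum
      intro x _
      rw [Finset.sum_comm]
      apply Finset.sum_le_sum
      intro i _
      by_cases hE : Ev e y a ℓ x j i c
      · rw [if_pos hE]
        simp only [hE, and_true]
        rw [Finset.sum_ite_eq']
        split_ifs <;> norm_num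
      · rw [if_neg hE]
        simp [hE]
    calc _ ≤ ∑ c : Fin T → Bool, F c * ∑ j ∈ Icc 1 (u - a), ∑ x ∈ Icc (a + j) u,
          ∑ i ∈ range (u + 1 - x), (if Ev e y a ℓ x j i c then (1 : ℝ) else 0) := by
          apply Finset.sum_le_sum
          intro c _
          exact mul_le_mul_of_nonneg_left (h1 c) (hF0 c)
      _ = ∑ j ∈ Icc 1 (u - a), ∑ x ∈ Icc (a + j) u, ∑ i ∈ range (u + 1 - x),
          ∑ c : Fin T → Bool, F c * (if Ev e y a ℓ x j i c then (1 : ℝ) else 0) := by
          simp only [Finset.mul_sum]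
          rw [Finset.sum_comm]
          apply Finset.sum_congr rfl
          intro j _
          rw [Finset.sum_comm]
          apply Finset.sum_congr rfl
          intro x _
          rw [Finset.sum_comm]
      _ ≤ ∑ j ∈ Icc 1 (u - a), ∑ x ∈ Icc (a + j) u, ∑ i ∈ range (u + 1 - x),
          (((i + 1 : ℕ) : ℝ) ^ ℓ * (1 / 2) ^ i) * ((j : ℝ) ^ ℓ * N j x) := by
          apply Finset.sum_le_sum
          intro j hj
          apply Finset.sum_le_sum
          intro x hx
          apply Finset.sum_le_sum
          intro i hi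
          rw [Finset.mem_Icc] at hj hx
          rw [Finset.mem_range] at hi
          have h2 := Ev_sum (T := T) (e := e) (y := y) (a := a) (ℓ := ℓ) (x := x) (j := j) (i := i)
            hj.1 hx.1 (by omega) hF hF0
          refine h2.trans ?_
          have h3 : ((j + i : ℕ) : ℝ) ≤ ((i + 1 : ℕ) : ℝ) * j := by
            have : j + i ≤ (i + 1) * j := by nlinarith [hj.1]
            exact_mod_cast this
          have h4 : ((j + i : ℕ) : ℝ) ^ ℓ ≤ ((i + 1 : ℕ) : ℝ) ^ ℓ * (j : ℝ) ^ ℓ := by
            rw [← mul_pow]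
            exact pow_le_pow_left₀ (Nat.cast_nonneg _) h3 ℓ
          calc _ ≤ (((i + 1 : ℕ) : ℝ) ^ ℓ * (j : ℝ) ^ ℓ) * ((1 / 2) ^ i * N j x) := by
                apply mul_le_mul_of_nonneg_right h4
                exact mul_nonneg (by positivity) (hN0 j x)
            _ = _ := by ring
      _ ≤ ∑ j ∈ Icc 1 (u - a), ∑ x ∈ Icc (a + j) u, S₀ * ((j : ℝ) ^ ℓ * N j x) := by
          apply Finset.sum_le_sum
          intro j _
          apply Finset.sum_le_sum
          intro x _
          rw [← Finset.sum_mul]
          apply mul_le_mul_of_nonneg_right _ (mul_nonneg (by positivity) (hN0 j x))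
          exact hsm.sum_le_tsum _ fun i _ => by positivity
      _ = _ := by
          simp only [← Finset.mul_sum]
  have hS : ∑ c : Fin T → Bool, F c * ∑ s ∈ Icc a u,
      (if nearQ e (ex c) y ℓ a s then (1 : ℝ) else 0) ≤
      (2 * ℓ + 2) * ∑ c : Fin T → Bool, F c +
      S₀ * ∑ j ∈ Icc 1 (u - a), (j : ℝ) ^ ℓ * ∑ x ∈ Icc (a + j) u, N j x := by
    calc _ ≤ ∑ c : Fin T → Bool, F c * ∑ s ∈ Icc a u,
          ((if ct (ex c) a s ≤ ℓ then (1 : ℝ) else 0) +
          ∑ j ∈ Icc 1 (u - a), ∑ x ∈ Icc (a + j) u, ∑ i ∈ range (u + 1 - x),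
          (if s = x + i ∧ Ev e y a ℓ x j i c then (1 : ℝ) else 0)) := by
          apply Finset.sum_le_sum
          intro c _
          exact mul_le_mul_of_nonneg_left (Finset.sum_le_sum (hpt c)) (hF0 c)
      _ = (∑ c : Fin T → Bool, F c * ∑ s ∈ Icc a u,
            (if ct (ex c) a s ≤ ℓ then (1 : ℝ) else 0)) +
          ∑ c : Fin T → Bool, F c * ∑ s ∈ Icc a u,
          (∑ j ∈ Icc 1 (u - a), ∑ x ∈ Icc (a + j) u, ∑ i ∈ range (u + 1 - x),
          (if s = x + i ∧ Ev e y a ℓ x j i c then (1 : ℝ) else 0)) := by
          rw [← Finset.sum_add_distrib]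
          apply Finset.sum_congr rfl
          intro c _
          rw [Finset.sum_add_distrib, mul_add]
      _ ≤ _ := add_le_add hfew hmain
  refine hS.trans ?_
  have hR0 : 0 ≤ ∑ j ∈ Icc 1 (u - a), (j : ℝ) ^ ℓ * ∑ x ∈ Icc (a + j) u, N j x := by
    apply Finset.sum_nonneg
    intro j _
    exact mul_nonneg (by positivity) (Finset.sum_nonneg fun x _ => hN0 j x)
  apply add_le_add
  · exact mul_le_mul_of_nonneg_right (le_max_left _ _) hFs
  · apply mul_le_mul_of_nonneg_right _ hR0
    exact le_trans (by linarith) (le_max_right _ _)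

end MP34e
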