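import Pool.Agent.Work.MP_34e428_co.ZQ0

/-! Module QH: weighted Hoeffding bound for dense windows. -/

set_option autoImplicit false

open Finset
open scoped Classical

namespace MP34e

/-- weighted moment generating function -/
theorem qh_wmgf {T : ℕ} (a : ℕ) (F : (Fin T → Bool) → ℝ) (hF : past a F) (lam : ℝ) (n : ℕ) :
    a + n ≤ T → ∑ c : Fin T → Bool, F c *
      Real.exp (lam * ((2 * ct (ex c) a (a + n) - (n : ℤ) : ℤ) : ℝ)) =
      Real.cosh lam ^ n * ∑ c : Fin T → Bool, F c := by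
  induction n with
  | zero =>
    intro _
    simp [ct_self]
  | succ n ih =>
    intro hn
    have ih' := ih (by omega)
    have h1 := flip_sum (T := T) ⟨a + n, by omega⟩
      (fun b c => F c * Real.exp (lam * ((2 * ct (ex c) a (a + n) - (n : ℤ) : ℤ) : ℝ)) *
        Real.exp (lam * (if b then 1 else -1))) (by
        intro b c v
        rw [hF c _ v (by simp), ct_update c _ v (Or.inr (by simp))])
    simp only [if_true, Bool.false_eq_true, if_false] at h1
    rw [← Finset.sum_mul, ← Finset.sum_mul, ih'] at h1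
    rw [pow_succ, Real.cosh_eq lam]
    have h2 : ∑ c : Fin T → Bool, F c *
        Real.exp (lam * ((2 * ct (ex c) a (a + (n + 1)) - ((n + 1 : ℕ) : ℤ) : ℤ) : ℝ)) =
        ∑ c : Fin T → Bool, F c * Real.exp (lam * ((2 * ct (ex c) a (a + n) - (n : ℤ) : ℤ) : ℝ)) *
          Real.exp (lam * (if c ⟨a + n, by omega⟩ = true then 1 else -1)) := by
      apply Finset.sum_congr rfl
      intro c _
      rw [mul_assoc, ← Real.exp_add]
      congr 2
      have h3 : ex c (a + n) = c ⟨a + n, by omega⟩ := by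
        unfold ex
        rw [dif_pos (show a + n < T by omega)]
      rw [show a + (n + 1) = (a + n) + 1 by ring, ct_succ _ (by omega), h3]
      push_cast
      split_ifs <;> ring
    rw [h2, h1, mul_one]
    have h4 : Real.exp (lam * -1) = Real.exp (-lam) := by congr 1; ring
    rw [h4, Real.cosh_eq lam]
    ring

theorem dense_count {T : ℕ} (a b w : ℕ) (haw : a + w ≤ b) (hb : b ≤ T)
    (F : (Fin T → Bool) → ℝ) (hF : past a F) (hF0 : ∀ c, 0 ≤ F c) :
    ∑ c : Fin T → Bool, F c * (if 3 * (w : ℤ) ≤ 4 * vc (ex c) (b - w) b then (1 : ℝ) else 0) ≤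
      Real.exp (-((w : ℝ) / 8)) * ∑ c : Fin T → Bool, F c := by
  have hS : 0 ≤ ∑ c, F c := Finset.sum_nonneg (fun c _ => hF0 c)
  have hbw : b - w + w = b := by omega
  have h1 := qh_wmgf (b - w) F (past_mono hF (by omega)) (-(1 / 2)) w (by omega)
  rw [hbw] at h1
  have h2 : ∑ c : Fin T → Bool, F c *
      (if 3 * (w : ℤ) ≤ 4 * vc (ex c) (b - w) b then (1 : ℝ) else 0) ≤
      Real.exp (-((w : ℝ) / 4)) * ∑ c : Fin T → Bool, F c *
        Real.exp (-(1 / 2) * ((2 * ct (ex c) (b - w) b - (w : ℤ) : ℤ) : ℝ)) := by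
    rw [Finset.mul_sum]
    apply Finset.sum_le_sum
    intro c _
    split_ifs with h
    · have h3 : (w : ℝ) / 4 ≤ -(1 / 2) * ((2 * ct (ex c) (b - w) b - (w : ℤ) : ℤ) : ℝ) := by
        have h4 : (2 * ct (ex c) (b - w) b - (w : ℤ) : ℤ) * 2 ≤ -(w : ℤ) := by
          unfold vc at h
          have : ((b - w : ℕ) : ℤ) = (b : ℤ) - w := by omega
          rw [this] at h
          omega
        have h5 : ((2 * ct (ex c) (b - w) b - (w : ℤ) : ℤ) : ℝ) * 2 ≤ -(w : ℝ) := by
          exact_mod_cast h4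
        linarith
      have h6 : 1 ≤ Real.exp (-((w : ℝ) / 4)) *
          Real.exp (-(1 / 2) * ((2 * ct (ex c) (b - w) b - (w : ℤ) : ℤ) : ℝ)) := by
        rw [← Real.exp_add]
        apply Real.one_le_exp
        linarith
      calc F c * 1 ≤ F c * (Real.exp (-((w : ℝ) / 4)) *
          Real.exp (-(1 / 2) * ((2 * ct (ex c) (b - w) b - (w : ℤ) : ℤ) : ℝ))) :=
            mul_le_mul_of_nonneg_left h6 (hF0 c)
        _ = _ := by ring
    · rw [mul_zero]
      have := hF0 c
      positivity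
  refine h2.trans ?_
  rw [h1]
  have h7 : Real.cosh (-(1 / 2)) ^ w ≤ Real.exp ((w : ℝ) / 8) := by
    calc Real.cosh (-(1 / 2)) ^ w ≤ Real.exp ((-(1 / 2)) ^ 2 / 2) ^ w :=
          pow_le_pow_left₀ (Real.cosh_pos _).le (Real.cosh_le_exp_half_sq _) _
      _ = Real.exp ((w : ℝ) / 8) := by
          rw [← Real.exp_nat_mul]
          congr 1
          ring
  calc Real.exp (-((w : ℝ) / 4)) * (Real.cosh (-(1 / 2)) ^ w * ∑ c, F c)
      ≤ Real.exp (-((w : ℝ) / 4)) * (Real.exp ((w : ℝ) / 8) * ∑ c, F c) := by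
        apply mul_le_mul_of_nonneg_left _ (Real.exp_pos _).le
        exact mul_le_mul_of_nonneg_right h7 hS
    _ = Real.exp (-((w : ℝ) / 8)) * ∑ c, F c := by
        rw [← mul_assoc, ← Real.exp_add]
        congr 2
        ring

end MP34e
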