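import Pool.Agent.Work.MP_34e428_co.ZQN
import Pool.Agent.Work.MP_34e428_co.ZQF

/-! Module QI: near occupancy is bounded by idle services. -/

set_option autoImplicit false

open Finset
open scoped Classical

namespace MP34e

/-- QI: near occupancy is bounded by idle services -/
theorem near_idle (ℓ : ℕ) : ∃ C : ℝ, 0 < C ∧ ∀ (T : ℕ) (e : ℕ → Bool) (a u y : ℕ)
    (F : (Fin T → Bool) → ℝ), a ≤ u → u ≤ T → past a F → (∀ c, 0 ≤ F c) →
    ∑ c : Fin T → Bool, F c * ∑ s ∈ Icc a u, (if nearQ e (ex c) y ℓ a s then (1 : ℝ) else 0) ≤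
      C * ∑ c : Fin T → Bool, F c * (1 + (Mq e (ex c) y a u : ℝ)) := by
  obtain ⟨C1, hC1, h1⟩ := flip_near ℓ
  obtain ⟨C2, ρ, hC2, hρ0, hρ1, h2⟩ := newmin_run
  have hsm : Summable fun n : ℕ => (n : ℝ) ^ ℓ * ρ ^ n :=
    summable_pow_mul_geometric_of_norm_lt_one ℓ (by rwa [Real.norm_eq_abs, abs_of_pos hρ0])
  set B := ∑' n : ℕ, (n : ℝ) ^ ℓ * ρ ^ n with hB
  have hB0 : 0 ≤ B := tsum_nonneg fun n => by positivity
  refine ⟨C1 + C1 * C2 * B, by positivity, ?_⟩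
  intro T e a u y F hau hu hF hF0
  set S := ∑ c : Fin T → Bool, F c * (1 + (Mq e (ex c) y a u : ℝ)) with hS
  have hS0 : 0 ≤ S := Finset.sum_nonneg fun c _ => mul_nonneg (hF0 c) (by positivity)
  have hFS : ∑ c : Fin T → Bool, F c ≤ S := by
    apply Finset.sum_le_sum
    intro c _
    have h3 : (1 : ℝ) ≤ 1 + (Mq e (ex c) y a u : ℝ) := by
      have : (0 : ℝ) ≤ (Mq e (ex c) y a u : ℝ) := Nat.cast_nonneg _
      linarith
    exact le_mul_of_one_le_right (hF0 c) h3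
  refine (h1 T e a u y F hau hu hF hF0).trans ?_
  have h3 : ∑ j ∈ Icc 1 (u - a), (j : ℝ) ^ ℓ * ∑ x ∈ Icc (a + j) u, ∑ c : Fin T → Bool,
        F c * (if newmin e (ex c) y a x ∧ Vrun (ex c) j x then (1 : ℝ) else 0) ≤
      C2 * B * S := by
    calc ∑ j ∈ Icc 1 (u - a), (j : ℝ) ^ ℓ * ∑ x ∈ Icc (a + j) u, ∑ c : Fin T → Bool,
        F c * (if newmin e (ex c) y a x ∧ Vrun (ex c) j x then (1 : ℝ) else 0)
        ≤ ∑ j ∈ Icc 1 (u - a), (j : ℝ) ^ ℓ * (C2 * ρ ^ j * S) := by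
          apply Finset.sum_le_sum
          intro j hj
          rw [mem_Icc] at hj
          exact mul_le_mul_of_nonneg_left (h2 T e a u y j F hau hu hj.1 hF hF0) (by positivity)
      _ = (C2 * S) * ∑ j ∈ Icc 1 (u - a), (j : ℝ) ^ ℓ * ρ ^ j := by
          rw [Finset.mul_sum]
          apply Finset.sum_congr rfl
          intro j _
          ring
      _ ≤ (C2 * S) * B := by
          apply mul_le_mul_of_nonneg_left _ (by positivity)
          exact hsm.sum_le_tsum _ fun n _ => by positivity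
      _ = _ := by ring
  calc C1 * ∑ c : Fin T → Bool, F c +
      C1 * ∑ j ∈ Icc 1 (u - a), (j : ℝ) ^ ℓ * ∑ x ∈ Icc (a + j) u, ∑ c : Fin T → Bool,
        F c * (if newmin e (ex c) y a x ∧ Vrun (ex c) j x then (1 : ℝ) else 0)
      ≤ C1 * S + C1 * (C2 * B * S) :=
        add_le_add (mul_le_mul_of_nonneg_left hFS hC1.le) (mul_le_mul_of_nonneg_left h3 hC1.le)
    _ = _ := by ring

end MP34e
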