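import Pool.Agent.Work.MP_34e428_co.LCoin3

/-! QS: second moment of the maximum of the simple random walk. -/

set_option autoImplicit false

open Finset
open scoped Classical

namespace MP34e

private noncomputable def qsX {T : ℕ} (a r : ℕ) (c : Fin T → Bool) : ℤ :=
  -(2 * ct (ex c) a r - ((r : ℤ) - a))

private noncomputable def qsM {T : ℕ} (a u : ℕ) (c : Fin T → Bool) : ℕ :=
  (Icc a u).sup (fun r => (qsX a r c).toNat)

private theorem qsX_update {T : ℕ} {a r : ℕ} (c : Fin T → Bool) (i : Fin T) (v : Bool)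
    (h : r ≤ (i : ℕ)) : qsX a r (Function.update c i v) = qsX a r c := by
  unfold qsX
  rw [ct_update c i v (Or.inr h)]

private theorem qsM_update {T : ℕ} {a u : ℕ} (c : Fin T → Bool) (i : Fin T) (v : Bool)
    (h : u ≤ (i : ℕ)) : qsM a u (Function.update c i v) = qsM a u c := by
  unfold qsM
  apply Finset.sup_congr rfl
  intro r hr
  rw [Finset.mem_Icc] at hr
  simp only [qsX_update c i v (hr.2.trans h)]

private theorem qsX_le {T : ℕ} {a u : ℕ} (hau : a ≤ u) (c : Fin T → Bool) :
    qsX a u c ≤ (qsM a u c : ℤ) := by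
  have h : (qsX a u c).toNat ≤ qsM a u c :=
    Finset.le_sup (f := fun r => (qsX a r c).toNat) (Finset.mem_Icc.mpr ⟨hau, le_rfl⟩)
  have := Int.self_le_toNat (qsX a u c)
  omega

private theorem qsX_succ {T : ℕ} {a u : ℕ} (hau : a ≤ u) (c : Fin T → Bool) :
    qsX a (u + 1) c = qsX a u c + (if ex c u then -1 else 1) := by
  unfold qsX
  rw [ct_succ _ hau]
  push_cast
  split_ifs <;> ring

private theorem qsM_succ {T : ℕ} {a u : ℕ} (hau : a ≤ u) (c : Fin T → Bool) :
    qsM a (u + 1) c = max (qsM a u c) (qsX a (u + 1) c).toNat := by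
  unfold qsM
  have : Icc a (u + 1) = insert (u + 1) (Icc a u) := by
    ext x
    simp only [Finset.mem_Icc, Finset.mem_insert]
    omega
  rw [this, Finset.sup_insert]
  exact max_comm _ _

/-- the potential -/
private noncomputable def qsW (x : ℤ) (m : ℕ) : ℝ := (m : ℝ) ^ 2 + ((m : ℝ) - 2 * (x : ℝ)) ^ 2

private theorem qsW_step {x : ℤ} {m : ℕ} (h : x ≤ m) :
    (1 / 2) * (qsW (x - 1) (max m (x - 1).toNat) + qsW (x + 1) (max m (x + 1).toNat)) ≤
      qsW x m + 4 := by
  have h1 : max m (x - 1).toNat = m := by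
    apply max_eq_left
    omega
  rw [h1]
  unfold qsW
  rcases lt_or_eq_of_le h with h2 | h2
  · have h3 : max m (x + 1).toNat = m := by
      apply max_eq_left
      omega
    rw [h3]
    push_cast
    nlinarith
  · have h3 : max m (x + 1).toNat = m + 1 := by
      rw [h2]
      have : ((m : ℤ) + 1).toNat = m + 1 := by omega
      rw [this]
      exact max_eq_right (by omega)
    rw [h3, h2]
    push_cast
    nlinarith

private theorem qs_main {T : ℕ} (a : ℕ) (F : (Fin T → Bool) → ℝ)
    (hF : past a F) (hF0 : ∀ c, 0 ≤ F c) (n : ℕ) : a + n ≤ T →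
    ∑ c : Fin T → Bool, F c * qsW (qsX a (a + n) c) (qsM a (a + n) c) ≤
      4 * (n : ℝ) * ∑ c : Fin T → Bool, F c := by
  induction n with
  | zero =>
    intro _
    apply le_of_eq
    have : ∀ c : Fin T → Bool, F c * qsW (qsX a (a + 0) c) (qsM a (a + 0) c) = 0 := by
      intro c
      have e1 : qsX a (a + 0) c = 0 := by
        unfold qsX
        rw [Nat.add_zero, ct_self]
        ring
      have e2 : qsM a (a + 0) c = 0 := by
        unfold qsM
        rw [Nat.add_zero, Finset.Icc_self, Finset.sup_singleton]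
        have : qsX a a c = 0 := e1
        rw [this]
        rfl
      rw [e1, e2]
      unfold qsW
      norm_num
    simp only [this]
    simp
  | succ n ih =>
    intro hT
    have ih' := ih (by omega)
    have hi : a + n < T := by omega
    have h1 := flip_sum (T := T) ⟨a + n, hi⟩
      (fun b c => F c * qsW (qsX a (a + n) c + (if b then -1 else 1))
        (max (qsM a (a + n) c) (qsX a (a + n) c + (if b then -1 else 1)).toNat))
      (by
        intro b c v
        have e1 := qsX_update (a := a) (r := a + n) c ⟨a + n, hi⟩ v le_rfl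
        have e2 := qsM_update (a := a) (u := a + n) c ⟨a + n, hi⟩ v le_rfl
        have e3 := hF c ⟨a + n, hi⟩ v (by simp)
        simp only [e1, e2, e3])
    have h2 : ∑ c : Fin T → Bool, F c * qsW (qsX a (a + (n + 1)) c) (qsM a (a + (n + 1)) c) =
        ∑ c : Fin T → Bool, F c * qsW (qsX a (a + n) c + (if c ⟨a + n, hi⟩ then -1 else 1))
        (max (qsM a (a + n) c) (qsX a (a + n) c + (if c ⟨a + n, hi⟩ then -1 else 1)).toNat) := by
      apply Finset.sum_congr rfl
      intro c _
      have e0 : ex c (a + n) = c ⟨a + n, hi⟩ := by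
        unfold ex
        rw [dif_pos hi]
      have e1 := qsX_succ (T := T) (a := a) (u := a + n) (by omega) c
      have e2 := qsM_succ (T := T) (a := a) (u := a + n) (by omega) c
      rw [e0] at e1
      rw [← add_assoc, e2, e1]
    rw [h2, h1]
    simp only [if_true, Bool.false_eq_true, if_false]
    rw [← Finset.sum_add_distrib, Finset.mul_sum]
    have h3 : ∀ c : Fin T → Bool, (1 / 2 : ℝ) *
        (F c * qsW (qsX a (a + n) c + -1) (max (qsM a (a + n) c) (qsX a (a + n) c + -1).toNat) +
         F c * qsW (qsX a (a + n) c + 1) (max (qsM a (a + n) c) (qsX a (a + n) c + 1).toNat)) ≤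
        F c * qsW (qsX a (a + n) c) (qsM a (a + n) c) + 4 * F c := by
      intro c
      have := qsW_step (qsX_le (a := a) (u := a + n) (by omega) c)
      have h4 := mul_le_mul_of_nonneg_left this (hF0 c)
      have e : qsX a (a + n) c + -1 = qsX a (a + n) c - 1 := by ring
      rw [e]
      linarith
    refine (Finset.sum_le_sum (fun c _ => h3 c)).trans ?_
    rw [Finset.sum_add_distrib, ← Finset.mul_sum]
    push_cast
    linarith

/-- QS: second moment of the maximum of the simple random walk -/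
theorem max_sq {T : ℕ} (a u : ℕ) (hau : a ≤ u) (hu : u ≤ T) (F : (Fin T → Bool) → ℝ)
    (hF : past a F) (hF0 : ∀ c, 0 ≤ F c) :
    ∑ c : Fin T → Bool, F c *
      (((Icc a u).sup (fun r => (-(2 * ct (ex c) a r - ((r : ℤ) - a))).toNat) : ℕ) : ℝ) ^ 2 ≤
      16 * ((u : ℝ) - a + 1) * ∑ c : Fin T → Bool, F c := by
  have hS : 0 ≤ ∑ c, F c := Finset.sum_nonneg (fun c _ => hF0 c)
  obtain ⟨n, rfl⟩ : ∃ n, u = a + n := ⟨u - a, by omega⟩
  have h1 := qs_main a F hF hF0 n hu
  have h2 : ∑ c : Fin T → Bool, F c *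
      (((Icc a (a + n)).sup (fun r => (-(2 * ct (ex c) a r - ((r : ℤ) - a))).toNat) : ℕ) : ℝ) ^ 2 ≤
      ∑ c : Fin T → Bool, F c * qsW (qsX a (a + n) c) (qsM a (a + n) c) := by
    apply Finset.sum_le_sum
    intro c _
    apply mul_le_mul_of_nonneg_left _ (hF0 c)
    show ((qsM a (a + n) c : ℕ) : ℝ) ^ 2 ≤ _
    unfold qsW
    nlinarith [sq_nonneg (((qsM a (a + n) c : ℕ) : ℝ) - 2 * ((qsX a (a + n) c : ℤ) : ℝ))]
  have h3 : 4 * (n : ℝ) * ∑ c : Fin T → Bool, F c ≤
      16 * (((a + n : ℕ) : ℝ) - a + 1) * ∑ c : Fin T → Bool, F c := by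
    apply mul_le_mul_of_nonneg_right _ hS
    push_cast
    have : (0 : ℝ) ≤ n := by positivity
    linarith
  linarith

end MP34e
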