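import Pool.Agent.Work.MP_34e428_co.ZQ0
import Pool.Agent.Work.MP_34e428_co.ZQS
import Pool.Agent.Work.MP_34e428_co.ZQI
import Pool.Agent.Work.MP_34e428_co.ZQC

/-! QM: total mass of low queues in a window of the length of one cycle. -/

set_option autoImplicit false

open Finset
open scoped Classical

namespace MP34e

/-- independence of the coins before `b` and the coins from `b` on -/
private theorem indep {T : ℕ} (b : ℕ) (F G : (Fin T → Bool) → ℝ)
    (hF : ∀ c c' : Fin T → Bool, (∀ i : Fin T, (i : ℕ) < b → c i = c' i) → F c = F c')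
    (hG : ∀ c c' : Fin T → Bool, (∀ i : Fin T, b ≤ (i : ℕ) → c i = c' i) → G c = G c') :
    2 ^ T * ∑ c : Fin T → Bool, F c * G c = (∑ c, F c) * ∑ c, G c := by
  set sw : (Fin T → Bool) × (Fin T → Bool) → (Fin T → Bool) × (Fin T → Bool) :=
    fun cd => (fun i => if (i : ℕ) < b then cd.1 i else cd.2 i,
      fun i => if (i : ℕ) < b then cd.2 i else cd.1 i) with hsw
  have hinv : Function.Involutive sw := by
    intro cd
    simp only [hsw]
    ext i
    · simp only
      split_ifs <;> rfl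
    · simp only
      split_ifs <;> rfl
  have h1 : ∑ cd : (Fin T → Bool) × (Fin T → Bool), F cd.1 * G cd.1 =
      ∑ cd : (Fin T → Bool) × (Fin T → Bool), F cd.1 * G cd.2 := by
    rw [← Equiv.sum_comp hinv.toPerm
      (fun cd : (Fin T → Bool) × (Fin T → Bool) => F cd.1 * G cd.1)]
    apply Finset.sum_congr rfl
    rintro ⟨c, d⟩ _
    show F (sw (c, d)).1 * G (sw (c, d)).1 = F c * G d
    have e1 : F (sw (c, d)).1 = F c := by
      apply hF
      intro i hi
      simp [hsw, hi]
    have e2 : G (sw (c, d)).1 = G d := by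
      apply hG
      intro i hi
      simp [hsw, Nat.not_lt.mpr hi]
    rw [e1, e2]
  rw [Fintype.sum_prod_type, Fintype.sum_prod_type] at h1
  simp only [Finset.sum_const, Finset.card_univ, Fintype.card_pi, Fintype.card_bool,
    Finset.prod_const, Fintype.card_fin, nsmul_eq_mul, Nat.cast_pow, Nat.cast_ofNat] at h1
  rw [← Finset.mul_sum] at h1
  rw [h1, Finset.sum_mul]
  apply Finset.sum_congr rfl
  intro c _
  rw [Finset.mul_sum]

/-- height needed for the queue started at `τ` at time `a0` -/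
private noncomputable def yq (e g : ℕ → Bool) (τ a0 : ℕ) : ℕ :=
  (Icc τ a0).sup (fun r => (ct g r a0 - ct e r a0).toNat)

private theorem yq_ge {e g : ℕ → Bool} {τ a0 r : ℕ} (h1 : τ ≤ r) (h2 : r ≤ a0) :
    ct g r a0 - ct e r a0 ≤ (yq e g τ a0 : ℤ) := by
  have h : (ct g r a0 - ct e r a0).toNat ≤ yq e g τ a0 :=
    Finset.le_sup (f := fun r => (ct g r a0 - ct e r a0).toNat) (Finset.mem_Icc.mpr ⟨h1, h2⟩)
  have := Int.self_le_toNat (ct g r a0 - ct e r a0)
  omega

private theorem yq_congr {e g h : ℕ → Bool} {τ a0 : ℕ} (hgh : ∀ n, n < a0 → g n = h n) :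
    yq e g τ a0 = yq e h τ a0 := by
  unfold yq
  apply Finset.sup_congr rfl
  intro r _
  simp only [ct_congr (g := g) (h := h) (a := r) (b := a0) (fun n _ hn => hgh n hn)]

private theorem yq_past {T : ℕ} (e : ℕ → Bool) (τ a0 : ℕ) (c : Fin T → Bool) (i : Fin T)
    (v : Bool) (hi : a0 ≤ (i : ℕ)) :
    yq e (ex (Function.update c i v)) τ a0 = yq e (ex c) τ a0 := by
  apply yq_congr
  intro n hn
  apply ex_update
  omega

private theorem low_nearQ {e g : ℕ → Bool} {τ a0 s : ℕ} (h1 : τ ≤ a0) (h2 : a0 ≤ s)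
    (hL : Low e g 8 τ s) : nearQ e g (yq e g τ a0) 8 a0 s ∧ (yq e g τ a0 : ℤ) ≤ 8 + (s - a0) := by
  have hF : FQ e g (yq e g τ a0) a0 s ≤ 8 := by
    unfold FQ
    obtain ⟨r, hr, hr2⟩ := Finset.exists_mem_eq_sup (Icc τ a0)
      (Finset.nonempty_Icc.mpr h1) (fun r => (ct g r a0 - ct e r a0).toNat)
    rw [Finset.mem_Icc] at hr
    have hy : yq e g τ a0 = (ct g r a0 - ct e r a0).toNat := hr2
    rcases le_or_gt (ct g r a0 - ct e r a0) 0 with h | h
    · have h3 : yq e g τ a0 = 0 := by rw [hy]; omega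
      have := hL a0 h1 h2
      rw [h3]
      push_cast
      linarith
    · have h3 : (yq e g τ a0 : ℤ) = ct g r a0 - ct e r a0 := by rw [hy]; omega
      have h4 := hL r hr.1 (hr.2.trans h2)
      have h5 := ct_add g hr.2 h2
      have h6 := ct_add e hr.2 h2
      rw [h3]
      linarith
  refine ⟨⟨hF, ?_⟩, ?_⟩
  · intro r h3 h4
    have := hL r (h1.trans h3) h4
    exact_mod_cast this
  · unfold FQ at hF
    have h3 := ct_nonneg g a0 s
    have h4 := ct_le e h2
    linarith

private theorem Mq_le {e g : ℕ → Bool} {y a0 u : ℕ} {Dm : ℤ}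
    (hD : ∀ t ≤ u, 2 * ct e 0 t - t ≤ Dm) (h0 : 2 * ct e 0 a0 - a0 = Dm) :
    Mq e g y a0 u ≤
      ((Icc a0 u).sup (fun r => (-(2 * ct g a0 r - ((r : ℤ) - a0))).toNat)) - y := by
  unfold Mq
  apply Finset.sup_le
  intro r hr
  have hr' := Finset.mem_Icc.mp hr
  have h1 : (-(2 * ct g a0 r - ((r : ℤ) - a0))).toNat ≤
      ((Icc a0 u).sup (fun r => (-(2 * ct g a0 r - ((r : ℤ) - a0))).toNat)) :=
    Finset.le_sup (f := fun r : ℕ => (-(2 * ct g a0 r - ((r : ℤ) - a0))).toNat) hr
  refine le_trans ?_ (Nat.sub_le_sub_right h1 y)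
  unfold FQ
  have h2 := hD r hr'.2
  have h3 := ct_add e (Nat.zero_le a0) hr'.1
  omega

/-- QM: total mass of low queues in a window of the length of one cycle -/
theorem queue_mass : ∃ C : ℝ, 0 < C ∧ ∀ (K T Rc a u : ℕ) (e : ℕ → Bool) (Dm : ℤ), 1 ≤ Rc →
    Rc ^ 2 ≤ K → Rc ≤ a → a ≤ u → u ≤ a + Rc → u ≤ T →
    (∀ t ≤ u, 2 * ct e 0 t - t ≤ Dm) →
    (∀ t, t + Rc ≤ u → ∃ s, t ≤ s ∧ s ≤ t + Rc ∧ 2 * ct e 0 s - s = Dm) →
    (∑ s ∈ Icc a u, ∑ τ ∈ Icc (s - 2 * K) s,
      ((univ.filter (fun c : Fin T → Bool => Low e (ex c) 8 τ s)).card : ℝ)) ≤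
      C * Rc * Real.sqrt K * 2 ^ T := by
  obtain ⟨Cn, hCn, hn⟩ := near_idle 8
  obtain ⟨Cc, hCc, hc⟩ := check_sum
  refine ⟨9 + Cn * (11 * Cc + 97 * Cc), by positivity, ?_⟩
  intro K T Rc a u e Dm hRc hRK hRa hau huR huT hD hret
  obtain ⟨a0, ha1, ha2, ha3⟩ := hret (a - Rc) (by omega)
  have ha0a : a0 ≤ a := by omega
  have ha0u : a0 ≤ u := by omega
  have hu0 : u ≤ a0 + 2 * Rc := by omega
  have hRK' : Rc ≤ K := by nlinarith
  have hR1 : (1 : ℝ) ≤ Rc := by exact_mod_cast hRc
  -- sqrt facts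
  have hsR0 : 0 ≤ Real.sqrt Rc := Real.sqrt_nonneg _
  have hsR1 : Real.sqrt Rc ≤ Rc := by
    rw [Real.sqrt_le_left (by linarith)]
    nlinarith
  have hsRR : Real.sqrt Rc * Real.sqrt Rc = Rc := Real.mul_self_sqrt (by linarith)
  have hsK : (Rc : ℝ) ≤ Real.sqrt K := by
    apply Real.le_sqrt_of_sq_le
    exact_mod_cast hRK
  have hsK0 : 0 ≤ Real.sqrt K := Real.sqrt_nonneg _
  have h2T : (0 : ℝ) < 2 ^ T := by positivity
  -- notation
  set Mx : (Fin T → Bool) → ℕ := fun c =>
    (Icc a0 u).sup (fun r => (-(2 * ct (ex c) a0 r - ((r : ℤ) - a0))).toNat) with hMx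
  set Y : ℕ → (Fin T → Bool) → ℕ := fun τ c => yq e (ex c) τ a0 with hY
  -- the mass of `y_τ ≤ M`
  have hmass : ∀ M : ℕ, ∑ τ ∈ Icc (a0 - 2 * K) a0, ∑ c : Fin T → Bool,
      (if Y τ c ≤ M then (1 : ℝ) else 0) ≤ Cc * ((M : ℝ) + Real.sqrt Rc) * Real.sqrt K * 2 ^ T := by
    intro M
    refine le_trans ?_ (hc T K Rc a0 M (fun r => 2 * ct e 0 r - r = Dm) hRc hRK'
      (ha0u.trans huT) (fun t ht => hret t (by omega)))
    apply Finset.sum_le_sum
    intro τ hτ
    rw [card_filter_eq]
    apply Finset.sum_le_sum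
    intro c _
    by_cases h : Y τ c ≤ M
    · rw [if_pos h, if_pos]
      intro r h1 h2 h3
      have h4 := yq_ge (e := e) (g := ex c) h1 h2
      have h5 : (yq e (ex c) τ a0 : ℤ) ≤ M := by exact_mod_cast h
      have h6 := ct_add e (Nat.zero_le r) h2
      linarith
    · rw [if_neg h]
      split_ifs <;> norm_num
  -- Step A
  set G : ℕ → ℕ → ℝ := fun τ s => ∑ c : Fin T → Bool,
    (if Y τ c < 2 * Rc + 9 ∧ nearQ e (ex c) (Y τ c) 8 a0 s then (1 : ℝ) else 0) with hG
  have hG0 : ∀ τ s, 0 ≤ G τ s := fun τ s => Finset.sum_nonneg (fun c _ => by split_ifs <;> norm_num)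
  have hA : ∀ s ∈ Icc a u, ∑ τ ∈ Icc (s - 2 * K) s,
      ((univ.filter (fun c : Fin T → Bool => Low e (ex c) 8 τ s)).card : ℝ) ≤
      ∑ _τ ∈ Icc a0 u, (2 : ℝ) ^ T + ∑ τ ∈ Icc (a0 - 2 * K) a0, G τ s := by
    intro s hs
    have hs' := Finset.mem_Icc.mp hs
    rw [← Finset.sum_filter_add_sum_filter_not (Icc (s - 2 * K) s) (fun τ => a0 ≤ τ)]
    apply add_le_add
    · calc ∑ τ ∈ (Icc (s - 2 * K) s).filter (fun τ => a0 ≤ τ),
          ((univ.filter (fun c : Fin T → Bool => Low e (ex c) 8 τ s)).card : ℝ)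
          ≤ ∑ _τ ∈ (Icc (s - 2 * K) s).filter (fun τ => a0 ≤ τ), (2 : ℝ) ^ T := by
            apply Finset.sum_le_sum
            intro τ _
            have : (univ.filter (fun c : Fin T → Bool => Low e (ex c) 8 τ s)).card ≤ 2 ^ T := by
              refine (Finset.card_filter_le _ _).trans ?_
              simp
            exact_mod_cast this
        _ ≤ _ := by
            apply Finset.sum_le_sum_of_subset_of_nonneg
            · intro τ hτ
              simp only [Finset.mem_filter, Finset.mem_Icc] at hτ ⊢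
              omega
            · intro _ _ _
              positivity
    · calc ∑ τ ∈ (Icc (s - 2 * K) s).filter (fun τ => ¬ a0 ≤ τ),
          ((univ.filter (fun c : Fin T → Bool => Low e (ex c) 8 τ s)).card : ℝ)
          ≤ ∑ τ ∈ (Icc (s - 2 * K) s).filter (fun τ => ¬ a0 ≤ τ), G τ s := by
            apply Finset.sum_le_sum
            intro τ hτ
            simp only [Finset.mem_filter, Finset.mem_Icc] at hτ
            rw [card_filter_eq]
            apply Finset.sum_le_sum
            intro c _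
            by_cases h : Low e (ex c) 8 τ s
            · have h1 := low_nearQ (a0 := a0) (by omega) (by omega) h
              rw [if_pos h, if_pos]
              refine ⟨?_, h1.1⟩
              have := h1.2
              simp only [hY]
              omega
            · rw [if_neg h]
              split_ifs <;> norm_num
        _ ≤ _ := by
            apply Finset.sum_le_sum_of_subset_of_nonneg
            · intro τ hτ
              simp only [Finset.mem_filter, Finset.mem_Icc] at hτ ⊢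
              omega
            · intro τ _ _
              exact hG0 τ s
  -- Step C
  have hC1 : ∀ τ, ∑ s ∈ Icc a0 u, G τ s ≤ Cn * ∑ c : Fin T → Bool,
      (if Y τ c < 2 * Rc + 9 then (1 + (Mq e (ex c) (Y τ c) a0 u : ℝ)) else 0) := by
    intro τ
    have e1 : ∑ s ∈ Icc a0 u, G τ s = ∑ y ∈ range (2 * Rc + 9), ∑ c : Fin T → Bool,
        (if Y τ c = y then (1 : ℝ) else 0) *
          ∑ s ∈ Icc a0 u, (if nearQ e (ex c) y 8 a0 s then (1 : ℝ) else 0) := by
      rw [Finset.sum_comm (s := range (2 * Rc + 9))]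
      simp only [hG]
      rw [Finset.sum_comm]
      apply Finset.sum_congr rfl
      intro c _
      simp only [Finset.mul_sum]
      rw [Finset.sum_comm]
      apply Finset.sum_congr rfl
      intro s _
      by_cases h : Y τ c < 2 * Rc + 9
      · rw [Finset.sum_eq_single (Y τ c)]
        · by_cases h2 : nearQ e (ex c) (Y τ c) 8 a0 s
          · simp [h, h2]
          · simp [h2]
        · intro y _ hy
          rw [if_neg (fun h => hy h.symm), zero_mul]
        · intro h2
          exact absurd (Finset.mem_range.mpr h) h2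
      · rw [if_neg (fun h2 => h h2.1)]
        symm
        apply Finset.sum_eq_zero
        intro y hy
        rw [if_neg, zero_mul]
        intro h2
        rw [h2] at h
        exact h (Finset.mem_range.mp hy)
    have e2 : ∑ c : Fin T → Bool,
      (if Y τ c < 2 * Rc + 9 then (1 + (Mq e (ex c) (Y τ c) a0 u : ℝ)) else 0) =
        ∑ y ∈ range (2 * Rc + 9), ∑ c : Fin T → Bool,
        (if Y τ c = y then (1 : ℝ) else 0) * (1 + (Mq e (ex c) y a0 u : ℝ)) := by
      rw [Finset.sum_comm (s := range (2 * Rc + 9))]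
      apply Finset.sum_congr rfl
      intro c _
      by_cases h : Y τ c < 2 * Rc + 9
      · rw [if_pos h, Finset.sum_eq_single (Y τ c)]
        · simp
        · intro y _ hy
          rw [if_neg (fun h => hy h.symm), zero_mul]
        · intro h2
          exact absurd (Finset.mem_range.mpr h) h2
      · rw [if_neg h]
        symm
        apply Finset.sum_eq_zero
        intro y hy
        rw [if_neg, zero_mul]
        intro h2
        rw [h2] at h
        exact h (Finset.mem_range.mp hy)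
    rw [e1, e2, Finset.mul_sum]
    apply Finset.sum_le_sum
    intro y _
    have := hn T e a0 u y (fun c => if Y τ c = y then (1 : ℝ) else 0) ha0u huT
      (by
        intro c i v hi
        have e3 : Y τ (Function.update c i v) = Y τ c := yq_past e τ a0 c i v hi
        simp only [e3])
      (fun c => by split_ifs <;> norm_num)
    exact_mod_cast this
  -- Step D: bound of the right side
  have hD1 : ∑ τ ∈ Icc (a0 - 2 * K) a0, ∑ c : Fin T → Bool,
      (if Y τ c < 2 * Rc + 9 then (1 + (Mq e (ex c) (Y τ c) a0 u : ℝ)) else 0) ≤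
      ∑ τ ∈ Icc (a0 - 2 * K) a0, ∑ c : Fin T → Bool,
        (if Y τ c ≤ 2 * Rc + 8 then (1 : ℝ) else 0) +
      ∑ M ∈ range (2 * Rc + 1), ∑ c : Fin T → Bool,
        (∑ τ ∈ Icc (a0 - 2 * K) a0, (if Y τ c ≤ M then (1 : ℝ) else 0)) *
          (if M < Mx c then (1 : ℝ) else 0) := by
    have hMx2 : ∀ c, Mx c ≤ 2 * Rc := by
      intro c
      simp only [hMx]
      apply Finset.sup_le
      intro r hr
      have hr' := Finset.mem_Icc.mp hr
      have := ct_nonneg (ex c) a0 r
      omega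
    have e1 : ∑ M ∈ range (2 * Rc + 1), ∑ c : Fin T → Bool,
        (∑ τ ∈ Icc (a0 - 2 * K) a0, (if Y τ c ≤ M then (1 : ℝ) else 0)) *
          (if M < Mx c then (1 : ℝ) else 0) =
        ∑ τ ∈ Icc (a0 - 2 * K) a0, ∑ c : Fin T → Bool, ∑ M ∈ range (2 * Rc + 1),
          (if Y τ c ≤ M then (1 : ℝ) else 0) * (if M < Mx c then (1 : ℝ) else 0) := by
      rw [Finset.sum_comm]
      rw [Finset.sum_comm (s := Icc (a0 - 2 * K) a0)]
      apply Finset.sum_congr rfl
      intro c _
      rw [Finset.sum_comm (s := Icc (a0 - 2 * K) a0)]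
      apply Finset.sum_congr rfl
      intro M _
      rw [Finset.sum_mul]
    rw [e1, ← Finset.sum_add_distrib]
    apply Finset.sum_le_sum
    intro τ _
    rw [← Finset.sum_add_distrib]
    apply Finset.sum_le_sum
    intro c _
    have hnn : 0 ≤ ∑ M ∈ range (2 * Rc + 1),
          (if Y τ c ≤ M then (1 : ℝ) else 0) * (if M < Mx c then (1 : ℝ) else 0) :=
      Finset.sum_nonneg (fun M _ => by split_ifs <;> norm_num)
    by_cases h : Y τ c < 2 * Rc + 9
    · rw [if_pos h, if_pos (by omega)]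
      have h1 : Mq e (ex c) (Y τ c) a0 u ≤ Mx c - Y τ c := by
        have := Mq_le (g := ex c) (y := Y τ c) hD ha3
        exact this
      have h2 : ((Mx c - Y τ c : ℕ) : ℝ) ≤ ∑ M ∈ range (2 * Rc + 1),
          (if Y τ c ≤ M then (1 : ℝ) else 0) * (if M < Mx c then (1 : ℝ) else 0) := by
        have e3 : ∀ M : ℕ, (if Y τ c ≤ M then (1 : ℝ) else 0) * (if M < Mx c then (1 : ℝ) else 0) =
            if M ∈ Ico (Y τ c) (Mx c) then (1 : ℝ) else 0 := by
          intro M
          by_cases h3 : Y τ c ≤ M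
          · by_cases h4 : M < Mx c
            · simp [h3, h4]
            · simp [h4]
          · simp [h3]
        simp only [e3]
        rw [← Finset.sum_filter, Finset.sum_const, nsmul_eq_mul, mul_one]
        have e4 : (range (2 * Rc + 1)).filter (fun M => M ∈ Ico (Y τ c) (Mx c)) =
            Ico (Y τ c) (Mx c) := by
          ext M
          have := hMx2 c
          simp only [Finset.mem_filter, Finset.mem_range, Finset.mem_Ico]
          omega
        rw [e4, Nat.card_Ico]
      have h1' : (Mq e (ex c) (Y τ c) a0 u : ℝ) ≤ ((Mx c - Y τ c : ℕ) : ℝ) := by exact_mod_cast h1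
      linarith
    · rw [if_neg h]
      have : (0 : ℝ) ≤ (if Y τ c ≤ 2 * Rc + 8 then (1 : ℝ) else 0) := by split_ifs <;> norm_num
      linarith
  -- independence
  have hind : ∀ M : ℕ, ∑ c : Fin T → Bool,
        (∑ τ ∈ Icc (a0 - 2 * K) a0, (if Y τ c ≤ M then (1 : ℝ) else 0)) *
          (if M < Mx c then (1 : ℝ) else 0) ≤
        Cc * ((M : ℝ) + Real.sqrt Rc) * Real.sqrt K *
          ∑ c : Fin T → Bool, (if M < Mx c then (1 : ℝ) else 0) := by
    intro M
    have h1 := indep (T := T) a0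
      (fun c => ∑ τ ∈ Icc (a0 - 2 * K) a0, (if Y τ c ≤ M then (1 : ℝ) else 0))
      (fun c => (if M < Mx c then (1 : ℝ) else 0))
      (by
        intro c c' h
        apply Finset.sum_congr rfl
        intro τ _
        have : Y τ c = Y τ c' := by
          apply yq_congr
          intro n hn
          unfold ex
          by_cases h2 : n < T
          · rw [dif_pos h2, dif_pos h2]
            exact h ⟨n, h2⟩ hn
          · rw [dif_neg h2, dif_neg h2]
        rw [this])
      (by
        intro c c' h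
        have : Mx c = Mx c' := by
          simp only [hMx]
          apply Finset.sup_congr rfl
          intro r _
          have : ct (ex c) a0 r = ct (ex c') a0 r := by
            apply ct_congr
            intro n h1 _
            unfold ex
            by_cases h2 : n < T
            · rw [dif_pos h2, dif_pos h2]
              exact h ⟨n, h2⟩ h1
            · rw [dif_neg h2, dif_neg h2]
          simp only [this]
        simp only [this])
    have h2 := hmass M
    rw [Finset.sum_comm] at h2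
    have h3 : 0 ≤ ∑ c : Fin T → Bool, (if M < Mx c then (1 : ℝ) else 0) :=
      Finset.sum_nonneg (fun c _ => by split_ifs <;> norm_num)
    have h4 := mul_le_mul_of_nonneg_right h2 h3
    rw [← h1] at h4
    have h5 : (2 : ℝ) ^ T * ∑ c : Fin T → Bool,
        (∑ τ ∈ Icc (a0 - 2 * K) a0, (if Y τ c ≤ M then (1 : ℝ) else 0)) *
          (if M < Mx c then (1 : ℝ) else 0) ≤ 2 ^ T * (Cc * ((M : ℝ) + Real.sqrt Rc) * Real.sqrt K *
          ∑ c : Fin T → Bool, (if M < Mx c then (1 : ℝ) else 0)) := by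
      refine h4.trans (le_of_eq ?_)
      ring
    exact le_of_mul_le_mul_left h5 h2T
  -- sum over M
  have hsumM : ∑ M ∈ range (2 * Rc + 1), Cc * ((M : ℝ) + Real.sqrt Rc) * Real.sqrt K *
          ∑ c : Fin T → Bool, (if M < Mx c then (1 : ℝ) else 0) ≤
      97 * Cc * Rc * Real.sqrt K * 2 ^ T := by
    have hq := max_sq (T := T) a0 u ha0u huT (fun _ => 1) (by intro c i v _; rfl)
      (fun _ => zero_le_one)
    have hq' : ∑ c : Fin T → Bool, ((Mx c : ℕ) : ℝ) ^ 2 ≤ 16 * ((u : ℝ) - a0 + 1) * 2 ^ T := by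
      have e1 : ∑ _c : Fin T → Bool, (1 : ℝ) = 2 ^ T := by simp
      rw [e1] at hq
      refine le_trans (le_of_eq ?_) hq
      apply Finset.sum_congr rfl
      intro c _
      rw [one_mul]
    have hu0' : (u : ℝ) - a0 + 1 ≤ 3 * Rc := by
      have : (u : ℝ) ≤ a0 + 2 * Rc := by exact_mod_cast hu0
      linarith
    have hpt : ∀ c : Fin T → Bool, ∑ M ∈ range (2 * Rc + 1),
        ((M : ℝ) + Real.sqrt Rc) * (if M < Mx c then (1 : ℝ) else 0) ≤
        2 * ((Mx c : ℕ) : ℝ) ^ 2 + Rc := by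
      intro c
      calc ∑ M ∈ range (2 * Rc + 1),
          ((M : ℝ) + Real.sqrt Rc) * (if M < Mx c then (1 : ℝ) else 0)
          = ∑ M ∈ (range (2 * Rc + 1)).filter (fun M => M < Mx c), ((M : ℝ) + Real.sqrt Rc) := by
            rw [Finset.sum_filter]
            apply Finset.sum_congr rfl
            intro M _
            split_ifs <;> simp
        _ ≤ ∑ M ∈ range (Mx c), ((M : ℝ) + Real.sqrt Rc) := by
            apply Finset.sum_le_sum_of_subset_of_nonneg
            · intro M hM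
              simp only [Finset.mem_filter, Finset.mem_range] at hM ⊢
              exact hM.2
            · intro M _ _
              positivity
        _ ≤ ∑ _M ∈ range (Mx c), (((Mx c : ℕ) : ℝ) + Real.sqrt Rc) := by
            apply Finset.sum_le_sum
            intro M hM
            have : (M : ℝ) ≤ Mx c := by exact_mod_cast (Finset.mem_range.mp hM).le
            linarith
        _ = ((Mx c : ℕ) : ℝ) * (((Mx c : ℕ) : ℝ) + Real.sqrt Rc) := by
            rw [Finset.sum_const, Finset.card_range, nsmul_eq_mul]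
        _ ≤ _ := by
            nlinarith [sq_nonneg (((Mx c : ℕ) : ℝ) - Real.sqrt Rc), sq_nonneg ((Mx c : ℕ) : ℝ)]
    have e1 : ∑ M ∈ range (2 * Rc + 1), Cc * ((M : ℝ) + Real.sqrt Rc) * Real.sqrt K *
          ∑ c : Fin T → Bool, (if M < Mx c then (1 : ℝ) else 0) =
        Cc * Real.sqrt K * ∑ c : Fin T → Bool, ∑ M ∈ range (2 * Rc + 1),
          ((M : ℝ) + Real.sqrt Rc) * (if M < Mx c then (1 : ℝ) else 0) := by
      rw [Finset.sum_comm, Finset.mul_sum]
      apply Finset.sum_congr rfl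
      intro M _
      rw [← Finset.mul_sum]
      ring
    rw [e1]
    have h5 : ∑ c : Fin T → Bool, ∑ M ∈ range (2 * Rc + 1),
          ((M : ℝ) + Real.sqrt Rc) * (if M < Mx c then (1 : ℝ) else 0) ≤ 97 * Rc * 2 ^ T := by
      refine (Finset.sum_le_sum (fun c _ => hpt c)).trans ?_
      rw [Finset.sum_add_distrib, ← Finset.mul_sum]
      have e2 : ∑ _c : Fin T → Bool, (Rc : ℝ) = 2 ^ T * Rc := by simp
      rw [e2]
      have h6 : 16 * ((u : ℝ) - a0 + 1) * 2 ^ T ≤ 16 * (3 * Rc) * 2 ^ T := by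
        apply mul_le_mul_of_nonneg_right _ h2T.le
        linarith
      nlinarith
    have h6 : 0 ≤ Cc * Real.sqrt K := by positivity
    calc _ ≤ Cc * Real.sqrt K * (97 * Rc * 2 ^ T) := mul_le_mul_of_nonneg_left h5 h6
      _ = _ := by ring
  -- assembly
  have hcard1 : ((Icc a0 u).card : ℝ) ≤ 3 * Rc := by
    rw [Nat.card_Icc]
    have : u + 1 - a0 ≤ 3 * Rc := by omega
    exact_mod_cast this
  have hcard2 : ((Icc a u).card : ℝ) ≤ 3 * Rc := by
    rw [Nat.card_Icc]
    have : u + 1 - a ≤ 3 * Rc := by omega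
    exact_mod_cast this
  have hfin1 : ∑ s ∈ Icc a u, ∑ _τ ∈ Icc a0 u, (2 : ℝ) ^ T ≤ 9 * Rc * Real.sqrt K * 2 ^ T := by
    rw [Finset.sum_const, Finset.sum_const, nsmul_eq_mul, nsmul_eq_mul]
    have h1 : ((Icc a u).card : ℝ) * ((Icc a0 u).card : ℝ) ≤ (3 * Rc) * (3 * Rc) :=
      mul_le_mul hcard2 hcard1 (by positivity) (by positivity)
    have h2 : (3 * (Rc : ℝ)) * (3 * Rc) ≤ 9 * Rc * Real.sqrt K := by nlinarith
    nlinarith
  have hfin2 : ∑ s ∈ Icc a u, ∑ τ ∈ Icc (a0 - 2 * K) a0, G τ s ≤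
      Cn * (11 * Cc + 97 * Cc) * Rc * Real.sqrt K * 2 ^ T := by
    rw [Finset.sum_comm]
    calc ∑ τ ∈ Icc (a0 - 2 * K) a0, ∑ s ∈ Icc a u, G τ s
        ≤ ∑ τ ∈ Icc (a0 - 2 * K) a0, ∑ s ∈ Icc a0 u, G τ s := by
          apply Finset.sum_le_sum
          intro τ _
          apply Finset.sum_le_sum_of_subset_of_nonneg
          · exact Finset.Icc_subset_Icc ha0a le_rfl
          · intro s _ _
            exact hG0 τ s
      _ ≤ ∑ τ ∈ Icc (a0 - 2 * K) a0, Cn * ∑ c : Fin T → Bool,
          (if Y τ c < 2 * Rc + 9 then (1 + (Mq e (ex c) (Y τ c) a0 u : ℝ)) else 0) :=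
          Finset.sum_le_sum (fun τ _ => hC1 τ)
      _ = Cn * ∑ τ ∈ Icc (a0 - 2 * K) a0, ∑ c : Fin T → Bool,
          (if Y τ c < 2 * Rc + 9 then (1 + (Mq e (ex c) (Y τ c) a0 u : ℝ)) else 0) := by
          rw [Finset.mul_sum]
      _ ≤ Cn * (11 * Cc * Rc * Real.sqrt K * 2 ^ T + 97 * Cc * Rc * Real.sqrt K * 2 ^ T) := by
          apply mul_le_mul_of_nonneg_left _ hCn.le
          refine hD1.trans ?_
          apply add_le_add
          · refine (hmass (2 * Rc + 8)).trans ?_
            push_cast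
            have h1 : (2 * (Rc : ℝ) + 8 + Real.sqrt Rc) ≤ 11 * Rc := by linarith
            have h2 : 0 ≤ Cc * Real.sqrt K * 2 ^ T := by positivity
            nlinarith [mul_le_mul_of_nonneg_right h1 h2]
          · exact (Finset.sum_le_sum (fun M _ => hind M)).trans hsumM
      _ = _ := by ring
  calc (∑ s ∈ Icc a u, ∑ τ ∈ Icc (s - 2 * K) s,
      ((univ.filter (fun c : Fin T → Bool => Low e (ex c) 8 τ s)).card : ℝ))
      ≤ ∑ s ∈ Icc a u, (∑ _τ ∈ Icc a0 u, (2 : ℝ) ^ T +
          ∑ τ ∈ Icc (a0 - 2 * K) a0, G τ s) := Finset.sum_le_sum hA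
    _ = ∑ s ∈ Icc a u, ∑ _τ ∈ Icc a0 u, (2 : ℝ) ^ T +
        ∑ s ∈ Icc a u, ∑ τ ∈ Icc (a0 - 2 * K) a0, G τ s := Finset.sum_add_distrib
    _ ≤ 9 * Rc * Real.sqrt K * 2 ^ T + Cn * (11 * Cc + 97 * Cc) * Rc * Real.sqrt K * 2 ^ T :=
        add_le_add hfin1 hfin2
    _ = _ := by ring

end MP34e
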