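import Pool.Agent.Work.MP_34e428_co.ZQ0

/-! Module QP: pair swapping. -/

set_option autoImplicit false

open Finset
open scoped Classical

namespace MP34e

namespace ZQP

/-- indicator of `true` -/
def ind (b : Bool) : ℤ := if b then 1 else 0

theorem ct_sum (g : ℕ → Bool) (a n : ℕ) : ct g a (a + n) = ∑ i ∈ range n, ind (g (a + i)) := by
  induction n with
  | zero => simp [ct_self]
  | succ n ih =>
    rw [← add_assoc, ct_succ g (Nat.le_add_right a n), ih, Finset.sum_range_succ]
    rfl

/-- exchange two coins -/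
def sw {T : ℕ} (p q : Fin T) (c : Fin T → Bool) : Fin T → Bool := fun j => c (Equiv.swap p q j)

theorem sw_inv {T : ℕ} (p q : Fin T) : Function.Involutive (sw (T := T) p q) := by
  intro c
  funext j
  unfold sw
  rw [Equiv.swap_apply_self]

theorem sw_eq {T : ℕ} (p q : Fin T) (c : Fin T → Bool) :
    sw p q c = Function.update (Function.update c p (c q)) q (c p) := by
  funext j
  unfold sw
  by_cases hq : j = q
  · subst hq
    rw [Equiv.swap_apply_right, Function.update_self]
  · rw [Function.update_of_ne hq]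
    by_cases hp : j = p
    · subst hp
      rw [Equiv.swap_apply_left, Function.update_self]
    · rw [Equiv.swap_apply_of_ne_of_ne hp hq, Function.update_of_ne hp]

theorem ex_sw {T : ℕ} (p q : Fin T) (c : Fin T → Bool) (n : ℕ) :
    ex (sw p q c) n = if n = p then ex c q else if n = q then ex c p else ex c n := by
  unfold ex sw
  by_cases hn : n < T
  · rw [dif_pos hn]
    by_cases h1 : n = p
    · have : (⟨n, hn⟩ : Fin T) = p := Fin.ext h1
      rw [if_pos h1, this, Equiv.swap_apply_left, dif_pos q.2]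
    · rw [if_neg h1]
      by_cases h2 : n = q
      · have : (⟨n, hn⟩ : Fin T) = q := Fin.ext h2
        rw [if_pos h2, this, Equiv.swap_apply_right, dif_pos p.2]
      · rw [if_neg h2, dif_pos hn, Equiv.swap_apply_of_ne_of_ne]
        · intro h
          exact h1 (congrArg Fin.val h)
        · intro h
          exact h2 (congrArg Fin.val h)
  · have h1 : n ≠ p := fun h => hn (h ▸ p.2)
    have h2 : n ≠ q := fun h => hn (h ▸ q.2)
    rw [dif_neg hn, if_neg h1, if_neg h2, dif_neg hn]

theorem past_sw {T a : ℕ} {F : (Fin T → Bool) → ℝ} (hF : past a F) (p q : Fin T) (hp : a ≤ (p : ℕ))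
    (hq : a ≤ (q : ℕ)) (c : Fin T → Bool) : F (sw p q c) = F c := by
  rw [sw_eq, hF _ _ _ hq, hF _ _ _ hp]

/-- partial difference of the numbers of V coins -/
noncomputable def dl (g : ℕ → Bool) (P Q m : ℕ) : ℝ :=
  ∑ i ∈ range m, ((ind (g (P + i)) : ℝ) - (ind (g (Q + i)) : ℝ))

theorem exp_cosh (θ D δ : ℝ) : Real.exp (θ * (D + δ)) + Real.exp (θ * (D - δ)) =
    2 * (Real.exp (θ * D) * Real.cosh (θ * δ)) := by
  rw [mul_add, mul_sub, Real.exp_add, sub_eq_add_neg (θ * D), Real.exp_add, Real.cosh_eq]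
  ring

theorem exchange {T : ℕ} {w P Q : ℕ} (hPQ : P + w ≤ Q) (hQ : Q + w ≤ T)
    (G : (Fin T → Bool) → ℝ) (hG0 : ∀ c, 0 ≤ G c)
    (hG : ∀ i (hi : i < w) c, G (sw ⟨P + i, by omega⟩ ⟨Q + i, by omega⟩ c) = G c) (θ : ℝ)
    (m : ℕ) (hm : m ≤ w) :
    ∑ c : Fin T → Bool, G c * Real.exp (θ * dl (ex c) P Q m) ≤
      Real.exp (θ ^ 2 / 2 * m) * ∑ c : Fin T → Bool, G c := by
  induction m with
  | zero => simp [dl]
  | succ m ih =>
    have hmw : m < w := hm
    have ih' := ih (by omega)
    set p : Fin T := ⟨P + m, by omega⟩ with hp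
    set q : Fin T := ⟨Q + m, by omega⟩ with hq
    have hsplit : ∀ c : Fin T → Bool, dl (ex c) P Q (m + 1) =
        dl (ex c) P Q m + ((ind (ex c (P + m)) : ℝ) - (ind (ex c (Q + m)) : ℝ)) := by
      intro c
      unfold dl
      rw [Finset.sum_range_succ]
    have hinv1 : ∀ c : Fin T → Bool, dl (ex (sw p q c)) P Q m = dl (ex c) P Q m := by
      intro c
      unfold dl
      apply Finset.sum_congr rfl
      intro i hi
      rw [Finset.mem_range] at hi
      have e1 : ex (sw p q c) (P + i) = ex c (P + i) := by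
        rw [ex_sw, if_neg (by simp [hp]; omega), if_neg (by simp [hq]; omega)]
      have e2 : ex (sw p q c) (Q + i) = ex c (Q + i) := by
        rw [ex_sw, if_neg (by simp [hp]; omega), if_neg (by simp [hq]; omega)]
      rw [e1, e2]
    have hinv2 : ∀ c : Fin T → Bool, (ind (ex (sw p q c) (P + m)) : ℝ) -
        (ind (ex (sw p q c) (Q + m)) : ℝ) =
        -((ind (ex c (P + m)) : ℝ) - (ind (ex c (Q + m)) : ℝ)) := by
      intro c
      have e1 : ex (sw p q c) (P + m) = ex c (Q + m) := by
        rw [ex_sw, if_pos (by simp [hp])]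
      have e2 : ex (sw p q c) (Q + m) = ex c (P + m) := by
        rw [ex_sw, if_neg (by simp [hp]; omega), if_pos (by simp [hq])]
      rw [e1, e2]
      ring
    have hsym : ∑ c : Fin T → Bool, G c * Real.exp (θ * dl (ex c) P Q (m + 1)) =
        ∑ c : Fin T → Bool, G c * Real.exp (θ * (dl (ex c) P Q m -
          ((ind (ex c (P + m)) : ℝ) - (ind (ex c (Q + m)) : ℝ)))) := by
      rw [← Equiv.sum_comp (sw_inv p q).toPerm
        (fun c : Fin T → Bool => G c * Real.exp (θ * dl (ex c) P Q (m + 1)))]
      apply Finset.sum_congr rfl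
      intro c _
      show G (sw p q c) * Real.exp (θ * dl (ex (sw p q c)) P Q (m + 1)) = _
      rw [hG m hmw, hsplit, hinv1, hinv2]
      congr 2
    have hle : ∑ c : Fin T → Bool, G c * Real.exp (θ * dl (ex c) P Q (m + 1)) ≤
        ∑ c : Fin T → Bool, (G c * Real.exp (θ * dl (ex c) P Q m)) * Real.exp (θ ^ 2 / 2) := by
      have h2 : 2 * ∑ c : Fin T → Bool, G c * Real.exp (θ * dl (ex c) P Q (m + 1)) =
          ∑ c : Fin T → Bool, (G c * Real.exp (θ * dl (ex c) P Q (m + 1)) +
            G c * Real.exp (θ * (dl (ex c) P Q m -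
          ((ind (ex c (P + m)) : ℝ) - (ind (ex c (Q + m)) : ℝ))))) := by
        rw [Finset.sum_add_distrib, ← hsym]
        ring
      have h3 : ∀ c : Fin T → Bool, G c * Real.exp (θ * dl (ex c) P Q (m + 1)) +
            G c * Real.exp (θ * (dl (ex c) P Q m -
          ((ind (ex c (P + m)) : ℝ) - (ind (ex c (Q + m)) : ℝ)))) ≤
          2 * ((G c * Real.exp (θ * dl (ex c) P Q m)) * Real.exp (θ ^ 2 / 2)) := by
        intro c
        rw [hsplit]
        set δ : ℝ := (ind (ex c (P + m)) : ℝ) - (ind (ex c (Q + m)) : ℝ) with hδ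
        set D : ℝ := dl (ex c) P Q m with hD
        have hδ1 : δ = 0 ∨ δ = 1 ∨ δ = -1 := by
          rw [hδ]
          unfold ind
          cases ex c (P + m) <;> cases ex c (Q + m) <;> simp
        have h4 := exp_cosh θ D δ
        have h5 : Real.cosh (θ * δ) ≤ Real.exp (θ ^ 2 / 2) := by
          refine (Real.cosh_le_exp_half_sq _).trans (Real.exp_le_exp.2 ?_)
          rcases hδ1 with h | h | h <;> rw [h] <;> nlinarith [sq_nonneg θ]
        have h6 : 0 ≤ G c := hG0 c
        have h7 : 0 < Real.exp (θ * D) := Real.exp_pos _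
        calc G c * Real.exp (θ * (D + δ)) + G c * Real.exp (θ * (D - δ))
            = G c * (Real.exp (θ * (D + δ)) + Real.exp (θ * (D - δ))) := by ring
          _ = 2 * ((G c * Real.exp (θ * D)) * Real.cosh (θ * δ)) := by
              rw [h4]
              ring
          _ ≤ 2 * ((G c * Real.exp (θ * D)) * Real.exp (θ ^ 2 / 2)) := by
              apply mul_le_mul_of_nonneg_left _ (by norm_num)
              exact mul_le_mul_of_nonneg_left h5 (by positivity)
      have h8 := Finset.sum_le_sum fun c (_ : c ∈ (univ : Finset (Fin T → Bool))) => h3 c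
      rw [← h2, ← Finset.mul_sum] at h8
      linarith
    rw [← Finset.sum_mul] at hle
    refine hle.trans ?_
    calc (∑ c : Fin T → Bool, G c * Real.exp (θ * dl (ex c) P Q m)) * Real.exp (θ ^ 2 / 2)
        ≤ (Real.exp (θ ^ 2 / 2 * m) * ∑ c : Fin T → Bool, G c) * Real.exp (θ ^ 2 / 2) :=
          mul_le_mul_of_nonneg_right ih' (Real.exp_pos _).le
      _ = (Real.exp (θ ^ 2 / 2 * m) * Real.exp (θ ^ 2 / 2)) * ∑ c : Fin T → Bool, G c := by ring
      _ = _ := by
          rw [← Real.exp_add]
          congr 2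
          push_cast
          ring

end ZQP

open ZQP

/-- QP: pair swapping (exchangeability and Hoeffding) -/
theorem pair_swap {T : ℕ} (e : ℕ → Bool) (y a x w : ℕ) (hw : 1 ≤ w) (hax : a + 2 * w ≤ x)
    (hx : x ≤ T) (F : (Fin T → Bool) → ℝ) (hF : past a F) (hF0 : ∀ c, 0 ≤ F c) (α β : ℝ)
    (hβα : β ≤ α) :
    ∑ c : Fin T → Bool, F c * (if AQ e (ex c) y a x (2 * w) ∧
        α * w ≤ (vc (ex c) (x - w) x : ℝ) ∧ (vc (ex c) (x - 2 * w) x : ℝ) ≤ β * (2 * w)
        then (1 : ℝ) else 0) ≤
      Real.exp (-(2 * (α - β) ^ 2 * w)) *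
        ∑ c : Fin T → Bool, F c * (if AQ e (ex c) y a x (2 * w) then (1 : ℝ) else 0) := by
  set P := x - 2 * w with hP
  set Q := x - w with hQ
  have hPw : P + w = Q := by omega
  have hQw : Q + w = x := by omega
  set θ : ℝ := 2 * (α - β) with hθ
  have hθ0 : 0 ≤ θ := by
    rw [hθ]
    linarith
  have hctP : ∀ g : ℕ → Bool, ct g P Q = ∑ i ∈ range w, ind (g (P + i)) := by
    intro g
    rw [← hPw]
    exact ct_sum g P w
  have hctQ : ∀ g : ℕ → Bool, ct g Q x = ∑ i ∈ range w, ind (g (Q + i)) := by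
    intro g
    rw [← hQw]
    exact ct_sum g Q w
  have hdl : ∀ g : ℕ → Bool, dl g P Q w = (ct g P Q : ℝ) - ct g Q x := by
    intro g
    unfold dl
    rw [hctP, hctQ, Finset.sum_sub_distrib]
    push_cast
    rfl
  set G : (Fin T → Bool) → ℝ := fun c => F c * (if AQ e (ex c) y a x (2 * w) then (1 : ℝ) else 0)
    with hG
  have hG0 : ∀ c, 0 ≤ G c := by
    intro c
    simp only [hG]
    apply mul_nonneg (hF0 c)
    split_ifs <;> norm_num
  have hGinv : ∀ i (hi : i < w) c,
      G (sw ⟨P + i, by omega⟩ ⟨Q + i, by omega⟩ c) = G c := by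
    intro i hi c
    set p : Fin T := ⟨P + i, by omega⟩ with hp
    set q : Fin T := ⟨Q + i, by omega⟩ with hq
    have hct1 : ∀ r, r ≤ P → ct (ex (sw p q c)) a r = ct (ex c) a r := by
      intro r hr
      apply ct_congr
      intro n _ hn
      rw [ex_sw, if_neg (by simp [hp]; omega), if_neg (by simp [hq]; omega)]
    have hct2 : ct (ex (sw p q c)) a x = ct (ex c) a x := by
      have h1 : ∀ g : ℕ → Bool, ct g a x = ct g a P +
          ∑ i ∈ range w, (ind (g (P + i)) + ind (g (Q + i))) := by
        intro g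
        rw [← ct_add g (show a ≤ P by omega) (show P ≤ x by omega),
          ← ct_add g (show P ≤ Q by omega) (show Q ≤ x by omega), hctP, hctQ,
          Finset.sum_add_distrib]
      rw [h1, h1, hct1 P le_rfl]
      congr 1
      apply Finset.sum_congr rfl
      intro k hk
      rw [Finset.mem_range] at hk
      by_cases hki : k = i
      · subst hki
        have e1 : ex (sw p q c) (P + k) = ex c (Q + k) := by
          rw [ex_sw, if_pos (by simp [hp])]
        have e2 : ex (sw p q c) (Q + k) = ex c (P + k) := by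
          rw [ex_sw, if_neg (by simp [hp]; omega), if_pos (by simp [hq])]
        rw [e1, e2]
        ring
      · have e1 : ex (sw p q c) (P + k) = ex c (P + k) := by
          rw [ex_sw, if_neg (by simp [hp]; omega), if_neg (by simp [hq]; omega)]
        have e2 : ex (sw p q c) (Q + k) = ex c (Q + k) := by
          rw [ex_sw, if_neg (by simp [hp]; omega), if_neg (by simp [hq]; omega)]
        rw [e1, e2]
    have hAQ : AQ e (ex (sw p q c)) y a x (2 * w) ↔ AQ e (ex c) y a x (2 * w) := by
      unfold AQ FQ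
      rw [hct2]
      constructor
      · rintro ⟨h1, h2⟩
        refine ⟨h1, fun r hr1 hr2 => ?_⟩
        have := h2 r hr1 hr2
        rwa [hct1 r (by omega)] at this
      · rintro ⟨h1, h2⟩
        refine ⟨h1, fun r hr1 hr2 => ?_⟩
        rw [hct1 r (by omega)]
        exact h2 r hr1 hr2
    simp only [hG]
    rw [past_sw hF p q (by simp [hp]; omega) (by simp [hq]; omega)]
    simp only [hAQ]
  have hex := exchange (T := T) (w := w) (P := P) (Q := Q) (by omega) (by omega) G hG0 hGinv θ w
    le_rfl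
  have hterm : ∀ c : Fin T → Bool, F c * (if AQ e (ex c) y a x (2 * w) ∧
        α * w ≤ (vc (ex c) Q x : ℝ) ∧ (vc (ex c) P x : ℝ) ≤ β * (2 * w)
        then (1 : ℝ) else 0) ≤
      (G c * Real.exp (θ * dl (ex c) P Q w)) * Real.exp (-(θ * (2 * (α - β) * w))) := by
    intro c
    by_cases h : AQ e (ex c) y a x (2 * w) ∧
        α * w ≤ (vc (ex c) Q x : ℝ) ∧ (vc (ex c) P x : ℝ) ≤ β * (2 * w)
    · rw [if_pos h]
      simp only [hG]
      rw [if_pos h.1, mul_one, mul_assoc, ← Real.exp_add]
      apply le_mul_of_one_le_right (hF0 c)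
      apply Real.one_le_exp
      have h1 : (vc (ex c) Q x : ℝ) = w - ct (ex c) Q x := by
        unfold vc
        have : (x : ℝ) = Q + w := by exact_mod_cast hQw.symm
        push_cast
        rw [this]
        ring
      have h2 : (vc (ex c) P x : ℝ) = 2 * w - (ct (ex c) P Q + ct (ex c) Q x) := by
        have h3 : ct (ex c) P x = ct (ex c) P Q + ct (ex c) Q x :=
          (ct_add (ex c) (show P ≤ Q by omega) (show Q ≤ x by omega)).symm
        unfold vc
        have h4 : (x : ℝ) = P + 2 * w := by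
          have : x = P + 2 * w := by omega
          exact_mod_cast this
        rw [h3]
        push_cast
        rw [h4]
        ring
      have h5 : 2 * (α - β) * w ≤ dl (ex c) P Q w := by
        rw [hdl]
        have h6 := h.2.1
        have h7 := h.2.2
        rw [h1] at h6
        rw [h2] at h7
        linarith
      have h8 := mul_le_mul_of_nonneg_left h5 hθ0
      linarith
    · rw [if_neg h, mul_zero]
      exact mul_nonneg (mul_nonneg (hG0 c) (Real.exp_pos _).le) (Real.exp_pos _).le
  calc _ ≤ ∑ c : Fin T → Bool,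
        (G c * Real.exp (θ * dl (ex c) P Q w)) * Real.exp (-(θ * (2 * (α - β) * w))) :=
        Finset.sum_le_sum fun c _ => hterm c
    _ = (∑ c : Fin T → Bool, G c * Real.exp (θ * dl (ex c) P Q w)) *
        Real.exp (-(θ * (2 * (α - β) * w))) := (Finset.sum_mul _ _ _).symm
    _ ≤ (Real.exp (θ ^ 2 / 2 * w) * ∑ c : Fin T → Bool, G c) *
        Real.exp (-(θ * (2 * (α - β) * w))) := mul_le_mul_of_nonneg_right hex (Real.exp_pos _).le
    _ = (Real.exp (θ ^ 2 / 2 * w) * Real.exp (-(θ * (2 * (α - β) * w)))) *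
        ∑ c : Fin T → Bool, G c := by ring
    _ = _ := by
        rw [← Real.exp_add]
        congr 2
        rw [hθ]
        ring

end MP34e
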