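import Pool.Agent.Work.MP_34e428_co.ZQH
import Pool.Agent.Work.MP_34e428_co.ZQA
import Pool.Agent.Work.MP_34e428_co.ZQP

/-! Module QN: runs of V before a new minimum. -/

set_option autoImplicit false

open Finset
open scoped Classical

namespace MP34e

/-- thresholds -/
noncomputable def qnG (i : ℕ) : ℝ := 3 / 4 + (1 / 4) * (9 / 10) ^ i

/-- the scale `i` is good at `x` -/
def qnP (a j x : ℕ) (g : ℕ → Bool) (i : ℕ) : Prop :=
  a + 2 ^ i * j ≤ x ∧ qnG i * ((2 ^ i * j : ℕ) : ℝ) ≤ (vc g (x - 2 ^ i * j) x : ℝ)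

theorem qn_vrun {g : ℕ → Bool} {j x : ℕ} (h : Vrun g j x) (hjx : j ≤ x) :
    vc g (x - j) x = j := by
  have h1 : ct g (x - j) x = 0 := by
    unfold ct
    rw [Finset.filter_false_of_mem]
    · simp
    · intro t ht
      rw [mem_Ico] at ht
      rw [h t (by omega) ht.2]
      simp
  unfold vc
  rw [h1]
  omega

theorem qn_newmin_AQ {e g : ℕ → Bool} {y a x w : ℕ} (h : newmin e g y a x) (hw : 1 ≤ w) :
    AQ e g y a x w := ⟨h.2.1, fun r h1 h2 => h.2.2 r h1 (by omega)⟩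

/-- the alternative for one coin sequence -/
theorem qn_cases {e g : ℕ → Bool} {y a u x j : ℕ} (hj : 1 ≤ j) (hax : a + j ≤ x) (hxu : x ≤ u)
    (h1 : newmin e g y a x) (h2 : Vrun g j x) :
    (∃ i < u, a + 2 * (2 ^ i * j) ≤ x ∧ AQ e g y a x (2 * (2 ^ i * j)) ∧
      qnG i * ((2 ^ i * j : ℕ) : ℝ) ≤ (vc g (x - 2 ^ i * j) x : ℝ) ∧
      (vc g (x - 2 * (2 ^ i * j)) x : ℝ) ≤ qnG (i + 1) * (2 * ((2 ^ i * j : ℕ) : ℝ))) ∨
    (∃ i, a + 2 ^ i * j ≤ x ∧ x < a + 2 * (2 ^ i * j) ∧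
      3 * ((2 ^ i * j : ℕ) : ℤ) ≤ 4 * vc g (x - 2 ^ i * j) x) := by
  have hP0 : qnP a j x g 0 := by
    refine ⟨by simpa using hax, ?_⟩
    have h3 : vc g (x - 2 ^ 0 * j) x = j := by
      rw [pow_zero, one_mul]
      exact qn_vrun h2 (by omega)
    rw [h3]
    unfold qnG
    push_cast
    simp only [pow_zero]
    apply le_of_eq
    ring
  have hlarge : ∀ i, u ≤ i → ¬ qnP a j x g i := by
    intro i hi h
    have h3 : i < 2 ^ i := Nat.lt_two_pow_self
    have h4 : 2 ^ i * 1 ≤ 2 ^ i * j := Nat.mul_le_mul_left _ hj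
    have h5 := h.1
    omega
  have hex : ∃ i, ¬ qnP a j x g i := ⟨u, hlarge u le_rfl⟩
  set n := Nat.find hex with hn
  have hn1 : ¬ qnP a j x g n := Nat.find_spec hex
  have hn0 : n ≠ 0 := by
    intro h
    rw [h] at hn1
    exact hn1 hP0
  obtain ⟨i, hi⟩ := Nat.exists_eq_succ_of_ne_zero hn0
  have hPi : qnP a j x g i := by
    by_contra hcon
    have := Nat.find_min' hex hcon
    omega
  have hiu : i < u := by
    by_contra hcon
    exact hlarge i (by omega) hPi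
  rw [hi] at hn1
  have hpow : 2 ^ (i + 1) * j = 2 * (2 ^ i * j) := by ring
  unfold qnP at hn1
  rw [Nat.succ_eq_add_one, hpow, not_and_or] at hn1
  have hw1 : 1 ≤ 2 * (2 ^ i * j) := by
    have : 1 ≤ 2 ^ i * j := Nat.mul_pos (by positivity) hj
    omega
  by_cases hc : a + 2 * (2 ^ i * j) ≤ x
  · left
    rcases hn1 with h3 | h3
    · exact absurd hc h3
    · refine ⟨i, hiu, hc, qn_newmin_AQ h1 hw1, hPi.2, ?_⟩
      push Not at h3
      refine h3.le.trans (le_of_eq ?_)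
      push_cast
      ring
  · right
    refine ⟨i, hPi.1, by omega, ?_⟩
    have h3 := hPi.2
    have h4 : (3 / 4 : ℝ) ≤ qnG i := by
      unfold qnG
      have : (0 : ℝ) < (9 / 10) ^ i := by positivity
      linarith
    have h5 : (0 : ℝ) ≤ ((2 ^ i * j : ℕ) : ℝ) := Nat.cast_nonneg _
    have h6 : (3 / 4 : ℝ) * ((2 ^ i * j : ℕ) : ℝ) ≤ (vc g (x - 2 ^ i * j) x : ℝ) :=
      (mul_le_mul_of_nonneg_right h4 h5).trans h3
    have h7 : 3 * (((2 ^ i * j : ℕ) : ℤ) : ℝ) ≤ 4 * (vc g (x - 2 ^ i * j) x : ℝ) := by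
      push_cast at h6 ⊢
      linarith
    exact_mod_cast h7

/-- numerical estimate for one scale -/
theorem qn_num (i j : ℕ) (hj : 1 ≤ j) :
    Real.exp (-(2 * (qnG i - qnG (i + 1)) ^ 2 * ((2 ^ i * j : ℕ) : ℝ))) *
      (2 * (2 ^ i * j : ℕ) : ℝ) ≤
      (10240000 * (5000 / 6561) ^ i) * Real.exp (-(1 / 1600)) ^ j := by
  have hj0 : (0 : ℝ) < j := by exact_mod_cast hj
  have hj1 : (1 : ℝ) ≤ j := by exact_mod_cast hj
  have h1 : 2 * (qnG i - qnG (i + 1)) ^ 2 * ((2 ^ i * j : ℕ) : ℝ) = (81 / 50) ^ i * j / 800 := by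
    unfold qnG
    push_cast
    have : (81 / 50 : ℝ) ^ i = ((9 / 10) ^ i) ^ 2 * 2 ^ i := by
      rw [← pow_mul, mul_comm i 2, pow_mul, ← mul_pow]
      norm_num
    rw [this, pow_succ]
    ring
  rw [h1]
  set z : ℝ := (81 / 50) ^ i * j / 1600 with hz
  have hz0 : 0 < z := by rw [hz]; positivity
  have h2 : (81 / 50 : ℝ) ^ i * j / 800 = z + z := by rw [hz]; ring
  rw [h2, neg_add, Real.exp_add]
  have h3 : Real.exp (-z) ≤ Real.exp (-(1 / 1600)) ^ j := by
    rw [← Real.exp_nat_mul]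
    apply Real.exp_le_exp.2
    have h4 : (1 : ℝ) ≤ (81 / 50) ^ i := one_le_pow₀ (by norm_num)
    rw [hz]
    have : (j : ℝ) ≤ (81 / 50) ^ i * j := le_mul_of_one_le_left hj0.le h4
    linarith
  have h4 : Real.exp (-z) ≤ 2 / z ^ 2 := by
    rw [Real.exp_neg, inv_eq_one_div, div_le_div_iff₀ (Real.exp_pos z) (by positivity)]
    have := Real.quadratic_le_exp_of_nonneg hz0.le
    nlinarith
  have h5 : 2 / z ^ 2 * (2 * (2 ^ i * j : ℕ) : ℝ) ≤ 10240000 * (5000 / 6561) ^ i := by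
    have h6 : (5000 / 6561 : ℝ) ^ i = 2 ^ i / ((81 / 50) ^ i) ^ 2 := by
      rw [← pow_mul, mul_comm i 2, pow_mul, ← div_pow]
      norm_num
    rw [h6, hz]
    push_cast
    have h7 : (0 : ℝ) < (81 / 50) ^ i := by positivity
    have h8 : (0 : ℝ) < 2 ^ i := by positivity
    have h9 : 2 / ((81 / 50 : ℝ) ^ i * j / 1600) ^ 2 * (2 * (2 ^ i * j)) =
        10240000 * (2 ^ i / ((81 / 50) ^ i) ^ 2) * (1 / j) := by
      field_simp
      ring
    rw [h9]
    apply mul_le_of_le_one_right (by positivity)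
    rw [div_le_one hj0]
    exact hj1
  calc Real.exp (-z) * Real.exp (-z) * (2 * (2 ^ i * j : ℕ) : ℝ)
      ≤ Real.exp (-(1 / 1600)) ^ j * (2 / z ^ 2) * (2 * (2 ^ i * j : ℕ) : ℝ) := by
        apply mul_le_mul_of_nonneg_right _ (by positivity)
        exact mul_le_mul h3 h4 (Real.exp_pos _).le (by positivity)
    _ = (2 / z ^ 2 * (2 * (2 ^ i * j : ℕ) : ℝ)) * Real.exp (-(1 / 1600)) ^ j := by ring
    _ ≤ _ := mul_le_mul_of_nonneg_right h5 (by positivity)

/-- the estimate at one point -/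
theorem qn_point {T : ℕ} (e : ℕ → Bool) (a u y j x : ℕ) (F : (Fin T → Bool) → ℝ) (hu : u ≤ T)
    (hj : 1 ≤ j) (hF : past a F) (hF0 : ∀ c, 0 ≤ F c) (hax : a + j ≤ x) (hxu : x ≤ u) :
    ∑ c : Fin T → Bool, F c * (if newmin e (ex c) y a x ∧ Vrun (ex c) j x then (1 : ℝ) else 0) ≤
      ∑ i ∈ range u, (if a + 2 * (2 ^ i * j) ≤ x then
        Real.exp (-(2 * (qnG i - qnG (i + 1)) ^ 2 * ((2 ^ i * j : ℕ) : ℝ))) *
          ∑ c : Fin T → Bool, F c * (if AQ e (ex c) y a x (2 * (2 ^ i * j)) then (1 : ℝ) else 0)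
        else 0) +
      Real.exp (-(((x - a : ℕ) : ℝ) / 16)) * ∑ c : Fin T → Bool, F c := by
  -- the last scale
  obtain ⟨I, hI1, hI2⟩ : ∃ I, a + 2 ^ I * j ≤ x ∧ x < a + 2 * (2 ^ I * j) := by
    have hex : ∃ i, x < a + 2 ^ i * j := by
      refine ⟨x + 1, ?_⟩
      have h3 : x + 1 < 2 ^ (x + 1) := Nat.lt_two_pow_self
      have h4 : 2 ^ (x + 1) * 1 ≤ 2 ^ (x + 1) * j := Nat.mul_le_mul_left _ hj
      omega
    have h0 : Nat.find hex ≠ 0 := by
      intro h
      have := Nat.find_spec hex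
      rw [h, pow_zero, one_mul] at this
      omega
    obtain ⟨i, hi⟩ := Nat.exists_eq_succ_of_ne_zero h0
    refine ⟨i, ?_, ?_⟩
    · by_contra hcon
      have := Nat.find_min' hex (m := i) (by omega)
      omega
    · have := Nat.find_spec hex
      rw [hi, Nat.succ_eq_add_one, pow_succ] at this
      have e1 : 2 ^ i * 2 * j = 2 * (2 ^ i * j) := by ring
      omega
  have huniq : ∀ i, a + 2 ^ i * j ≤ x → x < a + 2 * (2 ^ i * j) → i = I := by
    intro i h1 h2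
    rcases lt_trichotomy i I with h | h | h
    · exfalso
      have h3 : 2 ^ (i + 1) ≤ 2 ^ I := Nat.pow_le_pow_right (by norm_num) h
      have h4 : 2 ^ (i + 1) * j ≤ 2 ^ I * j := Nat.mul_le_mul_right _ h3
      have h5 : 2 ^ (i + 1) * j = 2 * (2 ^ i * j) := by ring
      omega
    · exact h
    · exfalso
      have h3 : 2 ^ (I + 1) ≤ 2 ^ i := Nat.pow_le_pow_right (by norm_num) h
      have h4 : 2 ^ (I + 1) * j ≤ 2 ^ i * j := Nat.mul_le_mul_right _ h3
      have h5 : 2 ^ (I + 1) * j = 2 * (2 ^ I * j) := by ring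
      omega
  have hpt : ∀ c : Fin T → Bool,
      (if newmin e (ex c) y a x ∧ Vrun (ex c) j x then (1 : ℝ) else 0) ≤
      ∑ i ∈ range u, (if a + 2 * (2 ^ i * j) ≤ x then
        (if AQ e (ex c) y a x (2 * (2 ^ i * j)) ∧
          qnG i * ((2 ^ i * j : ℕ) : ℝ) ≤ (vc (ex c) (x - 2 ^ i * j) x : ℝ) ∧
          (vc (ex c) (x - 2 * (2 ^ i * j)) x : ℝ) ≤ qnG (i + 1) * (2 * ((2 ^ i * j : ℕ) : ℝ))
          then (1 : ℝ) else 0) else 0) +
      (if 3 * ((2 ^ I * j : ℕ) : ℤ) ≤ 4 * vc (ex c) (x - 2 ^ I * j) x then (1 : ℝ) else 0) := by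
    intro c
    have hnn : ∀ i ∈ range u, (0 : ℝ) ≤ (if a + 2 * (2 ^ i * j) ≤ x then
        (if AQ e (ex c) y a x (2 * (2 ^ i * j)) ∧
          qnG i * ((2 ^ i * j : ℕ) : ℝ) ≤ (vc (ex c) (x - 2 ^ i * j) x : ℝ) ∧
          (vc (ex c) (x - 2 * (2 ^ i * j)) x : ℝ) ≤ qnG (i + 1) * (2 * ((2 ^ i * j : ℕ) : ℝ))
          then (1 : ℝ) else 0) else 0) := by
      intro i _
      split_ifs <;> norm_num
    by_cases h : newmin e (ex c) y a x ∧ Vrun (ex c) j x
    · rw [if_pos h]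
      rcases qn_cases hj hax hxu h.1 h.2 with ⟨i, hi, h1, h2, h3, h4⟩ | ⟨i, h1, h2, h3⟩
      · have h5 := Finset.single_le_sum hnn (mem_range.2 hi)
        rw [if_pos h1, if_pos ⟨h2, h3, h4⟩] at h5
        have h6 : (0 : ℝ) ≤ (if 3 * ((2 ^ I * j : ℕ) : ℤ) ≤ 4 * vc (ex c) (x - 2 ^ I * j) x
          then (1 : ℝ) else 0) := by split_ifs <;> norm_num
        linarith
      · have h4 := huniq i h1 h2
        rw [h4] at h3
        rw [if_pos h3]
        have := Finset.sum_nonneg hnn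
        linarith
    · rw [if_neg h]
      have h1 := Finset.sum_nonneg hnn
      have h6 : (0 : ℝ) ≤ (if 3 * ((2 ^ I * j : ℕ) : ℤ) ≤ 4 * vc (ex c) (x - 2 ^ I * j) x
          then (1 : ℝ) else 0) := by split_ifs <;> norm_num
      linarith
  calc ∑ c : Fin T → Bool, F c * (if newmin e (ex c) y a x ∧ Vrun (ex c) j x then (1 : ℝ) else 0)
      ≤ ∑ c : Fin T → Bool, F c * (∑ i ∈ range u, (if a + 2 * (2 ^ i * j) ≤ x then
        (if AQ e (ex c) y a x (2 * (2 ^ i * j)) ∧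
          qnG i * ((2 ^ i * j : ℕ) : ℝ) ≤ (vc (ex c) (x - 2 ^ i * j) x : ℝ) ∧
          (vc (ex c) (x - 2 * (2 ^ i * j)) x : ℝ) ≤ qnG (i + 1) * (2 * ((2 ^ i * j : ℕ) : ℝ))
          then (1 : ℝ) else 0) else 0) +
      (if 3 * ((2 ^ I * j : ℕ) : ℤ) ≤ 4 * vc (ex c) (x - 2 ^ I * j) x then (1 : ℝ) else 0)) :=
        Finset.sum_le_sum fun c _ => mul_le_mul_of_nonneg_left (hpt c) (hF0 c)
    _ = ∑ i ∈ range u, (if a + 2 * (2 ^ i * j) ≤ x then
        ∑ c : Fin T → Bool, F c * (if AQ e (ex c) y a x (2 * (2 ^ i * j)) ∧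
          qnG i * ((2 ^ i * j : ℕ) : ℝ) ≤ (vc (ex c) (x - 2 ^ i * j) x : ℝ) ∧
          (vc (ex c) (x - 2 * (2 ^ i * j)) x : ℝ) ≤ qnG (i + 1) * (2 * ((2 ^ i * j : ℕ) : ℝ))
          then (1 : ℝ) else 0) else 0) +
        ∑ c : Fin T → Bool, F c *
          (if 3 * ((2 ^ I * j : ℕ) : ℤ) ≤ 4 * vc (ex c) (x - 2 ^ I * j) x
            then (1 : ℝ) else 0) := by
        simp only [mul_add, Finset.sum_add_distrib, Finset.mul_sum]
        congr 1
        rw [Finset.sum_comm]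
        apply Finset.sum_congr rfl
        intro i _
        split_ifs with h
        · rfl
        · simp
    _ ≤ _ := by
        apply add_le_add
        · apply Finset.sum_le_sum
          intro i _
          split_ifs with h
          · have hw : 1 ≤ 2 ^ i * j := Nat.mul_pos (by positivity) hj
            exact pair_swap e y a x (2 ^ i * j) hw h (hxu.trans hu) F hF hF0 (qnG i)
              (qnG (i + 1)) (by
                unfold qnG
                have : (9 / 10 : ℝ) ^ (i + 1) ≤ (9 / 10) ^ i :=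
                  pow_le_pow_of_le_one (by norm_num) (by norm_num) (by omega)
                linarith)
          · exact le_rfl
        · have h1 := dense_count a x (2 ^ I * j) hI1 (hxu.trans hu) F hF hF0
          refine h1.trans ?_
          apply mul_le_mul_of_nonneg_right _ (Finset.sum_nonneg fun c _ => hF0 c)
          apply Real.exp_le_exp.2
          have h2 : x - a ≤ 2 * (2 ^ I * j) := by omega
          have h3 : ((x - a : ℕ) : ℝ) ≤ 2 * ((2 ^ I * j : ℕ) : ℝ) := by exact_mod_cast h2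
          linarith

/-- QN: runs of V before a new minimum -/
theorem newmin_run : ∃ C ρ : ℝ, 0 < C ∧ 0 < ρ ∧ ρ < 1 ∧ ∀ (T : ℕ) (e : ℕ → Bool) (a u y j : ℕ)
    (F : (Fin T → Bool) → ℝ), a ≤ u → u ≤ T → 1 ≤ j → past a F → (∀ c, 0 ≤ F c) →
    ∑ x ∈ Icc (a + j) u, ∑ c : Fin T → Bool,
        F c * (if newmin e (ex c) y a x ∧ Vrun (ex c) j x then (1 : ℝ) else 0) ≤
      C * ρ ^ j * ∑ c : Fin T → Bool, F c * (1 + (Mq e (ex c) y a u : ℝ)) := by
  set ρ := Real.exp (-(1 / 1600)) with hρ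
  set σ := Real.exp (-(1 / 16)) with hσ
  have hρ0 : 0 < ρ := Real.exp_pos _
  have hρ1 : ρ < 1 := by rw [hρ, Real.exp_lt_one_iff]; norm_num
  have hσ0 : 0 < σ := Real.exp_pos _
  have hσ1 : σ < 1 := by rw [hσ, Real.exp_lt_one_iff]; norm_num
  have hσρ : σ ≤ ρ := by
    rw [hρ, hσ]
    apply Real.exp_le_exp.2
    norm_num
  have h1σ : 0 < 1 - σ := by linarith
  refine ⟨10240000 * (1 - 5000 / 6561)⁻¹ + (1 - σ)⁻¹, ρ, by positivity, hρ0, hρ1, ?_⟩
  intro T e a u y j F hau hu hj hF hF0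
  set Sf := ∑ c : Fin T → Bool, F c with hSf
  set Sm := ∑ c : Fin T → Bool, F c * (Mq e (ex c) y a u : ℝ) with hSm
  have hSf0 : 0 ≤ Sf := Finset.sum_nonneg fun c _ => hF0 c
  have hSm0 : 0 ≤ Sm := Finset.sum_nonneg fun c _ => mul_nonneg (hF0 c) (Nat.cast_nonneg _)
  have hsum : ∑ c : Fin T → Bool, F c * (1 + (Mq e (ex c) y a u : ℝ)) = Sf + Sm := by
    rw [hSf, hSm, ← Finset.sum_add_distrib]
    apply Finset.sum_congr rfl
    intro c _
    ring
  rw [hsum]
  -- scale i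
  have hscale : ∀ i, ∑ x ∈ Icc (a + j) u, (if a + 2 * (2 ^ i * j) ≤ x then
        Real.exp (-(2 * (qnG i - qnG (i + 1)) ^ 2 * ((2 ^ i * j : ℕ) : ℝ))) *
          ∑ c : Fin T → Bool, F c * (if AQ e (ex c) y a x (2 * (2 ^ i * j)) then (1 : ℝ) else 0)
        else 0) ≤ (10240000 * (5000 / 6561) ^ i) * ρ ^ j * Sm := by
    intro i
    set w := 2 * (2 ^ i * j) with hw
    set E := Real.exp (-(2 * (qnG i - qnG (i + 1)) ^ 2 * ((2 ^ i * j : ℕ) : ℝ))) with hE
    have hE0 : 0 < E := Real.exp_pos _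
    have h1 : ∑ x ∈ Icc (a + j) u, (if a + w ≤ x then E *
          ∑ c : Fin T → Bool, F c * (if AQ e (ex c) y a x w then (1 : ℝ) else 0) else 0) ≤
        ∑ x ∈ Icc (a + w) u, E *
          ∑ c : Fin T → Bool, F c * (if AQ e (ex c) y a x w then (1 : ℝ) else 0) := by
      rw [← Finset.sum_filter]
      apply Finset.sum_le_sum_of_subset_of_nonneg
      · intro x hx
        rw [mem_filter, mem_Icc] at hx
        rw [mem_Icc]
        exact ⟨hx.2, hx.1.2⟩
      · intro x _ _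
        apply mul_nonneg hE0.le
        apply Finset.sum_nonneg
        intro c _
        apply mul_nonneg (hF0 c)
        split_ifs <;> norm_num
    refine h1.trans ?_
    rw [← Finset.mul_sum, Finset.sum_comm]
    have h2 : ∑ c : Fin T → Bool, ∑ x ∈ Icc (a + w) u,
        F c * (if AQ e (ex c) y a x w then (1 : ℝ) else 0) ≤ (w : ℝ) * Sm := by
      rw [hSm, Finset.mul_sum]
      apply Finset.sum_le_sum
      intro c _
      rw [← Finset.mul_sum, Finset.sum_boole]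
      have h3 := sum_AQ e (ex c) y a u w
      have h4 : ((((Icc (a + w) u).filter (fun x => AQ e (ex c) y a x w)).card : ℕ) : ℝ) ≤
          (w : ℝ) * (Mq e (ex c) y a u : ℝ) := by exact_mod_cast h3
      calc F c * (((Icc (a + w) u).filter (fun x => AQ e (ex c) y a x w)).card : ℝ)
          ≤ F c * ((w : ℝ) * (Mq e (ex c) y a u : ℝ)) := mul_le_mul_of_nonneg_left h4 (hF0 c)
        _ = _ := by ring
    have h5 := qn_num i j hj
    calc E * ∑ c : Fin T → Bool, ∑ x ∈ Icc (a + w) u,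
          F c * (if AQ e (ex c) y a x w then (1 : ℝ) else 0) ≤ E * ((w : ℝ) * Sm) :=
          mul_le_mul_of_nonneg_left h2 hE0.le
      _ = (E * (2 * (2 ^ i * j : ℕ) : ℝ)) * Sm := by
          rw [hw]
          push_cast
          ring
      _ ≤ _ := mul_le_mul_of_nonneg_right h5 hSm0
  have hgeo : ∑ i ∈ range u, (5000 / 6561 : ℝ) ^ i ≤ (1 - 5000 / 6561)⁻¹ := by
    have h1 := Summable.sum_le_tsum (range u) (fun i _ => by positivity)
      (summable_geometric_of_lt_one (r := (5000 / 6561 : ℝ)) (by norm_num) (by norm_num))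
    rwa [tsum_geometric_of_lt_one (by norm_num) (by norm_num)] at h1
  have hgeo2 : ∑ x ∈ Icc (a + j) u, Real.exp (-(((x - a : ℕ) : ℝ) / 16)) ≤
      ρ ^ j * (1 - σ)⁻¹ := by
    have h1 : ∀ x ∈ Icc (a + j) u, Real.exp (-(((x - a : ℕ) : ℝ) / 16)) = σ ^ (x - a) := by
      intro x _
      rw [hσ, ← Real.exp_nat_mul]
      congr 1
      ring
    rw [Finset.sum_congr rfl h1]
    have h2 : ∑ x ∈ Icc (a + j) u, σ ^ (x - a) ≤ ∑ n ∈ range (u + 1), σ ^ j * σ ^ n := by
      have h3 : ∑ x ∈ Icc (a + j) u, σ ^ (x - a) =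
          ∑ n ∈ (Icc (a + j) u).image (fun x => x - (a + j)), σ ^ j * σ ^ n := by
        rw [Finset.sum_image]
        · apply Finset.sum_congr rfl
          intro x hx
          rw [mem_Icc] at hx
          rw [← pow_add]
          congr 1
          omega
        · intro x hx x' hx' h
          rw [mem_coe, mem_Icc] at hx hx'
          simp only at h
          omega
      rw [h3]
      apply Finset.sum_le_sum_of_subset_of_nonneg
      · intro n hn
        rw [mem_image] at hn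
        obtain ⟨x, hx, rfl⟩ := hn
        rw [mem_Icc] at hx
        rw [mem_range]
        omega
      · intro n _ _
        positivity
    refine h2.trans ?_
    rw [← Finset.mul_sum]
    have h4 : ∑ n ∈ range (u + 1), σ ^ n ≤ (1 - σ)⁻¹ := by
      have h1 := Summable.sum_le_tsum (range (u + 1)) (fun i _ => by positivity)
        (summable_geometric_of_lt_one (r := σ) hσ0.le hσ1)
      rwa [tsum_geometric_of_lt_one hσ0.le hσ1] at h1
    apply mul_le_mul (pow_le_pow_left₀ hσ0.le hσρ j) h4 _ (by positivity)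
    exact Finset.sum_nonneg fun _ _ => by positivity
  calc ∑ x ∈ Icc (a + j) u, ∑ c : Fin T → Bool,
        F c * (if newmin e (ex c) y a x ∧ Vrun (ex c) j x then (1 : ℝ) else 0)
      ≤ ∑ x ∈ Icc (a + j) u, (∑ i ∈ range u, (if a + 2 * (2 ^ i * j) ≤ x then
        Real.exp (-(2 * (qnG i - qnG (i + 1)) ^ 2 * ((2 ^ i * j : ℕ) : ℝ))) *
          ∑ c : Fin T → Bool, F c * (if AQ e (ex c) y a x (2 * (2 ^ i * j)) then (1 : ℝ) else 0)
        else 0) + Real.exp (-(((x - a : ℕ) : ℝ) / 16)) * Sf) := by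
        apply Finset.sum_le_sum
        intro x hx
        rw [mem_Icc] at hx
        exact qn_point e a u y j x F hu hj hF hF0 hx.1 hx.2
    _ = ∑ i ∈ range u, ∑ x ∈ Icc (a + j) u, (if a + 2 * (2 ^ i * j) ≤ x then
        Real.exp (-(2 * (qnG i - qnG (i + 1)) ^ 2 * ((2 ^ i * j : ℕ) : ℝ))) *
          ∑ c : Fin T → Bool, F c * (if AQ e (ex c) y a x (2 * (2 ^ i * j)) then (1 : ℝ) else 0)
        else 0) + (∑ x ∈ Icc (a + j) u, Real.exp (-(((x - a : ℕ) : ℝ) / 16))) * Sf := by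
        rw [Finset.sum_add_distrib, Finset.sum_comm, Finset.sum_mul]
    _ ≤ ∑ i ∈ range u, (10240000 * (5000 / 6561) ^ i) * ρ ^ j * Sm +
        (ρ ^ j * (1 - σ)⁻¹) * Sf :=
        add_le_add (Finset.sum_le_sum fun i _ => hscale i) (mul_le_mul_of_nonneg_right hgeo2 hSf0)
    _ = 10240000 * (∑ i ∈ range u, (5000 / 6561 : ℝ) ^ i) * (ρ ^ j * Sm) +
        (ρ ^ j * (1 - σ)⁻¹) * Sf := by
        congr 1
        rw [Finset.mul_sum, Finset.sum_mul]
        apply Finset.sum_congr rfl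
        intro i _
        ring
    _ ≤ 10240000 * (1 - 5000 / 6561)⁻¹ * (ρ ^ j * Sm) + (ρ ^ j * (1 - σ)⁻¹) * Sf := by
        gcongr
    _ ≤ _ := by
        have e1 : 0 ≤ 10240000 * (1 - 5000 / 6561 : ℝ)⁻¹ * (ρ ^ j * Sf) := by positivity
        have e2 : 0 ≤ (ρ ^ j * (1 - σ)⁻¹) * Sm := by positivity
        nlinarith

end MP34e
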