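import Pool.Agent.Work.MP_34e428_co.ZQ0
import Pool.Agent.Work.MP_34e428_co.LCoin1

/-! Module QO: overshoot of the simple random walk. -/

set_option autoImplicit false

open Finset
open scoped Classical

namespace MP34e

/-- number of walks on `[a, b)` which end at `≤ -y` -/
private noncomputable def PP (T a b : ℕ) (y : ℤ) : ℝ :=
  ∑ c : Fin T → Bool, (if 2 * ct (ex c) a b - ((b : ℤ) - a) ≤ -y then (1 : ℝ) else 0)

private theorem PP_rec {T a b : ℕ} (hab : a ≤ b) (hb : b + 1 ≤ T) (y : ℤ) :
    PP T a (b + 1) y = (1 / 2) * (PP T a b (y + 1) + PP T a b (y - 1)) := by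
  unfold PP
  have h1 := flip_sum (T := T) ⟨b, by omega⟩
    (fun v c => if (2 * ct (ex c) a b - ((b : ℤ) - a)) + (if v then 1 else -1) ≤ -y
      then (1 : ℝ) else 0)
    (by
      intro v c w
      have := ct_update c ⟨b, by omega⟩ w (a := a) (b := b) (Or.inr le_rfl)
      simp only [this])
  simp only [if_true, Bool.false_eq_true, if_false] at h1
  have h2 : ∑ c : Fin T → Bool,
      (if 2 * ct (ex c) a (b + 1) - (((b + 1 : ℕ) : ℤ) - a) ≤ -y then (1 : ℝ) else 0) =
      ∑ c : Fin T → Bool, (if (2 * ct (ex c) a b - ((b : ℤ) - a)) +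
        (if c ⟨b, by omega⟩ then 1 else -1) ≤ -y then (1 : ℝ) else 0) := by
    apply Finset.sum_congr rfl
    intro c _
    have e1 : ex c b = c ⟨b, by omega⟩ := by
      unfold ex
      rw [dif_pos (show b < T by omega)]
    have e2 : 2 * ct (ex c) a (b + 1) - (((b + 1 : ℕ) : ℤ) - a) =
        (2 * ct (ex c) a b - ((b : ℤ) - a)) + (if c ⟨b, by omega⟩ then 1 else -1) := by
      rw [ct_succ _ hab, e1]
      push_cast
      split_ifs <;> ring
    rw [e2]
  rw [h2, h1]
  congr 2
  · apply Finset.sum_congr rfl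
    intro c _
    have : ((2 * ct (ex c) a b - ((b : ℤ) - a)) + 1 ≤ -y) ↔
        (2 * ct (ex c) a b - ((b : ℤ) - a) ≤ -(y + 1)) := by
      constructor <;> intro h <;> linarith
    simp only [this]
  · apply Finset.sum_congr rfl
    intro c _
    have : ((2 * ct (ex c) a b - ((b : ℤ) - a)) + -1 ≤ -y) ↔
        (2 * ct (ex c) a b - ((b : ℤ) - a) ≤ -(y - 1)) := by
      constructor <;> intro h <;> linarith
    simp only [this]

private theorem PP_eq_card (T a b : ℕ) (y : ℤ) : PP T a b y =
    ((univ.filter (fun c : Fin T → Bool => 2 * ct (ex c) a b - ((b : ℤ) - a) ≤ -y)).card : ℝ) :=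
  (card_filter_eq _).symm

private theorem walk_flip {T : ℕ} (c : Fin T → Bool) {a b : ℕ} (hab : a ≤ b) (hb : b ≤ T) :
    2 * ct (ex (fun i => !c i)) a b - ((b : ℤ) - a) = -(2 * ct (ex c) a b - ((b : ℤ) - a)) := by
  have h1 : ct (ex (fun i => !c i)) a b = ct (nt (ex c)) a b := by
    apply ct_congr
    intro n _ hn
    have : n < T := by omega
    simp [nt, ex, this]
  rw [h1, ct_nt _ hab]
  ring

private theorem PP_zero_ge {T a b : ℕ} (hab : a ≤ b) (hb : b ≤ T) :
    (2 : ℝ) ^ T ≤ 2 * PP T a b 0 := by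
  rw [PP_eq_card]
  have h1 := Finset.card_filter_add_card_filter_not (s := (univ : Finset (Fin T → Bool)))
    (fun c => 2 * ct (ex c) a b - ((b : ℤ) - a) ≤ -0)
  have h2 : (univ.filter (fun c : Fin T → Bool => ¬ (2 * ct (ex c) a b - ((b : ℤ) - a) ≤ -0))).card
      = (univ.filter (fun c : Fin T → Bool => 2 * ct (ex c) a b - ((b : ℤ) - a) < 0)).card := by
    apply card_flip
    intro c
    rw [walk_flip c hab hb]
    constructor <;> intro h <;> omega
  have h3 : (univ.filter (fun c : Fin T → Bool => 2 * ct (ex c) a b - ((b : ℤ) - a) < 0)).card ≤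
      (univ.filter (fun c : Fin T → Bool => 2 * ct (ex c) a b - ((b : ℤ) - a) ≤ -0)).card := by
    apply Finset.card_le_card
    intro c hc
    simp only [Finset.mem_filter, Finset.mem_univ, true_and] at hc ⊢
    omega
  have h4 : (univ : Finset (Fin T → Bool)).card = 2 ^ T := by simp
  rw [h4] at h1
  have h5 : 2 ^ T ≤ 2 * (univ.filter (fun c : Fin T → Bool =>
      2 * ct (ex c) a b - ((b : ℤ) - a) ≤ -0)).card := by omega
  exact_mod_cast h5

private theorem PP_dev {T a b : ℕ} (hab : a < b) (hb : b ≤ T) (v : ℕ) :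
    PP T a b v ≤ 2 ^ T * Real.exp (-((v : ℝ) ^ 2 / (2 * ((b : ℝ) - a)))) := by
  have hm : (0 : ℝ) < (b : ℝ) - a := by
    have : (a : ℝ) < b := by exact_mod_cast hab
    linarith
  have hmn : ((b - a : ℕ) : ℝ) = (b : ℝ) - a := by
    push_cast [hab.le]; ring
  set lam : ℝ := v / ((b : ℝ) - a) with hlam
  have hl : 0 ≤ lam := by positivity
  have h1 := mgf (T := T) hab.le hb (-lam)
  rw [Real.cosh_neg] at h1
  have hc : Real.cosh lam ^ (b - a) ≤ Real.exp (lam ^ 2 * ((b : ℝ) - a) / 2) := by
    calc Real.cosh lam ^ (b - a) ≤ Real.exp (lam ^ 2 / 2) ^ (b - a) :=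
          pow_le_pow_left₀ (Real.cosh_pos _).le (Real.cosh_le_exp_half_sq lam) _
      _ = _ := by
          rw [← Real.exp_nat_mul, hmn]
          congr 1
          ring
  have h2 := markov_count (T := T)
    (fun c => -((2 * ct (ex c) a b - ((b : ℤ) - a) : ℤ) : ℝ)) lam v
    (2 ^ T * Real.exp (lam ^ 2 * ((b : ℝ) - a) / 2)) hl (by
      refine le_trans (le_of_eq ?_) (mul_le_mul_of_nonneg_left hc (by positivity : (0:ℝ) ≤ 2 ^ T))
      rw [← h1]
      apply Finset.sum_congr rfl
      intro c _
      congr 1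
      ring)
  rw [PP_eq_card]
  have h3 : (univ.filter (fun c : Fin T → Bool =>
      2 * ct (ex c) a b - ((b : ℤ) - a) ≤ -(v : ℤ))) =
      (univ.filter (fun c : Fin T → Bool =>
        (v : ℝ) ≤ -((2 * ct (ex c) a b - ((b : ℤ) - a) : ℤ) : ℝ))) := by
    apply Finset.filter_congr
    intro c _
    constructor
    · intro h
      have : ((2 * ct (ex c) a b - ((b : ℤ) - a) : ℤ) : ℝ) ≤ ((-(v : ℤ) : ℤ) : ℝ) := by
        exact_mod_cast h
      push_cast at this ⊢
      linarith
    · intro h
      have : ((2 * ct (ex c) a b - ((b : ℤ) - a) : ℤ) : ℝ) ≤ ((-(v : ℤ) : ℤ) : ℝ) := by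
        push_cast at h ⊢
        linarith
      exact_mod_cast this
  rw [h3]
  refine h2.trans (le_of_eq ?_)
  rw [mul_assoc, ← Real.exp_add]
  congr 2
  rw [hlam]
  field_simp
  ring

private theorem PP_over {T a : ℕ} (R : ℕ) (hR1 : 1 ≤ R) (v : ℕ) (n : ℕ) :
    n ≤ R → a + n ≤ T → ∀ z : ℕ,
    PP T a (a + n) ((z : ℤ) + v) ≤ 2 * Real.exp (-((v : ℝ) ^ 2 / (2 * R))) * PP T a (a + n) z := by
  have hR0 : (0 : ℝ) < R := by exact_mod_cast hR1
  have hbase : ∀ n, n ≤ R → a + n ≤ T →
      PP T a (a + n) v ≤ 2 * Real.exp (-((v : ℝ) ^ 2 / (2 * R))) * PP T a (a + n) 0 := by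
    intro n hn hT
    have h0 := PP_zero_ge (T := T) (a := a) (b := a + n) (by omega) hT
    rcases Nat.eq_zero_or_pos n with h | h
    · subst h
      rcases Nat.eq_zero_or_pos v with hv | hv
      · subst hv
        simp only [CharP.cast_eq_zero]
        have : (0 : ℝ) ≤ PP T a (a + 0) 0 := by
          unfold PP
          apply Finset.sum_nonneg
          intro c _
          split_ifs <;> norm_num
        norm_num
        rw [add_zero] at this
        linarith
      · have : PP T a (a + 0) v = 0 := by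
          unfold PP
          apply Finset.sum_eq_zero
          intro c _
          rw [if_neg]
          rw [add_zero, ct_self]
          omega
        rw [this]
        have : (0 : ℝ) ≤ PP T a (a + 0) 0 := by
          unfold PP
          apply Finset.sum_nonneg
          intro c _
          split_ifs <;> norm_num
        positivity
    · have h1 := PP_dev (T := T) (a := a) (b := a + n) (by omega) hT v
      have h2 : Real.exp (-((v : ℝ) ^ 2 / (2 * (((a + n : ℕ) : ℝ) - a)))) ≤
          Real.exp (-((v : ℝ) ^ 2 / (2 * R))) := by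
        apply Real.exp_le_exp.mpr
        rw [neg_le_neg_iff]
        have e1 : ((a + n : ℕ) : ℝ) - a = n := by push_cast; ring
        rw [e1]
        have hn' : (n : ℝ) ≤ R := by exact_mod_cast hn
        have hn0 : (0 : ℝ) < n := by exact_mod_cast h
        apply div_le_div_of_nonneg_left (by positivity) (by positivity) (by linarith)
      calc PP T a (a + n) v ≤ 2 ^ T * Real.exp (-((v : ℝ) ^ 2 / (2 * (((a + n : ℕ) : ℝ) - a)))) := h1
        _ ≤ 2 ^ T * Real.exp (-((v : ℝ) ^ 2 / (2 * R))) :=
            mul_le_mul_of_nonneg_left h2 (by positivity)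
        _ ≤ (2 * PP T a (a + n) 0) * Real.exp (-((v : ℝ) ^ 2 / (2 * R))) :=
            mul_le_mul_of_nonneg_right h0 (by positivity)
        _ = _ := by ring
  induction n with
  | zero =>
    intro hn hT z
    rcases Nat.eq_zero_or_pos z with hz | hz
    · subst hz
      have := hbase 0 hn hT
      simpa using this
    · have h1 : ∀ y : ℤ, 0 < y → PP T a (a + 0) y = 0 := by
        intro y hy
        unfold PP
        apply Finset.sum_eq_zero
        intro c _
        rw [if_neg]
        rw [add_zero, ct_self]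
        omega
      rw [h1 _ (by omega), h1 _ (by omega)]
      simp
  | succ n ih =>
    intro hn hT z
    rcases Nat.eq_zero_or_pos z with hz | hz
    · subst hz
      have := hbase (n + 1) hn hT
      simpa using this
    · have ih' := ih (by omega) (by omega)
      rw [← add_assoc, PP_rec (by omega) (by omega), PP_rec (by omega) (by omega)]
      have i1 := ih' (z + 1)
      have i2 := ih' (z - 1)
      have e1 : ((z + 1 : ℕ) : ℤ) = (z : ℤ) + 1 := by push_cast; ring
      have e2 : ((z - 1 : ℕ) : ℤ) = (z : ℤ) - 1 := by push_cast [hz]; ring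
      rw [e1] at i1
      rw [e2] at i2
      have e3 : (z : ℤ) + v + 1 = z + 1 + v := by ring
      have e4 : (z : ℤ) + v - 1 = z - 1 + v := by ring
      rw [e3, e4]
      linarith

/-- QO: overshoot of the simple random walk -/
theorem overshoot {T : ℕ} (a b : ℕ) (hab : a ≤ b) (hb : b ≤ T) (R : ℕ) (hR : b ≤ a + R)
    (hR1 : 1 ≤ R) (z v : ℕ) :
    ((univ.filter (fun c : Fin T → Bool =>
      2 * ct (ex c) a b - ((b : ℤ) - a) ≤ -((z : ℤ) + v))).card : ℝ) ≤
    2 * Real.exp (-((v : ℝ) ^ 2 / (2 * R))) *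
      ((univ.filter (fun c : Fin T → Bool =>
        2 * ct (ex c) a b - ((b : ℤ) - a) ≤ -(z : ℤ))).card : ℝ) := by
  obtain ⟨n, rfl⟩ : ∃ n, b = a + n := ⟨b - a, by omega⟩
  have := PP_over (T := T) (a := a) R hR1 v n (by omega) hb z
  rw [PP_eq_card, PP_eq_card] at this
  exact this

end MP34e
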