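import Pool.Agent.Work.MP_34e428_co.ZDefs

/-! Exact order, module RA: zombies which never influence the survivor can be removed. -/

set_option autoImplicit false

open Finset
open scoped Classical

namespace MP34e

private theorem zdir_agree (L : ℕ) {k : ℕ} (S : Finset (Fin k)) (m : ZM) (q : Fin k → ℤ × ℤ)
    (h : ∀ i ∉ S, ¬ infl L (q i)) : zdir L univ m q = zdir L S m q := by
  have h1 : (∃ i ∈ (univ : Finset (Fin k)), EB (q i)) ↔ ∃ i ∈ S, EB (q i) := by
    constructor
    · rintro ⟨i, _, hi⟩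
      by_cases hS : i ∈ S
      · exact ⟨i, hS, hi⟩
      · exact absurd (Or.inl hi) (h i hS)
    · rintro ⟨i, _, hi⟩
      exact ⟨i, Finset.mem_univ i, hi⟩
  have h2 : (∃ i ∈ (univ : Finset (Fin k)), NB (q i)) ↔ ∃ i ∈ S, NB (q i) := by
    constructor
    · rintro ⟨i, _, hi⟩
      by_cases hS : i ∈ S
      · exact ⟨i, hS, hi⟩
      · exact absurd (Or.inr (Or.inl hi)) (h i hS)
    · rintro ⟨i, _, hi⟩
      exact ⟨i, Finset.mem_univ i, hi⟩
  unfold zdir
  simp only [h1, h2]

private theorem zok_agree (L : ℕ) {k : ℕ} (S : Finset (Fin k)) (b : Bool) (D : ℤ)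
    (q : Fin k → ℤ × ℤ) (lv : ℤ) (h : ∀ i ∉ S, ¬ infl L (q i)) :
    zok L univ b D q lv ↔ zok L S b D q lv := by
  unfold zok
  constructor
  · intro H i _ hv
    exact H i (Finset.mem_univ i) hv
  · intro H i _ hv
    by_cases hS : i ∈ S
    · exact H i hS hv
    · exact absurd (Or.inr (Or.inr hv)) (h i hS)

private theorem ztg_agree (L : ℕ) {k : ℕ} (S : Finset (Fin k)) (m : ZM) (q : Fin k → ℤ × ℤ)
    (h : ∀ i ∉ S, ¬ infl L (q i)) : ztg L univ m q = ztg L S m q := by
  unfold ztg zlev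
  simp only [zok_agree L S _ _ q _ h]

/-- the memory as an element of `ZM` -/
private noncomputable def mz (L : ℕ) {k : ℕ} (S : Finset (Fin k)) (K o : ℕ) (c : Fin k → ℕ → Bool)
    (J : Fin k → ℕ → ℤ × ℤ → Bool) (p : Fin k → ℤ × ℤ) (t : ℕ) : ZM :=
  ((zst L S).run K o c J p t).2

section rec

variable (L : ℕ) {k : ℕ} (S : Finset (Fin k)) (K o : ℕ) (c : Fin k → ℕ → Bool)
    (J : Fin k → ℕ → ℤ × ℤ → Bool) (p : Fin k → ℤ × ℤ) (t : ℕ)

private theorem run_succ_fst (i : Fin k) : ((zst L S).run K o c J p (t + 1)).1 i =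
    smJ K o (zdir L S (mz L S K o c J p t) ((zst L S).mid K o c J p t))
      ((zst L S).mid K o c J p t i) := rfl

private theorem mz_succ : mz L S K o c J p (t + 1) =
    ⟨(mz L S K o c J p t).D +
        (if zdir L S (mz L S K o c J p t) ((zst L S).mid K o c J p t) then 1 else -1),
      zph (mz L S K o c J p t), ztg L S (mz L S K o c J p t) ((zst L S).mid K o c J p t)⟩ := rfl

private theorem pth_eq : (zst L S).pth K o c J p t =
    zdir L S (mz L S K o c J p t) ((zst L S).mid K o c J p t) := rfl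

end rec

/-- RA: zombies which never influence the survivor can be removed -/
theorem run_agree (L : ℕ) {k : ℕ} (S : Finset (Fin k)) (K o : ℕ) (c : Fin k → ℕ → Bool)
    (J : Fin k → ℕ → ℤ × ℤ → Bool) (p : Fin k → ℤ × ℤ) (a : ℕ)
    (h : ∀ r < a, ∀ i ∉ S, ¬ infl L ((zst L univ).mid K o c J p r i)) :
    ∀ t ≤ a, ((zst L univ).run K o c J p t).1 = ((zst L S).run K o c J p t).1 ∧
      (((zst L univ).run K o c J p t).2 : ZM) = ((zst L S).run K o c J p t).2 ∧
      (t < a → (zst L univ).pth K o c J p t = (zst L S).pth K o c J p t) := by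
  have key : ∀ t ≤ a, ((zst L univ).run K o c J p t).1 = ((zst L S).run K o c J p t).1 ∧
      mz L univ K o c J p t = mz L S K o c J p t := by
    intro t
    induction t with
    | zero => intro _; exact ⟨rfl, rfl⟩
    | succ t ih =>
      intro ht
      obtain ⟨h1, h2⟩ := ih (by omega)
      have hm : (zst L univ).mid K o c J p t = (zst L S).mid K o c J p t := by
        funext i
        unfold Strat.mid
        rw [h1]
      have hi := h t (by omega)
      rw [hm] at hi
      constructor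
      · funext i
        rw [run_succ_fst, run_succ_fst, hm, h2, zdir_agree L S _ _ hi]
      · rw [mz_succ, mz_succ, hm, h2, zdir_agree L S _ _ hi, ztg_agree L S _ _ hi]
  intro t ht
  obtain ⟨h1, h2⟩ := key t ht
  refine ⟨h1, h2, ?_⟩
  intro hta
  have hm : (zst L univ).mid K o c J p t = (zst L S).mid K o c J p t := by
    funext i
    unfold Strat.mid
    rw [h1]
  have hi := h t hta
  rw [hm] at hi
  rw [pth_eq, pth_eq, hm, h2, zdir_agree L S _ _ hi]

private theorem zdir_local (L : ℕ) {k : ℕ} (S : Finset (Fin k)) (m : ZM) (q q' : Fin k → ℤ × ℤ)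
    (h : ∀ i ∈ S, q i = q' i) : zdir L S m q = zdir L S m q' := by
  have h1 : (∃ i ∈ S, EB (q i)) ↔ ∃ i ∈ S, EB (q' i) := by
    constructor
    · rintro ⟨i, hS, hi⟩
      exact ⟨i, hS, by rw [← h i hS]; exact hi⟩
    · rintro ⟨i, hS, hi⟩
      exact ⟨i, hS, by rw [h i hS]; exact hi⟩
  have h2 : (∃ i ∈ S, NB (q i)) ↔ ∃ i ∈ S, NB (q' i) := by
    constructor
    · rintro ⟨i, hS, hi⟩
      exact ⟨i, hS, by rw [← h i hS]; exact hi⟩
    · rintro ⟨i, hS, hi⟩
      exact ⟨i, hS, by rw [h i hS]; exact hi⟩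
  unfold zdir
  simp only [h1, h2]

private theorem ztg_local (L : ℕ) {k : ℕ} (S : Finset (Fin k)) (m : ZM) (q q' : Fin k → ℤ × ℤ)
    (h : ∀ i ∈ S, q i = q' i) : ztg L S m q = ztg L S m q' := by
  have hz : ∀ (b : Bool) (D lv : ℤ), zok L S b D q lv ↔ zok L S b D q' lv := by
    intro b D lv
    unfold zok
    constructor
    · intro H i hS hv
      rw [← h i hS] at hv ⊢
      exact H i hS hv
    · intro H i hS hv
      rw [h i hS] at hv ⊢
      exact H i hS hv
  unfold ztg zlev
  simp only [hz]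

/-- RL: the path of the survivor who only takes `S` into account only depends on the data of the
zombies in `S` -/
theorem run_local (L : ℕ) {k : ℕ} (S : Finset (Fin k)) (K o : ℕ) (c c' : Fin k → ℕ → Bool)
    (J J' : Fin k → ℕ → ℤ × ℤ → Bool) (p p' : Fin k → ℤ × ℤ)
    (h : ∀ i ∈ S, c i = c' i ∧ J i = J' i ∧ p i = p' i) :
    (zst L S).pth K o c J p = (zst L S).pth K o c' J' p' := by
  have key : ∀ t, (∀ i ∈ S, ((zst L S).run K o c J p t).1 i = ((zst L S).run K o c' J' p' t).1 i) ∧
      mz L S K o c J p t = mz L S K o c' J' p' t := by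
    intro t
    induction t with
    | zero => exact ⟨fun i hi => (h i hi).2.2, rfl⟩
    | succ t ih =>
      obtain ⟨h1, h2⟩ := ih
      have hm : ∀ i ∈ S, (zst L S).mid K o c J p t i = (zst L S).mid K o c' J' p' t i := by
        intro i hi
        unfold Strat.mid
        rw [h1 i hi, (h i hi).1, (h i hi).2.1]
      constructor
      · intro i hi
        rw [run_succ_fst, run_succ_fst, h2, zdir_local L S _ _ _ hm, hm i hi]
      · rw [mz_succ, mz_succ, h2, zdir_local L S _ _ _ hm, ztg_local L S _ _ _ hm]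
  funext t
  obtain ⟨h1, h2⟩ := key t
  have hm : ∀ i ∈ S, (zst L S).mid K o c J p t i = (zst L S).mid K o c' J' p' t i := by
    intro i hi
    unfold Strat.mid
    rw [h1 i hi, (h i hi).1, (h i hi).2.1]
  rw [pth_eq, pth_eq, h2, zdir_local L S _ _ _ hm]

end MP34e
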