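import Pool.Agent.Work.MP_34e428_co.ZDefs

/-! SPECS (not used by the final files): asymptotics. -/

set_option autoImplicit false

open Finset

namespace MP34e

/-- AS: choice of the parameters (m of order 100 log n, B of order sqrt(n) log n, S₁, TN of order
n log^3 n, S₂ of order n² log n, l of order log n). -/
theorem asymZ (C₁ : ℝ) (hC₁ : 0 < C₁) : ∃ δ : ℝ, 0 < δ ∧ ∃ n₀ : ℕ, ∀ n ≥ n₀, ∀ K o k : ℕ,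
    n + o = 2 * K + 1 → o ≤ 1 → (k : ℝ) ≤ δ * (n * Real.sqrt n) →
    ∃ m B S₁ TN S₂ l T : ℕ, 100 ≤ m ∧ 500000 * (16 * m) + 10 * B + 1000 ≤ K ∧
      S₁ + 8 * K ≤ TN ∧ TN + (l + 1) * (S₂ + 1) + 30 * K ≤ T ∧ (6000 * (16 * m)) ^ 2 ≤ K ∧
      (16 * m) ^ 6 * (K + TN) ^ 2 ≤ K ^ 3 ∧
      (k : ℝ) * ((60000 * ((16 * m : ℕ) : ℝ) + 1) ^ 2 / (n : ℝ) ^ 2 +
          ((T : ℝ) + 1) ^ 2 * (2 * Real.exp (-(((16 * m : ℕ) : ℝ) / 25))) +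
          ((T : ℝ) + 1) ^ 2 * (2 * Real.exp (-((B : ℝ) ^ 2 / (2 * ((4 * K : ℕ) : ℝ))))) +
          ((T : ℝ) + 1) * (1 / 2) ^ (S₁ / (2 * (B + 8000 * (16 * m) + 100 + 2) ^ 2)) +
          ((T : ℝ) + 1) * (1 / 2) ^ (S₂ / (2 * (3 * K + 2) ^ 2))) +
        ((T : ℝ) + 1) ^ 2 * ((k.choose (m + 1)) * 2 ^ (2000 * (16 * m) + 1) *
          (C₁ * ((16 * m : ℕ) : ℝ) * Real.sqrt K / (n : ℝ) ^ 2) ^ (m + 1)) +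
        ((T : ℝ) + 1) ^ 2 * (1 / 2) ^ (m + 2) +
        (k : ℝ) ^ 3 * ((TN : ℝ) + 1) * (2 * ((12000 * (16 * m) : ℕ) : ℝ) + 1) ^ 2 *
          ((200 * (((1000 * (16 * m) : ℕ) : ℝ) + 4)) ^ 2 / (n : ℝ) ^ 2) ^ 3 +
        (k : ℝ) * (1 / 2) ^ l ≤ 1 / 4 := by
  sorry

end MP34e
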