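import Pool.Agent.Work.MP_34e428_co.ZDefs
import Pool.Agent.Work.MP_34e428_co.LHistJ
import Pool.Agent.Work.MP_34e428_co.LCountJ
import Pool.Agent.Work.MP_34e428_co.LValJ
import Pool.Agent.Work.MP_34e428_co.LUnion

/-! SPECS (not used by the final files): one zombie on a fixed path, counting over several
zombies, game value. -/

set_option autoImplicit false

open Finset
open scoped Classical

namespace MP34e

/-- HX: exact history of a near zombie of type A -/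
theorem near_exact {K o R ρ B S₁ TN T : ℕ} (ho : o ≤ 1) (hR : 4 ≤ R)
    (hK : 200 * R + 10 * B + 10 * ρ + 1000 ≤ K)
    (hTN : S₁ + 8 * K ≤ TN) {h e : ℕ → Bool} {J : ℕ → ℤ × ℤ → Bool} (he : BalP R e T)
    (hB : GB B (4 * K) h T)
    (hE : ESC (B + 8 * R + 100) S₁ h T) {p : ℤ × ℤ} (hp : p ∈ boxJ K o) {t : ℕ} (ht : t ≤ T)
    (hd : ∀ s ≤ t, 2 ≤ ds (trJ K o h J e p s)) (hA : tA (trJ K o h J e p t))
    (h3 : ds (trJ K o h J e p t) ≤ 3) : NearA K TN e h t p := by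
  sorry

/-- HX': the same for type B -/
theorem near_exact' {K o R ρ B S₁ TN T : ℕ} (ho : o ≤ 1) (hR : 4 ≤ R)
    (hK : 200 * R + 10 * B + 10 * ρ + 1000 ≤ K)
    (hTN : S₁ + 8 * K ≤ TN) {h e : ℕ → Bool} {J : ℕ → ℤ × ℤ → Bool} (he : BalP R e T)
    (hB : GB B (4 * K) h T)
    (hE : ESC (B + 8 * R + 100) S₁ h T) {p : ℤ × ℤ} (hp : p ∈ boxJ K o) {t : ℕ} (ht : t ≤ T)
    (hd : ∀ s ≤ t, 2 ≤ ds (trJ K o h J e p s)) (hA : tB (trJ K o h J e p t))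
    (h3 : ds (trJ K o h J e p t) ≤ 3) : NearA K TN (nt e) (nt h) t p.swap := by
  sorry

/-- CX: possible initial values -/
theorem card_PX (K : ℕ) (e g : ℕ → Bool) (t : ℕ) (v : ℤ) :
    ((Icc (-(K : ℤ)) K).filter (fun x => PX K e g t v 20 x)).card ≤ 300 := by
  sorry

/-- CW: two disjoint windows -/
theorem two_low {T : ℕ} (L : ℕ) (hL : 1 ≤ L) (e : ℕ → Bool) (s : ℕ) (hs : s ≤ T)
    (he : ∀ t ≤ s, |2 * ct e 0 t - t| ≤ 240 * L) (ρ b τ : ℕ) (h1 : ρ ≤ b) (h2 : b ≤ τ)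
    (h3 : τ ≤ s) :
    ((univ.filter (fun c : Fin T → Bool => Low e (ex c) 8 τ s ∧ Low e (ex c) 8 ρ b)).card : ℝ) ≤
      (4000 * (L : ℝ)) ^ 2 / (Real.sqrt ((s : ℝ) - τ + 1) * Real.sqrt ((b : ℝ) - ρ + 1)) *
        2 ^ T := by
  sorry

/-- CA: starting points and coins of near zombies, fixed path; here `D = 240 L` is reached in
every window of length `6000 L` -/
theorem count_NearA : ∃ C : ℝ, 0 < C ∧ ∀ (K TN L T : ℕ) (e : ℕ → Bool) (a u : ℕ), 1 ≤ L →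
    6000 * L ≤ a → a ≤ u → u ≤ a + 2000 * L → u ≤ T → (6000 * L) ^ 2 ≤ K →
    L ^ 6 * (K + TN) ^ 2 ≤ K ^ 3 → (∀ t ≤ u, |2 * ct e 0 t - t| ≤ 240 * L) →
    (∀ t, t + 6000 * L ≤ u → ∃ s, t ≤ s ∧ s ≤ t + 6000 * L ∧ 2 * ct e 0 s - s = 240 * L) →
    (((box K ×ˢ (univ : Finset (Fin T → Bool))).filter
      (fun x => ∃ s, a ≤ s ∧ s ≤ u ∧ NearA K TN e (ex x.2) s x.1)).card : ℝ) ≤
      C * L * Real.sqrt K * 2 ^ T := by
  sorry

/-- CP: near zombies on a fixed admissible path -/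
theorem fixed_path : ∃ C : ℝ, 0 < C ∧ ∀ (K o L B S₁ S₂ TN T : ℕ) (e : ℕ → Bool) (a u : ℕ),
    o ≤ 1 → 1 ≤ L → 500000 * L + 10 * B + 1000 ≤ K → S₁ + 8 * K ≤ TN → (6000 * L) ^ 2 ≤ K →
    L ^ 6 * (K + TN) ^ 2 ≤ K ^ 3 → a ≤ u → u ≤ a + 2000 * L → u ≤ T → Adm L e u →
    (((SpZ K o T).filter (fun ω => ¬ BadZ K L B S₁ S₂ T ω ∧ NearP K o e a u ω)).card : ℝ) ≤
      C * L * Real.sqrt K * (2 ^ T * 6 ^ T) := by
  sorry

/-- RA: zombies which never influence the survivor can be removed -/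
theorem run_agree (L : ℕ) {k : ℕ} (S : Finset (Fin k)) (K o : ℕ) (c : Fin k → ℕ → Bool)
    (J : Fin k → ℕ → ℤ × ℤ → Bool) (p : Fin k → ℤ × ℤ) (a : ℕ)
    (h : ∀ r < a, ∀ i ∉ S, ¬ infl L ((zst L univ).mid K o c J p r i)) :
    ∀ t ≤ a, ((zst L univ).run K o c J p t).1 = ((zst L S).run K o c J p t).1 ∧
      (((zst L univ).run K o c J p t).2 : ZM) = ((zst L S).run K o c J p t).2 ∧
      (t < a → (zst L univ).pth K o c J p t = (zst L S).pth K o c J p t) := by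
  sorry

/-- RL: the path of the survivor who only takes `S` into account only depends on the data of the
zombies in `S` -/
theorem run_local (L : ℕ) {k : ℕ} (S : Finset (Fin k)) (K o : ℕ) (c c' : Fin k → ℕ → Bool)
    (J J' : Fin k → ℕ → ℤ × ℤ → Bool) (p p' : Fin k → ℤ × ℤ)
    (h : ∀ i ∈ S, c i = c' i ∧ J i = J' i ∧ p i = p' i) :
    (zst L S).pth K o c J p = (zst L S).pth K o c' J' p' := by
  sorry

/-- RC: counting with one dependent factor for each `i ∈ I` -/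
theorem card_dep {Ω : Type*} (S₀ : Finset Ω) (k : ℕ) (I : Finset (Fin k))
    (A : (Fin k → Ω) → Ω → Prop) (hA : ∀ x x', (∀ i ∉ I, x i = x' i) → A x = A x') (b : ℝ)
    (hb : 0 ≤ b) (hc : ∀ x ∈ Fintype.piFinset (fun _ : Fin k => S₀),
      ((S₀.filter (A x)).card : ℝ) ≤ b) :
    (((Fintype.piFinset (fun _ : Fin k => S₀)).filter (fun x => ∀ i ∈ I, A x (x i))).card : ℝ) ≤
      b ^ I.card * (S₀.card : ℝ) ^ (k - I.card) := by
  sorry

/-- coins, jump decisions and starting points of a sample -/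
noncomputable def cZ {k T : ℕ} (x : Fin k → (ℤ × ℤ) × ((Fin T → Bool) × (Fin T → Fin 6))) :
    Fin k → ℕ → Bool := fun i => ex (x i).2.1

noncomputable def JZ (K : ℕ) {k T : ℕ}
    (x : Fin k → (ℤ × ℤ) × ((Fin T → Bool) × (Fin T → Fin 6))) :
    Fin k → ℕ → ℤ × ℤ → Bool := fun i t => jc K (ex6 (x i).2.2 t)

def pZ {k T : ℕ} (x : Fin k → (ℤ × ℤ) × ((Fin T → Bool) × (Fin T → Fin 6))) :
    Fin k → ℤ × ℤ := fun i => (x i).1

/-- RT: many new near zombies in one window -/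
theorem tuple_count {K o k L m T a u : ℕ}
    (Good : (ℤ × ℤ) × ((Fin T → Bool) × (Fin T → Fin 6)) → Prop) (b : ℝ) (hb : 0 ≤ b)
    (hc : ∀ e : ℕ → Bool, Adm L e u →
      (((SpZ K o T).filter (fun ω => Good ω ∧ NearP K o e a u ω)).card : ℝ) ≤ b)
    (hau : a ≤ u) :
    (((Fintype.piFinset (fun _ : Fin k => SpZ K o T)).filter (fun x => (∀ i, Good (x i)) ∧
      (∀ s ≤ u, ∀ i, 2 ≤ ds (((zst L univ).run K o (cZ x) (JZ K x) (pZ x) s).1 i)) ∧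
      Adm L ((zst L univ).pth K o (cZ x) (JZ K x) (pZ x)) u ∧
      m < (univ.filter (fun i : Fin k =>
        (∀ r < a, ¬ infl L ((zst L univ).mid K o (cZ x) (JZ K x) (pZ x) r i)) ∧
        ∃ s, a ≤ s ∧ s ≤ u ∧
          near3 (((zst L univ).run K o (cZ x) (JZ K x) (pZ x) s).1 i))).card)).card : ℝ) ≤
      (k.choose (m + 1)) * 2 ^ (u + 1 - a) * b ^ (m + 1) *
        ((SpZ K o T).card : ℝ) ^ (k - (m + 1)) := by
  sorry

/-- round `s` is blocked -/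
def blkZ {k : ℕ} (mq : ℕ → Fin k → ℤ × ℤ) (s : ℕ) : Prop := ∃ i, EB (mq s i) ∨ NB (mq s i)

/-- the next coin of the first blocking zombie is favourable -/
def goodZ {k : ℕ} (c : Fin k → ℕ → Bool) (mq : ℕ → Fin k → ℤ × ℤ) (s : ℕ) : Prop :=
  ∃ i, (EB (mq s i) ∨ NB (mq s i)) ∧ (∀ j < i, ¬ (EB (mq s j) ∨ NB (mq s j))) ∧
    (EB (mq s i) → c i (s + 1) = true) ∧ (¬ EB (mq s i) → c i (s + 1) = false)

/-- RF: many blocked rounds with few favourable coins -/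
theorem coin_count {K o k L M T : ℕ} :
    (((Fintype.piFinset (fun _ : Fin k => SpZ K o T)).filter (fun x =>
      ∃ a b : ℕ, a ≤ b ∧ b + 1 ≤ T ∧
        8 * M ≤ ((Ico a b).filter
          (blkZ ((zst L univ).mid K o (cZ x) (JZ K x) (pZ x)))).card ∧
        ((Ico a b).filter (goodZ (cZ x)
          ((zst L univ).mid K o (cZ x) (JZ K x) (pZ x)))).card ≤ 2 * M)).card : ℝ) ≤
      ((T : ℝ) + 1) ^ 2 * (1 / 2) ^ M *
        ((Fintype.piFinset (fun _ : Fin k => SpZ K o T)).card : ℝ) := by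
  sorry

/-- RU: three zombies with events at close times -/
theorem ub_three' {α : Type*} (S : Finset α) (k TN W : ℕ) (Fr : ℕ → α → Prop) (r : ℝ)
    (hr0 : 0 ≤ r) (hr : ∀ s ≤ TN, ((S.filter (Fr s)).card : ℝ) ≤ r * S.card) :
    (((Fintype.piFinset (fun _ : Fin k => S)).filter (fun x => ∃ i j l, i ≠ j ∧ i ≠ l ∧ j ≠ l ∧
      ∃ s ≤ TN, ∃ s' ≤ TN, ∃ s'' ≤ TN, s ≤ s' + W ∧ s' ≤ s + W ∧ s ≤ s'' + W ∧ s'' ≤ s + W ∧
        Fr s (x i) ∧ Fr s' (x j) ∧ Fr s'' (x l))).card : ℝ) ≤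
      (k : ℝ) ^ 3 * ((TN : ℝ) + 1) * (2 * W + 1) ^ 2 * r ^ 3 * (S.card : ℝ) ^ k := by
  sorry

/-- VG: value of the game and strategies -/
theorem surv_geG {n K o k : ℕ} [NeZero n] (hn : n + o = 2 * K + 1) (ho : o ≤ 1) (hK : 2 ≤ K)
    (σ : Strat k) (T : ℕ) :
    (((Fintype.piFinset (fun _ : Fin k => SpZ K o T)).filter
      (fun x => (∀ t ≤ T, ∀ i, 2 ≤ ds ((σ.run K o (cZ x) (JZ K x) (pZ x) t).1 i)) ∧
        ∀ i, SafeJ K o ((σ.run K o (cZ x) (JZ K x) (pZ x) T).1 i))).card : ℝ) /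
      (((n : ℝ) ^ 2 * (2 ^ T * 6 ^ T)) ^ k) ≤ surv (tor n) k := by
  sorry

/-- VJ: no jumps -/
theorem count_NoJumpG {K o k : ℕ} (σ : Strat k) (T l T₁ : ℕ) (hT : T₁ ≤ T) (i : Fin k) :
    (((Fintype.piFinset (fun _ : Fin k => SpZ K o T)).filter
      (fun x => NoJump K o (cZ x i) (JZ K x i) (σ.pth K o (cZ x) (JZ K x) (pZ x)) (pZ x i)
        l T₁)).card : ℝ) ≤
      (1 / 2) ^ l * ((Fintype.piFinset (fun _ : Fin k => SpZ K o T)).card : ℝ) := by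
  sorry

end MP34e
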