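import Pool.Agent.Work.MP_34e428_co.ZLocDefs

/-! SPECS (not used by the final files): local analysis. -/

set_option autoImplicit false

open Finset

namespace MP34e

/-- LZ: the strategy is safe and the path is admissible -/
theorem zloc_main {k K L m T : ℕ} {b0 : Bool} {c : Fin k → ℕ → Bool}
    {q mq : ℕ → Fin k → ℤ × ℤ} {mm : ℕ → ZM} {e : ℕ → Bool}
    (X : ZLoc k K L m T b0 c q mq mm e) :
    ∀ u ≤ T, (∀ s ≤ u, ∀ i, 2 ≤ ds (q s i)) ∧ Adm L e u := by
  sorry

end MP34e
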