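import Pool.Agent.Work.MP_34e428_co.ZQ0

/-! SPECS (not used by the final files): queue estimates. Each theorem is a module; the module
proves the statement verbatim in its own file. -/

set_option autoImplicit false

open Finset
open scoped Classical

namespace MP34e

/-- QH: weighted Hoeffding bound for dense windows -/
theorem dense_count {T : ℕ} (a b w : ℕ) (haw : a + w ≤ b) (hb : b ≤ T)
    (F : (Fin T → Bool) → ℝ) (hF : past a F) (hF0 : ∀ c, 0 ≤ F c) :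
    ∑ c : Fin T → Bool, F c * (if 3 * (w : ℤ) ≤ 4 * vc (ex c) (b - w) b then (1 : ℝ) else 0) ≤
      Real.exp (-((w : ℝ) / 8)) * ∑ c : Fin T → Bool, F c := by
  sorry

/-- QF: flipping the last `ℓ + 1` H coins -/
theorem flip_near (ℓ : ℕ) : ∃ C : ℝ, 0 < C ∧ ∀ (T : ℕ) (e : ℕ → Bool) (a u y : ℕ)
    (F : (Fin T → Bool) → ℝ), a ≤ u → u ≤ T → past a F → (∀ c, 0 ≤ F c) →
    ∑ c : Fin T → Bool, F c * ∑ s ∈ Icc a u, (if nearQ e (ex c) y ℓ a s then (1 : ℝ) else 0) ≤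
      C * ∑ c : Fin T → Bool, F c +
      C * ∑ j ∈ Icc 1 (u - a), (j : ℝ) ^ ℓ * ∑ x ∈ Icc (a + j) u, ∑ c : Fin T → Bool,
        F c * (if newmin e (ex c) y a x ∧ Vrun (ex c) j x then (1 : ℝ) else 0) := by
  sorry

/-- QP: pair swapping (exchangeability and Hoeffding) -/
theorem pair_swap {T : ℕ} (e : ℕ → Bool) (y a x w : ℕ) (hw : 1 ≤ w) (hax : a + 2 * w ≤ x)
    (hx : x ≤ T) (F : (Fin T → Bool) → ℝ) (hF : past a F) (hF0 : ∀ c, 0 ≤ F c) (α β : ℝ)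
    (hβα : β ≤ α) :
    ∑ c : Fin T → Bool, F c * (if AQ e (ex c) y a x (2 * w) ∧
        α * w ≤ (vc (ex c) (x - w) x : ℝ) ∧ (vc (ex c) (x - 2 * w) x : ℝ) ≤ β * (2 * w)
        then (1 : ℝ) else 0) ≤
      Real.exp (-(2 * (α - β) ^ 2 * w)) *
        ∑ c : Fin T → Bool, F c * (if AQ e (ex c) y a x (2 * w) then (1 : ℝ) else 0) := by
  sorry

/-- QA: for fixed coins the number of `x` with `AQ` is at most `w` times the depth -/
theorem sum_AQ (e g : ℕ → Bool) (y a u w : ℕ) :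
    ((Icc (a + w) u).filter (fun x => AQ e g y a x w)).card ≤ w * Mq e g y a u := by
  sorry

/-- QN: runs of V before a new minimum -/
theorem newmin_run : ∃ C ρ : ℝ, 0 < C ∧ 0 < ρ ∧ ρ < 1 ∧ ∀ (T : ℕ) (e : ℕ → Bool) (a u y j : ℕ)
    (F : (Fin T → Bool) → ℝ), a ≤ u → u ≤ T → 1 ≤ j → past a F → (∀ c, 0 ≤ F c) →
    ∑ x ∈ Icc (a + j) u, ∑ c : Fin T → Bool,
        F c * (if newmin e (ex c) y a x ∧ Vrun (ex c) j x then (1 : ℝ) else 0) ≤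
      C * ρ ^ j * ∑ c : Fin T → Bool, F c * (1 + (Mq e (ex c) y a u : ℝ)) := by
  sorry

/-- QI: near occupancy is bounded by idle services -/
theorem near_idle (ℓ : ℕ) : ∃ C : ℝ, 0 < C ∧ ∀ (T : ℕ) (e : ℕ → Bool) (a u y : ℕ)
    (F : (Fin T → Bool) → ℝ), a ≤ u → u ≤ T → past a F → (∀ c, 0 ≤ F c) →
    ∑ c : Fin T → Bool, F c * ∑ s ∈ Icc a u, (if nearQ e (ex c) y ℓ a s then (1 : ℝ) else 0) ≤
      C * ∑ c : Fin T → Bool, F c * (1 + (Mq e (ex c) y a u : ℝ)) := by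
  sorry

/-- QO: overshoot of the simple random walk -/
theorem overshoot {T : ℕ} (a b : ℕ) (hab : a ≤ b) (hb : b ≤ T) (R : ℕ) (hR : b ≤ a + R)
    (hR1 : 1 ≤ R) (z v : ℕ) :
    ((univ.filter (fun c : Fin T → Bool =>
      2 * ct (ex c) a b - ((b : ℤ) - a) ≤ -((z : ℤ) + v))).card : ℝ) ≤
    2 * Real.exp (-((v : ℝ) ^ 2 / (2 * R))) *
      ((univ.filter (fun c : Fin T → Bool =>
        2 * ct (ex c) a b - ((b : ℤ) - a) ≤ -(z : ℤ))).card : ℝ) := by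
  sorry

/-- QC: the backward walk sampled at checkpoints -/
theorem check_sum : ∃ C : ℝ, 0 < C ∧ ∀ (T K Rc a m : ℕ) (P : ℕ → Prop), 1 ≤ Rc → Rc ≤ K →
    a ≤ T → (∀ t, t + Rc ≤ a → ∃ s, t ≤ s ∧ s ≤ t + Rc ∧ P s) →
    (∑ τ ∈ Icc (a - 2 * K) a, ((univ.filter (fun c : Fin T → Bool =>
      ∀ r : ℕ, τ ≤ r → r ≤ a → P r → 2 * ct (ex c) r a - ((a : ℤ) - r) ≤ 2 * m)).card : ℝ)) ≤
      C * ((m : ℝ) + Real.sqrt Rc) * Real.sqrt K * 2 ^ T := by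
  sorry

/-- QS: second moment of the maximum of the simple random walk -/
theorem max_sq {T : ℕ} (a u : ℕ) (hau : a ≤ u) (hu : u ≤ T) (F : (Fin T → Bool) → ℝ)
    (hF : past a F) (hF0 : ∀ c, 0 ≤ F c) :
    ∑ c : Fin T → Bool, F c *
      (((Icc a u).sup (fun r => (-(2 * ct (ex c) a r - ((r : ℤ) - a))).toNat) : ℕ) : ℝ) ^ 2 ≤
      16 * ((u : ℝ) - a + 1) * ∑ c : Fin T → Bool, F c := by
  sorry

/-- QM: total mass of low queues in a window of the length of one cycle -/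
theorem queue_mass : ∃ C : ℝ, 0 < C ∧ ∀ (K T Rc a u : ℕ) (e : ℕ → Bool) (Dm : ℤ), 1 ≤ Rc →
    Rc ^ 2 ≤ K → Rc ≤ a → a ≤ u → u ≤ a + Rc → u ≤ T →
    (∀ t ≤ u, 2 * ct e 0 t - t ≤ Dm) →
    (∀ t, t + Rc ≤ u → ∃ s, t ≤ s ∧ s ≤ t + Rc ∧ 2 * ct e 0 s - s = Dm) →
    (∑ s ∈ Icc a u, ∑ τ ∈ Icc (s - 2 * K) s,
      ((univ.filter (fun c : Fin T → Bool => Low e (ex c) 8 τ s)).card : ℝ)) ≤
      C * Rc * Real.sqrt K * 2 ^ T := by
  sorry

end MP34e
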